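import Pool.Agent.Work.MP_5532fa_x.Interface

set_option autoImplicit false

open Finset

namespace Pool.Agent.Work.MP_5532fa_up

namespace X_CANPG

variable {ι : Type} [Fintype ι] [DecidableEq ι]

/-- `P` consists of `|P|` largest entries -/
lemma card_level (P : Finset ι) (n : ι → ℕ) (s : ℕ)
    (hP : ∀ i k, i ∈ P → k ∉ P → n k ≤ n i) :
    (P.filter (fun i => n i = s)).card =
      min (P.card - ((univ : Finset ι).filter (fun i => s < n i)).card)
        ((univ : Finset ι).filter (fun i => n i = s)).card := by
  by_cases h : ∃ k, k ∉ P ∧ s < n k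
  · obtain ⟨k, hk, hnk⟩ := h
    have e1 : P.filter (fun i => n i = s) = ∅ := by
      rw [Finset.filter_eq_empty_iff]
      intro i hi h2
      have := hP i k hi hk
      omega
    have e2 : P.card ≤ ((univ : Finset ι).filter (fun i => s < n i)).card := by
      apply Finset.card_le_card
      intro i hi
      rw [Finset.mem_filter]
      have := hP i k hi hk
      exact ⟨Finset.mem_univ _, by omega⟩
    rw [e1, Finset.card_empty, Nat.sub_eq_zero_of_le e2, Nat.zero_min]
  · push Not at h
    have e1 : ((univ : Finset ι).filter (fun i => s < n i)) = P.filter (fun i => s < n i) := by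
      ext i
      rw [Finset.mem_filter, Finset.mem_filter]
      constructor
      · rintro ⟨_, h2⟩
        refine ⟨?_, h2⟩
        by_contra hi
        have := h i hi
        omega
      · rintro ⟨_, h2⟩; exact ⟨Finset.mem_univ _, h2⟩
    have e3 : (P.filter (fun i => n i = s)).card ≤
        ((univ : Finset ι).filter (fun i => n i = s)).card :=
      Finset.card_le_card (Finset.filter_subset_filter _ (Finset.subset_univ _))
    have e4 : (P.filter (fun i => n i = s)).card + (P.filter (fun i => s < n i)).card ≤ P.card := by
      rw [← Finset.card_union_of_disjoint]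
      · apply Finset.card_le_card
        intro i hi
        rw [Finset.mem_union, Finset.mem_filter, Finset.mem_filter] at hi
        rcases hi with h | h
        · exact h.1
        · exact h.1
      · rw [Finset.disjoint_left]
        intro i hi hi2
        rw [Finset.mem_filter] at hi hi2
        omega
    rw [e1]
    by_cases h' : ∃ k, k ∉ P ∧ n k = s
    · obtain ⟨k, hk, hnk⟩ := h'
      have e5 : P.card ≤ (P.filter (fun i => n i = s)).card +
          (P.filter (fun i => s < n i)).card := by
        rw [← Finset.card_union_of_disjoint]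
        · apply Finset.card_le_card
          intro i hi
          rw [Finset.mem_union, Finset.mem_filter, Finset.mem_filter]
          have := hP i k hi hk
          rcases Nat.lt_or_ge s (n i) with h1 | h1
          · exact Or.inr ⟨hi, h1⟩
          · exact Or.inl ⟨hi, by omega⟩
        · rw [Finset.disjoint_left]
          intro i hi hi2
          rw [Finset.mem_filter] at hi hi2
          omega
      omega
    · push Not at h'
      have e5 : P.filter (fun i => n i = s) =
          (univ : Finset ι).filter (fun i => n i = s) := by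
        ext i
        rw [Finset.mem_filter, Finset.mem_filter]
        constructor
        · rintro ⟨_, h2⟩; exact ⟨Finset.mem_univ _, h2⟩
        · rintro ⟨_, h2⟩
          refine ⟨?_, h2⟩
          by_contra hi
          exact h' i hi h2
      rw [e5] at e4 ⊢
      omega

omit [DecidableEq ι] in
/-- counting through a permutation -/
lemma card_perm (τ : Equiv.Perm ι) (n n' : ι → ℕ) (h : ∀ i, n' (τ i) = n i) (p : ℕ → Prop)
    [DecidablePred p] :
    ((univ : Finset ι).filter (fun i => p (n i))).card =
      ((univ : Finset ι).filter (fun i => p (n' i))).card := by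
  apply Finset.card_bij (fun i _ => τ i)
  · intro i hi
    rw [Finset.mem_filter] at hi ⊢
    exact ⟨Finset.mem_univ _, by rw [h]; exact hi.2⟩
  · intro i _ k _ e
    exact τ.injective e
  · intro k hk
    rw [Finset.mem_filter] at hk
    refine ⟨τ.symm k, ?_, by simp⟩
    rw [Finset.mem_filter]
    refine ⟨Finset.mem_univ _, ?_⟩
    have := h (τ.symm k)
    rw [Equiv.apply_symm_apply] at this
    rw [← this]
    exact hk.2

omit [Fintype ι] [DecidableEq ι] in
/-- a sum below `s * card` has a small term -/
lemma exists_small (S : Finset ι) (a : ι → ℕ) (s : ℕ) (h : ∑ i ∈ S, a i < S.card * s) :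
    ∃ i ∈ S, a i < s := by
  by_contra hc
  push Not at hc
  have h2 : S.card * s ≤ ∑ i ∈ S, a i := by
    have := Finset.card_nsmul_le_sum S a s hc
    rwa [smul_eq_mul] at this
  omega

omit [Fintype ι] [DecidableEq ι] in
lemma exists_large (S : Finset ι) (a : ι → ℕ) (h : S.card < ∑ i ∈ S, a i) :
    ∃ i ∈ S, a i ≠ 1 ∧ a i ≠ 0 := by
  by_contra hc
  push Not at hc
  have h2 : ∑ i ∈ S, a i ≤ S.card := by
    have := Finset.sum_le_card_nsmul S a 1 (fun i hi => by
      have := hc i hi
      by_contra h2
      have h3 : a i ≠ 1 := by omega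
      have := this h3
      omega)
    rwa [smul_eq_mul, mul_one] at this
  omega

end X_CANPG

open X_CANPG in
theorem x_CANPG : Stmt_CANPG := by
  classical
  intro r n a n' a' P P' p0 τ hPc hτ ha hPn hPn' hPa hPa' hQ hQ' hX hX'
  have hlev : ∀ s, (P.filter (fun i => n i = s)).card = (P'.filter (fun i => n' i = s)).card := by
    intro s
    rw [card_level P n s hPn, card_level P' n' s hPn', hPc,
      card_perm τ n n' hτ (fun x => x = s), card_perm τ n n' hτ (fun x => s < x)]
  have hBc : ∀ (P : Finset (Fin r)) (n : Fin r → ℕ) (v : ℕ),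
      (Pᶜ.filter (fun i => n i = v)).card + (P.filter (fun i => n i = v)).card =
        ((univ : Finset (Fin r)).filter (fun i => n i = v)).card := by
    intro P n v
    rw [← Finset.card_union_of_disjoint, ← Finset.filter_union, Finset.union_comm,
      Finset.union_compl]
    exact Finset.disjoint_filter_filter (disjoint_compl_left)
  have hlevc : ∀ s, (Pᶜ.filter (fun i => n i = s)).card =
      (P'ᶜ.filter (fun i => n' i = s)).card := by
    intro s
    have c1 := hBc P n s
    have c2 := hBc P' n' s
    have c3 := hlev s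
    have c4 := card_perm τ n n' hτ (fun x => x = s)
    omega
  have mem : ∀ (P : Finset (Fin r)) (n : Fin r → ℕ) (v : ℕ) (i : Fin r),
      i ∈ Pᶜ.filter (fun i => n i = v) ↔ i ∉ P ∧ n i = v := by
    intro P n v i
    rw [Finset.mem_filter, Finset.mem_compl]
  -- the sums over the levels
  have hout : ∑ i ∈ Pᶜ, a i = ∑ i ∈ P'ᶜ, a' i := by
    have e1 := Finset.sum_add_sum_compl P a
    have e2 := Finset.sum_add_sum_compl P' a'
    rw [Finset.sum_congr rfl hPa, Finset.sum_const, smul_eq_mul] at e1
    rw [Finset.sum_congr rfl hPa', Finset.sum_const, smul_eq_mul, ← hPc] at e2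
    omega
  obtain ⟨M, hM⟩ : ∃ M, ∀ i, n i < M ∧ n' i < M := by
    refine ⟨(∑ i, n i) + (∑ i, n' i) + 1, fun i => ?_⟩
    have e1 := Finset.single_le_sum (f := n) (fun i _ => Nat.zero_le _) (Finset.mem_univ i)
    have e2 := Finset.single_le_sum (f := n') (fun i _ => Nat.zero_le _) (Finset.mem_univ i)
    omega
  have hdec : ∀ (P : Finset (Fin r)) (n a : Fin r → ℕ), (∀ i, n i < M) →
      ∑ i ∈ Pᶜ, a i = ∑ s ∈ Finset.range M, ∑ i ∈ Pᶜ.filter (fun i => n i = s), a i := by
    intro P n a h
    rw [Finset.sum_fiberwise_of_maps_to]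
    intro i _
    exact Finset.mem_range.2 (h i)
  have htot : ∑ s ∈ Finset.range M, ∑ i ∈ Pᶜ.filter (fun i => n i = s), a i =
      ∑ s ∈ Finset.range M, ∑ i ∈ P'ᶜ.filter (fun i => n' i = s), a' i := by
    rw [← hdec P n a (fun i => (hM i).1), ← hdec P' n' a' (fun i => (hM i).2), hout]
  have hle : ∀ (P : Finset (Fin r)) (n a : Fin r → ℕ) (s : ℕ),
      (∀ i, i ∉ P → 1 ≤ a i ∧ a i ≤ n i) →
      ∑ i ∈ Pᶜ.filter (fun i => n i = s), a i ≤ (Pᶜ.filter (fun i => n i = s)).card * s ∧
        (Pᶜ.filter (fun i => n i = s)).card ≤ ∑ i ∈ Pᶜ.filter (fun i => n i = s), a i := by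
    intro P n a s hQ
    constructor
    · have := Finset.sum_le_card_nsmul (Pᶜ.filter (fun i => n i = s)) a s (fun i hi => by
        rw [mem] at hi
        have := (hQ i hi.1).2
        omega)
      rwa [smul_eq_mul] at this
    · have := Finset.card_nsmul_le_sum (Pᶜ.filter (fun i => n i = s)) a 1 (fun i hi => by
        rw [mem] at hi
        exact (hQ i hi.1).1)
      rwa [smul_eq_mul, mul_one] at this
  have heq : ∀ s, ∑ i ∈ Pᶜ.filter (fun i => n i = s), a i =
      ∑ i ∈ P'ᶜ.filter (fun i => n' i = s), a' i := by
    by_contra hc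
    push Not at hc
    obtain ⟨s0, hs0⟩ := hc
    have hex : ∀ (f g : ℕ → ℕ), ∑ s ∈ Finset.range M, f s = ∑ s ∈ Finset.range M, g s →
        (∀ s, M ≤ s → f s = g s) → (∃ s, f s ≠ g s) → ∃ s, g s < f s := by
      intro f g h1 h2 ⟨s, h3⟩
      by_contra h4
      push Not at h4
      have hsM : s ∈ Finset.range M := by
        rw [Finset.mem_range]
        by_contra h5
        exact h3 (h2 s (by omega))
      have := (Finset.sum_eq_sum_iff_of_le (fun i _ => h4 i)).1 h1 s hsM
      exact h3 this
    have hbig : ∀ s, M ≤ s → ∑ i ∈ Pᶜ.filter (fun i => n i = s), a i =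
        ∑ i ∈ P'ᶜ.filter (fun i => n' i = s), a' i := by
      intro s hs
      have e1 : Pᶜ.filter (fun i => n i = s) = ∅ := by
        rw [Finset.filter_eq_empty_iff]
        intro i _ h
        have := (hM i).1
        omega
      have e2 : P'ᶜ.filter (fun i => n' i = s) = ∅ := by
        rw [Finset.filter_eq_empty_iff]
        intro i _ h
        have := (hM i).2
        omega
      rw [e1, e2, Finset.sum_empty, Finset.sum_empty]
    obtain ⟨s1, hs1⟩ := hex _ _ htot hbig ⟨s0, hs0⟩
    obtain ⟨s2, hs2⟩ := hex _ _ htot.symm (fun s hs => (hbig s hs).symm) ⟨s0, fun h => hs0 h.symm⟩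
    have b1 := hle P n a s1 hQ
    have b2 := hle P n a s2 hQ
    have b1' := hle P' n' a' s1 hQ'
    have b2' := hle P' n' a' s2 hQ'
    have c1 := hlevc s1
    have c2 := hlevc s2
    rcases Nat.lt_trichotomy s1 s2 with h | h | h
    · obtain ⟨i, hi, hi1⟩ := exists_small (P'ᶜ.filter (fun i => n' i = s1)) a' s1 (by
        rw [← c1]; omega)
      obtain ⟨k, hk, hk1, -⟩ := exists_large (P'ᶜ.filter (fun i => n' i = s2)) a' (by
        rw [← c2]; omega)
      rw [mem] at hi hk
      rcases (hX' i k hi.1 hk.1).2 (by omega) with h1 | h1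
      · omega
      · exact hk1 h1
    · subst h; omega
    · obtain ⟨i, hi, hi1⟩ := exists_small (Pᶜ.filter (fun i => n i = s2)) a s2 (by
        rw [c2]; omega)
      obtain ⟨k, hk, hk1, -⟩ := exists_large (Pᶜ.filter (fun i => n i = s1)) a (by
        rw [c1]; omega)
      rw [mem] at hi hk
      rcases (hX i k hi.1 hk.1).2 (by omega) with h1 | h1
      · omega
      · exact hk1 h1
  have hval : ∀ s v, ((Pᶜ.filter (fun i => n i = s)).filter (fun i => a i = v)).card =
      ((P'ᶜ.filter (fun i => n' i = s)).filter (fun i => a' i = v)).card := by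
    intro s v
    apply CANP.bal_eq _ _ a a' (hlevc s) (heq s)
    · intro i hi k hk
      rw [mem] at hi hk
      exact (hX i k hi.1 hk.1).1 (by omega)
    · intro i hi k hk
      rw [mem] at hi hk
      exact (hX' i k hi.1 hk.1).1 (by omega)
  obtain ⟨σ, hσ⟩ := CANP.perm_of_fibres
    (fun i : Fin r => ((decide (i ∈ P), n i, a i) : Bool × ℕ × ℕ))
    (fun i : Fin r => ((decide (i ∈ P'), n' i, a' i) : Bool × ℕ × ℕ)) (by
      rintro ⟨b, v, w⟩
      have red : ∀ (P : Finset (Fin r)) (n a : Fin r → ℕ),
          (∀ i, i ∈ P → a i = p0) →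
          ((univ : Finset (Fin r)).filter
            (fun i => ((decide (i ∈ P), n i, a i) : Bool × ℕ × ℕ) = (b, v, w))).card =
          if b = true then (if w = p0 then (P.filter (fun i => n i = v)).card else 0)
          else ((Pᶜ.filter (fun i => n i = v)).filter (fun i => a i = w)).card := by
        intro P n a hPa
        cases b with
        | true =>
          rw [if_pos rfl]
          by_cases hw : w = p0
          · rw [if_pos hw]
            congr 1
            ext i
            simp only [Finset.mem_filter, Finset.mem_univ, true_and, Prod.mk.injEq,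
              decide_eq_true_eq]
            constructor
            · rintro ⟨h1, h2, _⟩; exact ⟨h1, h2⟩
            · rintro ⟨h1, h2⟩; exact ⟨h1, h2, by rw [hPa i h1, hw]⟩
          · rw [if_neg hw, Finset.card_eq_zero, Finset.filter_eq_empty_iff]
            intro i _
            simp only [Prod.mk.injEq, decide_eq_true_eq, not_and]
            intro h1 _ h3
            exact hw (by rw [← h3, hPa i h1])
        | false =>
          rw [if_neg (by simp)]
          congr 1
          ext i
          simp only [Finset.mem_filter, Finset.mem_univ, true_and, Prod.mk.injEq,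
            decide_eq_false_iff_not, Finset.mem_compl]
          tauto
      rw [red P n a hPa, red P' n' a' hPa', hlev v, hval v w])
  refine ⟨σ, fun i => ?_⟩
  have := hσ i
  simp only [Prod.mk.injEq, decide_eq_decide] at this
  exact ⟨this.1.symm, this.2.1, this.2.2⟩

end Pool.Agent.Work.MP_5532fa_up
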