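import Pool.Agent.Work.MP_5532fa_x.Interface3

/-! Block CLO: lower bounds for the secular function of the three forms. -/

open Finset

namespace Pool.Agent.Work.MP_5532fa_up

open MP5532fa (specRad qf pE)

namespace X_CLO

theorem kk_eq {r n m : ℕ} {y : Fin r → ℕ} {s : ℝ}
    (h : 2 * (m : ℝ) = (n : ℝ) ^ 2 - ∑ i, (y i : ℝ) ^ 2 + 2 * s) :
    kk m n y = s - ((r : ℝ) - 1) := by
  unfold kk
  linarith

theorem sz_re {V : Type} {r : ℕ} {H : Finset V} {c : V → Fin r} {y : Fin r → ℕ}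
    (h : ∀ i, (cl H c i).card = y i) : sz H c = re y := by
  funext i
  unfold sz re
  rw [h i]

end X_CLO

theorem x_CLO (hGS : Stmt_GS) (hC0 : Stmt_C0W) : Stmt_CLO := by
  intro r e hr he
  have hr3 : (3 : ℝ) ≤ r := by exact_mod_cast hr
  have he0 : 0 < e / ((r : ℝ) + 3) := by positivity
  obtain ⟨δD, nD, hδD, hD⟩ := pSECD r (e / ((r : ℝ) + 3)) hr he0
  obtain ⟨δE, nE, hδE, hE⟩ := pSECE r (e / ((r : ℝ) + 3)) hr he0
  obtain ⟨δF, nF, hδF, hF⟩ := pSECF r (e / ((r : ℝ) + 3)) hr he0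
  set d : ℝ := min δD (min δE δF) with hd
  have hd0 : 0 < d := lt_min hδD (lt_min hδE hδF)
  have hdD : d ≤ δD := min_le_left _ _
  have hdE : d ≤ δE := le_trans (min_le_right _ _) (min_le_left _ _)
  have hdF : d ≤ δF := le_trans (min_le_right _ _) (min_le_right _ _)
  refine ⟨d / 4, max nD (max nE (max nF ⌈2 * ((r : ℝ) + 4) / d⌉₊)), by positivity, ?_⟩
  intro n hn m y V _ G hm hbal hk
  have hnD : nD ≤ n := le_trans (le_max_left _ _) hn
  have hnE : nE ≤ n := le_trans (le_trans (le_max_left _ _) (le_max_right _ _)) hn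
  have hnF : nF ≤ n := le_trans (le_trans (le_trans (le_max_left _ _) (le_max_right _ _))
    (le_max_right _ _)) hn
  have hnc : ⌈2 * ((r : ℝ) + 4) / d⌉₊ ≤ n := le_trans (le_trans (le_trans (le_max_right _ _)
    (le_max_right _ _)) (le_max_right _ _)) hn
  have hn1 : 2 * ((r : ℝ) + 4) / d ≤ n := (Nat.le_ceil _).trans (by exact_mod_cast hnc)
  rw [div_le_iff₀ hd0] at hn1
  have hn0 : (0 : ℝ) ≤ n := Nat.cast_nonneg n
  have hdn : 0 ≤ d * n := mul_nonneg hd0.le hn0
  have hkk := abs_le.1 hk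
  have hmul : ∀ a b : ℝ, 0 ≤ b → a ≤ ((r : ℝ) + 3) * b → e / ((r : ℝ) + 3) * a ≤ e * b := by
    intro a b hb hab
    have h1 : e / ((r : ℝ) + 3) * a ≤ e / ((r : ℝ) + 3) * (((r : ℝ) + 3) * b) :=
      mul_le_mul_of_nonneg_left hab he0.le
    have h2 : e / ((r : ℝ) + 3) * (((r : ℝ) + 3) * b) = e * b := by
      field_simp
    linarith
  refine ⟨?_, ?_, ?_⟩
  · rintro ⟨H, c, w, A, v1, v2, hW, hy, -, -⟩
    have hsz : sz H c = re y := X_CLO.sz_re hy
    have hpE := (pGD r hr V G n H c w A v1 v2 hW).2.2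
    rw [hsz] at hpE
    have hkA : kk m n y = A.card - r := by
      have h1 : 2 * (m : ℝ) = (n : ℝ) ^ 2 - ∑ i, (y i : ℝ) ^ 2 + 2 * ((A.card : ℝ) - 1) := by
        rw [← hm, hpE]
        simp only [re]
        ring
      rw [X_CLO.kk_eq h1]
      ring
    have hAr : (r : ℝ) ≤ A.card := by
      have h1 : ∑ i : Fin r, 1 ≤ ∑ i, (cl A c i).card :=
        sum_le_sum fun i _ => Finset.card_pos.2 (hW.hne i)
      rw [sum_card_cl] at h1
      simp at h1
      exact_mod_cast h1
    have hk0 : 0 ≤ kk m n y := by rw [hkA]; linarith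
    refine ⟨hk0, ?_⟩
    have : Nonempty V := ⟨w⟩
    obtain ⟨x, hx⟩ := exists_PV G
    have hC : C0 r δD n G c H := by
      refine ((hC0 r hr δD n V G H c w ?_).1 A v1 v2 hW).2 ?_
      · intro i
        rw [hsz]
        refine (hbal i).trans ?_
        exact mul_le_mul_of_nonneg_right (by linarith) hn0
      · have h1 : (A.card : ℝ) = kk m n y + r := by rw [hkA]; ring
        have h2 : d * n ≤ δD * n := mul_le_mul_of_nonneg_right hdD hn0
        rw [h1]
        linarith [hkk.2]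
    have h := (hD n hnD V G x (specRad G) c H w A v1 v2 hC hx hW).1
    rw [hsz] at h
    rw [abs_of_nonneg hk0]
    have h2 := hmul (1 + (A.card : ℝ)) (1 + kk m n y) (by linarith) (by
      have h1 : (A.card : ℝ) = kk m n y + r := by rw [hkA]; ring
      rw [h1]
      nlinarith [mul_nonneg (by linarith : (0 : ℝ) ≤ r) hk0])
    linarith
  · rintro ⟨H, c, w, u, A, B, i0, hW, hy, -, -, -⟩
    have hsz : sz H c = re y := X_CLO.sz_re hy
    have hpE := (pGE r hr V G n H c w u A B i0 hW).2.2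
    rw [hsz] at hpE
    have hkA : kk m n y = A.card + 1 := by
      have h1 : 2 * (m : ℝ) = (n : ℝ) ^ 2 - ∑ i, (y i : ℝ) ^ 2 + 2 * ((A.card : ℝ) + r) := by
        rw [← hm, hpE]
        simp only [re]
        ring
      rw [X_CLO.kk_eq h1]
      ring
    have hAr : (r : ℝ) ≤ A.card + 1 := by exact_mod_cast W2.card_WE hW
    have hk0 : (r : ℝ) ≤ kk m n y := by rw [hkA]; exact hAr
    refine ⟨hk0, ?_⟩
    have : Nonempty V := ⟨w⟩
    obtain ⟨x, hx⟩ := exists_PV G
    have hC : C0 r δE n G c H := by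
      refine ((hC0 r hr δE n V G H c w ?_).2.1 u A B i0 hW).2 ?_
      · intro i
        rw [hsz]
        refine (hbal i).trans ?_
        exact mul_le_mul_of_nonneg_right (by linarith) hn0
      · have h2 : d * n ≤ δE * n := mul_le_mul_of_nonneg_right hdE hn0
        linarith [hkk.2]
    have h := hE n hnE V G x (specRad G) c H w u A B i0 hC hx hW
    rw [hsz] at h
    have hkn : 0 ≤ kk m n y := by linarith
    rw [abs_of_nonneg hkn]
    have h2 := hmul (1 + (A.card : ℝ)) (1 + kk m n y) (by linarith) (by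
      have h1 : 1 + (A.card : ℝ) = kk m n y := by rw [hkA]; ring
      rw [h1]
      nlinarith [mul_nonneg (by linarith : (0 : ℝ) ≤ r) hkn])
    linarith
  · rintro ⟨H, c, w, T, L, p, q, hW, hy, hL2, -, -⟩
    have hsz : sz H c = re y := X_CLO.sz_re hy
    obtain ⟨hWF, hmis, -, -, hpE⟩ := hGS r hr V G n H c w T L p q hW
    rw [hsz] at hpE
    have hkA : kk m n y = 1 - L.card := by
      have h1 : 2 * (m : ℝ) = (n : ℝ) ^ 2 - ∑ i, (y i : ℝ) ^ 2 + 2 * ((r : ℝ) - L.card) := by
        rw [← hm, hpE]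
        simp only [re]
        ring
      rw [X_CLO.kk_eq h1]
      ring
    have hLr : (2 : ℝ) ≤ L.card := by exact_mod_cast hL2
    have hk1 : kk m n y ≤ -1 := by rw [hkA]; linarith
    refine ⟨hk1, ?_⟩
    have : Nonempty V := ⟨w⟩
    obtain ⟨x, hx⟩ := exists_PV G
    have hmisR : (mis G H c : ℝ) = 2 * (1 - kk m n y) := by
      rw [hmis, hkA]
      push_cast
      ring
    have hC : C0 r δF n G c H := by
      refine (hC0 r hr δF n V G H c w ?_).2.2 T L p q hW ?_
      · intro i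
        rw [hsz]
        refine (hbal i).trans ?_
        exact mul_le_mul_of_nonneg_right (by linarith) hn0
      · have h2 : d * n ≤ δF * n := mul_le_mul_of_nonneg_right hdF hn0
        have h1 : (L.card : ℝ) = 1 - kk m n y := by rw [hkA]; ring
        rw [h1]
        linarith [hkk.1]
    have h := hF n hnF V G x (specRad G) c H w T hC hx hWF
    rw [hsz, hmisR] at h
    rw [abs_of_nonpos (by linarith : kk m n y ≤ 0)]
    have h2 := hmul (1 + 2 * (1 - kk m n y)) (1 + -kk m n y) (by linarith) (by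
      nlinarith [mul_nonneg (by linarith : (0 : ℝ) ≤ r) (by linarith : 0 ≤ -kk m n y)])
    linarith

end Pool.Agent.Work.MP_5532fa_up
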