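import Pool.Agent.Work.MP_5532fa_x.Interface4

/-! # MP_5532fa_co, block CLOR (helper85): lower bounds for the secular function of the three forms,
error `O(1/√n)` (adapted from B_CLO.lean and B_CUPR.lean) -/

open Finset

namespace Pool.Agent.Work.MP_5532fa_up

open MP5532fa (specRad qf pE)

namespace X_CLOR

theorem kk_eq {r n m : ℕ} {y : Fin r → ℕ} {s : ℝ}
    (h : 2 * (m : ℝ) = (n : ℝ) ^ 2 - ∑ i, (y i : ℝ) ^ 2 + 2 * s) :
    kk m n y = s - ((r : ℝ) - 1) := by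
  unfold kk
  linarith

theorem sz_re {V : Type} {r : ℕ} {H : Finset V} {c : V → Fin r} {y : Fin r → ℕ}
    (h : ∀ i, (cl H c i).card = y i) : sz H c = re y := by
  funext i
  unfold sz re
  rw [h i]

theorem fin {r : ℕ} (hr : 3 ≤ r) {K s P μ E κ : ℝ} (hs : 0 < s) (hK : 1 ≤ K) (hκ : 0 ≤ κ)
    (h : |P - μ| ≤ K * (μ + E) / s) (hμE : μ + E ≤ ((r : ℝ) + 2) * (1 + κ)) :
    μ / al r - 2 * K * ((r : ℝ) + 2) * (1 + κ) / s ≤ P / al r := by
  have ha := al_ge hr
  have ha0 : 0 < al r := by linarith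
  have hr0 : (0 : ℝ) ≤ r := Nat.cast_nonneg r
  have h1 := (abs_le.1 h).1
  set B : ℝ := K * (((r : ℝ) + 2) * (1 + κ)) / s with hB
  have hB0 : 0 ≤ B := by positivity
  have h2 : K * (μ + E) / s ≤ B := by
    rw [hB]
    exact div_le_div_of_nonneg_right (mul_le_mul_of_nonneg_left hμE (by linarith)) hs.le
  have h3 : 2 * K * ((r : ℝ) + 2) * (1 + κ) / s = 2 * B := by rw [hB]; ring
  rw [h3, le_div_iff₀ ha0, sub_mul, div_mul_cancel₀ _ ha0.ne']
  nlinarith

end X_CLOR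

theorem x_CLOR (hGS : Stmt_GS) (hEOW : Stmt_EOW) (hS : Stmt_SECR) : Stmt_CLOR := by
  intro r hr
  have hr3 : (3 : ℝ) ≤ r := by exact_mod_cast hr
  have hr0 : (0 : ℝ) < r := by linarith
  have hr1 : (0 : ℝ) < (r : ℝ) - 1 := by linarith
  have hal : al r = ((r : ℝ) - 1) / r := by
    unfold al
    field_simp
  obtain ⟨K, nS, hK, hS⟩ := hS r hr
  have hKK : K ≤ 2 * K * ((r : ℝ) + 2) := by nlinarith
  refine ⟨2 * K * ((r : ℝ) + 2), max nS (64 * r ^ 2), by linarith, ?_⟩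
  intro n hn m y V _ G c0 hm hbal hk hF
  have hnS : nS ≤ n := le_trans (le_max_left _ _) hn
  have hn64 : 64 * r ^ 2 ≤ n := le_trans (le_max_right _ _) hn
  have hn0 : (0 : ℝ) ≤ n := Nat.cast_nonneg n
  have hn64R : 64 * (r : ℝ) ^ 2 ≤ n := by exact_mod_cast hn64
  set s : ℝ := √(n : ℝ) with hs
  have hs8 : 8 * (r : ℝ) ≤ s := by
    rw [hs]
    apply Real.le_sqrt_of_sq_le
    nlinarith
  have hs0 : 0 < s := by linarith
  have hka := abs_le.1 hk
  have hsz' : ∀ {H : Finset V} {c : V → Fin r},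
      (∀ i, (cl H c i).card = y i) → ∀ i, |sz H c i - n / r| ≤ 2 * s := by
    intro H c hy i
    rw [X_CLOR.sz_re hy]
    exact hbal i
  rcases hF with ⟨⟨H, c, w, A, v1, v2, hW, hy, -, -⟩, hk0, hc⟩ |
    ⟨⟨H, c, w, u, A, B, i0, hW, hy, -, -, -⟩, hkr, hc⟩ |
    ⟨⟨H, c, w, T, L, p, q, hW, hy, hL2, -, -⟩, hk1, hc⟩
  · have hsz : sz H c = re y := X_CLOR.sz_re hy
    have hpE := (pGD r hr V G n H c w A v1 v2 hW).2.2
    rw [hsz] at hpE
    have hkA : kk m n y = A.card - r := by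
      have h1 : 2 * (m : ℝ) = (n : ℝ) ^ 2 - ∑ i, (y i : ℝ) ^ 2 + 2 * ((A.card : ℝ) - 1) := by
        rw [← hm, hpE]
        simp only [re]
        ring
      rw [X_CLOR.kk_eq h1]
      ring
    have hAR : (A.card : ℝ) = kk m n y + r := by rw [hkA]; ring
    obtain ⟨hmis, heo⟩ := (hEOW r hr n _ G H c w).1 A v1 v2 hW
    have heoR : (eo G H : ℝ) ≤ kk m n y + r := by rw [← hAR]; exact_mod_cast heo
    have hmisR : (mis G H c : ℝ) = 2 := by rw [hmis]; norm_num
    have : Nonempty V := ⟨w⟩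
    obtain ⟨x, hx⟩ := exists_PV G
    have hind : ∀ u ∈ H, ∀ v ∈ H, c u = c v → ¬ G.Adj u v := by
      intro u hu v hv huv hadj
      rcases (hW.adj u v).1 hadj with h | h | h
      · exact h.2.2.1 huv
      · exact hW.hw (h.1 ▸ hu)
      · exact hW.hw (h.1 ▸ hv)
    obtain ⟨hlam, h⟩ := hS n hnS _ G x (specRad G) c H hW.card hind (hsz' hy)
      (by rw [hmisR]; linarith) (by linarith [hka.2]) hx
    rw [hsz, hmisR] at h
    refine ⟨hlam.trans hKK, ?_⟩
    have h2 := X_CLOR.fin hr hs0 hK hk0 h (by nlinarith)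
    rw [abs_of_nonneg hk0]
    refine le_trans (le_of_eq ?_) h2
    rw [hc, hal]
    field_simp
    ring
  · have hsz : sz H c = re y := X_CLOR.sz_re hy
    have hpE := (pGE r hr V G n H c w u A B i0 hW).2.2
    rw [hsz] at hpE
    have hkA : kk m n y = A.card + 1 := by
      have h1 : 2 * (m : ℝ) = (n : ℝ) ^ 2 - ∑ i, (y i : ℝ) ^ 2 + 2 * ((A.card : ℝ) + r) := by
        rw [← hm, hpE]
        simp only [re]
        ring
      rw [X_CLOR.kk_eq h1]
      ring
    have hkn : 0 ≤ kk m n y := by linarith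
    obtain ⟨hmis, heo⟩ := (hEOW r hr n _ G H c w).2.1 u A B i0 hW
    have heoR : (eo G H : ℝ) ≤ kk m n y + r := by
      have h1 : (eo G H : ℝ) ≤ A.card + r + 1 := by exact_mod_cast heo
      rw [hkA]
      linarith
    have hmisR : (mis G H c : ℝ) = 0 := by rw [hmis]; norm_num
    have : Nonempty V := ⟨w⟩
    obtain ⟨x, hx⟩ := exists_PV G
    have hind : ∀ a ∈ H, ∀ b ∈ H, c a = c b → ¬ G.Adj a b := by
      intro a ha b hb hab hadj
      rcases (hW.adj a b).1 hadj with h | h | h | h | h | h | h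
      · exact h.2.2 hab
      · exact hW.hw (h.1 ▸ ha)
      · exact hW.hw (h.1 ▸ hb)
      · exact hW.hu (h.1 ▸ ha)
      · exact hW.hu (h.1 ▸ hb)
      · exact hW.hw (h.1 ▸ ha)
      · exact hW.hu (h.1 ▸ ha)
    obtain ⟨hlam, h⟩ := hS n hnS _ G x (specRad G) c H hW.card hind (hsz' hy)
      (by rw [hmisR]; linarith) (by linarith [hka.2]) hx
    rw [hsz, hmisR] at h
    refine ⟨hlam.trans hKK, ?_⟩
    have h2 := X_CLOR.fin hr hs0 hK hkn h (by nlinarith)
    rw [abs_of_nonneg hkn]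
    refine le_trans (le_of_eq ?_) h2
    rw [hc, zero_div]
    ring
  · have hsz : sz H c = re y := X_CLOR.sz_re hy
    obtain ⟨hWF, hmis, -, -, hpE⟩ := hGS r hr V G n H c w T L p q hW
    rw [hsz] at hpE
    have hkA : kk m n y = 1 - L.card := by
      have h1 : 2 * (m : ℝ) = (n : ℝ) ^ 2 - ∑ i, (y i : ℝ) ^ 2 + 2 * ((r : ℝ) - L.card) := by
        rw [← hm, hpE]
        simp only [re]
        ring
      rw [X_CLOR.kk_eq h1]
      ring
    have hkn : 0 ≤ -kk m n y := by linarith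
    have heo := ((hEOW r hr n _ G H c w).2.2 T L p q hW).2
    have heoR : (eo G H : ℝ) ≤ r := by exact_mod_cast heo
    have hmisR : (mis G H c : ℝ) = 2 * (1 - kk m n y) := by
      rw [hmis, hkA]
      push_cast
      ring
    have : Nonempty V := ⟨w⟩
    obtain ⟨x, hx⟩ := exists_PV G
    have hind : ∀ u ∈ H, ∀ v ∈ H, c u = c v → ¬ G.Adj u v := by
      intro u hu v hv huv hadj
      rcases (hW.adj u v).1 hadj with h | h | h
      · exact h.2.2.1 huv
      · exact hW.hw (h.1 ▸ hu)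
      · exact hW.hw (h.1 ▸ hv)
    obtain ⟨hlam, h⟩ := hS n hnS _ G x (specRad G) c H hW.card hind (hsz' hy)
      (by rw [hmisR]; linarith [hka.1]) (by linarith) hx
    rw [hsz, hmisR] at h
    refine ⟨hlam.trans hKK, ?_⟩
    have h2 := X_CLOR.fin hr hs0 hK hkn h (by nlinarith)
    rw [abs_of_nonpos (by linarith : kk m n y ≤ 0)]
    refine le_trans (le_of_eq ?_) h2
    rw [hc, hal]
    field_simp
    ring

end Pool.Agent.Work.MP_5532fa_up
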