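import Pool.Agent.Work.MP_5532fa_x.Interface2

/-!
# Block CMPG (helper38): comparison of an extremal gadget with another gadget
-/

open Finset

namespace Pool.Agent.Work.MP_5532fa_up

open MP5532fa (specRad qf pE)

namespace X_CMPG

private lemma inv_step {p d s : ℝ} (hs : 0 < s) (hp : s ≤ p) (hd : 0 ≤ d) :
    0 < 1 / p ∧ 1 / p ≤ 1 / s ∧ 0 < 1 / (p + d) ∧ 1 / (p + d) ≤ 1 / s ∧
      1 / p - 1 / (p + d) = d * (1 / p) * (1 / (p + d)) := by
  have hp0 : 0 < p := lt_of_lt_of_le hs hp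
  have hpd : 0 < p + d := by linarith
  refine ⟨by positivity, one_div_le_one_div_of_le hs hp, by positivity,
    one_div_le_one_div_of_le hs (by linarith), ?_⟩
  field_simp
  ring

private lemma tri_le {u v w e : ℝ} (hu : 0 < u) (hv : 0 < v) (hw : 0 < w) (hue : u ≤ e)
    (hve : v ≤ e) (hwe : w ≤ e) : u * v * w ≤ e ^ 3 := by
  have he : 0 < e := lt_of_lt_of_le hu hue
  calc u * v * w ≤ e * e * e := by gcongr
    _ = e ^ 3 := by ring

lemma term1 {s d a b : ℝ} (hs : 0 < s) (hd : 0 ≤ d) (ha : 0 ≤ a) (hb : 0 ≤ b) :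
    2 / ((s + a) * (s + b)) - 2 / ((s + d + a) * (s + d + b)) ≤ 4 * d * (1 / s) ^ 3 := by
  obtain ⟨u0, u1, U0, U1, hu⟩ := inv_step hs (show s ≤ s + a by linarith) hd
  obtain ⟨v0, v1, W0, W1, hv⟩ := inv_step hs (show s ≤ s + b by linarith) hd
  have e1 : 2 / ((s + a) * (s + b)) = 2 * (1 / (s + a)) * (1 / (s + b)) := by
    have h1 : s + a ≠ 0 := by positivity
    have h2 : s + b ≠ 0 := by positivity
    field_simp
  have e2 : 2 / ((s + d + a) * (s + d + b)) = 2 * (1 / (s + a + d)) * (1 / (s + b + d)) := by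
    have h1 : s + a + d ≠ 0 := by positivity
    have h2 : s + b + d ≠ 0 := by positivity
    have h3 : s + d + a ≠ 0 := by positivity
    have h4 : s + d + b ≠ 0 := by positivity
    rw [show s + d + a = s + a + d by ring, show s + d + b = s + b + d by ring]
    field_simp
  rw [e1, e2]
  set u := 1 / (s + a)
  set v := 1 / (s + b)
  set U := 1 / (s + a + d)
  set W := 1 / (s + b + d)
  have h1 := tri_le u0 U0 v0 u1 U1 v1
  have h2 := tri_le U0 v0 W0 U1 v1 W1
  have h3 : 2 * u * v - 2 * U * W = 2 * d * (u * U * v) + 2 * d * (U * v * W) := by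
    have : 2 * u * v - 2 * U * W = 2 * (u - U) * v + 2 * U * (v - W) := by ring
    rw [this, hu, hv]
    ring
  rw [h3]
  have h4 : 2 * d * (u * U * v) ≤ 2 * d * (1 / s) ^ 3 := by gcongr
  have h5 : 2 * d * (U * v * W) ≤ 2 * d * (1 / s) ^ 3 := by gcongr
  linarith

lemma gg_mono (r : ℕ) {s t a b : ℝ} (hs : 0 < s) (hst : s ≤ t) (ha : 0 ≤ a) (hb : 0 ≤ b) :
    gg r s a b - gg r t a b ≤ 4 * (t - s) * (1 / s) ^ 3 := by
  have ht : 0 < t := lt_of_lt_of_le hs hst
  have h1 := term1 hs (show 0 ≤ t - s by linarith) ha hb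
  rw [show s + (t - s) = t by ring] at h1
  have h2 : (1 / (t + a) ^ 2 + 1 / (t + b) ^ 2) / t ≤ (1 / (s + a) ^ 2 + 1 / (s + b) ^ 2) / s := by
    have e1 : 1 / (t + a) ^ 2 ≤ 1 / (s + a) ^ 2 :=
      one_div_le_one_div_of_le (by positivity) (by gcongr)
    have e2 : 1 / (t + b) ^ 2 ≤ 1 / (s + b) ^ 2 :=
      one_div_le_one_div_of_le (by positivity) (by gcongr)
    have e3 : 0 ≤ 1 / (s + a) ^ 2 + 1 / (s + b) ^ 2 := by positivity
    calc (1 / (t + a) ^ 2 + 1 / (t + b) ^ 2) / t ≤ (1 / (s + a) ^ 2 + 1 / (s + b) ^ 2) / t := by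
          gcongr
      _ ≤ (1 / (s + a) ^ 2 + 1 / (s + b) ^ 2) / s := by gcongr
  have h3 : ((r : ℝ) - 1) ^ 2 / t ^ 3 ≤ ((r : ℝ) - 1) ^ 2 / s ^ 3 := by gcongr
  unfold gg
  linarith

lemma Ph_mono {r : ℕ} {y : Fin r → ℝ} {s t n : ℝ} (hs : 0 < s) (hst : s ≤ t) (htn : t ≤ n)
    (h0 : ∀ l, 0 ≤ y l) (h1 : ∀ l, y l ≤ n) (hsum : ∑ l, y l = n) :
    (t - s) / (4 * n) ≤ Ph y s - Ph y t := by
  have ht : 0 < t := lt_of_lt_of_le hs hst
  have hn : 0 < n := lt_of_lt_of_le ht htn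
  have key : ∀ l, y l * ((t - s) / (4 * n ^ 2)) ≤ y l / (s + y l) - y l / (t + y l) := by
    intro l
    have a1 := h0 l
    have a2 := h1 l
    have e1 : y l / (s + y l) - y l / (t + y l) = y l * ((t - s) / ((s + y l) * (t + y l))) := by
      have : s + y l ≠ 0 := by positivity
      have : t + y l ≠ 0 := by positivity
      field_simp
      ring
    rw [e1]
    refine mul_le_mul_of_nonneg_left ?_ a1
    refine div_le_div_of_nonneg_left (by linarith) (by positivity) ?_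
    have b1 : s + y l ≤ 2 * n := by linarith
    have b2 : t + y l ≤ 2 * n := by linarith
    calc (s + y l) * (t + y l) ≤ (2 * n) * (2 * n) :=
          mul_le_mul b1 b2 (by positivity) (by positivity)
      _ = 4 * n ^ 2 := by ring
  have h2 := Finset.sum_le_sum fun l (_ : l ∈ (univ : Finset (Fin r))) => key l
  rw [← Finset.sum_mul, hsum, Finset.sum_sub_distrib] at h2
  have h3 : n * ((t - s) / (4 * n ^ 2)) = (t - s) / (4 * n) := by
    field_simp
  unfold Ph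
  linarith

lemma Ph_diff {r : ℕ} {y z : Fin r → ℝ} {t : ℝ} (ht : 0 < t) (hy : ∀ l, 0 ≤ y l)
    (hz : ∀ l, 0 ≤ z l) :
    Ph y t - Ph z t = t * ∑ l, (1 / (t + z l) - 1 / (t + y l)) := by
  unfold Ph
  rw [Finset.mul_sum, sub_sub_sub_cancel_right, ← Finset.sum_sub_distrib]
  refine Finset.sum_congr rfl fun l _ => ?_
  have h1 := hy l
  have h2 := hz l
  have : t + y l ≠ 0 := by positivity
  have : t + z l ≠ 0 := by positivity
  field_simp
  ring

lemma sum_dev {r : ℕ} (hr : 3 ≤ r) (y : Fin r → ℝ) (n : ℝ) (h : ∑ l, y l = n) :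
    ∑ l, (y l - n / r) ^ 2 = ∑ l, y l ^ 2 - n ^ 2 / r := by
  have hr0 : (r : ℝ) ≠ 0 := by positivity
  have e : ∀ l, (y l - n / r) ^ 2 = y l ^ 2 - 2 * (n / r) * y l + (n / r) ^ 2 := fun l => by ring
  simp only [e]
  rw [Finset.sum_add_distrib, Finset.sum_sub_distrib, ← Finset.mul_sum, h, Finset.sum_const,
    Finset.card_univ, Fintype.card_fin, nsmul_eq_mul]
  field_simp
  ring

end X_CMPG

open X_CMPG in
/-- CMPG (helper38) -/
theorem x_CMPG (hLAMG : Stmt_LAMG) (hSECG : Stmt_SECG) (hMKD2 : Stmt_MKD2) : Stmt_CMPG := by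
  classical
  intro r hr
  have hr' : (3 : ℝ) ≤ r := by exact_mod_cast hr
  obtain ⟨C1, n1, hC1, h1⟩ := hLAMG r (2 * r) hr (by linarith)
  obtain ⟨C2, hC2, h2⟩ := hSECG r hr
  obtain ⟨k1, hk1⟩ := exists_nat_ge (6 * C1 + r * C1)
  refine ⟨C1 + 2 * C2, n1 + k1 + (r * (2 * r + 1)) ^ 2 + 12, by linarith, ?_⟩
  intro n hn V _ G x lam c H w A v1 v2 hWD hA hMX hsz hPV
  haveI := hPV.nonempty
  -- size of n
  have hnn1 : n1 ≤ n := by omega
  have hnk : (k1 : ℝ) ≤ n := by exact_mod_cast (show k1 ≤ n by omega)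
  have hn12 : (12 : ℝ) ≤ n := by exact_mod_cast (show 12 ≤ n by omega)
  have hn0 : (0 : ℝ) < n := by linarith
  have hsq : (r : ℝ) * (2 * r + 1) ≤ √(n : ℝ) := by
    apply Real.le_sqrt_of_sq_le
    have : (r * (2 * r + 1)) ^ 2 ≤ n := by omega
    exact_mod_cast this
  have hsq2 : √(n : ℝ) * √(n : ℝ) = n := Real.mul_self_sqrt hn0.le
  have hsq0 : 0 ≤ √(n : ℝ) := Real.sqrt_nonneg _
  have hrC : (r : ℝ) * C1 ≤ n := by nlinarith
  have h6C : 6 * C1 ≤ n := by nlinarith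
  have hal : al r * n = n - n / r := by
    unfold al; ring
  have hnr : C1 ≤ n / r := by
    rw [le_div_iff₀ (by linarith)]
    linarith
  have hnr3 : (n : ℝ) / r ≤ n / 3 := by
    apply div_le_div_of_nonneg_left hn0.le (by norm_num) hr'
  -- spectral radius of G
  have hlam := h1 n hnn1 V G x lam c H w A v1 v2 hWD hA (fun i => le_trans (hsz i) (by
    have : 0 ≤ (2 * (r : ℝ) - 2) * √(n : ℝ) := by
      apply mul_nonneg _ hsq0
      linarith
    linarith)) hPV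
  refine ⟨by linarith, ?_⟩
  intro y i k hik hys hys2
  rw [abs_le] at hlam
  have hlam1 : (n : ℝ) / 2 ≤ lam := by linarith
  have hlam2 : lam ≤ n := by linarith
  -- the class sizes
  have hcard : H.card = n := hWD.card
  have hzs : ∑ l, ((cl H c l).card : ℝ) = n := by
    rw [← hcard, ← sum_card_cl H c]
    push_cast
    rfl
  have hysR : ∑ l, (y l : ℝ) = n := by
    rw [← hys]; push_cast; rfl
  have hys2R : ∑ l, (y l : ℝ) ^ 2 = ∑ l, ((cl H c l).card : ℝ) ^ 2 := by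
    exact_mod_cast hys2
  have hdev : ∀ l, |(y l : ℝ) - n / r| ≤ 2 * r * √(n : ℝ) := by
    intro l
    have e1 := sum_dev hr (fun l => (y l : ℝ)) n hysR
    have e2 := sum_dev hr (fun l => ((cl H c l).card : ℝ)) n hzs
    have e3 : ∑ l, (((cl H c l).card : ℝ) - n / r) ^ 2 ≤ r * (4 * n) := by
      have : ∀ l ∈ (univ : Finset (Fin r)), (((cl H c l).card : ℝ) - n / r) ^ 2 ≤ 4 * n := by
        intro l _
        have h3 : |((cl H c l).card : ℝ) - n / r| ≤ 2 * √(n : ℝ) := hsz l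
        have h4 := pow_le_pow_left₀ (abs_nonneg _) h3 2
        rw [sq_abs, mul_pow, Real.sq_sqrt hn0.le] at h4
        linarith
      have h5 := Finset.sum_le_sum this
      rw [Finset.sum_const, Finset.card_univ, Fintype.card_fin, nsmul_eq_mul] at h5
      exact h5
    have e4 : ((y l : ℝ) - n / r) ^ 2 ≤ ∑ l, ((y l : ℝ) - n / r) ^ 2 :=
      Finset.single_le_sum (f := fun l => ((y l : ℝ) - n / r) ^ 2) (fun _ _ => sq_nonneg _)
        (Finset.mem_univ l)
    have e5 : ((y l : ℝ) - n / r) ^ 2 ≤ (2 * r * √(n : ℝ)) ^ 2 := by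
      have e6 : (2 * (r : ℝ) * √(n : ℝ)) ^ 2 = 4 * r ^ 2 * n := by
        rw [mul_pow, Real.sq_sqrt hn0.le]; ring
      rw [e6]
      have e7 : (r : ℝ) * (4 * n) ≤ 4 * r ^ 2 * n := by nlinarith
      linarith
    exact abs_le_of_sq_le_sq e5 (by positivity)
  have hy2 : ∀ l, (2 : ℝ) ≤ y l := by
    intro l
    have e1 := (abs_le.1 (hdev l)).1
    have e2 : (2 * (r : ℝ) + 1) * √(n : ℝ) ≤ n / r := by
      rw [le_div_iff₀ (by linarith)]
      calc (2 * (r : ℝ) + 1) * √(n : ℝ) * r = (r * (2 * r + 1)) * √(n : ℝ) := by ring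
        _ ≤ √(n : ℝ) * √(n : ℝ) := by gcongr
        _ = n := hsq2
    have e3 : (2 : ℝ) ≤ √(n : ℝ) := by
      apply Real.le_sqrt_of_sq_le
      linarith
    linarith
  have hyn : ∀ l, (y l : ℝ) ≤ n := by
    intro l
    rw [← hysR]
    exact Finset.single_le_sum (f := fun l => (y l : ℝ)) (fun _ _ => by positivity)
      (Finset.mem_univ l)
  have hy0 : ∀ l, (0 : ℝ) ≤ y l := fun l => by positivity
  -- the comparison graph
  obtain ⟨c', A', w1, w2, hWD', hA', hcl', hci, hck⟩ := hMKD2 r hr V H w y i k hik hWD.hw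
    (by rw [hys, hcard]) (fun l => by
      have := hy2 l
      exact_mod_cast (show (1 : ℝ) ≤ y l by linarith))
  rw [hcard] at hWD'
  obtain ⟨hcf, hcol, hpE⟩ := pGD r hr V _ n H c' w A' w1 w2 hWD'
  obtain ⟨-, -, hpE0⟩ := pGD r hr V _ n H c w A v1 v2 hWD
  have hsz' : ∀ l, sz H c' l = (y l : ℝ) := fun l => by
    unfold sz; rw [hcl' l]
  have hszf : sz H c' = fun l => (y l : ℝ) := funext hsz'
  have hEq : pE (gD H c' w A' w1 w2) = pE G := by
    rw [hpE, hpE0, hA', hA]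
    have : ∑ l, sz H c' l ^ 2 = ∑ l, sz H c l ^ 2 := by
      simp only [hsz']
      exact hys2R
    rw [this]
  have hle := hMX _ hcf (hcol fun l => by
    rw [hcl' l]
    exact_mod_cast hy2 l) hEq
  obtain ⟨x', hPV'⟩ := exists_PV (gD H c' w A' w1 w2)
  set mu := specRad (gD H c' w A' w1 w2) with hmu
  rw [← hPV.rad] at hle
  have hlam' := h1 n hnn1 V _ x' mu c' H w A' w1 w2 hWD' hA' (fun l => by
    rw [hsz' l]; exact hdev l) hPV'
  rw [abs_le] at hlam'
  have hmu1 : (n : ℝ) / 2 ≤ mu := by linarith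
  have hmu0 : 0 < mu := by linarith
  have hlam0 : 0 < lam := by linarith
  have s1 := h2 n V G x lam c H w A v1 v2 (by omega) hWD hA hPV hlam1
  have s2 := h2 n V _ x' mu c' H w A' w1 w2 (by omega) hWD' hA' hPV' hmu1
  rw [hszf, hci, hck] at s2
  simp only at s2
  rw [abs_le] at s1 s2
  -- monotonicity
  have m1 := Ph_mono hmu0 hle hlam2 hy0 hyn hysR
  have m2 := gg_mono r hmu0 hle (hy0 i) (hy0 k)
  have m3 : 4 * (lam - mu) * (1 / mu) ^ 3 ≤ (lam - mu) / (4 * n) := by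
    have e1 : 1 / mu ≤ 2 / n := by
      rw [div_le_div_iff₀ hmu0 hn0]
      linarith
    have e2 : (1 / mu) ^ 3 ≤ (2 / (n : ℝ)) ^ 3 := pow_le_pow_left₀ (by positivity) e1 3
    have e3 : 4 * (2 / (n : ℝ)) ^ 3 ≤ 1 / (4 * n) := by
      have : 4 * (2 / (n : ℝ)) ^ 3 = 32 / n ^ 3 := by ring
      rw [this, div_le_div_iff₀ (by positivity) (by positivity)]
      nlinarith [mul_pos hn0 hn0]
    calc 4 * (lam - mu) * (1 / mu) ^ 3 ≤ 4 * (lam - mu) * (2 / (n : ℝ)) ^ 3 := by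
          apply mul_le_mul_of_nonneg_left e2
          linarith
      _ = (lam - mu) * (4 * (2 / (n : ℝ)) ^ 3) := by ring
      _ ≤ (lam - mu) * (1 / (4 * n)) := by
          apply mul_le_mul_of_nonneg_left e3
          linarith
      _ = (lam - mu) / (4 * n) := by ring
  have m4 := Ph_diff hlam0 hy0 (fun l => (show 0 ≤ sz H c l from by unfold sz; positivity))
  have m5 : lam * ∑ l, (1 / (lam + ((cl H c l).card : ℝ)) - 1 / (lam + (y l : ℝ)))
      = Ph (fun l => (y l : ℝ)) lam - Ph (sz H c) lam := m4.symm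
  have m6 : (C1 + 2 * C2) / (n : ℝ) ^ 4 = C1 / (n : ℝ) ^ 4 + 2 * (C2 / (n : ℝ) ^ 4) := by ring
  have m7 : 0 ≤ C1 / (n : ℝ) ^ 4 := by positivity
  have m8 : gg r lam (sz H c (c v1)) (sz H c (c v2)) =
      gg r lam ((cl H c (c v1)).card : ℝ) ((cl H c (c v2)).card : ℝ) := rfl
  rw [m5, m6, ← m8]
  linarith

end Pool.Agent.Work.MP_5532fa_up
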