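import Pool.Agent.Work.MP_5532fa_x.Interface4

/-!
# Block CND (helper53): a good candidate
-/

set_option autoImplicit false

open Finset

namespace Pool.Agent.Work.MP_5532fa_up

open MP5532fa (specRad qf pE)

namespace X_CND

/-- the second moment in terms of `kk` -/
theorem mo2 {r : ℕ} (hr : 3 ≤ r) {m n : ℕ} {y : Fin r → ℕ} (h : ∑ i, y i = n) :
    mo 2 n (re y) = al r * (n : ℝ) ^ 2 - 2 * m + 2 * ((r : ℝ) - 1) + 2 * kk m n y := by
  have hsum : ∑ i, re y i = (n : ℝ) := by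
    unfold re
    exact_mod_cast h
  rw [mo_two hr hsum]
  unfold re kk al
  ring

/-- the candidate -/
def zz (k z0 t e s : ℕ) : Fin (k + 3) → ℕ :=
  Fin.cons z0 (Fin.cons (t + e + s) (Fin.cons (t - s) (fun _ => t)))

theorem zz_zero (k z0 t e s : ℕ) : zz k z0 t e s 0 = z0 := rfl

theorem zz_sum (k z0 t e s : ℕ) (F : ℕ → ℝ) :
    ∑ i, F (zz k z0 t e s i) = F z0 + (F (t + e + s) + (F (t - s) + k * F t)) := by
  unfold zz
  rw [Fin.sum_univ_succ, Fin.sum_univ_succ, Fin.sum_univ_succ]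
  simp only [Fin.cons_zero, Fin.cons_succ, sum_const, card_univ, Fintype.card_fin, nsmul_eq_mul]

theorem zz_total {k z0 t e s n : ℕ} (hs : s ≤ t) (h : z0 + (k + 2) * t + e = n) :
    ∑ i, zz k z0 t e s i = n := by
  have h1 := zz_sum k z0 t e s (fun x => (x : ℝ))
  have h2 : ((∑ i, zz k z0 t e s i : ℕ) : ℝ) = (n : ℝ) := by
    push_cast
    rw [h1, ← h]
    push_cast [Nat.cast_sub hs]
    ring
  exact_mod_cast h2

/-- the second moment of the candidate -/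
theorem zz_mo2 {k z0 t e s n : ℕ} (hs : s ≤ t) (h : z0 + (k + 2) * t + e = n) (r d : ℝ)
    (hr : r = k + 3) (hd : d = z0 - n / r) :
    mo 2 n (re (zz k z0 t e s)) = d ^ 2 * (r / (r - 1)) + (e : ℝ) ^ 2 * ((r - 2) / (r - 1))
      + 2 * (s : ℝ) ^ 2 + 2 * e * s := by
  have h1 := zz_sum k z0 t e s (fun x => ((x : ℝ) - n / r) ^ 2)
  have hr0 : (0 : ℝ) < r := by rw [hr]; positivity
  have hr1 : (0 : ℝ) < r - 1 := by
    have : (0 : ℝ) ≤ k := Nat.cast_nonneg k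
    linarith
  have h2 : mo 2 n (re (zz k z0 t e s)) = ∑ i, ((zz k z0 t e s i : ℝ) - n / r) ^ 2 := by
    unfold mo re
    refine Finset.sum_congr rfl fun i _ => ?_
    rw [hr]
    push_cast
    rfl
  have hn : (n : ℝ) = z0 + (k + 2) * t + e := by
    rw [← h]
    push_cast
    ring
  have hk : (k : ℝ) = r - 3 := by linarith
  have hz0 : (z0 : ℝ) = d + n / r := by linarith
  -- the value of t
  have ht : (t : ℝ) = n / r - (d + e) / (r - 1) := by
    have h3 : (r - 1) * (t : ℝ) = n - z0 - e := by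
      rw [hk] at hn
      linarith
    have h4 : (t : ℝ) = (n - z0 - e) / (r - 1) := by
      field_simp
      linarith
    rw [h4, hz0]
    field_simp
    ring
  rw [h2, h1, hk, hz0]
  push_cast [Nat.cast_sub hs]
  rw [ht]
  field_simp
  ring

/-- cubes -/
theorem cube_le {D a x B : ℝ} (hD : 0 ≤ D) (ha : 0 ≤ a) (hx : 0 ≤ x) (h : D ^ 2 - a ^ 2 ≤ x)
    (hB : D + a ≤ B) : D ^ 3 ≤ a ^ 3 + x * B := by
  have hB0 : 0 ≤ B := by linarith
  rcases le_total D a with h1 | h1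
  · have h2 : D ^ 3 ≤ a ^ 3 := pow_le_pow_left₀ hD h1 3
    have h3 : 0 ≤ x * B := mul_nonneg hx hB0
    linarith
  · have h2 : D ^ 3 - a ^ 3 ≤ (D ^ 2 - a ^ 2) * (D + a) := by
      have e : (D ^ 2 - a ^ 2) * (D + a) - (D ^ 3 - a ^ 3) = (D - a) * (D * a) := by ring
      have h3 : 0 ≤ (D - a) * (D * a) := mul_nonneg (by linarith) (mul_nonneg hD ha)
      linarith
    have h4 : (D ^ 2 - a ^ 2) * (D + a) ≤ x * B := by
      refine mul_le_mul h hB (by linarith) hx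
    linarith

/-- upper bound for the third moment -/
theorem mo3_le {r : ℕ} (hr : 3 ≤ r) {n : ℕ} {y : Fin r → ℕ} (h : ∑ i, y i = n) :
    mo 3 n (re y) ≤ √(al r * mo 2 n (re y)) ^ 3 * (r * (r - 2) / (r - 1) ^ 2) := by
  have hrr : (3 : ℝ) ≤ r := by exact_mod_cast hr
  have hr0 : (0 : ℝ) < r := by linarith
  have hr1 : (0 : ℝ) < (r : ℝ) - 1 := by linarith
  obtain ⟨R, hR⟩ : ∃ R, R = mo 2 n (re y) := ⟨_, rfl⟩
  have hs : ∑ i, (re y i - (n : ℝ) / r) = 0 := by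
    rw [sum_sub_distrib, sum_const, card_univ, Fintype.card_fin, nsmul_eq_mul]
    have : ∑ i, re y i = (n : ℝ) := by
      unfold re
      exact_mod_cast h
    rw [this]
    field_simp
    ring
  obtain ⟨c1, -, -, c4, c5, -⟩ := blk_CU1 r hr (fun i => re y i - (n : ℝ) / r) R hs hR.symm
  have hR0 : 0 ≤ R := by
    rw [hR]
    exact sum_nonneg fun i _ => sq_nonneg _
  have hal : al r = ((r : ℝ) - 1) / r := by
    unfold al
    field_simp
  have hk0 : (0 : ℝ) ≤ r * (r - 2) / (r - 1) ^ 2 := by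
    have : (0 : ℝ) ≤ (r : ℝ) - 2 := by linarith
    positivity
  have hm3 : mo 3 n (re y) = ∑ k, (re y k - (n : ℝ) / r) ^ 3 := rfl
  rw [← hR]
  rcases hR0.lt_or_eq with h0 | h0
  · have hD : 0 < √(al r * R) := by
      refine Real.sqrt_pos.2 (mul_pos ?_ h0)
      rw [hal]
      positivity
    have hD2 : √(al r * R) ^ 2 = ((r : ℝ) - 1) / r * R := by
      rw [Real.sq_sqrt, hal]
      rw [hal]
      positivity
    obtain ⟨D, hDd⟩ : ∃ D, D = √(al r * R) := ⟨_, rfl⟩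
    rw [← hDd] at hD hD2 ⊢
    have hRD : R = D ^ 2 * (r / (r - 1)) := by
      rw [hD2]
      field_simp
    have h4 := c4 D hD (fun i => by
      refine abs_le_of_sq_le_sq' ?_ hD.le |>.2
      have h5 := c1 i
      rw [hD2]
      have h6 : (re y i - (n : ℝ) / r) ^ 2 * (r / (r - 1)) * ((r - 1) / r) ≤ R * ((r - 1) / r) :=
        mul_le_mul_of_nonneg_right h5 (by positivity)
      have h7 : (re y i - (n : ℝ) / r) ^ 2 * (r / (r - 1)) * ((r - 1) / r) =
          (re y i - (n : ℝ) / r) ^ 2 := by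
        field_simp
      rw [h7] at h6
      linarith)
    rw [hm3]
    refine h4.trans (le_of_eq ?_)
    rw [hRD]
    field_simp
    ring
  · rw [hm3]
    have h1 : |∑ k, (re y k - (n : ℝ) / r) ^ 3| ≤ 0 := by
      refine c5.trans (le_of_eq ?_)
      rw [← h0]
      simp
    have h2 := le_abs_self (∑ k, (re y k - (n : ℝ) / r) ^ 3)
    have h3 : 0 ≤ √(al r * R) ^ 3 * (r * (r - 2) / (r - 1) ^ 2) := by positivity
    linarith

/-- the fourth moment -/
theorem mo4_bd {r : ℕ} (hr : 3 ≤ r) {n : ℕ} {y : Fin r → ℕ} (h : ∑ i, y i = n) :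
    0 ≤ mo 4 n (re y) ∧ mo 4 n (re y) ≤ mo 2 n (re y) ^ 2 := by
  have hrr : (3 : ℝ) ≤ r := by exact_mod_cast hr
  have hr0 : (0 : ℝ) < r := by linarith
  have hs : ∑ i, (re y i - (n : ℝ) / r) = 0 := by
    rw [sum_sub_distrib, sum_const, card_univ, Fintype.card_fin, nsmul_eq_mul]
    have : ∑ i, re y i = (n : ℝ) := by
      unfold re
      exact_mod_cast h
    rw [this]
    field_simp
    ring
  obtain ⟨-, -, -, -, -, c6⟩ := blk_CU1 r hr (fun i => re y i - (n : ℝ) / r) (mo 2 n (re y)) hs rfl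
  refine ⟨?_, c6⟩
  unfold mo
  refine sum_nonneg fun i _ => ?_
  positivity

/-- lower bound for the third moment -/
theorem mo3_ge {r : ℕ} (hr : 3 ≤ r) {n : ℕ} {y : Fin r → ℕ} (h : ∑ i, y i = n) (i : Fin r)
    (d σ : ℝ) (hd : d = (y i : ℝ) - n / r) (hσ : 0 ≤ σ)
    (hσ2 : σ ^ 2 = mo 2 n (re y) - d ^ 2 * (r / (r - 1))) :
    d ^ 3 * (r * (r + 1) / (r - 1) ^ 2) - 3 * d * mo 2 n (re y) / (r - 1) - σ ^ 3
      ≤ mo 3 n (re y) := by
  have hrr : (3 : ℝ) ≤ r := by exact_mod_cast hr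
  have hr0 : (0 : ℝ) < r := by linarith
  have hs : ∑ i, (re y i - (n : ℝ) / r) = 0 := by
    rw [sum_sub_distrib, sum_const, card_univ, Fintype.card_fin, nsmul_eq_mul]
    have : ∑ i, re y i = (n : ℝ) := by
      unfold re
      exact_mod_cast h
    rw [this]
    field_simp
    ring
  obtain ⟨-, c2, -, -, -, -⟩ := blk_CU1 r hr (fun i => re y i - (n : ℝ) / r) (mo 2 n (re y)) hs rfl
  have hd' : re y i - (n : ℝ) / r = d := by
    rw [hd]
    rfl
  have h1 := (c2 i σ hσ (by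
    show σ ^ 2 = mo 2 n (re y) - (re y i - (n : ℝ) / r) ^ 2 * (r / (r - 1))
    rw [hd', hσ2])).1
  have h2 : |mo 3 n (re y) - (d ^ 3 * (r * (r + 1) / (r - 1) ^ 2)
      - 3 * d * mo 2 n (re y) / (r - 1))| ≤ σ ^ 3 := by
    rw [← hd']
    exact h1
  have h3 := (abs_le.1 h2).1
  linarith

/-- comparison of the third moments of the candidate with the bound -/
theorem kap {r n w q a d R0 Rz C : ℝ} (hr : 3 ≤ r) (hC : 0 ≤ C) (hq : 1 ≤ q) (hqw : q ^ 2 = w)
    (hw : w ^ 2 = n) (ha : 0 ≤ a) (haR : a ^ 2 * (r / (r - 1)) = R0) (hR0 : 0 ≤ R0)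
    (hR0n : R0 ≤ 2 * n) (hda : d ≤ a) (had : a - 1 ≤ d) (hRz : |Rz - R0| ≤ C * q) :
    a ^ 3 * (r * (r - 2) / (r - 1) ^ 2) - (39 + 3 * C) * n
      ≤ d ^ 3 * (r * (r + 1) / (r - 1) ^ 2) - 3 * d * Rz / (r - 1) := by
  have hr1 : 0 < r - 1 := by linarith
  have hw1 : 1 ≤ w := by rw [← hqw]; nlinarith
  have hqw' : q ≤ w := by rw [← hqw]; nlinarith
  have hn0 : 0 ≤ n := by rw [← hw]; positivity
  have haw : a ≤ 2 * w := by
    have h1 : a ^ 2 ≤ R0 := by
      rw [← haR]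
      have h2 : 1 ≤ r / (r - 1) := by
        rw [le_div_iff₀ hr1]
        linarith
      nlinarith [sq_nonneg a]
    have h3 : a ^ 2 ≤ (2 * w) ^ 2 := by nlinarith
    exact abs_le_of_sq_le_sq' h3 (by linarith) |>.2
  have hdw : |d| ≤ 2 * w := by
    rw [abs_le]
    constructor
    · linarith
    · linarith
  -- cubes
  have h1 : a ^ 3 - d ^ 3 ≤ 12 * n := by
    have e : a ^ 3 - d ^ 3 = (a - d) * (a ^ 2 + a * d + d ^ 2) := by ring
    have h2 : a ^ 2 + a * d + d ^ 2 ≤ 12 * n := by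
      have h3 : d ^ 2 ≤ (2 * w) ^ 2 := by
        rw [← sq_abs d]
        exact pow_le_pow_left₀ (abs_nonneg _) hdw 2
      have h4 : a ^ 2 ≤ (2 * w) ^ 2 := pow_le_pow_left₀ ha haw 2
      have h5 : a * d ≤ (2 * w) * (2 * w) := by
        refine (le_abs_self _).trans ?_
        rw [abs_mul, abs_of_nonneg ha]
        exact mul_le_mul haw hdw (abs_nonneg _) (by linarith)
      nlinarith
    have h3 : 0 ≤ a ^ 2 + a * d + d ^ 2 := by nlinarith [sq_nonneg (a + d), sq_nonneg a, sq_nonneg d]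
    rw [e]
    calc (a - d) * (a ^ 2 + a * d + d ^ 2) ≤ 1 * (a ^ 2 + a * d + d ^ 2) :=
          mul_le_mul_of_nonneg_right (by linarith) h3
      _ ≤ 12 * n := by linarith
  have h2 : d * Rz - a * R0 ≤ (2 * C + 2) * n := by
    have e : d * Rz - a * R0 = d * (Rz - R0) - (a - d) * R0 := by ring
    have h3 : d * (Rz - R0) ≤ 2 * w * (C * q) := by
      refine (le_abs_self _).trans ?_
      rw [abs_mul]
      exact mul_le_mul hdw hRz (abs_nonneg _) (by linarith)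
    have h4 : 2 * w * (C * q) ≤ 2 * C * n := by
      rw [← hw]
      have : w * q ≤ w * w := mul_le_mul_of_nonneg_left hqw' (by linarith)
      nlinarith
    have h5 : 0 ≤ (a - d) * R0 := mul_nonneg (by linarith) hR0
    rw [e]
    nlinarith
  have hα : r * (r + 1) / (r - 1) ^ 2 ≤ 3 := by
    rw [div_le_iff₀ (by positivity)]
    nlinarith
  have hα0 : 0 ≤ r * (r + 1) / (r - 1) ^ 2 := by positivity
  have e1 : a ^ 3 * (r * (r - 2) / (r - 1) ^ 2) =
      a ^ 3 * (r * (r + 1) / (r - 1) ^ 2) - 3 * (a * R0) / (r - 1) := by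
    rw [← haR]
    field_simp
    ring
  have e2 : 3 * d * Rz / (r - 1) - 3 * (a * R0) / (r - 1) = 3 / (r - 1) * (d * Rz - a * R0) := by
    ring
  have hβ : 3 / (r - 1) ≤ 3 / 2 := by
    rw [div_le_div_iff₀ hr1 (by norm_num)]
    linarith
  have hβ0 : 0 ≤ 3 / (r - 1) := by positivity
  have h3 : 3 / (r - 1) * (d * Rz - a * R0) ≤ 3 / 2 * ((2 * C + 2) * n) := by
    calc 3 / (r - 1) * (d * Rz - a * R0) ≤ 3 / (r - 1) * ((2 * C + 2) * n) :=
          mul_le_mul_of_nonneg_left h2 hβ0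
      _ ≤ 3 / 2 * ((2 * C + 2) * n) := mul_le_mul_of_nonneg_right hβ (by positivity)
  have h4 : (a ^ 3 - d ^ 3) * (r * (r + 1) / (r - 1) ^ 2) ≤ 12 * n * 3 := by
    have h40 : 0 ≤ 12 * n := by linarith
    calc (a ^ 3 - d ^ 3) * (r * (r + 1) / (r - 1) ^ 2) ≤ 12 * n * (r * (r + 1) / (r - 1) ^ 2) :=
          mul_le_mul_of_nonneg_right h1 hα0
      _ ≤ 12 * n * 3 := mul_le_mul_of_nonneg_left hα h40
  rw [e1]
  nlinarith

/-- choice of the shift -/
theorem shift {r a d e R0 C q w : ℝ} (hr : 3 ≤ r) (hC : C = r ^ 2 + 3 * r + 10) (hq : 1 ≤ q)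
    (hqw : q ^ 2 = w) (ha : 0 ≤ a) (haR : a ^ 2 * (r / (r - 1)) = R0) (hR0w : R0 ≤ 2 * w ^ 2)
    (hda : d ≤ a) (had : a - 1 ≤ d) (he0 : 0 ≤ e) (her : e ≤ r) :
    ∃ s : ℕ, (s : ℝ) ≤ 3 / 2 * q ∧
      |d ^ 2 * (r / (r - 1)) + e ^ 2 * ((r - 2) / (r - 1)) + 2 * (s : ℝ) ^ 2 + 2 * e * s - R0|
        ≤ C * q := by
  have hr1 : 0 < r - 1 := by linarith
  obtain ⟨ρ, hρ⟩ : ∃ ρ, ρ = r / (r - 1) := ⟨_, rfl⟩
  have hρ1 : 1 ≤ ρ := by
    rw [hρ, le_div_iff₀ hr1]
    linarith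
  have hρ2 : ρ ≤ 3 / 2 := by
    rw [hρ, div_le_div_iff₀ hr1 (by norm_num)]
    linarith
  rw [← hρ] at haR ⊢
  have hw1 : 1 ≤ w := by rw [← hqw]; nlinarith
  have haw : a ≤ 3 / 2 * w := by
    have h3 : a ^ 2 ≤ (3 / 2 * w) ^ 2 := by
      have h4 : a ^ 2 ≤ R0 := by
        rw [← haR]
        exact le_mul_of_one_le_right (sq_nonneg a) hρ1
      rw [mul_pow]
      have h5 : 0 ≤ w ^ 2 := sq_nonneg w
      linarith
    exact abs_le_of_sq_le_sq' h3 (by linarith) |>.2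
  obtain ⟨g, hg⟩ : ∃ g, g = R0 - d ^ 2 * ρ := ⟨_, rfl⟩
  have hg1 : -2 ≤ g := by
    have h1 : g = (a - d) * (a + d) * ρ := by rw [hg, ← haR]; ring
    rw [h1]
    have h2 : -1 ≤ (a - d) * (a + d) := by nlinarith
    nlinarith
  have hg2 : g ≤ 3 * a := by
    have h1 : g = (a - d) * (a + d) * ρ := by rw [hg, ← haR]; ring
    rw [h1]
    have h2 : (a - d) * (a + d) ≤ 2 * a := by nlinarith
    calc (a - d) * (a + d) * ρ ≤ 2 * a * ρ := mul_le_mul_of_nonneg_right h2 (by linarith)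
      _ ≤ 2 * a * (3 / 2) := mul_le_mul_of_nonneg_left hρ2 (by linarith)
      _ = 3 * a := by ring
  have hm0 : 0 ≤ max g 0 := le_max_right _ _
  have hm1 : max g 0 ≤ 3 * a := max_le hg2 (by linarith)
  obtain ⟨s, hs⟩ : ∃ s : ℕ, s = ⌊√(max g 0 / 2)⌋₊ := ⟨_, rfl⟩
  have hs1 : (s : ℝ) ≤ √(max g 0 / 2) := by
    rw [hs]
    exact Nat.floor_le (Real.sqrt_nonneg _)
  have hs2 : √(max g 0 / 2) < s + 1 := by
    rw [hs]
    exact Nat.lt_floor_add_one _
  have hs0 : (0 : ℝ) ≤ s := Nat.cast_nonneg s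
  have hq0 : √(max g 0 / 2) ^ 2 = max g 0 / 2 := Real.sq_sqrt (by positivity)
  have hs3 : (s : ℝ) ≤ 3 / 2 * q := by
    refine hs1.trans ?_
    have h1 : √(max g 0 / 2) ^ 2 ≤ (3 / 2 * q) ^ 2 := by
      rw [hq0]
      nlinarith
    exact abs_le_of_sq_le_sq' h1 (by linarith) |>.2
  have hs4 : 2 * (s : ℝ) ^ 2 ≤ max g 0 := by
    have h1 : (s : ℝ) ^ 2 ≤ √(max g 0 / 2) ^ 2 := pow_le_pow_left₀ hs0 hs1 2
    rw [hq0] at h1
    linarith
  have hs5 : max g 0 ≤ 2 * (s : ℝ) ^ 2 + 4 * s + 2 := by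
    have h1 : √(max g 0 / 2) ^ 2 ≤ ((s : ℝ) + 1) ^ 2 :=
      pow_le_pow_left₀ (Real.sqrt_nonneg _) hs2.le 2
    rw [hq0] at h1
    nlinarith
  have hm2 : g ≤ max g 0 := le_max_left _ _
  have hm3 : max g 0 ≤ g + 2 := max_le (by linarith) (by linarith)
  refine ⟨s, hs3, ?_⟩
  have hγ0 : 0 ≤ (r - 2) / (r - 1) := div_nonneg (by linarith) hr1.le
  have hγ1 : (r - 2) / (r - 1) ≤ 1 := by
    rw [div_le_iff₀ hr1]
    linarith
  have he2 : e ^ 2 * ((r - 2) / (r - 1)) ≤ r ^ 2 := by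
    calc e ^ 2 * ((r - 2) / (r - 1)) ≤ e ^ 2 * 1 := mul_le_mul_of_nonneg_left hγ1 (sq_nonneg e)
      _ ≤ r ^ 2 := by
        rw [mul_one]
        exact pow_le_pow_left₀ he0 her 2
  have he3 : 0 ≤ e ^ 2 * ((r - 2) / (r - 1)) := mul_nonneg (sq_nonneg e) hγ0
  have he4 : e * s ≤ r * (3 / 2 * q) := mul_le_mul her hs3 hs0 (by linarith)
  have he5 : 0 ≤ e * s := mul_nonneg he0 hs0
  have e1 : d ^ 2 * ρ + e ^ 2 * ((r - 2) / (r - 1)) + 2 * (s : ℝ) ^ 2 + 2 * e * s - R0 =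
      2 * (s : ℝ) ^ 2 - g + e ^ 2 * ((r - 2) / (r - 1)) + 2 * (e * s) := by
    rw [hg]
    ring
  rw [e1, hC]
  have hrq : r ^ 2 ≤ r ^ 2 * q := le_mul_of_one_le_right (sq_nonneg r) hq
  have e2 : (r ^ 2 + 3 * r + 10) * q = r ^ 2 * q + 3 * (r * q) + 10 * q := by ring
  have e3 : r * (3 / 2 * q) = 3 / 2 * (r * q) := by ring
  have hrq0 : 0 ≤ r * q := mul_nonneg (by linarith) (by linarith)
  have hr20 : 0 ≤ r ^ 2 := sq_nonneg r
  rw [e2]
  rw [e3] at he4
  rw [abs_le]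
  constructor
  · linarith
  · linarith

end X_CND

theorem x_CND : Stmt_CND := by
  intro r hr
  obtain ⟨k, rfl⟩ : ∃ k, r = k + 3 := ⟨r - 3, by omega⟩
  obtain ⟨r, hrdef⟩ : ∃ r : ℝ, r = ((k + 3 : ℕ) : ℝ) := ⟨_, rfl⟩
  have hrk : r = (k : ℝ) + 3 := by rw [hrdef]; push_cast; ring
  have hrr : (3 : ℝ) ≤ r := by
    have : (0 : ℝ) ≤ k := Nat.cast_nonneg k
    linarith
  have hr0 : (0 : ℝ) < r := by linarith
  have hr1 : (0 : ℝ) < r - 1 := by linarith
  have hal : al (k + 3) = (r - 1) / r := by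
    unfold al
    rw [← hrdef]
    field_simp
  obtain ⟨C, hC⟩ : ∃ C : ℝ, C = r ^ 2 + 3 * r + 10 := ⟨_, rfl⟩
  have hC0 : 0 ≤ C := by rw [hC]; positivity
  obtain ⟨nC, hnC⟩ := exists_nat_ge ((C + 4 * r) ^ 2)
  have hr33 : 0 ≤ (r + 3) ^ 3 := by positivity
  refine ⟨(39 + 3 * C) + (r + 3) ^ 3 + 24, nC + 1, by linarith, ?_⟩
  intro n hn m h0 h2
  obtain ⟨R0, hR0def⟩ : ∃ R0, R0 = al (k + 3) * (n : ℝ) ^ 2 - 2 * m + 2 * (((k + 3 : ℕ) : ℝ) - 1) :=
    ⟨_, rfl⟩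
  rw [← hR0def] at h0 h2
  have hn1 : (1 : ℝ) ≤ n := by
    have : 1 ≤ n := by omega
    exact_mod_cast this
  have hn2 : (C + 4 * r) ^ 2 ≤ n := by
    refine hnC.trans ?_
    have : nC ≤ n := by omega
    exact_mod_cast this
  obtain ⟨w, hw⟩ : ∃ w, w = √(n : ℝ) := ⟨_, rfl⟩
  have hw2 : w ^ 2 = n := by rw [hw]; exact Real.sq_sqrt (Nat.cast_nonneg n)
  have hwC : C + 4 * r ≤ w := by
    rw [hw]
    exact Real.le_sqrt_of_sq_le hn2
  obtain ⟨q, hqd⟩ : ∃ q, q = √w := ⟨_, rfl⟩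
  have hw1 : 1 ≤ w := by linarith
  have hq2 : q ^ 2 = w := by rw [hqd]; exact Real.sq_sqrt (by linarith)
  have hq1 : 1 ≤ q := by
    rw [hqd]
    exact Real.one_le_sqrt.2 hw1
  have hqw : q ≤ w := by
    rw [← hq2, sq]
    exact le_mul_of_one_le_right (by linarith) hq1
  rw [← hw, ← hqd]
  -- the number a
  obtain ⟨a, hadef⟩ : ∃ a, a = √(al (k + 3) * R0) := ⟨_, rfl⟩
  have ha : 0 ≤ a := by rw [hadef]; exact Real.sqrt_nonneg _
  have ha2 : a ^ 2 = (r - 1) / r * R0 := by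
    rw [hadef, Real.sq_sqrt, hal]
    rw [hal]
    positivity
  have haR : a ^ 2 * (r / (r - 1)) = R0 := by
    rw [ha2]
    field_simp
  have haR' : a ^ 2 ≤ R0 := by
    rw [← haR]
    have h3 : 1 ≤ r / (r - 1) := by
      rw [le_div_iff₀ hr1]
      linarith
    exact le_mul_of_one_le_right (sq_nonneg a) h3
  have haw : a ≤ 3 / 2 * w := by
    have h3 : a ^ 2 ≤ (3 / 2 * w) ^ 2 := by
      rw [mul_pow, hw2]
      linarith
    exact abs_le_of_sq_le_sq' h3 (by linarith) |>.2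
  -- the first entry
  have hnr : (0 : ℝ) ≤ n / r := by positivity
  obtain ⟨z0, hz0⟩ : ∃ z0 : ℕ, z0 = ⌊(n : ℝ) / r + a⌋₊ := ⟨_, rfl⟩
  have hz1 : (z0 : ℝ) ≤ n / r + a := by
    rw [hz0]
    exact Nat.floor_le (by positivity)
  have hz2 : (n : ℝ) / r + a < z0 + 1 := by
    rw [hz0]
    exact Nat.lt_floor_add_one _
  obtain ⟨d, hd⟩ : ∃ d, d = (z0 : ℝ) - n / r := ⟨_, rfl⟩
  have hda : d ≤ a := by linarith
  have had : a - 1 ≤ d := by linarith
  have hz0n : z0 ≤ n := by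
    have h3 : (n : ℝ) / r ≤ n / 3 := div_le_div_of_nonneg_left (by linarith) (by norm_num) hrr
    have h4 : (z0 : ℝ) ≤ n := by
      have h5 : 12 * w ≤ n := by
        rw [← hw2, sq]
        exact mul_le_mul_of_nonneg_right (by linarith) (by linarith)
      linarith
    exact_mod_cast h4
  -- the other entries
  obtain ⟨t, ht⟩ : ∃ t, t = (n - z0) / (k + 2) := ⟨_, rfl⟩
  obtain ⟨e, he⟩ : ∃ e, e = (n - z0) % (k + 2) := ⟨_, rfl⟩
  have hte : z0 + (k + 2) * t + e = n := by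
    have h3 := Nat.div_add_mod (n - z0) (k + 2)
    rw [← ht, ← he] at h3
    omega
  have her : (e : ℝ) ≤ r := by
    have h3 : e < k + 2 := by
      rw [he]
      exact Nat.mod_lt _ (by omega)
    have h4 : (e : ℝ) < k + 2 := by exact_mod_cast h3
    linarith
  have he0 : (0 : ℝ) ≤ e := Nat.cast_nonneg e
  obtain ⟨s, hs1, hs2⟩ := X_CND.shift (e := e) hrr hC hq1 hq2 ha haR (by rw [hw2]; exact h2) hda had
    he0 her
  have hst : s ≤ t := by
    have h3 : (r - 1) * (t : ℝ) = n - z0 - e := by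
      have h4 : (n : ℝ) = z0 + (k + 2) * t + e := by
        rw [← hte]
        push_cast
        ring
      have hk : (k : ℝ) = r - 3 := by linarith
      rw [hk] at h4
      linarith
    have h5 : (z0 : ℝ) = d + n / r := by linarith
    have h6 : (r - 1) * (t : ℝ) = (r - 1) * (n / r) - (d + e) := by
      rw [h3, h5]
      field_simp
      ring
    have h7 : (n : ℝ) / r ≥ 4 * w := by
      rw [ge_iff_le, le_div_iff₀ hr0, ← hw2]
      have h12 : w * (4 * r) ≤ w * w := mul_le_mul_of_nonneg_left (by linarith) (by linarith)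
      have e5 : 4 * w * r = w * (4 * r) := by ring
      rw [e5, sq]
      exact h12
    have h8 : (r - 1) * (t : ℝ) ≥ (r - 1) * (3 / 2 * w) := by
      rw [h6]
      have h9 : (r - 1) * ((n : ℝ) / r) ≥ (r - 1) * (4 * w) := mul_le_mul_of_nonneg_left h7 hr1.le
      have h10 : d + e ≤ 3 / 2 * w + r := by linarith
      have h11 : 2 * w ≤ (r - 1) * w := mul_le_mul_of_nonneg_right (by linarith) (by linarith)
      have e3 : (r - 1) * (4 * w) = 4 * ((r - 1) * w) := by ring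
      have e4 : (r - 1) * (3 / 2 * w) = 3 / 2 * ((r - 1) * w) := by ring
      rw [e4]
      rw [e3] at h9
      linarith
    have h9 : 3 / 2 * w ≤ (t : ℝ) := le_of_mul_le_mul_left h8 hr1
    have h10 : (s : ℝ) ≤ t := by linarith
    exact_mod_cast h10
  obtain ⟨z, hz⟩ : ∃ z, z = X_CND.zz k z0 t e s := ⟨_, rfl⟩
  have hzsum : ∑ i, z i = n := by rw [hz]; exact X_CND.zz_total hst hte
  have hzmo : mo 2 n (re z) = d ^ 2 * (r / (r - 1)) + (e : ℝ) ^ 2 * ((r - 2) / (r - 1))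
      + 2 * (s : ℝ) ^ 2 + 2 * e * s := by
    rw [hz]
    exact X_CND.zz_mo2 hst hte r d hrk hd
  rw [← hzmo] at hs2
  have hzk : mo 2 n (re z) = R0 + 2 * kk m n z := by
    rw [X_CND.mo2 (m := m) (by omega) hzsum, hR0def]
  have hkz : |kk m n z| ≤ C / 2 * q := by
    rw [hzk, add_sub_cancel_left, abs_mul, abs_of_pos (by norm_num : (0 : ℝ) < 2)] at hs2
    linarith
  have hzle : mo 2 n (re z) ≤ 4 * n := by
    have h3 := (abs_le.1 hs2).2
    have h4 : C * q ≤ w * w := mul_le_mul (by linarith) hqw (by linarith) (by linarith)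
    rw [← sq, hw2] at h4
    linarith
  have hz00 : z 0 = z0 := by rw [hz]; rfl
  refine ⟨z, hzsum, fun i => ?_, ?_, fun y hysum hyk => ?_⟩
  · -- deviations
    refine abs_le_of_sq_le_sq ?_ (by linarith)
    have h3 : (re z i - (n : ℝ) / ((k + 3 : ℕ) : ℝ)) ^ 2 ≤ mo 2 n (re z) := by
      unfold mo
      exact single_le_sum (f := fun i => (re z i - (n : ℝ) / ((k + 3 : ℕ) : ℝ)) ^ 2)
        (fun i _ => sq_nonneg _) (mem_univ i)
    have h4 : (re z i - (n : ℝ) / ((k + 3 : ℕ) : ℝ)) = (z i : ℝ) - n / ((k + 3 : ℕ) : ℝ) := rfl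
    rw [← h4, mul_pow, hw2]
    linarith
  · refine hkz.trans (mul_le_mul_of_nonneg_right ?_ (by linarith))
    have h3 : 0 ≤ (r + 3) ^ 3 := by positivity
    linarith
  · -- the moments of y
    have hnpos : (0 : ℝ) < n := by linarith
    have hyR : mo 2 n (re y) = R0 + 2 * kk m n y := by
      rw [X_CND.mo2 (m := m) (by omega) hysum, hR0def]
    have hy0 : 0 ≤ mo 2 n (re y) := by
      unfold mo
      exact sum_nonneg fun i _ => sq_nonneg _
    have hy4 : mo 2 n (re y) ≤ 4 * n := by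
      rw [hyR]
      have := (abs_le.1 hyk).2
      linarith
    have hy3 := X_CND.mo3_le (by omega) hysum
    obtain ⟨D, hD⟩ : ∃ D, D = √(al (k + 3) * mo 2 n (re y)) := ⟨_, rfl⟩
    rw [← hD, ← hrdef] at hy3
    have hD0 : 0 ≤ D := by rw [hD]; exact Real.sqrt_nonneg _
    have hD2 : D ^ 2 = (r - 1) / r * mo 2 n (re y) := by
      rw [hD, Real.sq_sqrt, hal]
      rw [hal]
      positivity
    have hρ0 : 0 ≤ (r - 1) / r := by positivity
    have hρ1 : (r - 1) / r ≤ 1 := by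
      rw [div_le_iff₀ hr0]
      linarith
    have hDw : D ≤ 2 * w := by
      have h3 : D ^ 2 ≤ (2 * w) ^ 2 := by
        rw [hD2]
        calc (r - 1) / r * mo 2 n (re y) ≤ 1 * mo 2 n (re y) := mul_le_mul_of_nonneg_right hρ1 hy0
          _ ≤ (2 * w) ^ 2 := by rw [one_mul, mul_pow, hw2]; linarith
      exact abs_le_of_sq_le_sq' h3 (by linarith) |>.2
    have hDa : D ^ 2 - a ^ 2 ≤ 2 * |kk m n y| := by
      rw [hD2, ha2, hyR]
      have h3 : (r - 1) / r * (R0 + 2 * kk m n y) - (r - 1) / r * R0 =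
          (r - 1) / r * (2 * kk m n y) := by ring
      rw [h3]
      calc (r - 1) / r * (2 * kk m n y) ≤ (r - 1) / r * (2 * |kk m n y|) :=
            mul_le_mul_of_nonneg_left (by linarith [le_abs_self (kk m n y)]) hρ0
        _ ≤ 1 * (2 * |kk m n y|) := mul_le_mul_of_nonneg_right hρ1 (by positivity)
        _ = 2 * |kk m n y| := by ring
    have hD3 := X_CND.cube_le (B := 4 * w) hD0 ha (by positivity) hDa (by linarith)
    have hκ0 : 0 ≤ r * (r - 2) / (r - 1) ^ 2 := by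
      have : 0 ≤ r - 2 := by linarith
      positivity
    have hκ1 : r * (r - 2) / (r - 1) ^ 2 ≤ 1 := by
      rw [div_le_iff₀ (by positivity)]
      have e6 : (r - 1) ^ 2 = r * (r - 2) + 1 := by ring
      rw [e6]
      linarith
    have hy5 : mo 3 n (re y) ≤ a ^ 3 * (r * (r - 2) / (r - 1) ^ 2) + 8 * w * |kk m n y| := by
      refine hy3.trans ?_
      have h3 := mul_le_mul_of_nonneg_right hD3 hκ0
      have h4 : 2 * |kk m n y| * (4 * w) * (r * (r - 2) / (r - 1) ^ 2) ≤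
          2 * |kk m n y| * (4 * w) * 1 := mul_le_mul_of_nonneg_left hκ1 (by positivity)
      rw [add_mul] at h3
      have e5 : 2 * |kk m n y| * (4 * w) * 1 = 8 * w * |kk m n y| := by ring
      rw [e5] at h4
      linarith
    have hy6 := (X_CND.mo4_bd (by omega) hysum).1
    obtain ⟨-, hz4⟩ := X_CND.mo4_bd (by omega) hzsum
    have hz2nn : 0 ≤ mo 2 n (re z) := by
      unfold mo
      exact sum_nonneg fun i _ => sq_nonneg _
    have hz5 : mo 4 n (re z) ≤ 16 * (n : ℝ) ^ 2 := by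
      refine hz4.trans ?_
      calc mo 2 n (re z) ^ 2 ≤ (4 * (n : ℝ)) ^ 2 := pow_le_pow_left₀ hz2nn hzle 2
        _ = 16 * (n : ℝ) ^ 2 := by ring
    -- the third moment of z
    obtain ⟨T, hT⟩ : ∃ T, T = mo 2 n (re z) - d ^ 2 * (r / (r - 1)) := ⟨_, rfl⟩
    have hT' : T = (e : ℝ) ^ 2 * ((r - 2) / (r - 1)) + 2 * (s : ℝ) ^ 2 + 2 * e * s := by
      rw [hT, hzmo]
      ring
    have hγ0 : 0 ≤ (r - 2) / (r - 1) := div_nonneg (by linarith) hr1.le
    have hγ1 : (r - 2) / (r - 1) ≤ 1 := by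
      rw [div_le_iff₀ hr1]
      linarith
    have hs0 : (0 : ℝ) ≤ s := Nat.cast_nonneg s
    have hT0 : 0 ≤ T := by
      rw [hT']
      positivity
    have hTq : T ≤ ((r + 3) * q) ^ 2 := by
      rw [hT']
      have h3 : (e : ℝ) ^ 2 * ((r - 2) / (r - 1)) ≤ r ^ 2 := by
        calc (e : ℝ) ^ 2 * ((r - 2) / (r - 1)) ≤ (e : ℝ) ^ 2 * 1 :=
              mul_le_mul_of_nonneg_left hγ1 (sq_nonneg _)
          _ ≤ r ^ 2 := by
            rw [mul_one]
            exact pow_le_pow_left₀ he0 her 2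
      have h4 : (s : ℝ) ^ 2 ≤ (3 / 2 * q) ^ 2 := pow_le_pow_left₀ hs0 hs1 2
      have h5 : (e : ℝ) * s ≤ r * (3 / 2 * q) := mul_le_mul her hs1 hs0 (by linarith)
      have hqq : 1 ≤ q ^ 2 := by rw [hq2]; exact hw1
      have hqq' : q ≤ q ^ 2 := by rw [hq2]; exact hqw
      have h6 : r ^ 2 ≤ r ^ 2 * q ^ 2 := le_mul_of_one_le_right (sq_nonneg r) hqq
      have h7 : r * q ≤ r * q ^ 2 := mul_le_mul_of_nonneg_left hqq' hr0.le
      have h8 : 0 ≤ r * q ^ 2 := by positivity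
      have h9 : 0 ≤ q ^ 2 := by positivity
      have e6 : ((r + 3) * q) ^ 2 = r ^ 2 * q ^ 2 + 6 * (r * q ^ 2) + 9 * q ^ 2 := by ring
      have e7 : (3 / 2 * q) ^ 2 = 9 / 4 * q ^ 2 := by ring
      have e8 : r * (3 / 2 * q) = 3 / 2 * (r * q) := by ring
      rw [e6]
      rw [e7] at h4
      rw [e8] at h5
      linarith
    have hσ0 : 0 ≤ √T := Real.sqrt_nonneg _
    have hσq : √T ≤ (r + 3) * q := by
      refine Real.sqrt_le_iff.2 ⟨by positivity, hTq⟩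
    have hσ3 : √T ^ 3 ≤ (r + 3) ^ 3 * n := by
      calc √T ^ 3 ≤ ((r + 3) * q) ^ 3 := pow_le_pow_left₀ hσ0 hσq 3
        _ = (r + 3) ^ 3 * q ^ 3 := by ring
        _ ≤ (r + 3) ^ 3 * n := by
          refine mul_le_mul_of_nonneg_left ?_ (by positivity)
          rw [← hw2, ← hq2]
          have : q ^ 3 * 1 ≤ q ^ 3 * q := mul_le_mul_of_nonneg_left hq1 (by positivity)
          calc q ^ 3 = q ^ 3 * 1 := by ring
            _ ≤ q ^ 3 * q := this
            _ = (q ^ 2) ^ 2 := by ring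
    have hz3 := X_CND.mo3_ge (by omega) hzsum 0 d (√T) (by rw [hz00, ← hrdef]; exact hd) hσ0 (by
      rw [Real.sq_sqrt hT0, ← hrdef]
      exact hT)
    rw [← hrdef] at hz3
    have hkap := X_CND.kap hrr hC0 hq1 hq2 hw2 ha haR h0 h2 hda had hs2
    have hz6 : a ^ 3 * (r * (r - 2) / (r - 1) ^ 2) - ((39 + 3 * C) + (r + 3) ^ 3) * n
        ≤ mo 3 n (re z) := by
      linarith
    -- conclusion
    have e1 : M34 n y ≤ (a ^ 3 * (r * (r - 2) / (r - 1) ^ 2)) / n + 8 * |kk m n y| / w := by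
      unfold M34
      have h3 : 0 ≤ mo 4 n (re y) / (n : ℝ) ^ 2 := by positivity
      have h4 : mo 3 n (re y) / n ≤
          (a ^ 3 * (r * (r - 2) / (r - 1) ^ 2) + 8 * w * |kk m n y|) / n :=
        div_le_div_of_nonneg_right hy5 hnpos.le
      have h5 : 8 * w * |kk m n y| / n = 8 * |kk m n y| / w := by
        rw [← hw2]
        field_simp
      rw [add_div, h5] at h4
      linarith
    have e2 : (a ^ 3 * (r * (r - 2) / (r - 1) ^ 2)) / n - ((39 + 3 * C) + (r + 3) ^ 3) - 16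
        ≤ M34 n z := by
      unfold M34
      have h3 : mo 4 n (re z) / (n : ℝ) ^ 2 ≤ 16 := by
        rw [div_le_iff₀ (by positivity)]
        exact hz5
      have h4 : (a ^ 3 * (r * (r - 2) / (r - 1) ^ 2) - ((39 + 3 * C) + (r + 3) ^ 3) * n) / n ≤
          mo 3 n (re z) / n := div_le_div_of_nonneg_right hz6 hnpos.le
      rw [sub_div, mul_div_assoc (39 + 3 * C + (r + 3) ^ 3), div_self hnpos.ne', mul_one] at h4
      linarith
    have h3 : 0 ≤ |kk m n y| / w := by positivity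
    have h4 : 8 * |kk m n y| / w = 8 * (|kk m n y| / w) := by ring
    rw [h4] at e1
    have h5 : 0 ≤ (r + 3) ^ 3 := by positivity
    have h6 : 8 * (|kk m n y| / w) ≤ (39 + 3 * C + (r + 3) ^ 3 + 24) * (|kk m n y| / w) :=
      mul_le_mul_of_nonneg_right (by linarith) h3
    linarith

end Pool.Agent.Work.MP_5532fa_up
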