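import Pool.Agent.Work.MP_5532fa_x.Interface6
import Pool.Agent.Work.MP_5532fa_x.B_CND

/-!
# Block CND2 (helper30): a good candidate, third moment form
-/

set_option autoImplicit false

open Finset

namespace Pool.Agent.Work.MP_5532fa_up

open MP5532fa (specRad qf pE)

namespace X_CND2

/-- the two forms of the extremal third moment -/
theorem kap_eq {r a R : ℝ} (hr : 3 ≤ r) (hR : 0 ≤ R) (ha : a = √((r - 1) / r * R)) :
    (r - 2) / √(r * (r - 1)) * (R * √R) = a ^ 3 * (r * (r - 2) / (r - 1) ^ 2) := by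
  have hr0 : 0 < r := by linarith
  have hr1 : 0 < r - 1 := by linarith
  have h1 : √((r - 1) / r * R) = √((r - 1) / r) * √R := Real.sqrt_mul (by positivity) _
  have h2 : √((r - 1) / r) = √(r * (r - 1)) / r := by
    rw [Real.sqrt_eq_iff_mul_self_eq (by positivity) (by positivity)]
    have h3 : √(r * (r - 1)) * √(r * (r - 1)) = r * (r - 1) :=
      Real.mul_self_sqrt (by positivity)
    have e1 : √(r * (r - 1)) / r * (√(r * (r - 1)) / r) =
        (√(r * (r - 1)) * √(r * (r - 1))) / (r * r) := by ring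
    rw [e1, h3]
    field_simp
  obtain ⟨u, hu⟩ : ∃ u, u = √(r * (r - 1)) := ⟨_, rfl⟩
  have hu0 : 0 < u := by rw [hu]; exact Real.sqrt_pos.2 (by positivity)
  have hu2 : u ^ 2 = r * (r - 1) := by rw [hu]; exact Real.sq_sqrt (by positivity)
  obtain ⟨v, hv⟩ : ∃ v, v = √R := ⟨_, rfl⟩
  have hv2 : v ^ 2 = R := by rw [hv]; exact Real.sq_sqrt hR
  rw [ha, h1, h2, ← hu, ← hv, ← hv2]
  have e2 : (u / r * v) ^ 3 * (r * (r - 2) / (r - 1) ^ 2) =
      u ^ 2 * u * v ^ 3 * (r - 2) / (r ^ 2 * (r - 1) ^ 2) := by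
    field_simp
  have e3 : (r - 2) / u * (v ^ 2 * v) = (r - 2) * v ^ 3 * u / u ^ 2 := by
    field_simp
  rw [e2, e3, hu2]
  field_simp

end X_CND2

theorem x_CND2 : Stmt_CND2 := by
  intro r hr
  obtain ⟨k, rfl⟩ : ∃ k, r = k + 3 := ⟨r - 3, by omega⟩
  obtain ⟨r, hrdef⟩ : ∃ r : ℝ, r = ((k + 3 : ℕ) : ℝ) := ⟨_, rfl⟩
  have hrk : r = (k : ℝ) + 3 := by rw [hrdef]; push_cast; ring
  have hrr : (3 : ℝ) ≤ r := by
    have : (0 : ℝ) ≤ k := Nat.cast_nonneg k
    linarith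
  have hr0 : (0 : ℝ) < r := by linarith
  have hr1 : (0 : ℝ) < r - 1 := by linarith
  have hal : al (k + 3) = (r - 1) / r := by
    unfold al
    rw [← hrdef]
    field_simp
  obtain ⟨C, hC⟩ : ∃ C : ℝ, C = r ^ 2 + 3 * r + 10 := ⟨_, rfl⟩
  have hC0 : 0 ≤ C := by rw [hC]; positivity
  obtain ⟨nC, hnC⟩ := exists_nat_ge ((C + 4 * r) ^ 2)
  have hr33 : 0 ≤ (r + 3) ^ 3 := by positivity
  refine ⟨(39 + 3 * C) + (r + 3) ^ 3 + 24, nC + 1, by linarith, ?_⟩
  intro n hn m h0 h2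
  obtain ⟨R0, hR0def⟩ : ∃ R0, R0 = al (k + 3) * (n : ℝ) ^ 2 - 2 * m + 2 * (((k + 3 : ℕ) : ℝ) - 1) :=
    ⟨_, rfl⟩
  have hRR : RR (k + 3) m n = R0 := by
    rw [hR0def]
    unfold RR
    rfl
  rw [hRR] at h0 h2
  rw [hRR]
  have h0 : 0 ≤ R0 := by
    refine le_trans ?_ h0
    exact Nat.cast_nonneg _
  have hn1 : (1 : ℝ) ≤ n := by
    have : 1 ≤ n := by omega
    exact_mod_cast this
  have hn2 : (C + 4 * r) ^ 2 ≤ n := by
    refine hnC.trans ?_
    have : nC ≤ n := by omega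
    exact_mod_cast this
  obtain ⟨w, hw⟩ : ∃ w, w = √(n : ℝ) := ⟨_, rfl⟩
  have hw2 : w ^ 2 = n := by rw [hw]; exact Real.sq_sqrt (Nat.cast_nonneg n)
  have hwC : C + 4 * r ≤ w := by
    rw [hw]
    exact Real.le_sqrt_of_sq_le hn2
  obtain ⟨q, hqd⟩ : ∃ q, q = √w := ⟨_, rfl⟩
  have hw1 : 1 ≤ w := by linarith
  have hq2 : q ^ 2 = w := by rw [hqd]; exact Real.sq_sqrt (by linarith)
  have hq1 : 1 ≤ q := by
    rw [hqd]
    exact Real.one_le_sqrt.2 hw1
  have hqw : q ≤ w := by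
    rw [← hq2, sq]
    exact le_mul_of_one_le_right (by linarith) hq1
  rw [← hw, ← hqd]
  -- the number a
  obtain ⟨a, hadef⟩ : ∃ a, a = √(al (k + 3) * R0) := ⟨_, rfl⟩
  have ha : 0 ≤ a := by rw [hadef]; exact Real.sqrt_nonneg _
  have ha2 : a ^ 2 = (r - 1) / r * R0 := by
    rw [hadef, Real.sq_sqrt, hal]
    rw [hal]
    positivity
  have haR : a ^ 2 * (r / (r - 1)) = R0 := by
    rw [ha2]
    field_simp
  have haR' : a ^ 2 ≤ R0 := by
    rw [← haR]
    have h3 : 1 ≤ r / (r - 1) := by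
      rw [le_div_iff₀ hr1]
      linarith
    exact le_mul_of_one_le_right (sq_nonneg a) h3
  have haw : a ≤ 3 / 2 * w := by
    have h3 : a ^ 2 ≤ (3 / 2 * w) ^ 2 := by
      rw [mul_pow, hw2]
      linarith
    exact abs_le_of_sq_le_sq' h3 (by linarith) |>.2
  -- the first entry
  have hnr : (0 : ℝ) ≤ n / r := by positivity
  obtain ⟨z0, hz0⟩ : ∃ z0 : ℕ, z0 = ⌊(n : ℝ) / r + a⌋₊ := ⟨_, rfl⟩
  have hz1 : (z0 : ℝ) ≤ n / r + a := by
    rw [hz0]
    exact Nat.floor_le (by positivity)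
  have hz2 : (n : ℝ) / r + a < z0 + 1 := by
    rw [hz0]
    exact Nat.lt_floor_add_one _
  obtain ⟨d, hd⟩ : ∃ d, d = (z0 : ℝ) - n / r := ⟨_, rfl⟩
  have hda : d ≤ a := by linarith
  have had : a - 1 ≤ d := by linarith
  have hz0n : z0 ≤ n := by
    have h3 : (n : ℝ) / r ≤ n / 3 := div_le_div_of_nonneg_left (by linarith) (by norm_num) hrr
    have h4 : (z0 : ℝ) ≤ n := by
      have h5 : 12 * w ≤ n := by
        rw [← hw2, sq]
        exact mul_le_mul_of_nonneg_right (by linarith) (by linarith)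
      linarith
    exact_mod_cast h4
  -- the other entries
  obtain ⟨t, ht⟩ : ∃ t, t = (n - z0) / (k + 2) := ⟨_, rfl⟩
  obtain ⟨e, he⟩ : ∃ e, e = (n - z0) % (k + 2) := ⟨_, rfl⟩
  have hte : z0 + (k + 2) * t + e = n := by
    have h3 := Nat.div_add_mod (n - z0) (k + 2)
    rw [← ht, ← he] at h3
    omega
  have her : (e : ℝ) ≤ r := by
    have h3 : e < k + 2 := by
      rw [he]
      exact Nat.mod_lt _ (by omega)
    have h4 : (e : ℝ) < k + 2 := by exact_mod_cast h3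
    linarith
  have he0 : (0 : ℝ) ≤ e := Nat.cast_nonneg e
  obtain ⟨s, hs1, hs2⟩ := X_CND.shift (e := e) hrr hC hq1 hq2 ha haR (by rw [hw2]; exact h2) hda had
    he0 her
  have hst : s ≤ t := by
    have h3 : (r - 1) * (t : ℝ) = n - z0 - e := by
      have h4 : (n : ℝ) = z0 + (k + 2) * t + e := by
        rw [← hte]
        push_cast
        ring
      have hk : (k : ℝ) = r - 3 := by linarith
      rw [hk] at h4
      linarith
    have h5 : (z0 : ℝ) = d + n / r := by linarith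
    have h6 : (r - 1) * (t : ℝ) = (r - 1) * (n / r) - (d + e) := by
      rw [h3, h5]
      field_simp
      ring
    have h7 : (n : ℝ) / r ≥ 4 * w := by
      rw [ge_iff_le, le_div_iff₀ hr0, ← hw2]
      have h12 : w * (4 * r) ≤ w * w := mul_le_mul_of_nonneg_left (by linarith) (by linarith)
      have e5 : 4 * w * r = w * (4 * r) := by ring
      rw [e5, sq]
      exact h12
    have h8 : (r - 1) * (t : ℝ) ≥ (r - 1) * (3 / 2 * w) := by
      rw [h6]
      have h9 : (r - 1) * ((n : ℝ) / r) ≥ (r - 1) * (4 * w) := mul_le_mul_of_nonneg_left h7 hr1.le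
      have h10 : d + e ≤ 3 / 2 * w + r := by linarith
      have h11 : 2 * w ≤ (r - 1) * w := mul_le_mul_of_nonneg_right (by linarith) (by linarith)
      have e3 : (r - 1) * (4 * w) = 4 * ((r - 1) * w) := by ring
      have e4 : (r - 1) * (3 / 2 * w) = 3 / 2 * ((r - 1) * w) := by ring
      rw [e4]
      rw [e3] at h9
      linarith
    have h9 : 3 / 2 * w ≤ (t : ℝ) := le_of_mul_le_mul_left h8 hr1
    have h10 : (s : ℝ) ≤ t := by linarith
    exact_mod_cast h10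
  obtain ⟨z, hz⟩ : ∃ z, z = X_CND.zz k z0 t e s := ⟨_, rfl⟩
  have hzsum : ∑ i, z i = n := by rw [hz]; exact X_CND.zz_total hst hte
  have hzmo : mo 2 n (re z) = d ^ 2 * (r / (r - 1)) + (e : ℝ) ^ 2 * ((r - 2) / (r - 1))
      + 2 * (s : ℝ) ^ 2 + 2 * e * s := by
    rw [hz]
    exact X_CND.zz_mo2 hst hte r d hrk hd
  rw [← hzmo] at hs2
  have hzk : mo 2 n (re z) = R0 + 2 * kk m n z := by
    rw [X_CND.mo2 (m := m) (by omega) hzsum, hR0def]
  have hkz : |kk m n z| ≤ C / 2 * q := by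
    rw [hzk, add_sub_cancel_left, abs_mul, abs_of_pos (by norm_num : (0 : ℝ) < 2)] at hs2
    linarith
  have hzle : mo 2 n (re z) ≤ 4 * n := by
    have h3 := (abs_le.1 hs2).2
    have h4 : C * q ≤ w * w := mul_le_mul (by linarith) hqw (by linarith) (by linarith)
    rw [← sq, hw2] at h4
    linarith
  have hz00 : z 0 = z0 := by rw [hz]; rfl
  refine ⟨z, hzsum, fun i => ?_, ?_, ?_⟩
  · -- deviations
    refine abs_le_of_sq_le_sq ?_ (by linarith)
    have h3 : (re z i - (n : ℝ) / ((k + 3 : ℕ) : ℝ)) ^ 2 ≤ mo 2 n (re z) := by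
      unfold mo
      exact single_le_sum (f := fun i => (re z i - (n : ℝ) / ((k + 3 : ℕ) : ℝ)) ^ 2)
        (fun i _ => sq_nonneg _) (mem_univ i)
    have h4 : (re z i - (n : ℝ) / ((k + 3 : ℕ) : ℝ)) = (z i : ℝ) - n / ((k + 3 : ℕ) : ℝ) := rfl
    rw [← h4, mul_pow, hw2]
    linarith
  · refine hkz.trans (mul_le_mul_of_nonneg_right ?_ (by linarith))
    have h3 : 0 ≤ (r + 3) ^ 3 := by positivity
    linarith
  · -- the third moment of z
    obtain ⟨T, hT⟩ : ∃ T, T = mo 2 n (re z) - d ^ 2 * (r / (r - 1)) := ⟨_, rfl⟩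
    have hT' : T = (e : ℝ) ^ 2 * ((r - 2) / (r - 1)) + 2 * (s : ℝ) ^ 2 + 2 * e * s := by
      rw [hT, hzmo]
      ring
    have hγ0 : 0 ≤ (r - 2) / (r - 1) := div_nonneg (by linarith) hr1.le
    have hγ1 : (r - 2) / (r - 1) ≤ 1 := by
      rw [div_le_iff₀ hr1]
      linarith
    have hs0 : (0 : ℝ) ≤ s := Nat.cast_nonneg s
    have hT0 : 0 ≤ T := by
      rw [hT']
      positivity
    have hTq : T ≤ ((r + 3) * q) ^ 2 := by
      rw [hT']
      have h3 : (e : ℝ) ^ 2 * ((r - 2) / (r - 1)) ≤ r ^ 2 := by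
        calc (e : ℝ) ^ 2 * ((r - 2) / (r - 1)) ≤ (e : ℝ) ^ 2 * 1 :=
              mul_le_mul_of_nonneg_left hγ1 (sq_nonneg _)
          _ ≤ r ^ 2 := by
            rw [mul_one]
            exact pow_le_pow_left₀ he0 her 2
      have h4 : (s : ℝ) ^ 2 ≤ (3 / 2 * q) ^ 2 := pow_le_pow_left₀ hs0 hs1 2
      have h5 : (e : ℝ) * s ≤ r * (3 / 2 * q) := mul_le_mul her hs1 hs0 (by linarith)
      have hqq : 1 ≤ q ^ 2 := by rw [hq2]; exact hw1
      have hqq' : q ≤ q ^ 2 := by rw [hq2]; exact hqw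
      have h6 : r ^ 2 ≤ r ^ 2 * q ^ 2 := le_mul_of_one_le_right (sq_nonneg r) hqq
      have h7 : r * q ≤ r * q ^ 2 := mul_le_mul_of_nonneg_left hqq' hr0.le
      have h8 : 0 ≤ r * q ^ 2 := by positivity
      have h9 : 0 ≤ q ^ 2 := by positivity
      have e6 : ((r + 3) * q) ^ 2 = r ^ 2 * q ^ 2 + 6 * (r * q ^ 2) + 9 * q ^ 2 := by ring
      have e7 : (3 / 2 * q) ^ 2 = 9 / 4 * q ^ 2 := by ring
      have e8 : r * (3 / 2 * q) = 3 / 2 * (r * q) := by ring
      rw [e6]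
      rw [e7] at h4
      rw [e8] at h5
      linarith
    have hσ0 : 0 ≤ √T := Real.sqrt_nonneg _
    have hσq : √T ≤ (r + 3) * q := by
      refine Real.sqrt_le_iff.2 ⟨by positivity, hTq⟩
    have hσ3 : √T ^ 3 ≤ (r + 3) ^ 3 * n := by
      calc √T ^ 3 ≤ ((r + 3) * q) ^ 3 := pow_le_pow_left₀ hσ0 hσq 3
        _ = (r + 3) ^ 3 * q ^ 3 := by ring
        _ ≤ (r + 3) ^ 3 * n := by
          refine mul_le_mul_of_nonneg_left ?_ (by positivity)
          rw [← hw2, ← hq2]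
          have : q ^ 3 * 1 ≤ q ^ 3 * q := mul_le_mul_of_nonneg_left hq1 (by positivity)
          calc q ^ 3 = q ^ 3 * 1 := by ring
            _ ≤ q ^ 3 * q := this
            _ = (q ^ 2) ^ 2 := by ring
    have hz3 := X_CND.mo3_ge (by omega) hzsum 0 d (√T) (by rw [hz00, ← hrdef]; exact hd) hσ0 (by
      rw [Real.sq_sqrt hT0, ← hrdef]
      exact hT)
    rw [← hrdef] at hz3
    have hkap := X_CND.kap hrr hC0 hq1 hq2 hw2 ha haR h0 h2 hda had hs2
    have hz6 : a ^ 3 * (r * (r - 2) / (r - 1) ^ 2) - ((39 + 3 * C) + (r + 3) ^ 3) * n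
        ≤ mo 3 n (re z) := by
      linarith
    have hkk : Pool.Agent.Work.MP_5532fa_up.kap (k + 3) * (R0 * √R0) =
        a ^ 3 * (r * (r - 2) / (r - 1) ^ 2) := by
      have h3 := X_CND2.kap_eq (a := a) hrr h0 (by rw [hadef, hal])
      rw [← h3]
      unfold Pool.Agent.Work.MP_5532fa_up.kap
      rw [← hrdef]
    rw [hkk]
    have h9 : (39 + 3 * C + (r + 3) ^ 3) * (n : ℝ) ≤ (39 + 3 * C + (r + 3) ^ 3 + 24) * n :=
      mul_le_mul_of_nonneg_right (by linarith) (by linarith)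
    linarith

end Pool.Agent.Work.MP_5532fa_up
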