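import Pool.Agent.Work.MP_5532fa_x.Interface6
import Pool.Agent.Work.MP_5532fa_x.B_CND

/-!
# Block CND6 (helper28): the candidate with `kk = 0` for `r ≥ 6`
-/

set_option autoImplicit false

open Finset

namespace Pool.Agent.Work.MP_5532fa_up

open MP5532fa (specRad qf pE)

namespace X_CND6

/-- the constant `kap` -/
theorem kap_eq {r a R : ℝ} (hr : 3 ≤ r) (ha : 0 ≤ a) (haR : a ^ 2 * (r / (r - 1)) = R) :
    (r - 2) / √(r * (r - 1)) * (R * √R) = a ^ 3 * (r * (r - 2) / (r - 1) ^ 2) := by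
  have hr1 : 0 < r - 1 := by linarith
  have hr0 : 0 < r := by linarith
  have hq0 : 0 < r / (r - 1) := div_pos hr0 hr1
  obtain ⟨s, hs⟩ : ∃ s, s = √(r / (r - 1)) := ⟨_, rfl⟩
  have hs0 : 0 < s := by rw [hs]; exact Real.sqrt_pos.2 hq0
  have hs2 : s ^ 2 = r / (r - 1) := by rw [hs]; exact Real.sq_sqrt hq0.le
  have h1 : √R = a * s := by
    rw [← haR, ← hs2, ← mul_pow]
    exact Real.sqrt_sq (mul_nonneg ha hs0.le)
  have h2 : √(r * (r - 1)) = (r - 1) * s := by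
    have e : r * (r - 1) = ((r - 1) * s) ^ 2 := by
      rw [mul_pow, hs2]
      field_simp
    rw [e]
    exact Real.sqrt_sq (mul_nonneg hr1.le hs0.le)
  rw [h1, h2, ← haR, ← hs2]
  have e2 : a ^ 3 * (r * (r - 2) / (r - 1) ^ 2) = a ^ 3 * ((r - 2) / (r - 1)) * (r / (r - 1)) := by
    field_simp
  rw [e2, ← hs2]
  field_simp

/-- the lower bound -/
theorem low {r n w d a R σ M : ℝ} (hr : 3 ≤ r) (hw : w ^ 2 = n) (hw1 : 1 ≤ w) (hd0 : 0 ≤ d)
    (ha : 0 ≤ a) (haR : a ^ 2 * (r / (r - 1)) = R) (hRn : R ≤ 2 * n)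
    (hR : R ≤ (d + 1) ^ 2 * (r / (r - 1)) + r) (hdR : d ^ 2 * (r / (r - 1)) ≤ R)
    (hσ : 0 ≤ σ) (hσ2 : σ ^ 2 = R - d ^ 2 * (r / (r - 1)))
    (hM : d ^ 3 * (r * (r + 1) / (r - 1) ^ 2) - 3 * d * R / (r - 1) - σ ^ 3 ≤ M) :
    a ^ 3 * (r * (r - 2) / (r - 1) ^ 2) - (18 * (r + 2) + (8 + r) ^ 2) * n ≤ M := by
  have hr1 : 0 < r - 1 := by linarith
  have hr0 : 0 < r := by linarith
  have hρ : 1 ≤ r / (r - 1) := by
    rw [le_div_iff₀ hr1]
    linarith
  have hρ2 : r / (r - 1) ≤ 2 := by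
    rw [div_le_iff₀ hr1]
    linarith
  have hρ0 : 0 < r / (r - 1) := by linarith
  -- d ≤ a
  have hda : d ≤ a := by
    have h1 : d ^ 2 ≤ a ^ 2 := by
      rw [← haR] at hdR
      exact le_of_mul_le_mul_right hdR hρ0
    exact abs_le_of_sq_le_sq' h1 ha |>.2
  -- a ≤ d + 1 + r
  have had : a ≤ d + (r + 1) := by
    have h1 : a ^ 2 ≤ (d + (r + 1)) ^ 2 := by
      have h2 : a ^ 2 * (r / (r - 1)) ≤ ((d + 1) ^ 2 + r) * (r / (r - 1)) := by
        rw [haR, add_mul]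
        have : r * 1 ≤ r * (r / (r - 1)) := mul_le_mul_of_nonneg_left hρ hr0.le
        linarith
      have h3 := le_of_mul_le_mul_right h2 hρ0
      have h4 : 0 ≤ d * r := mul_nonneg hd0 hr0.le
      nlinarith
    exact abs_le_of_sq_le_sq' h1 (by linarith) |>.2
  have haw : a ≤ 3 / 2 * w := by
    have h3 : a ^ 2 ≤ (3 / 2 * w) ^ 2 := by
      rw [mul_pow, hw]
      have h4 : a ^ 2 * 1 ≤ a ^ 2 * (r / (r - 1)) := mul_le_mul_of_nonneg_left hρ (sq_nonneg a)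
      rw [haR] at h4
      have h5 : 0 ≤ n := by rw [← hw]; positivity
      linarith
    exact abs_le_of_sq_le_sq' h3 (by linarith) |>.2
  have hn0 : 0 ≤ n := by rw [← hw]; positivity
  have ha2 : a ^ 2 ≤ 2 * n := by
    have h4 : a ^ 2 * 1 ≤ a ^ 2 * (r / (r - 1)) := mul_le_mul_of_nonneg_left hρ (sq_nonneg a)
    rw [haR] at h4
    linarith
  -- sigma
  have hT : σ ^ 2 ≤ (8 + r) * w := by
    rw [hσ2]
    have h1 : (d + 1) ^ 2 * (r / (r - 1)) - d ^ 2 * (r / (r - 1)) = (2 * d + 1) * (r / (r - 1)) := by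
      ring
    have h2 : (2 * d + 1) * (r / (r - 1)) ≤ (2 * d + 1) * 2 :=
      mul_le_mul_of_nonneg_left hρ2 (by linarith)
    have h3 : r * 1 ≤ r * w := mul_le_mul_of_nonneg_left hw1 hr0.le
    have e : (8 + r) * w = 8 * w + r * w := by ring
    rw [e]
    linarith
  have hσw : σ ≤ (8 + r) * w := by
    have h0 : 1 ≤ (8 + r) * w := by
      have : 1 * 1 ≤ (8 + r) * w := mul_le_mul (by linarith) hw1 (by norm_num) (by linarith)
      linarith
    have h1 : σ ^ 2 ≤ ((8 + r) * w) ^ 2 := by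
      refine hT.trans ?_
      rw [sq ((8 + r) * w)]
      exact le_mul_of_one_le_right (by linarith) h0
    exact abs_le_of_sq_le_sq' h1 (by linarith) |>.2
  have hσ3 : σ ^ 3 ≤ (8 + r) ^ 2 * n := by
    calc σ ^ 3 = σ ^ 2 * σ := by ring
      _ ≤ ((8 + r) * w) * ((8 + r) * w) := mul_le_mul hT hσw hσ (by positivity)
      _ = (8 + r) ^ 2 * n := by rw [← hw]; ring
  -- cubes
  have hα : r * (r + 1) / (r - 1) ^ 2 ≤ 3 := by
    rw [div_le_iff₀ (by positivity)]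
    nlinarith
  have hα0 : 0 ≤ r * (r + 1) / (r - 1) ^ 2 := by positivity
  have hc : a ^ 3 - d ^ 3 ≤ (r + 1) * (6 * n) := by
    have e : a ^ 3 - d ^ 3 = (a - d) * (a ^ 2 + a * d + d ^ 2) := by ring
    have h1 : a * d ≤ a * a := mul_le_mul_of_nonneg_left hda ha
    have h2 : d ^ 2 ≤ a ^ 2 := pow_le_pow_left₀ hd0 hda 2
    have h3 : a ^ 2 + a * d + d ^ 2 ≤ 6 * n := by nlinarith
    have h4 : 0 ≤ a ^ 2 + a * d + d ^ 2 := by positivity
    rw [e]
    exact mul_le_mul (by linarith) h3 h4 (by linarith)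
  have e1 : a ^ 3 * (r * (r - 2) / (r - 1) ^ 2) =
      a ^ 3 * (r * (r + 1) / (r - 1) ^ 2) - 3 * (a * R) / (r - 1) := by
    rw [← haR]
    field_simp
    ring
  have e2 : 3 * d * R / (r - 1) ≤ 3 * (a * R) / (r - 1) := by
    refine div_le_div_of_nonneg_right ?_ hr1.le
    have hR0 : 0 ≤ R := by rw [← haR]; positivity
    have : d * R ≤ a * R := mul_le_mul_of_nonneg_right hda hR0
    linarith
  have h4 : (a ^ 3 - d ^ 3) * (r * (r + 1) / (r - 1) ^ 2) ≤ (r + 1) * (6 * n) * 3 := by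
    have h40 : 0 ≤ (r + 1) * (6 * n) := by positivity
    calc (a ^ 3 - d ^ 3) * (r * (r + 1) / (r - 1) ^ 2)
        ≤ (r + 1) * (6 * n) * (r * (r + 1) / (r - 1) ^ 2) :=
          mul_le_mul_of_nonneg_right hc hα0
      _ ≤ (r + 1) * (6 * n) * 3 := mul_le_mul_of_nonneg_left hα h40
  rw [e1]
  rw [sub_mul] at h4
  have e3 : (18 * (r + 2) + (8 + r) ^ 2) * n = (r + 1) * (6 * n) * 3 + 18 * n + (8 + r) ^ 2 * n := by
    ring
  rw [e3]
  linarith

end X_CND6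

theorem x_CND6 : Stmt_CND6 := by
  intro r hr
  have hr3 : 3 ≤ r := by omega
  have hrr : (6 : ℝ) ≤ r := by exact_mod_cast hr
  have hrr3 : (3 : ℝ) ≤ r := by linarith
  have hr0 : (0 : ℝ) < r := by linarith
  have hr1 : (0 : ℝ) < (r : ℝ) - 1 := by linarith
  have hal : al r = ((r : ℝ) - 1) / r := by
    unfold al
    field_simp
  refine ⟨18 * ((r : ℝ) + 2) + (8 + (r : ℝ)) ^ 2, 2 * r ^ 2 + 1, by nlinarith, ?_⟩
  intro n hn m h0 h2
  have hn1 : 0 < n := by omega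
  have hnB : 2 * (r : ℝ) ^ 2 < n := by
    have : 2 * r ^ 2 < n := by omega
    exact_mod_cast this
  have hRR : al r * (n : ℝ) ^ 2 - 2 * m + 2 * ((r : ℝ) - 1) = RR r m n := rfl
  have hm : m + 1 ≤ tn r n + r := by
    have h3 := (pTN r hr3 n).2.1
    have h4 := (abs_le.1 h3).1
    have h5 : (m : ℝ) + 1 ≤ tn r n + r := by
      have : RR r m n = al r * (n : ℝ) ^ 2 - 2 * m + 2 * ((r : ℝ) - 1) := rfl
      linarith
    exact_mod_cast h5
  obtain ⟨y, i1, hy1, hy2, hy3, hy4⟩ := vecN pREP pTN hr hn1 hnB hm (by rw [hRR]; exact h2)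
  rw [hRR] at hy4
  have hw2 : √(n : ℝ) ^ 2 = n := Real.sq_sqrt (Nat.cast_nonneg n)
  have hw1 : 1 ≤ √(n : ℝ) := by
    refine Real.one_le_sqrt.2 ?_
    exact_mod_cast hn1
  refine ⟨y, hy1, fun i => ?_, ?_, ?_⟩
  · refine abs_le_of_sq_le_sq ?_ (by linarith)
    have h3 : (re y i - (n : ℝ) / r) ^ 2 ≤ mo 2 n (re y) := by
      unfold mo
      exact single_le_sum (f := fun i => (re y i - (n : ℝ) / r) ^ 2)
        (fun i _ => sq_nonneg _) (mem_univ i)
    have h4 : (re y i - (n : ℝ) / r) = (y i : ℝ) - n / r := rfl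
    rw [← h4, mul_pow, hw2]
    have : (0 : ℝ) ≤ n := Nat.cast_nonneg n
    linarith
  · unfold kk
    linarith
  · obtain ⟨ht1, ht2⟩ := pTNR r hr3 n y i1 hy1 hy3
    rw [hy4] at ht2
    have hR0 : 0 ≤ RR r m n := by linarith
    have hsum : ∑ i, (re y i - (n : ℝ) / r) = 0 := by
      rw [sum_sub_distrib, sum_const, card_univ, Fintype.card_fin, nsmul_eq_mul]
      have : ∑ i, re y i = (n : ℝ) := by
        unfold re
        exact_mod_cast hy1
      rw [this]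
      field_simp
      ring
    obtain ⟨c1, -⟩ := blk_CU1 r hr3 (fun i => re y i - (n : ℝ) / r) (mo 2 n (re y)) hsum rfl
    have hdR := c1 i1
    rw [hy4] at hdR
    have hdR' : ((y i1 : ℝ) - n / r) ^ 2 * ((r : ℝ) / (r - 1)) ≤ RR r m n := hdR
    obtain ⟨a, hadef⟩ : ∃ a, a = √(((r : ℝ) - 1) / r * RR r m n) := ⟨_, rfl⟩
    have ha : 0 ≤ a := by rw [hadef]; exact Real.sqrt_nonneg _
    have haR : a ^ 2 * ((r : ℝ) / (r - 1)) = RR r m n := by
      rw [hadef, Real.sq_sqrt (by positivity)]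
      field_simp
    have hT0 : 0 ≤ RR r m n - ((y i1 : ℝ) - n / r) ^ 2 * ((r : ℝ) / (r - 1)) := by linarith
    have hge := X_CND.mo3_ge hr3 hy1 i1 _
      (√(RR r m n - ((y i1 : ℝ) - n / r) ^ 2 * ((r : ℝ) / (r - 1)))) rfl (Real.sqrt_nonneg _)
      (by rw [Real.sq_sqrt hT0, hy4])
    rw [hy4] at hge
    have hlow := X_CND6.low hrr3 hw2 hw1 ht1 ha haR h2 ht2 hdR' (Real.sqrt_nonneg _)
      (Real.sq_sqrt hT0) hge
    unfold kap
    rw [X_CND6.kap_eq hrr3 ha haR]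
    exact hlow

end Pool.Agent.Work.MP_5532fa_up
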