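import Pool.Agent.Work.MP_5532fa_x.Interface3

/-! Block CUP: the competitors of the three forms. -/

open Finset

namespace Pool.Agent.Work.MP_5532fa_up

open MP5532fa (specRad qf pE)

namespace X_CUP

/-- `n^2 - ∑ z^2` is even -/
theorem even_aux {r n : ℕ} {z : Fin r → ℕ} (h : ∑ i, z i = n) :
    ∃ q : ℤ, (n : ℤ) ^ 2 - ∑ i, (z i : ℤ) ^ 2 = 2 * q := by
  have h1 : (n : ℤ) ^ 2 - ∑ i, (z i : ℤ) ^ 2 =
      (n : ℤ) * (n - 1) - ∑ i, (z i : ℤ) * ((z i : ℤ) - 1) := by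
    have e1 : ∑ i, (z i : ℤ) * ((z i : ℤ) - 1) = ∑ i, (z i : ℤ) ^ 2 - ∑ i, (z i : ℤ) := by
      rw [← sum_sub_distrib]
      exact sum_congr rfl fun i _ => by ring
    have e2 : ∑ i, (z i : ℤ) = n := by exact_mod_cast h
    rw [e1, e2]
    ring
  have h2 : Even ((n : ℤ) * (n - 1)) := Int.even_mul_pred_self _
  have h3 : Even (∑ i, (z i : ℤ) * ((z i : ℤ) - 1)) :=
    Finset.even_sum _ fun i _ => Int.even_mul_pred_self _
  obtain ⟨q, hq⟩ := h2.sub h3
  exact ⟨q, by rw [h1, hq]; ring⟩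

theorem kk_int {r n m : ℕ} {z : Fin r → ℕ} (h : ∑ i, z i = n) :
    ∃ k : ℤ, kk m n z = k := by
  obtain ⟨q, hq⟩ := even_aux h
  refine ⟨(m : ℤ) - ((r : ℤ) - 1) - q, ?_⟩
  have h1 : (n : ℝ) ^ 2 - ∑ i, (z i : ℝ) ^ 2 = 2 * (q : ℝ) := by exact_mod_cast hq
  unfold kk
  rw [h1]
  push_cast
  ring

theorem sz_re {V : Type} {r : ℕ} {H : Finset V} {c : V → Fin r} {y : Fin r → ℕ}
    (h : ∀ i, (cl H c i).card = y i) : sz H c = re y := by
  funext i
  unfold sz re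
  rw [h i]

end X_CUP

theorem x_CUP (hGS : Stmt_GS) (hC0 : Stmt_C0W) (hU : Stmt_SECU) (hMK : Stmt_MKW) : Stmt_CUP := by
  intro r e hr he
  have hr3 : (3 : ℝ) ≤ r := by exact_mod_cast hr
  have hr0 : (0 : ℝ) < r := by linarith
  obtain ⟨δ0, nU, hδ0, hS⟩ := hU r (e / 2) hr (by positivity)
  refine ⟨min (1 / (8 * r)) (δ0 / 4), max nU (max (16 * r) ⌈2 * ((r : ℝ) + 4) / δ0⌉₊),
    lt_min (by positivity) (by positivity), ?_⟩
  intro n hn m z hz hbal hk U hcase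
  have hnU : nU ≤ n := le_trans (le_max_left _ _) hn
  have hn16 : 16 * r ≤ n := le_trans (le_trans (le_max_left _ _) (le_max_right _ _)) hn
  have hnc : ⌈2 * ((r : ℝ) + 4) / δ0⌉₊ ≤ n :=
    le_trans (le_trans (le_max_right _ _) (le_max_right _ _)) hn
  have hn1 : 2 * ((r : ℝ) + 4) / δ0 ≤ n := (Nat.le_ceil _).trans (by exact_mod_cast hnc)
  rw [div_le_iff₀ hδ0] at hn1
  have hn0 : (0 : ℝ) ≤ n := Nat.cast_nonneg n
  have hn16R : 16 * (r : ℝ) ≤ n := by exact_mod_cast hn16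
  set δ : ℝ := min (1 / (8 * r)) (δ0 / 4) with hδ
  have hδa : δ * n ≤ n / (8 * r) := by
    have h1 : δ * n ≤ 1 / (8 * r) * n := mul_le_mul_of_nonneg_right (min_le_left _ _) hn0
    have h2 : 1 / (8 * (r : ℝ)) * n = n / (8 * r) := by ring
    linarith
  have hδb : δ * n ≤ δ0 * n / 4 := by
    have h1 : δ * n ≤ δ0 / 4 * n := mul_le_mul_of_nonneg_right (min_le_right _ _) hn0
    linarith
  have hδn : 0 ≤ δ * n := (abs_nonneg _).trans hk
  have hnr : (16 : ℝ) ≤ n / r := by rw [le_div_iff₀ hr0]; linarith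
  have hnr8 : (n : ℝ) / (8 * r) = (n / r) / 8 := by
    rw [div_div, mul_comm]
  have hzi : ∀ i, (n : ℝ) / r - δ * n ≤ z i := fun i => by
    have := (abs_le.1 (hbal i)).1
    linarith
  have hbal0 : ∀ (H : Finset (Fin (n + 2))) (c : Fin (n + 2) → Fin r),
      (∀ i, (cl H c i).card = z i) → ∀ i, |sz H c i - n / r| ≤ δ0 * n := by
    intro H c hy i
    rw [X_CUP.sz_re hy]
    refine (hbal i).trans ?_
    have : 0 ≤ δ0 * n := by positivity
    linarith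
  obtain ⟨k, hkk⟩ := X_CUP.kk_int (m := m) hz
  have hmk : 2 * (m : ℝ) = (n : ℝ) ^ 2 - ∑ i, (z i : ℝ) ^ 2 + 2 * ((r : ℝ) - 1) + 2 * k := by
    rw [← hkk]
    unfold kk
    ring
  rw [hkk] at hk hcase ⊢
  have hka := abs_le.1 hk
  rcases hcase with ⟨hk0, hUe⟩ | ⟨hkr, hUe⟩ | ⟨hk1, hUe⟩
  · have hk0' : 0 ≤ k := by exact_mod_cast hk0
    obtain ⟨t, rfl⟩ : ∃ t : ℕ, k = t := ⟨k.toNat, (Int.toNat_of_nonneg hk0').symm⟩
    push_cast at hka hmk hk ⊢
    have hbig : ∀ i, t + 4 ≤ z i := fun i => by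
      have h1 : (t : ℝ) + 4 ≤ z i := by linarith [hzi i, hka.2]
      exact_mod_cast h1
    obtain ⟨G, H, c, w, A, v1, v2, hW, hA, hy⟩ := (hMK r hr n t z hz hbig).1
    have hsz : sz H c = re z := X_CUP.sz_re hy
    obtain ⟨hcf, hcol, hpE⟩ := pGD r hr _ G n H c w A v1 v2 hW
    obtain ⟨hmis, hC⟩ := (hC0 r hr δ0 n _ G H c w (hbal0 H c hy)).1 A v1 v2 hW
    have hAR : (A.card : ℝ) = r + t := by rw [hA]; push_cast; ring
    obtain ⟨x, hx⟩ := exists_PV G
    have hCC := hC (by rw [hAR]; linarith [hka.2])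
    have h := hS n hnU _ G x (specRad G) c H hCC hx
    rw [hsz, hmis] at h
    refine ⟨G, hcf, hcol fun i => by rw [hy]; have := hbig i; omega, ?_, ?_⟩
    · rw [hpE, hsz, hAR, hmk]
      simp only [re]
      ring
    · rw [hUe, abs_of_nonneg (by positivity : (0 : ℝ) ≤ t)]
      push_cast at h
      nlinarith [mul_nonneg he.le (by positivity : (0 : ℝ) ≤ t)]
  · have hkr' : (r : ℤ) ≤ k := by exact_mod_cast hkr
    obtain ⟨t, rfl⟩ : ∃ t : ℕ, k = (r : ℤ) + t := ⟨(k - r).toNat, by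
      rw [Int.toNat_of_nonneg (by linarith)]; ring⟩
    push_cast at hka hmk hk ⊢
    have hbig : ∀ i, t + 4 ≤ z i := fun i => by
      have h1 : (t : ℝ) + 4 ≤ z i := by linarith [hzi i, hka.2]
      exact_mod_cast h1
    obtain ⟨G, H, c, w, u, A, B, i0, hW, hA, hy⟩ := (hMK r hr n t z hz hbig).2.1
    have hsz : sz H c = re z := X_CUP.sz_re hy
    obtain ⟨hcf, hcol, hpE⟩ := pGE r hr _ G n H c w u A B i0 hW
    obtain ⟨hmis, hC⟩ := (hC0 r hr δ0 n _ G H c w (hbal0 H c hy)).2.1 u A B i0 hW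
    have hAR : (A.card : ℝ) + 1 = r + t := by exact_mod_cast hA
    obtain ⟨x, hx⟩ := exists_PV G
    have hCC := hC (by linarith [hka.2])
    have h := hS n hnU _ G x (specRad G) c H hCC hx
    rw [hsz, hmis] at h
    refine ⟨G, hcf, hcol fun i => by rw [hy]; have := hbig i; omega, ?_, ?_⟩
    · rw [hpE, hsz, hmk]
      simp only [re]
      linarith
    · rw [hUe]
      push_cast at h
      have h2 : 0 ≤ e * (1 + |(r : ℝ) + t|) := by positivity
      linarith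
  · have hk1' : k ≤ -1 := by exact_mod_cast hk1
    obtain ⟨t, rfl⟩ : ∃ t : ℕ, k = -1 - (t : ℤ) := ⟨(-1 - k).toNat, by
      rw [Int.toNat_of_nonneg (by linarith)]; ring⟩
    push_cast at hka hmk hk hUe ⊢
    have hbig : ∀ i, t + 4 ≤ z i := fun i => by
      have h1 : (t : ℝ) + 4 ≤ z i := by linarith [hzi i, hka.1]
      exact_mod_cast h1
    obtain ⟨G, H, c, w, T, L, p, q, hW, hL, hy⟩ := (hMK r hr n t z hz hbig).2.2
    have hsz : sz H c = re z := X_CUP.sz_re hy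
    obtain ⟨hWF, hmis, hcf, hcol, hpE⟩ := hGS r hr _ G n H c w T L p q hW
    have hC := (hC0 r hr δ0 n _ G H c w (hbal0 H c hy)).2.2 T L p q hW
    have hLR : (L.card : ℝ) = t + 2 := by rw [hL]; push_cast; ring
    obtain ⟨x, hx⟩ := exists_PV G
    have hCC := hC (by rw [hLR]; linarith [hka.1])
    have h := hS n hnU _ G x (specRad G) c H hCC hx
    rw [hsz, hmis] at h
    refine ⟨G, hcf, hcol fun i => ?_, ?_, ?_⟩
    · rw [hy, hL]
      have h1 : (2 * (t + 2) : ℝ) < z i := by linarith [hzi i, hka.1]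
      exact_mod_cast h1
    · rw [hpE, hsz, hLR, hmk]
      simp only [re]
      ring
    · rw [hUe, abs_of_nonpos (by linarith [(by positivity : (0 : ℝ) ≤ t)] :
        (-1 - (t : ℝ)) ≤ 0)]
      push_cast at h
      rw [hLR] at h
      linarith

end Pool.Agent.Work.MP_5532fa_up
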