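import Pool.Agent.Work.MP_5532fa_x.Interface4

/-! # MP_5532fa_co, block CUPR (helper22): the competitors of the three forms, error `O(1/√n)`
(adapted from B_CUP.lean) -/

open Finset

namespace Pool.Agent.Work.MP_5532fa_up

open MP5532fa (specRad qf pE)

namespace X_CUPR

/-- `n^2 - ∑ z^2` is even -/
theorem even_aux {r n : ℕ} {z : Fin r → ℕ} (h : ∑ i, z i = n) :
    ∃ q : ℤ, (n : ℤ) ^ 2 - ∑ i, (z i : ℤ) ^ 2 = 2 * q := by
  have h1 : (n : ℤ) ^ 2 - ∑ i, (z i : ℤ) ^ 2 =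
      (n : ℤ) * (n - 1) - ∑ i, (z i : ℤ) * ((z i : ℤ) - 1) := by
    have e1 : ∑ i, (z i : ℤ) * ((z i : ℤ) - 1) = ∑ i, (z i : ℤ) ^ 2 - ∑ i, (z i : ℤ) := by
      rw [← sum_sub_distrib]
      exact sum_congr rfl fun i _ => by ring
    have e2 : ∑ i, (z i : ℤ) = n := by exact_mod_cast h
    rw [e1, e2]
    ring
  have h2 : Even ((n : ℤ) * (n - 1)) := Int.even_mul_pred_self _
  have h3 : Even (∑ i, (z i : ℤ) * ((z i : ℤ) - 1)) :=
    Finset.even_sum _ fun i _ => Int.even_mul_pred_self _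
  obtain ⟨q, hq⟩ := h2.sub h3
  exact ⟨q, by rw [h1, hq]; ring⟩

theorem kk_int {r n m : ℕ} {z : Fin r → ℕ} (h : ∑ i, z i = n) :
    ∃ k : ℤ, kk m n z = k := by
  obtain ⟨q, hq⟩ := even_aux h
  refine ⟨(m : ℤ) - ((r : ℤ) - 1) - q, ?_⟩
  have h1 : (n : ℝ) ^ 2 - ∑ i, (z i : ℝ) ^ 2 = 2 * (q : ℝ) := by exact_mod_cast hq
  unfold kk
  rw [h1]
  push_cast
  ring

theorem sz_re {V : Type} {r : ℕ} {H : Finset V} {c : V → Fin r} {y : Fin r → ℕ}
    (h : ∀ i, (cl H c i).card = y i) : sz H c = re y := by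
  funext i
  unfold sz re
  rw [h i]

theorem fin {r : ℕ} (hr : 3 ≤ r) {K s P μ E κ : ℝ} (hs : 0 < s) (hK : 1 ≤ K) (hκ : 0 ≤ κ)
    (h : |P - μ| ≤ K * (μ + E) / s) (hμE : μ + E ≤ ((r : ℝ) + 2) * (1 + κ)) :
    P / al r ≤ μ / al r + 2 * K * ((r : ℝ) + 2) * (1 + κ) / s := by
  have ha := al_ge hr
  have ha0 : 0 < al r := by linarith
  have hr0 : (0 : ℝ) ≤ r := Nat.cast_nonneg r
  have h1 := (abs_le.1 h).2
  set B : ℝ := K * (((r : ℝ) + 2) * (1 + κ)) / s with hB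
  have hB0 : 0 ≤ B := by positivity
  have h2 : K * (μ + E) / s ≤ B := by
    rw [hB]
    exact div_le_div_of_nonneg_right (mul_le_mul_of_nonneg_left hμE (by linarith)) hs.le
  have h3 : 2 * K * ((r : ℝ) + 2) * (1 + κ) / s = 2 * B := by rw [hB]; ring
  rw [h3, div_le_iff₀ ha0, add_mul, div_mul_cancel₀ _ ha0.ne']
  nlinarith

end X_CUPR

theorem x_CUPR (hGS : Stmt_GS) (hMK : Stmt_MKW) (hEOW : Stmt_EOW) (hS : Stmt_SECR) :
    Stmt_CUPR := by
  intro r hr
  have hr3 : (3 : ℝ) ≤ r := by exact_mod_cast hr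
  have hr0 : (0 : ℝ) < r := by linarith
  have hr1 : (0 : ℝ) < (r : ℝ) - 1 := by linarith
  have hal : al r = ((r : ℝ) - 1) / r := by
    unfold al
    field_simp
  obtain ⟨K, nS, hK, hS⟩ := hS r hr
  refine ⟨2 * K * ((r : ℝ) + 2), max nS (64 * r ^ 2), by nlinarith, ?_⟩
  intro n hn m z c' hz hbal hk hcase
  have hnS : nS ≤ n := le_trans (le_max_left _ _) hn
  have hn64 : 64 * r ^ 2 ≤ n := le_trans (le_max_right _ _) hn
  have hn0 : (0 : ℝ) ≤ n := Nat.cast_nonneg n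
  have hn64R : 64 * (r : ℝ) ^ 2 ≤ n := by exact_mod_cast hn64
  set s : ℝ := √(n : ℝ) with hs
  have hs8 : 8 * (r : ℝ) ≤ s := by
    rw [hs]
    apply Real.le_sqrt_of_sq_le
    nlinarith
  have hs0 : 0 < s := by linarith
  have hss : s * s = n := Real.mul_self_sqrt hn0
  have hnr : 8 * s ≤ n / r := by
    rw [le_div_iff₀ hr0, ← hss]
    nlinarith
  have hzi : ∀ i, 6 * s ≤ z i := fun i => by
    have := (abs_le.1 (hbal i)).1
    linarith
  obtain ⟨k, hkk⟩ := X_CUPR.kk_int (m := m) hz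
  have hmk : 2 * (m : ℝ) = (n : ℝ) ^ 2 - ∑ i, (z i : ℝ) ^ 2 + 2 * ((r : ℝ) - 1) + 2 * k := by
    rw [← hkk]
    unfold kk
    ring
  rw [hkk] at hk hcase ⊢
  have hka := abs_le.1 hk
  have hsz' : ∀ {H : Finset (Fin (n + 2))} {c : Fin (n + 2) → Fin r},
      (∀ i, (cl H c i).card = z i) → ∀ i, |sz H c i - n / r| ≤ 2 * s := by
    intro H c hy i
    rw [X_CUPR.sz_re hy]
    exact hbal i
  rcases hcase with ⟨hk0, hc⟩ | ⟨hkr, hc⟩ | ⟨hk1, hc⟩
  · have hk0' : 0 ≤ k := by exact_mod_cast hk0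
    obtain ⟨t, rfl⟩ : ∃ t : ℕ, k = t := ⟨k.toNat, (Int.toNat_of_nonneg hk0').symm⟩
    push_cast at hka hmk hk hc ⊢
    have ht0 : (0 : ℝ) ≤ t := Nat.cast_nonneg t
    have hbig : ∀ i, t + 4 ≤ z i := fun i => by
      have h1 : (t : ℝ) + 4 ≤ z i := by linarith [hzi i, hka.2]
      exact_mod_cast h1
    obtain ⟨G, H, c, w, A, v1, v2, hW, hA, hy⟩ := (hMK r hr n t z hz hbig).1
    have hsz : sz H c = re z := X_CUPR.sz_re hy
    obtain ⟨hcf, hcol, hpE⟩ := pGD r hr _ G n H c w A v1 v2 hW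
    obtain ⟨hmis, heo⟩ := (hEOW r hr n _ G H c w).1 A v1 v2 hW
    have hAR : (A.card : ℝ) = r + t := by rw [hA]; push_cast; ring
    have heoR : (eo G H : ℝ) ≤ r + t := by rw [← hAR]; exact_mod_cast heo
    have hmisR : (mis G H c : ℝ) = 2 := by rw [hmis]; norm_num
    obtain ⟨x, hx⟩ := exists_PV G
    have hind : ∀ u ∈ H, ∀ v ∈ H, c u = c v → ¬ G.Adj u v := by
      intro u hu v hv huv hadj
      rcases (hW.adj u v).1 hadj with h | h | h
      · exact h.2.2.1 huv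
      · exact hW.hw (h.1 ▸ hu)
      · exact hW.hw (h.1 ▸ hv)
    have h := (hS n hnS _ G x (specRad G) c H hW.card hind (hsz' hy)
      (by rw [hmisR]; linarith) (by linarith [hka.2]) hx).2
    rw [hsz, hmisR] at h
    refine ⟨G, hcf, hcol fun i => by rw [hy]; have := hbig i; omega, ?_, ?_⟩
    · rw [hpE, hsz, hAR, hmk]
      simp only [re]
      ring
    · have h2 := X_CUPR.fin hr hs0 hK ht0 h (by nlinarith)
      rw [abs_of_nonneg ht0]
      refine h2.trans (le_of_eq ?_)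
      rw [hc, hal]
      field_simp
      ring
  · have hkr' : (r : ℤ) ≤ k := by exact_mod_cast hkr
    obtain ⟨t, rfl⟩ : ∃ t : ℕ, k = (r : ℤ) + t := ⟨(k - r).toNat, by
      rw [Int.toNat_of_nonneg (by linarith)]; ring⟩
    push_cast at hka hmk hk hc ⊢
    have ht0 : (0 : ℝ) ≤ t := Nat.cast_nonneg t
    have hbig : ∀ i, t + 4 ≤ z i := fun i => by
      have h1 : (t : ℝ) + 4 ≤ z i := by linarith [hzi i, hka.2]
      exact_mod_cast h1
    obtain ⟨G, H, c, w, u, A, B, i0, hW, hA, hy⟩ := (hMK r hr n t z hz hbig).2.1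
    have hsz : sz H c = re z := X_CUPR.sz_re hy
    obtain ⟨hcf, hcol, hpE⟩ := pGE r hr _ G n H c w u A B i0 hW
    obtain ⟨hmis, heo⟩ := (hEOW r hr n _ G H c w).2.1 u A B i0 hW
    have hAR : (A.card : ℝ) + 1 = r + t := by exact_mod_cast hA
    have heoR : (eo G H : ℝ) ≤ A.card + r + 1 := by exact_mod_cast heo
    have hmisR : (mis G H c : ℝ) = 0 := by rw [hmis]; norm_num
    obtain ⟨x, hx⟩ := exists_PV G
    have hind : ∀ a ∈ H, ∀ b ∈ H, c a = c b → ¬ G.Adj a b := by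
      intro a ha b hb hab hadj
      rcases (hW.adj a b).1 hadj with h | h | h | h | h | h | h
      · exact h.2.2 hab
      · exact hW.hw (h.1 ▸ ha)
      · exact hW.hw (h.1 ▸ hb)
      · exact hW.hu (h.1 ▸ ha)
      · exact hW.hu (h.1 ▸ hb)
      · exact hW.hw (h.1 ▸ ha)
      · exact hW.hu (h.1 ▸ ha)
    have h := (hS n hnS _ G x (specRad G) c H hW.card hind (hsz' hy)
      (by rw [hmisR]; linarith) (by linarith [hka.2]) hx).2
    rw [hsz, hmisR] at h
    refine ⟨G, hcf, hcol fun i => by rw [hy]; have := hbig i; omega, ?_, ?_⟩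
    · rw [hpE, hsz, hmk]
      simp only [re]
      linarith
    · have h2 := X_CUPR.fin hr hs0 hK (κ := (r : ℝ) + t) (by positivity) h (by nlinarith)
      rw [abs_of_nonneg (by positivity : (0 : ℝ) ≤ (r : ℝ) + t)]
      refine h2.trans (le_of_eq ?_)
      rw [hc, hal]
      field_simp
      ring
  · have hk1' : k ≤ -1 := by exact_mod_cast hk1
    obtain ⟨t, rfl⟩ : ∃ t : ℕ, k = -1 - (t : ℤ) := ⟨(-1 - k).toNat, by
      rw [Int.toNat_of_nonneg (by linarith)]; ring⟩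
    push_cast at hka hmk hk hc ⊢
    have ht0 : (0 : ℝ) ≤ t := Nat.cast_nonneg t
    have hbig : ∀ i, t + 4 ≤ z i := fun i => by
      have h1 : (t : ℝ) + 4 ≤ z i := by linarith [hzi i, hka.1]
      exact_mod_cast h1
    obtain ⟨G, H, c, w, T, L, p, q, hW, hL, hy⟩ := (hMK r hr n t z hz hbig).2.2
    have hsz : sz H c = re z := X_CUPR.sz_re hy
    obtain ⟨hWF, hmis, hcf, hcol, hpE⟩ := hGS r hr _ G n H c w T L p q hW
    have heo := ((hEOW r hr n _ G H c w).2.2 T L p q hW).2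
    have hLR : (L.card : ℝ) = t + 2 := by rw [hL]; push_cast; ring
    have heoR : (eo G H : ℝ) ≤ r := by exact_mod_cast heo
    have hmisR : (mis G H c : ℝ) = 2 * (t + 2) := by rw [hmis, ← hLR]; push_cast; ring
    obtain ⟨x, hx⟩ := exists_PV G
    have hind : ∀ u ∈ H, ∀ v ∈ H, c u = c v → ¬ G.Adj u v := by
      intro u hu v hv huv hadj
      rcases (hW.adj u v).1 hadj with h | h | h
      · exact h.2.2.1 huv
      · exact hW.hw (h.1 ▸ hu)
      · exact hW.hw (h.1 ▸ hv)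
    have h := (hS n hnS _ G x (specRad G) c H hW.card hind (hsz' hy)
      (by rw [hmisR]; linarith [hka.1]) (by linarith) hx).2
    rw [hsz, hmisR] at h
    refine ⟨G, hcf, hcol fun i => ?_, ?_, ?_⟩
    · rw [hy, hL]
      have h1 : (2 * (t + 2) : ℝ) < z i := by linarith [hzi i, hka.1]
      exact_mod_cast h1
    · rw [hpE, hsz, hLR, hmk]
      simp only [re]
      ring
    · have h2 := X_CUPR.fin hr hs0 hK (κ := 1 + (t : ℝ)) (by positivity) h (by nlinarith)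
      have h3 : |(-1 - (t : ℝ))| = 1 + t := by
        rw [abs_of_nonpos (by linarith)]
        ring
      rw [h3]
      refine h2.trans (le_of_eq ?_)
      rw [hc, hal]
      field_simp
      ring

end Pool.Agent.Work.MP_5532fa_up
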