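import Pool.Agent.Work.MP_5532fa_x.Interface

/-!
# MP_5532fa_co, sixth round, block D3G: the classes of the missing edge are the largest ones
-/

set_option autoImplicit false

open Finset

namespace Pool.Agent.Work.MP_5532fa_up

open MP5532fa (specRad qf pE)

namespace X_D3G

open D3

theorem core {V : Type} [Fintype V] {r N : ℕ} {δ : ℝ} {G : SimpleGraph V} {H : Finset V}
    {c : V → Fin r} {w : V} {A : Finset V} {v1 v2 : V} (hr : 3 ≤ r)
    (hδ0 : 0 < δ) (hE : TOPG.FlatC r (2 * δ) N) (hW : WD G N H c w A v1 v2) (hC : C0 r δ N G c H)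
    (hmx : MX r G) (l : Fin r) (hl1 : l ≠ c v1) (hl2 : l ≠ c v2)
    (hnl : (cl H c (c v1)).card < (cl H c l).card)
    (hal : (cl A c l).card ≤ (cl H c (c v1)).card) (hsize : ∀ i, 2 ≤ (cl H c i).card)
    (hN0 : 0 < N) : False := by
  classical
  have hNR : (0 : ℝ) < N := by exact_mod_cast hN0
  have hv1A : v1 ∈ A := by
    have : v1 ∈ cl A c (c v1) := by rw [hW.h1]; exact Finset.mem_singleton_self _
    exact (mem_cl.mp this).1
  have hv2A : v2 ∈ A := by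
    have : v2 ∈ cl A c (c v2) := by rw [hW.h2]; exact Finset.mem_singleton_self _
    exact (mem_cl.mp this).1
  have hV : Nonempty V := ⟨v1⟩
  have hA1 : ∀ v ∈ A, c v = c v1 → v = v1 := by
    intro v hv h
    have : v ∈ cl A c (c v1) := mem_cl.mpr ⟨hv, h⟩
    rw [hW.h1] at this
    exact Finset.mem_singleton.mp this
  have hA2 : ∀ v ∈ A, c v = c v2 → v = v2 := by
    intro v hv h
    have : v ∈ cl A c (c v2) := mem_cl.mpr ⟨hv, h⟩
    rw [hW.h2] at this
    exact Finset.mem_singleton.mp this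
  obtain ⟨u1, hu1⟩ := hW.hne l
  obtain ⟨hu1A, hu1l⟩ := mem_cl.mp hu1
  -- the set `B`
  have hv1k : v1 ∈ cl H c (c v1) := mem_cl.mpr ⟨hW.hA hv1A, rfl⟩
  obtain ⟨B, hBsub, hBcard⟩ : ∃ B ⊆ (cl H c (c v1)).erase v1, B.card = (cl A c l).card - 1 := by
    apply Finset.exists_subset_card_eq
    rw [Finset.card_erase_of_mem hv1k]
    omega
  have hB : ∀ b ∈ B, b ∈ H ∧ c b = c v1 ∧ b ≠ v1 := by
    intro b hb
    have h1 := hBsub hb
    rw [Finset.mem_erase, mem_cl] at h1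
    exact ⟨h1.2.1, h1.2.2, h1.1⟩
  have hBA : ∀ b ∈ B, b ∉ A := by
    intro b hb hbA
    exact (hB b hb).2.2 (hA1 b hbA (hB b hb).2.1)
  obtain ⟨E, hEdef⟩ : ∃ E : Finset V, E = (cl A c l).erase u1 := ⟨_, rfl⟩
  have hEm : ∀ a, a ∈ E ↔ a ≠ u1 ∧ a ∈ A ∧ c a = l := by
    intro a
    rw [hEdef, Finset.mem_erase, mem_cl]
  have hEcard : E.card = (cl A c l).card - 1 := by
    rw [hEdef, Finset.card_erase_of_mem hu1]
  have hEA : E ⊆ A := fun a ha => ((hEm a).mp ha).2.1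
  obtain ⟨A', hA'def⟩ : ∃ A' : Finset V, A' = (A \ E) ∪ B := ⟨_, rfl⟩
  have hdis : Disjoint (A \ E) B := by
    rw [Finset.disjoint_left]
    intro a ha hb
    exact hBA a hb (Finset.mem_sdiff.mp ha).1
  have hA'm : ∀ a, a ∈ A' ↔ (a ∈ A ∧ a ∉ E) ∨ a ∈ B := by
    intro a
    rw [hA'def, Finset.mem_union, Finset.mem_sdiff]
  have hcardA' : A'.card = A.card := by
    rw [hA'def, Finset.card_union_of_disjoint hdis, Finset.card_sdiff_of_subset hEA, hEcard, hBcard]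
    have h1 : (cl A c l).card ≤ A.card := Finset.card_le_card (Finset.filter_subset _ _)
    omega
  have hA'H : A' ⊆ H := by
    intro a ha
    rcases (hA'm a).mp ha with h | h
    · exact hW.hA h.1
    · exact (hB a h).1
  have hu1c : c u1 = l := hu1l
  have hclu1 : cl A' c (c u1) = {u1} := by
    ext a
    rw [mem_cl, hA'm, Finset.mem_singleton]
    constructor
    · rintro ⟨h1 | h1, h2⟩
      · by_contra h3
        exact h1.2 ((hEm a).mpr ⟨h3, h1.1, h2.trans hu1c⟩)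
      · exfalso
        exact hl1 (hu1c.symm.trans (h2.symm.trans (hB a h1).2.1))
    · rintro rfl
      exact ⟨Or.inl ⟨hu1A, fun h => ((hEm _).mp h).1 rfl⟩, rfl⟩
  have hclv2 : cl A' c (c v2) = {v2} := by
    ext a
    rw [mem_cl, hA'm, Finset.mem_singleton]
    constructor
    · rintro ⟨h1 | h1, h2⟩
      · exact hA2 a h1.1 h2
      · exfalso
        exact hW.h12 ((hB a h1).2.1.symm.trans h2)
    · rintro rfl
      refine ⟨Or.inl ⟨hv2A, fun h => hl2 ((hEm _).mp h).2.2.symm⟩, rfl⟩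
  have hne' : ∀ i, (cl A' c i).Nonempty := by
    intro i
    by_cases hi : i = l
    · refine ⟨u1, mem_cl.mpr ⟨(hA'm u1).mpr (Or.inl ⟨hu1A, fun h => ((hEm _).mp h).1 rfl⟩), ?_⟩⟩
      rw [hu1c, hi]
    · obtain ⟨a, ha⟩ := hW.hne i
      obtain ⟨ha1, ha2⟩ := mem_cl.mp ha
      refine ⟨a, mem_cl.mpr ⟨(hA'm a).mpr (Or.inl ⟨ha1, fun h => ?_⟩), ha2⟩⟩
      exact hi (ha2.symm.trans ((hEm a).mp h).2.2)
  have h12' : c u1 ≠ c v2 := by rw [hu1c]; exact hl2
  obtain ⟨G', hG'def⟩ : ∃ G' : SimpleGraph V, G' = gD H c w A' u1 v2 := ⟨_, rfl⟩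
  have hW' : WD G' N H c w A' u1 v2 := by
    rw [hG'def]
    exact gD_WD hW.card hW.hw hA'H h12' hclu1 hclv2 hne'
  -- facts on the two graphs
  have hg := pGD r hr V G N H c w A v1 v2 hW
  have hg' := pGD r hr V G' N H c w A' u1 v2 hW'
  have hpE : pE G' = pE G := by rw [hg'.2.2, hg.2.2, hcardA']
  have hle : specRad G' ≤ specRad G := hmx G' hg'.1 (hg'.2.1 hsize) hpE
  obtain ⟨-, -, hv12, hprs⟩ := SM1b.wd_pair hW
  obtain ⟨-, -, hu12, hprs'⟩ := SM1b.wd_pair hW'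
  have hmis : mis G H c = 2 := by
    have : (mis G H c : ℝ) = 2 := by
      rw [SM1b.mis_mH, SM1b.mH_pair (hW.hA hv1A) (hW.hA hv2A) hv12 hprs]; norm_num
    exact_mod_cast this
  have hmis' : mis G' H c = 2 := by
    have : (mis G' H c : ℝ) = 2 := by
      rw [SM1b.mis_mH, SM1b.mH_pair (hW.hA hu1A) (hW.hA hv2A) hu12 hprs']; norm_num
    exact_mod_cast this
  have hind' : ∀ u ∈ H, ∀ v ∈ H, c u = c v → ¬ G'.Adj u v := by
    intro u hu v hv huv hadj
    rcases (hW'.adj u v).mp hadj with h | h | h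
    · exact h.2.2.1 huv
    · exact hW.hw (h.1 ▸ hu)
    · exact hW.hw (h.1 ▸ hv)
  have hC' : C0 r (2 * δ) N G' c H :=
    pTRF r δ N V G G' c H hC hind' hpE (by rw [hmis, hmis'])
  have hC2 : C0 r (2 * δ) N G c H := hC.mono (by linarith)
  obtain ⟨x, hx⟩ := exists_PV G
  obtain ⟨y, hy⟩ := exists_PV G'
  have hF := (pFAM r hr V G N H c w A).1 v1 v2 hW
  have hF' := (pFAM r hr V G' N H c w A').1 u1 v2 hW'
  obtain ⟨xb, hxb, hdx⟩ := hE V G x _ c H hC2 hx
  obtain ⟨yb, hyb, hdy⟩ := hE V G' y _ c H hC' hy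
  obtain ⟨cx, -, -, -⟩ := pCSE r V G H c w A _ x _ hF hx
  obtain ⟨cy, -, -, -⟩ := pCSE r V G' H c w A' _ y _ hF' hy
  generalize hlamdef : specRad G = lam at *
  generalize hlamdef' : specRad G' = lam' at *
  have hal3 := al_ge hr
  have hl'pos : 0 < lam' := by
    have h1 := (abs_le.mp hyb.lamN).1
    have h2 : 2 / 3 * (N : ℝ) ≤ al r * N := mul_le_mul_of_nonneg_right hal3 hNR.le
    linarith
  have hdsz : 1 ≤ sz H c l - sz H c (c v1) := by
    unfold sz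
    have : ((cl H c (c v1)).card : ℝ) + 1 ≤ (cl H c l).card := by exact_mod_cast hnl
    linarith
  have hD : 0 < cs x H c l - cs x H c (c v1) := TOPG.cs_pos hr hxb.xb0 (hdx l (c v1)) hdsz
  have hD' : 0 < cs y H c l - cs y H c (c v1) := TOPG.cs_pos hr hyb.xb0 (hdy l (c v1)) hdsz
  -- eigenvalue equations
  have hv1H := hW.hA hv1A
  have hv2H := hW.hA hv2A
  have hu1H := hW.hA hu1A
  have n12 : v1 ≠ v2 := fun h => hW.h12 (by rw [h])
  have nu1 : u1 ≠ v1 := fun h => hl1 (by rw [← hu1c, h])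
  have nu2 : u1 ≠ v2 := fun h => hl2 (by rw [← hu1c, h])
  have ex1 : lam * x v1 = ∑ u ∈ H, x u - cs x H c (c v1) + x w - x v2 := by
    rw [cx v1 hv1H, JD_sum, chi_pos hv1A, chi_pos rfl, chi_neg n12]; ring
  have exu : lam * x u1 = ∑ u ∈ H, x u - cs x H c l + x w := by
    rw [cx u1 hu1H, JD_sum, chi_pos hu1A, chi_neg nu1, chi_neg nu2, hu1c]; ring
  have hv1A' : v1 ∈ A' := (hA'm v1).mpr (Or.inl ⟨hv1A, fun h => hl1 ((hEm _).mp h).2.2.symm⟩)
  have hu1A' : u1 ∈ A' := (hA'm u1).mpr (Or.inl ⟨hu1A, fun h => ((hEm _).mp h).1 rfl⟩)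
  have ey1 : lam' * y v1 = ∑ u ∈ H, y u - cs y H c (c v1) + y w := by
    rw [cy v1 hv1H, JD_sum, chi_pos hv1A', chi_neg nu1.symm, chi_neg n12]; ring
  have eyu : lam' * y u1 = ∑ u ∈ H, y u - cs y H c l + y w - y v2 := by
    rw [cy u1 hu1H, JD_sum, chi_pos hu1A', chi_pos rfl, chi_neg nu2, hu1c]; ring
  -- sums over `B` and `E`
  obtain ⟨m, hm⟩ : ∃ m : ℕ, m = (cl A c l).card - 1 := ⟨_, rfl⟩
  have sxB : lam * ∑ b ∈ B, x b = m * (∑ u ∈ H, x u - cs x H c (c v1)) := by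
    rw [Finset.mul_sum, Finset.sum_congr rfl (g := fun _ => ∑ u ∈ H, x u - cs x H c (c v1))
      (fun b hb => ?_), Finset.sum_const, hBcard, nsmul_eq_mul, hm]
    obtain ⟨b1, b2, b3⟩ := hB b hb
    have b4 : b ≠ v2 := fun h => hW.h12 (by rw [← b2, h])
    rw [cx b b1, JD_sum, chi_neg (hBA b hb), chi_neg b3, chi_neg b4, b2]; ring
  have syB : lam' * ∑ b ∈ B, y b = m * (∑ u ∈ H, y u - cs y H c (c v1) + y w) := by
    rw [Finset.mul_sum, Finset.sum_congr rfl (g := fun _ => ∑ u ∈ H, y u - cs y H c (c v1) + y w)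
      (fun b hb => ?_), Finset.sum_const, hBcard, nsmul_eq_mul, hm]
    obtain ⟨b1, b2, b3⟩ := hB b hb
    have b4 : b ≠ v2 := fun h => hW.h12 (by rw [← b2, h])
    have b5 : b ≠ u1 := fun h => hl1 (by rw [← hu1c, ← h, b2])
    rw [cy b b1, JD_sum, chi_pos ((hA'm b).mpr (Or.inr hb)), chi_neg b5, chi_neg b4, b2]; ring
  have sxE : lam * ∑ b ∈ E, x b = m * (∑ u ∈ H, x u - cs x H c l + x w) := by
    rw [Finset.mul_sum, Finset.sum_congr rfl (g := fun _ => ∑ u ∈ H, x u - cs x H c l + x w)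
      (fun b hb => ?_), Finset.sum_const, hEcard, nsmul_eq_mul, hm]
    obtain ⟨b1, b2, b3⟩ := (hEm b).mp hb
    have b4 : b ≠ v2 := fun h => hl2 (by rw [← b3, h])
    have b5 : b ≠ v1 := fun h => hl1 (by rw [← b3, h])
    rw [cx b (hW.hA b2), JD_sum, chi_pos b2, chi_neg b5, chi_neg b4, b3]; ring
  have syE : lam' * ∑ b ∈ E, y b = m * (∑ u ∈ H, y u - cs y H c l) := by
    rw [Finset.mul_sum, Finset.sum_congr rfl (g := fun _ => ∑ u ∈ H, y u - cs y H c l)
      (fun b hb => ?_), Finset.sum_const, hEcard, nsmul_eq_mul, hm]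
    obtain ⟨b1, b2, b3⟩ := (hEm b).mp hb
    have b4 : b ≠ v2 := fun h => hl2 (by rw [← b3, h])
    have b6 : b ∉ A' := by
      intro h
      rcases (hA'm b).mp h with h | h
      · exact h.2 hb
      · exact hBA b h b2
    rw [cy b (hW.hA b2), JD_sum, chi_neg b6, chi_neg b1, chi_neg b4, b3]; ring
  have hsumA : ∀ z : V → ℝ, ∑ b ∈ A', z b - ∑ b ∈ A, z b = ∑ b ∈ B, z b - ∑ b ∈ E, z b := by
    intro z
    rw [hA'def, Finset.sum_union hdis]
    have := Finset.sum_sdiff hEA (f := z)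
    linarith
  -- the pairing
  have hpair := pairing hx hy
  rw [pair_diff hF hF', hsumA, hsumA] at hpair
  refine final_ineq (lam := lam) (lam' := lam') (P := ∑ v, x v * y v)
    (T := x w * (∑ b ∈ B, y b - ∑ b ∈ E, y b) + y w * (∑ b ∈ B, x b - ∑ b ∈ E, x b)
      + (x v1 * y v2 + x v2 * y v1) - (x u1 * y v2 + x v2 * y u1))
    (x2 := x v2) (y2 := y v2) (xw := x w) (yw := y w) (D := cs x H c l - cs x H c (c v1))
    (D' := cs y H c l - cs y H c (c v1)) (b := m) (p1 := x v1 - x u1) (q1 := y v1 - y u1)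
    (p2 := ∑ b ∈ B, x b - ∑ b ∈ E, x b) (q2 := ∑ b ∈ B, y b - ∑ b ∈ E, y b)
    hle hl'pos (Finset.sum_nonneg fun v _ => mul_nonneg (hx.nn v) (hy.nn v)) hpair ?_ ?_
    (hx.nn w) (hy.nn w) hD hD' (Nat.cast_nonneg _) ?_ ?_ ?_ ?_ ?_
  · have h1 := (abs_le.mp (hxb.xH v2 hv2H)).1
    have h2 := hxb.xb0
    linarith
  · have h1 := (abs_le.mp (hyb.xH v2 hv2H)).1
    have h2 := hyb.xb0
    linarith
  · rw [mul_sub, ex1, exu]; ring
  · rw [mul_sub, ey1, eyu]; ring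
  · rw [mul_sub, sxB, sxE]; ring
  · rw [mul_sub, syB, syE]; ring
  · ring

end X_D3G

/-- **D3G** -/
theorem x_D3G : Stmt_D3G := by
  intro r hr
  obtain ⟨K, -, hK⟩ := pFLAT r hr
  obtain ⟨δ1, N1, hδ1, -, hE⟩ := hK (1 / 12) (by norm_num)
  have hr3 : (3 : ℝ) ≤ r := by exact_mod_cast hr
  have hr0 : (0 : ℝ) < r := by linarith
  have hb : (0 : ℝ) < 1 / (2 * r) := by positivity
  refine ⟨min (δ1 / 2) (1 / (2 * r)), max N1 (4 * r), lt_min (by linarith) hb, ?_⟩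
  intro N hN V _ G H c w A v1 v2 hC hW hmx
  have hNN1 : N1 ≤ N := (le_max_left _ _).trans hN
  have hNN3 : 4 * r ≤ N := (le_max_right _ _).trans hN
  have hNc : 4 * (r : ℝ) ≤ N := by exact_mod_cast hNN3
  have hNR : (0 : ℝ) < N := by linarith
  have hC1 : C0 r (δ1 / 2) N G c H := hC.mono (min_le_left _ _)
  have hE' : TOPG.FlatC r (2 * (δ1 / 2)) N := by
    intro V' _ G' x lam c' H' hC' hx
    obtain ⟨xb, e1, e2, -⟩ := hE N hNN1 V' G' x lam c' H' (hC'.mono (by linarith)) hx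
    exact ⟨xb, e1, e2⟩
  have h2 : min (δ1 / 2) (1 / (2 * (r : ℝ))) * N ≤ 1 / (2 * r) * N :=
    mul_le_mul_of_nonneg_right (min_le_right _ _) hNR.le
  have h3 : (N : ℝ) / r = 2 * (1 / (2 * r) * N) := by field_simp
  have h4 : 2 ≤ 1 / (2 * (r : ℝ)) * N := by
    rw [one_div, inv_mul_eq_div, le_div_iff₀ (by positivity)]
    linarith
  have hsz : ∀ i, 1 / (2 * (r : ℝ)) * N ≤ sz H c i := by
    intro i
    have h1 := (abs_le.mp (hC.bal i)).1
    linarith
  have hsize : ∀ i, 2 ≤ (cl H c i).card := by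
    intro i
    have h5 : (2 : ℝ) ≤ sz H c i := h4.trans (hsz i)
    unfold sz at h5
    exact_mod_cast h5
  have hAle : (A.card : ℝ) ≤ 1 / (2 * r) * N := by
    have h5 := SM1b.eo_split G H
    have h6 := (SM1b.wd_deg hW).2.1
    have h7 : (dg G H w : ℝ) ≤ ∑ v ∈ out H, (dg G H v : ℝ) :=
      Finset.single_le_sum (f := fun v => (dg G H v : ℝ)) (fun i _ => Nat.cast_nonneg _)
        (mem_out.mpr hW.hw)
    have h8 : (0 : ℝ) ≤ eu G H := Nat.cast_nonneg _
    have h9 := hC.eo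
    rw [h6] at h7
    linarith
  have hal : ∀ i k, (cl A c i).card ≤ (cl H c k).card := by
    intro i k
    have h5 : (cl A c i).card ≤ A.card := Finset.card_le_card (Finset.filter_subset _ _)
    have h6 : (A.card : ℝ) ≤ sz H c k := hAle.trans (hsz k)
    unfold sz at h6
    have h7 : A.card ≤ (cl H c k).card := by exact_mod_cast h6
    exact h5.trans h7
  have hN0 : 0 < N := by exact_mod_cast hNR
  intro i k hi hk
  by_contra hcon
  push Not at hcon
  simp only [Finset.mem_insert, Finset.mem_singleton, not_or] at hi hk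
  rcases hi with rfl | rfl
  · exact X_D3G.core hr (by linarith) hE' hW hC1 hmx k hk.1 hk.2 hcon (hal _ _) hsize hN0
  · exact X_D3G.core hr (by linarith) hE' (D3.wd_symm hW) hC1 hmx k hk.2 hk.1 hcon (hal _ _)
      hsize hN0

end Pool.Agent.Work.MP_5532fa_up
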