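import Pool.Agent.Work.MP_5532fa_x.Interface

/-!
# MP_5532fa_co, sixth round, block E3G (helper52; copy of `blk_E3V` without `Bal` and `Place`)
-/

open Finset

namespace Pool.Agent.Work.MP_5532fa_up

open MP5532fa (specRad qf pE)

/-- the neighbours of `w` in `H` are counted by `eo` -/
theorem X_E3G.card_le {V : Type} [Fintype V] {G : SimpleGraph V} {H A : Finset V} {w : V}
    (hw : w ∉ H) (hA : ∀ a ∈ A, G.Adj w a) : A.card ≤ eo G H := by
  classical
  unfold eo
  refine Finset.card_le_card_of_injOn (fun a => (w, a)) ?_ ?_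
  · intro a ha
    simpa using ⟨hA a ha, hw⟩
  · intro a _ b _ h
    exact (Prod.mk.inj h).2

open E3 in
theorem x_E3G : Stmt_E3G := by
  classical
  intro r hr
  have hFAM := pFAM
  have hCSE := pCSE
  have hr3 : (3 : ℝ) ≤ r := by exact_mod_cast hr
  have hrp : (0 : ℝ) < r := by linarith
  obtain ⟨e, he0, he1⟩ : ∃ e : ℝ, 0 < e ∧ e ≤ 1 / (4 * r) :=
    ⟨1 / (4 * r), by positivity, le_refl _⟩
  obtain ⟨δ0, N0, hδ0, hest⟩ := pESTU r e hr he0
  obtain ⟨δ, hδp, hδ1, hδ3⟩ : ∃ δ : ℝ, 0 < δ ∧ δ ≤ δ0 ∧ δ ≤ 1 / (4 * r) :=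
    ⟨min δ0 (1 / (4 * r)), lt_min hδ0 (by positivity), min_le_left _ _, min_le_right _ _⟩
  refine ⟨δ, max N0 (4 * r), hδp, ?_⟩
  intro N hN V _ G H c w u A B k hC hW hOne hMX i l hi hl
  rw [Finset.mem_singleton] at hi
  subst hi
  have hlk : l ≠ i := by simpa using hl
  by_contra hlt
  push Not at hlt
  have hNN0 : N0 ≤ N := (le_max_left _ _).trans hN
  have hN2 : 4 * (r : ℝ) ≤ N := by
    have h1 : 4 * r ≤ N := (le_max_right _ _).trans hN
    exact_mod_cast h1
  have hNp : (0 : ℝ) < N := by linarith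
  have halg := al_ge hr
  have hall := al_lt hr
  -- the number of neighbours of `w`
  obtain ⟨j, hj⟩ : ∃ j : ℕ, j = A.card := ⟨_, rfl⟩
  have hjδ : (j : ℝ) ≤ δ * N := by
    have h1 : A.card ≤ eo G H :=
      X_E3G.card_le hW.hw fun a ha => (hW.adj w a).2 (Or.inr (Or.inl ⟨rfl, ha⟩))
    have h2 : (A.card : ℝ) ≤ (eo G H : ℝ) := by exact_mod_cast h1
    rw [hj]
    exact h2.trans hC.eo
  have hδN : δ * N ≤ N / r / 4 := by
    have h2 : δ * N ≤ 1 / (4 * r) * N := mul_le_mul_of_nonneg_right hδ3 hNp.le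
    have h4 : 1 / (4 * r) * (N : ℝ) = N / r / 4 := by field_simp
    linarith
  have hNr3 : (N : ℝ) / r ≤ N / 3 := by
    rw [div_le_div_iff_of_pos_left hNp hrp (by norm_num)]; exact hr3
  have hjN : (j : ℝ) ≤ N / 12 := by linarith
  have hjal : (j : ℝ) ≤ al r * N := by
    have h1 : 2 / 3 * (N : ℝ) ≤ al r * N := mul_le_mul_of_nonneg_right halg hNp.le
    linarith
  have hNear : Near r δ N j H A c := by
    refine ⟨hC.bal, ?_⟩
    rw [hj, sub_self, abs_zero]
    positivity
  -- sizes of the classes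
  have hsz0 : ∀ m, 3 / 4 * ((N : ℝ) / r) ≤ sz H c m := by
    intro m
    have h1 := (abs_le.1 (hNear.1 m)).1
    linarith
  have hNr : (4 : ℝ) ≤ N / r := by rw [le_div_iff₀ hrp]; exact hN2
  have hsz : ∀ m, (2 : ℝ) ≤ sz H c m := by
    intro m
    have h1 := hsz0 m
    linarith
  have hsz' : ∀ m, 2 ≤ (cl H c m).card := by
    intro m
    have := hsz m
    unfold sz at this
    exact_mod_cast this
  have hsmall : (cl A c l).card < (cl H c i).card := by
    have h1 : (cl A c l).card ≤ A.card := Finset.card_le_card (Finset.filter_subset _ _)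
    have h2 : ((cl A c l).card : ℝ) ≤ j := by rw [hj]; exact_mod_cast h1
    have h3 := hsz0 i
    have h4 : ((cl A c l).card : ℝ) < sz H c i := by linarith
    unfold sz at h4
    exact_mod_cast h4
  have hal1 : 1 ≤ (cl A c l).card := Finset.card_pos.2 (hW.hAne l hlk)
  obtain ⟨ul, hul⟩ := Finset.card_eq_one.1 (hW.hB1 l hlk)
  have hulB : ul ∈ B ∧ c ul = l := by
    have : ul ∈ cl B c l := by rw [hul]; exact Finset.mem_singleton_self ul
    exact mem_cl.1 this
  have hulH : ul ∈ H := hW.hB hulB.1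
  obtain ⟨Bk, uk, hBk, hBkc, huk, hiff⟩ := choose_sets (S := cl H c i) (ul ∈ A) hal1 hsmall
  obtain ⟨hukH, hukc⟩ := mem_cl.1 huk
  have hBk' : ∀ v ∈ Bk, v ∈ H ∧ c v = i := fun v hv => mem_cl.1 (hBk hv)
  have hAk' : ∀ v, c v = i → v ∉ A := by
    intro v hc hv
    have : v ∈ cl A c i := mem_cl.2 ⟨hv, hc⟩
    rw [hW.hA0] at this
    exact absurd this (Finset.notMem_empty v)
  have hBk0 : ∀ v, c v = i → v ∉ B := by
    intro v hc hv
    have : v ∈ cl B c i := mem_cl.2 ⟨hv, hc⟩
    rw [hW.hB0] at this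
    exact absurd this (Finset.notMem_empty v)
  obtain ⟨A', hA'H, hA'm, hA'l, hA'k, hA'o, hA's, hA'c⟩ := swapA hlk hW.hA hW.hA0 hBk
  obtain ⟨B', hB'H, hB'm, hB'l, hB'k, hB'o, hB's⟩ := swapB hlk hW.hB hW.hB0 hul huk
  have hA'card : A'.card = A.card := by omega
  have hW' : WE (gE H c w u A' B') N H c w u A' B' l := by
    refine gE_WE hW.card hW.hw hW.hu hW.hwu hA'H hB'H hA'l hB'l ?_ ?_ ?_
    · intro m hm
      by_cases hmi : m = i
      · rw [hmi, hA'k, ← Finset.card_pos, hBkc]; exact hal1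
      · rw [hA'o m hmi hm]; exact hW.hAne m hmi
    · intro m hm
      by_cases hmi : m = i
      · rw [hmi, hB'k, Finset.card_singleton]
      · rw [hB'o m hmi hm]; exact hW.hB1 m hmi
    · intro hsub
      obtain ⟨b, hbB, hbA⟩ := Finset.not_subset.1 hW.hBA
      by_cases hb : b = ul
      · subst hb
        have h1 : uk ∈ A' := hsub ((hB'm uk).2 (Or.inr rfl))
        rcases (hA'm uk).1 h1 with h2 | h2
        · exact hAk' uk hukc h2.1
        · exact hbA (hiff.1 h2)
      · have h1 : b ∈ A' := hsub ((hB'm b).2 (Or.inl ⟨hbB, hb⟩))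
        rcases (hA'm b).1 h1 with h2 | h2
        · exact hbA h2.1
        · exact hBk0 b (hBk' b h2).2 hbB
  set G' := gE H c w u A' B' with hG'
  obtain ⟨_, _, hpE⟩ := pGE r hr V G N H c w u A B i hW
  obtain ⟨hfree, hcol, hpE'⟩ := pGE r hr V G' N H c w u A' B' l hW'
  have hle : specRad G' ≤ specRad G := by
    refine hMX G' hfree (hcol fun m => by have := hsz' m; omega) ?_
    rw [hpE, hpE', hA'card]
  haveI : Nonempty V := ⟨w⟩
  obtain ⟨x, hx⟩ := exists_PV G
  obtain ⟨y, hy⟩ := exists_PV G'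
  have hF := (hFAM r hr V G N H c w A).2 u B i hW
  have hF' := (hFAM r hr V G' N H c w A').2 u B' l hW'
  have hNear0 := near_mono hNear hδ1
  have hNear' : Near r δ0 N j H A' c := ⟨hNear0.1, by rw [hA'card]; exact hNear0.2⟩
  obtain ⟨xb, hEx⟩ := hest N hNN0 j hjal V G H c w A (JE w u B) x _ hF hx hW.card hNear0
  obtain ⟨yb, hEy⟩ := hest N hNN0 j hjal V G' H c w A' (JE w u B') y _ hF' hy hW.card hNear'
  -- elementary estimates
  have he3 : e ≤ 1 / 12 := he1.trans (by
    rw [div_le_div_iff_of_pos_left one_pos (by positivity) (by norm_num)]; linarith)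
  have halN : 0 < al r * N := by positivity
  have hX0 : 0 ≤ (j : ℝ) / (al r * N) := by positivity
  have hX1 : (j : ℝ) / (al r * N) ≤ 1 / 8 := by
    rw [div_le_iff₀ halN]
    have h1 : 2 / 3 * (N : ℝ) ≤ al r * N := mul_le_mul_of_nonneg_right halg hNp.le
    linarith
  have hlam : 0 < specRad G := by
    have h1 := (abs_le.1 hEx.lamN).1
    nlinarith
  have hlam' : 0 < specRad G' := by
    have h1 := (abs_le.1 hEy.lamN).1
    nlinarith
  have hxw : 0 < x w := xw_pos hr hW hx hlam (by linarith) hEx.xb0 hEx.xH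
  have hszd : 1 ≤ sz H c l - sz H c i := by
    have h1 : (cl H c i).card + 1 ≤ (cl H c l).card := hlt
    have h2 : (((cl H c i).card + 1 : ℕ) : ℝ) ≤ ((cl H c l).card : ℝ) := by exact_mod_cast h1
    push_cast at h2
    unfold sz
    linarith
  obtain ⟨g, hg⟩ : ∃ g : ℝ, g = sz H c l - sz H c i := ⟨_, rfl⟩
  rw [← hg] at hszd
  have hgabs : |g| = g := abs_of_nonneg (by linarith)
  -- differences of the class sums
  have hD : 0 < cs x H c l - cs x H c i := by
    have h1 := (abs_le.1 (hEx.dif l i)).1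
    have h2 : sz A c i = 0 := by unfold sz; rw [hW.hA0]; simp
    rw [← hg, h2, sub_zero, hgabs] at h1
    have h3 : 0 ≤ sz A c l := by unfold sz; exact Nat.cast_nonneg _
    have h4 : 0 ≤ (j : ℝ) / (al r * N) * (sz A c l / N) := by positivity
    have h5 := hEx.xb0
    have h6 : 0 ≤ xb * ((j : ℝ) / (al r * N) * (sz A c l / N)) := mul_nonneg h5.le h4
    have h7 : e * xb * (g + 1) ≤ 1 / 12 * xb * (g + 1) :=
      mul_le_mul_of_nonneg_right (mul_le_mul_of_nonneg_right he3 h5.le) (by linarith)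
    have h8 : xb * (2 / 3 * g) ≤ xb * (al r * g) :=
      mul_le_mul_of_nonneg_left (mul_le_mul_of_nonneg_right halg (by linarith)) h5.le
    have h9 : 0 < xb * g := mul_pos h5 (by linarith)
    have h10 : xb ≤ xb * g := by nlinarith
    nlinarith
  have hD' : 0 < cs y H c l - cs y H c i := by
    have h1 := (abs_le.1 (hEy.dif l i)).1
    have h2 : sz A' c l = 0 := by unfold sz; rw [hA'l]; simp
    rw [← hg, h2, zero_sub, hgabs] at h1
    have h3 : sz A' c i / N ≤ 1 := by
      rw [div_le_one hNp]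
      unfold sz
      rw [← hW.card]
      have : (cl A' c i).card ≤ H.card :=
        Finset.card_le_card fun v hv => hA'H (mem_cl.1 hv).1
      exact_mod_cast this
    have h3' : 0 ≤ sz A' c i / N := by unfold sz; positivity
    have h4 : (j : ℝ) / (al r * N) * (sz A' c i / N) ≤ 1 / 8 := by
      have : (j : ℝ) / (al r * N) * (sz A' c i / N) ≤ (j : ℝ) / (al r * N) * 1 :=
        mul_le_mul_of_nonneg_left h3 hX0
      linarith
    have h5 := hEy.xb0
    have h6 : (j : ℝ) / (al r * N) * (-sz A' c i / N)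
        = -((j : ℝ) / (al r * N) * (sz A' c i / N)) := by ring
    rw [h6] at h1
    have h6' : yb * ((j : ℝ) / (al r * N) * (sz A' c i / N)) ≤ yb * (1 / 8) :=
      mul_le_mul_of_nonneg_left h4 h5.le
    have h7 : e * yb * (g + 1) ≤ 1 / 12 * yb * (g + 1) :=
      mul_le_mul_of_nonneg_right (mul_le_mul_of_nonneg_right he3 h5.le) (by linarith)
    have h8 : yb * (2 / 3 * g) ≤ yb * (al r * g) :=
      mul_le_mul_of_nonneg_left (mul_le_mul_of_nonneg_right halg (by linarith)) h5.le
    have h10 : yb ≤ yb * g := by nlinarith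
    nlinarith
  -- the eigenvalue equations
  have hex := eigE hFAM hCSE hr hW hx
  have hey := eigE hFAM hCSE hr hW' hy
  set S := ∑ z ∈ H, x z with hS
  set S' := ∑ z ∈ H, y z with hS'
  set sg := chi (ul ∈ A) with hsg
  have hxBk : ∀ v ∈ cl H c i, specRad G * x v = S - cs x H c i := by
    intro v hv
    obtain ⟨h1, h2⟩ := mem_cl.1 hv
    rw [hex v h1, chi_neg (hAk' v h2), chi_neg (hBk0 v h2), h2]; ring
  have hyl : ∀ v ∈ cl H c l, specRad G' * y v = S' - cs y H c l := by
    intro v hv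
    obtain ⟨h1, h2⟩ := mem_cl.1 hv
    have h3 : v ∉ A' := by
      intro h
      have : v ∈ cl A' c l := mem_cl.2 ⟨h, h2⟩
      rw [hA'l] at this
      exact absurd this (Finset.notMem_empty v)
    have h4 : v ∉ B' := by
      intro h
      have : v ∈ cl B' c l := mem_cl.2 ⟨h, h2⟩
      rw [hB'l] at this
      exact absurd this (Finset.notMem_empty v)
    rw [hey v h1, chi_neg h3, chi_neg h4, h2]; ring
  have hclsub : cl A c l ⊆ cl H c l := fun v hv =>
    mem_cl.2 ⟨hW.hA (mem_cl.1 hv).1, (mem_cl.1 hv).2⟩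
  have hxul : specRad G * x ul = S - cs x H c l + sg * x w + x u := by
    rw [hex ul hulH, chi_pos hulB.1, hulB.2]; ring
  have hyul : specRad G' * y ul = S' - cs y H c l := hyl ul (mem_cl.2 ⟨hulH, hulB.2⟩)
  have hxuk : specRad G * x uk = S - cs x H c i := hxBk uk huk
  have hukA' : uk ∈ A' ↔ ul ∈ A := by
    rw [hA'm, ← hiff]
    constructor
    · rintro (h | h)
      · exact absurd h.1 (hAk' uk hukc)
      · exact h
    · exact Or.inr
  have hyuk : specRad G' * y uk = S' - cs y H c i + sg * y w + y u := by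
    rw [hey uk hukH, chi_pos ((hB'm uk).2 (Or.inr rfl)), hukc, chi_congr hukA']; ring
  -- sums
  have hsum1 : specRad G * (∑ v ∈ Bk, x v - ∑ v ∈ cl A c l, x v)
      = (cl A c l).card * ((cs x H c l - cs x H c i) - x w) - sg * x u := by
    rw [mul_sub, Finset.mul_sum, Finset.mul_sum]
    rw [Finset.sum_congr rfl fun v hv => hxBk v (hBk hv)]
    have h1 : ∀ v ∈ cl A c l, specRad G * x v
        = (S - cs x H c l + x w) + chi (v = ul) * x u := by
      intro v hv
      obtain ⟨h2, h3⟩ := mem_cl.1 hv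
      have h4 : v ∈ B ↔ v = ul := by
        constructor
        · intro h5
          have : v ∈ cl B c l := mem_cl.2 ⟨h5, h3⟩
          rw [hul] at this
          exact Finset.mem_singleton.1 this
        · intro h5; rw [h5]; exact hulB.1
      rw [hex v (hW.hA h2), chi_pos h2, h3, chi_congr h4]; ring
    rw [Finset.sum_congr rfl h1, Finset.sum_add_distrib, ← Finset.sum_mul, Finset.sum_const,
      Finset.sum_const, hBkc, nsmul_eq_mul, nsmul_eq_mul]
    have h5 : ∑ v ∈ cl A c l, chi (v = ul) = sg := by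
      rw [hsg]
      by_cases h6 : ul ∈ A
      · rw [chi_pos h6, Finset.sum_eq_single ul]
        · exact chi_pos rfl
        · intro b _ hb; exact chi_neg hb
        · intro h; exact absurd (mem_cl.2 ⟨h6, hulB.2⟩) h
      · rw [chi_neg h6]
        refine Finset.sum_eq_zero fun v hv => chi_neg ?_
        intro h; exact h6 (h ▸ (mem_cl.1 hv).1)
    rw [h5]; ring
  have hsum2 : specRad G' * (∑ v ∈ Bk, y v - ∑ v ∈ cl A c l, y v)
      = (cl A c l).card * ((cs y H c l - cs y H c i) + y w) + sg * y u := by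
    rw [mul_sub, Finset.mul_sum, Finset.mul_sum]
    rw [Finset.sum_congr rfl fun v hv => hyl v (hclsub hv)]
    have h1 : ∀ v ∈ Bk, specRad G' * y v
        = (S' - cs y H c i + y w) + chi (v = uk) * y u := by
      intro v hv
      obtain ⟨h2, h3⟩ := hBk' v hv
      have h4 : v ∈ B' ↔ v = uk := by
        constructor
        · intro h5
          have : v ∈ cl B' c i := mem_cl.2 ⟨h5, h3⟩
          rw [hB'k] at this
          exact Finset.mem_singleton.1 this
        · intro h5; rw [h5]; exact (hB'm uk).2 (Or.inr rfl)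
      rw [hey v h2, chi_pos ((hA'm v).2 (Or.inr hv)), h3, chi_congr h4]; ring
    rw [Finset.sum_congr rfl h1, Finset.sum_add_distrib, ← Finset.sum_mul, Finset.sum_const,
      Finset.sum_const, hBkc, nsmul_eq_mul, nsmul_eq_mul]
    have h5 : ∑ v ∈ Bk, chi (v = uk) = sg := by
      rw [hsg, ← chi_congr hiff]
      by_cases h6 : uk ∈ Bk
      · rw [chi_pos h6, Finset.sum_eq_single uk]
        · exact chi_pos rfl
        · intro b _ hb; exact chi_neg hb
        · intro h; exact absurd h6 h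
      · rw [chi_neg h6]
        refine Finset.sum_eq_zero fun v hv => chi_neg ?_
        intro h; exact h6 (h ▸ hv)
    rw [h5]; ring
  have hpair := pairing hx hy
  rw [pair_fam hF hF' x y, JE_double, JE_double, hA's y, hA's x, hB's y, hB's x] at hpair
  have hip : 0 ≤ ∑ v, x v * y v := Finset.sum_nonneg fun v _ => mul_nonneg (hx.nn v) (hy.nn v)
  refine E3.final (lam := specRad G) (lam' := specRad G') (a := ((cl A c l).card : ℝ)) (sg := sg)
    (D := cs x H c l - cs x H c i) (D' := cs y H c l - cs y H c i) (xw := x w) (yw := y w)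
    (xu := x u) (yu := y u) (P := ∑ v ∈ Bk, x v - ∑ v ∈ cl A c l, x v)
    (P' := ∑ v ∈ Bk, y v - ∑ v ∈ cl A c l, y v) (Q := x uk - x ul) (Q' := y uk - y ul)
    (ip := ∑ v, x v * y v) hlam hle (by exact_mod_cast hal1) (chi_nonneg _) hD hD' hxw (hy.nn w)
    (hx.nn u) (hy.nn u) hlam' hip hsum1 hsum2 ?_ ?_ ?_
  · rw [mul_sub, hxuk, hxul]; ring
  · rw [mul_sub, hyuk, hyul]; ring
  · rw [← hpair]; ring

end Pool.Agent.Work.MP_5532fa_up
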