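import Pool.Agent.Work.MP_5532fa_x.Interface

/-! # Block EBG -/

open Finset

namespace Pool.Agent.Work.MP_5532fa_up

open MP5532fa (specRad qf pE)

namespace X_EBG

theorem card_le_eo {V : Type} [Fintype V] {r : ℕ} {G : SimpleGraph V} {N : ℕ} {H : Finset V}
    {c : V → Fin r} {w u : V} {A B : Finset V} {i0 : Fin r} (h : WE G N H c w u A B i0) :
    A.card ≤ eo G H := by
  classical
  unfold eo
  refine Finset.card_le_card_of_injOn (fun a => (w, a)) ?_ ?_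
  · intro a ha
    have ha' : a ∈ A := ha
    simp only [Finset.coe_filter, Finset.mem_univ, true_and, Set.mem_setOf_eq]
    exact ⟨(h.adj w a).2 (Or.inr (Or.inl ⟨rfl, ha'⟩)), h.hw⟩
  · intro a _ b _ hab
    simpa using hab

theorem rgV {r N j : ℕ} {δ : ℝ} (hr : 3 ≤ r) (hδ : δ ≤ 1 / 9) (hj : (j : ℝ) ≤ δ * N) :
    RgV r N j := by
  unfold RgV
  have h3 : (3 : ℝ) ≤ r := by exact_mod_cast hr
  have h1 : (2 : ℝ) / r ≤ 2 / 3 := by
    rw [div_le_div_iff₀ (by linarith) (by norm_num)]; linarith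
  have h2 : (0 : ℝ) ≤ 1 / (4 * (r : ℝ) ^ 2) := by positivity
  have h4 := al_ge hr
  have hN : (0 : ℝ) ≤ N := Nat.cast_nonneg N
  have h5 : 2 / 3 * (N : ℝ) ≤ al r * N := mul_le_mul_of_nonneg_right h4 hN
  have h6 : (1 / 3 : ℝ) * (2 / 3 * N) ≤ (1 - 2 / r + 1 / (4 * (r : ℝ) ^ 2)) * (al r * N) :=
    mul_le_mul (by linarith) h5 (by positivity) (by linarith)
  have h7 : δ * N ≤ 1 / 9 * N := mul_le_mul_of_nonneg_right hδ hN
  linarith

end X_EBG

theorem x_EBG : Stmt_EBG := by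
  intro r hr
  obtain ⟨δ, N0, hδ, H⟩ := pEBV r hr
  refine ⟨min δ (1 / 9), N0, lt_min hδ (by norm_num), ?_⟩
  intro N hN V _ G H' c w u A B i0 hC hW hM
  have h1 : (A.card : ℝ) ≤ min δ (1 / 9) * N :=
    le_trans (by exact_mod_cast X_EBG.card_le_eo hW) hC.eo
  have hN' : (0 : ℝ) ≤ N := Nat.cast_nonneg N
  refine H N hN A.card (X_EBG.rgV hr (min_le_right _ _) h1) V G H' c w u A B i0 hW ⟨?_, ?_⟩ hM
  · intro i
    exact (hC.bal i).trans (mul_le_mul_of_nonneg_right (min_le_left _ _) hN')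
  · rw [sub_self, abs_zero]; positivity

end Pool.Agent.Work.MP_5532fa_up
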