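import Pool.Agent.Work.MP_5532fa_x.Interface3

/-! # Block C0W -/

open Finset

namespace Pool.Agent.Work.MP_5532fa_up

open MP5532fa (specRad qf pE)

namespace X_C0W

section
variable {V : Type} [Fintype V] {r : ℕ} {G : SimpleGraph V} {N : ℕ} {H : Finset V}
    {c : V → Fin r} {w : V}

/-! ### the form D -/

section D
variable {A : Finset V} {v1 v2 : V}

omit [Fintype V] in
theorem d1 (h : WD G N H c w A v1 v2) : v1 ∈ A := by
  have : v1 ∈ cl A c (c v1) := by rw [h.h1]; exact Finset.mem_singleton_self _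
  exact (mem_cl.1 this).1

omit [Fintype V] in
theorem d2 (h : WD G N H c w A v1 v2) : v2 ∈ A := by
  have : v2 ∈ cl A c (c v2) := by rw [h.h2]; exact Finset.mem_singleton_self _
  exact (mem_cl.1 this).1

omit [Fintype V] in
theorem mis_D (h : WD G N H c w A v1 v2) : mis G H c = 2 := by
  classical
  have hne : v1 ≠ v2 := fun e => h.h12 (by rw [e])
  have k1 : v1 ∈ H := h.hA (d1 h)
  have k2 : v2 ∈ H := h.hA (d2 h)
  have w1 : v1 ≠ w := fun e => h.hw (e ▸ k1)
  have w2 : v2 ≠ w := fun e => h.hw (e ▸ k2)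
  have h1 : ((H ×ˢ H).filter (fun e => c e.1 ≠ c e.2 ∧ ¬ G.Adj e.1 e.2)) =
      ({(v1, v2), (v2, v1)} : Finset (V × V)) := by
    ext ⟨a, b⟩
    simp only [Finset.mem_filter, Finset.mem_product, Finset.mem_insert, Finset.mem_singleton,
      Prod.mk.injEq]
    constructor
    · rintro ⟨⟨ha, hb⟩, hc, hn⟩
      rw [h.adj] at hn
      by_contra hcon
      exact hn (Or.inl ⟨ha, hb, hc, fun e => hcon (Or.inl e), fun e => hcon (Or.inr e)⟩)
    · rintro (⟨rfl, rfl⟩ | ⟨rfl, rfl⟩)
      · refine ⟨⟨k1, k2⟩, h.h12, ?_⟩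
        rw [h.adj]
        rintro (h1 | h1 | h1)
        · exact h1.2.2.2.1 ⟨rfl, rfl⟩
        · exact w1 h1.1
        · exact w2 h1.1
      · refine ⟨⟨k2, k1⟩, h.h12.symm, ?_⟩
        rw [h.adj]
        rintro (h1 | h1 | h1)
        · exact h1.2.2.2.2 ⟨rfl, rfl⟩
        · exact w2 h1.1
        · exact w1 h1.1
  have h2 : mis G H c = ({(v1, v2), (v2, v1)} : Finset (V × V)).card := by
    rw [← h1]
    unfold mis
    congr
  rw [h2, Finset.card_pair]
  intro e
  exact hne (Prod.mk.injEq _ _ _ _ ▸ e).1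

theorem eo_D (h : WD G N H c w A v1 v2) : eo G H ≤ A.card := by
  classical
  have h1 : ((univ : Finset (V × V)).filter (fun e => G.Adj e.1 e.2 ∧ e.1 ∉ H)) ⊆
      ({w} : Finset V) ×ˢ A := by
    rintro ⟨a, b⟩ hab
    simp only [Finset.mem_filter, Finset.mem_univ, true_and] at hab
    simp only [Finset.mem_product, Finset.mem_singleton]
    obtain ⟨h1, h2⟩ := hab
    rw [h.adj] at h1
    rcases h1 with h1 | h1 | h1
    · exact absurd h1.1 h2
    · exact h1
    · exact absurd (h.hA h1.2) h2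
  have h2 : eo G H = ((univ : Finset (V × V)).filter
      (fun e => G.Adj e.1 e.2 ∧ e.1 ∉ H)).card := by
    unfold eo
    congr
  rw [h2]
  refine (Finset.card_le_card h1).trans ?_
  rw [Finset.card_product, Finset.card_singleton, one_mul]

omit [Fintype V] in
theorem ind_D (h : WD G N H c w A v1 v2) : ∀ u ∈ H, ∀ v ∈ H, c u = c v → ¬ G.Adj u v := by
  intro u hu v hv hc
  rw [h.adj]
  rintro (h1 | h1 | h1)
  · exact h1.2.2.1 hc
  · exact h.hw (h1.1 ▸ hu)
  · exact h.hw (h1.1 ▸ hv)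

end D

/-! ### the form E -/

section E
variable {u : V} {A B : Finset V} {i0 : Fin r}

omit [Fintype V] in
theorem mis_E (h : WE G N H c w u A B i0) : mis G H c = 0 := by
  classical
  unfold mis
  rw [Finset.card_eq_zero, Finset.filter_eq_empty_iff]
  rintro ⟨a, b⟩ hab ⟨hc, hn⟩
  rw [Finset.mem_product] at hab
  exact hn ((h.adj a b).2 (Or.inl ⟨hab.1, hab.2, hc⟩))

omit [Fintype V] in
theorem card_B (h : WE G N H c w u A B i0) : B.card + 1 = r := by
  have h1 := sum_card_cl B c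
  rw [← h1]
  have h2 : ∀ i, (cl B c i).card = if i = i0 then 0 else 1 := by
    intro i
    by_cases hi : i = i0
    · rw [if_pos hi, hi, h.hB0, Finset.card_empty]
    · rw [if_neg hi, h.hB1 i hi]
  rw [Finset.sum_congr rfl (fun i _ => h2 i)]
  have h3 : ∀ i : Fin r, (if i = i0 then 0 else 1) + (if i = i0 then 1 else 0) = 1 := by
    intro i
    split_ifs <;> rfl
  have h4 : ∑ i : Fin r, (if i = i0 then 1 else 0) = 1 := by
    rw [Finset.sum_ite_eq' univ i0 (fun _ => 1), if_pos (Finset.mem_univ _)]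
  have h5 : ∑ i : Fin r, ((if i = i0 then 0 else 1) + (if i = i0 then 1 else 0)) = r := by
    rw [Finset.sum_congr rfl (fun i _ => h3 i)]
    simp
  rw [Finset.sum_add_distrib, h4] at h5
  exact h5

theorem eo_E (h : WE G N H c w u A B i0) : eo G H ≤ A.card + r + 1 := by
  classical
  have h1 : ((univ : Finset (V × V)).filter (fun e => G.Adj e.1 e.2 ∧ e.1 ∉ H)) ⊆
      (({w} : Finset V) ×ˢ A ∪ ({u} : Finset V) ×ˢ B) ∪
        ({(w, u), (u, w)} : Finset (V × V)) := by
    rintro ⟨a, b⟩ hab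
    simp only [Finset.mem_filter, Finset.mem_univ, true_and] at hab
    simp only [Finset.mem_union, Finset.mem_product, Finset.mem_singleton, Finset.mem_insert,
      Prod.mk.injEq]
    obtain ⟨h1, h2⟩ := hab
    rw [h.adj] at h1
    rcases h1 with h1 | h1 | h1 | h1 | h1 | h1 | h1
    · exact absurd h1.1 h2
    · exact Or.inl (Or.inl h1)
    · exact absurd (h.hA h1.2) h2
    · exact Or.inl (Or.inr h1)
    · exact absurd (h.hB h1.2) h2
    · exact Or.inr (Or.inl h1)
    · exact Or.inr (Or.inr h1)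
  have h2 : eo G H = ((univ : Finset (V × V)).filter
      (fun e => G.Adj e.1 e.2 ∧ e.1 ∉ H)).card := by
    unfold eo
    congr
  have h3 := Finset.card_le_card h1
  rw [← h2] at h3
  have h4 := Finset.card_union_le (({w} : Finset V) ×ˢ A ∪ ({u} : Finset V) ×ˢ B)
    ({(w, u), (u, w)} : Finset (V × V))
  have h5 := Finset.card_union_le (({w} : Finset V) ×ˢ A) (({u} : Finset V) ×ˢ B)
  have h6 := Finset.card_le_two (a := (w, u)) (b := (u, w))
  rw [Finset.card_product, Finset.card_product, Finset.card_singleton,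
    Finset.card_singleton] at h5
  have h7 := card_B h
  omega

omit [Fintype V] in
theorem ind_E (h : WE G N H c w u A B i0) : ∀ x ∈ H, ∀ v ∈ H, c x = c v → ¬ G.Adj x v := by
  intro x hx v hv hc
  rw [h.adj]
  rintro (h1 | h1 | h1 | h1 | h1 | h1 | h1)
  · exact h1.2.2 hc
  · exact h.hw (h1.1 ▸ hx)
  · exact h.hw (h1.1 ▸ hv)
  · exact h.hu (h1.1 ▸ hx)
  · exact h.hu (h1.1 ▸ hv)
  · exact h.hw (h1.1 ▸ hx)
  · exact h.hu (h1.1 ▸ hx)

end E

/-! ### the form S -/

section S
variable {T L : Finset V} {p q : V}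

theorem mis_S (h : WS G N H c w T L p q) : mis G H c ≤ 2 * L.card := by
  classical
  have h1 : ((H ×ˢ H).filter (fun e => c e.1 ≠ c e.2 ∧ ¬ G.Adj e.1 e.2)) ⊆
      (({p} : Finset V) ×ˢ L) ∪ (L ×ˢ ({p} : Finset V)) := by
    rintro ⟨a, b⟩ hab
    simp only [Finset.mem_filter, Finset.mem_product] at hab
    simp only [Finset.mem_product, Finset.mem_union, Finset.mem_singleton]
    obtain ⟨⟨ha, hb⟩, hc, hn⟩ := hab
    rw [h.adj] at hn
    by_contra hcon
    apply hn
    exact Or.inl ⟨ha, hb, hc, fun e => hcon (Or.inl e), fun e => hcon (Or.inr ⟨e.2, e.1⟩)⟩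
  have h2 : mis G H c =
      ((H ×ˢ H).filter (fun e => c e.1 ≠ c e.2 ∧ ¬ G.Adj e.1 e.2)).card := by
    unfold mis
    congr
  have h3 := Finset.card_le_card h1
  rw [← h2] at h3
  have h4 := Finset.card_union_le (({p} : Finset V) ×ˢ L) (L ×ˢ ({p} : Finset V))
  rw [Finset.card_product, Finset.card_product, Finset.card_singleton] at h4
  omega

theorem card_T (h : WS G N H c w T L p q) : T.card = r := by
  have h1 := sum_card_cl T c
  rw [← h1, Finset.sum_congr rfl (fun i _ => h.hT1 i)]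
  simp

theorem eo_S (h : WS G N H c w T L p q) : eo G H ≤ r := by
  classical
  have h1 : ((univ : Finset (V × V)).filter (fun e => G.Adj e.1 e.2 ∧ e.1 ∉ H)) ⊆
      ({w} : Finset V) ×ˢ T := by
    rintro ⟨a, b⟩ hab
    simp only [Finset.mem_filter, Finset.mem_univ, true_and] at hab
    simp only [Finset.mem_product, Finset.mem_singleton]
    obtain ⟨h1, h2⟩ := hab
    rw [h.adj] at h1
    rcases h1 with h1 | h1 | h1
    · exact absurd h1.1 h2
    · exact h1
    · exact absurd (h.hT h1.2) h2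
  have h2 : eo G H = ((univ : Finset (V × V)).filter
      (fun e => G.Adj e.1 e.2 ∧ e.1 ∉ H)).card := by
    unfold eo
    congr
  rw [h2]
  refine (Finset.card_le_card h1).trans ?_
  rw [Finset.card_product, Finset.card_singleton, one_mul, card_T h]

theorem ind_S (h : WS G N H c w T L p q) : ∀ u ∈ H, ∀ v ∈ H, c u = c v → ¬ G.Adj u v := by
  intro u hu v hv hc
  rw [h.adj]
  rintro (h1 | h1 | h1)
  · exact h1.2.2.1 hc
  · exact h.hw (h1.1 ▸ hu)
  · exact h.hw (h1.1 ▸ hv)

end S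

end

end X_C0W

theorem x_C0W : Stmt_C0W := by
  intro r hr δ n V _ G H c w hbal
  refine ⟨?_, ?_, ?_⟩
  · intro A v1 v2 h
    refine ⟨X_C0W.mis_D h, fun hA => ⟨h.card, X_C0W.ind_D h, ?_, hbal, ?_⟩⟩
    · rw [X_C0W.mis_D h]
      have : (0 : ℝ) ≤ A.card := Nat.cast_nonneg _
      push_cast
      linarith
    · have h1 : (eo G H : ℝ) ≤ A.card := by exact_mod_cast X_C0W.eo_D h
      linarith
  · intro u A B i0 h
    refine ⟨X_C0W.mis_E h, fun hA => ⟨h.card, X_C0W.ind_E h, ?_, hbal, ?_⟩⟩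
    · rw [X_C0W.mis_E h]
      have : (0 : ℝ) ≤ A.card := Nat.cast_nonneg _
      have h2 : (0 : ℝ) ≤ r := Nat.cast_nonneg _
      push_cast
      linarith
    · have h1 : (eo G H : ℝ) ≤ A.card + r + 1 := by exact_mod_cast X_C0W.eo_E h
      linarith
  · intro T L p q h hL
    refine ⟨h.card, X_C0W.ind_S h, ?_, hbal, ?_⟩
    · have h1 : (mis G H c : ℝ) ≤ 2 * L.card := by exact_mod_cast X_C0W.mis_S h
      have h2 : (0 : ℝ) ≤ r := Nat.cast_nonneg _
      linarith
    · have h1 : (eo G H : ℝ) ≤ r := by exact_mod_cast X_C0W.eo_S h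
      have h2 : (0 : ℝ) ≤ L.card := Nat.cast_nonneg _
      linarith

end Pool.Agent.Work.MP_5532fa_up
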