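import Pool.Agent.Work.MP_5532fa_x.Interface4
import Pool.Agent.Work.MP_5532fa_x.B_C0W

/-! # Block EOW -/

open Finset

namespace Pool.Agent.Work.MP_5532fa_up

open MP5532fa (specRad qf pE)

namespace X_EOW

theorem mis_S {V : Type} [Fintype V] {r : ℕ} {G : SimpleGraph V} {N : ℕ} {H : Finset V}
    {c : V → Fin r} {w : V} {T L : Finset V} {p q : V} (h : WS G N H c w T L p q) :
    mis G H c = 2 * L.card := by
  classical
  have kp : p ∈ H := h.hT h.hp
  have kL : ∀ b ∈ L, b ∈ H ∧ c b = c q := fun b hb => by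
    have := mem_cl.1 (h.hL hb)
    exact this
  have hpL : p ∉ L := fun hp => h.hpq (kL p hp).2
  have pw : p ≠ w := fun e => h.hw (e ▸ kp)
  have h1 : ((H ×ˢ H).filter (fun e => c e.1 ≠ c e.2 ∧ ¬ G.Adj e.1 e.2)) =
      (({p} : Finset V) ×ˢ L) ∪ (L ×ˢ ({p} : Finset V)) := by
    ext ⟨a, b⟩
    simp only [Finset.mem_filter, Finset.mem_product, Finset.mem_union, Finset.mem_singleton]
    constructor
    · rintro ⟨⟨ha, hb⟩, hc, hn⟩
      rw [h.adj] at hn
      by_contra hcon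
      apply hn
      exact Or.inl ⟨ha, hb, hc, fun e => hcon (Or.inl e), fun e => hcon (Or.inr ⟨e.2, e.1⟩)⟩
    · rintro (⟨rfl, hb⟩ | ⟨ha, rfl⟩)
      · refine ⟨⟨kp, (kL b hb).1⟩, fun e => h.hpq (e.trans (kL b hb).2), ?_⟩
        rw [h.adj]
        rintro (h1 | h1 | h1)
        · exact h1.2.2.2.1 ⟨rfl, hb⟩
        · exact pw h1.1
        · exact h.hw (h1.1 ▸ (kL b hb).1)
      · refine ⟨⟨(kL a ha).1, kp⟩, fun e => h.hpq (e.symm.trans (kL a ha).2), ?_⟩
        rw [h.adj]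
        rintro (h1 | h1 | h1)
        · exact h1.2.2.2.2 ⟨rfl, ha⟩
        · exact h.hw (h1.1 ▸ (kL a ha).1)
        · exact pw h1.1
  have h2 : mis G H c =
      ((H ×ˢ H).filter (fun e => c e.1 ≠ c e.2 ∧ ¬ G.Adj e.1 e.2)).card := by
    unfold mis
    congr
  have h3 : Disjoint (({p} : Finset V) ×ˢ L) (L ×ˢ ({p} : Finset V)) := by
    rw [Finset.disjoint_left]
    rintro ⟨a, b⟩ hab hab'
    rw [Finset.mem_product, Finset.mem_singleton] at hab hab'
    exact hpL (hab.1 ▸ hab'.1)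
  rw [h2, h1, Finset.card_union_of_disjoint h3, Finset.card_product, Finset.card_product,
    Finset.card_singleton]
  omega

end X_EOW

/-- EOW -/
theorem x_EOW : Stmt_EOW := by
  intro r hr n V _ G H c w
  refine ⟨fun A v1 v2 h => ⟨X_C0W.mis_D h, X_C0W.eo_D h⟩,
    fun u A B i0 h => ⟨X_C0W.mis_E h, X_C0W.eo_E h⟩,
    fun T L p q h => ⟨X_EOW.mis_S h, X_C0W.eo_S h⟩⟩

end Pool.Agent.Work.MP_5532fa_up
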