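import Pool.Agent.Work.MP_5532fa_x.Interface6

/-!
# MP_5532fa_co, sixth round: block EXB (existence of `WD` over balanced classes)
-/

open Finset

namespace Pool.Agent.Work.MP_5532fa_up

open MP5532fa (specRad qf pE)

namespace X_EXB

/-- a vector between two others with given sum -/
private theorem between {r : ℕ} : ∀ (d t : ℕ) (lo hi : Fin r → ℕ), (∀ i, lo i ≤ hi i) →
    ∑ i, lo i + d = t → t ≤ ∑ i, hi i →
    ∃ a : Fin r → ℕ, (∀ i, lo i ≤ a i ∧ a i ≤ hi i) ∧ ∑ i, a i = t := by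
  intro d
  induction d with
  | zero =>
    intro t lo hi h1 h2 _
    exact ⟨lo, fun i => ⟨le_rfl, h1 i⟩, by omega⟩
  | succ d ih =>
    intro t lo hi h1 h2 h3
    obtain ⟨k, hk⟩ : ∃ k, lo k < hi k := by
      by_contra h
      push Not at h
      have : ∑ i, hi i ≤ ∑ i, lo i := Finset.sum_le_sum fun i _ => h i
      omega
    have h4 : ∀ i, lo i + (if i = k then 1 else 0) ≤ hi i := by
      intro i
      by_cases hi' : i = k
      · rw [if_pos hi', hi']
        omega
      · rw [if_neg hi']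
        exact h1 i
    have h5 : ∑ i, (lo i + (if i = k then 1 else 0)) + d = t := by
      rw [Finset.sum_add_distrib, Finset.sum_ite_eq']
      simp only [Finset.mem_univ, if_true]
      omega
    obtain ⟨a, ha, hat⟩ := ih t (fun i => lo i + (if i = k then 1 else 0)) hi h4 h5 h3
    refine ⟨a, fun i => ⟨?_, (ha i).2⟩, hat⟩
    exact le_trans (Nat.le_add_right _ _) (ha i).1

private theorem arith {r N j : ℝ} (hr : 3 ≤ r) (hN : r ^ 2 ≤ N)
    (hj : j ≤ (1 - 2 / r) * ((1 - 1 / r) * N)) : r * j + r ≤ (r - 2) * N := by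
  have hr0 : 0 < r := by linarith
  have e : (1 - 2 / r) * ((1 - 1 / r) * N) = (r - 2) * (r - 1) * N / r ^ 2 := by
    field_simp
  rw [e, le_div_iff₀ (by positivity)] at hj
  have h1 : 0 ≤ (r - 3) * (N - r ^ 2) := mul_nonneg (by linarith) (by linarith)
  have h2 : r * (r * j + r) ≤ r * ((r - 2) * N) := by
    have h3 : j * r ^ 2 + r ^ 2 ≤ (r - 2) * (r - 1) * N + N := by linarith
    have h4 : (r - 2) * (r - 1) * N + N ≤ r * ((r - 2) * N) := by
      have h5 : r * ((r - 2) * N) - ((r - 2) * (r - 1) * N + N) = (r - 3) * N := by ring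
      have h6 : 0 ≤ (r - 3) * N := mul_nonneg (by linarith) (by nlinarith)
      linarith
    calc r * (r * j + r) = j * r ^ 2 + r ^ 2 := by ring
      _ ≤ (r - 2) * (r - 1) * N + N := h3
      _ ≤ r * ((r - 2) * N) := h4
  exact le_of_mul_le_mul_left h2 hr0

end X_EXB

theorem x_EXB : Stmt_EXB := by
  classical
  intro r hr
  refine ⟨r ^ 2, fun N hN j hj hjr => ?_⟩
  have h3 : (3 : ℝ) ≤ r := by exact_mod_cast hr
  obtain ⟨z, hz, hbal⟩ := bal_vec hr N
  obtain ⟨i0, hi0⟩ : ∃ i0 : Fin r, (i0 : ℕ) = 0 := ⟨⟨0, by omega⟩, rfl⟩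
  obtain ⟨i1, hi1⟩ : ∃ i1 : Fin r, (i1 : ℕ) = 1 := ⟨⟨1, by omega⟩, rfl⟩
  have h01 : i0 ≠ i1 := fun h => by
    have := congrArg Fin.val h
    omega
  -- sizes
  have hlo : ∀ i, N ≤ r * (z i + 1) := by
    intro i
    calc N = ∑ k, z k := hz.symm
      _ ≤ ∑ _k : Fin r, (z i + 1) := Finset.sum_le_sum fun k _ => hbal k i
      _ = r * (z i + 1) := by simp
  have hup : ∀ i, r * z i ≤ N + r := by
    intro i
    calc r * z i = ∑ _k : Fin r, z i := by simp
      _ ≤ ∑ k, (z k + 1) := Finset.sum_le_sum fun k _ => hbal i k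
      _ = N + r := by rw [Finset.sum_add_distrib, hz]; simp
  have hz1 : ∀ i, 1 ≤ z i := by
    intro i
    by_contra h
    have h0 : z i = 0 := by omega
    have := hlo i
    rw [h0] at this
    nlinarith
  -- the upper bounds
  obtain ⟨hi, hhi⟩ : ∃ hi : Fin r → ℕ, ∀ i, hi i = if i = i0 ∨ i = i1 then 1 else z i :=
    ⟨_, fun _ => rfl⟩
  have hsum : N + 2 ≤ ∑ i, hi i + z i0 + z i1 := by
    have h1 : ∀ i, z i + (if i = i0 then 1 else 0) + (if i = i1 then 1 else 0)
        ≤ hi i + (if i = i0 then z i0 else 0) + (if i = i1 then z i1 else 0) := by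
      intro i
      rw [hhi]
      by_cases h0 : i = i0
      · have h1' : ¬ i = i1 := fun h => h01 (h0.symm.trans h)
        rw [if_pos h0, if_neg h1', if_pos (Or.inl h0), if_pos h0, if_neg h1', h0]
        omega
      · by_cases h1' : i = i1
        · rw [if_neg h0, if_pos h1', if_pos (Or.inr h1'), if_neg h0, if_pos h1', h1']
          omega
        · rw [if_neg h0, if_neg h1', if_neg (fun h => h.elim h0 h1'), if_neg h0, if_neg h1']
    have h2 := Finset.sum_le_sum (s := Finset.univ) fun i (_ : i ∈ Finset.univ) => h1 i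
    rw [Finset.sum_add_distrib, Finset.sum_add_distrib, Finset.sum_add_distrib,
      Finset.sum_add_distrib, Finset.sum_ite_eq', Finset.sum_ite_eq', Finset.sum_ite_eq',
      Finset.sum_ite_eq', hz] at h2
    simp only [Finset.mem_univ, if_true] at h2
    omega
  have hj2 : j + 1 ≤ ∑ i, hi i := by
    have h1 : (r : ℝ) * j + r ≤ ((r : ℝ) - 2) * N := by
      apply X_EXB.arith h3 (by exact_mod_cast hN)
      have : al r = 1 - 1 / (r : ℝ) := rfl
      rw [← this]
      exact hjr
    have h2 : r * j + r + 2 * N ≤ r * N := by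
      have : (r : ℝ) * j + r + 2 * N ≤ r * N := by linarith
      exact_mod_cast this
    have h4 := hup i0
    have h5 := hup i1
    by_contra h
    have h6 : N + 2 ≤ j + z i0 + z i1 := by omega
    have h7 : r * (N + 2) ≤ r * (j + z i0 + z i1) := Nat.mul_le_mul_left r h6
    have h8 : r * (j + z i0 + z i1) = r * j + r * z i0 + r * z i1 := by ring
    have h9 : r * (N + 2) = r * N + 2 * r := by ring
    omega
  obtain ⟨a, ha, hasum⟩ := X_EXB.between (j + 1 - r) (j + 1) (fun _ => 1) hi (by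
    intro i
    rw [hhi]
    split_ifs
    · exact le_rfl
    · exact hz1 i) (by simp; omega) hj2
  have haz : ∀ i, a i ≤ z i := by
    intro i
    have h1 := (ha i).2
    have h2 := hz1 i
    rw [hhi] at h1
    split_ifs at h1 <;> omega
  have ha0 : a i0 = 1 := by
    have h1 := (ha i0).2
    have h2 := (ha i0).1
    rw [hhi, if_pos (Or.inl rfl)] at h1
    omega
  have ha1 : a i1 = 1 := by
    have h1 := (ha i1).2
    have h2 := (ha i1).1
    rw [hhi, if_pos (Or.inr rfl)] at h1
    omega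
  obtain ⟨H, c, w, u, A, hwu, hw, hu, hA, hH, hcH, hcA⟩ :=
    pEMB r N z a (Fin (N + 2)) (by omega) hz haz (by simp)
  have hA0 : (cl A c i0).card = 1 := by rw [hcA, ha0]
  have hA1 : (cl A c i1).card = 1 := by rw [hcA, ha1]
  obtain ⟨v1, hv1⟩ := Finset.card_eq_one.mp hA0
  obtain ⟨v2, hv2⟩ := Finset.card_eq_one.mp hA1
  have hm1 : v1 ∈ cl A c i0 := by
    rw [hv1]
    exact mem_singleton_self _
  have hm2 : v2 ∈ cl A c i1 := by
    rw [hv2]
    exact mem_singleton_self _
  have hc1 : c v1 = i0 := (mem_cl.1 hm1).2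
  have hc2 : c v2 = i1 := (mem_cl.1 hm2).2
  refine ⟨gD H c w A v1 v2, H, c, w, A, v1, v2, gD_WD hH hw hA ?_ ?_ ?_ ?_, ?_, ?_⟩
  · rw [hc1, hc2]
    exact h01
  · rw [hc1]
    exact hv1
  · rw [hc2]
    exact hv2
  · intro i
    rw [← Finset.card_pos, hcA]
    exact (ha i).1
  · rw [← sum_card_cl A c, ← hasum]
    exact Finset.sum_congr rfl fun i _ => hcA i
  · intro i k
    rw [hcH, hcH]
    exact hbal i k

end Pool.Agent.Work.MP_5532fa_up
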