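import Pool.Agent.Work.MP_5532fa_x.Interface2

/-!
# Block EXPG (helper36): expansion around the mean
-/

open Finset

namespace Pool.Agent.Work.MP_5532fa_up

namespace EXPG_X

/-- product of four factors near `s` -/
lemma prod4 {s σ a b c d : ℝ} (hs : 0 ≤ s) (h0 : 0 ≤ σ) (hσ : σ ≤ s) (ha : |a| ≤ σ) (hb : |b| ≤ σ)
    (hc : |c| ≤ σ) (hd : |d| ≤ σ) :
    |(s + a) * (s + b) * (s + c) * (s + d) - s ^ 4| ≤ 15 * s ^ 3 * σ := by
  have key : (s + a) * (s + b) * (s + c) * (s + d) - s ^ 4 =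
      a * ((s + b) * (s + c) * (s + d)) + s * b * ((s + c) * (s + d)) + s ^ 2 * c * (s + d) +
        s ^ 3 * d := by ring
  have h2 : ∀ x : ℝ, |x| ≤ σ → |s + x| ≤ 2 * s := by
    intro x hx
    have := abs_le.mp hx
    rw [abs_le]
    constructor <;> linarith
  have e1 : |a * ((s + b) * (s + c) * (s + d))| ≤ σ * (2 * s * (2 * s) * (2 * s)) := by
    rw [abs_mul, abs_mul, abs_mul]
    gcongr
    · exact h2 b hb
    · exact h2 c hc
    · exact h2 d hd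
  have e2 : |s * b * ((s + c) * (s + d))| ≤ s * σ * (2 * s * (2 * s)) := by
    rw [abs_mul, abs_mul, abs_mul, abs_of_nonneg hs]
    gcongr
    · exact h2 c hc
    · exact h2 d hd
  have e3 : |s ^ 2 * c * (s + d)| ≤ s ^ 2 * σ * (2 * s) := by
    rw [abs_mul, abs_mul, abs_of_nonneg (pow_nonneg hs 2)]
    gcongr
    exact h2 d hd
  have e4 : |s ^ 3 * d| ≤ s ^ 3 * σ := by
    rw [abs_mul, abs_of_nonneg (pow_nonneg hs 3)]
    gcongr
  rw [key]
  calc |a * ((s + b) * (s + c) * (s + d)) + s * b * ((s + c) * (s + d)) + s ^ 2 * c * (s + d) +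
        s ^ 3 * d|
      ≤ |a * ((s + b) * (s + c) * (s + d))| + |s * b * ((s + c) * (s + d))| +
        |s ^ 2 * c * (s + d)| + |s ^ 3 * d| := by
        refine (abs_add_le _ _).trans ?_
        gcongr
        refine (abs_add_le _ _).trans ?_
        gcongr
        exact abs_add_le _ _
    _ ≤ σ * (2 * s * (2 * s) * (2 * s)) + s * σ * (2 * s * (2 * s)) + s ^ 2 * σ * (2 * s) +
        s ^ 3 * σ := by gcongr
    _ = 15 * s ^ 3 * σ := by ring

/-- the main part of `gg` -/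
lemma P1 {N lam s α C σ a b c d : ℝ} (hN : 0 < N) (hlam : N / 2 ≤ lam) (hlam2 : lam ≤ 2 * N)
    (hs : N / 2 ≤ s) (hs2 : s ≤ 2 * N) (hα : 2 / 3 ≤ α) (hC : 0 ≤ C)
    (hd' : |α * s - lam| ≤ 2 * C) (h0 : 0 ≤ σ) (hσ : σ ≤ s) (ha : |a| ≤ σ) (hb : |b| ≤ σ)
    (hc : |c| ≤ σ) (hd : |d| ≤ σ) (hA : N / 2 ≤ s + a) (hB : N / 2 ≤ s + b) (hA' : N / 2 ≤ s + c)
    (hB' : N / 2 ≤ s + d) :
    s ^ 4 / lam * (2 / ((s + a) * (s + b)) - 2 / ((s + c) * (s + d))) + 2 / α * (a + b - c - d) ≤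
      (12288 * C * σ + 94208 * σ ^ 2) / N := by
  have hlam0 : 0 < lam := by linarith
  have hs0 : 0 < s := by linarith
  have hα0 : 0 < α := by linarith
  have hA0 : 0 < s + a := by linarith
  have hB0 : 0 < s + b := by linarith
  have hA0' : 0 < s + c := by linarith
  have hB0' : 0 < s + d := by linarith
  set PP : ℝ := (s + a) * (s + b) * (s + c) * (s + d) with hPP
  have hPP0 : 0 < PP := by positivity
  have hPP1 : N ^ 4 / 16 ≤ PP := by
    calc N ^ 4 / 16 = (N / 2) * (N / 2) * (N / 2) * (N / 2) := by ring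
      _ ≤ (s + a) * (s + b) * (s + c) * (s + d) := by gcongr
  have key : s ^ 4 / lam * (2 / ((s + a) * (s + b)) - 2 / ((s + c) * (s + d))) +
      2 / α * (a + b - c - d) =
      (2 * (a + b - c - d) * (lam * PP - α * s ^ 5) / α + 2 * s ^ 4 * (c * d - a * b)) /
        (lam * PP) := by
    rw [hPP]
    field_simp
    ring
  have hT : |a + b - c - d| ≤ 4 * σ := by
    have := abs_le.mp ha
    have := abs_le.mp hb
    have := abs_le.mp hc
    have := abs_le.mp hd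
    rw [abs_le]
    constructor <;> linarith
  have h1 : |lam * PP - α * s ^ 5| ≤ 32 * C * N ^ 4 + 240 * N ^ 4 * σ := by
    have e : lam * PP - α * s ^ 5 = lam * (PP - s ^ 4) - (α * s - lam) * s ^ 4 := by ring
    rw [e]
    have e1 : |lam * (PP - s ^ 4)| ≤ 2 * N * (15 * (2 * N) ^ 3 * σ) := by
      rw [abs_mul, abs_of_pos hlam0]
      gcongr
      refine (prod4 hs0.le h0 hσ ha hb hc hd).trans ?_
      gcongr
    have e2 : |(α * s - lam) * s ^ 4| ≤ 2 * C * (2 * N) ^ 4 := by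
      rw [abs_mul, abs_of_nonneg (pow_nonneg hs0.le 4)]
      gcongr
    calc |lam * (PP - s ^ 4) - (α * s - lam) * s ^ 4|
        ≤ |lam * (PP - s ^ 4)| + |(α * s - lam) * s ^ 4| := abs_sub _ _
      _ ≤ 2 * N * (15 * (2 * N) ^ 3 * σ) + 2 * C * (2 * N) ^ 4 := by gcongr
      _ = 32 * C * N ^ 4 + 240 * N ^ 4 * σ := by ring
  have h2 : 2 * (a + b - c - d) * (lam * PP - α * s ^ 5) / α ≤
      12 * σ * (32 * C * N ^ 4 + 240 * N ^ 4 * σ) := by
    rw [div_le_iff₀ hα0]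
    have e1 : 2 * (a + b - c - d) * (lam * PP - α * s ^ 5) ≤
        2 * (4 * σ) * (32 * C * N ^ 4 + 240 * N ^ 4 * σ) := by
      calc 2 * (a + b - c - d) * (lam * PP - α * s ^ 5)
          ≤ |2 * (a + b - c - d) * (lam * PP - α * s ^ 5)| := le_abs_self _
        _ = 2 * |a + b - c - d| * |lam * PP - α * s ^ 5| := by
            rw [abs_mul, abs_mul, abs_two]
        _ ≤ _ := by gcongr
    refine e1.trans ?_
    have e2 : 0 ≤ σ * (32 * C * N ^ 4 + 240 * N ^ 4 * σ) := by positivity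
    nlinarith
  have h3 : 2 * s ^ 4 * (c * d - a * b) ≤ 64 * N ^ 4 * σ ^ 2 := by
    have e1 : c * d - a * b ≤ 2 * σ ^ 2 := by
      have f1 : |c * d| ≤ σ * σ := by rw [abs_mul]; gcongr
      have f2 : |a * b| ≤ σ * σ := by rw [abs_mul]; gcongr
      have := abs_le.mp f1
      have := abs_le.mp f2
      nlinarith
    calc 2 * s ^ 4 * (c * d - a * b) ≤ 2 * s ^ 4 * (2 * σ ^ 2) := by gcongr
      _ ≤ 2 * (2 * N) ^ 4 * (2 * σ ^ 2) := by gcongr
      _ = 64 * N ^ 4 * σ ^ 2 := by ring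
  rw [key, div_le_div_iff₀ (mul_pos hlam0 hPP0) hN]
  have h4 : N ^ 5 / 32 ≤ lam * PP := by
    calc N ^ 5 / 32 = N / 2 * (N ^ 4 / 16) := by ring
      _ ≤ lam * PP := by gcongr
  have h5 : 0 ≤ 12288 * C * σ + 94208 * σ ^ 2 := by positivity
  calc (2 * (a + b - c - d) * (lam * PP - α * s ^ 5) / α + 2 * s ^ 4 * (c * d - a * b)) * N
      ≤ (12 * σ * (32 * C * N ^ 4 + 240 * N ^ 4 * σ) + 64 * N ^ 4 * σ ^ 2) * N := by
        gcongr
    _ = (12288 * C * σ + 94208 * σ ^ 2) * (N ^ 5 / 32) := by ring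
    _ ≤ (12288 * C * σ + 94208 * σ ^ 2) * (lam * PP) := by gcongr

/-- difference of two inverse squares -/
lemma P2a {N lam s σ a c : ℝ} (hN : 0 < N) (hlam : N / 2 ≤ lam)
    (hs : N / 2 ≤ s) (hs2 : s ≤ 2 * N) (h0 : 0 ≤ σ) (hσ : σ ≤ s) (ha : |a| ≤ σ)
    (hc : |c| ≤ σ) (hA : N / 2 ≤ s + a) (hA' : N / 2 ≤ s + c) :
    s ^ 4 / lam ^ 2 * (1 / (s + c) ^ 2 - 1 / (s + a) ^ 2) ≤ 16384 * σ / N := by
  have hlam0 : 0 < lam := by linarith
  have hs0 : 0 < s := by linarith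
  have hA0 : 0 < s + a := by linarith
  have hA0' : 0 < s + c := by linarith
  have key : s ^ 4 / lam ^ 2 * (1 / (s + c) ^ 2 - 1 / (s + a) ^ 2) =
      s ^ 4 * ((a - c) * (2 * s + a + c)) / (lam ^ 2 * ((s + c) ^ 2 * (s + a) ^ 2)) := by
    field_simp
    ring
  have ha' := abs_le.mp ha
  have hc' := abs_le.mp hc
  have h1 : (a - c) * (2 * s + a + c) ≤ 2 * σ * (4 * (2 * N)) := by
    calc (a - c) * (2 * s + a + c) ≤ 2 * σ * (2 * s + a + c) := by
          apply mul_le_mul_of_nonneg_right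
          · linarith
          · linarith
      _ ≤ 2 * σ * (4 * (2 * N)) := by
          apply mul_le_mul_of_nonneg_left
          · linarith
          · linarith
  have h2 : s ^ 4 * ((a - c) * (2 * s + a + c)) ≤ (2 * N) ^ 4 * (2 * σ * (4 * (2 * N))) := by
    calc s ^ 4 * ((a - c) * (2 * s + a + c)) ≤ s ^ 4 * (2 * σ * (4 * (2 * N))) := by gcongr
      _ ≤ (2 * N) ^ 4 * (2 * σ * (4 * (2 * N))) := by gcongr
  have h3 : N ^ 6 / 64 ≤ lam ^ 2 * ((s + c) ^ 2 * (s + a) ^ 2) := by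
    calc N ^ 6 / 64 = (N / 2) ^ 2 * ((N / 2) ^ 2 * (N / 2) ^ 2) := by ring
      _ ≤ lam ^ 2 * ((s + c) ^ 2 * (s + a) ^ 2) := by gcongr
  rw [key, div_le_div_iff₀ (by positivity) hN]
  calc s ^ 4 * ((a - c) * (2 * s + a + c)) * N ≤ (2 * N) ^ 4 * (2 * σ * (4 * (2 * N))) * N := by
        gcongr
    _ = 16384 * σ * (N ^ 6 / 64) := by ring
    _ ≤ 16384 * σ * (lam ^ 2 * ((s + c) ^ 2 * (s + a) ^ 2)) := by gcongr

/-- one term of the expansion -/
lemma term {s d e : ℝ} (hs : 0 < s) (hd : 0 < s + d) (he : 0 < s + e) :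
    s ^ 4 / (s + e) - s ^ 4 / (s + d) = s ^ 2 * (d - e) - s * (d ^ 2 - e ^ 2) + (d ^ 3 - e ^ 3) -
      (d ^ 4 - e ^ 4) / s + (d ^ 5 / (s * (s + d)) - e ^ 5 / (s * (s + e))) := by
  field_simp
  ring

/-- the remainder -/
lemma rem {N s σ d : ℝ} (hN : 0 < N) (hs : N / 2 ≤ s) (h0 : 0 ≤ σ) (hd : |d| ≤ σ)
    (hsd : N / 2 ≤ s + d) : |d ^ 5 / (s * (s + d))| ≤ 4 * σ ^ 3 / N ^ 2 * d ^ 2 := by
  have hs0 : 0 < s := by linarith
  have hsd0 : 0 < s + d := by linarith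
  have h1 : N ^ 2 / 4 ≤ s * (s + d) := by
    calc N ^ 2 / 4 = N / 2 * (N / 2) := by ring
      _ ≤ s * (s + d) := by gcongr
  rw [abs_div, abs_of_pos (mul_pos hs0 hsd0), div_mul_eq_mul_div, div_le_div_iff₀ (by positivity)
    (by positivity)]
  have h2 : |d ^ 5| ≤ σ ^ 3 * d ^ 2 := by
    have e : d ^ 5 = d ^ 3 * d ^ 2 := by ring
    rw [e, abs_mul, abs_pow, abs_of_nonneg (sq_nonneg d)]
    gcongr
  calc |d ^ 5| * N ^ 2 ≤ σ ^ 3 * d ^ 2 * N ^ 2 := by gcongr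
    _ = 4 * σ ^ 3 * d ^ 2 * (N ^ 2 / 4) := by ring
    _ ≤ 4 * σ ^ 3 * d ^ 2 * (s * (s + d)) := by gcongr

/-- splitting of the sum -/
lemma sumform {r : ℕ} (u v u2 v2 u3 v3 u4 v4 e f : Fin r → ℝ) (s : ℝ) :
    ∑ l, (s ^ 2 * (u l - v l) - s * (u2 l - v2 l) + (u3 l - v3 l) - (u4 l - v4 l) / s +
      (e l - f l)) = s ^ 2 * (∑ l, u l - ∑ l, v l) - s * (∑ l, u2 l - ∑ l, v2 l) +
      (∑ l, u3 l - ∑ l, v3 l) - (∑ l, u4 l - ∑ l, v4 l) / s + (∑ l, e l - ∑ l, f l) := by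
  simp only [Finset.sum_add_distrib, Finset.sum_sub_distrib, ← Finset.mul_sum, ← Finset.sum_div]

end EXPG_X

open EXPG_X in
theorem x_EXPG : Stmt_EXPG := by
  intro r C hr hC
  refine ⟨200000 * C, ⌈100 * C⌉₊, by linarith, ?_⟩
  intro n hn y z i k i' k' lam σ hlam hy hz h0 hyσ hzσ hσ H
  have hr' : (3 : ℝ) ≤ r := by exact_mod_cast hr
  have hr0 : (0 : ℝ) < r := by linarith
  set N : ℝ := (n : ℝ) with hNdef
  have hNC : 100 * C ≤ N := (Nat.le_ceil _).trans (Nat.cast_le.mpr hn)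
  have hN : 0 < N := by linarith
  have hN1 : 1 ≤ N := by linarith
  set α : ℝ := al r with hα
  have hαr : α = 1 - 1 / r := rfl
  have hr3 : 1 / (r : ℝ) ≤ 1 / 3 := one_div_le_one_div_of_le (by norm_num) hr'
  have hr4 : 0 < 1 / (r : ℝ) := by positivity
  have hα1 : 2 / 3 ≤ α := by rw [hαr]; linarith
  have hα2 : α ≤ 1 := by rw [hαr]; linarith
  set s : ℝ := lam + N / r with hs
  have hl := abs_le.mp hlam
  have hsN : |s - N| ≤ C := by
    have e : s - N = lam - α * N := by rw [hs, hαr]; ring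
    rw [e]; exact hlam
  have hsN' := abs_le.mp hsN
  have hs1 : N / 2 ≤ s := by linarith
  have hs2 : s ≤ 2 * N := by linarith
  have hlam1 : N / 2 ≤ lam := by nlinarith
  have hlam2 : lam ≤ 2 * N := by nlinarith
  have hlam0 : 0 < lam := by linarith
  have hs0 : 0 < s := by linarith
  have hαs : |α * s - lam| ≤ 2 * C := by
    have e : α * s - lam = α * (s - N) - (lam - α * N) := by ring
    rw [e]
    calc |α * (s - N) - (lam - α * N)| ≤ |α * (s - N)| + |lam - α * N| := abs_sub _ _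
      _ ≤ 1 * C + C := by
        gcongr
        rw [abs_mul, abs_of_nonneg (by linarith : (0 : ℝ) ≤ α)]
        gcongr
      _ = 2 * C := by ring
  have hσN : σ ≤ N / 10 := by
    refine abs_le_of_sq_le_sq' ?_ (by positivity) |>.2
    calc σ ^ 2 ≤ C * N := hσ
      _ ≤ (N / 100) * N := by gcongr; linarith
      _ = (N / 10) ^ 2 := by ring
  have hσs : σ ≤ s := by linarith
  -- deviations
  have dev : ∀ (w : Fin r → ℝ), ∑ l, (w l - N / r) ^ 2 = σ ^ 2 → ∀ l, |w l - N / r| ≤ σ := by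
    intro w hw l
    apply abs_le_of_sq_le_sq _ h0
    rw [← hw]
    exact Finset.single_le_sum (f := fun l => (w l - N / r) ^ 2) (fun l _ => sq_nonneg _)
      (Finset.mem_univ l)
  have dy := dev y hyσ
  have dz := dev z hzσ
  have pos : ∀ d : ℝ, |d| ≤ σ → N / 2 ≤ s + d := by
    intro d hd
    have := abs_le.mp hd
    linarith
  -- third moments
  have hsum : ∀ (w : Fin r → ℝ), ∑ l, w l = N → ∑ l, (w l - N / r) = 0 := by
    intro w hw
    rw [Finset.sum_sub_distrib, hw, Finset.sum_const, Finset.card_univ, Fintype.card_fin,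
      nsmul_eq_mul]
    field_simp
    ring
  have hm3 : ∀ (w : Fin r → ℝ), ∑ l, w l = N → ∑ l, (w l - N / r) ^ 2 = σ ^ 2 →
      ∑ l, (w l - N / r) ^ 3 = ∑ l, w l ^ 3 - 3 * (N / r) * σ ^ 2 - r * (N / r) ^ 3 := by
    intro w hw hw2
    have h0' := hsum w hw
    have e : ∀ l, w l ^ 3 = (w l - N / r) ^ 3 + 3 * (N / r) * (w l - N / r) ^ 2 +
        3 * (N / r) ^ 2 * (w l - N / r) + (N / r) ^ 3 := by intro l; ring
    have e2 : ∑ l, w l ^ 3 = ∑ l, (w l - N / r) ^ 3 + 3 * (N / r) * σ ^ 2 +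
        3 * (N / r) ^ 2 * 0 + r * (N / r) ^ 3 := by
      rw [← hw2, ← h0']
      simp_rw [Finset.mul_sum]
      rw [Finset.sum_congr rfl (fun l _ => e l), Finset.sum_add_distrib, Finset.sum_add_distrib,
        Finset.sum_add_distrib, Finset.sum_const, Finset.card_univ, Fintype.card_fin,
        nsmul_eq_mul]
    rw [e2]; ring
  have hD3 : ∑ l, (y l - N / r) ^ 3 - ∑ l, (z l - N / r) ^ 3 = ∑ l, y l ^ 3 - ∑ l, z l ^ 3 := by
    rw [hm3 y hy hyσ, hm3 z hz hzσ]; ring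
  -- the expansion
  have hL : ∑ l, (s ^ 4 / (s + (z l - N / r)) - s ^ 4 / (s + (y l - N / r))) =
      (∑ l, y l ^ 3 - ∑ l, z l ^ 3) -
        (∑ l, (y l - N / r) ^ 4 - ∑ l, (z l - N / r) ^ 4) / s +
        (∑ l, (y l - N / r) ^ 5 / (s * (s + (y l - N / r))) -
          ∑ l, (z l - N / r) ^ 5 / (s * (s + (z l - N / r)))) := by
    have h1 : ∀ l, s ^ 4 / (s + (z l - N / r)) - s ^ 4 / (s + (y l - N / r)) =
        s ^ 2 * ((y l - N / r) - (z l - N / r)) -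
        s * ((y l - N / r) ^ 2 - (z l - N / r) ^ 2) + ((y l - N / r) ^ 3 - (z l - N / r) ^ 3) -
        ((y l - N / r) ^ 4 - (z l - N / r) ^ 4) / s +
        ((y l - N / r) ^ 5 / (s * (s + (y l - N / r))) -
          (z l - N / r) ^ 5 / (s * (s + (z l - N / r)))) := fun l =>
      term hs0 (by linarith [pos _ (dy l)]) (by linarith [pos _ (dz l)])
    rw [Finset.sum_congr rfl (fun l _ => h1 l),
      sumform (fun l => y l - N / r) (fun l => z l - N / r) (fun l => (y l - N / r) ^ 2)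
        (fun l => (z l - N / r) ^ 2) (fun l => (y l - N / r) ^ 3) (fun l => (z l - N / r) ^ 3)
        (fun l => (y l - N / r) ^ 4) (fun l => (z l - N / r) ^ 4)
        (fun l => (y l - N / r) ^ 5 / (s * (s + (y l - N / r))))
        (fun l => (z l - N / r) ^ 5 / (s * (s + (z l - N / r)))) s,
      hsum y hy, hsum z hz, hyσ, hzσ, hD3]
    ring
  -- the remainder
  have hR : ∀ (w : Fin r → ℝ), ∑ l, (w l - N / r) ^ 2 = σ ^ 2 →
      |∑ l, (w l - N / r) ^ 5 / (s * (s + (w l - N / r)))| ≤ 4 * σ ^ 5 / N ^ 2 := by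
    intro w hw
    have dw := dev w hw
    calc |∑ l, (w l - N / r) ^ 5 / (s * (s + (w l - N / r)))|
        ≤ ∑ l, |(w l - N / r) ^ 5 / (s * (s + (w l - N / r)))| := Finset.abs_sum_le_sum_abs _ _
      _ ≤ ∑ l, 4 * σ ^ 3 / N ^ 2 * (w l - N / r) ^ 2 :=
          Finset.sum_le_sum fun l _ => rem hN hs1 h0 (dw l) (pos _ (dw l))
      _ = 4 * σ ^ 5 / N ^ 2 := by
          rw [← Finset.mul_sum, hw]
          ring
  have hRy := abs_le.mp (hR y hyσ)
  have hRz := abs_le.mp (hR z hzσ)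
  -- the hypothesis
  have hH : ∑ l, (s ^ 4 / (s + (z l - N / r)) - s ^ 4 / (s + (y l - N / r))) ≤
      s ^ 4 / lam * (gg r lam (y i) (y k) - gg r lam (z i') (z k') + C / N ^ 4) := by
    have e1 : ∑ l, (s ^ 4 / (s + (z l - N / r)) - s ^ 4 / (s + (y l - N / r))) =
        s ^ 4 / lam * (lam * ∑ l, (1 / (lam + z l) - 1 / (lam + y l))) := by
      rw [Finset.mul_sum, Finset.mul_sum]
      refine Finset.sum_congr rfl fun l _ => ?_
      have e2 : s + (z l - N / r) = lam + z l := by rw [hs]; ring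
      have e3 : s + (y l - N / r) = lam + y l := by rw [hs]; ring
      rw [e2, e3]
      field_simp
    rw [e1]
    gcongr
  have hgg : s ^ 4 / lam * (gg r lam (y i) (y k) - gg r lam (z i') (z k') + C / N ^ 4) =
      s ^ 4 / lam * (2 / ((s + (y i - N / r)) * (s + (y k - N / r))) -
        2 / ((s + (z i' - N / r)) * (s + (z k' - N / r)))) +
      s ^ 4 / lam ^ 2 * (1 / (s + (z i' - N / r)) ^ 2 - 1 / (s + (y i - N / r)) ^ 2) +
      s ^ 4 / lam ^ 2 * (1 / (s + (z k' - N / r)) ^ 2 - 1 / (s + (y k - N / r)) ^ 2) +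
      s ^ 4 / lam * (C / N ^ 4) := by
    have e : ∀ x : ℝ, s + (x - N / r) = lam + x := by intro x; rw [hs]; ring
    rw [e, e, e, e]
    unfold gg
    have hl2 : s ^ 4 / lam ^ 2 = s ^ 4 / lam / lam := by rw [sq, div_div]
    rw [hl2]
    ring
  have hP1 := P1 hN hlam1 hlam2 hs1 hs2 hα1 (by linarith : 0 ≤ C) hαs h0 hσs (dy i) (dy k)
    (dz i') (dz k') (pos _ (dy i)) (pos _ (dy k)) (pos _ (dz i')) (pos _ (dz k'))
  have hP2 := P2a hN hlam1 hs1 hs2 h0 hσs (dy i) (dz i') (pos _ (dy i)) (pos _ (dz i'))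
  have hP3 := P2a hN hlam1 hs1 hs2 h0 hσs (dy k) (dz k') (pos _ (dy k)) (pos _ (dz k'))
  have hP4 : s ^ 4 / lam * (C / N ^ 4) ≤ 32 * C / N := by
    rw [div_mul_div_comm, div_le_div_iff₀ (by positivity) hN]
    calc s ^ 4 * C * N ≤ (2 * N) ^ 4 * C * N := by gcongr
      _ = 32 * C * ((N / 2) * N ^ 4) := by ring
      _ ≤ 32 * C * (lam * N ^ 4) := by gcongr
  have hα3 : 2 / α = 2 * (r : ℝ) / ((r : ℝ) - 1) := by
    have h1 : (r : ℝ) - 1 ≠ 0 := by linarith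
    have h2 : α = ((r : ℝ) - 1) / r := by
      rw [hαr]
      field_simp
    rw [h2]
    field_simp
  have hΔ4 : (∑ l, (y l - N / r) ^ 4 - ∑ l, (z l - N / r) ^ 4) / s ≤
      2 / N * |∑ l, (y l - N / r) ^ 4 - ∑ l, (z l - N / r) ^ 4| := by
    rw [div_le_iff₀ hs0]
    calc (∑ l, (y l - N / r) ^ 4 - ∑ l, (z l - N / r) ^ 4)
        ≤ |∑ l, (y l - N / r) ^ 4 - ∑ l, (z l - N / r) ^ 4| := le_abs_self _
      _ = 2 / N * |∑ l, (y l - N / r) ^ 4 - ∑ l, (z l - N / r) ^ 4| * (N / 2) := by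
          generalize |∑ l, (y l - N / r) ^ 4 - ∑ l, (z l - N / r) ^ 4| = X
          field_simp
      _ ≤ _ := by gcongr
  rw [hα3] at hP1
  rw [hL, hgg] at hH
  have hfin : (∑ l, y l ^ 3 - ∑ l, z l ^ 3) +
      2 * (r : ℝ) / ((r : ℝ) - 1) * ((y i + y k) - (z i' + z k')) ≤
      2 / N * |∑ l, (y l - N / r) ^ 4 - ∑ l, (z l - N / r) ^ 4| + 8 * σ ^ 5 / N ^ 2 +
      ((12288 * C * σ + 94208 * σ ^ 2) / N + 16384 * σ / N + 16384 * σ / N + 32 * C / N) := by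
    have e8 : 8 * σ ^ 5 / N ^ 2 = 4 * σ ^ 5 / N ^ 2 + 4 * σ ^ 5 / N ^ 2 := by ring
    have e9 : 2 * (r : ℝ) / ((r : ℝ) - 1) * ((y i + y k) - (z i' + z k')) =
        2 * (r : ℝ) / ((r : ℝ) - 1) *
          (y i - N / r + (y k - N / r) - (z i' - N / r) - (z k' - N / r)) := by ring
    rw [e8, e9]
    linarith [hRy.1, hRy.2, hRz.1, hRz.2]
  refine hfin.trans ?_
  have g1 : 2 / N * |∑ l, (y l - N / r) ^ 4 - ∑ l, (z l - N / r) ^ 4| ≤
      200000 * C / N * |∑ l, (y l - N / r) ^ 4 - ∑ l, (z l - N / r) ^ 4| := by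
    gcongr
    linarith
  have g2 : 8 * σ ^ 5 / N ^ 2 ≤ 200000 * C * (σ ^ 5 / N ^ 2) := by
    rw [mul_div_assoc]
    gcongr
    linarith
  have g3 : (12288 * C * σ + 94208 * σ ^ 2) / N + 16384 * σ / N + 16384 * σ / N + 32 * C / N ≤
      200000 * C * ((σ + 1) ^ 2 / N) := by
    rw [← add_div, ← add_div, ← add_div, ← mul_div_assoc]
    gcongr
    nlinarith [mul_nonneg (by linarith : (0 : ℝ) ≤ C) h0,
      mul_nonneg (by linarith : (0 : ℝ) ≤ C - 1) (sq_nonneg σ),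
      mul_nonneg (by linarith : (0 : ℝ) ≤ C - 1) h0, sq_nonneg σ]
  rw [mul_add]
  linarith

end Pool.Agent.Work.MP_5532fa_up
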