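import Pool.Agent.Work.MP_5532fa_x.Interface2

/-!
# MP_5532fa_co, sixth round, theorem B: the block EXPR (expansion around the mean of the other
entries)
-/

open Finset

namespace Pool.Agent.Work.MP_5532fa_up

namespace X_EXPR

private lemma prod2 {u v δ : ℝ} (hu : |u - 1| ≤ δ) (hv : |v - 1| ≤ δ) :
    |u * v - 1| ≤ 2 * δ + δ ^ 2 := by
  have h0 : 0 ≤ δ := (abs_nonneg _).trans hu
  have h1 : u * v - 1 = (u - 1) * (v - 1) + (u - 1) + (v - 1) := by ring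
  have h2 : |(u - 1) * (v - 1)| ≤ δ * δ := by
    rw [abs_mul]
    exact mul_le_mul hu hv (abs_nonneg _) h0
  rw [h1]
  have h3 := abs_add_three ((u - 1) * (v - 1)) (u - 1) (v - 1)
  nlinarith

private lemma prod4 {a b c d ε : ℝ} (hε : ε ≤ 1 / 8) (ha : |a - 1| ≤ ε) (hb : |b - 1| ≤ ε)
    (hc : |c - 1| ≤ ε) (hd : |d - 1| ≤ ε) : |a * b * (c * d) - 1| ≤ 5 * ε := by
  have h0 : 0 ≤ ε := (abs_nonneg _).trans ha
  have h1 : |a * b - 1| ≤ 17 / 8 * ε := (prod2 ha hb).trans (by nlinarith)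
  have h2 : |c * d - 1| ≤ 17 / 8 * ε := (prod2 hc hd).trans (by nlinarith)
  exact (prod2 h1 h2).trans (by nlinarith)

/-- the ratio of two fourfold products close to one -/
private lemma ratio {x0 x1 x2 x3 x4 ε : ℝ} (hε : ε ≤ 1 / 8) (h0 : |x0 - 1| ≤ ε)
    (h1 : |x1 - 1| ≤ ε) (h2 : |x2 - 1| ≤ ε) (h3 : |x3 - 1| ≤ ε) (h4 : |x4 - 1| ≤ ε) :
    |x0 * x0 * (x0 * x0) / (x4 * x1 * (x2 * x3)) - 1| ≤ 27 * ε := by
  have hX := prod4 hε h0 h0 h0 h0
  have hW := prod4 hε h4 h1 h2 h3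
  have he : 0 ≤ ε := (abs_nonneg _).trans h0
  set X := x0 * x0 * (x0 * x0)
  set W := x4 * x1 * (x2 * x3)
  have hW1 : 3 / 8 ≤ W := by
    have := (abs_le.1 hW).1
    linarith
  have hW0 : 0 < W := by linarith
  have h5 : X / W - 1 = (X - W) / W := by field_simp
  rw [h5, abs_div, abs_of_pos hW0, div_le_iff₀ hW0]
  have h6 : |X - W| ≤ 10 * ε := by
    have h7 : X - W = (X - 1) - (W - 1) := by ring
    rw [h7]
    have := abs_sub (X - 1) (W - 1)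
    linarith
  nlinarith

/-- main term on the right -/
private lemma main_term {n s P Y Z lam a ε τ : ℝ} (hn : 0 < n) (hε : ε ≤ 1 / 8) (ha : 2 / 3 ≤ a)
    (hs : |s - n| ≤ ε * n) (hP : |P - n| ≤ ε * n) (hY : |Y - n| ≤ ε * n) (hZ : |Z - n| ≤ ε * n)
    (hl : |lam - a * n| ≤ ε * (a * n)) (hYZ : |Y - Z| ≤ 2 * τ) :
    s ^ 4 / lam * (2 / (P * Y) - 2 / (P * Z)) ≤ -2 * (Y - Z) / a + 164 * ε * τ := by
  have ha0 : 0 < a := by linarith
  have hlow : ∀ {t m : ℝ}, 0 < m → |t - m| ≤ ε * m → 0 < t ∧ |t / m - 1| ≤ ε := by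
    intro t m hm h
    have h1 := (abs_le.1 h).1
    refine ⟨by nlinarith, ?_⟩
    have h2 : t / m - 1 = (t - m) / m := by field_simp
    rw [h2, abs_div, abs_of_pos hm, div_le_iff₀ hm]
    exact h
  obtain ⟨hs0, hs1⟩ := hlow hn hs
  obtain ⟨hP0, hP1⟩ := hlow hn hP
  obtain ⟨hY0, hY1⟩ := hlow hn hY
  obtain ⟨hZ0, hZ1⟩ := hlow hn hZ
  have han : 0 < a * n := mul_pos ha0 hn
  obtain ⟨hl0, hl1⟩ := hlow han hl
  have hr := ratio hε hs1 hP1 hY1 hZ1 hl1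
  have he : 0 ≤ ε := (abs_nonneg _).trans hs1
  have hρ : s / n * (s / n) * (s / n * (s / n)) / (lam / (a * n) * (P / n) * (Y / n * (Z / n)))
      = a * (s ^ 4 / (lam * P * Y * Z)) := by
    field_simp
  rw [hρ] at hr
  have hr2 : |s ^ 4 / (lam * P * Y * Z) - 1 / a| ≤ 41 * ε := by
    have h1 : s ^ 4 / (lam * P * Y * Z) - 1 / a
        = (a * (s ^ 4 / (lam * P * Y * Z)) - 1) / a := by
      field_simp
    rw [h1, abs_div, abs_of_pos ha0, div_le_iff₀ ha0]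
    nlinarith
  have h2 : s ^ 4 / lam * (2 / (P * Y) - 2 / (P * Z))
      = -2 * (Y - Z) / a + -(2 * ((Y - Z) * (s ^ 4 / (lam * P * Y * Z) - 1 / a))) := by
    field_simp
    ring
  rw [h2]
  have h3 : |(Y - Z) * (s ^ 4 / (lam * P * Y * Z) - 1 / a)| ≤ 2 * τ * (41 * ε) := by
    rw [abs_mul]
    exact mul_le_mul hYZ hr2 (abs_nonneg _) ((abs_nonneg _).trans hYZ)
  have h4 := (abs_le.1 h3).1
  linarith

/-- second term on the right -/
private lemma snd_term {n s Y Z lam τ : ℝ} (hn : 0 < n)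
    (hs : 0 < s) (hs2 : s ≤ 9 / 8 * n) (hY : 7 / 8 * n ≤ Y) (hY2 : Y ≤ 9 / 8 * n)
    (hZ : 7 / 8 * n ≤ Z) (hZ2 : Z ≤ 9 / 8 * n)
    (hl : n / 2 ≤ lam) (hYZ : |Y - Z| ≤ 2 * τ) :
    s ^ 4 / lam * (-((1 / Y ^ 2 - 1 / Z ^ 2) / lam)) ≤ 50 * τ / n := by
  have hY0 : 0 < Y := by linarith
  have hZ0 : 0 < Z := by linarith
  have hl0 : 0 < lam := by linarith
  have h1 : s ^ 4 / lam * (-((1 / Y ^ 2 - 1 / Z ^ 2) / lam))
      = (Y - Z) * (s ^ 4 * (Y + Z) / (lam ^ 2 * Y ^ 2 * Z ^ 2)) := by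
    field_simp
    ring
  have h2 : s ^ 4 * (Y + Z) / (lam ^ 2 * Y ^ 2 * Z ^ 2) ≤ 25 / n := by
    have h3 : s ^ 4 * (Y + Z) ≤ (9 / 8 * n) ^ 4 * (9 / 4 * n) := by
      have : Y + Z ≤ 9 / 4 * n := by linarith
      gcongr
    have h4 : (n / 2) ^ 2 * (7 / 8 * n) ^ 2 * (7 / 8 * n) ^ 2 ≤ lam ^ 2 * Y ^ 2 * Z ^ 2 := by
      gcongr
    have h5 : s ^ 4 * (Y + Z) / (lam ^ 2 * Y ^ 2 * Z ^ 2)
        ≤ (9 / 8 * n) ^ 4 * (9 / 4 * n) / ((n / 2) ^ 2 * (7 / 8 * n) ^ 2 * (7 / 8 * n) ^ 2) := by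
      apply div_le_div₀ (by positivity) h3 (by positivity) h4
    refine h5.trans ?_
    have h6 : (9 / 8 * n) ^ 4 * (9 / 4 * n) / ((n / 2) ^ 2 * (7 / 8 * n) ^ 2 * (7 / 8 * n) ^ 2)
        = (9 / 8) ^ 4 * (9 / 4) / ((1 / 2) ^ 2 * (7 / 8) ^ 2 * (7 / 8) ^ 2) / n := by
      field_simp
    rw [h6]
    gcongr
    norm_num
  have h7 : 0 ≤ s ^ 4 * (Y + Z) / (lam ^ 2 * Y ^ 2 * Z ^ 2) := by positivity
  rw [h1]
  calc (Y - Z) * (s ^ 4 * (Y + Z) / (lam ^ 2 * Y ^ 2 * Z ^ 2))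
      ≤ |Y - Z| * (s ^ 4 * (Y + Z) / (lam ^ 2 * Y ^ 2 * Z ^ 2)) :=
        mul_le_mul_of_nonneg_right (le_abs_self _) h7
    _ ≤ 2 * τ * (25 / n) :=
        mul_le_mul hYZ h2 h7 ((abs_nonneg _).trans hYZ)
    _ = 50 * τ / n := by ring

/-- third term on the right -/
private lemma trd_term {n s lam C : ℝ} (hn : 0 < n) (hC : 0 ≤ C)
    (hs : 0 < s) (hs2 : s ≤ 9 / 8 * n) (hl : n / 2 ≤ lam) :
    s ^ 4 / lam * (C / n ^ 4) ≤ 4 * C / n := by
  have h1 : s ^ 4 / lam ≤ (9 / 8 * n) ^ 4 / (n / 2) := by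
    apply div_le_div₀ (by positivity) (by gcongr) (by positivity) hl
  calc s ^ 4 / lam * (C / n ^ 4) ≤ (9 / 8 * n) ^ 4 / (n / 2) * (C / n ^ 4) :=
        mul_le_mul_of_nonneg_right h1 (by positivity)
    _ = ((9 / 8) ^ 4 * 2) * (C / n) := by field_simp
    _ ≤ 4 * (C / n) := by
        have : 0 ≤ C / n := by positivity
        apply mul_le_mul_of_nonneg_right _ this
        norm_num
    _ = 4 * C / n := by ring

private lemma expand {s d : ℝ} (hs : 0 < s) (hd : 0 < s + d) :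
    1 / (s + d) = 1 / s - d / s ^ 2 + d ^ 2 / s ^ 3 - d ^ 3 / s ^ 4 + d ^ 4 / s ^ 5
      - d ^ 5 / (s ^ 5 * (s + d)) := by
  have h1 : s ≠ 0 := hs.ne'
  have h2 : s + d ≠ 0 := hd.ne'
  field_simp
  ring

private lemma err {s q d τ : ℝ} (hq : 0 < q) (hs : q ≤ s) (hd : q ≤ s + d) (hτ : |d| ≤ τ) :
    |d ^ 5 / (s * (s + d))| ≤ τ ^ 3 * d ^ 2 / q ^ 2 := by
  have h0 : 0 ≤ τ := (abs_nonneg _).trans hτ
  have hs0 : 0 < s := by linarith
  have hd0 : 0 < s + d := by linarith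
  rw [abs_div, abs_of_pos (mul_pos hs0 hd0)]
  have h1 : |d ^ 5| ≤ τ ^ 3 * d ^ 2 := by
    have : d ^ 5 = d ^ 3 * d ^ 2 := by ring
    rw [this, abs_mul, abs_pow, abs_of_nonneg (sq_nonneg d)]
    gcongr
  have h2 : q ^ 2 ≤ s * (s + d) := by
    rw [sq]
    exact mul_le_mul hs hd hq.le hs0.le
  exact div_le_div₀ (by positivity) h1 (by positivity) h2

/-- the sum over the other entries -/
private lemma sum_exp {l : ℕ} {Y Z : Fin l → ℝ} {s q τ : ℝ} (hq : 0 < q) (hs : q ≤ s)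
    (hτ : 0 ≤ τ) (hsτ : q ≤ s - τ) (hY0 : ∑ j, Y j = 0) (hZ0 : ∑ j, Z j = 0)
    (hY2 : ∑ j, Y j ^ 2 = τ ^ 2) (hZ2 : ∑ j, Z j ^ 2 = τ ^ 2) :
    (∑ j, Y j ^ 3 - ∑ j, Z j ^ 3) - |∑ j, Y j ^ 4 - ∑ j, Z j ^ 4| / q - 2 * τ ^ 5 / q ^ 2
      ≤ s ^ 4 * ∑ j, (1 / (s + Z j) - 1 / (s + Y j)) := by
  have hs0 : 0 < s := by linarith
  have hb : ∀ {f : Fin l → ℝ}, ∑ j, f j ^ 2 = τ ^ 2 → ∀ j, |f j| ≤ τ := by
    intro f hf j
    have h1 : f j ^ 2 ≤ τ ^ 2 := by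
      rw [← hf]
      exact Finset.single_le_sum (f := fun j => f j ^ 2) (fun i _ => sq_nonneg _)
        (Finset.mem_univ j)
    exact abs_le_of_sq_le_sq h1 hτ
  have hterm : ∀ j, s ^ 2 * (Y j - Z j) + s * (Z j ^ 2 - Y j ^ 2) + (Y j ^ 3 - Z j ^ 3)
      + (Z j ^ 4 - Y j ^ 4) / s - (τ ^ 3 * Z j ^ 2 / q ^ 2 + τ ^ 3 * Y j ^ 2 / q ^ 2)
      ≤ s ^ 4 * (1 / (s + Z j) - 1 / (s + Y j)) := by
    intro j
    have hz := hb hZ2 j
    have hy := hb hY2 j
    have hz1 := (abs_le.1 hz).1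
    have hy1 := (abs_le.1 hy).1
    have hz3 : q ≤ s + Z j := by linarith
    have hy3 : q ≤ s + Y j := by linarith
    have e1 := (abs_le.1 (err hq hs hz3 hz)).2
    have e2 := (abs_le.1 (err hq hs hy3 hy)).1
    have e3 : s ^ 4 * (1 / (s + Z j) - 1 / (s + Y j)) = s ^ 2 * (Y j - Z j)
        + s * (Z j ^ 2 - Y j ^ 2) + (Y j ^ 3 - Z j ^ 3) + (Z j ^ 4 - Y j ^ 4) / s
        - Z j ^ 5 / (s * (s + Z j)) + Y j ^ 5 / (s * (s + Y j)) := by
      have hz4 : 0 < s + Z j := by linarith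
      have hy4 : 0 < s + Y j := by linarith
      rw [expand hs0 hz4, expand hs0 hy4]
      have h1 : s ≠ 0 := hs0.ne'
      have h2 : s + Z j ≠ 0 := hz4.ne'
      have h3 : s + Y j ≠ 0 := hy4.ne'
      field_simp
      ring
    rw [e3]
    linarith
  have hsum := Finset.sum_le_sum (s := (Finset.univ : Finset (Fin l))) (fun j _ => hterm j)
  rw [← Finset.mul_sum] at hsum
  have hL : ∑ j, (s ^ 2 * (Y j - Z j) + s * (Z j ^ 2 - Y j ^ 2) + (Y j ^ 3 - Z j ^ 3)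
      + (Z j ^ 4 - Y j ^ 4) / s - (τ ^ 3 * Z j ^ 2 / q ^ 2 + τ ^ 3 * Y j ^ 2 / q ^ 2))
      = (∑ j, Y j ^ 3 - ∑ j, Z j ^ 3) - (∑ j, Y j ^ 4 - ∑ j, Z j ^ 4) / s
        - 2 * τ ^ 5 / q ^ 2 := by
    have k1 : ∑ j, s ^ 2 * (Y j - Z j) = 0 := by
      rw [← Finset.mul_sum, Finset.sum_sub_distrib, hY0, hZ0]; ring
    have k2 : ∑ j, s * (Z j ^ 2 - Y j ^ 2) = 0 := by
      rw [← Finset.mul_sum, Finset.sum_sub_distrib, hY2, hZ2]; ring
    have k3 : ∑ j, (Z j ^ 4 - Y j ^ 4) / s = - ((∑ j, Y j ^ 4 - ∑ j, Z j ^ 4) / s) := by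
      rw [← Finset.sum_div, Finset.sum_sub_distrib]; ring
    have k4 : ∑ j, τ ^ 3 * Z j ^ 2 / q ^ 2 = τ ^ 5 / q ^ 2 := by
      rw [← Finset.sum_div, ← Finset.mul_sum, hZ2]; ring
    have k5 : ∑ j, τ ^ 3 * Y j ^ 2 / q ^ 2 = τ ^ 5 / q ^ 2 := by
      rw [← Finset.sum_div, ← Finset.mul_sum, hY2]; ring
    rw [Finset.sum_sub_distrib, Finset.sum_add_distrib, Finset.sum_add_distrib,
      Finset.sum_add_distrib, Finset.sum_add_distrib, k1, k2, k3, k4, k5,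
      Finset.sum_sub_distrib]
    ring
  rw [hL] at hsum
  have h4 : (∑ j, Y j ^ 4 - ∑ j, Z j ^ 4) / s ≤ |∑ j, Y j ^ 4 - ∑ j, Z j ^ 4| / q := by
    calc (∑ j, Y j ^ 4 - ∑ j, Z j ^ 4) / s ≤ |∑ j, Y j ^ 4 - ∑ j, Z j ^ 4| / s := by
          gcongr
          exact le_abs_self _
      _ ≤ _ := by gcongr
  linarith

end X_EXPR

open X_EXPR in
/-- **EXPR** : expansion around the mean of the other entries -/
theorem x_EXPR : Stmt_EXPR := by
  intro l C hl hC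
  have hl2 : (2 : ℝ) ≤ l := by exact_mod_cast hl
  obtain ⟨n0, hn0⟩ := exists_nat_ge ((24 * C) ^ 2)
  refine ⟨550 * C + 10, n0 + 1, by linarith, ?_⟩
  intro n hn y z i0 k k' lam ν τ hlam hyz hk hk' hM hν hys hzs hτ hτC hY2 hZ2 hmain
  have hnn : (n0 : ℝ) + 1 ≤ n := by exact_mod_cast hn
  have hn24 : (24 * C) ^ 2 ≤ (n : ℝ) := by linarith
  have hn1 : (1 : ℝ) ≤ n := by
    have : (0 : ℝ) ≤ n0 := Nat.cast_nonneg _
    linarith
  have hnpos : (0 : ℝ) < n := by linarith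
  set m : ℝ := √(n : ℝ) with hm
  have hm2 : m ^ 2 = n := Real.sq_sqrt hnpos.le
  have hm0 : 0 ≤ m := Real.sqrt_nonneg _
  have hm24 : 24 * C ≤ m := by
    apply Real.le_sqrt_of_sq_le hn24
  have hm1 : 1 ≤ m := by linarith
  have hmn : m ≤ n := by
    have h1 : 1 * m ≤ m * m := mul_le_mul_of_nonneg_right hm1 hm0
    linarith [sq m]
  have hCm : 24 * (C * m) ≤ n := by
    have h1 : 24 * C * m ≤ m * m := mul_le_mul_of_nonneg_right hm24 hm0
    linarith [sq m]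
  set a : ℝ := al (l + 1) with ha
  have hLp : (0 : ℝ) < (l : ℝ) + 1 := by linarith
  have haval : a = (l : ℝ) / ((l : ℝ) + 1) := by
    rw [ha]
    unfold al
    push_cast
    field_simp
    ring
  have ha23 : 2 / 3 ≤ a := al_ge (by omega)
  have ha1 : a < 1 := al_lt (by omega)
  have han : a * n = n - n / ((l : ℝ) + 1) := by
    rw [haval]
    field_simp
    ring
  have hνd : |ν - n / ((l : ℝ) + 1)| ≤ C * m := by
    have h1 : (l : ℝ) * (ν - n / ((l : ℝ) + 1)) = -(z i0 - n / ((l : ℝ) + 1)) := by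
      have : (l : ℝ) * (n / ((l : ℝ) + 1)) = n - n / ((l : ℝ) + 1) := by
        field_simp
        ring
      linarith
    have h2 : (l : ℝ) * |ν - n / ((l : ℝ) + 1)| ≤ C * m := by
      have h3 : |(l : ℝ) * (ν - n / ((l : ℝ) + 1))| = (l : ℝ) * |ν - n / ((l : ℝ) + 1)| := by
        rw [abs_mul, abs_of_nonneg (by linarith : (0 : ℝ) ≤ l)]
      rw [← h3, h1, abs_neg]
      exact hM
    have h4 : 1 * |ν - n / ((l : ℝ) + 1)| ≤ (l : ℝ) * |ν - n / ((l : ℝ) + 1)| :=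
      mul_le_mul_of_nonneg_right (by linarith) (abs_nonneg _)
    linarith
  have hlam1 := abs_le.1 hlam
  have hνd1 := abs_le.1 hνd
  have hM1 := abs_le.1 hM
  have hCC : C ≤ C * m := le_mul_of_one_le_right (by linarith) hm1
  have hs1 : |lam + ν - n| ≤ 2 * (C * m) := by
    rw [abs_le]; constructor <;> linarith
  have hP1 : |lam + z i0 - n| ≤ 2 * (C * m) := by
    rw [abs_le]; constructor <;> linarith
  -- deviations
  have hbnd : ∀ {f : Fin (l + 1) → ℝ}, ∑ j : Fin l, (f (i0.succAbove j) - ν) ^ 2 = τ ^ 2 →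
      ∀ i, i ≠ i0 → |f i - ν| ≤ τ := by
    intro f hf i hi
    obtain ⟨j, rfl⟩ := Fin.exists_succAbove_eq hi
    have h1 : (f (i0.succAbove j) - ν) ^ 2 ≤ τ ^ 2 := by
      rw [← hf]
      exact Finset.single_le_sum (f := fun j => (f (i0.succAbove j) - ν) ^ 2)
        (fun i _ => sq_nonneg _) (Finset.mem_univ j)
    exact abs_le_of_sq_le_sq h1 hτ
  have hyk := hbnd hY2 k hk
  have hzk := hbnd hZ2 k' hk'
  have hyk1 := abs_le.1 hyk
  have hzk1 := abs_le.1 hzk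
  have hs2 := abs_le.1 hs1
  have hYa : |lam + y k - n| ≤ 3 * (C * m) := by
    rw [abs_le]; constructor <;> linarith
  have hZa : |lam + z k' - n| ≤ 3 * (C * m) := by
    rw [abs_le]; constructor <;> linarith
  have hYZ : |(lam + y k) - (lam + z k')| ≤ 2 * τ := by
    rw [abs_le]; constructor <;> linarith
  have hCm0 : 0 ≤ C * m := mul_nonneg (by linarith) hm0
  set ε : ℝ := 3 * C / m with hε
  have hεm : ε * n = 3 * (C * m) := by
    rw [hε, ← hm2]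
    have : m ≠ 0 := by linarith
    field_simp
  have hε8 : ε ≤ 1 / 8 := by
    rw [hε, div_le_iff₀ (by linarith)]
    linarith
  have hsε : |lam + ν - n| ≤ ε * n := by rw [hεm]; linarith
  have hPε : |lam + z i0 - n| ≤ ε * n := by rw [hεm]; linarith
  have hYε : |lam + y k - n| ≤ ε * n := by rw [hεm]; exact hYa
  have hZε : |lam + z k' - n| ≤ ε * n := by rw [hεm]; exact hZa
  have hlε : |lam - a * n| ≤ ε * (a * n) := by
    have h1 : ε * (a * n) = a * (3 * (C * m)) := by rw [← hεm]; ring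
    rw [h1]
    have h2 : 2 / 3 * (3 * (C * m)) ≤ a * (3 * (C * m)) :=
      mul_le_mul_of_nonneg_right ha23 (by linarith)
    have h3 : C ≤ 2 * (C * m) := by linarith
    linarith
  have hs3 := abs_le.1 hsε
  have hY3 := abs_le.1 hYε
  have hZ3 := abs_le.1 hZε
  have hl3 := abs_le.1 hlε
  have hε0 : 0 ≤ ε := by positivity
  have hεn : ε * n ≤ n / 8 := by
    have := mul_le_mul_of_nonneg_right hε8 hnpos.le
    linarith
  have hs0 : 0 < lam + ν := by linarith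
  have hln : (n : ℝ) / 2 ≤ lam := by
    have : ε * (a * n) ≤ n / 8 := by
      have : ε * (a * n) ≤ ε * n := by
        have : a * n ≤ n := mul_le_of_le_one_left hnpos.le ha1.le
        exact mul_le_mul_of_nonneg_left this hε0
      linarith
    have h2 := mul_le_mul_of_nonneg_right ha23 hnpos.le
    linarith
  have hl0 : 0 < lam := by linarith
  -- the left side
  have hsplit : ∀ f : Fin (l + 1) → ℝ, ∑ i, f i = f i0 + ∑ j : Fin l, f (i0.succAbove j) :=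
    fun f => Fin.sum_univ_succAbove f i0
  have hyj : ∑ j : Fin l, (y (i0.succAbove j) - ν) = 0 := by
    have h1 := hsplit y
    rw [hys, hyz] at h1
    rw [Finset.sum_sub_distrib, Finset.sum_const, Finset.card_univ, Fintype.card_fin,
      nsmul_eq_mul]
    linarith
  have hzj : ∑ j : Fin l, (z (i0.succAbove j) - ν) = 0 := by
    have h1 := hsplit z
    rw [hzs] at h1
    rw [Finset.sum_sub_distrib, Finset.sum_const, Finset.card_univ, Fintype.card_fin,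
      nsmul_eq_mul]
    linarith
  have hleft : ∑ i, (1 / (lam + z i) - 1 / (lam + y i)) =
      ∑ j : Fin l, (1 / ((lam + ν) + (z (i0.succAbove j) - ν))
        - 1 / ((lam + ν) + (y (i0.succAbove j) - ν))) := by
    rw [hsplit (fun i => 1 / (lam + z i) - 1 / (lam + y i)), hyz, sub_self, zero_add]
    refine Finset.sum_congr rfl fun j _ => ?_
    have e1 : (lam + ν) + (z (i0.succAbove j) - ν) = lam + z (i0.succAbove j) := by ring
    have e2 : (lam + ν) + (y (i0.succAbove j) - ν) = lam + y (i0.succAbove j) := by ring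
    rw [e1, e2]
  have hq : (0 : ℝ) < 3 / 4 * n := by linarith
  have hτn : τ ≤ n / 24 := by linarith
  have hexp := sum_exp (Y := fun j => y (i0.succAbove j) - ν)
    (Z := fun j => z (i0.succAbove j) - ν) (s := lam + ν) (q := 3 / 4 * n) (τ := τ) hq
    (by linarith) hτ (by linarith) hyj hzj hY2 hZ2
  rw [← hleft] at hexp
  -- cubes
  have hcube : ∑ i, y i ^ 3 - ∑ i, z i ^ 3 =
      ∑ j : Fin l, (y (i0.succAbove j) - ν) ^ 3 - ∑ j : Fin l, (z (i0.succAbove j) - ν) ^ 3 := by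
    have h1 : ∀ f : Fin (l + 1) → ℝ, ∑ j : Fin l, f (i0.succAbove j) ^ 3 =
        ∑ j : Fin l, (f (i0.succAbove j) - ν) ^ 3 + 3 * ν * ∑ j : Fin l, (f (i0.succAbove j) - ν) ^ 2
          + 3 * ν ^ 2 * ∑ j : Fin l, (f (i0.succAbove j) - ν) + l * ν ^ 3 := by
      intro f
      have h2 : (l : ℝ) * ν ^ 3 = ∑ _j : Fin l, ν ^ 3 := by
        rw [Finset.sum_const, Finset.card_univ, Fintype.card_fin, nsmul_eq_mul]
      rw [h2, Finset.mul_sum, Finset.mul_sum, ← Finset.sum_add_distrib, ← Finset.sum_add_distrib,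
        ← Finset.sum_add_distrib]
      exact Finset.sum_congr rfl fun j _ => by ring
    rw [hsplit (fun i => y i ^ 3), hsplit (fun i => z i ^ 3), h1 y, h1 z, hY2, hZ2, hyj, hzj, hyz]
    ring
  -- the right side
  have hmul : (lam + ν) ^ 4 * ∑ i, (1 / (lam + z i) - 1 / (lam + y i)) ≤
      (lam + ν) ^ 4 / lam * (gg (l + 1) lam (z i0) (y k) - gg (l + 1) lam (z i0) (z k')
        + C / (n : ℝ) ^ 4) := by
    have h1 : 0 ≤ (lam + ν) ^ 4 / lam := by positivity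
    have h2 := mul_le_mul_of_nonneg_left hmain h1
    have h3 : (lam + ν) ^ 4 / lam * (lam * ∑ i, (1 / (lam + z i) - 1 / (lam + y i)))
        = (lam + ν) ^ 4 * ∑ i, (1 / (lam + z i) - 1 / (lam + y i)) := by
      have : lam ≠ 0 := hl0.ne'
      field_simp
    rw [h3] at h2
    exact h2
  have hgg : gg (l + 1) lam (z i0) (y k) - gg (l + 1) lam (z i0) (z k') =
      (2 / ((lam + z i0) * (lam + y k)) - 2 / ((lam + z i0) * (lam + z k')))
        + (-((1 / (lam + y k) ^ 2 - 1 / (lam + z k') ^ 2) / lam)) := by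
    unfold gg
    ring
  have t1 := main_term (τ := τ) hnpos hε8 ha23 hsε hPε hYε hZε hlε hYZ
  have t2 := snd_term (s := lam + ν) (Y := lam + y k) (Z := lam + z k') (lam := lam) (τ := τ)
    hnpos hs0 (by linarith) (by linarith) (by linarith) (by linarith) (by linarith) hln hYZ
  have t3 := trd_term (s := lam + ν) (lam := lam) (C := C) hnpos (by linarith) hs0 (by linarith)
    hln
  rw [hgg, mul_add, mul_add] at hmul
  have hfin : -2 * ((lam + y k) - (lam + z k')) / a = -(2 * ((l : ℝ) + 1) / l * (y k - z k')) := by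
    rw [haval]
    have : (l : ℝ) ≠ 0 := by linarith
    field_simp
    ring
  rw [hfin] at t1
  have hτm : 164 * ε * τ = 492 * C * (τ / m) := by rw [hε]; ring
  have hτn2 : 50 * τ / n ≤ 50 * (τ / m) := by
    rw [mul_div_assoc]
    have : τ / n ≤ τ / m := by gcongr
    linarith
  have hD0 := abs_nonneg (∑ j : Fin l, (y (i0.succAbove j) - ν) ^ 4
        - ∑ j : Fin l, (z (i0.succAbove j) - ν) ^ 4)
  set D := |∑ j : Fin l, (y (i0.succAbove j) - ν) ^ 4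
        - ∑ j : Fin l, (z (i0.succAbove j) - ν) ^ 4| with hD
  have hτm0 : 0 ≤ τ / m := by positivity
  have hDn : 0 ≤ D / n := by positivity
  have hτ5 : 0 ≤ τ ^ 5 / (n : ℝ) ^ 2 := by positivity
  have hn0' : 0 ≤ 1 / (n : ℝ) := by positivity
  have c1 : D / (3 / 4 * n) ≤ 10 * (D / n) := by
    have : D / (3 / 4 * n) = 4 / 3 * (D / n) := by field_simp
    rw [this]; linarith
  have c2 : 2 * τ ^ 5 / (3 / 4 * n) ^ 2 ≤ 10 * (τ ^ 5 / (n : ℝ) ^ 2) := by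
    have : 2 * τ ^ 5 / (3 / 4 * (n : ℝ)) ^ 2 = 32 / 9 * (τ ^ 5 / (n : ℝ) ^ 2) := by
      field_simp
      ring
    rw [this]; linarith
  have c3 : 4 * C / n = 4 * C * (1 / (n : ℝ)) := by ring
  have hgoal : (550 * C + 10) / n * D = (550 * C + 10) * (D / n) := by ring
  rw [hcube, hgoal]
  have hC0 : 0 ≤ C := by linarith
  have d1 : 0 ≤ C * (D / n) := mul_nonneg hC0 hDn
  have d2 : 0 ≤ C * (τ ^ 5 / (n : ℝ) ^ 2) := mul_nonneg hC0 hτ5
  have d3 : 0 ≤ C * (1 / (n : ℝ)) := mul_nonneg hC0 hn0'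
  have d4 : 0 ≤ C * (τ / m) := mul_nonneg hC0 hτm0
  have d5 : τ / m ≤ C * (τ / m) := le_mul_of_one_le_left hτm0 hC
  linarith

end Pool.Agent.Work.MP_5532fa_up
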