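import Pool.Agent.Work.MP_5532fa_x.Interface6

/-!
# MP_5532fa_co, sixth round: block FFE
-/

open Finset

namespace Pool.Agent.Work.MP_5532fa_up

namespace X_FFE

private theorem amul {a b A B : ℝ} (h1 : |a| ≤ A) (h2 : |b| ≤ B) : |a * b| ≤ A * B := by
  rw [abs_mul]
  exact mul_le_mul h1 h2 (abs_nonneg _) ((abs_nonneg _).trans h1)

private theorem aadd {a b A B : ℝ} (h1 : |a| ≤ A) (h2 : |b| ≤ B) : |a + b| ≤ A + B :=
  (abs_add_le a b).trans (add_le_add h1 h2)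

private theorem aneg {a A : ℝ} (h1 : |a| ≤ A) : |-a| ≤ A := by
  rw [abs_neg]
  exact h1

private theorem core (a0 b E1 x y e2 h M : ℝ) (hM : 1 ≤ M) (hh : 0 ≤ h) (hMh : 6 * (M * h) ≤ 1)
    (ha : |a0| ≤ M) (hb : |b| ≤ M * h) (hE : |E1| ≤ M * h ^ 2) (hx : |x| ≤ M * h)
    (hy : |y| ≤ M * h) (he : |e2| ≤ M * h ^ 2) :
    |(a0 - b + E1) ^ 2 / (1 - (x - y - e2)) - (a0 ^ 2 * (1 + x - y) - 2 * a0 * b)|
      ≤ 181 * M ^ 4 * h ^ 2 := by
  have hM0 : 0 ≤ M := by linarith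
  have hMh0 : 0 ≤ M * h := mul_nonneg hM0 hh
  have hh1 : h ≤ M * h := by
    have := mul_le_mul_of_nonneg_right hM hh
    linarith
  have hh2 : h ≤ 1 := by linarith
  have hh3 : M * h ^ 2 ≤ M * h := by
    have h1 : h ^ 2 ≤ h := by
      have := mul_le_mul_of_nonneg_right hh2 hh
      rw [sq]
      linarith
    exact mul_le_mul_of_nonneg_left h1 hM0
  obtain ⟨z, hz⟩ : ∃ z, z = x - y - e2 := ⟨_, rfl⟩
  have hzb : |z| ≤ 3 * (M * h) := by
    have h1 := aadd (aadd hx (aneg hy)) (aneg he)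
    have h2 : x + -y + -e2 = z := by rw [hz]; ring
    rw [h2] at h1
    linarith
  have hz1 : |z| ≤ 1 / 2 := by linarith
  have hz2 := abs_le.mp hz1
  have hz3 : 0 < 1 - z := by linarith [hz2.2]
  have hz4 : |1 / (1 - z)| ≤ 2 := by
    rw [abs_of_pos (by positivity), div_le_iff₀ hz3]
    linarith [hz2.2]
  have hS : |a0 - b + E1| ≤ 3 * M := by
    have h1 := aadd (aadd ha (aneg hb)) hE
    have h2 : a0 + -b + E1 = a0 - b + E1 := by ring
    rw [h2] at h1
    have h3 : M * h ≤ M := by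
      have := mul_le_mul_of_nonneg_left hh2 hM0
      linarith
    linarith
  have hab : |a0 - b| ≤ 2 * M := by
    have h1 := aadd ha (aneg hb)
    have h2 : a0 + -b = a0 - b := by ring
    rw [h2] at h1
    have h3 : M * h ≤ M := by
      have := mul_le_mul_of_nonneg_left hh2 hM0
      linarith
    linarith
  have hid : (a0 - b + E1) ^ 2 / (1 - (x - y - e2)) - (a0 ^ 2 * (1 + x - y) - 2 * a0 * b) =
      -(a0 * a0 * e2) + -(2 * (a0 * b * z)) + (b * b + 2 * ((a0 - b) * E1) + E1 * E1) * (1 + z)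
        + (a0 - b + E1) * (a0 - b + E1) * (z * z) * (1 / (1 - z)) := by
    rw [← hz]
    have h1 : e2 = x - y - z := by rw [hz]; ring
    rw [h1]
    field_simp
    ring
  rw [hid]
  have hW : |b * b + 2 * ((a0 - b) * E1) + E1 * E1| ≤ 6 * M ^ 2 * h ^ 2 := by
    have h1 := aadd (aadd (amul hb hb) (amul (show |(2 : ℝ)| ≤ 2 by norm_num) (amul hab hE)))
      (amul hE hE)
    refine h1.trans ?_
    have h2 : M * h ^ 2 * (M * h ^ 2) ≤ M * h ^ 2 * M := by
      refine mul_le_mul_of_nonneg_left ?_ (mul_nonneg hM0 (sq_nonneg h))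
      have h3 : M * h ≤ M := by
        have := mul_le_mul_of_nonneg_left hh2 hM0
        linarith
      linarith
    nlinarith
  have h1z : |1 + z| ≤ 2 := by
    rw [abs_le]
    constructor <;> linarith [hz2.1, hz2.2]
  have t1 := aneg (amul (amul ha ha) he)
  have t2 := aneg (amul (show |(2 : ℝ)| ≤ 2 by norm_num) (amul (amul ha hb) hzb))
  have t3 := amul hW h1z
  have t4 := amul (amul (amul hS hS) (amul hzb hzb)) hz4
  refine (aadd (aadd (aadd t1 t2) t3) t4).trans ?_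
  have hM2 : 1 ≤ M ^ 2 := one_le_pow₀ hM
  have hp : 0 ≤ h ^ 2 := sq_nonneg h
  have e1 : M * M * (M * h ^ 2) + 2 * (M * (M * h) * (3 * (M * h))) + 6 * M ^ 2 * h ^ 2 * 2 +
      3 * M * (3 * M) * (3 * (M * h) * (3 * (M * h))) * 2 =
      (7 * M ^ 3 + 12 * M ^ 2 + 162 * M ^ 4) * h ^ 2 := by ring
  rw [e1]
  have e2' : M ^ 3 ≤ M ^ 4 := pow_le_pow_right₀ hM (by norm_num)
  have e3 : M ^ 2 ≤ M ^ 4 := pow_le_pow_right₀ hM (by norm_num)
  have e4 : 7 * M ^ 3 + 12 * M ^ 2 + 162 * M ^ 4 ≤ 181 * M ^ 4 := by linarith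
  exact mul_le_mul_of_nonneg_right e4 hp

/-- a sum of `r` terms with a common bound -/
private theorem sumb {r : ℕ} (f : Fin r → ℝ) (B : ℝ) (h : ∀ i, |f i| ≤ B) :
    |∑ i, f i| ≤ r * B := by
  refine (Finset.abs_sum_le_sum_abs _ _).trans ?_
  refine (Finset.sum_le_card_nsmul _ _ B fun i _ => h i).trans ?_
  rw [Finset.card_univ, Fintype.card_fin, nsmul_eq_mul]

end X_FFE

open X_FFE in
theorem x_FFE : Stmt_FFE := by
  intro r C hr hC
  have hr3 : (3 : ℝ) ≤ r := by exact_mod_cast hr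
  have hr0 : (0 : ℝ) < r := by linarith
  obtain ⟨M, hM⟩ : ∃ M : ℝ, M = 64 * r * C ^ 2 := ⟨_, rfl⟩
  have hC2 : C ≤ C ^ 2 := by nlinarith
  have hC2' : 1 ≤ C ^ 2 := by linarith
  have hrC : (r : ℝ) ≤ r * C := by nlinarith
  have hrC2 : (r : ℝ) * C ≤ r * C ^ 2 := mul_le_mul_of_nonneg_left hC2 hr0.le
  have hM1 : 1 ≤ M := by
    rw [hM]
    nlinarith
  have hMC : 64 * C ≤ M := by
    rw [hM]
    nlinarith
  refine ⟨362 * M ^ 4, ⌈6 * M⌉₊ + 1, ?_, ?_⟩
  · have : 1 ≤ M ^ 4 := one_le_pow₀ hM1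
    linarith
  intro N hN lam n a s σ Q P hlam hn ha0 ha2 hs hσ hQ hP
  have hN1 : 6 * M ≤ N := by
    have h1 := Nat.le_ceil (6 * M)
    have h2 : ((⌈6 * M⌉₊ + 1 : ℕ) : ℝ) ≤ N := by exact_mod_cast hN
    push_cast at h2
    linarith
  have hN0 : (0 : ℝ) < N := by linarith
  have hCN : 384 * C ≤ N := by linarith
  have hal := al_ge hr
  have hlam' := abs_le.mp hlam
  have hlam1 : (N : ℝ) / 2 ≤ lam := by
    have h1 : 2 / 3 * (N : ℝ) ≤ al r * N := mul_le_mul_of_nonneg_right hal hN0.le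
    linarith [hlam'.1]
  have hlam0 : 0 < lam := by linarith
  have hPN : |P - N| ≤ C := by
    have h1 : P - N = lam - al r * N := by
      rw [hP]
      unfold al
      field_simp
      ring
    rw [h1]
    exact hlam
  have hPN' := abs_le.mp hPN
  have hP1 : (N : ℝ) / 2 ≤ P := by linarith [hPN'.1]
  have hP0 : 0 < P := by linarith
  obtain ⟨d, hd⟩ : ∃ d : Fin r → ℝ, ∀ i, d i = n i - N / r := ⟨_, fun _ => rfl⟩
  have hdC : ∀ i, |d i| ≤ C := fun i => by
    rw [hd]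
    exact hn i
  have hln : ∀ i, lam + n i = P + d i := fun i => by
    rw [hd, hP]
    ring
  have hPd : ∀ i, (N : ℝ) / 2 ≤ P + d i := fun i => by
    have := abs_le.mp (hdC i)
    linarith [this.1, hPN'.1]
  have hPd0 : ∀ i, 0 < P + d i := fun i => by linarith [hPd i]
  -- the error terms
  have hN2 : (0 : ℝ) < N / 2 := by linarith
  obtain ⟨h, hh⟩ : ∃ h : ℝ, h = 1 / N := ⟨_, rfl⟩
  have hh0 : 0 ≤ h := by
    rw [hh]
    positivity
  have hNh : (N : ℝ) * h = 1 := by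
    rw [hh]
    field_simp
  have inv2 : ∀ w : ℝ, (N : ℝ) / 2 ≤ w → |1 / w| ≤ 2 * h := by
    intro w hw
    have hw0 : 0 < w := by linarith
    rw [abs_of_pos (by positivity), div_le_iff₀ hw0]
    have : 2 * h * (N / 2) ≤ 2 * h * w := mul_le_mul_of_nonneg_left hw (by linarith)
    have h2 : 2 * h * ((N : ℝ) / 2) = N * h := by ring
    rw [h2, hNh] at this
    exact this
  have haN : ∀ i, |a i| ≤ 2 * N := fun i => by
    rw [abs_of_nonneg (ha0 i)]
    exact ha2 i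
  obtain ⟨E1, hE1⟩ : ∃ E1, E1 = ∑ i, a i * (d i * d i) * (1 / P * (1 / P)) * (1 / (P + d i)) :=
    ⟨_, rfl⟩
  obtain ⟨E2, hE2⟩ : ∃ E2, E2 = ∑ i, -(a i * a i * d i * (1 / P) * (1 / (P + d i))) :=
    ⟨_, rfl⟩
  have hE1b : |E1| ≤ M * h ^ 2 := by
    have h1 : |E1| ≤ r * (2 * N * (C * C) * (2 * h * (2 * h)) * (2 * h)) := by
      rw [hE1]
      exact sumb _ _ fun i => amul (amul (amul (haN i) (amul (hdC i) (hdC i)))
        (amul (inv2 P hP1) (inv2 P hP1))) (inv2 _ (hPd i))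
    refine h1.trans ?_
    have h2 : (r : ℝ) * (2 * N * (C * C) * (2 * h * (2 * h)) * (2 * h)) =
        16 * (r * C ^ 2) * (N * h) * h ^ 2 := by ring
    rw [h2, hNh, hM]
    have h3 : 0 ≤ (r * C ^ 2) * h ^ 2 := by positivity
    nlinarith
  have hE2b : |E2| ≤ 16 * (r * C) := by
    have h1 : |E2| ≤ r * (2 * N * (2 * N) * C * (2 * h) * (2 * h)) := by
      rw [hE2]
      exact sumb _ _ fun i => aneg (amul (amul (amul (amul (haN i) (haN i)) (hdC i))
        (inv2 P hP1)) (inv2 _ (hPd i)))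
    refine h1.trans (le_of_eq ?_)
    have h2 : (r : ℝ) * (2 * N * (2 * N) * C * (2 * h) * (2 * h)) =
        16 * (r * C) * (N * h) ^ 2 := by ring
    rw [h2, hNh]
    ring
  have hS1 : ∑ i, a i / (lam + n i) = s / P - σ / P ^ 2 + E1 := by
    rw [hs, hσ, hE1, Finset.sum_div, Finset.sum_div, ← Finset.sum_sub_distrib,
      ← Finset.sum_add_distrib]
    refine Finset.sum_congr rfl fun i _ => ?_
    rw [hln, ← hd]
    have h1 := (hPd0 i).ne'
    field_simp
    ring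
  have hS2 : ∑ i, a i ^ 2 / (lam + n i) = Q / P + E2 := by
    rw [hQ, hE2, Finset.sum_div, ← Finset.sum_add_distrib]
    refine Finset.sum_congr rfl fun i _ => ?_
    rw [hln]
    have h1 := (hPd0 i).ne'
    field_simp
    ring
  have hsb : |s| ≤ r * (2 * N) := by
    rw [hs]
    exact sumb _ _ haN
  have hσb : |σ| ≤ r * (2 * N * C) := by
    rw [hσ]
    exact sumb _ _ fun i => amul (haN i) (hn i)
  have hQb : |Q| ≤ r * (2 * N * (2 * N)) := by
    rw [hQ]
    refine sumb _ _ fun i => ?_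
    rw [sq]
    exact amul (haN i) (haN i)
  have ha : |s / P| ≤ M := by
    have h1 := amul hsb (inv2 P hP1)
    rw [mul_one_div] at h1
    refine h1.trans ?_
    have h2 : (r : ℝ) * (2 * N) * (2 * h) = 4 * r * (N * h) := by ring
    rw [h2, hNh, hM]
    nlinarith
  have hb : |σ / P ^ 2| ≤ M * h := by
    have h1 := amul hσb (amul (inv2 P hP1) (inv2 P hP1))
    have h3 : σ * (1 / P * (1 / P)) = σ / P ^ 2 := by
      field_simp
    rw [h3] at h1
    refine h1.trans ?_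
    have h2 : (r : ℝ) * (2 * N * C) * (2 * h * (2 * h)) = 8 * (r * C) * (N * h) * h := by ring
    rw [h2, hNh, hM]
    have h4 : 8 * ((r : ℝ) * C) * 1 ≤ 64 * r * C ^ 2 := by nlinarith
    exact mul_le_mul_of_nonneg_right h4 hh0
  have hx : |s / lam ^ 2| ≤ M * h := by
    have h1 := amul hsb (amul (inv2 lam hlam1) (inv2 lam hlam1))
    have h3 : s * (1 / lam * (1 / lam)) = s / lam ^ 2 := by
      field_simp
    rw [h3] at h1
    refine h1.trans ?_
    have h2 : (r : ℝ) * (2 * N) * (2 * h * (2 * h)) = 8 * r * (N * h) * h := by ring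
    rw [h2, hNh, hM]
    have h4 : 8 * (r : ℝ) * 1 ≤ 64 * r * C ^ 2 := by nlinarith
    exact mul_le_mul_of_nonneg_right h4 hh0
  have hy : |Q / (P * lam ^ 2)| ≤ M * h := by
    have h1 := amul hQb (amul (inv2 P hP1) (amul (inv2 lam hlam1) (inv2 lam hlam1)))
    have h3 : Q * (1 / P * (1 / lam * (1 / lam))) = Q / (P * lam ^ 2) := by
      field_simp
    rw [h3] at h1
    refine h1.trans ?_
    have h2 : (r : ℝ) * (2 * N * (2 * N)) * (2 * h * (2 * h * (2 * h))) =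
        32 * r * (N * h) ^ 2 * h := by ring
    rw [h2, hNh, hM]
    have h4 : 32 * (r : ℝ) * 1 ^ 2 ≤ 64 * r * C ^ 2 := by nlinarith
    exact mul_le_mul_of_nonneg_right h4 hh0
  have he : |E2 / lam ^ 2| ≤ M * h ^ 2 := by
    have h1 := amul hE2b (amul (inv2 lam hlam1) (inv2 lam hlam1))
    have h3 : E2 * (1 / lam * (1 / lam)) = E2 / lam ^ 2 := by
      field_simp
    rw [h3] at h1
    refine h1.trans ?_
    have h2 : 16 * ((r : ℝ) * C) * (2 * h * (2 * h)) = 64 * (r * C) * h ^ 2 := by ring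
    rw [h2, hM]
    have h4 : 64 * ((r : ℝ) * C) ≤ 64 * r * C ^ 2 := by linarith
    exact mul_le_mul_of_nonneg_right h4 (sq_nonneg h)
  have hMh : 6 * (M * h) ≤ 1 := by
    have := mul_le_mul_of_nonneg_right hN1 hh0
    rw [hNh] at this
    linarith
  have hcore := core (s / P) (σ / P ^ 2) E1 (s / lam ^ 2) (Q / (P * lam ^ 2)) (E2 / lam ^ 2) h M
    hM1 hh0 hMh ha hb hE1b hx hy he
  have hz : |s / lam ^ 2 - Q / (P * lam ^ 2) - E2 / lam ^ 2| ≤ 1 / 2 := by
    have h1 := aadd (aadd hx (aneg hy)) (aneg he)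
    have h2 : s / lam ^ 2 + -(Q / (P * lam ^ 2)) + -(E2 / lam ^ 2) =
        s / lam ^ 2 - Q / (P * lam ^ 2) - E2 / lam ^ 2 := by ring
    rw [h2] at h1
    have h3 : M * h ^ 2 ≤ M * h := by
      have h4 : h ≤ 1 := by nlinarith
      have h5 : h ^ 2 ≤ h := by nlinarith
      exact mul_le_mul_of_nonneg_left h5 (by linarith)
    linarith
  have hz1 : 1 - (s / lam ^ 2 - Q / (P * lam ^ 2) - E2 / lam ^ 2) ≠ 0 := by
    have := abs_le.mp hz
    have h1 : 0 < 1 - (s / lam ^ 2 - Q / (P * lam ^ 2) - E2 / lam ^ 2) := by linarith [this.2]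
    exact h1.ne'
  have hFF : FF lam n a - (s ^ 2 / (lam * P ^ 2) - 2 * s * σ / (lam * P ^ 3)
      + s ^ 3 / (lam ^ 3 * P ^ 2) - s ^ 2 * Q / (lam ^ 3 * P ^ 3)) =
      ((s / P - σ / P ^ 2 + E1) ^ 2 / (1 - (s / lam ^ 2 - Q / (P * lam ^ 2) - E2 / lam ^ 2)) -
        ((s / P) ^ 2 * (1 + s / lam ^ 2 - Q / (P * lam ^ 2)) - 2 * (s / P) * (σ / P ^ 2)))
        * (1 / lam) := by
    have h1 : lam ^ 2 - s + (Q / P + E2) =
        lam ^ 2 * (1 - (s / lam ^ 2 - Q / (P * lam ^ 2) - E2 / lam ^ 2)) := by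
      field_simp
      ring
    have h2 : FF lam n a = (s / P - σ / P ^ 2 + E1) ^ 2 /
        (1 - (s / lam ^ 2 - Q / (P * lam ^ 2) - E2 / lam ^ 2)) * (1 / lam) := by
      rw [FF, hS1, hS2, ← hs, h1]
      generalize 1 - (s / lam ^ 2 - Q / (P * lam ^ 2) - E2 / lam ^ 2) = Z at hz1 ⊢
      field_simp
    rw [h2]
    generalize (s / P - σ / P ^ 2 + E1) ^ 2 /
        (1 - (s / lam ^ 2 - Q / (P * lam ^ 2) - E2 / lam ^ 2)) = Y
    field_simp
    ring
  rw [hFF]
  refine (amul hcore (inv2 lam hlam1)).trans (le_of_eq ?_)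
  rw [hh]
  field_simp
  ring

end Pool.Agent.Work.MP_5532fa_up
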