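import Pool.Agent.Work.MP_5532fa_x.Interface

/-!
# MP_5532fa_co, sixth round, block FS1: the leaves of the star are in one class
-/

set_option autoImplicit false

open Finset

namespace Pool.Agent.Work.MP_5532fa_up

open MP5532fa (specRad qf pE)

namespace X_FS1

section
variable {V : Type} [Fintype V] {r : ℕ}

/-- the eigenvalue equation at a vertex of `H` -/
theorem row {G : SimpleGraph V} {N : ℕ} {H : Finset V} {c : V → Fin r} {w : V} {T : Finset V}
    (h : WF G N H c w T) {x : V → ℝ} {lam : ℝ} (hx : PV G x lam) {v : V} (hv : v ∈ H) :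
    lam * x v = ∑ u ∈ H, x u - cs x H c (c v) - ∑ b, chi (FM G H c v b) * x b
      + chi (v ∈ T) * x w := by
  classical
  rw [← hx.eig v]
  have hvw : v ≠ w := by rintro rfl; exact h.hw hv
  have e1 : ∀ b, ad G v b = chi (b ∈ H) - chi (b ∈ cl H c (c v)) - chi (FM G H c v b)
      + chi (b = w) * chi (v ∈ T) := by
    intro b
    unfold ad
    rw [chi_congr (EQS.adj_iff h v b)]
    by_cases hbw : b = w
    · subst hbw
      have n1 : b ∉ cl H c (c v) := fun h3 => h.hw (mem_cl.mp h3).1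
      have n2 : ¬ FM G H c v b := fun h3 => h.hw h3.2.1
      rw [chi_neg h.hw, chi_neg n1, chi_neg n2, chi_pos rfl]
      by_cases hvT : v ∈ T
      · rw [chi_pos (Or.inr (Or.inr ⟨rfl, hvT⟩)), chi_pos hvT]; ring
      · rw [chi_neg hvT, chi_neg]
        · ring
        · rintro (h3 | h3 | h3)
          · exact h.hw h3.2.1
          · exact hvw h3.1
          · exact hvT h3.2
    · rw [chi_neg hbw]
      by_cases hb : b ∈ H
      · by_cases hbc : c b = c v
        · have n2 : ¬ FM G H c v b := fun h3 => h3.2.2.1 hbc.symm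
          rw [chi_pos hb, chi_pos (mem_cl.mpr ⟨hb, hbc⟩), chi_neg n2, chi_neg]
          · ring
          · rintro (h3 | h3 | h3)
            · exact h3.2.2.1 hbc.symm
            · exact hvw h3.1
            · exact hbw h3.1
        · have n1 : b ∉ cl H c (c v) := fun h3 => hbc (mem_cl.mp h3).2
          rw [chi_pos hb, chi_neg n1]
          by_cases hF : FM G H c v b
          · rw [chi_pos hF, chi_neg]
            · ring
            · rintro (h3 | h3 | h3)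
              · exact h3.2.2.2 hF
              · exact hvw h3.1
              · exact hbw h3.1
          · rw [chi_neg hF, chi_pos (Or.inl ⟨hv, hb, fun h3 => hbc h3.symm, hF⟩)]
            ring
      · have n1 : b ∉ cl H c (c v) := fun h3 => hb (mem_cl.mp h3).1
        have n2 : ¬ FM G H c v b := fun h3 => hb h3.2.1
        rw [chi_neg hb, chi_neg n1, chi_neg n2, chi_neg]
        · ring
        · rintro (h3 | h3 | h3)
          · exact hb h3.2.1
          · exact hvw h3.1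
          · exact hbw h3.1
  have e2 : ∀ b, ad G v b * x b = chi (b ∈ H) * x b - chi (b ∈ cl H c (c v)) * x b
      - chi (FM G H c v b) * x b + chi (b = w) * (chi (v ∈ T) * x b) := by
    intro b
    rw [e1]; ring
  simp only [e2, Finset.sum_sub_distrib, Finset.sum_add_distrib, EQS.sum_chi_mem]
  rw [EQS.sum_chi_eq w (fun b => chi (v ∈ T) * x b)]
  rfl

/-- the sums for a star -/
theorem star_row {F : V → V → Prop} {p : V} {L : Finset V} (hpL : p ∉ L)
    (hF : ∀ a b, F a b ↔ (a = p ∧ b ∈ L) ∨ (b = p ∧ a ∈ L)) (x : V → ℝ) {v : V} (hv : v ≠ p) :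
    ∑ b, chi (F v b) * x b = chi (v ∈ L) * x p := by
  have e1 : ∀ b, chi (F v b) * x b = chi (b = p) * (chi (v ∈ L) * x b) := by
    intro b
    have e2 : F v b ↔ (b = p ∧ v ∈ L) := by
      rw [hF]
      exact ⟨fun h => h.resolve_left fun h3 => hv h3.1, Or.inr⟩
    rw [chi_congr e2, EQS.chi_and]
    ring
  simp only [e1]
  rw [EQS.sum_chi_eq p (fun b => chi (v ∈ L) * x b)]

theorem star_chi {F : V → V → Prop} {p : V} {L : Finset V} (hpL : p ∉ L)
    (hF : ∀ a b, F a b ↔ (a = p ∧ b ∈ L) ∨ (b = p ∧ a ∈ L)) (a b : V) :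
    chi (F a b) = chi (a = p) * chi (b ∈ L) + chi (a ∈ L) * chi (b = p) := by
  rw [chi_congr (hF a b), ← EQS.chi_and, ← EQS.chi_and]
  by_cases h2 : a = p ∧ b ∈ L
  · have h3 : ¬ (a ∈ L ∧ b = p) := fun h4 => hpL (h2.1 ▸ h4.1)
    rw [chi_pos (Or.inl h2), chi_pos h2, chi_neg h3, add_zero]
  · by_cases h3 : b = p ∧ a ∈ L
    · rw [chi_pos (Or.inr h3), chi_neg h2, chi_pos ⟨h3.2, h3.1⟩, zero_add]
    · rw [chi_neg (not_or.mpr ⟨h2, h3⟩), chi_neg h2, chi_neg fun h4 => h3 ⟨h4.2, h4.1⟩,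
        add_zero]

theorem star_sum {F : V → V → Prop} {p : V} {L : Finset V} (hpL : p ∉ L)
    (hF : ∀ a b, F a b ↔ (a = p ∧ b ∈ L) ∨ (b = p ∧ a ∈ L)) (x y : V → ℝ) :
    ∑ a, ∑ b, chi (F a b) * (x a * y b) = x p * ∑ b ∈ L, y b + (∑ a ∈ L, x a) * y p := by
  simp only [star_chi hpL hF, add_mul, Finset.sum_add_distrib]
  rw [EQS.sum2 (fun a => chi (a = p)) (fun b => chi (b ∈ L)) x y,
    EQS.sum2 (fun a => chi (a ∈ L)) (fun b => chi (b = p)) x y]
  simp only [EQS.sum_chi_eq, EQS.sum_chi_mem]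

theorem star_mis {G : SimpleGraph V} {H : Finset V} {c : V → Fin r} {p : V} {L : Finset V}
    (hpL : p ∉ L) (hF : ∀ a b, FM G H c a b ↔ (a = p ∧ b ∈ L) ∨ (b = p ∧ a ∈ L)) :
    mis G H c = 2 * L.card := by
  have e1 : (mis G H c : ℝ) = 2 * L.card := by
    rw [STAR.mis_FM]
    have e2 := star_sum hpL hF (fun _ => 1) (fun _ => 1)
    simp only [mul_one, Finset.sum_const, nsmul_eq_mul] at e2
    rw [e2]; ring
  exact_mod_cast e1

/-- the difference of the adjacencies of two graphs of the type `WF` -/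
theorem ad_diff {G G' : SimpleGraph V} {N : ℕ} {H : Finset V} {c : V → Fin r} {w : V}
    {T : Finset V} (h : WF G N H c w T) (h' : WF G' N H c w T) (a b : V) :
    ad G' a b - ad G a b = chi (FM G H c a b) - chi (FM G' H c a b) := by
  unfold ad
  rw [chi_congr (EQS.adj_iff h a b), chi_congr (EQS.adj_iff h' a b)]
  by_cases hH : a ∈ H ∧ b ∈ H ∧ c a ≠ c b
  · obtain ⟨ha, hb, hab⟩ := hH
    have haw : a ≠ w := by rintro rfl; exact h.hw ha
    have hbw : b ≠ w := by rintro rfl; exact h.hw hb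
    have f : ∀ P : Prop, ((a ∈ H ∧ b ∈ H ∧ c a ≠ c b ∧ ¬ P) ∨ (a = w ∧ b ∈ T) ∨
        (b = w ∧ a ∈ T)) ↔ ¬ P := by
      intro P
      constructor
      · rintro (h3 | h3 | h3)
        · exact h3.2.2.2
        · exact absurd h3.1 haw
        · exact absurd h3.1 hbw
      · intro h3
        exact Or.inl ⟨ha, hb, hab, h3⟩
    rw [chi_congr (f _), chi_congr (f _)]
    have g : ∀ P : Prop, chi (¬ P) = 1 - chi P := by
      intro P
      by_cases hP : P
      · rw [chi_pos hP, chi_neg (not_not.mpr hP)]; ring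
      · rw [chi_neg hP, chi_pos hP]; ring
    rw [g, g]; ring
  · have n1 : ¬ FM G H c a b := fun h3 => hH ⟨h3.1, h3.2.1, h3.2.2.1⟩
    have n2 : ¬ FM G' H c a b := fun h3 => hH ⟨h3.1, h3.2.1, h3.2.2.1⟩
    rw [chi_neg n1, chi_neg n2]
    have f : ∀ P : Prop, ((a ∈ H ∧ b ∈ H ∧ c a ≠ c b ∧ ¬ P) ∨ (a = w ∧ b ∈ T) ∨
        (b = w ∧ a ∈ T)) ↔ ((a = w ∧ b ∈ T) ∨ (b = w ∧ a ∈ T)) := by
      intro P
      exact ⟨fun h3 => h3.resolve_left fun h4 => hH ⟨h4.1, h4.2.1, h4.2.2.1⟩, Or.inr⟩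
    rw [chi_congr (f _), chi_congr (f _)]
    ring

/-- the graph with a star of missing pairs -/
theorem mk {G : SimpleGraph V} {N : ℕ} {H : Finset V} {c : V → Fin r} {w : V} {T : Finset V}
    (hr : 3 ≤ r) (h : WF G N H c w T) (hsz : ∀ i, mis G H c < (cl H c i).card) {p q : V}
    {L : Finset V} (hp : p ∈ T) (hq : q ∈ T) (hqL : q ∈ L) (hL : ∀ b ∈ L, b ∈ H ∧ c b ≠ c p)
    (hm : mis G H c = 2 * L.card) :
    ∃ G' : SimpleGraph V, WF G' N H c w T ∧ ¬ G'.Colorable r ∧ G'.CliqueFree (r + 1) ∧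
      pE G' = pE G ∧ mis G' H c = mis G H c ∧
      (∀ a b, FM G' H c a b ↔ (a = p ∧ b ∈ L) ∨ (b = p ∧ a ∈ L)) := by
  classical
  have hpL : p ∉ L := fun h2 => (hL p h2).2 rfl
  have hpH : p ∈ H := h.hT hp
  obtain ⟨G', hG'⟩ : ∃ G', G' = gF H c w T (fun a b => a = p ∧ b ∈ L) := ⟨_, rfl⟩
  have adjH : ∀ a ∈ H, ∀ b ∈ H, (G'.Adj a b ↔ c a ≠ c b ∧ ¬ (a = p ∧ b ∈ L) ∧
      ¬ (b = p ∧ a ∈ L)) := by
    intro a ha b hb
    rw [hG', SM2.gF_adj h.hw ha hb]
  have hFM : ∀ a b, FM G' H c a b ↔ (a = p ∧ b ∈ L) ∨ (b = p ∧ a ∈ L) := by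
    intro a b
    constructor
    · rintro ⟨ha, hb, h3, h4⟩
      rw [adjH a ha b hb] at h4
      by_contra h5
      rw [not_or] at h5
      exact h4 ⟨h3, h5⟩
    · rintro (⟨h3, h4⟩ | ⟨h3, h4⟩)
      · have h5 := hL b h4
        have ha : a ∈ H := h3 ▸ hpH
        refine ⟨ha, h5.1, ?_, ?_⟩
        · rw [h3]; exact h5.2.symm
        · rw [adjH a ha b h5.1]
          exact fun h6 => h6.2.1 ⟨h3, h4⟩
      · have h5 := hL a h4
        have hb : b ∈ H := h3 ▸ hpH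
        refine ⟨h5.1, hb, ?_, ?_⟩
        · rw [h3]; exact h5.2
        · rw [adjH a h5.1 b hb]
          exact fun h6 => h6.2.2 ⟨h3, h4⟩
  have hWF : WF G' N H c w T := by
    refine ⟨h.card, h.hw, h.hT, h.hT1, ⟨p, hp, q, hq, ?_, ?_⟩, ?_, ?_⟩
    · rintro rfl
      exact hpL hqL
    · intro hadj
      rw [adjH p hpH q (h.hT hq)] at hadj
      exact hadj.2.1 ⟨rfl, hqL⟩
    · intro a b hab
      rw [hG'] at hab
      rcases hab.2 with h2 | h2 | h2
      · exact Or.inl ⟨h2.1, h2.2.1, h2.2.2.1⟩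
      · exact Or.inr (Or.inl h2)
      · exact Or.inr (Or.inr h2)
    · intro b hb
      rw [hG']
      refine ⟨?_, Or.inr (Or.inl ⟨rfl, hb⟩)⟩
      rintro rfl
      exact h.hw (h.hT hb)
  have hmis : mis G' H c = mis G H c := by rw [star_mis hpL hFM, hm]
  obtain ⟨g1, g2, g3⟩ := pGF r hr V G' N H c w T hWF
  obtain ⟨_, _, g6⟩ := pGF r hr V G N H c w T h
  exact ⟨G', hWF, g2 fun i => by rw [hmis]; exact hsz i, g1, by rw [g3, g6, hmis], hmis, hFM⟩

/-- the difference of the class sums -/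
theorem cs_ge {a b s t xb : ℝ} (hr : 3 ≤ r) (hxb : 0 < xb)
    (h : |a - b - al r * (s - t) * xb| ≤ 1 / 12 * xb * (|s - t| + 1)) (hst : 1 ≤ s - t) :
    1 / 2 * xb ≤ a - b := by
  have h1 := (abs_le.mp h).1
  rw [abs_of_pos (by linarith : 0 < s - t)] at h1
  have h2 : 2 / 3 * ((s - t) * xb) ≤ al r * ((s - t) * xb) :=
    mul_le_mul_of_nonneg_right (al_ge hr) (mul_nonneg (by linarith) hxb.le)
  have h3 : xb ≤ (s - t) * xb := by
    have := mul_le_mul_of_nonneg_right hst hxb.le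
    linarith
  have e1 : al r * (s - t) * xb = al r * ((s - t) * xb) := by ring
  have e2 : 1 / 12 * xb * (s - t + 1) = 1 / 12 * ((s - t) * xb) + 1 / 12 * xb := by ring
  rw [e1, e2] at h1
  linarith

/-- the contradiction: a leaf outside the largest class can be moved -/
theorem core {N : ℕ} {δ : ℝ} {G : SimpleGraph V} {H : Finset V} {c : V → Fin r} {w : V}
    {T : Finset V} (hr : 3 ≤ r) (hδ0 : 0 < δ) (hE : TOPG.FlatC r (2 * δ) N)
    (hC : C0 r δ N G c H) (h : WF G N H c w T) (hmx : MX r G)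
    (hsz : ∀ i, mis G H c < (cl H c i).card) {p : V} {F : Finset V} (hp : p ∈ T)
    (hFm : ∀ b, b ∈ F ↔ FM G H c p b)
    (hF : ∀ a b, FM G H c a b ↔ (a = p ∧ b ∈ F) ∨ (b = p ∧ a ∈ F)) {Q : Fin r} (hQp : Q ≠ c p)
    {a : V} (ha : a ∈ F) (hlt : (cl H c (c a)).card < (cl H c Q).card) (hN0 : 0 < N) : False := by
  classical
  have hNR : (0 : ℝ) < N := by exact_mod_cast hN0
  have hpF : p ∉ F := fun h2 => ((hFm p).mp h2).2.2.1 rfl
  have hFH : ∀ b ∈ F, b ∈ H ∧ c b ≠ c p := by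
    intro b hb
    have h2 := (hFm b).mp hb
    exact ⟨h2.2.1, h2.2.2.1.symm⟩
  have hm := star_mis hpF hF
  have haQ : c a ≠ Q := by
    intro h2
    rw [h2] at hlt
    exact lt_irrefl _ hlt
  obtain ⟨tQ, htQ⟩ : (cl T c Q).Nonempty := by
    rw [← Finset.card_pos, h.hT1 Q]; exact one_pos
  rw [mem_cl] at htQ
  obtain ⟨b, hbH, hbQ, hbF, htb⟩ : ∃ b, b ∈ H ∧ c b = Q ∧ b ∉ F ∧ (tQ ∈ F ∨ b = tQ) := by
    by_cases h2 : tQ ∈ F
    · obtain ⟨b, hb1, hb2⟩ : ∃ b ∈ cl H c Q, b ∉ F := by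
        by_contra hcon
        push Not at hcon
        have h3 : cl H c Q ⊆ F := fun b hb => hcon b hb
        have h4 := Finset.card_le_card h3
        have h5 := hsz Q
        omega
      rw [mem_cl] at hb1
      exact ⟨b, hb1.1, hb1.2, hb2, Or.inl h2⟩
    · exact ⟨tQ, h.hT htQ.1, htQ.2, h2, Or.inr rfl⟩
  have hab : a ≠ b := fun h2 => hbF (h2 ▸ ha)
  obtain ⟨F', hF'⟩ : ∃ F' : Finset V, F' = insert b (F.erase a) := ⟨_, rfl⟩
  have hF'm : ∀ z, z ∈ F' ↔ z = b ∨ (z ≠ a ∧ z ∈ F) := by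
    intro z
    rw [hF', Finset.mem_insert, Finset.mem_erase]
  have hbe : b ∉ F.erase a := fun h2 => hbF (Finset.mem_of_mem_erase h2)
  have hcF' : F'.card = F.card := by
    rw [hF', Finset.card_insert_of_notMem hbe, Finset.card_erase_add_one ha]
  have hF'H : ∀ z ∈ F', z ∈ H ∧ c z ≠ c p := by
    intro z hz
    rcases (hF'm z).mp hz with h2 | h2
    · rw [h2]; exact ⟨hbH, by rw [hbQ]; exact hQp⟩
    · exact hFH z h2.2
  have htF' : tQ ∈ F' := by
    rw [hF'm]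
    rcases htb with h2 | h2
    · exact Or.inr ⟨fun h3 => haQ (by rw [← h3]; exact htQ.2), h2⟩
    · exact Or.inl h2.symm
  obtain ⟨G', hWF', hcol', hfree', hpE, hmis', hFM'⟩ := mk hr h hsz hp htQ.1 htF' hF'H
    (by rw [hm, hcF'])
  have hle : specRad G' ≤ specRad G := hmx G' hfree' hcol' hpE
  have hC' : C0 r (2 * δ) N G' c H :=
    pTRF r δ N V G G' c H hC (GF.ind hWF') hpE hmis'.le
  have hC2 : C0 r (2 * δ) N G c H := hC.mono (by linarith)
  have hV : Nonempty V := ⟨w⟩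
  obtain ⟨x, hx⟩ := exists_PV G
  obtain ⟨y, hy⟩ := exists_PV G'
  obtain ⟨xb, hxb, hdx⟩ := hE V G x _ c H hC2 hx
  obtain ⟨yb, hyb, hdy⟩ := hE V G' y _ c H hC' hy
  have hpF' : p ∉ F' := fun h2 => (hF'H p h2).2 rfl
  have haH := (hFH a ha).1
  have hap : a ≠ p := fun h2 => hpF (h2 ▸ ha)
  have hbp : b ≠ p := fun h2 => hQp (by rw [← hbQ, h2])
  have haF' : a ∉ F' := by
    rw [hF'm]
    rintro (h2 | h2)
    · exact hab h2
    · exact h2.1 rfl
  have hbF' : b ∈ F' := (hF'm b).mpr (Or.inl rfl)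
  have exa := row h hx haH
  have exb := row h hx hbH
  have eya := row hWF' hy haH
  have eyb := row hWF' hy hbH
  rw [star_row hpF hF x hap, chi_pos ha] at exa
  rw [star_row hpF hF x hbp, chi_neg hbF, hbQ] at exb
  rw [star_row hpF' hFM' y hap, chi_neg haF'] at eya
  rw [star_row hpF' hFM' y hbp, chi_pos hbF', hbQ] at eyb
  generalize hlamdef : specRad G = lam at *
  generalize hlamdef' : specRad G' = lam' at *
  have hal3 := al_ge hr
  have hl'pos : 0 < lam' := by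
    have h1 := (abs_le.mp hyb.lamN).1
    have h2 : 2 / 3 * (N : ℝ) ≤ al r * N := mul_le_mul_of_nonneg_right hal3 hNR.le
    linarith
  have hdsz : 1 ≤ sz H c Q - sz H c (c a) := by
    unfold sz
    have : ((cl H c (c a)).card : ℝ) + 1 ≤ (cl H c Q).card := by exact_mod_cast hlt
    linarith
  have hx0 := hxb.xb0
  have hy0 := hyb.xb0
  have hD := cs_ge hr hx0 (hdx Q (c a)) hdsz
  have hD' := cs_ge hr hy0 (hdy Q (c a)) hdsz
  -- the terms with `w`
  have hxw0 := hx.nn w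
  have hyw0 := hy.nn w
  have hxw1 := hxb.xo w h.hw
  have hyw1 := hyb.xo w h.hw
  obtain ⟨ta, hta⟩ : ∃ ta : ℝ, ta = chi (a ∈ T) := ⟨_, rfl⟩
  obtain ⟨tb, htb'⟩ : ∃ tb : ℝ, tb = chi (b ∈ T) := ⟨_, rfl⟩
  have hta0 : 0 ≤ ta := by rw [hta]; exact chi_nonneg _
  have htb1 : tb ≤ 1 := by rw [htb']; exact chi_le_one _
  rw [← hta] at exa eya
  rw [← htb'] at exb eyb
  have k1 : ∀ z : ℝ, 0 ≤ z → -z ≤ (ta - tb) * z := by
    intro z hz
    have k2 := mul_nonneg hta0 hz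
    have k3 := mul_le_mul_of_nonneg_right htb1 hz
    have k4 : (ta - tb) * z = ta * z - tb * z := by ring
    rw [k4]; linarith
  have hDx : 0 < cs x H c Q - cs x H c (c a) + (ta - tb) * x w := by
    have := k1 (x w) hxw0
    linarith
  have hDy : 0 < cs y H c Q - cs y H c (c a) + (ta - tb) * y w := by
    have := k1 (y w) hyw0
    linarith
  -- the pairing
  have hpair := pairing hx hy
  have e1 : ∀ u v, (ad G' u v - ad G u v) * (x u * y v) =
      chi (FM G H c u v) * (x u * y v) - chi (FM G' H c u v) * (x u * y v) := by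
    intro u v
    rw [ad_diff h hWF']; ring
  simp only [e1, Finset.sum_sub_distrib] at hpair
  rw [star_sum hpF hF, star_sum hpF' hFM'] at hpair
  have hsum : ∀ z : V → ℝ, ∑ u ∈ F', z u = ∑ u ∈ F, z u - z a + z b := by
    intro z
    rw [hF', Finset.sum_insert hbe, ← Finset.sum_erase_add F z ha]
    ring
  rw [hsum, hsum] at hpair
  refine D3.final_ineq (lam := lam) (lam' := lam') (P := ∑ v, x v * y v)
    (T := x p * ∑ b ∈ F, y b + (∑ a ∈ F, x a) * y p - (x p * (∑ u ∈ F, y u - y a + y b)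
      + (∑ u ∈ F, x u - x a + x b) * y p))
    (x2 := x p) (y2 := y p) (xw := 0) (yw := 0)
    (D := cs x H c Q - cs x H c (c a) + (ta - tb) * x w)
    (D' := cs y H c Q - cs y H c (c a) + (ta - tb) * y w) (b := 0) (p1 := x a - x b)
    (q1 := y a - y b) (p2 := 0) (q2 := 0)
    hle hl'pos (Finset.sum_nonneg fun v _ => mul_nonneg (hx.nn v) (hy.nn v)) hpair ?_ ?_
    le_rfl le_rfl hDx hDy le_rfl ?_ ?_ ?_ ?_ ?_
  · have h1 := (abs_le.mp (hxb.xH p (h.hT hp))).1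
    linarith
  · have h1 := (abs_le.mp (hyb.xH p (h.hT hp))).1
    linarith
  · rw [mul_sub, exa, exb]; ring
  · rw [mul_sub, eya, eyb]; ring
  · ring
  · ring
  · ring

end

end X_FS1

open X_FS1 in
/-- **FS1** -/
theorem x_FS1 : Stmt_FS1 := by
  classical
  intro r hr
  have hrR : (3 : ℝ) ≤ r := by exact_mod_cast hr
  obtain ⟨K, -, hK⟩ := pFLAT r hr
  obtain ⟨δ1, N1, hδ1, -, hE⟩ := hK (1 / 12) (by norm_num)
  obtain ⟨δ2, N2, hδ2, hS⟩ := pSTAR r hr
  obtain ⟨δ3, N3, hδ3, hQ⟩ := blk_EQS pGF pEID pFLAT r hr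
  obtain ⟨δ, hδ0, hd1, hd2, hd3, hd4⟩ : ∃ δ : ℝ, 0 < δ ∧ δ ≤ δ1 / 2 ∧ δ ≤ δ2 ∧ δ ≤ δ3 ∧
      δ ≤ 1 / (4 * (r : ℝ)) := by
    refine ⟨min (δ1 / 2) (min δ2 (min δ3 (1 / (4 * (r : ℝ))))), ?_, min_le_left _ _,
      (min_le_right _ _).trans (min_le_left _ _),
      (min_le_right _ _).trans ((min_le_right _ _).trans (min_le_left _ _)),
      (min_le_right _ _).trans ((min_le_right _ _).trans (min_le_right _ _))⟩
    have hb : (0 : ℝ) < 1 / (4 * r) := by positivity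
    exact lt_min (by linarith) (lt_min hδ2 (lt_min hδ3 hb))
  refine ⟨δ, max (max N1 N2) (max N3 (4 * r)), hδ0, ?_⟩
  intro N hN V _ G c H w T hC h hmx hm4
  have hN1 : N1 ≤ N := (le_max_left _ _).trans ((le_max_left _ _).trans hN)
  have hN2 : N2 ≤ N := (le_max_right _ _).trans ((le_max_left _ _).trans hN)
  have hN3 : N3 ≤ N := (le_max_left _ _).trans ((le_max_right _ _).trans hN)
  have hN4 : 4 * r ≤ N := (le_max_right _ _).trans ((le_max_right _ _).trans hN)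
  have hNc : 4 * (r : ℝ) ≤ N := by exact_mod_cast hN4
  have hNR : (0 : ℝ) < N := by linarith
  have hN0 : 0 < N := by exact_mod_cast hNR
  have hE' : TOPG.FlatC r (2 * δ) N := by
    intro V' _ G' x lam c' H' hC' hx
    obtain ⟨xb, e1, e2, -⟩ := hE N hN1 V' G' x lam c' H' (hC'.mono (by linarith)) hx
    exact ⟨xb, e1, e2⟩
  have hszR : ∀ i, (mis G H c : ℝ) < sz H c i := by
    intro i
    have h7 := (abs_le.mp (hC.bal i)).1
    have h8 := hC.mis
    have h9 : δ * N ≤ 1 / (4 * r) * N := mul_le_mul_of_nonneg_right hd4 hNR.le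
    have e4 : 1 / (4 * (r : ℝ)) * N = N / r / 4 := by field_simp
    have h10 : (4 : ℝ) ≤ N / r := by
      rw [le_div_iff₀ (by linarith)]
      linarith
    linarith
  have hsz : ∀ i, mis G H c < (cl H c i).card := by
    intro i
    have := hszR i
    unfold sz at this
    exact_mod_cast this
  obtain ⟨p, hp, hstar⟩ := hS N hN2 V G c H w T (hC.mono hd2) h hmx hm4
  have hEQ : ∀ k l, k ≠ l → (cl H c k).card ≠ (cl H c l).card := by
    intro k l hkl heq
    exact hQ N hN3 V G c H w T k l (hC.mono hd3) h hmx hm4 hkl heq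
  -- the leaves
  obtain ⟨F, hFdef⟩ : ∃ F : Finset V, F = univ.filter (fun b => FM G H c p b) := ⟨_, rfl⟩
  have hFm : ∀ b, b ∈ F ↔ FM G H c p b := by
    intro b
    rw [hFdef, Finset.mem_filter]
    exact ⟨fun h2 => h2.2, fun h2 => ⟨Finset.mem_univ _, h2⟩⟩
  have hF : ∀ a b, FM G H c a b ↔ (a = p ∧ b ∈ F) ∨ (b = p ∧ a ∈ F) := by
    intro a b
    constructor
    · intro h2
      rcases hstar a b h2 with h3 | h3
      · exact Or.inl ⟨h3, (hFm b).mpr (h3 ▸ h2)⟩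
      · exact Or.inr ⟨h3, (hFm a).mpr (EQS.FM_symm (h3 ▸ h2))⟩
    · rintro (⟨h3, h4⟩ | ⟨h3, h4⟩)
      · rw [h3]; exact (hFm b).mp h4
      · rw [h3]; exact EQS.FM_symm ((hFm a).mp h4)
  have hpF : p ∉ F := fun h2 => ((hFm p).mp h2).2.2.1 rfl
  have hm := star_mis hpF hF
  -- the vertex `q`
  obtain ⟨q, hqT, hqF⟩ : ∃ q, q ∈ T ∧ q ∈ F := by
    obtain ⟨a0, ha0, b0, hb0, hab0, hnab⟩ := h.hF
    have hFM0 : FM G H c a0 b0 :=
      ⟨h.hT ha0, h.hT hb0, fun h2 => hab0 (GF.eqT h.hT1 ha0 hb0 h2), hnab⟩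
    rcases (hF a0 b0).mp hFM0 with h3 | h3
    · exact ⟨b0, hb0, h3.2⟩
    · exact ⟨a0, ha0, h3.2⟩
  have hqM := (hFm q).mp hqF
  -- the largest class
  obtain ⟨Q, hQ1, hQ2⟩ := Finset.exists_max_image (univ.erase (c p)) (fun i => (cl H c i).card)
    ⟨c q, Finset.mem_erase.mpr ⟨hqM.2.2.1.symm, Finset.mem_univ _⟩⟩
  have hQp : Q ≠ c p := (Finset.mem_erase.mp hQ1).1
  have hFQ : ∀ a ∈ F, c a = Q := by
    intro a ha
    by_contra hne
    have h2 : c a ≠ c p := ((hFm a).mp ha).2.2.1.symm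
    have h3 := hQ2 (c a) (Finset.mem_erase.mpr ⟨h2, Finset.mem_univ _⟩)
    have h4 := hEQ (c a) Q hne
    have h5 : (cl H c (c a)).card < (cl H c Q).card := lt_of_le_of_ne h3 h4
    exact core hr hδ0 hE' hC h hmx hsz hp hFm hF hQp ha h5 hN0
  have hqQ := hFQ q hqF
  refine ⟨F, p, q, ⟨h.card, h.hw, h.hT, h.hT1, hp, hqT, hqM.2.2.1, ?_, hqF, ?_⟩, hm.symm, ?_⟩
  · intro a ha
    rw [mem_cl, hqQ]
    exact ⟨((hFm a).mp ha).2.1, hFQ a ha⟩
  · intro a b
    rw [EQS.adj_iff h a b, hF a b, not_or]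
  · intro i hi1 hi2
    rw [hqQ] at hi2 ⊢
    exact lt_of_le_of_ne (hQ2 i (Finset.mem_erase.mpr ⟨hi1, Finset.mem_univ _⟩)) (hEQ i Q hi2)

end Pool.Agent.Work.MP_5532fa_up
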