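import Pool.Agent.Work.MP_5532fa_x.Interface7

/-!
# MP_5532fa_co, block GP6: gadgets for `r = 6`
-/

open Finset

namespace Pool.Agent.Work.MP_5532fa_up

open MP5532fa (specRad qf pE)

namespace X_GP6

/-- gadgets with the right number of edges have the best class sizes -/
private lemma gphi (hCMPG : Stmt_CMPG) (hPHI6 : Stmt_PHI6) : ∃ n0 : ℕ, ∀ n ≥ n0,
    ∀ (V : Type) [Fintype V] (G : SimpleGraph V) (c : V → Fin 6) (H : Finset V) (w : V)
    (A : Finset V) (v1 v2 : V), WD G n H c w A v1 v2 → A.card = 6 → Top H c {c v1, c v2} →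
    MX 6 G → (∀ i, |sz H c i - n / (6 : ℕ)| ≤ 2 * √(n : ℝ)) →
    ∀ (y : Fin 6 → ℕ) (i k : Fin 6), i ≠ k → ∑ l, y l = n →
      ∑ l, y l ^ 2 = ∑ l, (cl H c l).card ^ 2 →
      PhF y i k ≤ PhF (fun l => (cl H c l).card) (c v1) (c v2) := by
  classical
  obtain ⟨C, n1, hC, h1⟩ := hCMPG 6 (by norm_num)
  obtain ⟨n2, h2⟩ := hPHI6 C hC
  refine ⟨max n1 n2, ?_⟩
  intro n hn V _ G c H w A v1 v2 hW hA hTop hMX hdev y i k hik hy1 hy2
  have hn1 : n1 ≤ n := (le_max_left _ _).trans hn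
  have hn2 : n2 ≤ n := (le_max_right _ _).trans hn
  have : Nonempty V := ⟨v1⟩
  obtain ⟨x, hx⟩ := exists_PV G
  obtain ⟨hlam, hcmp⟩ := h1 n hn1 V G x (specRad G) c H w A v1 v2 hW hA hMX hdev hx
  have hsum : ∑ l, (cl H c l).card = n := by
    rw [← hW.card]
    exact sum_card_cl H c
  have hGH : GH 6 C n (specRad G) (fun l => (cl H c l).card) (c v1) (c v2) := by
    refine ⟨hW.h12, hlam, hsum, fun l => hdev l, ?_, hcmp⟩
    intro l hl1 hl2
    have hl : l ∉ ({c v1, c v2} : Finset (Fin 6)) := by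
      rw [mem_insert, mem_singleton]
      rintro (h | h)
      · exact hl1 h
      · exact hl2 h
    exact ⟨hTop (c v1) l (mem_insert_self _ _) hl,
      hTop (c v2) l (mem_insert_of_mem (mem_singleton_self _)) hl⟩
  exact h2 n hn2 (fun l => (cl H c l).card) (c v1) (c v2) (specRad G) hGH y i k hik hy1 hy2

end X_GP6

/-- **GP6** : gadgets for `r = 6` -/
theorem x_GP6 (hCMPG : Stmt_CMPG) (hPHI6 : Stmt_PHI6) : Stmt_GP6 := by
  have hr : 3 ≤ 6 := by norm_num
  obtain ⟨n0, h0⟩ := X_GP6.gphi hCMPG hPHI6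
  refine ⟨n0, ?_⟩
  intro n hn m y c0 V _ G hG hy hdev hk hF
  have hFD : FamD n y G := by
    rcases hF with h | h | h
    · exact h.1
    · exfalso
      have h1 := h.2.1
      rw [hk] at h1
      norm_num at h1
    · exfalso
      have h1 := h.2.1
      rw [hk] at h1
      norm_num at h1
  obtain ⟨H, c, w, A, v1, v2, hW, hcard, _, hT⟩ := hFD
  have hsz : ∀ i, sz H c i = (y i : ℝ) := by
    intro i
    unfold sz
    rw [hcard i]
  have hA : A.card = 6 := by
    have h1 := (pGD 6 hr V G n H c w A v1 v2 hW).2.2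
    rw [hG.2.2.1] at h1
    unfold kk at hk
    simp only [hsz] at h1
    have h2 : (A.card : ℝ) = 6 := by
      push_cast at hk
      linarith only [h1, hk]
    exact_mod_cast h2
  have hdev' : ∀ i, |sz H c i - n / (6 : ℕ)| ≤ 2 * √(n : ℝ) := by
    intro i
    rw [hsz]
    exact hdev i
  exact ⟨H, c, w, A, v1, v2, hW, hA, hT, h0 n hn V G c H w A v1 v2 hW hA hT hG.mx hdev'⟩

end Pool.Agent.Work.MP_5532fa_up
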