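import Pool.Agent.Work.MP_5532fa_x.Interface2

open Finset

namespace Pool.Agent.Work.MP_5532fa_up

open MP5532fa (specRad qf pE)

theorem x_GPHI (hCMPG : Stmt_CMPG) (hPHI : Stmt_PHI) : Stmt_GPHI := by
  classical
  intro r hr
  obtain ⟨C, n1, hC, h1⟩ := hCMPG r (by omega)
  obtain ⟨n2, h2⟩ := hPHI r C hr hC
  refine ⟨max n1 n2, ?_⟩
  intro n hn V _ G c H w A v1 v2 hW hA hTop hMX hdev y i k hik hy1 hy2
  have hn1 : n1 ≤ n := (le_max_left _ _).trans hn
  have hn2 : n2 ≤ n := (le_max_right _ _).trans hn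
  haveI : Nonempty V := ⟨v1⟩
  obtain ⟨x, hx⟩ := exists_PV G
  obtain ⟨hlam, hcmp⟩ := h1 n hn1 V G x (specRad G) c H w A v1 v2 hW hA hMX hdev hx
  have hsum : ∑ l, (cl H c l).card = n := by
    rw [← hW.card]
    exact (card_eq_sum_card_fiberwise (fun a _ => mem_univ (c a))).symm
  have hGH : GH r C n (specRad G) (fun l => (cl H c l).card) (c v1) (c v2) := by
    refine ⟨hW.h12, hlam, hsum, fun l => hdev l, ?_, hcmp⟩
    intro l hl1 hl2
    have hl : l ∉ ({c v1, c v2} : Finset (Fin r)) := by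
      rw [mem_insert, mem_singleton]
      rintro (h | h)
      · exact hl1 h
      · exact hl2 h
    exact ⟨hTop (c v1) l (mem_insert_self _ _) hl,
      hTop (c v2) l (mem_insert_of_mem (mem_singleton_self _)) hl⟩
  exact h2 n hn2 (fun l => (cl H c l).card) (c v1) (c v2) (specRad G) hGH y i k hik hy1 hy2

end Pool.Agent.Work.MP_5532fa_up
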