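import Pool.Agent.Work.MP_5532fa_x.Interface3

/-!
# MP_5532fa_co, sixth round, block GPS: gadgets over almost balanced complete multipartite graphs
-/

open Finset

namespace Pool.Agent.Work.MP_5532fa_up

open MP5532fa (specRad qf pE)

namespace X_GPS

theorem dev_sq {r : ℕ} (hr : 0 < r) (y : Fin r → ℝ) (n : ℝ) (h : ∑ l, y l = n) :
    ∑ l, (y l - n / r) ^ 2 = ∑ l, y l ^ 2 - n ^ 2 / r := by
  have hr' : (r : ℝ) ≠ 0 := by positivity
  have e : ∀ l, (y l - n / r) ^ 2 = y l ^ 2 - 2 * (n / r) * y l + (n / r) ^ 2 := fun l => by ring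
  simp only [e, Finset.sum_add_distrib, Finset.sum_sub_distrib, ← Finset.mul_sum, h,
    Finset.sum_const, Finset.card_univ, Fintype.card_fin, nsmul_eq_mul]
  field_simp
  ring

theorem sum_four {r : ℕ} (d : Fin r → ℝ) (σ : ℝ) (h : ∑ l, d l ^ 2 = σ ^ 2) :
    0 ≤ ∑ l, d l ^ 4 ∧ ∑ l, d l ^ 4 ≤ σ ^ 4 := by
  refine ⟨Finset.sum_nonneg fun l _ => by positivity, ?_⟩
  calc ∑ l, d l ^ 4 ≤ ∑ l, σ ^ 2 * d l ^ 2 := by
        refine Finset.sum_le_sum fun l _ => ?_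
        have h1 : d l ^ 2 ≤ σ ^ 2 := by
          rw [← h]
          exact Finset.single_le_sum (f := fun i => d i ^ 2) (fun i _ => sq_nonneg (d i))
            (mem_univ l)
        have h2 : d l ^ 4 = d l ^ 2 * d l ^ 2 := by ring
        rw [h2]
        exact mul_le_mul_of_nonneg_right h1 (sq_nonneg _)
    _ = σ ^ 4 := by
        rw [← Finset.mul_sum, h]
        ring

theorem phf_sub {r : ℕ} (y z : Fin r → ℕ) (i k i1 i2 : Fin r) :
    PhF y i k - PhF z i1 i2 = (∑ l, (y l : ℝ) ^ 3 - ∑ l, (z l : ℝ) ^ 3)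
      + 2 * (r : ℝ) / ((r : ℝ) - 1) * (((y i : ℝ) + y k) - ((z i1 : ℝ) + z i2)) := by
  unfold PhF
  ring

theorem phf_int {r : ℕ} (hr : 2 ≤ r) (y z : Fin r → ℕ) (i k i1 i2 : Fin r)
    (h : PhF y i k - PhF z i1 i2 < 1 / ((r : ℝ) - 1)) : PhF y i k ≤ PhF z i1 i2 := by
  have hr1 : (0 : ℝ) < (r : ℝ) - 1 := by
    have : (2 : ℝ) ≤ r := by exact_mod_cast hr
    linarith
  obtain ⟨m, hm⟩ : ∃ m : ℤ, ((r : ℝ) - 1) * (PhF y i k - PhF z i1 i2) = m := by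
    refine ⟨((r : ℤ) - 1) * (∑ l, (y l : ℤ) ^ 3 - ∑ l, (z l : ℤ) ^ 3)
      + 2 * (r : ℤ) * (((y i : ℤ) + y k) - ((z i1 : ℤ) + z i2)), ?_⟩
    rw [phf_sub]
    push_cast
    field_simp
  have h1 : (m : ℝ) < 1 := by
    rw [← hm]
    rw [lt_div_iff₀ hr1] at h
    linarith
  have h2 : m ≤ 0 := by
    have : m < 1 := by exact_mod_cast h1
    omega
  have h3 : ((r : ℝ) - 1) * (PhF y i k - PhF z i1 i2) ≤ 0 := by
    rw [hm]
    exact_mod_cast h2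
  by_contra hno
  push Not at hno
  have : 0 < ((r : ℝ) - 1) * (PhF y i k - PhF z i1 i2) := mul_pos hr1 (by linarith)
  linarith

/-- the error terms -/
theorem err {K κ s σ D R : ℝ} (hK : 1 ≤ K) (hs : 1 ≤ s) (hσ : 0 ≤ σ) (hσs : σ ^ 2 ≤ s)
    (hσ4 : σ ^ 4 ≤ κ * s ^ 2) (hD : D ≤ σ ^ 4) (hR : K * κ + 5 * K / s < R) :
    K / s ^ 2 * D + K * ((σ + 1) ^ 2 / s ^ 2 + σ ^ 5 / (s ^ 2) ^ 2) < R := by
  have hs0 : 0 < s := by linarith
  have hK0 : 0 < K := by linarith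
  have a1 : K / s ^ 2 * D ≤ K * κ := by
    have h1 : K / s ^ 2 * D ≤ K / s ^ 2 * (κ * s ^ 2) :=
      mul_le_mul_of_nonneg_left (hD.trans hσ4) (by positivity)
    have h2 : K / s ^ 2 * (κ * s ^ 2) = K * κ := by field_simp
    linarith
  have a2 : (σ + 1) ^ 2 / s ^ 2 ≤ 4 / s := by
    rw [div_le_div_iff₀ (by positivity) hs0]
    have h1 : (σ + 1) ^ 2 ≤ 4 * s := by nlinarith [sq_nonneg (σ - 1)]
    calc (σ + 1) ^ 2 * s ≤ 4 * s * s := mul_le_mul_of_nonneg_right h1 hs0.le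
      _ = 4 * s ^ 2 := by ring
  have hσ1 : σ ≤ s := by nlinarith [sq_nonneg (σ - 1)]
  have a3 : σ ^ 5 / (s ^ 2) ^ 2 ≤ 1 / s := by
    rw [div_le_div_iff₀ (by positivity) hs0]
    have h1 : σ ^ 4 ≤ s ^ 2 := by
      have : σ ^ 4 = (σ ^ 2) ^ 2 := by ring
      rw [this]
      exact pow_le_pow_left₀ (sq_nonneg _) hσs 2
    have h2 : σ ^ 5 ≤ s ^ 2 * s := by
      have : σ ^ 5 = σ ^ 4 * σ := by ring
      rw [this]
      exact mul_le_mul h1 hσ1 hσ (by positivity)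
    calc σ ^ 5 * s ≤ s ^ 2 * s * s := mul_le_mul_of_nonneg_right h2 hs0.le
      _ = 1 * (s ^ 2) ^ 2 := by ring
  have a4 : K * ((σ + 1) ^ 2 / s ^ 2 + σ ^ 5 / (s ^ 2) ^ 2) ≤ K * (4 / s + 1 / s) :=
    mul_le_mul_of_nonneg_left (add_le_add a2 a3) hK0.le
  have a5 : K * (4 / s + 1 / s) = 5 * K / s := by ring
  linarith

end X_GPS

open X_GPS in
theorem x_GPS (hCMPG : Stmt_CMPG) (hEXPG : Stmt_EXPG) : Stmt_GPS := by
  classical
  intro r hr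
  have hr0 : 0 < r := by omega
  have hrr : (3 : ℝ) ≤ r := by exact_mod_cast hr
  obtain ⟨C, n1, hC, h1⟩ := hCMPG r hr
  obtain ⟨K, n2, hK, h2⟩ := hEXPG r C hr hC
  have hK0 : 0 < K := by linarith
  obtain ⟨N3, hN3⟩ := exists_nat_gt ((20 * K * r) ^ 2)
  refine ⟨1 / (4 * K * r), n1 + n2 + N3 + 1, by positivity, ?_⟩
  intro n hn V _ G c H w A v1 v2 hW hA hMX hdev hκ y i k hik hy hy2
  haveI : Nonempty V := ⟨v1⟩
  obtain ⟨x, hx⟩ := exists_PV G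
  obtain ⟨hlam, hcmp⟩ := h1 n (by omega) V G x (specRad G) c H w A v1 v2 hW hA hMX hdev hx
  have hsum : ∑ l, (cl H c l).card = n := by
    rw [← hW.card]
    exact (card_eq_sum_card_fiberwise (fun a _ => mem_univ (c a))).symm
  have hnn : (1 : ℝ) ≤ n := by exact_mod_cast (by omega : 1 ≤ n)
  have hnp : (0 : ℝ) < n := by linarith
  obtain ⟨s, hs0, hs2⟩ : ∃ s : ℝ, 0 ≤ s ∧ s ^ 2 = n :=
    ⟨√(n : ℝ), Real.sqrt_nonneg _, Real.sq_sqrt hnp.le⟩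
  have hs1 : 1 ≤ s := by nlinarith
  have hsp : 0 < s := by linarith
  have hsK : 20 * K * r < s := by
    have h : (20 * K * r) ^ 2 < s ^ 2 := by
      rw [hs2]
      have : (N3 : ℝ) ≤ n := by exact_mod_cast (by omega : N3 ≤ n)
      linarith
    exact lt_of_pow_lt_pow_left₀ 2 hs0 h
  have hzs : ∑ l, ((cl H c l).card : ℝ) = n := by exact_mod_cast hsum
  have hys : ∑ l, (y l : ℝ) = n := by exact_mod_cast hy
  have hy2R : ∑ l, (y l : ℝ) ^ 2 = ∑ l, ((cl H c l).card : ℝ) ^ 2 := by exact_mod_cast hy2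
  obtain ⟨σ, hσ0, hσ⟩ : ∃ σ : ℝ, 0 ≤ σ ∧ ∑ l, (((cl H c l).card : ℝ) - n / r) ^ 2 = σ ^ 2 :=
    ⟨√(∑ l, (((cl H c l).card : ℝ) - n / r) ^ 2), Real.sqrt_nonneg _,
      (Real.sq_sqrt (Finset.sum_nonneg fun l _ => sq_nonneg _)).symm⟩
  have hyσ : ∑ l, ((y l : ℝ) - n / r) ^ 2 = σ ^ 2 := by
    rw [dev_sq hr0 _ _ hys, hy2R, ← dev_sq hr0 _ _ hzs, hσ]
  have hσ4 : σ ^ 4 ≤ 1 / (4 * K * r) * s ^ 2 := by
    have h : (∑ i, (sz H c i - n / r) ^ 2) ^ 2 = σ ^ 4 := by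
      have e : ∑ i, (sz H c i - n / r) ^ 2 = σ ^ 2 := hσ
      rw [e]
      ring
    rw [h, ← hs2] at hκ
    exact hκ
  have hKr : 1 ≤ 4 * K * r := by nlinarith
  have hσs : σ ^ 2 ≤ s := by
    have h3 : (σ ^ 2) ^ 2 ≤ s ^ 2 := by
      have h4 : 1 / (4 * K * r) * s ^ 2 ≤ 1 * s ^ 2 := by
        apply mul_le_mul_of_nonneg_right _ (sq_nonneg _)
        rw [div_le_one (by positivity)]
        exact hKr
      calc (σ ^ 2) ^ 2 = σ ^ 4 := by ring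
        _ ≤ s ^ 2 := by linarith
    exact (abs_le_of_sq_le_sq' h3 hs0).2
  have hσn : σ ^ 2 ≤ C * n := by
    have h3 : s ≤ s ^ 2 := by nlinarith
    have h4 : (n : ℝ) ≤ C * n := by nlinarith
    rw [hs2] at h3
    linarith
  have key := h2 n (by omega) (fun l => (y l : ℝ)) (fun l => ((cl H c l).card : ℝ)) i k (c v1)
    (c v2) (specRad G) σ hlam hys hzs hσ0 hyσ hσ hσn (hcmp y i k hik hy hy2)
  apply phf_int (by omega)
  rw [phf_sub]
  refine lt_of_le_of_lt key ?_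
  have hD : |∑ l, ((y l : ℝ) - n / r) ^ 4 - ∑ l, (((cl H c l).card : ℝ) - n / r) ^ 4| ≤ σ ^ 4 := by
    obtain ⟨a1, a2⟩ := sum_four _ σ hyσ
    obtain ⟨b1, b2⟩ := sum_four _ σ hσ
    rw [abs_le]
    constructor <;> linarith
  have hR : K * (1 / (4 * K * r)) + 5 * K / s < 1 / ((r : ℝ) - 1) := by
    have e1 : K * (1 / (4 * K * r)) = 1 / (4 * r) := by field_simp
    have e2 : 5 * K / s < 1 / (4 * r) := by
      rw [div_lt_div_iff₀ hsp (by positivity)]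
      linarith
    have e3 : 1 / (4 * (r : ℝ)) + 1 / (4 * r) = 1 / (2 * r) := by
      field_simp
      norm_num
    have e4 : 1 / (2 * (r : ℝ)) < 1 / ((r : ℝ) - 1) := by
      apply one_div_lt_one_div_of_lt
      · linarith
      · linarith
    linarith
  have := err (D := |∑ l, ((y l : ℝ) - n / r) ^ 4
    - ∑ l, (((cl H c l).card : ℝ) - n / r) ^ 4|) hK hs1 hσ0 hσs hσ4 hD hR
  rw [hs2] at this
  exact this

end Pool.Agent.Work.MP_5532fa_up
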