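import Pool.Agent.Work.MP_5532fa_x.Interface

/-! # Block GS -/

open Finset

namespace Pool.Agent.Work.MP_5532fa_up

open MP5532fa (specRad qf pE)

namespace X_GS

variable {V : Type} [Fintype V] {r : ℕ} {G : SimpleGraph V} {N : ℕ} {H : Finset V}
    {c : V → Fin r} {w : V} {T L : Finset V} {p q : V}

theorem cL (h : WS G N H c w T L p q) {b : V} (hb : b ∈ L) : b ∈ H ∧ c b = c q :=
  mem_cl.1 (h.hL hb)

theorem pL (h : WS G N H c w T L p q) : p ∉ L := fun hp => h.hpq (cL h hp).2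

theorem ne_w (h : WS G N H c w T L p q) {b : V} (hb : b ∈ H) : b ≠ w := fun e => h.hw (e ▸ hb)

theorem pH (h : WS G N H c w T L p q) : p ∈ H := h.hT h.hp

theorem wf (h : WS G N H c w T L p q) : WF G N H c w T where
  card := h.card
  hw := h.hw
  hT := h.hT
  hT1 := h.hT1
  hF := by
    refine ⟨p, h.hp, q, h.hq, fun e => h.hpq (by rw [e]), ?_⟩
    rw [h.adj]
    rintro (h1 | h1 | h1)
    · exact h1.2.2.2.1 ⟨rfl, h.hqL⟩
    · exact ne_w h (pH h) h1.1
    · exact ne_w h (h.hT h.hq) h1.1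
  sub := by
    intro a b hab
    rcases (h.adj a b).1 hab with h1 | h1 | h1
    · exact Or.inl ⟨h1.1, h1.2.1, h1.2.2.1⟩
    · exact Or.inr (Or.inl h1)
    · exact Or.inr (Or.inr h1)
  hwT := fun b hb => (h.adj w b).2 (Or.inr (Or.inl ⟨rfl, hb⟩))

theorem mis_eq (h : WS G N H c w T L p q) : mis G H c = 2 * L.card := by
  classical
  have h1 : ((H ×ˢ H).filter (fun e => c e.1 ≠ c e.2 ∧ ¬ G.Adj e.1 e.2)) =
      ({p} ×ˢ L) ∪ (L ×ˢ {p}) := by
    ext ⟨a, b⟩
    simp only [Finset.mem_filter, Finset.mem_product, Finset.mem_union, Finset.mem_singleton]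
    constructor
    · rintro ⟨⟨ha, hb⟩, hc, hn⟩
      rw [h.adj] at hn
      by_contra hcon
      apply hn
      refine Or.inl ⟨ha, hb, hc, fun e => hcon (Or.inl e), fun e => hcon (Or.inr ⟨e.2, e.1⟩)⟩
    · rintro (⟨rfl, hb⟩ | ⟨ha, rfl⟩)
      · refine ⟨⟨pH h, (cL h hb).1⟩, ?_, ?_⟩
        · rw [(cL h hb).2]; exact h.hpq
        · rw [h.adj]
          rintro (h1 | h1 | h1)
          · exact h1.2.2.2.1 ⟨rfl, hb⟩
          · exact ne_w h (pH h) h1.1
          · exact ne_w h (cL h hb).1 h1.1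
      · refine ⟨⟨(cL h ha).1, pH h⟩, ?_, ?_⟩
        · rw [(cL h ha).2]; exact h.hpq.symm
        · rw [h.adj]
          rintro (h1 | h1 | h1)
          · exact h1.2.2.2.2 ⟨rfl, ha⟩
          · exact ne_w h (cL h ha).1 h1.1
          · exact ne_w h (pH h) h1.1
  have h2 : mis G H c = (({p} ×ˢ L) ∪ (L ×ˢ {p}) : Finset (V × V)).card := by
    rw [← h1]
    unfold mis
    congr
  rw [h2, Finset.card_union_of_disjoint, Finset.card_product, Finset.card_product,
    Finset.card_singleton]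
  · ring
  · rw [Finset.disjoint_left]
    rintro ⟨a, b⟩ ha hb
    simp only [Finset.mem_product, Finset.mem_singleton] at ha hb
    exact pL h (ha.1 ▸ hb.1)

end X_GS

theorem x_GS : Stmt_GS := by
  intro r hr V _ G N H c w T L p q h
  have hm := X_GS.mis_eq h
  obtain ⟨h1, h2, h3⟩ := pGF r hr V G N H c w T (X_GS.wf h)
  rw [hm] at h2 h3
  refine ⟨X_GS.wf h, hm, h1, h2, ?_⟩
  rw [h3]; push_cast; ring

end Pool.Agent.Work.MP_5532fa_up
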