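import Pool.Agent.Work.MP_5532fa_x.Interface7

/-!
# Block K60 (helper53): `kk = 0` for `r = 6`
-/

set_option autoImplicit false

open Finset

namespace Pool.Agent.Work.MP_5532fa_up

open MP5532fa (specRad qf pE)

namespace X_K60

theorem even_aux {r n : ℕ} {z : Fin r → ℕ} (h : ∑ i, z i = n) :
    ∃ q : ℤ, (n : ℤ) ^ 2 - ∑ i, (z i : ℤ) ^ 2 = 2 * q := by
  have h1 : (n : ℤ) ^ 2 - ∑ i, (z i : ℤ) ^ 2 =
      (n : ℤ) * (n - 1) - ∑ i, (z i : ℤ) * ((z i : ℤ) - 1) := by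
    have e1 : ∑ i, (z i : ℤ) * ((z i : ℤ) - 1) = ∑ i, (z i : ℤ) ^ 2 - ∑ i, (z i : ℤ) := by
      rw [← sum_sub_distrib]
      exact sum_congr rfl fun i _ => by ring
    have e2 : ∑ i, (z i : ℤ) = n := by exact_mod_cast h
    rw [e1, e2]
    ring
  have h2 : Even ((n : ℤ) * (n - 1)) := Int.even_mul_pred_self _
  have h3 : Even (∑ i, (z i : ℤ) * ((z i : ℤ) - 1)) :=
    Finset.even_sum _ fun i _ => Int.even_mul_pred_self _
  obtain ⟨q, hq⟩ := h2.sub h3
  exact ⟨q, by rw [h1, hq]; ring⟩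

theorem kk_int {r n m : ℕ} {z : Fin r → ℕ} (h : ∑ i, z i = n) :
    ∃ k : ℤ, kk m n z = k := by
  obtain ⟨q, hq⟩ := even_aux h
  refine ⟨(m : ℤ) - ((r : ℤ) - 1) - q, ?_⟩
  have h1 : (n : ℝ) ^ 2 - ∑ i, (z i : ℝ) ^ 2 = 2 * (q : ℝ) := by exact_mod_cast hq
  unfold kk
  rw [h1]
  push_cast
  ring

/-- the second moment in terms of `kk` -/
theorem mo2 {r : ℕ} (hr : 3 ≤ r) {m n : ℕ} {y : Fin r → ℕ} (h : ∑ i, y i = n) :
    mo 2 n (re y) = RR r m n + 2 * kk m n y := by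
  have hsum : ∑ i, re y i = (n : ℝ) := by
    unfold re
    exact_mod_cast h
  rw [mo_two hr hsum]
  unfold RR re kk al
  ring

/-- bound for `M34` -/
theorem M34_abs {r : ℕ} (hr : 3 ≤ r) {n : ℕ} (hn : 0 < n) {y : Fin r → ℕ} {R B : ℝ}
    (h : ∑ i, y i = n) (hR : R = mo 2 n (re y)) (hRB : R ≤ B) :
    |M34 n y| ≤ B * √B / n + B ^ 2 / (n : ℝ) ^ 2 := by
  have hrr : (3 : ℝ) ≤ r := by exact_mod_cast hr
  have hr0 : (0 : ℝ) < r := by linarith
  have hn0 : (0 : ℝ) < n := by exact_mod_cast hn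
  have hs : ∑ i, (re y i - (n : ℝ) / r) = 0 := by
    rw [sum_sub_distrib, sum_const, card_univ, Fintype.card_fin, nsmul_eq_mul]
    have : ∑ i, re y i = (n : ℝ) := by
      unfold re
      exact_mod_cast h
    rw [this]
    field_simp
    ring
  obtain ⟨-, -, -, -, c5, c6⟩ := blk_CU1 r hr (fun i => re y i - (n : ℝ) / r) R hs hR.symm
  have hR0 : 0 ≤ R := by
    rw [hR]
    unfold mo
    exact sum_nonneg fun i _ => sq_nonneg _
  have h5 : |mo 3 n (re y)| ≤ R * √R := c5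
  have h6 : mo 4 n (re y) ≤ R ^ 2 := c6
  have h7 : 0 ≤ mo 4 n (re y) := by
    unfold mo
    refine sum_nonneg fun i _ => ?_
    positivity
  have hB0 : 0 ≤ B := hR0.trans hRB
  have h8 : R * √R ≤ B * √B := mul_le_mul hRB (Real.sqrt_le_sqrt hRB) (Real.sqrt_nonneg _) hB0
  have h9 : R ^ 2 ≤ B ^ 2 := pow_le_pow_left₀ hR0 hRB 2
  unfold M34
  refine (abs_sub _ _).trans (add_le_add ?_ ?_)
  · rw [abs_div, abs_of_pos hn0]
    exact div_le_div_of_nonneg_right (h5.trans h8) hn0.le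
  · rw [abs_div, abs_of_nonneg h7, abs_of_pos (by positivity : (0 : ℝ) < (n : ℝ) ^ 2)]
    exact div_le_div_of_nonneg_right (h6.trans h9) (by positivity)

/-- the constant `3 / √20` -/
theorem k3 : 1 / 2 ≤ 3 / √(20 : ℝ) ∧ 3 / √(20 : ℝ) ≤ 1 := by
  have h1 : 3 ≤ √(20 : ℝ) := Real.le_sqrt_of_sq_le (by norm_num)
  have h2 : √(20 : ℝ) ≤ 6 := Real.sqrt_le_iff.2 ⟨by norm_num, by norm_num⟩
  constructor
  · rw [div_le_div_iff₀ (by norm_num) (by linarith)]
    linarith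
  · rw [div_le_one (by linarith)]
    exact h1

theorem cube_sub {a b : ℝ} (hb : 0 ≤ b) (hab : b ≤ a) :
    a ^ 3 - b ^ 3 ≤ 3 / 2 * a * (a ^ 2 - b ^ 2) := by
  have e : 3 / 2 * a * (a ^ 2 - b ^ 2) - (a ^ 3 - b ^ 3) =
      (a - b) * ((a - b) * (a + 2 * b) / 2) := by ring
  have h1 : 0 ≤ (a - b) * ((a - b) * (a + 2 * b) / 2) := by
    refine mul_nonneg (by linarith) (div_nonneg (mul_nonneg (by linarith) (by linarith)) ?_)
    norm_num
  linarith

/-- the costs -/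
theorem cst_bd {k c0 : ℝ} (h : Cst 6 k c0) :
    2 / 5 * |k| ≤ c0 ∧ (1 ≤ k → 8 / 5 * k ≤ c0 ∧ 2 ≤ c0) := by
  rcases h with ⟨h1, h2⟩ | ⟨h1, h2⟩ | ⟨h1, h2⟩
  · rw [abs_of_nonneg h1]
    exact ⟨by linarith, fun h3 => ⟨by linarith, by linarith⟩⟩
  · norm_num at h1 h2
    rw [abs_of_nonneg (by linarith)]
    exact ⟨by linarith, fun h3 => ⟨by linarith, by linarith⟩⟩
  · norm_num at h2
    rw [abs_of_nonpos (by linarith)]
    exact ⟨by linarith, fun h3 => absurd h3 (by linarith)⟩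

/-- `h6` for a different second moment -/
theorem h6_shift {E R0 k τy τ' w : ℝ} (hE : 0 ≤ E) (hEw : E ≤ w) (hτy : 0 ≤ τy)
    (hτ' : 0 ≤ τ') (h1 : τy ^ 2 = τ' ^ 2 + 2 * k) (hτyw : τy ≤ 2 * w) :
    h6 E (R0 + 2 * k) τy ≤ h6 E R0 τ' + 6 * |k| * w := by
  obtain ⟨hk1, hk2⟩ := k3
  unfold h6
  obtain ⟨κ, hκ⟩ : ∃ κ, κ = 3 / √(20 : ℝ) := ⟨_, rfl⟩
  rw [← hκ] at hk1 hk2 ⊢
  rcases le_total 0 k with h0 | h0
  · rw [abs_of_nonneg h0]
    have h2 : τ' ≤ τy := by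
      refine abs_le_of_sq_le_sq' ?_ hτy |>.2
      linarith
    have h3 := cube_sub hτ' h2
    have h4 : 3 / 2 * τy * (τy ^ 2 - τ' ^ 2) = 3 * (τy * k) := by
      rw [h1]
      ring
    have h5 : τy * k ≤ 2 * w * k := mul_le_mul_of_nonneg_right hτyw h0
    have h50 : 0 ≤ τy * k := mul_nonneg hτy h0
    rw [h4] at h3
    have h6 : κ * (τy ^ 3 - τ' ^ 3) ≤ 3 * (2 * w * k) := by
      calc κ * (τy ^ 3 - τ' ^ 3) ≤ κ * (3 * (τy * k)) :=
            mul_le_mul_of_nonneg_left h3 (by linarith)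
        _ ≤ 1 * (3 * (τy * k)) := mul_le_mul_of_nonneg_right hk2 (by linarith)
        _ ≤ 3 * (2 * w * k) := by linarith
    have h7 : 0 ≤ E * k := mul_nonneg hE h0
    have e1 : κ * (τy ^ 3 - τ' ^ 3) = κ * τy ^ 3 - κ * τ' ^ 3 := by ring
    have e2 : 3 / 5 * E * (R0 + 2 * k) = 3 / 5 * E * R0 + 6 / 5 * (E * k) := by ring
    have e3 : 3 * (2 * w * k) = 6 * k * w := by ring
    rw [e1, e3] at h6
    rw [e2]
    linarith
  · rw [abs_of_nonpos h0]
    have h2 : τy ≤ τ' := by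
      refine abs_le_of_sq_le_sq' ?_ hτ' |>.2
      linarith
    have h3 : τy ^ 3 ≤ τ' ^ 3 := pow_le_pow_left₀ hτy h2 3
    have h4 : κ * τy ^ 3 ≤ κ * τ' ^ 3 := mul_le_mul_of_nonneg_left h3 (by linarith)
    have h5 : E * (-k) ≤ w * (-k) := mul_le_mul_of_nonneg_right hEw (by linarith)
    have h50 : 0 ≤ w * (-k) := mul_nonneg (hE.trans hEw) (by linarith)
    have e2 : 3 / 5 * E * (R0 + 2 * k) = 3 / 5 * E * R0 - 6 / 5 * (E * (-k)) := by ring
    have e3 : 6 * -k * w = 6 * (w * (-k)) := by ring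
    rw [e2, e3]
    linarith

/-- first case: the difference of the moments -/
theorem case1 {n w c CC KA R0 D E a3y a3z a4y a4z κ : ℝ} (hw : 1 ≤ w) (hwn : w ^ 2 = n)
    (hc : 4 ≤ c * w) (hE : 0 ≤ E) (hED : E ≤ D) (hDw : D ≤ w) (hDR : D ^ 2 ≤ 5 / 6 * R0)
    (hR0 : 0 ≤ R0) (hCC : 0 ≤ CC)
    (h3 : a3y ≤ a3z + KA * w + CC - c * R0 * (D - E) + 6 * κ * w)
    (h4 : a4z - a4y ≤ 126 / 125 * (D ^ 4 - E ^ 4) + KA * (n * w)) :
    (a3y / n - a4y / n ^ 2) - (a3z / n - a4z / n ^ 2) ≤ (2 * KA + CC + 6 * κ) / w := by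
  have hw0 : 0 < w := by linarith
  have hn0 : 0 < n := by rw [← hwn]; positivity
  have hD : 0 ≤ D := hE.trans hED
  obtain ⟨X, hX⟩ : ∃ X, X = R0 * (D - E) := ⟨_, rfl⟩
  have hX0 : 0 ≤ X := by rw [hX]; exact mul_nonneg hR0 (by linarith)
  have h5 : 126 / 125 * (D ^ 4 - E ^ 4) ≤ 4 * (w * X) := by
    have e1 : D ^ 4 - E ^ 4 = (D - E) * ((D + E) * (D ^ 2 + E ^ 2)) := by ring
    have e2 : (D + E) * (D ^ 2 + E ^ 2) ≤ 2 * D * (2 * D ^ 2) := by
      have h6 : E ^ 2 ≤ D ^ 2 := pow_le_pow_left₀ hE hED 2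
      exact mul_le_mul (by linarith) (by linarith) (by positivity) (by linarith)
    have e3 : 2 * D * (2 * D ^ 2) ≤ 2 * w * (2 * (5 / 6 * R0)) := by
      exact mul_le_mul (by linarith) (by linarith) (by positivity) (by linarith)
    have e4 : D ^ 4 - E ^ 4 ≤ (D - E) * (2 * w * (2 * (5 / 6 * R0))) := by
      rw [e1]
      exact mul_le_mul_of_nonneg_left (e2.trans e3) (by linarith)
    have e5 : (D - E) * (2 * w * (2 * (5 / 6 * R0))) = 10 / 3 * (w * X) := by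
      rw [hX]
      ring
    rw [e5] at e4
    have e6 : 0 ≤ w * X := mul_nonneg hw0.le hX0
    linarith
  have h6 : (a3y / n - a4y / n ^ 2) - (a3z / n - a4z / n ^ 2) =
      (n * (a3y - a3z) + (a4z - a4y)) / n ^ 2 := by
    field_simp
    ring
  rw [h6, div_le_div_iff₀ (by positivity) hw0]
  have h7 : n * (a3y - a3z) ≤ n * (KA * w + CC - c * X + 6 * κ * w) := by
    refine mul_le_mul_of_nonneg_left ?_ hn0.le
    have e7 : c * R0 * (D - E) = c * X := by rw [hX]; ring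
    linarith
  have h8 : n * (a3y - a3z) + (a4z - a4y) ≤
      n * (KA * w + CC - c * X + 6 * κ * w) + 4 * (w * X) + KA * (n * w) := by linarith
  have h9 : n * (KA * w + CC - c * X + 6 * κ * w) + 4 * (w * X) + KA * (n * w) ≤
      (2 * KA + CC + 6 * κ) * w ^ 3 := by
    have e8 : (2 * KA + CC + 6 * κ) * w ^ 3 -
        (n * (KA * w + CC - c * X + 6 * κ * w) + 4 * (w * X) + KA * (n * w)) =
        CC * (w ^ 2 * (w - 1)) + w * X * (c * w - 4) := by
      rw [← hwn]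
      ring
    have e9 : 0 ≤ CC * (w ^ 2 * (w - 1)) :=
      mul_nonneg hCC (mul_nonneg (by positivity) (by linarith))
    have e10 : 0 ≤ w * X * (c * w - 4) := mul_nonneg (mul_nonneg hw0.le hX0) (by linarith)
    linarith
  calc (n * (a3y - a3z) + (a4z - a4y)) * w ≤ (2 * KA + CC + 6 * κ) * w ^ 3 * w :=
        mul_le_mul_of_nonneg_right (h8.trans h9) hw0.le
    _ = (2 * KA + CC + 6 * κ) * n ^ 2 := by
      rw [← hwn]
      ring

/-- second case: the largest class is larger by one -/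
theorem h6_two {D R0 k τy τ w q K : ℝ} (hD : 0 ≤ D) (hDw : D ≤ w) (hDR : D ^ 2 ≤ 5 / 6 * R0)
    (hK : 1 ≤ K) (hk : 1 ≤ k) (hkq : k ≤ K * q) (hq : 1 ≤ q) (hqw : q ^ 2 = w) (hτy : 0 ≤ τy)
    (hτ2 : τy ^ 2 ≤ 2 * k + 6) :
    h6 (D + 1) (R0 + 2 * k) τy ≤
      h6 D R0 τ + (18 / 5 * R0 - 3 / √20 * τ ^ 3) + (7 + (2 * K + 6) ^ 2) * w := by
  obtain ⟨hk1, hk2⟩ := k3
  unfold h6
  obtain ⟨κ, hκ⟩ : ∃ κ, κ = 3 / √(20 : ℝ) := ⟨_, rfl⟩
  rw [← hκ] at hk1 hk2 ⊢
  have hw1 : 1 ≤ w := by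
    rw [← hqw]
    exact one_le_pow₀ hq
  have h1 : τy ^ 2 ≤ (2 * K + 6) * q := by
    have e : (2 * K + 6) * q = 2 * (K * q) + 6 * q := by ring
    rw [e]
    linarith
  have h2 : 1 ≤ (2 * K + 6) * q := by
    have e : (2 * K + 6) * q = 2 * (K * q) + 6 * q := by ring
    rw [e]
    linarith
  have h3 : τy ≤ (2 * K + 6) * q := by
    refine abs_le_of_sq_le_sq' ?_ (by linarith) |>.2
    refine h1.trans ?_
    rw [sq]
    exact le_mul_of_one_le_right (by linarith) h2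
  have h4 : τy ^ 3 ≤ (2 * K + 6) ^ 2 * w := by
    calc τy ^ 3 = τy ^ 2 * τy := by ring
      _ ≤ (2 * K + 6) * q * ((2 * K + 6) * q) := mul_le_mul h1 h3 hτy (by linarith)
      _ = (2 * K + 6) ^ 2 * w := by rw [← hqw]; ring
  have h40 : 0 ≤ τy ^ 3 := by positivity
  have h5 : κ * τy ^ 3 ≤ (2 * K + 6) ^ 2 * w :=
    (mul_le_of_le_one_left h40 hk2).trans h4
  have h7 : 0 ≤ D * k := mul_nonneg hD (by linarith)
  have e1 : 42 / 25 * (D + 1) ^ 3 = 42 / 25 * D ^ 3 + 126 / 25 * D ^ 2 + 126 / 25 * D + 42 / 25 := by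
    ring
  have e2 : 3 / 5 * (D + 1) * (R0 + 2 * k) =
      3 / 5 * D * R0 + 3 / 5 * R0 + 6 / 5 * (D * k) + 6 / 5 * k := by ring
  have e3 : (7 + (2 * K + 6) ^ 2) * w = 7 * w + (2 * K + 6) ^ 2 * w := by ring
  rw [e1, e2, e3]
  linarith

theorem two_small {c0 k δ : ℝ} (h1 : 2 ≤ c0) (h2 : 8 / 5 * k ≤ c0) (hδ : δ ≤ 1 / 20)
    (hk : 1 ≤ k) (h : c0 ≤ 9 / 5 + δ * (1 + k)) : False := by
  have h3 : δ * (1 + k) ≤ 1 / 20 * (1 + k) := mul_le_mul_of_nonneg_right hδ (by linarith)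
  linarith

theorem two_big {c0 k δ g : ℝ} (h1 : 2 ≤ c0) (h2 : 8 / 5 * k ≤ c0) (hδ : δ ≤ 1 / 20)
    (hδ0 : 0 ≤ δ) (hk : k = 1 ∨ 2 ≤ k) (hg : 2 * δ < g) (h : c0 ≤ 2 + δ * (1 + k) - g) :
    False := by
  rcases hk with hk | hk
  · rw [hk] at h
    linarith
  · have h3 : δ * (1 + k) ≤ 1 / 20 * (1 + k) := mul_le_mul_of_nonneg_right hδ (by linarith)
    linarith

/-- second case, first part: everything is small -/
theorem small {n w q Cb My Mz K k c0 : ℝ} (hq : 1 ≤ q) (hqw : q ^ 2 = w) (hwn : w ^ 2 = n)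
    (hCb : 1 ≤ Cb) (hK : 1 ≤ K) (hkq : k ≤ K * q)
    (hMy : |My| ≤ Cb * w * √(Cb * w) / n + (Cb * w) ^ 2 / n ^ 2)
    (hMz : |Mz| ≤ Cb * w * √(Cb * w) / n + (Cb * w) ^ 2 / n ^ 2)
    (hc : c0 ≤ My - Mz + K * (1 + k) / w) (hc2 : 2 ≤ c0)
    (hq2 : 4 * Cb ^ 2 + K * (1 + K) ≤ q) : False := by
  have hw1 : 1 ≤ w := by
    rw [← hqw]
    exact one_le_pow₀ hq
  have hq0 : 0 < q := by linarith
  have hw0 : 0 < w := by linarith
  have h1 : √(Cb * w) ≤ Cb * q := by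
    refine Real.sqrt_le_iff.2 ⟨by positivity, ?_⟩
    rw [mul_pow, hqw]
    refine mul_le_mul_of_nonneg_right ?_ hw0.le
    rw [sq]
    exact le_mul_of_one_le_right (by linarith) hCb
  have h2 : Cb * w * √(Cb * w) / n ≤ Cb ^ 2 / q := by
    have h3 : Cb * w * √(Cb * w) / n ≤ Cb * w * (Cb * q) / n :=
      div_le_div_of_nonneg_right (mul_le_mul_of_nonneg_left h1 (by positivity))
        (by rw [← hwn]; positivity)
    refine h3.trans (le_of_eq ?_)
    rw [← hwn, ← hqw]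
    field_simp
  have h3 : (Cb * w) ^ 2 / n ^ 2 ≤ Cb ^ 2 / q := by
    have e1 : (Cb * w) ^ 2 / n ^ 2 = Cb ^ 2 / w ^ 2 := by
      rw [← hwn]
      field_simp
    rw [e1]
    refine div_le_div_of_nonneg_left (by positivity) hq0 ?_
    have h4 : q ≤ w := by
      rw [← hqw, sq]
      exact le_mul_of_one_le_right hq0.le hq
    have h5 : w ≤ w ^ 2 := by
      rw [sq]
      exact le_mul_of_one_le_right hw0.le hw1
    linarith
  have h4 : K * (1 + k) / w ≤ K * (1 + K) / q := by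
    rw [div_le_div_iff₀ hw0 hq0, ← hqw]
    have h5 : 1 + k ≤ (1 + K) * q := by
      have e : (1 + K) * q = q + K * q := by ring
      rw [e]
      linarith
    have h6 : K * (1 + k) ≤ K * ((1 + K) * q) := mul_le_mul_of_nonneg_left h5 (by linarith)
    calc K * (1 + k) * q ≤ K * ((1 + K) * q) * q := mul_le_mul_of_nonneg_right h6 hq0.le
      _ = K * (1 + K) * q ^ 2 := by ring
  have h5 := (abs_le.1 hMy).2
  have h6 := (abs_le.1 hMz).1
  have h7 : (4 * Cb ^ 2 + K * (1 + K)) / q ≤ 1 := by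
    rw [div_le_one hq0]
    exact hq2
  have e2 : (4 * Cb ^ 2 + K * (1 + K)) / q = 4 * (Cb ^ 2 / q) + K * (1 + K) / q := by ring
  rw [e2] at h7
  linarith

/-- second case, second part: `D` is large -/
theorem large {n w q R0 D k τ K : ℝ} (hq : 100 ≤ q) (hqw : q ^ 2 = w) (hwn : w ^ 2 = n)
    (hK : 1 ≤ K) (hqK : 5 * K ≤ q) (hkq : k ≤ K * q) (hR0 : n / 2 < R0)
    (hRn : R0 ≤ 5 / 9 * n + K * w) (hD : 0 ≤ D) (hRD : R0 ≤ 6 / 5 * (D + 1) ^ 2 + 6)
    (hτ0 : 0 ≤ τ) (hτ : 6 / 5 * (2 * D + 1) - 2 * k ≤ τ ^ 2) :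
    (18 / 5 * R0 - 3 / √20 * τ ^ 3) / n ≤ 2 + 4 * K / w - 1 / (2 * q) := by
  obtain ⟨hk1, -⟩ := k3
  obtain ⟨κ, hκ⟩ : ∃ κ, κ = 3 / √(20 : ℝ) := ⟨_, rfl⟩
  rw [← hκ] at hk1 ⊢
  have hq0 : 0 < q := by linarith
  have hw100 : 100 ≤ w := by
    rw [← hqw, sq]
    have h1 : q * 1 ≤ q * q := mul_le_mul_of_nonneg_left (by linarith) hq0.le
    linarith
  have hw0 : 0 < w := by linarith
  have hn0 : 0 < n := by rw [← hwn]; positivity
  have hDw : 3 / 5 * w ≤ D := by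
    by_contra hcon
    push Not at hcon
    have h1 : (D + 1) ^ 2 ≤ (3 / 5 * w + 1) ^ 2 :=
      pow_le_pow_left₀ (by linarith) (by linarith) 2
    have h2 : (3 / 5 * w + 1) ^ 2 = 9 / 25 * w ^ 2 + 6 / 5 * w + 1 := by ring
    have h3 : 100 * w ≤ w ^ 2 := by
      rw [sq]
      exact mul_le_mul_of_nonneg_right hw100 hw0.le
    rw [h2] at h1
    rw [← hwn] at hR0
    linarith
  have hkw : 2 * k ≤ 2 / 5 * w := by
    have h1 : 5 * K * q ≤ q * q := mul_le_mul_of_nonneg_right hqK hq0.le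
    rw [← hqw, sq]
    linarith
  have hτw : q ^ 2 ≤ τ ^ 2 := by
    rw [hqw]
    linarith
  have hτq : q ≤ τ := by
    refine abs_le_of_sq_le_sq' hτw hτ0 |>.2
  have h3 : q ^ 3 ≤ τ ^ 3 := pow_le_pow_left₀ hq0.le hτq 3
  have h4 : 1 / 2 * q ^ 3 ≤ κ * τ ^ 3 :=
    mul_le_mul hk1 h3 (by positivity) (by linarith)
  have h5 : 18 / 5 * R0 - κ * τ ^ 3 ≤ 2 * n + 4 * K * w - 1 / 2 * q ^ 3 := by
    have h6 : 0 ≤ K * w := by positivity
    linarith
  refine (div_le_div_of_nonneg_right h5 hn0.le).trans (le_of_eq ?_)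
  rw [← hwn, ← hqw]
  field_simp

end X_K60

theorem x_K60 (hK6A : Stmt_K6A) (hK6B : Stmt_K6B) (hK6C : Stmt_K6C) : Stmt_K60 := by
  intro K hK
  obtain ⟨KA, nA, hKA, HA⟩ := hK6A
  obtain ⟨CC, c, hc, hCC, HC⟩ := hK6C
  obtain ⟨C', hC'⟩ : ∃ x : ℝ, x = 2 * KA + CC + 6 + K := ⟨_, rfl⟩
  obtain ⟨Cb, hCb⟩ : ∃ x : ℝ, x = 6 / 5 * (K + 4) ^ 2 + 6 + 2 * K := ⟨_, rfl⟩
  obtain ⟨C2, hC2⟩ : ∃ x : ℝ, x = 4 * Cb ^ 2 + K * (1 + K) := ⟨_, rfl⟩
  obtain ⟨C1, hC1⟩ : ∃ x : ℝ, x = 2 * KA + (7 + (2 * K + 6) ^ 2) + K := ⟨_, rfl⟩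
  obtain ⟨C3, hC3⟩ : ∃ x : ℝ, x = C1 + 4 * K := ⟨_, rfl⟩
  have hC'0 : 0 ≤ C' := by rw [hC']; linarith
  have hCb1 : 1 ≤ Cb := by
    rw [hCb]
    have : 0 ≤ (K + 4) ^ 2 := sq_nonneg _
    linarith
  have hC20 : 0 ≤ C2 := by rw [hC2]; positivity
  have hC10 : 0 ≤ C1 := by rw [hC1]; positivity
  have hC30 : 0 ≤ C3 := by rw [hC3]; linarith
  have hc4 : 0 ≤ 4 / c := by positivity
  obtain ⟨Q, hQ⟩ : ∃ x : ℝ, x = 100 + 4 / c + 5 * C' + C2 + 20 * C3 + 5 * K := ⟨_, rfl⟩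
  obtain ⟨nQ, hnQ⟩ := exists_nat_ge (Q ^ 4)
  refine ⟨nA + nQ + 1, ?_⟩
  intro n hn m y c0 hR6 hRn hsum hkq hcst hopt
  have hn1 : (1 : ℝ) ≤ n := by
    have : 1 ≤ n := by omega
    exact_mod_cast this
  have hn0 : (0 : ℝ) < n := by linarith
  have hQn : Q ^ 4 ≤ n := hnQ.trans (by
    have : nQ ≤ n := by omega
    exact_mod_cast this)
  obtain ⟨w, hw⟩ : ∃ w, w = √(n : ℝ) := ⟨_, rfl⟩
  have hwn : w ^ 2 = n := by rw [hw]; exact Real.sq_sqrt (Nat.cast_nonneg n)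
  have hw0 : 0 < w := by rw [hw]; exact Real.sqrt_pos.2 hn0
  obtain ⟨q, hqd⟩ : ∃ q, q = √w := ⟨_, rfl⟩
  have hqw : q ^ 2 = w := by rw [hqd]; exact Real.sq_sqrt hw0.le
  have hQ0 : 100 ≤ Q := by rw [hQ]; linarith
  have hQq : Q ≤ q := by
    rw [hqd]
    refine Real.le_sqrt_of_sq_le ?_
    rw [hw]
    refine Real.le_sqrt_of_sq_le ?_
    calc (Q ^ 2) ^ 2 = Q ^ 4 := by ring
      _ ≤ (n : ℝ) := hQn
  have hq100 : 100 ≤ q := by linarith
  have hq0 : 0 < q := by linarith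
  have hq1 : 1 ≤ q := by linarith
  have hqw' : q ≤ w := by
    rw [← hqw, sq]
    exact le_mul_of_one_le_right hq0.le hq1
  have hw1 : 1 ≤ w := by linarith
  unfold OptR at hopt
  rw [← hw] at hRn hkq hopt
  rw [← hqd] at hkq
  by_contra hne
  obtain ⟨R0, hR0⟩ : ∃ x, x = RR 6 m n := ⟨_, rfl⟩
  obtain ⟨k, hk⟩ : ∃ x, x = kk m n y := ⟨_, rfl⟩
  obtain ⟨kz, hkz⟩ := X_K60.kk_int (m := m) hsum
  rw [← hk] at hkz hne hkq hcst
  have hk1 : k ≤ -1 ∨ 1 ≤ k := by
    have h1 : kz ≠ 0 := by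
      intro h
      apply hne
      rw [hkz, h]
      norm_num
    rcases lt_or_gt_of_ne h1 with h2 | h2
    · left
      have h3 : kz ≤ -1 := by omega
      rw [hkz]
      exact_mod_cast h3
    · right
      have h3 : 1 ≤ kz := by omega
      rw [hkz]
      exact_mod_cast h3
  have hkabs : 1 ≤ |k| := by
    rcases hk1 with h | h
    · rw [abs_of_nonpos (by linarith)]
      linarith
    · rw [abs_of_nonneg (by linarith)]
      exact h
  rw [← hR0] at hR6 hRn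
  have hRnn : R0 ≤ n := by
    have h1 : 5 * K * w ≤ w * w := by
      refine mul_le_mul_of_nonneg_right ?_ hw0.le
      linarith
    rw [← sq, hwn] at h1
    linarith
  obtain ⟨z, T, D, τ, hzsum, hzdev, hzk, hT, hD0, hτ0, hτ2, hRD, htop, hm3, hm4⟩ :=
    HA n (by omega) m (by rw [← hR0]; exact hR6) (by rw [← hR0]; linarith)
  rw [← hR0] at hτ2 hRD htop hm3
  rw [← hw] at hm3 hm4 hzdev
  have hyR : mo 2 n (re y) = R0 + 2 * k := by
    rw [X_K60.mo2 (m := m) (by norm_num) hsum, hR0, hk]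
  have hzR : mo 2 n (re z) = R0 := by
    rw [X_K60.mo2 (m := m) (by norm_num) hzsum, hzk, hR0]
    ring
  have hR00 : 0 ≤ R0 := by linarith
  -- the condition of optimality
  have hopt1 : c0 ≤ M34 n y - M34 n z + K * (1 + |k|) / w := by
    have h1 := hopt z 0 hzsum hzdev (by rw [hzk, abs_zero]; exact hw0.le)
      (Or.inl ⟨by rw [hzk], by rw [hzk]; norm_num⟩)
    rw [← hk, hzk, abs_zero, add_zero] at h1
    linarith
  obtain ⟨hc1, hc2⟩ := X_K60.cst_bd hcst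
  -- the number D
  have hDR : D ^ 2 ≤ 5 / 6 * R0 := by
    have h1 : 0 ≤ τ ^ 2 := sq_nonneg τ
    linarith
  have hDw : D ≤ w := by
    refine abs_le_of_sq_le_sq' ?_ hw0.le |>.2
    rw [hwn]
    linarith
  -- the largest class
  obtain ⟨i1, -, hi1⟩ := Finset.exists_max_image (Finset.univ : Finset (Fin 6)) (fun i => y i)
    ⟨0, mem_univ _⟩
  obtain ⟨E, hE⟩ : ∃ x : ℝ, x = (y i1 : ℝ) - n / 6 := ⟨_, rfl⟩
  have hsumR : ∑ i, (y i : ℝ) = n := by exact_mod_cast hsum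
  have hE0 : 0 ≤ E := by
    have h1 : ∑ i, (y i : ℝ) ≤ ∑ _i : Fin 6, (y i1 : ℝ) :=
      sum_le_sum fun i _ => by exact_mod_cast hi1 i (mem_univ i)
    rw [hsumR, sum_const, card_univ, Fintype.card_fin, nsmul_eq_mul] at h1
    push_cast at h1
    rw [hE]
    linarith
  obtain ⟨hB1, hB2⟩ := hK6B n (re y) i1 E hsumR (by rw [hE]; rfl)
  rw [hyR] at hB1 hB2
  obtain ⟨τy, hτy⟩ : ∃ x, x = √(R0 + 2 * k - 6 / 5 * E ^ 2) := ⟨_, rfl⟩
  have hτy0 : 0 ≤ τy := by rw [hτy]; exact Real.sqrt_nonneg _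
  have hτy2 : τy ^ 2 = R0 + 2 * k - 6 / 5 * E ^ 2 := by
    rw [hτy]
    exact Real.sq_sqrt hB1
  obtain ⟨hy3, hy4⟩ := hB2 τy hτy0 hτy2
  have hkw : 2 * |k| ≤ w := by
    have h1 : 5 * K * q ≤ q * q := mul_le_mul_of_nonneg_right (by linarith) hq0.le
    rw [← sq, hqw] at h1
    linarith
  have hle := le_abs_self k
  have hwn1 : w ≤ n := by
    rw [← hwn, sq]
    exact le_mul_of_one_le_right hw0.le hw1
  rcases le_or_gt E D with hED | hED
  · -- first case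
    obtain ⟨τ', hτ'⟩ : ∃ x, x = √(R0 - 6 / 5 * E ^ 2) := ⟨_, rfl⟩
    have hτ'0 : 0 ≤ τ' := by rw [hτ']; exact Real.sqrt_nonneg _
    have hE2 : E ^ 2 ≤ D ^ 2 := pow_le_pow_left₀ hE0 hED 2
    have hτ'2 : τ' ^ 2 = R0 - 6 / 5 * E ^ 2 := by
      rw [hτ']
      refine Real.sq_sqrt ?_
      have h1 : 0 ≤ τ ^ 2 := sq_nonneg τ
      linarith
    have hτyw : τy ≤ 2 * w := by
      refine abs_le_of_sq_le_sq' ?_ (by linarith) |>.2
      rw [mul_pow, hwn, hτy2]
      have h1 : 0 ≤ E ^ 2 := sq_nonneg E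
      linarith
    have h1 := X_K60.h6_shift (R0 := R0) (k := k) hE0 (hED.trans hDw) hτy0 hτ'0
      (by rw [hτy2, hτ'2]; ring) hτyw
    have h2 := HC R0 D E τ τ' hE0 hED hτ0 hτ'0 hτ2 hτ'2 hRD
    have hcw : 4 ≤ c * w := by
      have h3 : 4 / c ≤ w := by linarith
      rw [div_le_iff₀ hc] at h3
      linarith
    have h3 := X_K60.case1 (κ := |k|) (a3y := mo 3 n (re y)) (a3z := mo 3 n (re z))
      (a4y := mo 4 n (re y)) (a4z := mo 4 n (re z)) (KA := KA) hw1 hwn hcw hE0 hED hDw hDR hR00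
      (by linarith : 0 ≤ CC) (by linarith) (by
        have e1 : KA * ((n : ℝ) * w) = KA * (n * w) := rfl
        linarith)
    have h4 : M34 n y - M34 n z ≤ (2 * KA + CC + 6 * |k|) / w := h3
    have h5 : c0 ≤ (2 * KA + CC + 6 * |k|) / w + K * (1 + |k|) / w := by linarith
    rw [← add_div, le_div_iff₀ hw0] at h5
    have h6 : 2 / 5 * |k| * w ≤ c0 * w := mul_le_mul_of_nonneg_right hc1 hw0.le
    have h7 : 2 * KA + CC + 6 * |k| + K * (1 + |k|) ≤ C' * (2 * |k|) := by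
      have e1 : C' * (2 * |k|) = (2 * KA + CC) * |k| + (2 * KA + CC) * |k| + 12 * |k|
          + 2 * (K * |k|) := by
        rw [hC']
        ring
      have h8 : 2 * KA + CC ≤ (2 * KA + CC) * |k| :=
        le_mul_of_one_le_right (by linarith) hkabs
      have h9 : K ≤ K * |k| := le_mul_of_one_le_right (by linarith) hkabs
      have h10 : 0 ≤ (2 * KA + CC) * |k| := mul_nonneg (by linarith) (abs_nonneg _)
      rw [e1]
      linarith
    have h8 : |k| * (2 / 5 * w) ≤ |k| * (2 * C') := by linarith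
    have h9 : 2 / 5 * w ≤ 2 * C' := le_of_mul_le_mul_left h8 (by linarith)
    linarith
  · -- second case
    have hk1' : 1 ≤ k := by
      rcases hk1 with h | h
      · exfalso
        have h1 := htop y hsum (by rw [hyR]; linarith) i1
        have h2 : (y i1 : ℝ) ≤ T := by exact_mod_cast h1
        linarith
      · exact h
    have hkk : |k| = k := abs_of_nonneg (by linarith)
    rw [hkk] at hopt1 hkq hkw
    obtain ⟨hc3, hc5⟩ := hc2 hk1'
    rcases le_or_gt D (k + 3) with hDk | hDk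
    · -- everything is small
      have hk4 : (D + 1) ^ 2 ≤ (K + 4) ^ 2 * w := by
        have h1 : D + 1 ≤ (K + 4) * q := by
          have e : (K + 4) * q = K * q + 4 * q := by ring
          rw [e]
          linarith
        calc (D + 1) ^ 2 ≤ ((K + 4) * q) ^ 2 := pow_le_pow_left₀ (by linarith) h1 2
          _ = (K + 4) ^ 2 * w := by rw [← hqw]; ring
      have hKq : K * q ≤ K * w := mul_le_mul_of_nonneg_left hqw' (by linarith)
      have hRb : R0 + 2 * k ≤ Cb * w := by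
        have e : Cb * w = 6 / 5 * ((K + 4) ^ 2 * w) + 6 * w + 2 * (K * w) := by
          rw [hCb]
          ring
        rw [e]
        linarith
      refine X_K60.small (K := K) (k := k) (c0 := c0) hq1 hqw hwn hCb1 hK hkq
        (X_K60.M34_abs (by norm_num) (by omega) hsum hyR.symm hRb)
        (X_K60.M34_abs (by norm_num) (by omega) hzsum hzR.symm (by linarith)) hopt1 hc5 ?_
      linarith
    · -- `D` is large, the difference is one
      have hE1 : T + 1 ≤ y i1 := by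
        by_contra hcon
        push Not at hcon
        have h1 : y i1 ≤ T := by omega
        have h2 : (y i1 : ℝ) ≤ T := by exact_mod_cast h1
        linarith
      have hE2 : y i1 < T + 2 := by
        by_contra hcon
        push Not at hcon
        have h2 : (T : ℝ) + 2 ≤ y i1 := by exact_mod_cast hcon
        have h3 : D + 2 ≤ E := by linarith
        have h4 : (D + 2) ^ 2 ≤ E ^ 2 := pow_le_pow_left₀ (by linarith) h3 2
        have e1 : (D + 2) ^ 2 = D ^ 2 + 4 * D + 4 := by ring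
        have e2 : (D + 1) ^ 2 = D ^ 2 + 2 * D + 1 := by ring
        rw [e1] at h4
        rw [e2] at hRD
        linarith
      have hE3 : y i1 = T + 1 := by omega
      have hE4 : E = D + 1 := by
        rw [hE, hE3]
        push_cast
        linarith
      rw [hE4] at hτy2 hy3 hy4
      have hτyb : τy ^ 2 ≤ 2 * k + 6 := by linarith
      have h1 := X_K60.h6_two (R0 := R0) (τ := τ) hD0 hDw hDR hK hk1' hkq hq1 hqw hτy0 hτyb
      have hτb : 6 / 5 * (2 * D + 1) - 2 * k ≤ τ ^ 2 := by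
        have h2 : 0 ≤ τy ^ 2 := sq_nonneg τy
        have e2 : (D + 1) ^ 2 = D ^ 2 + 2 * D + 1 := by ring
        rw [e2] at hτy2
        linarith
      have hD4 : D ^ 4 ≤ (D + 1) ^ 4 := pow_le_pow_left₀ hD0 (by linarith) 4
      obtain ⟨G, hG⟩ : ∃ x, x = 18 / 5 * R0 - 3 / √20 * τ ^ 3 := ⟨_, rfl⟩
      rw [← hG] at h1
      have h2 : M34 n y - M34 n z ≤ G / n + (2 * KA + (7 + (2 * K + 6) ^ 2)) / w := by
        have h3 : mo 3 n (re y) - mo 3 n (re z) ≤ G + (KA + (7 + (2 * K + 6) ^ 2)) * w := by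
          have e3 : (KA + (7 + (2 * K + 6) ^ 2)) * w = KA * w + (7 + (2 * K + 6) ^ 2) * w := by
            ring
          rw [e3]
          linarith
        have h4 : mo 4 n (re z) - mo 4 n (re y) ≤ KA * (n * w) := by linarith
        have e4 : M34 n y - M34 n z = (mo 3 n (re y) - mo 3 n (re z)) / n
            + (mo 4 n (re z) - mo 4 n (re y)) / (n : ℝ) ^ 2 := by
          unfold M34
          ring
        have h5 : (mo 3 n (re y) - mo 3 n (re z)) / n ≤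
            (G + (KA + (7 + (2 * K + 6) ^ 2)) * w) / n := div_le_div_of_nonneg_right h3 hn0.le
        have h6 : (mo 4 n (re z) - mo 4 n (re y)) / (n : ℝ) ^ 2 ≤ KA * (n * w) / (n : ℝ) ^ 2 :=
          div_le_div_of_nonneg_right h4 (by positivity)
        have e5 : (G + (KA + (7 + (2 * K + 6) ^ 2)) * w) / n =
            G / n + (KA + (7 + (2 * K + 6) ^ 2)) / w := by
          rw [← hwn]
          field_simp
        have e6 : KA * (n * w) / (n : ℝ) ^ 2 = KA / w := by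
          rw [← hwn]
          field_simp
        have e7 : (2 * KA + (7 + (2 * K + 6) ^ 2)) / w =
            (KA + (7 + (2 * K + 6) ^ 2)) / w + KA / w := by
          rw [← add_div, div_left_inj' hw0.ne']
          ring
        rw [e4, e7]
        rw [e5] at h5
        rw [e6] at h6
        linarith
      have hC1w : (2 * KA + (7 + (2 * K + 6) ^ 2)) / w + K * (1 + k) / w ≤
          C1 / w * (1 + k) := by
        have e8 : C1 / w * (1 + k) = (C1 * (1 + k)) / w := by ring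
        rw [e8, ← add_div]
        refine div_le_div_of_nonneg_right ?_ hw0.le
        have e9 : C1 * (1 + k) = (2 * KA + (7 + (2 * K + 6) ^ 2))
            + (2 * KA + (7 + (2 * K + 6) ^ 2)) * k + K * (1 + k) := by
          rw [hC1]
          ring
        have h10 : 0 ≤ (2 * KA + (7 + (2 * K + 6) ^ 2)) * k := by positivity
        rw [e9]
        linarith
      have h3 : c0 ≤ G / n + C1 / w * (1 + k) := by linarith
      have hδ1 : C1 / w ≤ 1 / 20 := by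
        rw [div_le_div_iff₀ hw0 (by norm_num)]
        rw [hC3] at hQ
        linarith
      rcases le_or_gt R0 (n / 2) with hRh | hRh
      · refine X_K60.two_small hc5 hc3 hδ1 hk1' (h3.trans ?_)
        have h4 : G / n ≤ 9 / 5 := by
          rw [div_le_iff₀ hn0, hG]
          have h5 : 0 ≤ 3 / √(20 : ℝ) * τ ^ 3 := by positivity
          linarith
        linarith
      · have h4 := X_K60.large hq100 hqw hwn hK (by linarith) hkq hRh hRn hD0 hRD hτ0 hτb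
        rw [← hG] at h4
        have hδ3 : C3 / w ≤ 1 / 20 := by
          rw [div_le_div_iff₀ hw0 (by norm_num)]
          linarith
        have hk2 : k = 1 ∨ 2 ≤ k := by
          have h5 : (1 : ℤ) ≤ kz := by
            have h6 : (1 : ℝ) ≤ (kz : ℝ) := by rw [← hkz]; exact hk1'
            exact_mod_cast h6
          rcases h5.eq_or_lt with h6 | h6
          · left
            rw [hkz, ← h6]
            norm_num
          · right
            have h7 : (2 : ℤ) ≤ kz := by omega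
            rw [hkz]
            exact_mod_cast h7
        refine X_K60.two_big (δ := C3 / w) (g := 1 / (2 * q)) hc5 hc3 hδ3 (by positivity) hk2 ?_ ?_
        · rw [← mul_div_assoc, div_lt_div_iff₀ hw0 (by positivity), ← hqw]
          have h5 : 4 * C3 < q := by linarith
          have h6 : 4 * C3 * q < q * q := mul_lt_mul_of_pos_right h5 hq0
          calc 2 * C3 * (2 * q) = 4 * C3 * q := by ring
            _ < q * q := h6
            _ = 1 * q ^ 2 := by ring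
        · have e10 : C3 / w * (1 + k) = C1 / w * (1 + k) + 4 * K / w * (1 + k) := by
            rw [hC3]
            ring
          have h11 : 4 * K / w ≤ 4 * K / w * (1 + k) :=
            le_mul_of_one_le_right (by positivity) (by linarith)
          rw [e10]
          linarith

end Pool.Agent.Work.MP_5532fa_up
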