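import Pool.Agent.Work.MP_5532fa_x.Interface7

/-!
# MP_5532fa_co, sixth round: block K6A
-/

open Finset

namespace Pool.Agent.Work.MP_5532fa_up

open MP5532fa (specRad qf pE)

namespace X_K6A

private theorem le_of_sq {a b : ℝ} (hb : 0 ≤ b) (h : a ^ 2 ≤ b ^ 2) : a ≤ b :=
  (abs_le_of_sq_le_sq' h hb).2

private theorem g_bound {a e : ℝ} (h0 : 0 ≤ e) (h1 : e ≤ a) (h2 : a ≤ e + 4) :
    15 / 16 * a ^ 3 - 75 / 4 * a ^ 2 ≤ 15 / 8 * e ^ 3 - 15 / 16 * (e * a ^ 2) := by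
  have ha : 0 ≤ a := by linarith
  have h3 : e * a ≤ a * a := mul_le_mul_of_nonneg_right h1 ha
  have h4 : e ^ 2 ≤ a ^ 2 := pow_le_pow_left₀ h0 h1 2
  have h5 : 0 ≤ (a - e) * (75 / 16 * a ^ 2 -
      (15 / 8 * (a ^ 2 + a * e + e ^ 2) - 15 / 16 * a ^ 2)) :=
    mul_nonneg (by linarith) (by nlinarith)
  have h6 : (a - e) * (75 / 16 * a ^ 2) ≤ 4 * (75 / 16 * a ^ 2) :=
    mul_le_mul_of_nonneg_right (by linarith) (by positivity)
  nlinarith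

private theorem pure (e : Fin 5 → ℝ) (i1 : Fin 5) (D R τ w : ℝ) (h0 : ∑ j, e j = 0)
    (h2 : ∑ j, e j ^ 2 = τ ^ 2) (hτ2 : τ ^ 2 = R - 6 / 5 * D ^ 2) (hD : 0 ≤ D) (hτ : 0 ≤ τ)
    (hw : 1 ≤ w) (hR : R ≤ 2 * w ^ 2) (hR2 : R ≤ 6 / 5 * (D + 1) ^ 2 + 6) (he : 0 ≤ e i1)
    (hT : τ ^ 2 ≤ 5 / 4 * (e i1 + 2) ^ 2 + 5) :
    h6 D R τ - 1000 * w ≤ D ^ 3 + ∑ j, (e j - D / 5) ^ 3 ∧
      D ^ 4 + ∑ j, (e j - D / 5) ^ 4 ≤ 126 / 125 * D ^ 4 + 1000 * (w ^ 2 * w) := by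
  obtain ⟨c1, c2, -, -, c5, c6⟩ := blk_CU1 5 (by norm_num) e (τ ^ 2) h0 h2
  have hw0 : 0 ≤ w := by linarith
  -- bounds for D and tau
  have hDw : D ≤ 2 * w := by
    refine le_of_sq (by linarith) ?_
    have := sq_nonneg τ
    nlinarith
  have hτw : τ ^ 2 ≤ 12 * w := by
    have h3 : τ ^ 2 ≤ 12 / 5 * D + 36 / 5 := by
      rw [hτ2]
      nlinarith
    linarith
  have hτw1 : τ ≤ 12 * w := by
    refine le_of_sq (by linarith) ?_
    have : 12 * w * 1 ≤ 12 * w * (12 * w) := mul_le_mul_of_nonneg_left (by linarith) (by linarith)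
    nlinarith
  -- the third moment of e
  obtain ⟨s, hs⟩ : ∃ s, s = √(4 / 5 : ℝ) := ⟨_, rfl⟩
  have hs0 : 0 < s := by
    rw [hs]
    exact Real.sqrt_pos.mpr (by norm_num)
  have hs2 : s ^ 2 = 4 / 5 := by
    rw [hs]
    exact Real.sq_sqrt (by norm_num)
  have h20 : √20 = 4 / s := by
    rw [Real.sqrt_eq_iff_mul_self_eq (by norm_num) (by positivity)]
    have : 4 / s * (4 / s) = 16 / s ^ 2 := by field_simp; norm_num
    rw [this, hs2]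
    norm_num
  obtain ⟨a, ha⟩ : ∃ a, a = τ * s := ⟨_, rfl⟩
  have ha0 : 0 ≤ a := by
    rw [ha]
    positivity
  have ha2 : a ^ 2 = 4 / 5 * τ ^ 2 := by
    rw [ha, mul_pow, hs2]
    ring
  have ha3 : 3 / √20 * τ ^ 3 = 15 / 16 * a ^ 3 := by
    have : 15 / 16 * a ^ 3 = 15 / 16 * (s ^ 2 * s * τ ^ 3) := by
      rw [ha]
      ring
    rw [h20, this, hs2]
    field_simp
    ring
  have hea : e i1 ≤ a := by
    refine le_of_sq ha0 ?_
    have h3 := c1 i1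
    push_cast at h3
    rw [ha2]
    linarith
  have hae : a ≤ e i1 + 4 := by
    refine le_of_sq (by linarith) ?_
    rw [ha2]
    nlinarith
  have hg := g_bound he hea hae
  have hσ0 : 0 ≤ τ ^ 2 - e i1 ^ 2 * (((5 : ℕ) : ℝ) / (((5 : ℕ) : ℝ) - 1)) := by
    have := c1 i1
    linarith
  obtain ⟨σ, hσ⟩ : ∃ σ, σ = √(τ ^ 2 - e i1 ^ 2 * (((5 : ℕ) : ℝ) / (((5 : ℕ) : ℝ) - 1))) :=
    ⟨_, rfl⟩
  have hσn : 0 ≤ σ := by
    rw [hσ]
    exact Real.sqrt_nonneg _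
  have hσ2 : σ ^ 2 = τ ^ 2 - e i1 ^ 2 * (((5 : ℕ) : ℝ) / (((5 : ℕ) : ℝ) - 1)) := by
    rw [hσ]
    exact Real.sq_sqrt hσ0
  have hc := (c2 i1 σ hσn hσ2).1
  have hσb : σ ^ 2 ≤ 5 * e i1 + 10 := by
    rw [hσ2]
    push_cast
    nlinarith
  have haτ : a ≤ τ := by
    rw [ha]
    have : s ≤ 1 := by
      refine le_of_sq (by norm_num) ?_
      rw [hs2]
      norm_num
    exact mul_le_of_le_one_right hτ this
  have hσb' : σ ^ 2 ≤ 5 * τ + 10 := by linarith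
  have hσ3 : σ ^ 3 ≤ 201 + 50 * τ ^ 2 := by
    have h3 : σ ^ 3 ≤ 1 + σ ^ 2 * σ ^ 2 := by
      rcases le_total σ 1 with h | h
      · have h4 : σ ^ 3 ≤ 1 := pow_le_one₀ hσn h
        have h5 : 0 ≤ σ ^ 2 * σ ^ 2 := by positivity
        linarith
      · have h4 : σ ^ 3 ≤ σ ^ 4 := pow_le_pow_right₀ h (by norm_num)
        have h5 : σ ^ 2 * σ ^ 2 = σ ^ 4 := by ring
        linarith
    have h4 : σ ^ 2 * σ ^ 2 ≤ (5 * τ + 10) * (5 * τ + 10) :=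
      mul_le_mul hσb' hσb' (sq_nonneg σ) (by linarith)
    have h5 : 0 ≤ (5 * τ - 10) ^ 2 := sq_nonneg _
    nlinarith
  have hE3 : 3 / √20 * τ ^ 3 - 65 * τ ^ 2 - 201 ≤ ∑ j, e j ^ 3 := by
    have h3 := (abs_le.mp hc).1
    push_cast at h3
    have h4 : e i1 ^ 3 * (5 * (5 + 1) / (5 - 1) ^ 2) - 3 * e i1 * τ ^ 2 / (5 - 1) =
        15 / 8 * e i1 ^ 3 - 15 / 16 * (e i1 * a ^ 2) := by
      rw [ha2]
      ring
    rw [h4] at h3
    rw [ha3]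
    have h5 : 75 / 4 * a ^ 2 = 15 * τ ^ 2 := by
      rw [ha2]
      ring
    linarith
  constructor
  · have h3 : ∑ j, (e j - D / 5) ^ 3 = ∑ j, e j ^ 3 - 3 / 5 * D * ∑ j, e j ^ 2
        + 3 / 25 * D ^ 2 * ∑ j, e j - D ^ 3 / 25 := by
      rw [Finset.mul_sum, Finset.mul_sum, ← Finset.sum_sub_distrib, ← Finset.sum_add_distrib]
      have h4 : D ^ 3 / 25 = ∑ _j : Fin 5, D ^ 3 / 125 := by
        rw [Finset.sum_const, Finset.card_univ, Fintype.card_fin, nsmul_eq_mul]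
        push_cast
        ring
      rw [h4, ← Finset.sum_sub_distrib]
      exact Finset.sum_congr rfl fun j _ => by ring
    rw [h3, h0, h2, hτ2]
    unfold h6
    have h5 : 65 * τ ^ 2 + 201 ≤ 1000 * w := by linarith
    nlinarith
  · have h3 : ∑ j, (e j - D / 5) ^ 4 = ∑ j, e j ^ 4 - 4 / 5 * D * ∑ j, e j ^ 3
        + 6 / 25 * D ^ 2 * ∑ j, e j ^ 2 - 4 / 125 * D ^ 3 * ∑ j, e j + D ^ 4 / 125 := by
      rw [Finset.mul_sum, Finset.mul_sum, Finset.mul_sum, ← Finset.sum_sub_distrib,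
        ← Finset.sum_add_distrib, ← Finset.sum_sub_distrib]
      have h4 : D ^ 4 / 125 = ∑ _j : Fin 5, D ^ 4 / 625 := by
        rw [Finset.sum_const, Finset.card_univ, Fintype.card_fin, nsmul_eq_mul]
        push_cast
        ring
      rw [h4, ← Finset.sum_add_distrib]
      exact Finset.sum_congr rfl fun j _ => by ring
    rw [h3, h0, h2]
    rw [Real.sqrt_sq hτ] at c5
    have h5 := (abs_le.mp c5).1
    have h6' : -(D * ∑ j, e j ^ 3) ≤ 2 * w * (12 * w * (12 * w)) := by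
      have h7 : -(D * ∑ j, e j ^ 3) = D * (-∑ j, e j ^ 3) := by ring
      rw [h7]
      have h8 : D * (-∑ j, e j ^ 3) ≤ D * (τ ^ 2 * τ) :=
        mul_le_mul_of_nonneg_left (by linarith) hD
      have h9 : τ ^ 2 * τ ≤ 12 * w * (12 * w) := mul_le_mul hτw hτw1 hτ (by linarith)
      have h10 : D * (τ ^ 2 * τ) ≤ 2 * w * (12 * w * (12 * w)) :=
        mul_le_mul hDw h9 (by positivity) (by linarith)
      linarith
    have h7 : D ^ 2 * τ ^ 2 ≤ (2 * w) ^ 2 * (12 * w) :=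
      mul_le_mul (pow_le_pow_left₀ hD hDw 2) hτw (sq_nonneg τ) (sq_nonneg _)
    have h8 : (τ ^ 2) ^ 2 ≤ 144 * w ^ 2 := by
      have := mul_le_mul hτw hτw (sq_nonneg τ) (by linarith)
      nlinarith
    have h9 : w ^ 2 ≤ w ^ 2 * w := le_mul_of_one_le_right (sq_nonneg w) hw
    have h10 : 0 ≤ w ^ 2 * w := by positivity
    have e1 : 2 * w * (12 * w * (12 * w)) = 288 * (w ^ 2 * w) := by ring
    have e2 : (2 * w) ^ 2 * (12 * w) = 48 * (w ^ 2 * w) := by ring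
    rw [e1] at h6'
    rw [e2] at h7
    linarith

end X_K6A

theorem x_K6A (hREPS : Stmt_REPS) (hTNZ1 : Stmt_TNZ1) : Stmt_K6A := by
  refine ⟨1000, 200, by norm_num, ?_⟩
  intro n hn m h0 h2
  have hn1 : 0 < n := by omega
  have hn200 : (200 : ℝ) ≤ n := by exact_mod_cast hn
  have hnB : 2 * ((6 : ℕ) : ℝ) ^ 2 < n := by
    push_cast
    linarith
  have hRR : al 6 * (n : ℝ) ^ 2 - 2 * m + 2 * (((6 : ℕ) : ℝ) - 1) = RR 6 m n := rfl
  have hm : m + 1 ≤ tn 6 n + 6 := by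
    have h3 := (pTN 6 (by norm_num) n).2.1
    have h4 := (abs_le.1 h3).1
    have h5 : (m : ℝ) + 1 ≤ tn 6 n + 6 := by
      have h6' := hRR
      push_cast at h6' h4
      linarith
    exact_mod_cast h5
  obtain ⟨y, i1, hy1, hy2, hy3, hy4⟩ := vecN pREP pTN le_rfl hn1 hnB hm (by rw [hRR]; exact h2)
  rw [hRR] at hy4
  obtain ⟨R, hR⟩ : ∃ R, R = RR 6 m n := ⟨_, rfl⟩
  rw [← hR] at h0 h2 hy4 ⊢
  -- the five other entries
  obtain ⟨v, hv⟩ : ∃ v : Fin 5 → ℤ, ∀ j, v j = (y (i1.succAbove j) : ℤ) := ⟨_, fun _ => rfl⟩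
  have hev : Even (∑ j, v j ^ 2 - ∑ j, v j) := by
    rw [← Finset.sum_sub_distrib]
    refine Finset.even_sum _ fun j _ => ?_
    have h3 : v j ^ 2 - v j = v j * (v j - 1) := by ring
    rw [h3]
    exact Int.even_mul_pred_self (v j)
  obtain ⟨w, k, hw1, hw2, hw3, -, hw5⟩ := hREPS (∑ j, v j) (∑ j, v j ^ 2) ⟨v, rfl, le_rfl⟩ hev
  obtain ⟨μ, hμ⟩ : ∃ μ : ℝ, μ = (∑ j, (w j : ℝ)) / ((5 : ℕ) : ℝ) := ⟨_, rfl⟩
  obtain ⟨t1, t2⟩ := hTNZ1 5 (by norm_num) w k μ (fun z hz1 hz2 i =>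
    hw5 z (by rw [hz1, hw1]) (by rw [← hw2]; exact hz2) i) hw3 hμ
  obtain ⟨T, hT⟩ : ∃ T : ℕ, T = y i1 := ⟨_, rfl⟩
  obtain ⟨D, hD⟩ : ∃ D : ℝ, D = T - n / 6 := ⟨_, rfl⟩
  obtain ⟨q1, q2⟩ := pTNR 6 (by norm_num) n y i1 hy1 hy3
  rw [hy4, ← hT] at q2
  rw [← hT] at q1
  push_cast at q1 q2
  rw [← hD] at q1 q2
  have q3 : R ≤ 6 / 5 * (D + 1) ^ 2 + 6 := by linarith
  -- real sums
  have hs1 : (∑ i, (y i : ℝ)) = n := by exact_mod_cast hy1
  have hs2 : (∑ i, (y i : ℝ)) = T + ∑ j, (w j : ℝ) := by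
    rw [Fin.sum_univ_succAbove _ i1, ← hT]
    congr 1
    have h3 : (∑ j, (w j : ℝ)) = ∑ j, (v j : ℝ) := by exact_mod_cast hw1
    rw [h3]
    refine Finset.sum_congr rfl fun j _ => ?_
    rw [hv]
    simp
  have hs3 : (∑ i, (y i : ℝ) ^ 2) = (T : ℝ) ^ 2 + ∑ j, (w j : ℝ) ^ 2 := by
    rw [Fin.sum_univ_succAbove _ i1, ← hT]
    congr 1
    have h3 : (∑ j, (w j : ℝ) ^ 2) = ∑ j, (v j : ℝ) ^ 2 := by exact_mod_cast hw2
    rw [h3]
    refine Finset.sum_congr rfl fun j _ => ?_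
    rw [hv]
    simp
  have hmo : R = (∑ i, (y i : ℝ) ^ 2) - (n : ℝ) ^ 2 / 6 := by
    have h3 := mo_two (r := 6) (by norm_num) (n := n) (y := re y) hs1
    rw [hy4] at h3
    push_cast at h3
    exact h3
  obtain ⟨e, he⟩ : ∃ e : Fin 5 → ℝ, ∀ j, e j = (w j : ℝ) - μ := ⟨_, fun _ => rfl⟩
  have hμ2 : μ = n / 6 - D / 5 := by
    rw [hμ, hD]
    push_cast
    linarith
  have he0 : ∑ j, e j = 0 := by
    rw [Finset.sum_congr rfl fun j _ => he j, Finset.sum_sub_distrib, Finset.sum_const,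
      Finset.card_univ, Fintype.card_fin, nsmul_eq_mul, hμ]
    push_cast
    ring
  have he2 : ∑ j, e j ^ 2 = R - 6 / 5 * D ^ 2 := by
    have h3 : ∀ j, e j ^ 2 = (w j : ℝ) ^ 2 - 2 * μ * e j - μ ^ 2 := fun j => by
      rw [he]
      ring
    rw [Finset.sum_congr rfl fun j _ => h3 j, Finset.sum_sub_distrib, Finset.sum_sub_distrib,
      ← Finset.mul_sum, he0, Finset.sum_const, Finset.card_univ, Fintype.card_fin, nsmul_eq_mul]
    have h4 : (∑ j, (w j : ℝ) ^ 2) = R + (n : ℝ) ^ 2 / 6 - (T : ℝ) ^ 2 := by linarith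
    have h5 : (T : ℝ) = D + n / 6 := by linarith
    rw [h4, hμ2, h5]
    push_cast
    ring
  have hτ0 : 0 ≤ R - 6 / 5 * D ^ 2 := by
    rw [← he2]
    exact Finset.sum_nonneg fun j _ => sq_nonneg _
  obtain ⟨τ, hτ⟩ : ∃ τ, τ = √(R - 6 / 5 * D ^ 2) := ⟨_, rfl⟩
  have hτn : 0 ≤ τ := by
    rw [hτ]
    exact Real.sqrt_nonneg _
  have hτ2 : τ ^ 2 = R - 6 / 5 * D ^ 2 := by
    rw [hτ]
    exact Real.sq_sqrt hτ0
  have hw0 : 1 ≤ √(n : ℝ) := by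
    refine Real.one_le_sqrt.2 ?_
    linarith
  have hwn : √(n : ℝ) ^ 2 = n := Real.sq_sqrt (Nat.cast_nonneg n)
  obtain ⟨p1, p2⟩ := X_K6A.pure e k D R τ (√(n : ℝ)) he0 (by rw [he2, hτ2]) hτ2 q1 hτn hw0
    (by rw [hwn]; exact h2) q3 (by rw [he]; exact t1) (by
      rw [hτ2, ← he2, he]
      have h3 : ∑ j, e j ^ 2 = ∑ j, ((w j : ℝ) - μ) ^ 2 :=
        Finset.sum_congr rfl fun j _ => by rw [he]
      rw [h3]
      refine t2.trans (le_of_eq ?_)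
      push_cast
      ring)
  rw [hwn] at p2
  -- the moments
  have hdev : ∀ j, (w j : ℝ) - n / 6 = e j - D / 5 := fun j => by
    rw [he, hμ2]
    ring
  have hm2 : D ^ 2 + ∑ j, (e j - D / 5) ^ 2 = R := by
    have h3 : ∀ j, (e j - D / 5) ^ 2 = e j ^ 2 - 2 / 5 * D * e j + D ^ 2 / 25 := fun j => by ring
    rw [Finset.sum_congr rfl fun j _ => h3 j, Finset.sum_add_distrib, Finset.sum_sub_distrib,
      ← Finset.mul_sum, he0, he2, Finset.sum_const, Finset.card_univ, Fintype.card_fin,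
      nsmul_eq_mul]
    push_cast
    ring
  have hpos : ∀ j, 0 ≤ w j := by
    intro j
    by_contra hj
    push Not at hj
    have h3 : (w j : ℝ) < 0 := by exact_mod_cast hj
    have h4 : (e j - D / 5) ^ 2 ≤ ∑ j, (e j - D / 5) ^ 2 :=
      Finset.single_le_sum (f := fun j => (e j - D / 5) ^ 2) (fun _ _ => sq_nonneg _)
        (Finset.mem_univ j)
    have h5 := sq_nonneg D
    rw [← hdev] at h4
    have h6' : (n : ℝ) ^ 2 / 36 ≤ ((w j : ℝ) - n / 6) ^ 2 := by nlinarith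
    nlinarith
  obtain ⟨z, hz⟩ : ∃ z : Fin 6 → ℕ, z = Fin.cons T (fun j => (w j).toNat) := ⟨_, rfl⟩
  have hz0 : z 0 = T := by rw [hz]; rfl
  have hzs : ∀ j : Fin 5, (z j.succ : ℝ) = w j := by
    intro j
    have h3 : z j.succ = (w j).toNat := by rw [hz]; rfl
    rw [h3]
    have h4 : (((w j).toNat : ℕ) : ℤ) = w j := Int.toNat_of_nonneg (hpos j)
    exact_mod_cast h4
  have hmom : ∀ l : ℕ, mo l n (re z) = D ^ l + ∑ j, (e j - D / 5) ^ l := by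
    intro l
    unfold mo re
    rw [Fin.sum_univ_succ, hz0]
    push_cast
    rw [hD]
    congr 1
    refine Finset.sum_congr rfl fun j _ => ?_
    rw [hzs, hdev, hD]
  have hzsum : ∑ i, z i = n := by
    have h3 : (∑ i, (z i : ℝ)) = n := by
      rw [Fin.sum_univ_succ, hz0, ← hs1, hs2]
      congr 1
      exact Finset.sum_congr rfl fun j _ => hzs j
    exact_mod_cast h3
  have hzsq : (∑ i, (z i : ℝ) ^ 2) = ∑ i, (y i : ℝ) ^ 2 := by
    rw [Fin.sum_univ_succ, hz0, hs3]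
    congr 1
    exact Finset.sum_congr rfl fun j _ => by rw [hzs]
  refine ⟨z, T, D, τ, hzsum, fun i => ?_, ?_, by rw [hD]; ring, q1, hτn, hτ2, q3, ?_, ?_, ?_⟩
  · refine abs_le_of_sq_le_sq ?_ (by linarith)
    have h3 : (re z i - (n : ℝ) / (6 : ℕ)) ^ 2 ≤ mo 2 n (re z) := by
      unfold mo
      exact single_le_sum (f := fun i => (re z i - (n : ℝ) / (6 : ℕ)) ^ 2)
        (fun i _ => sq_nonneg _) (mem_univ i)
    have h4 : (re z i - (n : ℝ) / (6 : ℕ)) = (z i : ℝ) - n / (6 : ℕ) := rfl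
    rw [hmom, hm2, h4] at h3
    rw [mul_pow, hwn]
    linarith
  · unfold kk
    rw [hzsq]
    push_cast at hy2 ⊢
    linarith
  · intro y' h3 h4 i
    have h5 : (∑ i, (y' i : ℝ)) = n := by exact_mod_cast h3
    have h6' := mo_two (r := 6) (by norm_num) (n := n) (y := re y') h5
    rw [h6'] at h4
    push_cast at h4
    have h7 : (∑ i, (y' i : ℝ) ^ 2) ≤ ∑ i, (y i : ℝ) ^ 2 := by
      have h8 : (∑ i, re y' i ^ 2) = ∑ i, (y' i : ℝ) ^ 2 := rfl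
      rw [h8] at h4
      linarith
    have h9 := hy3 (fun i => (y' i : ℤ)) (by
      have : ∑ i, y' i = ∑ i, y i := by rw [h3, hy1]
      exact_mod_cast this) (by exact_mod_cast h7) i
    rw [hT]
    exact_mod_cast h9
  · rw [hmom]
    exact p1
  · rw [hmom]
    exact p2

end Pool.Agent.Work.MP_5532fa_up
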