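import Pool.Agent.Work.MP_5532fa_x.Interface7

/-!
# MP_5532fa_co, block K6B: moments of six numbers
-/

open Finset

namespace Pool.Agent.Work.MP_5532fa_up

open MP5532fa (specRad qf pE)

namespace X_K6B

private lemma four {a b c d e s : ℝ} (hs : a + b + c + d + e = -s) :
    s ^ 4 / 125 ≤ a ^ 4 + b ^ 4 + c ^ 4 + d ^ 4 + e ^ 4 := by
  have h1 : s ^ 2 ≤ 5 * (a ^ 2 + b ^ 2 + c ^ 2 + d ^ 2 + e ^ 2) := by
    have h : s = -(a + b + c + d + e) := by linarith
    rw [h]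
    nlinarith [sq_nonneg (a - b), sq_nonneg (a - c), sq_nonneg (a - d), sq_nonneg (a - e),
      sq_nonneg (b - c), sq_nonneg (b - d), sq_nonneg (b - e), sq_nonneg (c - d),
      sq_nonneg (c - e), sq_nonneg (d - e)]
  have h2 : (a ^ 2 + b ^ 2 + c ^ 2 + d ^ 2 + e ^ 2) ^ 2 ≤
      5 * (a ^ 4 + b ^ 4 + c ^ 4 + d ^ 4 + e ^ 4) := by
    nlinarith [sq_nonneg (a ^ 2 - b ^ 2), sq_nonneg (a ^ 2 - c ^ 2), sq_nonneg (a ^ 2 - d ^ 2),
      sq_nonneg (a ^ 2 - e ^ 2), sq_nonneg (b ^ 2 - c ^ 2), sq_nonneg (b ^ 2 - d ^ 2),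
      sq_nonneg (b ^ 2 - e ^ 2), sq_nonneg (c ^ 2 - d ^ 2), sq_nonneg (c ^ 2 - e ^ 2),
      sq_nonneg (d ^ 2 - e ^ 2)]
  have h3 : (s ^ 2) ^ 2 ≤ (5 * (a ^ 2 + b ^ 2 + c ^ 2 + d ^ 2 + e ^ 2)) ^ 2 :=
    pow_le_pow_left₀ (sq_nonneg s) h1 2
  have h4 : s ^ 4 = (s ^ 2) ^ 2 := by ring
  rw [h4]
  linarith [h2, h3]

end X_K6B

/-- **K6B** : moments of six numbers, one of them with deviation `E` -/
theorem x_K6B (hKUB : Stmt_KUB) : Stmt_K6B := by
  intro n y i1 E hy hE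
  -- the other five deviations
  set x : Fin 5 → ℝ := fun j => y (i1.succAbove j) - n / 6 with hx
  set e : Fin 5 → ℝ := fun j => x j + E / 5 with he
  have hcast : ((6 : ℕ) : ℝ) = 6 := by norm_num
  have hmo : ∀ k : ℕ, mo k n y = E ^ k + ∑ j, x j ^ k := by
    intro k
    unfold mo
    rw [Fin.sum_univ_succAbove _ i1, hcast, ← hE]
  have hsx : ∑ j, x j = -E := by
    have h1 : ∑ i, (y i - (n : ℝ) / 6) = 0 := by
      rw [Finset.sum_sub_distrib, hy, Finset.sum_const, Finset.card_univ, Fintype.card_fin,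
        nsmul_eq_mul]
      push_cast
      ring
    rw [Fin.sum_univ_succAbove _ i1, ← hE] at h1
    linarith
  have hse : ∑ j, e j = 0 := by
    simp only [he]
    rw [Finset.sum_add_distrib, hsx, Finset.sum_const, Finset.card_univ, Fintype.card_fin,
      nsmul_eq_mul]
    push_cast
    ring
  have h5 : ∑ j, x j = x 0 + x 1 + x 2 + x 3 + x 4 := by
    rw [Fin.sum_univ_five]
  have hs5 : x 0 + x 1 + x 2 + x 3 + x 4 = -E := by rw [← h5, hsx]
  have he2 : ∑ j, e j ^ 2 = mo 2 n y - 6 / 5 * E ^ 2 := by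
    rw [hmo 2, Fin.sum_univ_five, Fin.sum_univ_five]
    simp only [he]
    linear_combination (2 * E / 5) * hs5
  have he3 : mo 3 n y = 42 / 25 * E ^ 3 - 3 / 5 * E * mo 2 n y + ∑ j, e j ^ 3 := by
    rw [hmo 3, hmo 2, Fin.sum_univ_five, Fin.sum_univ_five, Fin.sum_univ_five]
    simp only [he]
    linear_combination (-(3 * E ^ 2 / 25)) * hs5
  refine ⟨?_, ?_⟩
  · rw [← he2]
    exact Finset.sum_nonneg fun j _ => sq_nonneg _
  · intro τ hτ hτ2
    refine ⟨?_, ?_⟩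
    · have h1 := hKUB 5 (by norm_num) 0 e (by rw [hse]; norm_num)
      have hm : ∀ k : ℕ, mo k 0 e = ∑ j, e j ^ k := by
        intro k
        unfold mo
        refine Finset.sum_congr rfl fun j _ => ?_
        norm_num
      rw [hm 3, hm 2, he2, ← hτ2, Real.sqrt_sq hτ] at h1
      have hk : kap 5 = 3 / √20 := by
        unfold kap
        norm_num
      rw [hk] at h1
      rw [he3]
      unfold h6
      have h2 : 3 / √20 * (τ ^ 2 * τ) = 3 / √20 * τ ^ 3 := by ring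
      rw [h2] at h1
      linarith
    · rw [hmo 4, Fin.sum_univ_five]
      have h1 := X_K6B.four hs5
      linarith

end Pool.Agent.Work.MP_5532fa_up
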