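import Pool.Agent.Work.MP_5532fa_x.Interface7

/-!
# MP_5532fa_co, block K6C: `h6` is increasing in `E`
-/

open Finset

namespace Pool.Agent.Work.MP_5532fa_up

open MP5532fa (specRad qf pE)

namespace X_K6C

private lemma le_sq {x y : ℝ} (h : x ^ 2 ≤ y ^ 2) (hy : 0 ≤ y) : x ≤ y :=
  (le_abs_self x).trans (abs_le_of_sq_le_sq h hy)

private lemma cube_le {τ τ' : ℝ} (h0 : 0 ≤ τ) (h1 : τ ≤ τ') :
    τ' ^ 3 - τ ^ 3 ≤ 3 / 2 * τ' * (τ' ^ 2 - τ ^ 2) := by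
  have h2 : 0 ≤ (τ' - τ) * (τ' - τ) * (τ' / 2 + τ) := by
    apply mul_nonneg (mul_nonneg _ _)
    · linarith
    · linarith
    · linarith
  nlinarith [h2]

/-- the case `E ≥ 9/10 a` -/
private lemma case1 {a D E κ τ τ' : ℝ} (ha : 0 ≤ a) (hκ : 0 ≤ κ) (hκ2 : κ ^ 2 = 9 / 20)
    (hE : 9 / 10 * a ≤ E) (hED : E ≤ D) (hDa : D ≤ a) (h0 : 0 ≤ τ) (h0' : 0 ≤ τ')
    (h1 : τ ^ 2 = 6 / 5 * (a ^ 2 - D ^ 2)) (h2 : τ' ^ 2 = 6 / 5 * (a ^ 2 - E ^ 2)) :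
    42 / 25 * E ^ 3 - 18 / 25 * a ^ 2 * E + κ * τ' ^ 3 + 3 / 125 * a ^ 2 * (D - E)
      ≤ 42 / 25 * D ^ 3 - 18 / 25 * a ^ 2 * D + κ * τ ^ 3 := by
  have hE0 : 0 ≤ E := by linarith
  have hEa : E ≤ a := by linarith
  have hd : 0 ≤ D - E := by linarith
  have hle : τ ≤ τ' := by
    apply le_sq _ h0'
    rw [h1, h2]
    nlinarith
  have hcube := cube_le h0 hle
  have hdiff : τ' ^ 2 - τ ^ 2 = 6 / 5 * ((D - E) * (D + E)) := by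
    rw [h1, h2]
    ring
  -- `κ τ' ≤ 0.3204 a`
  have hE2 : (9 / 10 * a) ^ 2 ≤ E ^ 2 := pow_le_pow_left₀ (by positivity) hE 2
  have ht : κ * τ' ≤ 3204 / 10000 * a := by
    apply le_sq _ (by positivity)
    rw [mul_pow, hκ2, h2]
    nlinarith
  have h3 : κ * (τ' ^ 3 - τ ^ 3) ≤ 3 / 2 * (3204 / 10000 * a) * (6 / 5 * ((D - E) * (2 * a))) := by
    calc κ * (τ' ^ 3 - τ ^ 3) ≤ κ * (3 / 2 * τ' * (τ' ^ 2 - τ ^ 2)) :=
          mul_le_mul_of_nonneg_left hcube hκ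
      _ = 3 / 2 * (κ * τ') * (6 / 5 * ((D - E) * (D + E))) := by
          rw [hdiff]
          ring
      _ ≤ 3 / 2 * (3204 / 10000 * a) * (6 / 5 * ((D - E) * (2 * a))) := by
          apply mul_le_mul
          · linarith
          · have : (D - E) * (D + E) ≤ (D - E) * (2 * a) :=
              mul_le_mul_of_nonneg_left (by linarith) hd
            linarith
          · have : 0 ≤ (D - E) * (D + E) := mul_nonneg hd (by linarith)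
            positivity
          · positivity
  have h4 : 3 * E ^ 2 * (D - E) ≤ D ^ 3 - E ^ 3 := by
    have h5 : 0 ≤ (D - E) * (D - E) * (D + 2 * E) :=
      mul_nonneg (mul_nonneg hd hd) (by linarith)
    nlinarith [h5]
  have h5 : 3 * (9 / 10 * a) ^ 2 * (D - E) ≤ 3 * E ^ 2 * (D - E) :=
    mul_le_mul_of_nonneg_right (by linarith) hd
  have h6 : 0 ≤ a ^ 2 * (D - E) := mul_nonneg (sq_nonneg a) hd
  have h7 : κ * τ' ^ 3 - κ * τ ^ 3 ≤ 3 / 2 * (3204 / 10000 * a) * (6 / 5 * ((D - E) * (2 * a))) := by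
    linarith [h3, mul_sub κ (τ' ^ 3) (τ ^ 3)]
  nlinarith [h7, h4, h5, h6]

/-- the upper bound of `h6` for `E ≤ a` -/
private lemma upper {a E κ τ' : ℝ} (ha : 0 ≤ a) (hκ : 0 ≤ κ) (hκ2 : κ ^ 2 = 9 / 20)
    (hE0 : 0 ≤ E) (hEa : E ≤ a) (h0' : 0 ≤ τ') (h2 : τ' ^ 2 = 6 / 5 * (a ^ 2 - E ^ 2)) :
    42 / 25 * E ^ 3 - 18 / 25 * a ^ 2 * E + κ * τ' ^ 3
      ≤ 9601 / 10000 * a ^ 3 - 7 / 100 * a ^ 2 * (a - E) := by
  have ht : κ * τ' ≤ 73485 / 100000 * a := by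
    apply le_sq _ (by positivity)
    rw [mul_pow, hκ2, h2]
    nlinarith [sq_nonneg E, sq_nonneg a]
  have h3 : κ * τ' ^ 3 ≤ 73485 / 100000 * a * (6 / 5 * (a ^ 2 - E ^ 2)) := by
    have h4 : κ * τ' ^ 3 = κ * τ' * τ' ^ 2 := by ring
    rw [h4, h2]
    apply mul_le_mul_of_nonneg_right ht
    rw [← h2]
    positivity
  -- `f = (1 - x) (0.00818 + 0.79818 x + 1.68 x^2) + 0.0001`
  have h5 : 0 ≤ (a - E) * (818 / 100000 * a ^ 2 + 79818 / 100000 * a * E + 168 / 100 * E ^ 2) := by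
    apply mul_nonneg (by linarith)
    positivity
  have h6 : 0 ≤ a ^ 3 := by positivity
  nlinarith [h3, h5, h6]

/-- the lower bound of `h6` for `a - 2 ≤ D ≤ a` -/
private lemma lower {a D κ τ : ℝ} (ha : 2500 ≤ a) (hκ : 0 ≤ κ) (h0 : 0 ≤ τ) (hD : a - 2 ≤ D) :
    96 / 100 * a ^ 3 - 864 / 100 * a ^ 2
      ≤ 42 / 25 * D ^ 3 - 18 / 25 * a ^ 2 * D + κ * τ ^ 3 := by
  have h1 : 0 ≤ κ * τ ^ 3 := by positivity
  obtain ⟨s, hs⟩ : ∃ s, s = D - (a - 2) := ⟨_, rfl⟩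
  have hs0 : 0 ≤ s := by linarith
  have hDs : D = a - 2 + s := by linarith
  have h2 : 0 ≤ s ^ 3 := by positivity
  have h3 : 0 ≤ s ^ 2 * (a - 2) := mul_nonneg (sq_nonneg s) (by linarith)
  have h4 : 0 ≤ s * (42 / 25 * 3 * (a - 2) ^ 2 - 18 / 25 * a ^ 2) := by
    apply mul_nonneg hs0
    nlinarith
  have h5 : 42 / 25 * D ^ 3 - 18 / 25 * a ^ 2 * D =
      42 / 25 * (a - 2) ^ 3 - 18 / 25 * a ^ 2 * (a - 2) +
        s * (42 / 25 * 3 * (a - 2) ^ 2 - 18 / 25 * a ^ 2) + 42 / 25 * 3 * (s ^ 2 * (a - 2)) +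
        42 / 25 * s ^ 3 := by
    rw [hDs]
    ring
  rw [h5]
  nlinarith [h1, h2, h3, h4]

/-- the case `E < 9/10 a` -/
private lemma case2 {a D E κ τ τ' : ℝ} (ha : 2500 ≤ a) (hκ : 0 ≤ κ) (hκ2 : κ ^ 2 = 9 / 20)
    (hE0 : 0 ≤ E) (hE : E ≤ 9 / 10 * a) (hDa : D ≤ a) (hD : a - 2 ≤ D) (h0 : 0 ≤ τ)
    (h0' : 0 ≤ τ') (h2 : τ' ^ 2 = 6 / 5 * (a ^ 2 - E ^ 2)) :
    42 / 25 * E ^ 3 - 18 / 25 * a ^ 2 * E + κ * τ' ^ 3 + 3 / 125 * a ^ 2 * (D - E)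
      ≤ 42 / 25 * D ^ 3 - 18 / 25 * a ^ 2 * D + κ * τ ^ 3 := by
  have h3 := upper (by linarith) hκ hκ2 hE0 (by linarith) h0' h2
  have h4 := lower (D := D) (τ := τ) ha hκ h0 hD
  have ha2 : 0 ≤ a ^ 2 := sq_nonneg a
  have h5 : 3 / 125 * a ^ 2 * (D - E) ≤ 3 / 125 * a ^ 2 * (a - E) :=
    mul_le_mul_of_nonneg_left (by linarith) (by positivity)
  have h6 : a ^ 2 * (a / 10) ≤ a ^ 2 * (a - E) :=
    mul_le_mul_of_nonneg_left (by linarith) ha2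
  have h7 : a ^ 2 * 2500 ≤ a ^ 2 * a := mul_le_mul_of_nonneg_left ha ha2
  nlinarith [h3, h4, h5, h6, h7]

/-- the case `a ≤ 2500` -/
private lemma case0 {a D E κ τ τ' : ℝ} (ha0 : 0 ≤ a) (ha : a ≤ 2500) (hκ : 0 ≤ κ)
    (hκ2 : κ ^ 2 = 9 / 20) (hE0 : 0 ≤ E) (hED : E ≤ D) (hDa : D ≤ a) (h0 : 0 ≤ τ)
    (h0' : 0 ≤ τ') (h2 : τ' ^ 2 = 6 / 5 * (a ^ 2 - E ^ 2)) :
    42 / 25 * E ^ 3 - 18 / 25 * a ^ 2 * E + κ * τ' ^ 3 + 3 / 125 * a ^ 2 * (D - E)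
      ≤ 42 / 25 * D ^ 3 - 18 / 25 * a ^ 2 * D + κ * τ ^ 3 + 10 ^ 11 := by
  have h3 := upper ha0 hκ hκ2 hE0 (by linarith) h0' h2
  have hD0 : 0 ≤ D := by linarith
  have ha2 : a ^ 2 ≤ 2500 ^ 2 := pow_le_pow_left₀ ha0 ha 2
  have ha3 : a ^ 3 ≤ 2500 ^ 3 := pow_le_pow_left₀ ha0 ha 3
  have h4 : 0 ≤ κ * τ ^ 3 := by positivity
  have h5 : 0 ≤ D ^ 3 := by positivity
  have h6 : a ^ 2 * D ≤ a ^ 2 * a := mul_le_mul_of_nonneg_left hDa (sq_nonneg a)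
  have h7 : a ^ 2 * (D - E) ≤ a ^ 2 * a := mul_le_mul_of_nonneg_left (by linarith) (sq_nonneg a)
  have h8 : 0 ≤ a ^ 2 * (a - E) := mul_nonneg (sq_nonneg a) (by linarith)
  have h9 : a ^ 2 * a = a ^ 3 := by ring
  nlinarith [h3, h4, h5, h6, h7, h8, ha3]

end X_K6C

/-- **K6C** : `h6` is increasing in `E` -/
theorem x_K6C : Stmt_K6C := by
  refine ⟨10 ^ 11, 1 / 50, by norm_num, by norm_num, ?_⟩
  intro R D E τ τ' hE0 hED h0 h0' h1 h2 hR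
  obtain ⟨κ, hκd⟩ : ∃ κ : ℝ, κ = 3 / √20 := ⟨_, rfl⟩
  have hκ : 0 ≤ κ := by
    rw [hκd]
    positivity
  have hκ2 : κ ^ 2 = 9 / 20 := by
    rw [hκd, div_pow, Real.sq_sqrt (by norm_num)]
    norm_num
  have hR0 : 0 ≤ R := by nlinarith [sq_nonneg τ, sq_nonneg D]
  obtain ⟨a, had⟩ : ∃ a : ℝ, a = √(5 / 6 * R) := ⟨_, rfl⟩
  have ha0 : 0 ≤ a := by
    rw [had]
    positivity
  have ha2 : a ^ 2 = 5 / 6 * R := by
    rw [had]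
    exact Real.sq_sqrt (by positivity)
  have hRa : R = 6 / 5 * a ^ 2 := by linarith
  have h1' : τ ^ 2 = 6 / 5 * (a ^ 2 - D ^ 2) := by
    rw [h1, hRa]
    ring
  have h2' : τ' ^ 2 = 6 / 5 * (a ^ 2 - E ^ 2) := by
    rw [h2, hRa]
    ring
  have hDa : D ≤ a := by
    apply X_K6C.le_sq _ ha0
    nlinarith [sq_nonneg τ]
  have hD0 : 0 ≤ D := by linarith
  unfold h6
  rw [← hκd, hRa]
  have hgoal : 42 / 25 * E ^ 3 - 18 / 25 * a ^ 2 * E + κ * τ' ^ 3 + 3 / 125 * a ^ 2 * (D - E)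
      ≤ 42 / 25 * D ^ 3 - 18 / 25 * a ^ 2 * D + κ * τ ^ 3 + 10 ^ 11 := by
    rcases le_total a 2500 with ha | ha
    · exact X_K6C.case0 ha0 ha hκ hκ2 hE0 hED hDa h0 h0' h2'
    · have hD : a - 2 ≤ D := by
        have h3 : a ^ 2 ≤ (D + 1) ^ 2 + 5 := by
          rw [hRa] at hR
          linarith
        have h4 : (a - 1) ^ 2 ≤ (D + 1) ^ 2 := by nlinarith
        have h5 := X_K6C.le_sq h4 (by linarith)
        linarith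
      rcases le_total (9 / 10 * a) E with hE | hE
      · have := X_K6C.case1 ha0 hκ hκ2 hE hED hDa h0 h0' h1' h2'
        linarith
      · have := X_K6C.case2 ha hκ hκ2 hE0 hE hDa hD h0 h0' h2'
        linarith
  nlinarith [hgoal]

end Pool.Agent.Work.MP_5532fa_up
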