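import Pool.Agent.Work.MP_5532fa_x.Interface4

/-! # Block KBD -/

open Finset

namespace Pool.Agent.Work.MP_5532fa_up

open MP5532fa (specRad qf pE)

namespace X_KBD

theorem kk_int {r : ℕ} (m n : ℕ) (z : Fin r → ℕ) (hz : ∑ i, z i = n) :
    ∃ k : ℤ, kk m n z = k := by
  have h1 : Even ((n : ℤ) ^ 2 - ∑ i, (z i : ℤ) ^ 2) := by
    have h2 : (n : ℤ) ^ 2 - ∑ i, (z i : ℤ) ^ 2 =
        (n : ℤ) * (n - 1) - ∑ i, (z i : ℤ) * (z i - 1) := by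
      have h3 : (n : ℤ) = ∑ i, (z i : ℤ) := by rw [← hz]; push_cast; rfl
      have h4 : ∑ i, (z i : ℤ) * (z i - 1) = ∑ i, (z i : ℤ) ^ 2 - ∑ i, (z i : ℤ) := by
        rw [← Finset.sum_sub_distrib]
        exact Finset.sum_congr rfl fun i _ => by ring
      rw [h4, ← h3]; ring
    rw [h2]
    refine (Int.even_mul_pred_self _).sub ?_
    exact Finset.even_sum _ fun i _ => Int.even_mul_pred_self _
  obtain ⟨q, hq⟩ := h1
  refine ⟨m - (r - 1) - q, ?_⟩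
  have hq' : (n : ℝ) ^ 2 - ∑ i, (z i : ℝ) ^ 2 = q + q := by exact_mod_cast hq
  unfold kk
  rw [hq']
  push_cast
  ring

theorem ge_cost {r : ℕ} (hr : 3 ≤ r) {V : Type} [Fintype V] {m n : ℕ} {y : Fin r → ℕ}
    {G : SimpleGraph V} {c : ℝ} (h : FormC m n y G c) : 2 * |kk m n y| / ((r : ℝ) - 1) ≤ c := by
  have h3 : (3 : ℝ) ≤ r := by exact_mod_cast hr
  have h2 : (0 : ℝ) < (r : ℝ) - 1 := by linarith
  rcases h with ⟨-, h0, rfl⟩ | ⟨-, h0, rfl⟩ | ⟨-, h0, rfl⟩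
  · rw [abs_of_nonneg h0, div_le_iff₀ h2]
    nlinarith
  · have hk : 0 ≤ kk m n y := by linarith
    rw [abs_of_nonneg hk, div_le_iff₀ h2]
    have e : (2 * kk m n y - 2 - 2 / ((r : ℝ) - 1)) * ((r : ℝ) - 1) =
        (2 * kk m n y - 2) * ((r : ℝ) - 1) - 2 := by
      field_simp
    rw [e]
    nlinarith
  · rw [abs_of_nonpos (by linarith)]
    have : -(2 * kk m n y / ((r : ℝ) - 1)) = 2 * -kk m n y / ((r : ℝ) - 1) := by ring
    rw [this]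

theorem cst {r : ℕ} (hr : 3 ≤ r) {k : ℤ} : ∃ c' : ℝ, Cst r k c' ∧ c' ≤ 2 * |(k : ℝ)| := by
  have h3 : (3 : ℝ) ≤ r := by exact_mod_cast hr
  have h2 : (0 : ℝ) < (r : ℝ) - 1 := by linarith
  rcases le_or_gt 0 k with h | h
  · have h' : (0 : ℝ) ≤ k := by exact_mod_cast h
    exact ⟨2 * k, Or.inl ⟨h', rfl⟩, by rw [abs_of_nonneg h']⟩
  · have h' : (k : ℝ) ≤ -1 := by exact_mod_cast (by omega : k ≤ -1)
    refine ⟨-(2 * k / ((r : ℝ) - 1)), Or.inr (Or.inr ⟨h', rfl⟩), ?_⟩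
    rw [abs_of_nonpos (by linarith)]
    have : -(2 * (k : ℝ) / ((r : ℝ) - 1)) = 2 * -(k : ℝ) / ((r : ℝ) - 1) := by ring
    rw [this, div_le_iff₀ h2]
    nlinarith

/-- the final computation -/
theorem fin_ineq {r K1 X Y c0 c' sn qn : ℝ} (hr : 3 ≤ r) (hK : 1 ≤ K1) (hX : 0 ≤ X)
    (hY : Y ≤ K1 * qn) (hqn : 1 ≤ qn) (hsn : 2 * r * K1 ≤ sn)
    (h1 : 2 * X / (r - 1) ≤ c0) (h2 : c' ≤ 2 * Y)
    (h3 : c0 ≤ c' + K1 * (1 + X / sn) + 1 / (2 * r) * (1 + X + Y)) :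
    X ≤ 5 * r * K1 * qn := by
  have hr0 : 0 < r := by linarith
  have hr1 : 0 < r - 1 := by linarith
  have hs0 : 0 < sn := by nlinarith
  have h4 : 2 * X / r ≤ 2 * X / (r - 1) :=
    div_le_div_of_nonneg_left (by linarith) hr1 (by linarith)
  have h5 : K1 * (X / sn) ≤ X / (2 * r) := by
    rw [← mul_div_assoc, div_le_div_iff₀ hs0 (by linarith)]
    nlinarith
  have h6 : 2 * X / r = 4 * (X / (2 * r)) := by field_simp; ring
  have h7 : 1 / (2 * r) * (1 + X + Y) = X / (2 * r) + (1 + Y) / (2 * r) := by field_simp; ring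
  have h8 : (1 + Y) / (2 * r) ≤ (1 + K1 * qn) / (2 * r) := by
    apply div_le_div_of_nonneg_right (by linarith) (by linarith)
  have h9 : (1 + K1 * qn) / (2 * r) ≤ 1 + K1 * qn := by
    rw [div_le_iff₀ (by linarith)]
    have : 0 ≤ 1 + K1 * qn := by positivity
    nlinarith
  have h10 : 2 * (X / (2 * r)) ≤ 2 * (K1 * qn) + K1 + (1 + K1 * qn) := by
    rw [h6] at h4
    rw [h7] at h3
    have : K1 * (1 + X / sn) = K1 + K1 * (X / sn) := by ring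
    rw [this] at h3
    linarith
  have h11 : 2 * (X / (2 * r)) = X / r := by field_simp
  rw [h11, div_le_iff₀ hr0] at h10
  have h12 : K1 ≤ K1 * qn := le_mul_of_one_le_right (by linarith) hqn
  have h13 : 2 * (K1 * qn) + K1 + (1 + K1 * qn) ≤ 5 * (K1 * qn) := by nlinarith
  calc X ≤ (2 * (K1 * qn) + K1 + (1 + K1 * qn)) * r := h10
    _ ≤ 5 * (K1 * qn) * r := mul_le_mul_of_nonneg_right h13 hr0.le
    _ = 5 * r * K1 * qn := by ring

end X_KBD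

open X_KBD in
theorem x_KBD (hRULEC : Stmt_RULEC) (hCND : Stmt_CND) : Stmt_KBD := by
  intro r hr
  have h3 : (3 : ℝ) ≤ r := by exact_mod_cast hr
  have hr0 : (0 : ℝ) < r := by linarith
  obtain ⟨δ, n1, hδ, hR⟩ := hRULEC r (1 / (2 * r)) hr (by positivity)
  obtain ⟨K1, n2, hK1, hC⟩ := hCND r hr
  have hK0 : 0 < K1 := by linarith
  refine ⟨δ, 5 * r * K1, max (max n1 n2) (max 1 (max ⌈(2 * r * K1) ^ 2⌉₊ ⌈(K1 / δ) ^ 2⌉₊)), hδ,
    by nlinarith, ?_⟩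
  intro n hn m V _ G c H hC0 hsz hExt hR0 hR1
  have hn1 : n1 ≤ n := le_trans (le_trans (le_max_left _ _) (le_max_left _ _)) hn
  have hn2 : n2 ≤ n := le_trans (le_trans (le_max_right _ _) (le_max_left _ _)) hn
  have hn3 : max 1 (max ⌈(2 * r * K1) ^ 2⌉₊ ⌈(K1 / δ) ^ 2⌉₊) ≤ n := (le_max_right _ _).trans hn
  have hn4 : 1 ≤ n := (le_max_left _ _).trans hn3
  have hn5 : ⌈(2 * r * K1) ^ 2⌉₊ ≤ n :=
    ((le_max_left _ _).trans (le_max_right _ _)).trans hn3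
  have hn6 : ⌈(K1 / δ) ^ 2⌉₊ ≤ n :=
    ((le_max_right _ _).trans (le_max_right _ _)).trans hn3
  have hnR : (1 : ℝ) ≤ n := by exact_mod_cast hn4
  have h5 : (2 * r * K1) ^ 2 ≤ (n : ℝ) := Nat.ceil_le.1 hn5
  have h6 : (K1 / δ) ^ 2 ≤ (n : ℝ) := Nat.ceil_le.1 hn6
  have hs5 : 2 * r * K1 ≤ √(n : ℝ) := Real.le_sqrt_of_sq_le h5
  have hs6 : K1 / δ ≤ √(n : ℝ) := Real.le_sqrt_of_sq_le h6
  have hs1 : 1 ≤ √(n : ℝ) := Real.one_le_sqrt.2 hnR
  have hq1 : 1 ≤ √(√(n : ℝ)) := Real.one_le_sqrt.2 hs1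
  have hqs : √(√(n : ℝ)) ≤ √(n : ℝ) := by
    rw [Real.sqrt_le_left (by linarith)]
    nlinarith
  obtain ⟨c0, hk0, hF, hO⟩ := hR n hn1 m V G c H hC0 hsz hExt
  obtain ⟨z, hz1, hz2, hz3, hz4⟩ := hC n hn2 m hR0 hR1
  obtain ⟨k, hk⟩ := kk_int m n z hz1
  obtain ⟨c', hc1, hc2⟩ := cst hr (k := k)
  refine ⟨c0, ?_, hF⟩
  set y : Fin r → ℕ := fun i => (cl H c i).card with hy
  have hysum : ∑ i, y i = n := by rw [hy]; exact (sum_card_cl H c).trans hC0.card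
  have hkn : |kk m n y| ≤ n := by
    refine hk0.trans ?_
    have h7 : 1 / (2 * (r : ℝ)) ≤ 1 := by
      rw [div_le_one (by linarith)]; linarith
    have := mul_le_mul_of_nonneg_right h7 (by linarith : (0 : ℝ) ≤ n)
    linarith
  have hzn : |kk m n z| ≤ δ * n := by
    refine hz3.trans ?_
    have h7 : K1 ≤ δ * √(n : ℝ) := by
      rw [div_le_iff₀ hδ] at hs6
      linarith
    have h8 : √(n : ℝ) * √(n : ℝ) = n := Real.mul_self_sqrt (by linarith)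
    calc K1 * √(√(n : ℝ)) ≤ K1 * √(n : ℝ) := mul_le_mul_of_nonneg_left hqs hK0.le
      _ ≤ δ * √(n : ℝ) * √(n : ℝ) := mul_le_mul_of_nonneg_right h7 (by linarith)
      _ = δ * n := by rw [mul_assoc, h8]
  have hopt := hO z c' hz1 hz2 hzn (by rw [hk]; exact hc1)
  have hM := hz4 y hysum hkn
  rw [← hk] at hc2
  exact fin_ineq h3 hK1 (abs_nonneg _) hz3 hq1 hs5 (ge_cost hr hF) hc2 (by linarith)

end Pool.Agent.Work.MP_5532fa_up
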