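import Pool.Agent.Work.MP_5532fa_x.Interface6

/-!
# MP_5532fa_co, sixth round: block KUB
-/

open Finset

namespace Pool.Agent.Work.MP_5532fa_up

theorem x_KUB : Stmt_KUB := by
  intro r hr n y hy
  have hr3 : (3 : ℝ) ≤ r := by exact_mod_cast hr
  have hr0 : (0 : ℝ) < r := by linarith
  have hr1 : (0 : ℝ) < (r : ℝ) - 1 := by linarith
  have hs : ∑ i, (y i - n / r) = 0 := by
    rw [Finset.sum_sub_distrib, hy, Finset.sum_const, Finset.card_univ, Fintype.card_fin,
      nsmul_eq_mul]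
    field_simp
    ring
  obtain ⟨c1, -, -, c4, c5, -⟩ := blk_CU1 r hr (fun i => y i - n / r) (mo 2 n y) hs rfl
  have hR0 : 0 ≤ mo 2 n y := Finset.sum_nonneg fun i _ => sq_nonneg _
  rcases hR0.eq_or_lt with h0 | h0
  · have h1 := le_trans (le_abs_self _) c5
    rw [← h0] at h1 ⊢
    rw [zero_mul] at h1
    rw [zero_mul, mul_zero]
    exact h1
  · obtain ⟨u, hu⟩ : ∃ u, u = √(mo 2 n y) := ⟨_, rfl⟩
    have hu0 : 0 < u := by
      rw [hu]
      exact Real.sqrt_pos.mpr h0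
    have hu2 : mo 2 n y = u ^ 2 := by
      rw [hu, Real.sq_sqrt hR0]
    obtain ⟨t, ht⟩ : ∃ t, t = √(((r : ℝ) - 1) / r) := ⟨_, rfl⟩
    have ht0 : 0 < t := by
      rw [ht]
      exact Real.sqrt_pos.mpr (div_pos hr1 hr0)
    have ht2 : t ^ 2 = ((r : ℝ) - 1) / r := by
      rw [ht, Real.sq_sqrt (div_pos hr1 hr0).le]
    have hrt : √((r : ℝ) * ((r : ℝ) - 1)) = r * t := by
      rw [Real.sqrt_eq_iff_mul_self_eq (mul_pos hr0 hr1).le (mul_pos hr0 ht0).le]
      have : (r : ℝ) * t * (r * t) = r ^ 2 * t ^ 2 := by ring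
      rw [this, ht2]
      field_simp
    have hD : ∀ i, y i - n / r ≤ u * t := by
      intro i
      refine le_of_abs_le (abs_le_of_sq_le_sq ?_ (mul_pos hu0 ht0).le)
      have h1 := c1 i
      have h2 : (u * t) ^ 2 = mo 2 n y * (((r : ℝ) - 1) / r) := by
        rw [mul_pow, ht2, hu2]
      rw [h2, mul_div_assoc', le_div_iff₀ hr0]
      have h3 : (y i - n / r) ^ 2 * ((r : ℝ) / (r - 1)) * (r - 1) ≤ mo 2 n y * (r - 1) :=
        mul_le_mul_of_nonneg_right h1 hr1.le
      have h4 : (y i - n / r) ^ 2 * ((r : ℝ) / (r - 1)) * (r - 1) = (y i - n / r) ^ 2 * r := by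
        field_simp
      rw [h4] at h3
      exact h3
    have h1 := c4 (u * t) (mul_pos hu0 ht0) hD
    have h2 : u * t * mo 2 n y - mo 2 n y ^ 2 / (r * (u * t)) =
        kap r * (mo 2 n y * √(mo 2 n y)) := by
      rw [← hu, hu2, kap, hrt]
      have h5 : (r : ℝ) * t ^ 2 = r - 1 := by
        rw [ht2]
        field_simp
      have h6 : u * t * u ^ 2 - (u ^ 2) ^ 2 / (r * (u * t)) =
          ((r * t ^ 2) - 1) / (r * t) * (u ^ 2 * u) := by
        field_simp
      rw [h6, h5]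
      ring
    rw [← h2]
    exact h1

end Pool.Agent.Work.MP_5532fa_up
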