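import Pool.Agent.Work.MP_5532fa_x.Interface6

/-! # MP_5532fa_co, block LGX: spectral radius of the graphs of the three forms -/

open Finset

namespace Pool.Agent.Work.MP_5532fa_up

open MP5532fa (specRad qf pE)

namespace X_LGX

theorem kk_eq {r n m : ℕ} {y : Fin r → ℕ} {s : ℝ}
    (h : 2 * (m : ℝ) = (n : ℝ) ^ 2 - ∑ i, (y i : ℝ) ^ 2 + 2 * s) :
    kk m n y = s - ((r : ℝ) - 1) := by
  unfold kk
  linarith

theorem sz_re {V : Type} {r : ℕ} {H : Finset V} {c : V → Fin r} {y : Fin r → ℕ}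
    (h : ∀ i, (cl H c i).card = y i) : sz H c = re y := by
  funext i
  unfold sz re
  rw [h i]

theorem up {r K s P μ E κ : ℝ} (hs : 1 ≤ s) (hK : 1 ≤ K) (hμ0 : 0 ≤ μ) (hE0 : 0 ≤ E)
    (hμ : μ ≤ 2 * (1 + κ)) (h : |P - μ| ≤ K * (μ + E) / s)
    (hμE : μ + E ≤ (r + 2) * (1 + κ)) : |P| ≤ (2 + K * (r + 2)) * (1 + κ) := by
  have h1 : K * (μ + E) / s ≤ K * (μ + E) := by
    apply div_le_self _ hs
    positivity
  have h2 : K * (μ + E) ≤ K * ((r + 2) * (1 + κ)) :=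
    mul_le_mul_of_nonneg_left hμE (by linarith)
  have h3 := abs_le.1 h
  rw [abs_le]
  constructor
  · nlinarith
  · nlinarith

theorem fin {a n D K κ M E C2 : ℝ} (ha0 : 0 < a) (ha1 : a ≤ 1) (hn : 2 * K ≤ n) (hK : 1 ≤ K)
    (hD : |D| ≤ K) (hκ : 0 ≤ κ) (h : n ^ 2 / a * (D / (n - D)) = M + E)
    (hE : |E| ≤ C2 * (1 + κ)) : |D - a * M / n| ≤ (C2 + 2 * K ^ 2) * (1 + κ) / n := by
  have hn0 : 0 < n := by linarith
  have hD' := abs_le.1 hD
  have hp : n / 2 ≤ n - D := by linarith [hD'.2]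
  have hp0 : 0 < n - D := by linarith
  have h1 : D - a * M / n = a * E / n - D ^ 2 / (n - D) := by
    have h0 : M = n ^ 2 / a * (D / (n - D)) - E := by linarith
    have hne : n - D ≠ 0 := hp0.ne'
    rw [h0]
    field_simp
    ring
  have h2 : |a * E / n| ≤ C2 * (1 + κ) / n := by
    rw [abs_div, abs_of_pos hn0, abs_mul, abs_of_pos ha0]
    apply div_le_div_of_nonneg_right _ hn0.le
    nlinarith [abs_nonneg E]
  have h3 : |D ^ 2 / (n - D)| ≤ 2 * K ^ 2 / n := by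
    rw [abs_div, abs_of_pos hp0, abs_of_nonneg (sq_nonneg D), div_le_div_iff₀ hp0 hn0]
    have h31 : D ^ 2 ≤ K ^ 2 := sq_le_sq' hD'.1 hD'.2
    nlinarith [sq_nonneg K]
  have h4 := abs_sub (a * E / n) (D ^ 2 / (n - D))
  have h5 : (C2 + 2 * K ^ 2) * (1 + κ) / n = C2 * (1 + κ) / n + 2 * K ^ 2 / n * (1 + κ) := by ring
  have h7 : 0 ≤ 2 * K ^ 2 / n := by positivity
  have h6 : 2 * K ^ 2 / n ≤ 2 * K ^ 2 / n * (1 + κ) := by nlinarith
  rw [h1, h5]
  linarith

/-- the graph part -/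
theorem stepA (hGS : Stmt_GS) (hEOW : Stmt_EOW) (hS : Stmt_SECR) (r : ℕ) (hr : 3 ≤ r) :
    ∃ (K : ℝ) (n0 : ℕ), 1 ≤ K ∧ ∀ n ≥ n0,
      ∀ (m : ℕ) (y : Fin r → ℕ) (V : Type) [Fintype V] (G : SimpleGraph V) (c0 : ℝ),
      pE G = 2 * (m : ℝ) → (∀ i, |(y i : ℝ) - n / r| ≤ 2 * √(n : ℝ)) →
      |kk m n y| ≤ √(n : ℝ) → FormC m n y G c0 → |specRad G - al r * n| ≤ K ∧
        |(n : ℝ) ^ 2 * Ph (re y) (specRad G)| ≤ K * (1 + |kk m n y|) := by
  have hr3 : (3 : ℝ) ≤ r := by exact_mod_cast hr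
  obtain ⟨K, nS, hK, hS⟩ := hS r hr
  have hKK : K ≤ 2 + K * ((r : ℝ) + 2) := by nlinarith
  refine ⟨2 + K * ((r : ℝ) + 2), max nS (64 * r ^ 2), by linarith, ?_⟩
  intro n hn m y V _ G c0 hm hbal hk hF
  have hnS : nS ≤ n := le_trans (le_max_left _ _) hn
  have hn64 : 64 * r ^ 2 ≤ n := le_trans (le_max_right _ _) hn
  have hn0 : (0 : ℝ) ≤ n := Nat.cast_nonneg n
  have hn64R : 64 * (r : ℝ) ^ 2 ≤ n := by exact_mod_cast hn64
  set s : ℝ := √(n : ℝ) with hs
  have hs8 : 8 * (r : ℝ) ≤ s := by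
    rw [hs]
    apply Real.le_sqrt_of_sq_le
    nlinarith
  have hs1 : 1 ≤ s := by linarith
  have hka := abs_le.1 hk
  have hsz' : ∀ {H : Finset V} {c : V → Fin r},
      (∀ i, (cl H c i).card = y i) → ∀ i, |sz H c i - n / r| ≤ 2 * s := by
    intro H c hy i
    rw [sz_re hy]
    exact hbal i
  rcases hF with ⟨⟨H, c, w, A, v1, v2, hW, hy, -, -⟩, hk0, hc⟩ |
    ⟨⟨H, c, w, u, A, B, i0, hW, hy, -, -, -⟩, hkr, hc⟩ |
    ⟨⟨H, c, w, T, L, p, q, hW, hy, hL2, -, -⟩, hk1, hc⟩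
  · have hsz : sz H c = re y := sz_re hy
    have hpE := (pGD r hr V G n H c w A v1 v2 hW).2.2
    rw [hsz] at hpE
    have hkA : kk m n y = A.card - r := by
      have h1 : 2 * (m : ℝ) = (n : ℝ) ^ 2 - ∑ i, (y i : ℝ) ^ 2 + 2 * ((A.card : ℝ) - 1) := by
        rw [← hm, hpE]
        simp only [re]
        ring
      rw [kk_eq h1]
      ring
    have hAR : (A.card : ℝ) = kk m n y + r := by rw [hkA]; ring
    obtain ⟨hmis, heo⟩ := (hEOW r hr n _ G H c w).1 A v1 v2 hW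
    have heoR : (eo G H : ℝ) ≤ kk m n y + r := by rw [← hAR]; exact_mod_cast heo
    have hmisR : (mis G H c : ℝ) = 2 := by rw [hmis]; norm_num
    have : Nonempty V := ⟨w⟩
    obtain ⟨x, hx⟩ := exists_PV G
    have hind : ∀ u ∈ H, ∀ v ∈ H, c u = c v → ¬ G.Adj u v := by
      intro u hu v hv huv hadj
      rcases (hW.adj u v).1 hadj with h | h | h
      · exact h.2.2.1 huv
      · exact hW.hw (h.1 ▸ hu)
      · exact hW.hw (h.1 ▸ hv)
    obtain ⟨hlam, h⟩ := hS n hnS _ G x (specRad G) c H hW.card hind (hsz' hy)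
      (by rw [hmisR]; linarith) (by linarith [hka.2]) hx
    rw [hsz, hmisR] at h
    refine ⟨hlam.trans hKK, ?_⟩
    rw [abs_of_nonneg hk0]
    exact up hs1 hK (by norm_num) (Nat.cast_nonneg _) (by linarith) h (by nlinarith)
  · have hsz : sz H c = re y := sz_re hy
    have hpE := (pGE r hr V G n H c w u A B i0 hW).2.2
    rw [hsz] at hpE
    have hkA : kk m n y = A.card + 1 := by
      have h1 : 2 * (m : ℝ) = (n : ℝ) ^ 2 - ∑ i, (y i : ℝ) ^ 2 + 2 * ((A.card : ℝ) + r) := by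
        rw [← hm, hpE]
        simp only [re]
        ring
      rw [kk_eq h1]
      ring
    have hkn : 0 ≤ kk m n y := by linarith
    obtain ⟨hmis, heo⟩ := (hEOW r hr n _ G H c w).2.1 u A B i0 hW
    have heoR : (eo G H : ℝ) ≤ kk m n y + r := by
      have h1 : (eo G H : ℝ) ≤ A.card + r + 1 := by exact_mod_cast heo
      rw [hkA]
      linarith
    have hmisR : (mis G H c : ℝ) = 0 := by rw [hmis]; norm_num
    have : Nonempty V := ⟨w⟩
    obtain ⟨x, hx⟩ := exists_PV G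
    have hind : ∀ a ∈ H, ∀ b ∈ H, c a = c b → ¬ G.Adj a b := by
      intro a ha b hb hab hadj
      rcases (hW.adj a b).1 hadj with h | h | h | h | h | h | h
      · exact h.2.2 hab
      · exact hW.hw (h.1 ▸ ha)
      · exact hW.hw (h.1 ▸ hb)
      · exact hW.hu (h.1 ▸ ha)
      · exact hW.hu (h.1 ▸ hb)
      · exact hW.hw (h.1 ▸ ha)
      · exact hW.hu (h.1 ▸ ha)
    obtain ⟨hlam, h⟩ := hS n hnS _ G x (specRad G) c H hW.card hind (hsz' hy)
      (by rw [hmisR]; linarith) (by linarith [hka.2]) hx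
    rw [hsz, hmisR] at h
    refine ⟨hlam.trans hKK, ?_⟩
    rw [abs_of_nonneg hkn]
    exact up hs1 hK (le_refl _) (Nat.cast_nonneg _) (by linarith) h (by nlinarith)
  · have hsz : sz H c = re y := sz_re hy
    obtain ⟨hWF, hmis, -, -, hpE⟩ := hGS r hr V G n H c w T L p q hW
    rw [hsz] at hpE
    have hkA : kk m n y = 1 - L.card := by
      have h1 : 2 * (m : ℝ) = (n : ℝ) ^ 2 - ∑ i, (y i : ℝ) ^ 2 + 2 * ((r : ℝ) - L.card) := by
        rw [← hm, hpE]
        simp only [re]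
        ring
      rw [kk_eq h1]
      ring
    have hkn : 0 ≤ -kk m n y := by linarith
    have heo := ((hEOW r hr n _ G H c w).2.2 T L p q hW).2
    have heoR : (eo G H : ℝ) ≤ r := by exact_mod_cast heo
    have hmisR : (mis G H c : ℝ) = 2 * (1 - kk m n y) := by
      rw [hmis, hkA]
      push_cast
      ring
    have : Nonempty V := ⟨w⟩
    obtain ⟨x, hx⟩ := exists_PV G
    have hind : ∀ u ∈ H, ∀ v ∈ H, c u = c v → ¬ G.Adj u v := by
      intro u hu v hv huv hadj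
      rcases (hW.adj u v).1 hadj with h | h | h
      · exact h.2.2.1 huv
      · exact hW.hw (h.1 ▸ hu)
      · exact hW.hw (h.1 ▸ hv)
    obtain ⟨hlam, h⟩ := hS n hnS _ G x (specRad G) c H hW.card hind (hsz' hy)
      (by rw [hmisR]; linarith [hka.1]) (by linarith) hx
    rw [hsz, hmisR] at h
    refine ⟨hlam.trans hKK, ?_⟩
    rw [abs_of_nonpos (by linarith : kk m n y ≤ 0)]
    exact up hs1 hK (by linarith) (Nat.cast_nonneg _) (by linarith) h (by nlinarith)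

end X_LGX

theorem x_LGX (hGS : Stmt_GS) (hEOW : Stmt_EOW) (hS : Stmt_SECR) : Stmt_LGX := by
  intro r hr
  have hr3 : (3 : ℝ) ≤ r := by exact_mod_cast hr
  have hr0 : (0 : ℝ) < r := by linarith
  have ha := al_ge hr
  have ha0 : 0 < al r := by linarith
  have ha1 := al_lt hr
  obtain ⟨K, nA, hK, hA⟩ := X_LGX.stepA hGS hEOW hS r hr
  obtain ⟨B, hB⟩ : ∃ B : ℝ, B = K + 4 * r := ⟨_, rfl⟩
  have hB1 : 1 ≤ B := by rw [hB]; linarith
  obtain ⟨C, hC, hT⟩ := pTAY r B hr hB1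
  obtain ⟨C2, hC2⟩ : ∃ C2 : ℝ, C2 = 2 * K + 16 * r + C + C * B := ⟨_, rfl⟩
  have hC20 : 0 ≤ C2 := by rw [hC2]; positivity
  obtain ⟨n1, hn1⟩ := exists_nat_ge (max (2 * K) C)
  refine ⟨C2 + 2 * K ^ 2 + 2, max nA (max n1 1), by nlinarith, ?_⟩
  intro n hn m y V _ G c0 hm hsum hbal hk hF
  have hnA : nA ≤ n := le_trans (le_max_left _ _) hn
  have hnn1 : n1 ≤ n := le_trans (le_trans (le_max_left _ _) (le_max_right _ _)) hn
  have hnn2 : 1 ≤ n := le_trans (le_trans (le_max_right _ _) (le_max_right _ _)) hn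
  have hn1R : (1 : ℝ) ≤ n := by exact_mod_cast hnn2
  have hn0 : (0 : ℝ) < n := by linarith
  have hnK : max (2 * K) C ≤ n := hn1.trans (by exact_mod_cast hnn1)
  have hnK1 : 2 * K ≤ n := (le_max_left _ _).trans hnK
  have hnC : C ≤ n := (le_max_right _ _).trans hnK
  obtain ⟨hl, hP⟩ := hA n hnA m y V G c0 hm hbal hk hF
  have hsumR : ∑ i, re y i = (n : ℝ) := by
    unfold re
    exact_mod_cast hsum
  have hs2 : √(n : ℝ) ^ 2 = n := Real.sq_sqrt hn0.le
  have hs1 : 1 ≤ √(n : ℝ) := by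
    rw [Real.one_le_sqrt]
    exact hn1R
  -- moments
  have hd2 : ∀ i, (re y i - (n : ℝ) / r) ^ 2 ≤ 4 * n := by
    intro i
    have h1 := hbal i
    have h2 : (re y i - (n : ℝ) / r) ^ 2 ≤ (2 * √(n : ℝ)) ^ 2 := by
      rw [← sq_abs]
      exact pow_le_pow_left₀ (abs_nonneg _) h1 2
    rw [mul_pow, hs2] at h2
    linarith
  have hm2 : mo 2 n (re y) ≤ 4 * r * n := by
    unfold mo
    calc ∑ i, (re y i - (n : ℝ) / r) ^ 2 ≤ ∑ _i : Fin r, 4 * (n : ℝ) :=
          Finset.sum_le_sum fun i _ => hd2 i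
      _ = 4 * r * n := by
          rw [Finset.sum_const, Finset.card_univ, Fintype.card_fin, nsmul_eq_mul]
          ring
  have hm20 : 0 ≤ mo 2 n (re y) := by
    unfold mo
    exact Finset.sum_nonneg fun i _ => sq_nonneg _
  have hm4 : mo 4 n (re y) ≤ 16 * r * (n : ℝ) ^ 2 := by
    unfold mo
    calc ∑ i, (re y i - (n : ℝ) / r) ^ 4 ≤ ∑ _i : Fin r, 16 * (n : ℝ) ^ 2 := by
          refine Finset.sum_le_sum fun i _ => ?_
          have h1 := hd2 i
          have h2 : (re y i - (n : ℝ) / r) ^ 4 = ((re y i - (n : ℝ) / r) ^ 2) ^ 2 := by ring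
          rw [h2]
          have h3 := pow_le_pow_left₀ (sq_nonneg _) h1 2
          linarith
      _ = 16 * r * (n : ℝ) ^ 2 := by
          rw [Finset.sum_const, Finset.card_univ, Fintype.card_fin, nsmul_eq_mul]
          ring
  have hm40 : 0 ≤ mo 4 n (re y) := by
    unfold mo
    refine Finset.sum_nonneg fun i _ => ?_
    have h2 : (re y i - (n : ℝ) / r) ^ 4 = ((re y i - (n : ℝ) / r) ^ 2) ^ 2 := by ring
    rw [h2]
    exact sq_nonneg _
  -- the constant vector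
  obtain ⟨z, hz⟩ : ∃ z : Fin r → ℝ, z = fun _ => (n : ℝ) / r := ⟨_, rfl⟩
  have hzs : ∑ i, z i = (n : ℝ) := by
    rw [hz, Finset.sum_const, Finset.card_univ, Fintype.card_fin, nsmul_eq_mul]
    field_simp
  have hzm : ∀ k, 1 ≤ k → mo k n z = 0 := by
    intro k hk
    unfold mo
    refine Finset.sum_eq_zero fun i _ => ?_
    rw [hz, sub_self, zero_pow (by omega)]
  obtain ⟨lam, hlam⟩ : ∃ lam, lam = specRad G := ⟨_, rfl⟩
  rw [← hlam] at hl hP ⊢
  obtain ⟨D, hD⟩ : ∃ D, D = al r * n - lam := ⟨_, rfl⟩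
  have hDK : |D| ≤ K := by
    rw [hD, abs_sub_comm]
    exact hl
  have hDb := abs_le.1 hDK
  have hp : lam + n / r = n - D := by
    rw [hD]
    unfold al
    ring
  have hp0 : 0 < (n : ℝ) - D := by linarith [hDb.2]
  have hPz : Ph z lam = D / (n - D) := by
    unfold Ph
    rw [hz]
    simp only []
    rw [Finset.sum_const, Finset.card_univ, Fintype.card_fin, nsmul_eq_mul, hp]
    have hne : (n : ℝ) - D ≠ 0 := hp0.ne'
    field_simp
    ring
  have hT1 := hT n (re y) z lam hnC (hl.trans (by rw [hB]; linarith)) hsumR hzs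
    (hm2.trans (by rw [hB]; nlinarith)) (by rw [hzm 2 (by norm_num)]; positivity)
  rw [hzm 2 (by norm_num), hzm 3 (by norm_num), hzm 4 (by norm_num), hPz] at hT1
  -- error of the expansion
  have hE1 : C / √(n : ℝ) + C * |mo 2 n (re y) - 0| / n ≤ C + C * B := by
    have h1 : C / √(n : ℝ) ≤ C := div_le_self (by linarith) hs1
    have h2 : C * |mo 2 n (re y) - 0| / n ≤ C * B := by
      rw [sub_zero, abs_of_nonneg hm20, div_le_iff₀ hn0, mul_assoc]
      apply mul_le_mul_of_nonneg_left _ (by linarith)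
      refine hm2.trans ?_
      rw [hB]
      nlinarith
    linarith
  have hT2 := hT1.trans hE1
  have hPy : |(n : ℝ) ^ 2 / al r * Ph (re y) lam| ≤ 2 * K * (1 + |kk m n y|) := by
    have h1 : (n : ℝ) ^ 2 / al r * Ph (re y) lam = (n : ℝ) ^ 2 * Ph (re y) lam / al r := by ring
    rw [h1, abs_div, abs_of_pos ha0, div_le_iff₀ ha0]
    have h2 : 0 ≤ K * (1 + |kk m n y|) := by positivity
    nlinarith
  have h4 : 0 ≤ mo 4 n (re y) / (n : ℝ) ^ 2 := by positivity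
  have h4' : mo 4 n (re y) / (n : ℝ) ^ 2 ≤ 16 * r := by
    rw [div_le_iff₀ (by positivity)]
    exact hm4
  obtain ⟨M, hM⟩ : ∃ M, M = mo 2 n (re y) - mo 3 n (re y) / n := ⟨_, rfl⟩
  obtain ⟨E, hE⟩ : ∃ E, E = (n : ℝ) ^ 2 / al r * (D / (n - D)) - M := ⟨_, rfl⟩
  have hEb : |E| ≤ C2 * (1 + |kk m n y|) := by
    have hk0 := abs_nonneg (kk m n y)
    have h5 := abs_le.1 hT2
    have h6 := abs_le.1 hPy
    have h7 : 16 * (r : ℝ) + C + C * B ≤ (16 * r + C + C * B) * (1 + |kk m n y|) := by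
      have h8 : 0 ≤ 16 * (r : ℝ) + C + C * B := by positivity
      nlinarith
    have h9 : C2 * (1 + |kk m n y|)
        = 2 * K * (1 + |kk m n y|) + (16 * r + C + C * B) * (1 + |kk m n y|) := by
      rw [hC2]
      ring
    have h10 : (n : ℝ) ^ 2 / al r * (Ph (re y) lam - D / (n - D))
        = (n : ℝ) ^ 2 / al r * Ph (re y) lam - (n : ℝ) ^ 2 / al r * (D / (n - D)) := by ring
    rw [h10] at h5
    simp only [zero_sub, sub_zero] at h5
    have h11 : -mo 4 n (re y) / (n : ℝ) ^ 2 = -(mo 4 n (re y) / (n : ℝ) ^ 2) := by ring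
    rw [h11] at h5
    rw [hE, hM, h9, abs_le]
    constructor
    · linarith [h5.1, h5.2, h6.1, h6.2]
    · linarith [h5.1, h5.2, h6.1, h6.2]
  have hfin := X_LGX.fin ha0 ha1.le hnK1 hK hDK (abs_nonneg (kk m n y))
    (show (n : ℝ) ^ 2 / al r * (D / (n - D)) = M + E by rw [hE]; ring) hEb
  -- conclusion
  have hmo2 : mo 2 n (re y) = RR r m n + 2 * kk m n y := by
    rw [mo_two hr hsumR]
    unfold RR kk al re
    ring
  have hgoal : lam - (al r * n - al r * RR r m n / n + al r * mo 3 n (re y) / (n : ℝ) ^ 2)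
      = -(D - al r * M / n) - 2 * al r * kk m n y / n := by
    rw [hD, hM, hmo2]
    field_simp
    ring
  rw [hgoal]
  have h12 : |2 * al r * kk m n y / n| ≤ 2 * (1 + |kk m n y|) / n := by
    rw [abs_div, abs_of_pos hn0]
    apply div_le_div_of_nonneg_right _ hn0.le
    rw [abs_mul, abs_of_pos (by positivity : 0 < 2 * al r)]
    nlinarith [abs_nonneg (kk m n y)]
  have h13 := abs_sub (-(D - al r * M / n)) (2 * al r * kk m n y / n)
  rw [abs_neg] at h13
  have h14 : (C2 + 2 * K ^ 2 + 2) * (1 + |kk m n y|) / n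
      = (C2 + 2 * K ^ 2) * (1 + |kk m n y|) / n + 2 * (1 + |kk m n y|) / n := by ring
  rw [h14]
  linarith

end Pool.Agent.Work.MP_5532fa_up
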