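import Pool.Agent.Work.MP_5532fa_x.Interface3

/-!
# MP_5532fa_co, sixth round, block MAIN7
-/

open Finset

namespace Pool.Agent.Work.MP_5532fa_up

open MP5532fa (specRad qf pE)

theorem x_MAIN7 (hMAINS : Stmt_MAINS) (hMAINB : Stmt_MAINB) (hSMJ : Stmt_SMJ)
    (hSEXC : Stmt_SEXC) : Stmt_MAIN7 := by
  intro r hr ε hε
  by_cases h7 : 7 ≤ r
  · obtain ⟨m1, H1⟩ := hMAINB r h7 ε hε
    refine ⟨m1, ?_⟩
    intro m hm N j hmj hlt _ V _ G hG
    have hne : ¬ Exc r N j := by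
      rintro ⟨-, ⟨h, -⟩ | ⟨h, -⟩⟩ <;> omega
    rcases H1 m hm N j hmj hlt V G hG with ⟨h1, h2⟩ | h | h | h | ⟨h1, h2⟩
    · exact Or.inl ⟨h1, hne, h2⟩
    · exact Or.inr (Or.inr (Or.inl h))
    · exact Or.inr (Or.inr (Or.inr (Or.inl h)))
    · exact Or.inr (Or.inr (Or.inr (Or.inr (Or.inl h))))
    · exact Or.inr (Or.inr (Or.inr (Or.inr (Or.inr ⟨h7, h1, h2⟩))))
  · obtain ⟨m1, H1⟩ := hMAINS r hr
    obtain ⟨m2, H2⟩ := hSMJ r hr
    obtain ⟨m3, H3⟩ := hSEXC r hr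
    obtain ⟨κ, -, HM⟩ := pMAIN5 r hr
    have hε2 : 0 < ε / 2 := by linarith only [hε]
    obtain ⟨m4, H4⟩ := HM (ε / 2) hε2
    refine ⟨m1 + m2 + m3 + m4, ?_⟩
    intro m hm N j hmj hlt hX V _ G hG
    have hX' : (j : ℝ) / (al r * N) ≤ 1 - 2 / r - ε := hX.resolve_left h7
    by_cases hj : j + 1 < r
    · by_cases hE : Exc r N j
      · exact Or.inr (Or.inl ⟨hE, H3 m (by omega) N j hmj hlt hE V G hG⟩)
      · exact Or.inl ⟨hj, hE, H2 m (by omega) N j hmj hlt hj hE V G hG⟩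
    · by_cases hs : j + 2 = 2 * r
      · exact Or.inr (Or.inr (Or.inr (Or.inl ⟨hs, H1 m (by omega) N j hmj hlt hs V G hG⟩)))
      · have hcov : Cov r (ε / 2) N j :=
          Or.inr (Or.inr ⟨by omega, by linarith only [hX', hε]⟩)
        rcases H4 m (by omega) N j hmj hlt (Or.inl hcov) V G hG with
          ⟨h1, -⟩ | ⟨h1, h2, h3, h4, h5⟩ | ⟨h1, -⟩ | ⟨h1, h2, h3⟩ | ⟨h1, -⟩
        · exact absurd h1 hj
        · exact Or.inr (Or.inr (Or.inl ⟨h1, h2, h3, fun h => by linarith only [h4 h, hε],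
            by linarith only [h5, hε]⟩))
        · exact absurd h1 hs
        · exact Or.inr (Or.inr (Or.inr (Or.inr (Or.inl ⟨h1, h2, by linarith only [h3, hε]⟩))))
        · exfalso
          linarith only [h1, hX', hε]

end Pool.Agent.Work.MP_5532fa_up
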