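import Pool.Agent.Work.MP_5532fa_x.Interface3

/-!
# Block MAIN8 (helper41): gadgets over almost balanced complete multipartite graphs
-/

set_option autoImplicit false

open Finset

namespace Pool.Agent.Work.MP_5532fa_up

open MP5532fa (specRad qf pE)

namespace X_MAIN8

/-- a number whose cube is at most `n^2` is small compared with `n` -/
theorem cube_small {r N : ℕ} (hr : 3 ≤ r) (hN : 108 * r ^ 3 < N) {D n : ℝ}
    (hn : n ≤ 2 * N) (hn0 : 0 ≤ n) (hD : D ^ 3 ≤ n ^ 2) : D ≤ N / (3 * r) := by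
  by_contra hcon
  push Not at hcon
  have hrr : (3 : ℝ) ≤ r := by exact_mod_cast hr
  have hNr : (108 : ℝ) * r ^ 3 < N := by exact_mod_cast hN
  have hN0 : (0 : ℝ) < N := lt_trans (by positivity) hNr
  have h1 : (N / (3 * (r : ℝ))) ^ 3 < D ^ 3 := pow_lt_pow_left₀ hcon (by positivity) (by norm_num)
  have h2 : n ^ 2 ≤ (2 * (N : ℝ)) ^ 2 := pow_le_pow_left₀ hn0 hn 2
  have h3 : (N / (3 * (r : ℝ))) ^ 3 < 4 * (N : ℝ) ^ 2 := by
    calc (N / (3 * (r : ℝ))) ^ 3 < D ^ 3 := h1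
      _ ≤ n ^ 2 := hD
      _ ≤ (2 * (N : ℝ)) ^ 2 := h2
      _ = 4 * (N : ℝ) ^ 2 := by ring
  have h4 : (N / (3 * (r : ℝ))) ^ 3 = N ^ 3 / (27 * r ^ 3) := by
    rw [div_pow, mul_pow]
    norm_num
  rw [h4, div_lt_iff₀ (by positivity)] at h3
  have h5 : (N : ℝ) ^ 2 * N < (N : ℝ) ^ 2 * (108 * r ^ 3) := by
    calc (N : ℝ) ^ 2 * N = (N : ℝ) ^ 3 := by ring
      _ < 4 * (N : ℝ) ^ 2 * (27 * r ^ 3) := h3
      _ = (N : ℝ) ^ 2 * (108 * r ^ 3) := by ring
  have h6 := lt_of_mul_lt_mul_left h5 (by positivity)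
  linarith

end X_MAIN8

theorem x_MAIN8 (hGPS : Stmt_GPS) : Stmt_MAIN8 := by
  intro r hr
  have hrr : (3 : ℝ) ≤ r := by exact_mod_cast hr
  have hal := al_ge hr
  have hal1 := al_lt hr
  obtain ⟨κ5, hκ5, H5⟩ := pMAIN5 r hr
  obtain ⟨m5, H5'⟩ := H5 (1 / (2 * (r : ℝ))) (by positivity)
  obtain ⟨κG, nG, hκG, HG⟩ := hGPS r hr
  obtain ⟨M, hM⟩ : ∃ M, M = nG + 108 * r ^ 3 + 9 * r + 1 := ⟨_, rfl⟩
  refine ⟨min 1 (min κ5 κG), m5 + M ^ 2 + 1, lt_min one_pos (lt_min hκ5 hκG), ?_⟩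
  intro m hm N n y htn hlt hn hsum hkk hD V _ G hG
  set κ : ℝ := min 1 (min κ5 κG) with hκ
  have hκ1 : κ ≤ 1 := min_le_left _ _
  have hκ2 : κ ≤ κ5 := (min_le_right _ _).trans (min_le_left _ _)
  have hκ3 : κ ≤ κG := (min_le_right _ _).trans (min_le_right _ _)
  have hNM := large_N pTN hr M (by omega) hlt
  obtain ⟨j, hj⟩ : ∃ j, m = tn r N + j := ⟨m - tn r N, by omega⟩
  have hr3 : 1 ≤ r ^ 3 := Nat.one_le_pow _ _ (by omega)
  have hN1 : 108 * r ^ 3 < N := by omega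
  have hN2 : 9 * r < N := by omega
  have hN3 : nG ≤ N := by omega
  have hN2' : 9 * (r : ℝ) < N := by exact_mod_cast hN2
  have hNpos : (0 : ℝ) < N := by linarith
  have hn0 : (0 : ℝ) ≤ n := Nat.cast_nonneg n
  have hnN : (n : ℝ) ≤ N + 1 ∧ (N : ℝ) ≤ n := by
    rcases hn with h | h
    · rw [h]; constructor <;> linarith
    · rw [h]; push_cast; constructor <;> linarith
  -- the number of edges
  obtain ⟨D, hDdef⟩ : ∃ D : ℝ, D = ∑ i, ((y i : ℝ) - n / r) ^ 2 := ⟨_, rfl⟩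
  have h2m : 2 * (m : ℝ) = (n : ℝ) ^ 2 - ∑ i, (y i : ℝ) ^ 2 + 2 * (r - 1) := by
    unfold kk at hkk
    linarith
  have hsum' : ∑ i, (y i : ℝ) = (n : ℝ) := by exact_mod_cast hsum
  have hmo : D = ∑ i, (y i : ℝ) ^ 2 - (n : ℝ) ^ 2 / r := by
    have h1 := mo_two (y := fun i => (y i : ℝ)) hr hsum'
    unfold mo at h1
    rw [hDdef]
    exact h1
  have hDn : D ^ 3 ≤ κ * (n : ℝ) ^ 2 := by rw [hDdef]; exact hD
  have hDn1 : D ^ 3 ≤ (n : ℝ) ^ 2 := hDn.trans (by
    have := mul_le_mul_of_nonneg_right hκ1 (sq_nonneg (n : ℝ))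
    linarith)
  have hDn5 : D ^ 3 ≤ κ5 * (n : ℝ) ^ 2 :=
    hDn.trans (mul_le_mul_of_nonneg_right hκ2 (sq_nonneg (n : ℝ)))
  have hcov : CovS r κ5 N m := by
    refine ⟨n, y, hn, hsum, h2m, ?_⟩
    rw [← hDdef]
    exact hDn5
  have h5 := H5' m (by omega) N j hj hlt (Or.inr hcov) V G hG
  have hjal := j_le pTN hr hj hlt
  have halN : 0 < al r * N := mul_pos (by linarith) hNpos
  have hjr : (0 : ℝ) ≤ j := Nat.cast_nonneg j
  obtain ⟨X, hX⟩ : ∃ X : ℝ, X = (j : ℝ) / (al r * N) := ⟨_, rfl⟩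
  have hX0 : 0 ≤ X := by rw [hX]; positivity
  have hX1 : X ≤ 1 := by rw [hX, div_le_one halN]; exact hjal
  -- the first part
  have hfirst : ∃ (c : V → Fin r) (H : Finset V), Gad n G H c := by
    rcases hn with hnn | hnn
    · -- `n = N`
      have hjr1 : j + 1 ≤ r := by
        have h1 := pTNB r N y hr (by rw [hsum, hnn])
        have h2 : (N : ℝ) ^ 2 ≤ 2 * (tn r N : ℝ) + ∑ i, (y i : ℝ) ^ 2 := by exact_mod_cast h1
        have h3 : (m : ℝ) = tn r N + j := by rw [hj]; push_cast; ring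
        have h4 : (j : ℝ) + 1 ≤ r := by
          rw [hnn, h3] at h2m
          linarith
        exact_mod_cast h4
      have hXs : X ≤ 1 / 6 := by
        rw [hX, div_le_iff₀ halN]
        have h1 : (j : ℝ) + 1 ≤ r := by exact_mod_cast hjr1
        have h2 : 2 / 3 * (N : ℝ) ≤ al r * N := mul_le_mul_of_nonneg_right hal hNpos.le
        linarith
      rcases h5 with ⟨-, c, H, h2⟩ | ⟨h1, -, h2, -⟩ | ⟨h1, -⟩ | ⟨h1, -⟩ | ⟨h1, -⟩
      · rw [hnn]
        exact ⟨c, H, h2⟩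
      · obtain ⟨H, c, w, A, v1, v2, hW, hA, -, -, hT⟩ := h2
        rw [hnn]
        exact ⟨c, H, w, A, v1, v2, hW, by omega, hT⟩
      · omega
      · omega
      · exfalso
        rw [← hX] at h1
        have h2 : 1 / (2 * (r : ℝ)) ≤ 1 / 6 := by
          rw [div_le_div_iff₀ (by positivity) (by norm_num)]
          linarith
        have h3 : 2 / (r : ℝ) ≤ 2 / 3 := by
          rw [div_le_div_iff₀ (by positivity) (by norm_num)]
          linarith
        -- `1 - 2/r - 1/(2r) ≥ 1/6`, with room: use `X < 1/6`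
        have h4 : X < 1 / 6 := by
          rw [hX, div_lt_iff₀ halN]
          have h1 : (j : ℝ) + 1 ≤ r := by exact_mod_cast hjr1
          have h2 : 2 / 3 * (N : ℝ) ≤ al r * N := mul_le_mul_of_nonneg_right hal hNpos.le
          linarith
        linarith
    · -- `n = N + 1`
      have hnr : (n : ℝ) = N + 1 := by rw [hnn]; push_cast; ring
      have hDs : D ≤ N / (3 * r) := X_MAIN8.cube_small hr hN1 (by linarith) hn0 hDn1
      have hXl : 1 - 1 / (4 * (r : ℝ)) ≤ X := by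
        rw [hX, le_div_iff₀ halN]
        have htn' := (pTN r hr N).2.1
        rw [abs_le] at htn'
        have h3 : (m : ℝ) = tn r N + j := by rw [hj]; push_cast; ring
        have h4 : (n : ℝ) ^ 2 - ∑ i, (y i : ℝ) ^ 2 = al r * (n : ℝ) ^ 2 - D := by
          rw [hmo]
          unfold al
          ring
        have h5 : 2 * (j : ℝ) ≥ al r * (2 * N + 1) - D + (r - 2) := by
          rw [h3, h4, hnr] at h2m
          have h6 : al r * ((N : ℝ) + 1) ^ 2 = al r * N ^ 2 + al r * (2 * N + 1) := by ring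
          linarith [htn'.2]
        have h6 : (1 - 1 / (4 * (r : ℝ))) * (al r * N) = al r * N - al r * (N / (4 * r)) := by
          ring
        rw [h6]
        have h7 : 2 / 3 * ((N : ℝ) / (4 * r)) ≤ al r * (N / (4 * r)) :=
          mul_le_mul_of_nonneg_right hal (by positivity)
        have h8 : (N : ℝ) / (3 * r) = 4 / 3 * (N / (4 * r)) := by
          field_simp
        rw [h8] at hDs
        have h9 : al r * (2 * (N : ℝ) + 1) = 2 * (al r * N) + al r := by ring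
        rw [h9] at h5
        linarith
      have hr4 : 1 / (4 * (r : ℝ)) ≤ 1 / 12 := by
        rw [div_le_div_iff₀ (by positivity) (by norm_num)]
        linarith
      have hr2 : 1 / (2 * (r : ℝ)) ≤ 1 / 6 := by
        rw [div_le_div_iff₀ (by positivity) (by norm_num)]
        linarith
      have hXl' : 11 / 12 ≤ X := by linarith
      have hjN : 2 * (r : ℝ) < j := by
        have h1 : X * (al r * N) = j := by
          rw [hX]
          field_simp
        have h2 : 11 / 12 * (2 / 3 * (N : ℝ)) ≤ X * (al r * N) :=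
          mul_le_mul hXl' (mul_le_mul_of_nonneg_right hal hNpos.le) (by positivity) hX0
        rw [h1] at h2
        linarith
      have hjN' : 2 * r < j := by exact_mod_cast hjN
      rcases h5 with ⟨h1, -⟩ | ⟨-, -, -, -, h1⟩ | ⟨h1, -⟩ | ⟨-, -, h1⟩ | ⟨-, c, H, h2, -⟩
      · omega
      · exfalso
        rw [← hX] at h1
        have h2 : 2 / (r : ℝ) = 8 * (1 / (4 * r)) := by field_simp; norm_num
        have h3 : 1 / (2 * (r : ℝ)) = 2 * (1 / (4 * r)) := by field_simp; norm_num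
        have h4 : 0 < 1 / (4 * (r : ℝ)) := by positivity
        rw [h2, h3] at h1
        linarith
      · omega
      · exfalso
        rw [← hX] at h1
        have h2 : X ^ 4 / ((r : ℝ) * (r - 1)) ≤ 1 / 6 := by
          rw [div_le_div_iff₀ (by nlinarith) (by norm_num)]
          have h3 : X ^ 4 ≤ 1 := pow_le_one₀ hX0 hX1
          nlinarith
        have h3 : (4 : ℝ) * (11 / 12) ≤ (r + 1) * X :=
          mul_le_mul (by linarith) hXl' (by norm_num) (by linarith)
        linarith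
      · rw [hnn]
        exact ⟨c, H, h2⟩
  refine ⟨hfirst, fun hD2 => ?_⟩
  obtain ⟨c, H, w, A, v1, v2, hW, hA, hT⟩ := hfirst
  -- the class sizes
  have hszsum : ∑ i, sz H c i = (n : ℝ) := by
    have h1 : ∑ i, (cl H c i).card = H.card := sum_card_cl H c
    rw [hW.card] at h1
    unfold sz
    exact_mod_cast h1
  have hsq : ∑ i, sz H c i ^ 2 = ∑ i, (y i : ℝ) ^ 2 := by
    have h3 := (pGD r hr V G n H c w A v1 v2 hW).2.2
    rw [hA, hG.2.2.1, h2m] at h3
    linarith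
  have hDsz : ∑ i, (sz H c i - (n : ℝ) / r) ^ 2 = D := by
    have h1 := mo_two hr hszsum
    unfold mo at h1
    rw [h1, hsq, hmo]
  have hn1 : (1 : ℝ) ≤ n := by linarith [hnN.2]
  have hDlen : D ≤ n := by
    by_contra hcon
    push Not at hcon
    have h1 : (n : ℝ) ^ 3 < D ^ 3 := pow_lt_pow_left₀ hcon hn0 (by norm_num)
    have h2 : (n : ℝ) ^ 2 ≤ (n : ℝ) ^ 3 := pow_le_pow_right₀ hn1 (by norm_num)
    linarith
  have hdev : ∀ i, |sz H c i - n / r| ≤ 2 * √(n : ℝ) := by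
    intro i
    have h5 : (sz H c i - n / r) ^ 2 ≤ D := by
      rw [← hDsz]
      exact Finset.single_le_sum (f := fun i => (sz H c i - (n : ℝ) / r) ^ 2)
        (fun _ _ => sq_nonneg _) (Finset.mem_univ i)
    have h6 : (sz H c i - n / r) ^ 2 ≤ (2 * √(n : ℝ)) ^ 2 := by
      rw [mul_pow, Real.sq_sqrt hn0]
      linarith
    exact abs_le_of_sq_le_sq h6 (by positivity)
  have hκn : D ^ 2 ≤ κG * n := by
    rw [hDdef]
    exact hD2.trans (mul_le_mul_of_nonneg_right hκ3 hn0)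
  have hnG : nG ≤ n := by rcases hn with h | h <;> omega
  exact ⟨H, c, w, A, v1, v2, hW, hA, hT,
    HG n hnG V G c H w A v1 v2 hW hA hG.mx hdev (by rw [hDsz]; exact hκn)⟩

end Pool.Agent.Work.MP_5532fa_up
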