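import Pool.Agent.Work.MP_5532fa_x.Interface2

/-!
# Block MAINB (helper58): theorem B from `pMAIN5`, MAINS and GPHI
-/

open Finset

namespace Pool.Agent.Work.MP_5532fa_up

open MP5532fa (specRad qf pE)

namespace X_MAINB

/-- the class sizes of a gadget with the right number of edges are near the mean -/
theorem dev {V : Type} [Fintype V] {r n : ℕ} (hr : 3 ≤ r) {G : SimpleGraph V} {H : Finset V}
    {c : V → Fin r} {w : V} {A : Finset V} {v1 v2 : V} (hW : WD G n H c w A v1 v2)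
    (hA : A.card = r) (hE : al r * (n : ℝ) ^ 2 - pE G + 2 * ((r : ℝ) - 1) ≤ 4 * n) (i : Fin r) :
    |sz H c i - n / r| ≤ 2 * √(n : ℝ) := by
  have hsum : ∑ i, sz H c i = (n : ℝ) := by
    have h1 : ∑ i, (cl H c i).card = H.card := sum_card_cl H c
    rw [hW.card] at h1
    unfold sz
    exact_mod_cast h1
  have h2 := mo_two hr hsum
  have h3 := (pGD r hr V G n H c w A v1 v2 hW).2.2
  rw [hA] at h3
  have h4 : mo 2 n (sz H c) ≤ 4 * n := by
    rw [h2]
    have h5 : al r * (n : ℝ) ^ 2 = (n : ℝ) ^ 2 - (n : ℝ) ^ 2 / r := by unfold al; ring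
    rw [h5, h3] at hE
    linarith only [hE]
  have h5 : (sz H c i - n / r) ^ 2 ≤ 4 * n := by
    refine le_trans ?_ h4
    unfold mo
    exact Finset.single_le_sum (f := fun i => (sz H c i - (n : ℝ) / r) ^ 2)
      (fun _ _ => sq_nonneg _) (Finset.mem_univ i)
  have h6 : (sz H c i - n / r) ^ 2 ≤ (2 * √(n : ℝ)) ^ 2 := by
    rw [mul_pow, Real.sq_sqrt (Nat.cast_nonneg n)]
    linarith only [h5]
  exact abs_le_of_sq_le_sq h6 (by positivity)

end X_MAINB

theorem x_MAINB (hMAINS : Stmt_MAINS) (hGPHI : Stmt_GPHI) : Stmt_MAINB := by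
  intro r hr7 ε hε
  have hr : 3 ≤ r := by omega
  have hrr : (7 : ℝ) ≤ r := by exact_mod_cast hr7
  obtain ⟨κ, hκ, H5⟩ := pMAIN5 r hr
  obtain ⟨m5, H5'⟩ := H5 ε hε
  obtain ⟨mS, HS⟩ := hMAINS r hr
  obtain ⟨nG, HG⟩ := hGPHI r hr7
  obtain ⟨M, hM⟩ : ∃ M, M = nG + 2 * r := ⟨_, rfl⟩
  refine ⟨m5 + mS + M ^ 2 + 1, ?_⟩
  intro m hm N j hmj hlt V _ G hG
  have hNM := large_N pTN hr M (by omega) hlt
  have h5 := H5' m (by omega) N j hmj hlt (Or.inl (Or.inl hr7)) V G hG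
  have hal := al_ge hr
  have hal1 := al_lt hr
  -- gadgets
  have gad : ∀ n : ℕ, (n = N ∨ n = N + 1) → ∀ (c : V → Fin r) (H : Finset V), Gad n G H c →
      GadP (r := r) n G := by
    rintro n hn c H ⟨w, A, v1, v2, hW, hA, hT⟩
    have hnN : (n : ℝ) ≤ N + 1 ∧ (N : ℝ) ≤ n := by
      rcases hn with h | h
      · rw [h]; constructor <;> linarith only []
      · rw [h]; push_cast; constructor <;> linarith only []
    have hN2 : 2 * (r : ℝ) ≤ N := by exact_mod_cast (by omega : 2 * r ≤ N)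
    have hE : al r * (n : ℝ) ^ 2 - pE G + 2 * ((r : ℝ) - 1) ≤ 4 * n := by
      have htn := (pTN r hr N).2.1
      rw [abs_le] at htn
      have hpE : pE G = 2 * ((tn r N : ℝ) + j) := by
        rw [hG.2.2.1, hmj]
        push_cast
        ring
      have hj0 : (0 : ℝ) ≤ j := Nat.cast_nonneg j
      have hn0 : (0 : ℝ) ≤ n := Nat.cast_nonneg n
      have hN0 : (0 : ℝ) ≤ N := Nat.cast_nonneg N
      have h1 : (n : ℝ) ^ 2 ≤ ((N : ℝ) + 1) ^ 2 := pow_le_pow_left₀ hn0 hnN.1 2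
      have h2 : al r * (n : ℝ) ^ 2 ≤ al r * ((N : ℝ) + 1) ^ 2 :=
        mul_le_mul_of_nonneg_left h1 (by linarith only [hal])
      have h3 : al r * (2 * (N : ℝ) + 1) ≤ 1 * (2 * (N : ℝ) + 1) :=
        mul_le_mul_of_nonneg_right hal1.le (by linarith only [hN0])
      have h4 : al r * ((N : ℝ) + 1) ^ 2 = al r * N ^ 2 + al r * (2 * (N : ℝ) + 1) := by ring
      rw [hpE]
      linarith only [h2, h3, h4, htn.1, hj0, hnN.2, hN2, hrr]
    refine ⟨H, c, w, A, v1, v2, hW, hA, hT, ?_⟩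
    exact HG n (by rcases hn with h | h <;> omega) V G c H w A v1 v2 hW hA hT hG.mx
      (X_MAINB.dev hr hW hA hE)
  rcases h5 with ⟨h1, c, H, h2⟩ | h | ⟨h1, _⟩ | h | ⟨h1, c, H, h2, _⟩
  · exact Or.inl ⟨h1, gad N (Or.inl rfl) c H h2⟩
  · exact Or.inr (Or.inl h)
  · exact Or.inr (Or.inr (Or.inl ⟨h1, HS m (by omega) N j hmj hlt h1 V G hG⟩))
  · exact Or.inr (Or.inr (Or.inr (Or.inl h)))
  · exact Or.inr (Or.inr (Or.inr (Or.inr ⟨h1, gad (N + 1) (Or.inr rfl) c H h2⟩)))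

end Pool.Agent.Work.MP_5532fa_up
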