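import Pool.Agent.Work.MP_5532fa_x.Interface3

/-!
# MP_5532fa_co, sixth round, block MAINC
-/

open Finset

namespace Pool.Agent.Work.MP_5532fa_up

open MP5532fa (specRad qf pE)

namespace X_MAINC

theorem opt_mono {r : ℕ} {m n : ℕ} {ε δ δ' : ℝ} {y : Fin r → ℕ} {c : ℝ} (h : Opt m n ε δ y c)
    (hle : δ' ≤ δ) : Opt m n ε δ' y c := fun z c' h1 h2 h3 h4 =>
  h z c' h1 h2 (h3.trans (mul_le_mul_of_nonneg_right hle (Nat.cast_nonneg n))) h4

end X_MAINC

theorem x_MAINC (hRULEC : Stmt_RULEC) : Stmt_MAINC := by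
  classical
  intro r ε hr hε
  have hrr : (3 : ℝ) ≤ r := by exact_mod_cast hr
  obtain ⟨d, n0, hd, HS⟩ := hRULEC r ε hr hε
  set δ : ℝ := min (min d ε) (1 / (4 * (r : ℝ) ^ 2)) with hδd
  have hδ : 0 < δ := lt_min (lt_min hd hε) (by positivity)
  have l1 : δ ≤ d := (min_le_left _ _).trans (min_le_left _ _)
  have l3 : δ ≤ ε := (min_le_left _ _).trans (min_le_right _ _)
  have l2 : δ ≤ 1 / (4 * (r : ℝ) ^ 2) := min_le_right _ _
  obtain ⟨εF, hεF, HF⟩ := tri pFIN4 pLOWX pTN r δ hr hδ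
  obtain ⟨dC, nC, hdC, HC⟩ := fdcase pB1U2 pB1C2 pD1B pD2V pD3V pEBV pE1B pE2V pE3V pTN pGD pGE
    r εF hr hεF
  obtain ⟨nF, HF'⟩ := HF dC hdC
  set M := n0 + nC + nF + 1 with hM
  refine ⟨min δ εF, M ^ 2 + 1, lt_min hδ hεF, ?_⟩
  intro m hm N j hmj hlt V _ G hG
  have hNM := large_N pTN hr M hm hlt
  have hN1 : (1 : ℝ) ≤ N := by
    have : 1 ≤ N := by omega
    exact_mod_cast this
  have hN0 : (0 : ℝ) ≤ N := by linarith only [hN1]
  have haN : (0 : ℝ) ≤ al r * N := by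
    have := al_ge hr
    exact mul_nonneg (by linarith only [this]) (by linarith only [hN1])
  have em : 2 * (m : ℝ) = 2 * ((tn r N : ℝ) + j) := by rw [hmj]; push_cast; ring
  have l4 : min δ εF ≤ d := (min_le_left _ _).trans l1
  rcases HF' N (by omega) j m hmj hlt V G hG with ⟨c, H, hC0, hs, hj⟩ | ⟨c, H, hC0, hs, hj⟩ |
    ⟨hRgA, hup, x, lam, c, H, w, hFD⟩
  · obtain ⟨c0, h1, h2, h3⟩ := HS N (by omega) m V G c H (hC0.mono l1) hs hG
    exact Or.inr ⟨N, _, c0, Or.inl ⟨rfl, hj.trans (mul_le_mul_of_nonneg_right l3 hN0)⟩, hs,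
      (sum_card_cl H c).trans hC0.card, h1, h2, X_MAINC.opt_mono h3 l4⟩
  · obtain ⟨c0, h1, h2, h3⟩ := HS (N + 1) (by omega) m V G c H (hC0.mono l1) hs hG
    refine Or.inr ⟨N + 1, _, c0, Or.inr ⟨rfl, le_trans (mul_le_mul_of_nonneg_right ?_ haN) hj⟩,
      hs, (sum_card_cl H c).trans hC0.card, h1, h2, X_MAINC.opt_mono h3 l4⟩
    linarith only [l3]
  · refine Or.inl ⟨le_trans (mul_le_mul_of_nonneg_right (min_le_right _ _) hN0) hRgA.1,
      hup.trans (mul_le_mul_of_nonneg_right (by linarith only [l3]) haN), ?_⟩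
    have hRgV : RgV r N j := by
      show (j : ℝ) ≤ (1 - 2 / r + 1 / (4 * r ^ 2)) * (al r * N)
      refine hup.trans (mul_le_mul_of_nonneg_right ?_ haN)
      linarith only [l2]
    exact HC N (by omega) j hRgA hRgV V G x lam c H w hFD hG.1 hG.2.1 hG.mx
      (by rw [hG.2.2.1, em])

end Pool.Agent.Work.MP_5532fa_up
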