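import Pool.Agent.Work.MP_5532fa_x.Interface4

/-!
# MP_5532fa_co, sixth round, block MAINR
-/

open Finset

namespace Pool.Agent.Work.MP_5532fa_up

open MP5532fa (specRad qf pE)

namespace X_MAINR

theorem opt_mono {r : ℕ} {m n : ℕ} {K K' : ℝ} {y : Fin r → ℕ} {c : ℝ} (h : OptR m n K y c)
    (hle : K ≤ K') : OptR m n K' y c := by
  intro z c' h1 h2 h3 h4
  have h5 := h z c' h1 h2 h3 h4
  have h6 : K * (1 + |kk m n y| + |kk m n z|) / √(n : ℝ)
      ≤ K' * (1 + |kk m n y| + |kk m n z|) / √(n : ℝ) := by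
    refine div_le_div_of_nonneg_right (mul_le_mul_of_nonneg_right hle ?_) (Real.sqrt_nonneg _)
    have := abs_nonneg (kk m n y)
    have := abs_nonneg (kk m n z)
    positivity
  linarith only [h5, h6]

/-- `1 - 2/r ≥ 1/3` and related facts -/
theorem two_div {r : ℕ} (hr : 3 ≤ r) : 2 / (r : ℝ) ≤ 2 / 3 ∧ 0 < 2 / (r : ℝ) := by
  have hrr : (3 : ℝ) ≤ r := by exact_mod_cast hr
  exact ⟨div_le_div_of_nonneg_left (by norm_num) (by norm_num) hrr, by positivity⟩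

/-- the bounds of `R0` -/
theorem R0_bounds {r m N j : ℕ} (hr : 3 ≤ r) (hN : 5 * r ≤ N) {ε : ℝ} (hε : ε ≤ 1 / 42)
    (hmj : m = tn r N + j) (hlt : m < tn r (N + 1))
    (hj : (1 - 2 / r - ε) * (al r * N) ≤ j) :
    0 ≤ al r * ((N + 1 : ℕ) : ℝ) ^ 2 - 2 * m + 2 * ((r : ℝ) - 1) ∧
    al r * ((N + 1 : ℕ) : ℝ) ^ 2 - 2 * m + 2 * ((r : ℝ) - 1) ≤ 2 * ((N + 1 : ℕ) : ℝ) := by
  have hrr : (3 : ℝ) ≤ r := by exact_mod_cast hr
  have hNN : 5 * (r : ℝ) ≤ N := by exact_mod_cast hN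
  have h1 := abs_le.mp (pTN r hr (N + 1)).2.1
  have h2 := abs_le.mp (pTN r hr N).2.1
  have h3 : (m : ℝ) + 1 ≤ (tn r (N + 1) : ℝ) := by exact_mod_cast hlt
  have h4 : (m : ℝ) = (tn r N : ℝ) + j := by rw [hmj]; push_cast; ring
  have a1 := al_ge hr
  have a2 := al_lt hr
  obtain ⟨b1, b2⟩ := two_div hr
  constructor
  · linarith only [h1.2, h3, hrr]
  · have h5 : al r * ((N + 1 : ℕ) : ℝ) ^ 2 = al r * (N : ℝ) ^ 2 + 2 * (al r * N) + al r := by
      push_cast; ring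
    have h6 : ((N + 1 : ℕ) : ℝ) = (N : ℝ) + 1 := by push_cast; ring
    rw [h5, h6]
    have hN0 : (0 : ℝ) ≤ N := by linarith only [hNN, hrr]
    have h7 : al r * (N : ℝ) ≤ N := by
      calc al r * (N : ℝ) ≤ 1 * N := mul_le_mul_of_nonneg_right a2.le hN0
        _ = N := one_mul _
    have h8 : 0 ≤ al r * (N : ℝ) := mul_nonneg (by linarith only [a1]) hN0
    have h9 : (1 - 2 / 3 - 1 / 42) * (al r * N) ≤ (1 - 2 / (r : ℝ) - ε) * (al r * N) :=
      mul_le_mul_of_nonneg_right (by linarith only [b1, hε]) h8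
    nlinarith only [h2.1, h4, hj, h7, h9, hNN, hrr, a2]

theorem sqrt4_large {K : ℝ} (hK : 1 ≤ K) {n : ℕ} (hn : K ^ 4 ≤ n) : K ≤ √(√(n : ℝ)) := by
  have h1 : K ^ 2 ≤ √(n : ℝ) := by
    apply Real.le_sqrt_of_sq_le
    have h2 : (K ^ 2) ^ 2 = K ^ 4 := by ring
    rw [h2]
    exact hn
  exact Real.le_sqrt_of_sq_le h1

end X_MAINR

theorem x_MAINR (hKBD : Stmt_KBD) (hRULR : Stmt_RULR) : Stmt_MAINR := by
  classical
  intro r hr
  have hrr : (3 : ℝ) ≤ r := by exact_mod_cast hr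
  obtain ⟨d, K1, n1, hd, hK1, HS⟩ := hKBD r hr
  obtain ⟨K2, n2, hK2, HR⟩ := hRULR r hr
  obtain ⟨b1, b2⟩ := X_MAINR.two_div hr
  have ha := al_ge hr
  have ha' := al_lt hr
  obtain ⟨nT, HT⟩ := pTHRDB r (1 / 20) hr (by norm_num)
  refine ⟨max K1 K2, le_max_of_le_left hK1, ?_⟩
  intro ε hε hε42
  set δ : ℝ := min (min d ε) (min (1 / (4 * (r : ℝ) ^ 2)) (1 / 42)) with hδd
  have hδ : 0 < δ := lt_min (lt_min hd hε) (lt_min (by positivity) (by norm_num))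
  have l1 : δ ≤ d := (min_le_left _ _).trans (min_le_left _ _)
  have l3 : δ ≤ ε := (min_le_left _ _).trans (min_le_right _ _)
  have l2 : δ ≤ 1 / (4 * (r : ℝ) ^ 2) := (min_le_right _ _).trans (min_le_left _ _)
  have l5 : δ ≤ 1 / 42 := (min_le_right _ _).trans (min_le_right _ _)
  obtain ⟨εF, hεF, HF⟩ := tri pFIN4 pLOWX pTN r δ hr hδ
  obtain ⟨dC, nC, hdC, HC⟩ := fdcase pB1U2 pB1C2 pD1B pD2V pD3V pEBV pE1B pE2V pE3V pTN pGD pGE
    r εF hr hεF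
  obtain ⟨nF, HF'⟩ := HF dC hdC
  set M := n1 + n2 + nC + nF + nT + 5 * r + ⌈K1 ^ 4⌉₊ + 1 with hM
  refine ⟨M ^ 2 + 1, ?_⟩
  intro m hm N j hmj hlt hX V _ G hG
  have hNM := large_N pTN hr M hm hlt
  have hN1 : (1 : ℝ) ≤ N := by
    have : 1 ≤ N := by omega
    exact_mod_cast this
  have hN0 : (0 : ℝ) ≤ N := by linarith only [hN1]
  have haN : (0 : ℝ) < al r * N :=
    mul_pos (by linarith only [ha]) (by linarith only [hN1])
  have em : 2 * (m : ℝ) = 2 * ((tn r N : ℝ) + j) := by rw [hmj]; push_cast; ring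
  have hX' : (1 - 2 / r - ε) * (al r * N) ≤ j := by
    rwa [le_div_iff₀ haN] at hX
  have hjlow : (1 / 5 : ℝ) * N ≤ j := by
    have h1 : (1 - 2 / 3 - 1 / 42 : ℝ) * (al r * N) ≤ (1 - 2 / r - ε) * (al r * N) :=
      mul_le_mul_of_nonneg_right (by linarith only [b1, hε42]) haN.le
    have h2 : 2 / 3 * (N : ℝ) ≤ al r * N := mul_le_mul_of_nonneg_right ha hN0
    linarith only [h1, h2, hX', hN1]
  rcases HF' N (by omega) j m hmj hlt V G hG with ⟨c, H, hC0, hs, hj⟩ | ⟨c, H, hC0, hs, hj⟩ |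
    ⟨hRgA, hup, x, lam, c, H, w, hFD⟩
  · exfalso
    have h1 : δ * (N : ℝ) ≤ 1 / 42 * N := mul_le_mul_of_nonneg_right l5 hN0
    linarith only [h1, hj, hjlow, hN1]
  · obtain ⟨R1, R2⟩ := X_MAINR.R0_bounds hr (by omega) hε42 hmj hlt hX'
    obtain ⟨c0, h1, h2⟩ := HS (N + 1) (by omega) m V G c H (hC0.mono l1) hs hG R1 R2
    have hsum : ∑ i, (cl H c i).card = N + 1 := (sum_card_cl H c).trans hC0.card
    have hq : K1 ≤ √(√((N + 1 : ℕ) : ℝ)) := by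
      refine X_MAINR.sqrt4_large hK1 ?_
      have h5 : K1 ^ 4 ≤ (⌈K1 ^ 4⌉₊ : ℝ) := Nat.le_ceil _
      have h6 : ((⌈K1 ^ 4⌉₊ : ℕ) : ℝ) ≤ ((N + 1 : ℕ) : ℝ) := by
        exact_mod_cast (by omega : ⌈K1 ^ 4⌉₊ ≤ N + 1)
      exact h5.trans h6
    have hkk : |kk m (N + 1) (fun i => (cl H c i).card)| ≤ √((N + 1 : ℕ) : ℝ) := by
      refine h1.trans ?_
      calc K1 * √(√((N + 1 : ℕ) : ℝ)) ≤ √(√((N + 1 : ℕ) : ℝ)) * √(√((N + 1 : ℕ) : ℝ)) :=
            mul_le_mul_of_nonneg_right hq (Real.sqrt_nonneg _)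
        _ = √((N + 1 : ℕ) : ℝ) := Real.mul_self_sqrt (Real.sqrt_nonneg _)
    have h3 := HR (N + 1) (by omega) m (fun i => (cl H c i).card) V G c0 hG hsum hs hkk h2
    exact Or.inr ⟨N + 1, _, c0, rfl, hsum, hs,
      h1.trans (mul_le_mul_of_nonneg_right (le_max_left _ _) (Real.sqrt_nonneg _)), h2,
      X_MAINR.opt_mono h3 (le_max_right _ _)⟩
  · have hRgV : RgV r N j := by
      show (j : ℝ) ≤ (1 - 2 / r + 1 / (4 * r ^ 2)) * (al r * N)
      refine hup.trans (mul_le_mul_of_nonneg_right ?_ haN.le)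
      linarith only [l2]
    have hXle : (j : ℝ) / (al r * N) ≤ 1 - 2 / r + ε := by
      rw [div_le_iff₀ haN]
      refine hup.trans (mul_le_mul_of_nonneg_right ?_ haN.le)
      linarith only [l3]
    rcases HC N (by omega) j hRgA hRgV V G x lam c H w hFD hG.1 hG.2.1 hG.mx
      (by rw [hG.2.2.1, em]) with hD | hE
    · exact Or.inl ⟨hD, hXle⟩
    · exfalso
      refine HT N (by omega) j ⟨by linarith only [hjlow, hN0], hRgV⟩ ?_ V G hE hG.mx
      set X : ℝ := (j : ℝ) / (al r * N) with hXd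
      have hX0 : 0 ≤ X := by rw [hXd]; positivity
      have hX1 : X ≤ 1 := by
        rw [hXd, div_le_one haN]
        exact j_le pTN hr hmj hlt
      have hX4 : X ^ 4 ≤ 1 := pow_le_one₀ hX0 hX1
      have h6 : (6 : ℝ) ≤ r * ((r : ℝ) - 1) := by nlinarith only [hrr]
      have h7 : X ^ 4 / (r * ((r : ℝ) - 1)) ≤ 1 / 6 := by
        rw [div_le_div_iff₀ (by linarith only [h6]) (by norm_num)]
        linarith only [hX4, h6]
      have h8 : ((r : ℝ) + 1) * (1 - 2 / r - 1 / 42) ≤ ((r : ℝ) + 1) * X :=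
        mul_le_mul_of_nonneg_left (by linarith only [hX, hε42]) (by linarith only [hrr])
      have h9 : ((r : ℝ) + 1) * (1 - 2 / r - 1 / 42)
          = 41 / 42 * (r : ℝ) + 41 / 42 - 2 - 2 / r := by
        have : (r : ℝ) ≠ 0 := by linarith only [hrr]
        field_simp
        ring
      rw [h9] at h8
      linarith only [h7, h8, b1, hrr]

end Pool.Agent.Work.MP_5532fa_up
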