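import Pool.Agent.Work.MP_5532fa_x.Interface2

/-!
# MP_5532fa_co, sixth round: block MAINS
-/

open Finset

namespace Pool.Agent.Work.MP_5532fa_up

open MP5532fa (specRad qf pE)

namespace X_MAINS

theorem eo_WE {V : Type} [Fintype V] {r N : ℕ} {G : SimpleGraph V} {H A B : Finset V}
    {c : V → Fin r} {w u : V} {i0 : Fin r} (h : WE G N H c w u A B i0) :
    eo G H ≤ A.card + B.card + 2 := by
  classical
  unfold eo
  refine (Finset.card_le_card
    (t := (A.image (fun b => (w, b)) ∪ B.image (fun b => (u, b))) ∪ {(w, u), (u, w)}) ?_).trans ?_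
  · intro e he
    rw [Finset.mem_filter] at he
    obtain ⟨_, h1, h2⟩ := he
    rw [Finset.mem_union, Finset.mem_union]
    rcases (h.adj _ _).1 h1 with h3 | h3 | h3 | h3 | h3 | h3 | h3
    · exact absurd h3.1 h2
    · exact Or.inl (Or.inl (Finset.mem_image.2 ⟨e.2, h3.2, Prod.ext h3.1.symm rfl⟩))
    · exact absurd (h.hA h3.2) h2
    · exact Or.inl (Or.inr (Finset.mem_image.2 ⟨e.2, h3.2, Prod.ext h3.1.symm rfl⟩))
    · exact absurd (h.hB h3.2) h2
    · refine Or.inr ?_
      rw [Finset.mem_insert, Finset.mem_singleton]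
      exact Or.inl (Prod.ext h3.1 h3.2)
    · refine Or.inr ?_
      rw [Finset.mem_insert, Finset.mem_singleton]
      exact Or.inr (Prod.ext h3.1 h3.2)
  · refine (Finset.card_union_le _ _).trans ?_
    have h1 := Finset.card_union_le (A.image (fun b => (w, b))) (B.image (fun b => (u, b)))
    have h2 : (A.image (fun b => (w, b))).card ≤ A.card := Finset.card_image_le
    have h3 : (B.image (fun b => (u, b))).card ≤ B.card := Finset.card_image_le
    have h4 : ({(w, u), (u, w)} : Finset (V × V)).card ≤ 2 := Finset.card_le_two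
    omega

/-- the graphs of `TypeS` are close to complete multipartite graphs -/
theorem c0_typeS {V : Type} [Fintype V] {r N : ℕ} {δ : ℝ} (hr : 3 ≤ r) {G : SimpleGraph V}
    {H A B : Finset V} {c : V → Fin r} {w u : V} {i0 : Fin r} (h : WE G N H c w u A B i0)
    (hA : A.card + 1 = r) (hsum : ∑ i, (cl H c i).card ^ 2 + 2 * tn r N = N ^ 2 + 2)
    (hδ : 3 * (r : ℝ) ≤ δ * N) : C0 r δ N G c H := by
  have hrr : (3 : ℝ) ≤ r := by exact_mod_cast hr
  refine ⟨h.card, SM1a.we_ind h, ?_, ?_, ?_⟩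
  · rw [SM1a.we_mis h]
    push_cast
    linarith only [hδ, hrr]
  · intro i
    have htn := (pTN r hr N).2.1
    rw [abs_le] at htn
    have hcs : ∑ k, sz H c k = (N : ℝ) := by
      have := sum_card_cl H c
      rw [h.card] at this
      unfold sz
      exact_mod_cast this
    have hmo := mo_two hr (n := N) (y := sz H c) hcs
    have h6 : (sz H c i - (N : ℝ) / r) ^ 2 ≤ mo 2 N (sz H c) := by
      unfold mo
      exact Finset.single_le_sum (f := fun i => (sz H c i - (N : ℝ) / r) ^ 2)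
        (fun _ _ => sq_nonneg _) (Finset.mem_univ i)
    have hsumR : ∑ i, sz H c i ^ 2 + 2 * (tn r N : ℝ) = (N : ℝ) ^ 2 + 2 := by
      unfold sz
      exact_mod_cast hsum
    have h7 : mo 2 N (sz H c) ≤ r + 2 := by
      have e : al r * (N : ℝ) ^ 2 = (N : ℝ) ^ 2 - (N : ℝ) ^ 2 / r := by unfold al; ring
      rw [hmo]
      linarith only [htn, hsumR, e]
    have h8 : (sz H c i - (N : ℝ) / r) ^ 2 ≤ (3 * (r : ℝ)) ^ 2 := by
      have h9 : (r : ℝ) + 2 ≤ (3 * (r : ℝ)) ^ 2 := by nlinarith only [hrr]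
      linarith only [h6, h7, h9]
    have h10 := abs_le_of_sq_le_sq h8 (by linarith only [hrr])
    exact h10.trans hδ
  · have h1 := eo_WE h
    have h2 := SM1a.we_cardB h
    have h3 : eo G H ≤ 3 * r := by omega
    have h4 : (eo G H : ℝ) ≤ 3 * (r : ℝ) := by exact_mod_cast h3
    exact h4.trans hδ

end X_MAINS

theorem x_MAINS (hE3G : Stmt_E3G) (hW3P : Stmt_W3P) : Stmt_MAINS := by
  intro r hr
  have hrr : (3 : ℝ) ≤ r := by exact_mod_cast hr
  have hal := al_ge hr
  obtain ⟨κ, hκ, H5⟩ := pMAIN5 r hr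
  obtain ⟨m1, H5⟩ := H5 (1 / 42) (by norm_num)
  obtain ⟨d1, n1, hd1, HE⟩ := hE3G r hr
  obtain ⟨d2, n2, hd2, HW⟩ := hW3P r hr
  have hδ : 0 < min d1 d2 := lt_min hd1 hd2
  obtain ⟨nR, hnR⟩ := exists_nat_gt (3 * (r : ℝ) / min d1 d2 + 100 * (r : ℝ))
  refine ⟨m1 + ((n1 + n2 + nR + 1) ^ 2 + 1), ?_⟩
  intro m hm N j hmj hlt hj V _ G hG
  have hNM := large_N pTN hr (n1 + n2 + nR + 1) (show (n1 + n2 + nR + 1) ^ 2 + 1 ≤ m by omega) hlt
  have hNR : 3 * (r : ℝ) / min d1 d2 + 100 * (r : ℝ) < N :=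
    lt_trans hnR (by exact_mod_cast (by omega : nR < N))
  have hp1 : 0 < 3 * (r : ℝ) / min d1 d2 := by positivity
  have hN100 : 100 * (r : ℝ) < N := by linarith only [hNR, hp1]
  have hN0 : (0 : ℝ) < N := by linarith only [hN100, hrr]
  have hδN : 3 * (r : ℝ) ≤ min d1 d2 * N := by
    have h1 : 3 * (r : ℝ) / min d1 d2 < N := by linarith only [hNR, hrr]
    rw [div_lt_iff₀ hδ] at h1
    linarith only [h1]
  have haN : (0 : ℝ) < al r * N := by positivity
  have h4 : (j : ℝ) + 2 = 2 * r := by exact_mod_cast hj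
  have hkap1 : (1 : ℝ) / 3 ≤ 1 - 2 / r := by
    have : 2 / (r : ℝ) ≤ 2 / 3 := div_le_div_of_nonneg_left (by norm_num) (by norm_num) hrr
    linarith only [this]
  have hsmall : (j : ℝ) / (al r * N) < 1 / 3 - 1 / 42 := by
    rw [div_lt_iff₀ haN]
    have h5 : (1 / 3 - 1 / 42) * (2 / 3 * (N : ℝ)) ≤ (1 / 3 - 1 / 42) * (al r * N) :=
      mul_le_mul_of_nonneg_left (mul_le_mul_of_nonneg_right hal hN0.le) (by norm_num)
    linarith only [h4, h5, hN100, hrr]
  have hcov : Cov r (1 / 42) N j ∨ CovS r κ N m := by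
    refine Or.inl (Or.inr (Or.inr ⟨by omega, ?_⟩))
    linarith only [hsmall, hkap1]
  rcases H5 m (by omega) N j hmj hlt hcov V G hG with h | h | h | h | h
  · exfalso
    have := h.1
    omega
  · exact absurd hj h.2.1
  · obtain ⟨-, H, c, w, u, A, B, i0, hWE, hOne, hA, hsum⟩ := h
    have hC : C0 r (min d1 d2) N G c H := X_MAINS.c0_typeS hr hWE hA hsum hδN
    have hTop := HE N (by omega) V G H c w u A B i0 (hC.mono (min_le_left _ _)) hWE hOne hG.mx
    exact ⟨H, c, w, u, A, B, i0, hWE, hOne, hA, hTop, hsum,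
      HW N (by omega) j hj V G H c w u A B i0 (hC.mono (min_le_right _ _)) hG.mx hWE hA hsum⟩
  · exfalso
    have := h.1
    omega
  · exfalso
    have := h.1
    linarith only [this, hsmall, hkap1]

end Pool.Agent.Work.MP_5532fa_up
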