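import Pool.Agent.Work.MP_5532fa_x.Interface3

/-!
# MP_5532fa_co, sixth round: block MKW
-/

open Finset

namespace Pool.Agent.Work.MP_5532fa_up

open MP5532fa (specRad qf pE)

namespace X_MKW

private theorem sumD {r : ℕ} (t : ℕ) (k : Fin r) :
    ∑ i : Fin r, (if i = k then t + 1 else 1) = r + t := by
  have h : ∀ i : Fin r, (if i = k then t + 1 else 1) = 1 + (if i = k then t else 0) := by
    intro i
    split_ifs <;> omega
  rw [Finset.sum_congr rfl fun i _ => h i, Finset.sum_add_distrib, Finset.sum_ite_eq']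
  simp

private theorem sumE {r : ℕ} (t : ℕ) (k l : Fin r) (hkl : l ≠ k) :
    ∑ i : Fin r, (if i = l then 0 else if i = k then t + 1 else 1) + 1 = r + t := by
  have h1 : ∑ i : Fin r, (if i = l then 1 else 0) = 1 := by
    rw [Finset.sum_ite_eq']
    simp
  have h4 : ∑ i : Fin r, (if i = l then 0 else if i = k then t + 1 else 1) +
      ∑ i : Fin r, (if i = l then 1 else 0) = r + t := by
    rw [← sumD t k, ← Finset.sum_add_distrib]
    refine Finset.sum_congr rfl fun i _ => ?_
    by_cases h2 : i = l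
    · simp [h2, hkl]
    · rw [if_neg h2, if_neg h2, add_zero]
  rw [h1] at h4
  exact h4

private theorem card_eq_sum {V : Type} {r : ℕ} (S : Finset V) (c : V → Fin r) (a : Fin r → ℕ)
    (h : ∀ i, (cl S c i).card = a i) : S.card = ∑ i, a i := by
  rw [← sum_card_cl S c]
  exact Finset.sum_congr rfl fun i _ => h i

end X_MKW

theorem x_MKW : Stmt_MKW := by
  classical
  intro r hr n t z hz hzt
  have hcard : n + 2 ≤ Fintype.card (Fin (n + 2)) := by simp
  obtain ⟨i0, hi0⟩ : ∃ i0 : Fin r, (i0 : ℕ) = 0 := ⟨⟨0, by omega⟩, rfl⟩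
  obtain ⟨i1, hi1⟩ : ∃ i1 : Fin r, (i1 : ℕ) = 1 := ⟨⟨1, by omega⟩, rfl⟩
  obtain ⟨i2, hi2⟩ : ∃ i2 : Fin r, (i2 : ℕ) = 2 := ⟨⟨2, by omega⟩, rfl⟩
  have h01 : i0 ≠ i1 := fun h => by
    have := congrArg Fin.val h
    omega
  have h02 : i0 ≠ i2 := fun h => by
    have := congrArg Fin.val h
    omega
  have h12 : i1 ≠ i2 := fun h => by
    have := congrArg Fin.val h
    omega
  refine ⟨?_, ?_, ?_⟩
  · -- form D
    obtain ⟨a, ha⟩ : ∃ a : Fin r → ℕ, ∀ i, a i = if i = i2 then t + 1 else 1 := ⟨_, fun _ => rfl⟩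
    have haz : ∀ i, a i ≤ z i := by
      intro i
      have := hzt i
      rw [ha]
      split_ifs <;> omega
    obtain ⟨H, c, w, u, A, hwu, hw, hu, hA, hH, hcH, hcA⟩ :=
      pEMB r n z a (Fin (n + 2)) (by omega) hz haz hcard
    have hA0 : (cl A c i0).card = 1 := by rw [hcA, ha, if_neg h02]
    have hA1 : (cl A c i1).card = 1 := by rw [hcA, ha, if_neg h12]
    obtain ⟨v1, hv1⟩ := Finset.card_eq_one.mp hA0
    obtain ⟨v2, hv2⟩ := Finset.card_eq_one.mp hA1
    have hm1 : v1 ∈ cl A c i0 := by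
      rw [hv1]
      exact mem_singleton_self _
    have hm2 : v2 ∈ cl A c i1 := by
      rw [hv2]
      exact mem_singleton_self _
    have hc1 : c v1 = i0 := (mem_cl.1 hm1).2
    have hc2 : c v2 = i1 := (mem_cl.1 hm2).2
    refine ⟨gD H c w A v1 v2, H, c, w, A, v1, v2, gD_WD hH hw hA ?_ ?_ ?_ ?_, ?_, hcH⟩
    · rw [hc1, hc2]
      exact h01
    · rw [hc1]
      exact hv1
    · rw [hc2]
      exact hv2
    · intro i
      rw [← Finset.card_pos, hcA, ha]
      split_ifs <;> omega
    · rw [X_MKW.card_eq_sum A c a hcA, Finset.sum_congr rfl fun i _ => ha i]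
      exact X_MKW.sumD t i2
  · -- form E
    obtain ⟨a, ha⟩ : ∃ a : Fin r → ℕ, ∀ i, a i = if i = i0 then 0 else if i = i2 then t + 1
      else 1 := ⟨_, fun _ => rfl⟩
    have haz : ∀ i, a i ≤ z i := by
      intro i
      have := hzt i
      rw [ha]
      split_ifs <;> omega
    obtain ⟨H, c, w, u, A, hwu, hw, hu, hA, hH, hcH, hcA⟩ :=
      pEMB r n z a (Fin (n + 2)) (by omega) hz haz hcard
    have hA1 : (cl A c i1).card = 1 := by rw [hcA, ha, if_neg (Ne.symm h01), if_neg h12]
    have hex : ∀ i, ∃ v ∈ cl H c i, i = i1 → v ∉ A := by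
      intro i
      by_cases h : i = i1
      · have h1 : (cl A c i1).card < (cl H c i1).card := by
          rw [hA1, hcH]
          have := hzt i1
          omega
        obtain ⟨v, hv, hvA⟩ := Finset.exists_mem_notMem_of_card_lt_card h1
        refine ⟨v, ?_, ?_⟩
        · rw [h]
          exact hv
        · intro _ hvA'
          exact hvA (mem_cl.2 ⟨hvA', (mem_cl.1 hv).2⟩)
      · have h1 : 0 < (cl H c i).card := by
          rw [hcH]
          have := hzt i
          omega
        obtain ⟨v, hv⟩ := Finset.card_pos.mp h1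
        exact ⟨v, hv, fun h2 => absurd h2 h⟩
    choose s hs hsA using hex
    have hcs : ∀ i, c (s i) = i := fun i => (mem_cl.1 (hs i)).2
    have hsH : ∀ i, s i ∈ H := fun i => (mem_cl.1 (hs i)).1
    obtain ⟨B, hB⟩ : ∃ B : Finset (Fin (n + 2)), ∀ v, v ∈ B ↔ ∃ i, i ≠ i0 ∧ s i = v :=
      ⟨(univ.filter fun i => i ≠ i0).image s, fun v => by simp⟩
    have hBH : B ⊆ H := by
      intro v hv
      obtain ⟨i, _, hi⟩ := (hB v).1 hv
      rw [← hi]
      exact hsH i
    refine ⟨gE H c w u A B, H, c, w, u, A, B, i0, gE_WE hH hw hu hwu hA hBH ?_ ?_ ?_ ?_ ?_, ?_,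
      hcH⟩
    · rw [← Finset.card_eq_zero, hcA, ha, if_pos rfl]
    · rw [Finset.eq_empty_iff_forall_notMem]
      intro v hv
      rw [mem_cl, hB] at hv
      obtain ⟨⟨i, hi, hiv⟩, hc⟩ := hv
      apply hi
      rw [← hcs i, hiv, hc]
    · intro i hi
      rw [← Finset.card_pos, hcA, ha, if_neg hi]
      split_ifs <;> omega
    · intro i hi
      rw [Finset.card_eq_one]
      refine ⟨s i, ?_⟩
      ext v
      rw [mem_cl, hB, mem_singleton]
      constructor
      · rintro ⟨⟨k, _, hkv⟩, hc⟩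
        rw [← hkv]
        congr 1
        rw [← hcs k, hkv, hc]
      · intro h
        exact ⟨⟨i, hi, h.symm⟩, by rw [h, hcs]⟩
    · intro h
      exact hsA i1 rfl (h ((hB _).2 ⟨i1, Ne.symm h01, rfl⟩))
    · rw [X_MKW.card_eq_sum A c a hcA, Finset.sum_congr rfl fun i _ => ha i]
      exact X_MKW.sumE t i2 i0 h02
  · -- form S
    have haz : ∀ i, (fun _ : Fin r => 1) i ≤ z i := by
      intro i
      have := hzt i
      show 1 ≤ z i
      omega
    obtain ⟨H, c, w, u, T, hwu, hw, hu, hT, hH, hcH, hcT⟩ :=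
      pEMB r n z (fun _ => 1) (Fin (n + 2)) (by omega) hz haz hcard
    obtain ⟨p, hp⟩ := Finset.card_eq_one.mp (hcT i0)
    obtain ⟨q, hq⟩ := Finset.card_eq_one.mp (hcT i1)
    have hmp : p ∈ cl T c i0 := by
      rw [hp]
      exact mem_singleton_self _
    have hmq : q ∈ cl T c i1 := by
      rw [hq]
      exact mem_singleton_self _
    have hcp : c p = i0 := (mem_cl.1 hmp).2
    have hcq : c q = i1 := (mem_cl.1 hmq).2
    have hqH : q ∈ H := hT (mem_cl.1 hmq).1
    have hsub : ({q} : Finset (Fin (n + 2))) ⊆ cl H c i1 := by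
      intro v hv
      rw [mem_singleton] at hv
      rw [hv, mem_cl]
      exact ⟨hqH, hcq⟩
    obtain ⟨L, hqL, hLH, hLc⟩ := Finset.exists_subsuperset_card_eq (n := t + 2) hsub
      (by rw [card_singleton]; omega) (by rw [hcH]; have := hzt i1; omega)
    refine ⟨gF H c w T (fun x y => x = p ∧ y ∈ L), H, c, w, T, L, p, q,
      ⟨hH, hw, hT, hcT, (mem_cl.1 hmp).1, (mem_cl.1 hmq).1, ?_, ?_, ?_, ?_⟩, hLc, hcH⟩
    · rw [hcp, hcq]
      exact h01
    · rw [hcq]
      exact hLH
    · exact hqL (mem_singleton_self _)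
    · intro x y
      constructor
      · rintro ⟨_, h⟩
        exact h
      · intro h
        refine ⟨?_, h⟩
        rcases h with h | h | h
        · rintro rfl
          exact h.2.2.1 rfl
        · rintro rfl
          exact hw (h.1 ▸ hT h.2)
        · rintro rfl
          exact hw (h.1 ▸ hT h.2)

end Pool.Agent.Work.MP_5532fa_up
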