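import Pool.Agent.Work.MP_5532fa_x.Interface2

/-!
# MP_5532fa_co, sixth round, block PH1: the largest entry
-/

open Finset

namespace Pool.Agent.Work.MP_5532fa_up

open MP5532fa (specRad qf pE)

namespace X_PH1

theorem dev_sq {r : ℕ} (hr : 0 < r) (y : Fin r → ℝ) (n : ℝ) (h : ∑ l, y l = n) :
    ∑ l, (y l - n / r) ^ 2 = ∑ l, y l ^ 2 - n ^ 2 / r := by
  have hr' : (r : ℝ) ≠ 0 := by positivity
  have e : ∀ l, (y l - n / r) ^ 2 = y l ^ 2 - 2 * (n / r) * y l + (n / r) ^ 2 := fun l => by ring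
  simp only [e, Finset.sum_add_distrib, Finset.sum_sub_distrib, ← Finset.mul_sum, h,
    Finset.sum_const, Finset.card_univ, Fintype.card_fin, nsmul_eq_mul]
  field_simp
  ring

theorem abs_le_of_sum {r : ℕ} (d : Fin r → ℝ) (σ : ℝ) (hσ : 0 ≤ σ) (h : ∑ l, d l ^ 2 = σ ^ 2)
    (l : Fin r) : |d l| ≤ σ := by
  apply abs_le_of_sq_le_sq _ hσ
  rw [← h]
  exact Finset.single_le_sum (f := fun i => d i ^ 2) (fun i _ => sq_nonneg (d i)) (mem_univ l)

theorem sum_four {r : ℕ} (d : Fin r → ℝ) (σ : ℝ) (hσ : 0 ≤ σ) (h : ∑ l, d l ^ 2 = σ ^ 2) :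
    0 ≤ ∑ l, d l ^ 4 ∧ ∑ l, d l ^ 4 ≤ σ ^ 4 := by
  refine ⟨Finset.sum_nonneg fun l _ => by positivity, ?_⟩
  calc ∑ l, d l ^ 4 ≤ ∑ l, σ ^ 2 * d l ^ 2 := by
        refine Finset.sum_le_sum fun l _ => ?_
        have h1 : d l ^ 2 ≤ σ ^ 2 := by
          rw [← h]
          exact Finset.single_le_sum (f := fun i => d i ^ 2) (fun i _ => sq_nonneg (d i))
            (mem_univ l)
        have h2 : d l ^ 4 = d l ^ 2 * d l ^ 2 := by ring
        rw [h2]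
        exact mul_le_mul_of_nonneg_right h1 (sq_nonneg _)
    _ = σ ^ 4 := by
        rw [← Finset.mul_sum, h]
        ring

/-- thresholds -/
theorem thr (r : ℕ) (hr : 0 < r) (Ke Km ε : ℝ) (hKe : 1 ≤ Ke) (hKm : 1 ≤ Km) (hε : 0 < ε) :
    ∃ N : ℕ, ∀ n : ℕ, N ≤ n → 1 ≤ n → ∀ σ : ℝ, 1 ≤ σ → σ ^ 2 ≤ 4 * r * n →
      Ke / n * (Km * (σ + 1) ^ 3) ≤ ε * σ ^ 2 ∧
      Ke * ((σ + 1) ^ 2 / n + σ ^ 5 / (n : ℝ) ^ 2) ≤ 2 * ε * σ ^ 2 := by
  have hr' : (0 : ℝ) < r := by exact_mod_cast hr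
  obtain ⟨N1, hN1⟩ := exists_nat_gt ((8 * Ke * Km) ^ 2 * (4 * r) / ε ^ 2)
  obtain ⟨N2, hN2⟩ := exists_nat_gt (4 * Ke / ε)
  obtain ⟨N3, hN3⟩ := exists_nat_gt (Ke ^ 2 * (64 * r ^ 3) / ε ^ 2)
  refine ⟨N1 + N2 + N3, fun n hn hn1 σ hσ hσ2 => ?_⟩
  have hnp : (0 : ℝ) < n := by exact_mod_cast hn1
  have h1 : (8 * Ke * Km) ^ 2 * (4 * r) ≤ ε ^ 2 * n := by
    have h : (8 * Ke * Km) ^ 2 * (4 * r) / ε ^ 2 ≤ n := by
      have : (N1 : ℝ) ≤ n := by exact_mod_cast (by omega : N1 ≤ n)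
      linarith
    rw [div_le_iff₀ (by positivity)] at h
    linarith
  have h2 : 4 * Ke ≤ ε * n := by
    have h : 4 * Ke / ε ≤ n := by
      have : (N2 : ℝ) ≤ n := by exact_mod_cast (by omega : N2 ≤ n)
      linarith
    rw [div_le_iff₀ hε] at h
    linarith
  have h3 : Ke ^ 2 * (64 * r ^ 3) ≤ ε ^ 2 * n := by
    have h : Ke ^ 2 * (64 * r ^ 3) / ε ^ 2 ≤ n := by
      have : (N3 : ℝ) ≤ n := by exact_mod_cast (by omega : N3 ≤ n)
      linarith
    rw [div_le_iff₀ (by positivity)] at h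
    linarith
  have hKe0 : 0 < Ke := by linarith
  have hKm0 : 0 < Km := by linarith
  have hσ0 : 0 < σ := by linarith
  -- `8 Ke Km σ ≤ ε n`
  have k1 : 8 * Ke * Km * σ ≤ ε * n := by
    have : (8 * Ke * Km * σ) ^ 2 ≤ (ε * n) ^ 2 := by
      have e1 : (8 * Ke * Km * σ) ^ 2 = (8 * Ke * Km) ^ 2 * σ ^ 2 := by ring
      rw [e1]
      calc (8 * Ke * Km) ^ 2 * σ ^ 2 ≤ (8 * Ke * Km) ^ 2 * (4 * r * n) :=
            mul_le_mul_of_nonneg_left hσ2 (by positivity)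
        _ = (8 * Ke * Km) ^ 2 * (4 * r) * n := by ring
        _ ≤ ε ^ 2 * n * n := mul_le_mul_of_nonneg_right h1 hnp.le
        _ = (ε * n) ^ 2 := by ring
    exact (abs_le_of_sq_le_sq' this (by positivity)).2
  -- `Ke σ^3 ≤ ε n^2`
  have k3 : Ke * σ ^ 3 ≤ ε * n ^ 2 := by
    have : (Ke * σ ^ 3) ^ 2 ≤ (ε * n ^ 2) ^ 2 := by
      have e1 : (Ke * σ ^ 3) ^ 2 = Ke ^ 2 * (σ ^ 2) ^ 3 := by ring
      rw [e1]
      calc Ke ^ 2 * (σ ^ 2) ^ 3 ≤ Ke ^ 2 * (4 * r * n) ^ 3 :=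
            mul_le_mul_of_nonneg_left (pow_le_pow_left₀ (by positivity) hσ2 3) (by positivity)
        _ = Ke ^ 2 * (64 * r ^ 3) * n ^ 3 := by ring
        _ ≤ ε ^ 2 * n * n ^ 3 := mul_le_mul_of_nonneg_right h3 (by positivity)
        _ = (ε * n ^ 2) ^ 2 := by ring
    exact (abs_le_of_sq_le_sq' this (by positivity)).2
  constructor
  · rw [div_mul_eq_mul_div, div_le_iff₀ hnp]
    calc Ke * (Km * (σ + 1) ^ 3) ≤ Ke * (Km * (2 * σ) ^ 3) := by
          have : (σ + 1) ^ 3 ≤ (2 * σ) ^ 3 := pow_le_pow_left₀ (by positivity) (by linarith) 3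
          gcongr
      _ = (8 * Ke * Km * σ) * σ ^ 2 := by ring
      _ ≤ (ε * n) * σ ^ 2 := mul_le_mul_of_nonneg_right k1 (by positivity)
      _ = ε * σ ^ 2 * n := by ring
  · have a1 : Ke * ((σ + 1) ^ 2 / n) ≤ ε * σ ^ 2 := by
      rw [← mul_div_assoc, div_le_iff₀ hnp]
      calc Ke * (σ + 1) ^ 2 ≤ Ke * (2 * σ) ^ 2 := by
            have : (σ + 1) ^ 2 ≤ (2 * σ) ^ 2 := pow_le_pow_left₀ (by positivity) (by linarith) 2
            gcongr
        _ = (4 * Ke) * σ ^ 2 := by ring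
        _ ≤ (ε * n) * σ ^ 2 := mul_le_mul_of_nonneg_right h2 (by positivity)
        _ = ε * σ ^ 2 * n := by ring
    have a2 : Ke * (σ ^ 5 / (n : ℝ) ^ 2) ≤ ε * σ ^ 2 := by
      rw [← mul_div_assoc, div_le_iff₀ (by positivity)]
      calc Ke * σ ^ 5 = (Ke * σ ^ 3) * σ ^ 2 := by ring
        _ ≤ (ε * n ^ 2) * σ ^ 2 := mul_le_mul_of_nonneg_right k3 (by positivity)
        _ = ε * σ ^ 2 * n ^ 2 := by ring
    rw [mul_add]
    linarith

/-- the comparison of `PhF` for two vectors of natural numbers -/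
theorem phf_sub {r : ℕ} (y z : Fin r → ℕ) (i k i1 i2 : Fin r) :
    PhF y i k - PhF z i1 i2 = (∑ l, (y l : ℝ) ^ 3 - ∑ l, (z l : ℝ) ^ 3)
      + 2 * (r : ℝ) / ((r : ℝ) - 1) * (((y i : ℝ) + y k) - ((z i1 : ℝ) + z i2)) := by
  unfold PhF
  ring

/-- integrality -/
theorem phf_int {r : ℕ} (hr : 2 ≤ r) (y z : Fin r → ℕ) (i k i1 i2 : Fin r)
    (h : PhF y i k - PhF z i1 i2 < 1 / ((r : ℝ) - 1)) : PhF y i k ≤ PhF z i1 i2 := by
  have hr1 : (0 : ℝ) < (r : ℝ) - 1 := by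
    have : (2 : ℝ) ≤ r := by exact_mod_cast hr
    linarith
  obtain ⟨m, hm⟩ : ∃ m : ℤ, ((r : ℝ) - 1) * (PhF y i k - PhF z i1 i2) = m := by
    refine ⟨((r : ℤ) - 1) * (∑ l, (y l : ℤ) ^ 3 - ∑ l, (z l : ℤ) ^ 3)
      + 2 * (r : ℤ) * (((y i : ℤ) + y k) - ((z i1 : ℤ) + z i2)), ?_⟩
    rw [phf_sub]
    push_cast
    field_simp
  have h1 : (m : ℝ) < 1 := by
    rw [← hm]
    rw [lt_div_iff₀ hr1] at h
    linarith
  have h2 : m ≤ 0 := by
    have : m < 1 := by exact_mod_cast h1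
    omega
  have h3 : ((r : ℝ) - 1) * (PhF y i k - PhF z i1 i2) ≤ 0 := by
    rw [hm]
    exact_mod_cast h2
  by_contra hno
  push Not at hno
  have : 0 < ((r : ℝ) - 1) * (PhF y i k - PhF z i1 i2) := mul_pos hr1 (by linarith)
  linarith

theorem ratio_le {r : ℕ} (hr : 6 ≤ r) : 0 ≤ 2 * (r : ℝ) / ((r : ℝ) - 1) ∧
    2 * (r : ℝ) / ((r : ℝ) - 1) ≤ 3 := by
  have : (6 : ℝ) ≤ r := by exact_mod_cast hr
  have h1 : (0 : ℝ) < (r : ℝ) - 1 := by linarith
  refine ⟨by positivity, ?_⟩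
  rw [div_le_iff₀ h1]
  linarith

/-- the middle term -/
theorem mid {r : ℕ} (hr : 6 ≤ r) {a b a' b' μ σ : ℝ} (ha : |a - μ| ≤ σ) (hb : |b - μ| ≤ σ)
    (ha' : |a' - μ| ≤ σ) (hb' : |b' - μ| ≤ σ) :
    |2 * (r : ℝ) / ((r : ℝ) - 1) * ((a + b) - (a' + b'))| ≤ 12 * σ := by
  obtain ⟨h0, h3⟩ := ratio_le hr
  have hσ : 0 ≤ σ := (abs_nonneg _).trans ha
  rw [abs_mul, abs_of_nonneg h0]
  have h4 : |(a + b) - (a' + b')| ≤ 4 * σ := by
    rw [abs_le] at *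
    constructor <;> linarith [ha.1, ha.2, hb.1, hb.2, ha'.1, ha'.2, hb'.1, hb'.2]
  calc 2 * (r : ℝ) / ((r : ℝ) - 1) * |(a + b) - (a' + b')| ≤ 3 * (4 * σ) :=
        mul_le_mul h3 h4 (abs_nonneg _) (by norm_num)
    _ = 12 * σ := by ring

end X_PH1

open X_PH1 in
theorem x_PH1 (hMOMT : Stmt_MOMT) (hEXPG : Stmt_EXPG) : Stmt_PH1 := by
  classical
  intro r C hr hC
  have hr3 : 3 ≤ r := by omega
  have hr0 : 0 < r := by omega
  have hrr : (6 : ℝ) ≤ r := by exact_mod_cast hr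
  obtain ⟨Km, cm, hcm, hKm, HM⟩ := hMOMT r hr3
  obtain ⟨Ke, ne, hKe, HE⟩ := hEXPG r (C + 4 * r) hr3 (by linarith)
  obtain ⟨K1, hK1⟩ : ∃ K1 : ℝ, K1 = Km + 30 / cm := ⟨_, rfl⟩
  have hK1m : Km ≤ K1 := by
    have : 0 ≤ 30 / cm := by positivity
    linarith
  have hK1c : 30 ≤ cm * K1 := by
    rw [hK1, mul_add]
    have : cm * (30 / cm) = 30 := by field_simp
    have : 0 ≤ cm * Km := by positivity
    linarith
  have hK11 : 1 ≤ K1 := hKm.trans hK1m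
  obtain ⟨N1, HN1⟩ := thr r hr0 Ke Km (cm / 16) hKe hKm (by positivity)
  obtain ⟨N2, hN2⟩ := exists_nat_gt (Ke * (K1 ^ 4 + (K1 + 1) ^ 2 + K1 ^ 5) * ((r : ℝ) - 1))
  refine ⟨ne + N1 + N2 + 4 * r ^ 3 + 1, ?_⟩
  intro n hn z i1 i2 lam hG
  have hn1 : 1 ≤ n := by omega
  have hnp : (0 : ℝ) < n := by exact_mod_cast hn1
  have hnr : (1 : ℝ) ≤ n := by exact_mod_cast hn1
  have hn4 : 4 * (r : ℝ) ^ 3 < n := by exact_mod_cast (by omega : 4 * r ^ 3 < n)
  have hr0' : (0 : ℝ) < r := by linarith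
  have hr1 : (0 : ℝ) < (r : ℝ) - 1 := by linarith
  -- the deviation
  obtain ⟨σ, hσ0, hσ⟩ : ∃ σ : ℝ, 0 ≤ σ ∧ ∑ l, ((z l : ℝ) - n / r) ^ 2 = σ ^ 2 :=
    ⟨√(∑ l, ((z l : ℝ) - n / r) ^ 2), Real.sqrt_nonneg _,
      (Real.sq_sqrt (Finset.sum_nonneg fun l _ => sq_nonneg _)).symm⟩
  have hzs : ∑ l, (z l : ℝ) = n := by exact_mod_cast hG.sum
  have hσn : σ ^ 2 ≤ 4 * r * n := by
    rw [← hσ]
    calc ∑ l, ((z l : ℝ) - n / r) ^ 2 ≤ ∑ _l : Fin r, 4 * (n : ℝ) := by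
          refine Finset.sum_le_sum fun l _ => ?_
          have h1 := hG.dev l
          have h2 : ((z l : ℝ) - n / r) ^ 2 ≤ (2 * √(n : ℝ)) ^ 2 := by
            rw [← sq_abs]
            exact pow_le_pow_left₀ (abs_nonneg _) h1 2
          rw [mul_pow, Real.sq_sqrt hnp.le] at h2
          linarith
      _ = 4 * r * n := by
          simp only [Finset.sum_const, Finset.card_univ, Fintype.card_fin, nsmul_eq_mul]
          ring
  -- admissible vectors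
  have dev : ∀ y : Fin r → ℕ, ∑ l, y l = n → ∑ l, y l ^ 2 = ∑ l, z l ^ 2 →
      ∑ l, ((y l : ℝ) - n / r) ^ 2 = σ ^ 2 := by
    intro y hy hy2
    have e1 : ∑ l, (y l : ℝ) = n := by exact_mod_cast hy
    have e2 : ∑ l, (y l : ℝ) ^ 2 = ∑ l, (z l : ℝ) ^ 2 := by exact_mod_cast hy2
    rw [dev_sq hr0 _ _ e1, e2, ← dev_sq hr0 _ _ hzs, hσ]
  -- use of EXPG
  have key : ∀ (y : Fin r → ℕ) (i k : Fin r), i ≠ k → ∑ l, y l = n →
      ∑ l, y l ^ 2 = ∑ l, z l ^ 2 → PhF y i k - PhF z i1 i2 ≤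
        Ke / n * |∑ l, ((y l : ℝ) - n / r) ^ 4 - ∑ l, ((z l : ℝ) - n / r) ^ 4|
          + Ke * ((σ + 1) ^ 2 / n + σ ^ 5 / (n : ℝ) ^ 2) := by
    intro y i k hik hy hy2
    rw [phf_sub]
    refine HE n (by omega) (fun l => (y l : ℝ)) (fun l => (z l : ℝ)) i k i1 i2 lam σ
      (hG.lamb.trans (by linarith)) (by exact_mod_cast hy) hzs hσ0 (dev y hy hy2) hσ ?_ ?_
    · have : 0 ≤ C * (n : ℝ) := by positivity
      linarith [add_mul C (4 * (r : ℝ)) n]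
    · refine (hG.cmp y i k hik hy hy2).trans ?_
      have : C / (n : ℝ) ^ 4 ≤ (C + 4 * r) / (n : ℝ) ^ 4 :=
        div_le_div_of_nonneg_right (by linarith) (by positivity)
      linarith
  rcases le_or_gt σ K1 with hs | hs
  · -- small deviation: integrality
    left
    intro y i k hik hy hy2
    apply phf_int (by omega)
    refine (key y i k hik hy hy2).trans_lt ?_
    obtain ⟨a1, a2⟩ := sum_four _ σ hσ0 (dev y hy hy2)
    obtain ⟨b1, b2⟩ := sum_four _ σ hσ0 hσ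
    have h4 : |∑ l, ((y l : ℝ) - n / r) ^ 4 - ∑ l, ((z l : ℝ) - n / r) ^ 4| ≤ K1 ^ 4 := by
      have : σ ^ 4 ≤ K1 ^ 4 := pow_le_pow_left₀ hσ0 hs 4
      rw [abs_le]
      constructor <;> linarith
    have h5 : Ke / n * |∑ l, ((y l : ℝ) - n / r) ^ 4 - ∑ l, ((z l : ℝ) - n / r) ^ 4|
        ≤ Ke / n * K1 ^ 4 := mul_le_mul_of_nonneg_left h4 (by positivity)
    have h6 : (σ + 1) ^ 2 / n + σ ^ 5 / (n : ℝ) ^ 2 ≤ ((K1 + 1) ^ 2 + K1 ^ 5) / n := by
      rw [add_div]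
      refine add_le_add ?_ ?_
      · exact div_le_div_of_nonneg_right (pow_le_pow_left₀ (by linarith) (by linarith) 2) hnp.le
      · calc σ ^ 5 / (n : ℝ) ^ 2 ≤ σ ^ 5 / n := by
              apply div_le_div_of_nonneg_left (by positivity) hnp
              nlinarith
          _ ≤ K1 ^ 5 / n := div_le_div_of_nonneg_right (pow_le_pow_left₀ hσ0 hs 5) hnp.le
    have h7 : Ke * ((σ + 1) ^ 2 / n + σ ^ 5 / (n : ℝ) ^ 2)
        ≤ Ke * (((K1 + 1) ^ 2 + K1 ^ 5) / n) := mul_le_mul_of_nonneg_left h6 (by linarith)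
    have h8 : Ke / n * K1 ^ 4 + Ke * (((K1 + 1) ^ 2 + K1 ^ 5) / n)
        = Ke * (K1 ^ 4 + (K1 + 1) ^ 2 + K1 ^ 5) / n := by ring
    have h9 : Ke * (K1 ^ 4 + (K1 + 1) ^ 2 + K1 ^ 5) / n < 1 / ((r : ℝ) - 1) := by
      rw [div_lt_div_iff₀ hnp hr1, one_mul]
      have : (N2 : ℝ) ≤ n := by exact_mod_cast (by omega : N2 ≤ n)
      linarith
    linarith
  · -- large deviation
    right
    have hσ1 : 1 ≤ σ := by linarith
    obtain ⟨T1, T2⟩ := HN1 n (by omega) hn1 σ hσ1 hσn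
    -- the vector with the largest possible entry
    have hev : Even ((∑ l, (z l : ℤ) ^ 2) - (n : ℤ)) := by
      have e1 : ((n : ℕ) : ℤ) = ∑ l, (z l : ℤ) := by exact_mod_cast hG.sum.symm
      rw [e1, ← Finset.sum_sub_distrib]
      refine Finset.even_sum _ fun l _ => ?_
      have : (z l : ℤ) ^ 2 - z l = (z l : ℤ) * (z l - 1) := by ring
      rw [this]
      exact Int.even_mul_pred_self _
    have hzZ : ∑ l, (z l : ℤ) = (n : ℤ) := by exact_mod_cast hG.sum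
    obtain ⟨u, is, hu, hu2, hmax⟩ := pREP r hr (n : ℤ) (∑ l, (z l : ℤ) ^ 2)
      ⟨fun l => (z l : ℤ), hzZ, le_refl _⟩ hev
    have huR : ∑ l, (u l : ℝ) = n := by exact_mod_cast hu
    have hu2R : ∑ l, (u l : ℝ) ^ 2 = ∑ l, (z l : ℝ) ^ 2 := by exact_mod_cast hu2
    have hud : ∑ l, ((u l : ℝ) - n / r) ^ 2 = σ ^ 2 := by
      rw [dev_sq hr0 _ _ huR, hu2R, ← dev_sq hr0 _ _ hzs, hσ]
    have hub : ∀ l, |(u l : ℝ) - n / r| ≤ σ := fun l => abs_le_of_sum _ σ hσ0 hud l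
    have hzb : ∀ l, |(z l : ℝ) - n / r| ≤ σ := fun l => abs_le_of_sum _ σ hσ0 hσ l
    have hσr : σ < n / r := by
      have : σ ^ 2 < (n / r : ℝ) ^ 2 := by
        refine hσn.trans_lt ?_
        rw [div_pow, lt_div_iff₀ (by positivity)]
        nlinarith
      exact lt_of_pow_lt_pow_left₀ 2 (by positivity) this
    have hu0 : ∀ l, 0 ≤ u l := by
      intro l
      have h1 := (abs_le.1 (hub l)).1
      have h2 : (0 : ℝ) ≤ u l := by linarith
      exact_mod_cast h2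
    obtain ⟨v, hv⟩ : ∃ v : Fin r → ℕ, ∀ l, (v l : ℤ) = u l :=
      ⟨fun l => (u l).toNat, fun l => Int.toNat_of_nonneg (hu0 l)⟩
    have hvR : ∀ l, (v l : ℝ) = u l := fun l => by exact_mod_cast hv l
    have hvs : ∑ l, v l = n := by
      have : ∑ l, (v l : ℤ) = n := by simp only [hv, hu]
      exact_mod_cast this
    have hv2 : ∑ l, v l ^ 2 = ∑ l, z l ^ 2 := by
      have : ∑ l, (v l : ℤ) ^ 2 = ∑ l, (z l : ℤ) ^ 2 := by simp only [hv, hu2]
      exact_mod_cast this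
    -- use of MOMT
    have mom : ∀ (y : Fin r → ℕ) (k1 : Fin r), ∑ l, y l = n → ∑ l, y l ^ 2 = ∑ l, z l ^ 2 →
        (∀ l, y l ≤ y k1) → ((y k1 : ℤ) < u is →
          ∑ i, (y i : ℝ) ^ 3 + cm * σ ^ 2 * ((u is : ℝ) - y k1) ≤ ∑ i, (u i : ℝ) ^ 3) ∧
        |∑ i, ((u i : ℝ) - n / r) ^ 4 - ∑ i, ((y i : ℝ) - n / r) ^ 4|
          ≤ Km * (σ + 1) ^ 3 * ((u is : ℝ) - y k1 + 1) := by
      intro y k1 hy hy2 hyk
      have h := HM u (fun l => (y l : ℤ)) is k1 (n / r) σ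
        (by
          intro w hw hw2 l
          exact hmax w (hw.trans hu) (hw2.trans hu2.le) l)
        (by
          rw [hu]
          exact_mod_cast hy)
        (by
          rw [hu2]
          exact_mod_cast hy2)
        (fun l => by exact_mod_cast hyk l) (by rw [huR]) hσ0 hud.symm
      simp only [Int.cast_natCast] at h
      exact ⟨fun hlt => h.1 hlt (by linarith), h.2⟩
    -- the largest entry of `z`
    obtain ⟨k1, hk1, hk1max⟩ : ∃ k1 : Fin r, (z k1 = z i1 ∨ z k1 = z i2) ∧ ∀ l, z l ≤ z k1 := by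
      rcases le_total (z i2) (z i1) with h12 | h12
      · refine ⟨i1, Or.inl rfl, fun l => ?_⟩
        by_cases h1 : l = i1
        · rw [h1]
        · by_cases h2 : l = i2
          · rw [h2]
            exact h12
          · exact (hG.top l h1 h2).1
      · refine ⟨i2, Or.inr rfl, fun l => ?_⟩
        by_cases h1 : l = i1
        · rw [h1]
          exact h12
        · by_cases h2 : l = i2
          · rw [h2]
          · exact (hG.top l h1 h2).2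
    obtain ⟨m3, m4⟩ := mom z k1 hG.sum rfl hk1max
    have hle : (z k1 : ℤ) ≤ u is :=
      hmax (fun l => (z l : ℤ)) hzZ (le_refl _) k1
    have hleR : (z k1 : ℝ) ≤ u is := by exact_mod_cast hle
    obtain ⟨kk, hkk⟩ : ∃ kk : Fin r, is ≠ kk := by
      haveI : Nontrivial (Fin r) := Fin.nontrivial_iff_two_le.2 (by omega)
      obtain ⟨kk, hkk⟩ := exists_ne is
      exact ⟨kk, hkk.symm⟩
    have hmain := key v is kk hkk hvs hv2
    rw [phf_sub] at hmain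
    simp only [hvR] at hmain
    have hmid := (abs_le.1 (mid hr (hub is) (hub kk) (hzb i1) (hzb i2))).1
    obtain ⟨q, hq⟩ : ∃ q : ℝ, q = (u is : ℝ) - z k1 := ⟨_, rfl⟩
    have hq0 : 0 ≤ q := by linarith
    have h4 : Ke / n * |∑ l, ((u l : ℝ) - n / r) ^ 4 - ∑ l, ((z l : ℝ) - n / r) ^ 4|
        ≤ cm / 16 * σ ^ 2 * (q + 1) := by
      calc Ke / n * |∑ l, ((u l : ℝ) - n / r) ^ 4 - ∑ l, ((z l : ℝ) - n / r) ^ 4|
          ≤ Ke / n * (Km * (σ + 1) ^ 3 * (q + 1)) := by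
            rw [hq]
            exact mul_le_mul_of_nonneg_left m4 (by positivity)
        _ = Ke / n * (Km * (σ + 1) ^ 3) * (q + 1) := by ring
        _ ≤ cm / 16 * σ ^ 2 * (q + 1) := mul_le_mul_of_nonneg_right T1 (by linarith)
    have hcσ : 30 < cm * σ := by
      have : cm * K1 < cm * σ := mul_lt_mul_of_pos_left hs hcm
      linarith
    -- `q = 0`
    have hqz : (z k1 : ℤ) = u is := by
      by_contra hne
      have hlt : (z k1 : ℤ) < u is := lt_of_le_of_ne hle hne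
      have hq1 : 1 ≤ q := by
        have : (z k1 : ℤ) + 1 ≤ u is := hlt
        have : (z k1 : ℝ) + 1 ≤ u is := by exact_mod_cast this
        linarith
      have h3 := m3 hlt
      rw [← hq] at h3
      have e1 : cm * σ ^ 2 * q ≤ 12 * σ + cm / 16 * σ ^ 2 * (q + 1) + 2 * (cm / 16) * σ ^ 2 := by
        linarith
      have e2 : cm / 16 * σ ^ 2 * (q + 1) + 2 * (cm / 16) * σ ^ 2 ≤ cm / 4 * σ ^ 2 * q := by
        have : 0 ≤ cm / 16 * σ ^ 2 * (q - 1) := by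
          have : 0 ≤ q - 1 := by linarith
          positivity
        linarith
      have e3 : 12 * σ < 3 / 4 * (cm * σ) * σ * q := by
        have : 12 * σ < 3 / 4 * (cm * σ) * σ := by
          have := mul_lt_mul_of_pos_right hcσ (by linarith : 0 < σ)
          linarith
        have h' : 3 / 4 * (cm * σ) * σ ≤ 3 / 4 * (cm * σ) * σ * q := by
          have h0 : 0 ≤ 3 / 4 * (cm * σ) * σ := by positivity
          exact le_mul_of_one_le_right h0 hq1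
        linarith
      have e4 : 3 / 4 * (cm * σ) * σ * q = cm * σ ^ 2 * q - cm / 4 * σ ^ 2 * q := by ring
      linarith
    have hqzR : (z k1 : ℝ) = u is := by exact_mod_cast hqz
    refine ⟨z k1, hk1, ?_, ?_⟩
    · intro w hw hw2 l
      rw [hqz]
      exact hmax w hw hw2 l
    · intro y i k hik hy hy2 hlt
      -- the largest entry of `y`
      obtain ⟨k2, -, hk2⟩ := Finset.exists_max_image (Finset.univ : Finset (Fin r)) y
        ⟨is, mem_univ is⟩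
      have hk2' : ∀ l, y l ≤ y k2 := fun l => hk2 l (mem_univ l)
      obtain ⟨n3, -⟩ := mom y k2 hy hy2 hk2'
      have hy1 : (y k2 : ℤ) < u is := by
        rw [← hqz]
        exact_mod_cast hlt k2
      have h3 := n3 hy1
      have hq1 : (1 : ℝ) ≤ (u is : ℝ) - y k2 := by
        have : (y k2 : ℤ) + 1 ≤ u is := hy1
        have : (y k2 : ℝ) + 1 ≤ u is := by exact_mod_cast this
        linarith
      have hyb : ∀ l, |(y l : ℝ) - n / r| ≤ σ := fun l => abs_le_of_sum _ σ hσ0 (dev y hy hy2) l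
      have hmid2 := (abs_le.1 (mid hr (hyb i) (hyb k) (hzb i1) (hzb i2))).2
      have hqq : q = 0 := by linarith
      rw [hqq] at h4
      have e0 : cm * σ ^ 2 * 1 ≤ cm * σ ^ 2 * ((u is : ℝ) - y k2) :=
        mul_le_mul_of_nonneg_left hq1 (by positivity)
      have e1 : 24 * σ ≤ 13 / 16 * (cm * σ) * σ := by
        have := mul_lt_mul_of_pos_right hcσ (by linarith : 0 < σ)
        linarith
      have e2 : 13 / 16 * (cm * σ) * σ
          = cm * σ ^ 2 * 1 - (cm / 16 * σ ^ 2 * (0 + 1) + 2 * (cm / 16) * σ ^ 2) := by ring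
      have hfin : PhF y i k - PhF z i1 i2 ≤ 0 := by
        rw [phf_sub]
        linarith
      linarith

end Pool.Agent.Work.MP_5532fa_up
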