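import Pool.Agent.Work.MP_5532fa_x.Interface5
import Pool.Agent.Work.MP_5532fa_x.B_PH2

/-!
# MP_5532fa_co, sixth round, block PH2S: the second largest entry, five remaining entries
-/

open Finset

namespace Pool.Agent.Work.MP_5532fa_up

open MP5532fa (specRad qf pE)

open X_PH1 X_PH2 in
theorem x_PH2S_aux (l : ℕ) (hl : 5 ≤ l) (hMOMT : Stmt_MOMT1) (hEXPR : Stmt_EXPR)
    (hREPS : ∀ (M S : ℤ), (∃ y : Fin l → ℤ, ∑ i, y i = M ∧ ∑ i, y i ^ 2 ≤ S) →
      Even (S - M) → ∃ (y : Fin l → ℤ) (i1 : Fin l), ∑ i, y i = M ∧ ∑ i, y i ^ 2 = S ∧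
        (∀ i, y i ≤ y i1) ∧
        (∀ z : Fin l → ℤ, ∑ i, z i = M → ∑ i, z i ^ 2 = S → ∀ i, z i ≤ y i1) ∧
        (∀ z : Fin l → ℤ, ∑ i, z i = M → ∑ i, z i ^ 2 ≤ S → ∀ i, z i ≤ y i1 + 1))
    (hTNZ : Stmt_TNZ) (C : ℝ) (hC : 1 ≤ C) : ∃ n0 : ℕ, ∀ n ≥ n0,
    ∀ (z : Fin (l + 1) → ℕ) (i1 i2 : Fin (l + 1)) (lam : ℝ), GH (l + 1) C n lam z i1 i2 →
    (∀ u : Fin (l + 1) → ℤ, ∑ i, u i = n → ∑ i, u i ^ 2 ≤ ∑ i, (z i : ℤ) ^ 2 →
      ∀ i, u i ≤ z i1) →
    ∀ (y : Fin (l + 1) → ℕ) (k : Fin (l + 1)), k ≠ i1 → y i1 = z i1 → ∑ i, y i = n →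
      ∑ i, y i ^ 2 = ∑ i, z i ^ 2 → PhF y i1 k ≤ PhF z i1 i2 := by
  classical
  have hl3 : 3 ≤ l := by omega
  have hl1 : 1 ≤ l := by omega
  have hlR : (5 : ℝ) ≤ l := by exact_mod_cast hl
  have hl0 : (0 : ℝ) < l := by linarith
  obtain ⟨Km, cm, hcm, hKm, HM⟩ := hMOMT l hl3
  obtain ⟨Ke, ne, hKe, HE⟩ := hEXPR l (C + 2) (by omega) (by linarith)
  have hKe0 : 0 < Ke := by linarith
  have hKm0 : 0 < Km := by linarith
  obtain ⟨N1, HN1⟩ := thr2 l hl1 ((l : ℝ) + 11) Ke Km (by linarith) hKe hKm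
  obtain ⟨K2, hK2⟩ : ∃ K2 : ℝ, K2 = Km + 2 / cm := ⟨_, rfl⟩
  have hK2m : Km ≤ K2 := by
    have : 0 ≤ 2 / cm := by positivity
    linarith
  have hK2c : 2 ≤ cm * K2 := by
    rw [hK2, mul_add]
    have : cm * (2 / cm) = 2 := by field_simp
    have : 0 ≤ cm * Km := by positivity
    linarith
  have hK21 : 1 ≤ K2 := hKm.trans hK2m
  obtain ⟨N2, hN2⟩ := exists_nat_gt (4 * l * (Ke * K2 ^ 4))
  refine ⟨ne + N1 + N2 + 9 * (l + 1) ^ 2 + 1, ?_⟩
  intro n hn z i1 i2 lam hG hmx y₀ k₀ hk₀ hy₀ hy₀s hy₀2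
  have hn1 : 1 ≤ n := by omega
  have hnp : (0 : ℝ) < n := by exact_mod_cast hn1
  have hn9 : 9 * ((l : ℝ) + 1) ^ 2 < n := by exact_mod_cast (by omega : 9 * (l + 1) ^ 2 < n)
  obtain ⟨w, hw⟩ : ∃ w : ℝ, w = √(n : ℝ) := ⟨_, rfl⟩
  have hw2 : w ^ 2 = n := by
    rw [hw, Real.sq_sqrt hnp.le]
  have hw0 : 0 ≤ w := by
    rw [hw]
    exact Real.sqrt_nonneg _
  have hw3 : 3 * ((l : ℝ) + 1) < w := by
    apply lt_of_pow_lt_pow_left₀ 2 hw0
    rw [hw2]
    linarith [(by ring : (3 * ((l : ℝ) + 1)) ^ 2 = 9 * ((l : ℝ) + 1) ^ 2)]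
  have hzs : ∑ i, (z i : ℝ) = n := by exact_mod_cast hG.sum
  have hi12 : i2 ≠ i1 := fun h => hG.ne h.symm
  -- the rest of the vector
  obtain ⟨ν, hν⟩ : ∃ ν : ℝ, ν = ((n : ℝ) - z i1) / l := ⟨_, rfl⟩
  have hlν : (l : ℝ) * ν = n - z i1 := by
    rw [hν]
    field_simp
  obtain ⟨τ, hτ0, hτ⟩ : ∃ τ : ℝ, 0 ≤ τ ∧ ∑ j : Fin l, ((z (i1.succAbove j) : ℝ) - ν) ^ 2 = τ ^ 2 :=
    ⟨√(∑ j : Fin l, ((z (i1.succAbove j) : ℝ) - ν) ^ 2), Real.sqrt_nonneg _,
      (Real.sq_sqrt (Finset.sum_nonneg fun j _ => sq_nonneg _)).symm⟩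
  -- the deviation of `z i1`
  obtain ⟨D, hD⟩ : ∃ D : ℝ, D = (z i1 : ℝ) - n / ((l : ℝ) + 1) := ⟨_, rfl⟩
  have hdev1 : |D| ≤ 2 * w := by
    have := hG.dev i1
    push_cast at this
    rw [hD, hw]
    exact this
  have hτn : τ ^ 2 ≤ ((l : ℝ) + 11) * √(n : ℝ) := by
    obtain ⟨t1, t2⟩ := hTNZ (l + 1) (by omega) (fun i => (z i : ℤ)) i1 (n / ((l : ℝ) + 1))
      (by
        intro u hu hu2 i
        refine hmx u ?_ hu2 i
        rw [hu]
        exact_mod_cast hG.sum)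
      (by
        push_cast
        rw [hzs])
    push_cast at t1 t2
    rw [← hD] at t1 t2
    have e1 := rest_sq hl1 (fun i => (z i : ℝ)) i1 n hzs
    rw [← hν, hτ, ← hD] at e1
    have e2 : ((l : ℝ) + 1) / ((l : ℝ) + 1 - 1) = ((l : ℝ) + 1) / l := by
      rw [add_sub_cancel_right]
    rw [e2] at t2
    have h2 : ((l : ℝ) + 1) / l ≤ 2 := by
      rw [div_le_iff₀ hl0]
      linarith
    have hD2 : D ≤ 2 * w := (abs_le.1 hdev1).2
    have e3 : (D + 1) ^ 2 * (((l : ℝ) + 1) / l) - D ^ 2 * (((l : ℝ) + 1) / l)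
        = (2 * D + 1) * (((l : ℝ) + 1) / l) := by ring
    have e4 : (2 * D + 1) * (((l : ℝ) + 1) / l) ≤ (2 * D + 1) * 2 :=
      mul_le_mul_of_nonneg_left h2 (by linarith)
    rw [← hw]
    have e5 : τ ^ 2 ≤ 8 * w + 2 + (l + 1) := by linarith
    have hw1 : 1 ≤ w := by linarith
    have e6 : ((l : ℝ) + 3) * 1 ≤ (l + 3) * w := mul_le_mul_of_nonneg_left hw1 (by linarith)
    linarith
  obtain ⟨S1, S2, hτw⟩ := HN1 n (by omega) hn1 τ hτ0 hτn
  -- admissible vectors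
  have rsum : ∀ y : Fin (l + 1) → ℕ, y i1 = z i1 → ∑ i, y i = n →
      ∑ j : Fin l, (y (i1.succAbove j) : ℤ) = (n : ℤ) - z i1 := by
    intro y hy hs
    have h1 := Fin.sum_univ_succAbove (fun i => (y i : ℤ)) i1
    have h2 : ∑ i, (y i : ℤ) = n := by exact_mod_cast hs
    rw [h2, hy] at h1
    linarith
  have rsq : ∀ y : Fin (l + 1) → ℕ, y i1 = z i1 → ∑ i, y i ^ 2 = ∑ i, z i ^ 2 →
      ∑ j : Fin l, (y (i1.succAbove j) : ℤ) ^ 2 = ∑ j : Fin l, (z (i1.succAbove j) : ℤ) ^ 2 := by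
    intro y hy hs
    have h1 := Fin.sum_univ_succAbove (fun i => (y i : ℤ) ^ 2) i1
    have h2 := Fin.sum_univ_succAbove (fun i => (z i : ℤ) ^ 2) i1
    have h3 : ∑ i, (y i : ℤ) ^ 2 = ∑ i, (z i : ℤ) ^ 2 := by exact_mod_cast hs
    rw [hy] at h1
    linarith
  have dev : ∀ y : Fin (l + 1) → ℕ, y i1 = z i1 → ∑ i, y i = n → ∑ i, y i ^ 2 = ∑ i, z i ^ 2 →
      ∑ j : Fin l, ((y (i1.succAbove j) : ℝ) - ν) ^ 2 = τ ^ 2 := by
    intro y hy hs hs2
    have e1 : ∑ j : Fin l, (y (i1.succAbove j) : ℝ) = n - z i1 := by exact_mod_cast rsum y hy hs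
    have e2 : ∑ j : Fin l, (y (i1.succAbove j) : ℝ) ^ 2
        = ∑ j : Fin l, (z (i1.succAbove j) : ℝ) ^ 2 := by exact_mod_cast rsq y hy hs2
    have e3 : ∑ j : Fin l, (z (i1.succAbove j) : ℝ) = n - z i1 := by
      exact_mod_cast rsum z rfl hG.sum
    rw [← hτ, hν, dev_sq (by omega) _ _ e1, dev_sq (by omega) _ _ e3, e2]
  -- use of EXPR
  have key : ∀ (y : Fin (l + 1) → ℕ) (k : Fin (l + 1)), k ≠ i1 → y i1 = z i1 → ∑ i, y i = n →
      ∑ i, y i ^ 2 = ∑ i, z i ^ 2 → PhF y i1 k - PhF z i1 i2 ≤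
        Ke / n * |∑ j : Fin l, ((y (i1.succAbove j) : ℝ) - ν) ^ 4
          - ∑ j : Fin l, ((z (i1.succAbove j) : ℝ) - ν) ^ 4|
          + Ke * (τ / √(n : ℝ) + τ ^ 5 / (n : ℝ) ^ 2 + 1 / n) := by
    intro y k hk hy hs hs2
    rw [phf_sub1 hl1 y z k i1 i2 hy]
    refine HE n (by omega) (fun i => (y i : ℝ)) (fun i => (z i : ℝ)) i1 k i2 lam ν τ
      (hG.lamb.trans (by linarith)) (by simp only [hy]) hk hi12 ?_ hlν (by exact_mod_cast hs) hzs
      hτ0 ?_ (dev y hy hs hs2) hτ ?_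
    · rw [← hD, ← hw]
      refine hdev1.trans ?_
      exact mul_le_mul_of_nonneg_right (by linarith) hw0
    · refine hτw.trans ?_
      exact le_mul_of_one_le_left (Real.sqrt_nonneg _) (by linarith)
    · have h := hG.cmp y i1 k (fun h => hk h.symm) hs hs2
      rw [hy] at h
      refine h.trans ?_
      have : C / (n : ℝ) ^ 4 ≤ (C + 2) / (n : ℝ) ^ 4 :=
        div_le_div_of_nonneg_right (by linarith) (by positivity)
      linarith
  have hl4 : 1 / (4 * (l : ℝ)) + 1 / (4 * l) < 1 / (((l + 1 : ℕ) : ℝ) - 1) := by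
    have e : ((l + 1 : ℕ) : ℝ) - 1 = l := by
      push_cast
      ring
    rw [e, ← add_div, div_lt_div_iff₀ (by positivity) hl0]
    linarith
  rcases le_or_gt τ K2 with hs | hs
  · -- small deviation
    apply phf_int (by omega)
    refine (key y₀ k₀ hk₀ hy₀ hy₀s hy₀2).trans_lt ?_
    obtain ⟨a1, a2⟩ := sum_four _ τ hτ0 (dev y₀ hy₀ hy₀s hy₀2)
    obtain ⟨b1, b2⟩ := sum_four _ τ hτ0 hτ
    have h4 : |∑ j : Fin l, ((y₀ (i1.succAbove j) : ℝ) - ν) ^ 4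
          - ∑ j : Fin l, ((z (i1.succAbove j) : ℝ) - ν) ^ 4| ≤ K2 ^ 4 := by
      have : τ ^ 4 ≤ K2 ^ 4 := pow_le_pow_left₀ hτ0 hs 4
      rw [abs_le]
      constructor <;> linarith
    have h5 : Ke / n * |∑ j : Fin l, ((y₀ (i1.succAbove j) : ℝ) - ν) ^ 4
          - ∑ j : Fin l, ((z (i1.succAbove j) : ℝ) - ν) ^ 4| ≤ Ke / n * K2 ^ 4 :=
      mul_le_mul_of_nonneg_left h4 (by positivity)
    have h6 : Ke / n * K2 ^ 4 ≤ 1 / (4 * l) := by
      rw [div_mul_eq_mul_div, div_le_div_iff₀ hnp (by positivity), one_mul]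
      have : (N2 : ℝ) ≤ n := by exact_mod_cast (by omega : N2 ≤ n)
      linarith
    linarith
  · -- large deviation
    have hτ1 : 1 ≤ τ := by linarith
    have hcτ : 2 < cm * τ ^ 2 := by
      have h1 : cm * K2 < cm * τ := mul_lt_mul_of_pos_left hs hcm
      have h2 : cm * τ * 1 ≤ cm * τ * τ := mul_le_mul_of_nonneg_left hτ1 (by positivity)
      linarith [(by ring : cm * τ * τ = cm * τ ^ 2)]
    have hl24 : 1 / (4 * (l : ℝ)) ≤ 1 / 20 :=
      div_le_div_of_nonneg_left (by norm_num) (by norm_num) (by linarith)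
    -- the vector with the largest possible entry
    have hev : Even ((∑ j : Fin l, (z (i1.succAbove j) : ℤ) ^ 2) - ((n : ℤ) - z i1)) := by
      rw [← rsum z rfl hG.sum, ← Finset.sum_sub_distrib]
      refine Finset.even_sum _ fun j _ => ?_
      have : (z (i1.succAbove j) : ℤ) ^ 2 - z (i1.succAbove j)
          = (z (i1.succAbove j) : ℤ) * (z (i1.succAbove j) - 1) := by ring
      rw [this]
      exact Int.even_mul_pred_self _
    obtain ⟨u, js, hu, hu2, hujs, hmax, hmax1⟩ := hREPS ((n : ℤ) - z i1)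
      (∑ j : Fin l, (z (i1.succAbove j) : ℤ) ^ 2)
      ⟨fun j => (z (i1.succAbove j) : ℤ), rsum z rfl hG.sum, le_refl _⟩ hev
    have huR : ∑ j, (u j : ℝ) = n - z i1 := by exact_mod_cast hu
    have hu2R : ∑ j, (u j : ℝ) ^ 2 = ∑ j : Fin l, (z (i1.succAbove j) : ℝ) ^ 2 := by
      exact_mod_cast hu2
    have hud : ∑ j, ((u j : ℝ) - ν) ^ 2 = τ ^ 2 := by
      have e3 : ∑ j : Fin l, (z (i1.succAbove j) : ℝ) = n - z i1 := by
        exact_mod_cast rsum z rfl hG.sum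
      rw [← hτ, hν, dev_sq (by omega) _ _ huR, dev_sq (by omega) _ _ e3, hu2R]
    have hub : ∀ j, |(u j : ℝ) - ν| ≤ τ := fun j => abs_le_of_sum _ τ hτ0 hud j
    have hντ : τ ≤ ν := by
      have h1 : (l : ℝ) * τ ≤ l * ν := by
        rw [hlν]
        have hD2 : D ≤ 2 * w := (abs_le.1 hdev1).2
        have h2 : (l : ℝ) * τ ≤ l * w := mul_le_mul_of_nonneg_left (by rw [hw]; exact hτw) hl0.le
        have h3 : (n : ℝ) - z i1 = n * (l / (l + 1)) - D := by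
          rw [hD]
          field_simp
          ring
        have h4 : (3 * l : ℝ) * w ≤ n * (l / (l + 1)) := by
          rw [← mul_div_assoc, le_div_iff₀ (by positivity), ← hw2]
          have : (3 * ((l : ℝ) + 1)) * (l * w) ≤ w * (l * w) :=
            mul_le_mul_of_nonneg_right hw3.le (by positivity)
          linarith
        have h5 : 2 * w ≤ 2 * l * w := by
          have : 0 ≤ (2 * (l : ℝ) - 2) * w := mul_nonneg (by linarith) hw0
          linarith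
        linarith
      exact le_of_mul_le_mul_left h1 hl0
    have hu0 : ∀ j, 0 ≤ u j := by
      intro j
      have h1 := (abs_le.1 (hub j)).1
      have h2 : (0 : ℝ) ≤ u j := by linarith
      exact_mod_cast h2
    obtain ⟨v, hv⟩ : ∃ v : Fin l → ℕ, ∀ j, (v j : ℤ) = u j :=
      ⟨fun j => (u j).toNat, fun j => Int.toNat_of_nonneg (hu0 j)⟩
    have hvR : ∀ j, (v j : ℝ) = u j := fun j => by exact_mod_cast hv j
    obtain ⟨ys, hys⟩ : ∃ ys : Fin (l + 1) → ℕ, ys i1 = z i1 ∧ ∀ j, ys (i1.succAbove j) = v j :=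
      ⟨Fin.insertNth (α := fun _ => ℕ) i1 (z i1) v, Fin.insertNth_apply_same (α := fun _ => ℕ) _ _ _,
        fun j => Fin.insertNth_apply_succAbove (α := fun _ => ℕ) _ _ _ _⟩
    obtain ⟨hys1, hys2⟩ := hys
    have hyss : ∑ i, ys i = n := by
      have h1 := Fin.sum_univ_succAbove (fun i => (ys i : ℤ)) i1
      simp only [hys1, hys2, hv, hu] at h1
      have : ∑ i, (ys i : ℤ) = n := by linarith
      exact_mod_cast this
    have hyss2 : ∑ i, ys i ^ 2 = ∑ i, z i ^ 2 := by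
      have h1 := Fin.sum_univ_succAbove (fun i => (ys i : ℤ) ^ 2) i1
      have h2 := Fin.sum_univ_succAbove (fun i => (z i : ℤ) ^ 2) i1
      simp only [hys1, hys2, hv, hu2] at h1 h2
      have : ∑ i, (ys i : ℤ) ^ 2 = ∑ i, (z i : ℤ) ^ 2 := by linarith
      exact_mod_cast this
    have cube : ∀ y : Fin (l + 1) → ℕ, y i1 = z i1 →
        ∑ i, (y i : ℝ) ^ 3 = (z i1 : ℝ) ^ 3 + ∑ j : Fin l, (y (i1.succAbove j) : ℝ) ^ 3 := by
      intro y hy
      have h1 := Fin.sum_univ_succAbove (fun i => (y i : ℝ) ^ 3) i1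
      simp only [hy] at h1
      exact h1
    -- use of MOMT
    have mom : ∀ (y : Fin (l + 1) → ℕ) (k1 : Fin l), y i1 = z i1 → ∑ i, y i = n →
        ∑ i, y i ^ 2 = ∑ i, z i ^ 2 →
        (∀ j, y (i1.succAbove j) ≤ y (i1.succAbove k1)) →
        ((y (i1.succAbove k1) : ℤ) < u js →
          ∑ j : Fin l, (y (i1.succAbove j) : ℝ) ^ 3
            + cm * τ ^ 2 * ((u js : ℝ) - y (i1.succAbove k1)) ≤ ∑ j, (u j : ℝ) ^ 3) ∧
        |∑ j, ((u j : ℝ) - ν) ^ 4 - ∑ j : Fin l, ((y (i1.succAbove j) : ℝ) - ν) ^ 4|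
          ≤ Km * (τ + 1) ^ 3 * ((u js : ℝ) - y (i1.succAbove k1) + 1) := by
      intro y k1 hy hys hys2 hyk
      have h := HM u (fun j => (y (i1.succAbove j) : ℤ)) js k1 ν τ
        (by
          intro w hw hw2 j
          exact hmax1 w (hw.trans hu) (hw2.trans hu2.le) j)
        hujs
        (by
          rw [hu]
          exact rsum y hy hys)
        (by
          rw [hu2]
          exact rsq y hy hys2)
        (fun j => by exact_mod_cast hyk j)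
        (hmax (fun j => (y (i1.succAbove j) : ℤ)) (rsum y hy hys) (rsq y hy hys2) k1)
        (by rw [huR, hν]) hτ0 hud.symm
      simp only [Int.cast_natCast] at h
      exact ⟨fun hlt => h.1 hlt (by linarith), h.2⟩
    -- the largest entry of the rest of `z`
    obtain ⟨j2, hj2⟩ := Fin.exists_succAbove_eq hi12
    have hzmax : ∀ j, z (i1.succAbove j) ≤ z (i1.succAbove j2) := by
      intro j
      rw [hj2]
      by_cases h2 : i1.succAbove j = i2
      · rw [h2]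
      · exact (hG.top _ (Fin.succAbove_ne i1 j) h2).2
    obtain ⟨m3, m4⟩ := mom z j2 rfl hG.sum rfl hzmax
    rw [hj2] at m3 m4
    have hle : (z i2 : ℤ) ≤ u js := by
      rw [← hj2]
      exact hmax (fun j => (z (i1.succAbove j) : ℤ)) (rsum z rfl hG.sum) rfl j2
    have hleR : (z i2 : ℝ) ≤ u js := by exact_mod_cast hle
    have hmain := key ys (i1.succAbove js) (Fin.succAbove_ne i1 js) hys1 hyss hyss2
    rw [phf_sub1 hl1 ys z _ i1 i2 hys1, cube ys hys1, cube z rfl] at hmain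
    simp only [hys2, hvR] at hmain
    obtain ⟨q, hq⟩ : ∃ q : ℝ, q = (u js : ℝ) - z i2 := ⟨_, rfl⟩
    rw [← hq] at hmain m3 m4
    have hq0 : 0 ≤ q := by linarith
    have hrat : 0 ≤ 2 * ((l : ℝ) + 1) / l := by positivity
    have h4 : Ke / n * |∑ j, ((u j : ℝ) - ν) ^ 4
        - ∑ j : Fin l, ((z (i1.succAbove j) : ℝ) - ν) ^ 4| ≤ 1 / 24 * (q + 1) := by
      calc Ke / n * |∑ j, ((u j : ℝ) - ν) ^ 4
            - ∑ j : Fin l, ((z (i1.succAbove j) : ℝ) - ν) ^ 4|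
          ≤ Ke / n * (Km * (τ + 1) ^ 3 * (q + 1)) := mul_le_mul_of_nonneg_left m4 (by positivity)
        _ = Ke / n * (Km * (τ + 1) ^ 3) * (q + 1) := by ring
        _ ≤ 1 / 24 * (q + 1) := by
            apply mul_le_mul_of_nonneg_right _ (by linarith)
            have : 0 ≤ Ke / n * (Km * (τ + 1) ^ 3) := by positivity
            linarith [(by ring : Ke / n * (2 * (Km * (τ + 1) ^ 3))
              = 2 * (Ke / n * (Km * (τ + 1) ^ 3)))]
    have hqr : 0 ≤ 2 * ((l : ℝ) + 1) / l * q := mul_nonneg hrat hq0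
    -- `q = 0`
    have hqz : (z i2 : ℤ) = u js := by
      by_contra hne
      have hlt : (z i2 : ℤ) < u js := lt_of_le_of_ne hle hne
      have hq1 : 1 ≤ q := by
        have : (z i2 : ℤ) + 1 ≤ u js := hlt
        have : (z i2 : ℝ) + 1 ≤ u js := by exact_mod_cast this
        linarith
      have h3 := m3 hlt
      have e1 : 2 * q < cm * τ ^ 2 * q := mul_lt_mul_of_pos_right hcτ (by linarith)
      linarith
    have hqq : q = 0 := by
      have : (z i2 : ℝ) = u js := by exact_mod_cast hqz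
      linarith
    rw [hqq] at hmain m4 h4
    rw [mul_zero] at hmain
    -- all the entries of the rest of `y₀` are at most `z i2`
    have hyle : ∀ j, y₀ (i1.succAbove j) ≤ z i2 := by
      intro j
      have := hmax (fun j => (y₀ (i1.succAbove j) : ℤ)) (rsum y₀ hy₀ hy₀s)
        (rsq y₀ hy₀ hy₀2) j
      rw [← hqz] at this
      exact_mod_cast this
    obtain ⟨j0, hj0⟩ := Fin.exists_succAbove_eq hk₀
    obtain ⟨k2, -, hk2⟩ := Finset.exists_max_image (Finset.univ : Finset (Fin l))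
      (fun j => y₀ (i1.succAbove j)) ⟨j0, mem_univ j0⟩
    have hk2' : ∀ j, y₀ (i1.succAbove j) ≤ y₀ (i1.succAbove k2) := fun j => hk2 j (mem_univ j)
    obtain ⟨n3, n4⟩ := mom y₀ k2 hy₀ hy₀s hy₀2 hk2'
    have hkle : y₀ k₀ ≤ y₀ (i1.succAbove k2) := by
      rw [← hj0]
      exact hk2' j0
    rcases Nat.lt_or_ge (y₀ (i1.succAbove k2)) (z i2) with hlt | hge
    · have hlt' : (y₀ (i1.succAbove k2) : ℤ) < u js := by
        rw [← hqz]
        exact_mod_cast hlt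
      have h3 := n3 hlt'
      have hq1 : (1 : ℝ) ≤ (u js : ℝ) - y₀ (i1.succAbove k2) := by
        have : (y₀ (i1.succAbove k2) : ℤ) + 1 ≤ u js := hlt'
        have : (y₀ (i1.succAbove k2) : ℝ) + 1 ≤ u js := by exact_mod_cast this
        linarith
      have e0 : cm * τ ^ 2 * 1 ≤ cm * τ ^ 2 * ((u js : ℝ) - y₀ (i1.succAbove k2)) :=
        mul_le_mul_of_nonneg_left hq1 (by positivity)
      have e1 : 2 * ((l : ℝ) + 1) / l * ((y₀ k₀ : ℝ) - z i2) ≤ 0 := by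
        apply mul_nonpos_of_nonneg_of_nonpos hrat
        have : (y₀ k₀ : ℝ) ≤ z i2 := by exact_mod_cast hkle.trans hlt.le
        linarith
      have hfin : PhF y₀ i1 k₀ - PhF z i1 i2 ≤ 0 := by
        rw [phf_sub1 hl1 y₀ z _ i1 i2 hy₀, cube y₀ hy₀, cube z rfl]
        linarith
      linarith
    · have heq : y₀ (i1.succAbove k2) = z i2 := le_antisymm (hyle k2) hge
      rw [heq] at n4
      have hz0 : (u js : ℝ) - z i2 + 1 = 0 + 1 := by linarith
      rw [hz0] at n4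
      have e1 : PhF y₀ i1 k₀ ≤ PhF y₀ i1 (i1.succAbove k2) := by
        have h := phf_sub1 hl1 y₀ y₀ k₀ i1 (i1.succAbove k2) rfl
        have h' : 2 * ((l : ℝ) + 1) / l * ((y₀ k₀ : ℝ) - y₀ (i1.succAbove k2)) ≤ 0 := by
          apply mul_nonpos_of_nonneg_of_nonpos hrat
          have : (y₀ k₀ : ℝ) ≤ y₀ (i1.succAbove k2) := by exact_mod_cast hkle
          linarith
        linarith
      refine e1.trans ?_
      apply phf_int (by omega)
      refine (key y₀ _ (Fin.succAbove_ne i1 k2) hy₀ hy₀s hy₀2).trans_lt ?_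
      have h5 : |∑ j : Fin l, ((y₀ (i1.succAbove j) : ℝ) - ν) ^ 4
          - ∑ j : Fin l, ((z (i1.succAbove j) : ℝ) - ν) ^ 4| ≤ 2 * (Km * (τ + 1) ^ 3) := by
        rw [abs_le] at m4 n4 ⊢
        constructor <;> linarith [m4.1, m4.2, n4.1, n4.2]
      have h6 : Ke / n * |∑ j : Fin l, ((y₀ (i1.succAbove j) : ℝ) - ν) ^ 4
          - ∑ j : Fin l, ((z (i1.succAbove j) : ℝ) - ν) ^ 4|
          ≤ Ke / n * (2 * (Km * (τ + 1) ^ 3)) := mul_le_mul_of_nonneg_left h5 (by positivity)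
      linarith

theorem x_PH2S (hMOMT1 : Stmt_MOMT1) (hEXPR : Stmt_EXPR) (hREPS : Stmt_REPS) (hTNZ : Stmt_TNZ) :
    Stmt_PH2S :=
  fun C hC => x_PH2S_aux 5 le_rfl hMOMT1 hEXPR hREPS hTNZ C hC

end Pool.Agent.Work.MP_5532fa_up
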