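import Pool.Agent.Work.MP_5532fa_x.Interface2

/-!
# MP_5532fa_co, block PHI
-/

open Finset

namespace Pool.Agent.Work.MP_5532fa_up

open MP5532fa (specRad qf pE)

namespace X_PHI

theorem gg_comm (r : ℕ) (lam a b : ℝ) : gg r lam a b = gg r lam b a := by
  unfold gg
  rw [mul_comm (lam + a) (lam + b), add_comm (1 / (lam + a) ^ 2) (1 / (lam + b) ^ 2)]

theorem PhF_comm {r : ℕ} (y : Fin r → ℕ) (i k : Fin r) : PhF y i k = PhF y k i := by
  unfold PhF
  rw [add_comm (y i : ℝ) (y k : ℝ)]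

theorem GH_comm {r : ℕ} {C : ℝ} {n : ℕ} {lam : ℝ} {z : Fin r → ℕ} {i1 i2 : Fin r}
    (h : GH r C n lam z i1 i2) : GH r C n lam z i2 i1 where
  ne := h.ne.symm
  lamb := h.lamb
  sum := h.sum
  dev := h.dev
  top := fun l h1 h2 => (h.top l h2 h1).symm
  cmp := fun y i k hik hs hq => by
    rw [gg_comm r lam (z i2) (z i1)]
    exact h.cmp y i k hik hs hq

theorem PhF_swap {r : ℕ} (y : Fin r → ℕ) (σ : Equiv.Perm (Fin r)) (i k : Fin r) :
    PhF (fun m => y (σ m)) i k = PhF y (σ i) (σ k) := by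
  unfold PhF
  rw [Equiv.sum_comp σ (fun m => (y m : ℝ) ^ 3)]

theorem key (hP2 : Stmt_PH2) {l : ℕ} {C : ℝ} (hl : 6 ≤ l) (hC : 1 ≤ C) : ∃ n2 : ℕ, ∀ n ≥ n2,
    ∀ (z : Fin (l + 1) → ℕ) (j1 j2 : Fin (l + 1)) (lam : ℝ) (M1 : ℕ),
    GH (l + 1) C n lam z j1 j2 → M1 = z j1 →
    (∀ u : Fin (l + 1) → ℤ, ∑ m, u m = n → ∑ m, u m ^ 2 ≤ ∑ m, (z m : ℤ) ^ 2 → ∀ i, u i ≤ M1) →
    (∀ (y : Fin (l + 1) → ℕ) (i k : Fin (l + 1)), i ≠ k → ∑ m, y m = n →
      ∑ m, y m ^ 2 = ∑ m, z m ^ 2 → (∀ m, y m < M1) → PhF y i k ≤ PhF z j1 j2) →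
    ∀ (y : Fin (l + 1) → ℕ) (i k : Fin (l + 1)), i ≠ k → ∑ m, y m = n →
      ∑ m, y m ^ 2 = ∑ m, z m ^ 2 → PhF y i k ≤ PhF z j1 j2 := by
  obtain ⟨n2, h2⟩ := hP2 l C hl hC
  refine ⟨n2, fun n hn z j1 j2 lam M1 hG hM hmax hlt y i k hik hs hq => ?_⟩
  by_cases hall : ∀ m, y m < M1
  · exact hlt y i k hik hs hq hall
  · push Not at hall
    obtain ⟨i', hi'⟩ := hall
    have hle : ∀ m, y m ≤ M1 := by
      intro m
      have h3 := hmax (fun m => (y m : ℤ)) (by exact_mod_cast hs)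
        (le_of_eq (by exact_mod_cast hq)) m
      exact_mod_cast h3
    have he : y i' = M1 := le_antisymm (hle i') hi'
    have h3 : ∃ k', k' ≠ i' ∧ PhF y i k ≤ PhF y i' k' := by
      by_cases hk : i' = k
      · exact ⟨i, by rw [hk]; exact hik, by rw [hk, PhF_comm]⟩
      · refine ⟨k, fun h => hk h.symm, ?_⟩
        unfold PhF
        have h4 : (y i : ℝ) ≤ y i' := by
          rw [he]
          exact_mod_cast hle i
        have h5 : (0 : ℝ) ≤ 2 * ((l + 1 : ℕ) : ℝ) / (((l + 1 : ℕ) : ℝ) - 1) := by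
          apply div_nonneg
          · positivity
          · push_cast
            have : (0 : ℝ) ≤ (l : ℝ) := Nat.cast_nonneg l
            linarith
        have h6 := mul_le_mul_of_nonneg_left (add_le_add_left h4 (y k : ℝ)) h5
        linarith
    obtain ⟨k', hk', h4⟩ := h3
    refine h4.trans ?_
    have h5 := h2 n hn z j1 j2 lam hG
      (fun u hu1 hu2 m => by
        have h6 := hmax u hu1 hu2 m
        rw [hM] at h6
        exact h6)
      (fun m => y (Equiv.swap i' j1 m)) (Equiv.swap i' j1 k')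
      (fun h => hk' (by
        have h7 := congrArg (Equiv.swap i' j1) h
        rwa [Equiv.swap_apply_self, Equiv.swap_apply_right] at h7))
      (by
        show y (Equiv.swap i' j1 j1) = z j1
        rw [Equiv.swap_apply_right, he, hM])
      (by
        rw [← hs]
        exact Equiv.sum_comp (Equiv.swap i' j1) (fun m => y m))
      (by
        rw [← hq]
        exact Equiv.sum_comp (Equiv.swap i' j1) (fun m => y m ^ 2))
    rw [PhF_swap y (Equiv.swap i' j1), Equiv.swap_apply_right, Equiv.swap_apply_self] at h5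
    exact h5

end X_PHI

theorem x_PHI (hP1 : Stmt_PH1) (hP2 : Stmt_PH2) : Stmt_PHI := by
  intro r C hr hC
  obtain ⟨l, rfl⟩ : ∃ l, r = l + 1 := ⟨r - 1, by omega⟩
  obtain ⟨n1, h1⟩ := hP1 (l + 1) C (by omega) hC
  obtain ⟨n2, h2⟩ := X_PHI.key hP2 (l := l) (C := C) (by omega) hC
  refine ⟨max n1 n2, fun n hn z i1 i2 lam hG y i k hik hs hq => ?_⟩
  rcases h1 n (le_of_max_le_left hn) z i1 i2 lam hG with h | ⟨M1, hM, hmax, hlt⟩
  · exact h y i k hik hs hq
  · rcases hM with hM | hM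
    · exact h2 n (le_of_max_le_right hn) z i1 i2 lam M1 hG hM hmax hlt y i k hik hs hq
    · rw [X_PHI.PhF_comm z i1 i2]
      refine h2 n (le_of_max_le_right hn) z i2 i1 lam M1 (X_PHI.GH_comm hG) hM hmax
        (fun y i k hik hs hq hy => ?_) y i k hik hs hq
      rw [X_PHI.PhF_comm z i2 i1]
      exact hlt y i k hik hs hq hy

end Pool.Agent.Work.MP_5532fa_up
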