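import Pool.Agent.Work.MP_5532fa_x.Interface6

/-!
# Block PLC of MP_5532fa_x (helper18)
-/

set_option autoImplicit false

open Finset

namespace Pool.Agent.Work.MP_5532fa_up

open MP5532fa (specRad qf pE)

namespace PLCw


theorem bal_sizes (r : ℕ) (hr : 1 ≤ r) (n : Fin r → ℕ) (N : ℕ) (hN : ∑ i, n i = N)
    (hb : ∀ i k, n i ≤ n k + 1) : ∀ i, n i = N / r ∨ n i = N / r + 1 := by
  intro i
  have hdm : r * (N / r) + N % r = N := Nat.div_add_mod N r
  have hlt : N % r < r := Nat.mod_lt _ (by omega)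
  have h1 : N / r ≤ n i := by
    by_contra hc
    push Not at hc
    have h2 : ∑ k, n k < ∑ _k : Fin r, N / r := by
      apply Finset.sum_lt_sum
      · intro k _
        have := hb k i
        omega
      · exact ⟨i, mem_univ _, hc⟩
    simp at h2
    omega
  have h2 : n i ≤ N / r + 1 := by
    by_contra hc
    push Not at hc
    have h2 : ∑ _k : Fin r, (N / r + 1) < ∑ k, n k := by
      apply Finset.sum_lt_sum
      · intro k _
        have := hb i k
        omega
      · exact ⟨i, mem_univ _, hc⟩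
    simp at h2
    have h3 : r * (N / r + 1) = r * (N / r) + r := by ring
    omega
  omega

theorem card_large (r : ℕ) (hr : 1 ≤ r) (n : Fin r → ℕ) (N : ℕ) (hN : ∑ i, n i = N)
    (hb : ∀ i k, n i ≤ n k + 1) : (univ.filter (fun i => n i = N / r + 1)).card = N % r := by
  have h := bal_sizes r hr n N hN hb
  have hdm : r * (N / r) + N % r = N := Nat.div_add_mod N r
  have h1 : ∑ i, n i = ∑ i, (N / r + if n i = N / r + 1 then 1 else 0) := by
    refine Finset.sum_congr rfl (fun i _ => ?_)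
    rcases h i with h1 | h1
    · rw [if_neg (by omega)]; omega
    · rw [if_pos h1]; omega
  rw [Finset.sum_add_distrib] at h1
  simp at h1
  omega

/-- combinatorial core -/
theorem core (r : ℕ) (hr : 1 ≤ r) (n a : Fin r → ℕ) (P : Finset (Fin r)) (N : ℕ)
    (hN : ∑ i, n i = N) (hb : ∀ i k, n i ≤ n k + 1) (hPr : P.card < r)
    (hP : ∀ i ∈ P, a i ≤ 1)
    (hpl : ∀ i k, i ∉ P → k ∉ P → (n i = n k → a i ≤ a k + 1) ∧
      (n i < n k → a i = n i ∨ a k = 1))
    (htop : ∀ i k, i ∈ P → k ∉ P → n k ≤ n i) (htot : ∑ i, a i < N / r) :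
    ∃ S : Finset (Fin r), S.card = r - max (N % r) P.card ∧ 1 ≤ S.card ∧
      (∀ i ∈ S, n i = N / r) ∧ (∀ i, i ∉ S → a i ≤ 1) ∧
      (∀ i ∈ S, ∀ k ∈ S, a i ≤ a k + 1) := by
  have hsz := bal_sizes r hr n N hN hb
  have hcl := card_large r hr n N hN hb
  have hlt : N % r < r := Nat.mod_lt _ (by omega)
  have hsm : ∀ i, n i = N / r → n i ≠ N / r + 1 := fun i h => by omega
  -- complement of large
  have hcs : (univ.filter (fun i => n i = N / r)).card = r - N % r := by
    have h1 : (univ.filter (fun i => n i = N / r)) = (univ.filter (fun i => n i = N / r + 1))ᶜ := by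
      ext i
      simp only [mem_filter, mem_univ, true_and, mem_compl]
      rcases hsz i with h | h
      · constructor
        · intro _; omega
        · intro _; exact h
      · constructor
        · intro h'; omega
        · intro h'; exact absurd h h'
    rw [h1, card_compl, hcl, Fintype.card_fin]
  by_cases hB : ∃ i ∈ P, n i = N / r
  · obtain ⟨i1, hi1, hn1⟩ := hB
    have hout : ∀ k, k ∉ P → n k = N / r := by
      intro k hk
      have := htop i1 k hi1 hk
      rcases hsz k with h | h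
      · exact h
      · omega
    have hsP : N % r ≤ P.card := by
      rw [← hcl]
      apply card_le_card
      intro i hi
      simp only [mem_filter, mem_univ, true_and] at hi
      by_contra hc
      have := hout i hc
      omega
    refine ⟨Pᶜ, ?_, ?_, ?_, ?_, ?_⟩
    · rw [card_compl, Fintype.card_fin, max_eq_right hsP]
    · rw [card_compl, Fintype.card_fin]; omega
    · intro i hi
      exact hout i (by simpa using hi)
    · intro i hi
      exact hP i (by simpa using hi)
    · intro i hi k hk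
      have hi' : i ∉ P := by simpa using hi
      have hk' : k ∉ P := by simpa using hk
      exact (hpl i k hi' hk').1 (by rw [hout i hi', hout k hk'])
  · push Not at hB
    have hPl : ∀ i ∈ P, n i = N / r + 1 := by
      intro i hi
      rcases hsz i with h | h
      · exact absurd h (hB i hi)
      · exact h
    have hsP : P.card ≤ N % r := by
      rw [← hcl]
      apply card_le_card
      intro i hi
      simp only [mem_filter, mem_univ, true_and]
      exact hPl i hi
    refine ⟨univ.filter (fun i => n i = N / r), ?_, ?_, ?_, ?_, ?_⟩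
    · rw [hcs, max_eq_left hsP]
    · rw [hcs]; omega
    · intro i hi
      simpa using hi
    · intro k hk
      have hk1 : n k = N / r + 1 := by
        rcases hsz k with h | h
        · exact absurd (by simpa using h) hk
        · exact h
      by_cases hkP : k ∈ P
      · exact hP k hkP
      · have hne : (univ.filter (fun i => n i = N / r)).Nonempty := by
          rw [← card_pos, hcs]; omega
        obtain ⟨i, hi⟩ := hne
        have hi' : n i = N / r := by simpa using hi
        have hiP : i ∉ P := fun h => by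
          have := hPl i h
          omega
        rcases (hpl i k hiP hkP).2 (by omega) with h | h
        · have h2 : a i ≤ ∑ i, a i := Finset.single_le_sum (fun _ _ => Nat.zero_le _) (mem_univ i)
          omega
        · omega
    · intro i hi k hk
      have hi' : n i = N / r := by simpa using hi
      have hk' : n k = N / r := by simpa using hk
      have hiP : i ∉ P := fun h => by
        have := hPl i h
        omega
      have hkP : k ∉ P := fun h => by
        have := hPl k h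
        omega
      exact (hpl i k hiP hkP).1 (by omega)

/-- the real estimates -/
theorem est (r : ℕ) (hr : 1 ≤ r) (n a : Fin r → ℕ) (N j : ℕ) (S : Finset (Fin r))
    (hS1 : 1 ≤ S.card) (hsz : ∀ i, n i = N / r ∨ n i = N / r + 1)
    (hSn : ∀ i ∈ S, n i = N / r) (hSa : ∀ i, i ∉ S → a i ≤ 1)
    (hSd : ∀ i ∈ S, ∀ k ∈ S, a i ≤ a k + 1) (hjN : j ≤ N) (hN1 : 1 ≤ N)
    (htj : |((∑ i, a i : ℕ) : ℝ) - j| ≤ r) :
    |∑ i, (a i : ℝ) ^ 2 - (j : ℝ) ^ 2 / (S.card : ℝ)| ≤ (6 * (r : ℝ) + 8 * (r : ℝ) ^ 2) * N ∧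
    |∑ i, (a i : ℝ) * ((n i : ℝ) - N / r) + ((N % r : ℕ) : ℝ) / r * j|
      ≤ 6 * (r : ℝ) + 8 * (r : ℝ) ^ 2 := by
  have hr0 : (1 : ℝ) ≤ r := by exact_mod_cast hr
  have hrp : (0 : ℝ) < r := by linarith
  set τ : ℝ := (S.card : ℝ) with hτ
  have hτ1 : (1 : ℝ) ≤ τ := by rw [hτ]; exact_mod_cast hS1
  have hτ0 : 0 < τ := by linarith
  have hτr : τ ≤ r := by
    rw [hτ]
    have := card_le_univ S
    rw [Fintype.card_fin] at this
    exact_mod_cast this
  set T : ℝ := ∑ i ∈ S, (a i : ℝ) with hT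
  -- splitting
  have hsplit : ∀ f : Fin r → ℝ, ∑ i, f i = ∑ i ∈ S, f i + ∑ i ∈ Sᶜ, f i :=
    fun f => (Finset.sum_add_sum_compl S f).symm
  have hSc : ((Sᶜ).card : ℝ) ≤ r := by
    have := card_le_univ (Sᶜ)
    rw [Fintype.card_fin] at this
    exact_mod_cast this
  have hbound : ∀ f : Fin r → ℝ, (∀ i, i ∉ S → |f i| ≤ 1) → |∑ i ∈ Sᶜ, f i| ≤ r := by
    intro f hf
    calc |∑ i ∈ Sᶜ, f i| ≤ ∑ i ∈ Sᶜ, |f i| := Finset.abs_sum_le_sum_abs _ _
      _ ≤ ∑ _i ∈ Sᶜ, (1 : ℝ) := Finset.sum_le_sum (fun i hi => hf i (by simpa using hi))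
      _ = ((Sᶜ).card : ℝ) := by simp
      _ ≤ r := hSc
  have ha1 : ∀ i, i ∉ S → |(a i : ℝ)| ≤ 1 := by
    intro i hi
    rw [abs_of_nonneg (by positivity)]
    exact_mod_cast hSa i hi
  have ha2 : ∀ i, i ∉ S → |(a i : ℝ) ^ 2| ≤ 1 := by
    intro i hi
    rw [abs_pow]
    exact pow_le_one₀ (abs_nonneg _) (ha1 i hi)
  have hT1 : |T - j| ≤ 2 * r := by
    have h1 := hsplit (fun i => (a i : ℝ))
    have h2 := hbound (fun i => (a i : ℝ)) ha1
    have h3 : ((∑ i, a i : ℕ) : ℝ) = ∑ i, (a i : ℝ) := by push_cast; rfl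
    rw [h3, h1] at htj
    have h4 : T - j = (∑ i ∈ S, (a i : ℝ) + ∑ i ∈ Sᶜ, (a i : ℝ) - j) - ∑ i ∈ Sᶜ, (a i : ℝ) := by
      rw [hT]; ring
    rw [h4]
    calc _ ≤ |∑ i ∈ S, (a i : ℝ) + ∑ i ∈ Sᶜ, (a i : ℝ) - j| + |∑ i ∈ Sᶜ, (a i : ℝ)| :=
          abs_sub _ _
      _ ≤ 2 * r := by linarith
  have hjr : (j : ℝ) ≤ N := by exact_mod_cast hjN
  have hNr : (1 : ℝ) ≤ N := by exact_mod_cast hN1
  have hj0 : (0 : ℝ) ≤ j := by positivity
  have hT0 : 0 ≤ T := Finset.sum_nonneg (fun i _ => by positivity)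
  constructor
  · -- squares
    have h1 := hsplit (fun i => (a i : ℝ) ^ 2)
    have h2 := hbound (fun i => (a i : ℝ) ^ 2) ha2
    have hvar : ∑ i ∈ S, (a i : ℝ) ^ 2 = T ^ 2 / τ + ∑ i ∈ S, ((a i : ℝ) - T / τ) ^ 2 := by
      have h5 : ∑ i ∈ S, ((a i : ℝ) - T / τ) ^ 2
          = ∑ i ∈ S, ((a i : ℝ) ^ 2 - 2 * (T / τ) * a i + (T / τ) ^ 2) :=
        Finset.sum_congr rfl (fun i _ => by ring)
      rw [h5, Finset.sum_add_distrib, Finset.sum_sub_distrib, ← Finset.mul_sum, ← hT]
      rw [Finset.sum_const, nsmul_eq_mul, ← hτ]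
      field_simp
      ring
    have hdev : ∀ i ∈ S, ((a i : ℝ) - T / τ) ^ 2 ≤ 1 := by
      intro i hi
      have h6 : |(a i : ℝ) - T / τ| ≤ 1 := by
        rw [abs_le]
        have hlow : τ * ((a i : ℝ) - 1) ≤ T := by
          have : ∑ _k ∈ S, ((a i : ℝ) - 1) ≤ ∑ k ∈ S, (a k : ℝ) := by
            apply Finset.sum_le_sum
            intro k hk
            have := hSd i hi k hk
            have h7 : (a i : ℝ) ≤ a k + 1 := by exact_mod_cast this
            linarith
          rw [Finset.sum_const, nsmul_eq_mul] at this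
          exact this
        have hup : T ≤ τ * ((a i : ℝ) + 1) := by
          have : ∑ k ∈ S, (a k : ℝ) ≤ ∑ _k ∈ S, ((a i : ℝ) + 1) := by
            apply Finset.sum_le_sum
            intro k hk
            have := hSd k hk i hi
            have h7 : (a k : ℝ) ≤ a i + 1 := by exact_mod_cast this
            linarith
          rw [Finset.sum_const, nsmul_eq_mul] at this
          exact this
        have e1 : (a i : ℝ) - 1 ≤ T / τ := by
          rw [le_div_iff₀ hτ0]; linarith
        have e2 : T / τ ≤ (a i : ℝ) + 1 := by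
          rw [div_le_iff₀ hτ0]; linarith
        constructor <;> linarith
      have := sq_abs ((a i : ℝ) - T / τ)
      rw [← this]
      exact pow_le_one₀ (abs_nonneg _) h6
    have hs0 : 0 ≤ ∑ i ∈ S, ((a i : ℝ) - T / τ) ^ 2 := Finset.sum_nonneg (fun i _ => sq_nonneg _)
    have hs1 : ∑ i ∈ S, ((a i : ℝ) - T / τ) ^ 2 ≤ r := by
      calc _ ≤ ∑ _i ∈ S, (1 : ℝ) := Finset.sum_le_sum hdev
        _ = τ := by simp [hτ]
        _ ≤ r := hτr
    rw [h1, hvar]
    have hTj : |T ^ 2 / τ - (j : ℝ) ^ 2 / τ| ≤ 2 * r * (2 * N + 2 * r) := by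
      have e1 : T ^ 2 / τ - (j : ℝ) ^ 2 / τ = (T - j) * (T + j) / τ := by ring
      rw [e1, abs_div, abs_mul, abs_of_pos hτ0, abs_of_nonneg (by linarith : 0 ≤ T + j)]
      rw [div_le_iff₀ hτ0]
      have e2 : T + j ≤ 2 * N + 2 * r := by
        have := (abs_le.mp hT1).2
        linarith
      calc |T - j| * (T + j) ≤ 2 * r * (2 * N + 2 * r) :=
            mul_le_mul hT1 e2 (by linarith) (by linarith)
        _ ≤ 2 * r * (2 * N + 2 * r) * τ := by
            apply le_mul_of_one_le_right _ hτ1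
            positivity
    have h8 := abs_le.mp hTj
    have h9 := abs_le.mp h2
    have h10 : 2 * (r : ℝ) + 2 * r * (2 * N + 2 * r) ≤ (6 * (r : ℝ) + 8 * (r : ℝ) ^ 2) * N := by
      nlinarith [mul_nonneg (by linarith : (0:ℝ) ≤ (N:ℝ) - 1) (by positivity : (0:ℝ) ≤ (r:ℝ)),
        mul_nonneg (by linarith : (0:ℝ) ≤ (N:ℝ) - 1) (by positivity : (0:ℝ) ≤ (r:ℝ) ^ 2),
        mul_nonneg (by positivity : (0:ℝ) ≤ (r:ℝ) ^ 2) (by linarith : (0:ℝ) ≤ (N:ℝ))]
    rw [abs_le]
    constructor <;> linarith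
  · -- first moment
    have h1 := hsplit (fun i => (a i : ℝ) * ((n i : ℝ) - N / r))
    have hdm : r * (N / r) + N % r = N := Nat.div_add_mod N r
    have hdm' : (r : ℝ) * ((N / r : ℕ) : ℝ) + ((N % r : ℕ) : ℝ) = N := by exact_mod_cast hdm
    have hq : ((N / r : ℕ) : ℝ) - (N : ℝ) / r = -(((N % r : ℕ) : ℝ) / r) := by
      field_simp
      linarith
    have hs1 : ((N % r : ℕ) : ℝ) / r ≤ 1 := by
      rw [div_le_one hrp]
      have := (Nat.mod_lt N (by omega : r > 0)).le
      exact_mod_cast this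
    have hs0 : 0 ≤ ((N % r : ℕ) : ℝ) / r := by positivity
    have hd : ∀ i, |(n i : ℝ) - N / r| ≤ 1 := by
      intro i
      rcases hsz i with h | h
      · rw [h, hq, abs_neg, abs_of_nonneg hs0]; exact hs1
      · rw [h]
        push_cast
        have : ((N / r : ℕ) : ℝ) + 1 - (N : ℝ) / r = 1 - ((N % r : ℕ) : ℝ) / r := by linarith
        rw [this, abs_of_nonneg (by linarith)]
        linarith
    have h2 := hbound (fun i => (a i : ℝ) * ((n i : ℝ) - N / r)) (by
      intro i hi
      rw [abs_mul]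
      exact mul_le_one₀ (ha1 i hi) (abs_nonneg _) (hd i))
    have h3 : ∑ i ∈ S, (a i : ℝ) * ((n i : ℝ) - N / r) = -(((N % r : ℕ) : ℝ) / r) * T := by
      rw [hT, Finset.mul_sum]
      refine Finset.sum_congr rfl (fun i hi => ?_)
      rw [hSn i hi, hq]; ring
    rw [h1, h3]
    set σ : ℝ := ((N % r : ℕ) : ℝ) / r
    have h4 : -σ * T + ∑ i ∈ Sᶜ, (a i : ℝ) * ((n i : ℝ) - N / r) + σ * j
        = -(σ * (T - j)) + ∑ i ∈ Sᶜ, (a i : ℝ) * ((n i : ℝ) - N / r) := by ring
    rw [h4]
    calc _ ≤ |-(σ * (T - j))| + |∑ i ∈ Sᶜ, (a i : ℝ) * ((n i : ℝ) - N / r)| := abs_add_le _ _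
      _ ≤ 2 * r + r := by
          apply add_le_add _ h2
          rw [abs_neg, abs_mul, abs_of_nonneg hs0]
          calc σ * |T - j| ≤ 1 * (2 * r) := mul_le_mul hs1 hT1 (abs_nonneg _) (by norm_num)
            _ = 2 * r := by ring
      _ ≤ 6 * (r : ℝ) + 8 * (r : ℝ) ^ 2 := by nlinarith

theorem window (r : ℕ) (hr : 3 ≤ r) (N j : ℕ) (hN : 4 * r ^ 2 ≤ N)
    (h : |((r : ℝ) + 1) * (j / ((1 - 1 / (r : ℝ)) * N)) - 1| ≤ 1 / (2 * r)) :
    j + 1 < N / r ∧ j ≤ N := by
  have hr0 : (3 : ℝ) ≤ r := by exact_mod_cast hr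
  have hrp : (0 : ℝ) < r := by linarith
  have hNr : 4 * (r : ℝ) ^ 2 ≤ N := by exact_mod_cast hN
  have hNp : (0 : ℝ) < N := by nlinarith
  have hal : 0 < (1 - 1 / (r : ℝ)) := by
    rw [sub_pos, div_lt_one hrp]; linarith
  have h1 := (abs_le.mp h).2
  have h2 : ((r : ℝ) + 1) * (j / ((1 - 1 / (r : ℝ)) * N)) ≤ 1 + 1 / (2 * r) := by linarith
  have h3 : ((r : ℝ) + 1) * j ≤ (1 + 1 / (2 * r)) * ((1 - 1 / (r : ℝ)) * N) := by
    rw [← mul_div_assoc, div_le_iff₀ (by positivity)] at h2
    exact h2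
  have h4 : (1 + 1 / (2 * (r : ℝ))) * ((1 - 1 / (r : ℝ)) * N)
      = (2 * r + 1) * (r - 1) * N / (2 * (r : ℝ) ^ 2) := by
    field_simp
  rw [h4, le_div_iff₀ (by positivity)] at h3
  -- (r+1) j 2 r^2 ≤ (2r+1)(r-1) N
  have h5 : ((j : ℝ) + 2) * r ≤ N := by
    have h6 : 0 < 2 * (r : ℝ) * (r + 1) := by positivity
    have h7 : ((j : ℝ) + 2) * r * (2 * (r : ℝ) * (r + 1)) ≤ N * (2 * (r : ℝ) * (r + 1)) := by
      have e1 : ((j : ℝ) + 2) * r * (2 * (r : ℝ) * (r + 1))
          = ((r : ℝ) + 1) * j * (2 * (r : ℝ) ^ 2) + 4 * (r : ℝ) ^ 2 * (r + 1) := by ring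
      rw [e1]
      have e2 : 4 * (r : ℝ) ^ 2 * (r + 1) ≤ N * (r + 1) :=
        mul_le_mul_of_nonneg_right hNr (by linarith)
      nlinarith [mul_nonneg hNp.le hrp.le]
    exact le_of_mul_le_mul_right h7 h6
  have h8 : (j + 2) * r ≤ N := by exact_mod_cast h5
  constructor
  · have := (Nat.le_div_iff_mul_le (by omega : 0 < r)).mpr h8
    omega
  · nlinarith

end PLCw

theorem blk_PLC : Stmt_PLC := by
  intro r hr
  refine ⟨6 * (r : ℝ) + 8 * (r : ℝ) ^ 2, 4 * r ^ 2, ?_, ?_⟩
  · have : (3 : ℝ) ≤ r := by exact_mod_cast hr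
    nlinarith
  intro N hN j hj V _ G c H w A hbal
  obtain ⟨hjq, hjN⟩ := PLCw.window r hr N j hN hj
  have hN1 : 1 ≤ N := by nlinarith
  set n : Fin r → ℕ := fun i => (cl H c i).card with hn
  set a : Fin r → ℕ := fun i => (cl A c i).card with ha
  have hszH : ∀ i, sz H c i = (n i : ℝ) := fun i => rfl
  have hszA : ∀ i, sz A c i = (a i : ℝ) := fun i => rfl
  have hsumH : ∑ i, n i = H.card := by
    simp only [hn, cl]
    exact (Finset.card_eq_sum_card_fiberwise (f := c) (s := H) (t := univ)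
      (fun x _ => by simp)).symm
  have hsumA : ∑ i, a i = A.card := by
    simp only [ha, cl]
    exact (Finset.card_eq_sum_card_fiberwise (f := c) (s := A) (t := univ)
      (fun x _ => by simp)).symm
  have hlt : N % r < r := Nat.mod_lt _ (by omega)
  simp only [hszH, hszA]
  constructor
  · intro v1 v2 hW hA hpl htop
    have hHN : ∑ i, n i = N := by rw [hsumH, hW.card]
    have hPc : ({c v1, c v2} : Finset (Fin r)).card = 2 := Finset.card_pair hW.h12
    have hP1 : ∀ i ∈ ({c v1, c v2} : Finset (Fin r)), a i ≤ 1 := by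
      intro i hi
      simp only [mem_insert, mem_singleton] at hi
      rcases hi with rfl | rfl
      · simp [ha, hW.h1]
      · simp [ha, hW.h2]
    obtain ⟨S, hS1, hS2, hS3, hS4, hS5⟩ := PLCw.core r (by omega) n a {c v1, c v2} N hHN
      (fun i k => hbal i k) (by rw [hPc]; omega) hP1 (fun i k hi hk => hpl i k hi hk)
      (fun i k hi hk => htop i k hi hk) (by rw [hsumA, hA]; exact hjq)
    have hest := PLCw.est r (by omega) n a N j S hS2
      (PLCw.bal_sizes r (by omega) n N hHN (fun i k => hbal i k)) hS3 hS4 hS5 hjN hN1 (by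
        rw [hsumA, hA]
        push_cast
        rw [show (j : ℝ) + 1 - j = 1 by ring, abs_one]
        have : 1 ≤ r := by omega
        exact_mod_cast this)
    have hcard : (S.card : ℝ) = if N % r ≤ 1 then (r : ℝ) - 2 else r - (N % r : ℕ) := by
      rw [hS1, hPc]
      split_ifs with h
      · rw [max_eq_right (by omega), Nat.cast_sub (by omega)]
        norm_num
      · rw [max_eq_left (by omega), Nat.cast_sub hlt.le]
    rw [hcard] at hest
    exact hest
  · intro u B i0 hW hA hpl htop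
    have hHN : ∑ i, n i = N := by rw [hsumH, hW.card]
    have hPc : ({i0} : Finset (Fin r)).card = 1 := Finset.card_singleton _
    have hP1 : ∀ i ∈ ({i0} : Finset (Fin r)), a i ≤ 1 := by
      intro i hi
      simp only [mem_singleton] at hi
      rw [hi]
      simp [ha, hW.hA0]
    obtain ⟨S, hS1, hS2, hS3, hS4, hS5⟩ := PLCw.core r (by omega) n a {i0} N hHN
      (fun i k => hbal i k) (by rw [hPc]; omega) hP1 (fun i k hi hk => hpl i k hi hk)
      (fun i k hi hk => htop i k hi hk) (by rw [hsumA]; omega)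
    have hest := PLCw.est r (by omega) n a N j S hS2
      (PLCw.bal_sizes r (by omega) n N hHN (fun i k => hbal i k)) hS3 hS4 hS5 hjN hN1 (by
        rw [hsumA, ← hA]
        push_cast
        rw [show (A.card : ℝ) - (A.card + r) = -r by ring, abs_neg, abs_of_nonneg (by positivity)])
    have hcard : (S.card : ℝ) = if N % r ≤ 1 then (r : ℝ) - 1 else r - (N % r : ℕ) := by
      rw [hS1, hPc]
      split_ifs with h
      · rw [max_eq_right (by omega), Nat.cast_sub (by omega)]
        norm_num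
      · rw [max_eq_left (by omega), Nat.cast_sub hlt.le]
    rw [hcard] at hest
    exact hest

end Pool.Agent.Work.MP_5532fa_up
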