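import Pool.Agent.Work.MP_5532fa_x.Interface3

/-! # MP_5532fa_co, block PRM (helper22): the forms do not depend on the order of the classes -/

open Finset

namespace Pool.Agent.Work.MP_5532fa_up

open MP5532fa (specRad qf pE)

namespace X_PRM

variable {V : Type} [Fintype V] {r : ℕ}

omit [Fintype V] in
theorem cls (S : Finset V) (c : V → Fin r) (σ : Equiv.Perm (Fin r)) (i : Fin r) :
    cl S (fun v => σ (c v)) (σ i) = cl S c i := by
  ext v
  rw [mem_cl, mem_cl, σ.injective.eq_iff]

omit [Fintype V] in
theorem cls' (S : Finset V) (c : V → Fin r) (σ : Equiv.Perm (Fin r)) (j : Fin r) :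
    cl S (fun v => σ (c v)) j = cl S c (σ.symm j) := by
  rw [← cls S c σ (σ.symm j), σ.apply_symm_apply]

omit [Fintype V] in
theorem place {H A : Finset V} {c : V → Fin r} {P P' : Finset (Fin r)} (σ : Equiv.Perm (Fin r))
    (hP : ∀ i, i ∈ P → σ i ∈ P') (h : Place H A c P) : Place H A (fun v => σ (c v)) P' := by
  intro i k hi hk
  have hi' : σ.symm i ∉ P := fun hc => hi (by simpa using hP _ hc)
  have hk' : σ.symm k ∉ P := fun hc => hk (by simpa using hP _ hc)
  have := h _ _ hi' hk'
  rw [cls' H c σ i, cls' H c σ k, cls' A c σ i, cls' A c σ k]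
  exact this

omit [Fintype V] in
theorem top {H : Finset V} {c : V → Fin r} {P P' : Finset (Fin r)} (σ : Equiv.Perm (Fin r))
    (hP : ∀ i, i ∈ P ↔ σ i ∈ P') (h : Top H c P) : Top H (fun v => σ (c v)) P' := by
  intro i k hi hk
  have hi' : σ.symm i ∈ P := (hP _).2 (by simpa using hi)
  have hk' : σ.symm k ∉ P := fun hc => hk (by simpa using (hP _).1 hc)
  rw [cls' H c σ i, cls' H c σ k]
  exact h _ _ hi' hk'

omit [Fintype V] in
theorem szs {y y' : Fin r → ℕ} {σ : Equiv.Perm (Fin r)} (hy : ∀ i, y' (σ i) = y i)
    {H : Finset V} {c : V → Fin r} (h : ∀ i, (cl H c i).card = y i) (i : Fin r) :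
    (cl H (fun v => σ (c v)) i).card = y' i := by
  rw [cls', h, ← hy, σ.apply_symm_apply]

end X_PRM

open X_PRM in
/-- **PRM** -/
theorem x_PRM : Stmt_PRM := by
  intro r n y y' σ hy V _ G
  refine ⟨?_, ?_, ?_⟩
  · rintro ⟨H, c, w, A, v1, v2, hW, hsz, hpl, htop⟩
    refine ⟨H, fun v => σ (c v), w, A, v1, v2, ?_, szs hy hsz,
      place σ (P := {c v1, c v2}) ?_ hpl, top σ (P := {c v1, c v2}) ?_ htop⟩
    · exact
        { card := hW.card
          hw := hW.hw
          hA := hW.hA
          h12 := fun h => hW.h12 (σ.injective h)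
          h1 := by rw [cls]; exact hW.h1
          h2 := by rw [cls]; exact hW.h2
          hne := fun i => by rw [cls']; exact hW.hne _
          adj := fun a b => by
            rw [hW.adj a b]
            simp only [ne_eq, σ.injective.eq_iff] }
    · intro i hi
      simpa [σ.injective.eq_iff] using hi
    · intro i
      simp [σ.injective.eq_iff]
  · rintro ⟨H, c, w, u, A, B, i0, hW, hsz, ho, hpl, htop⟩
    refine ⟨H, fun v => σ (c v), w, u, A, B, σ i0, ?_, szs hy hsz, ho,
      place σ (P := {i0}) ?_ hpl, top σ (P := {i0}) ?_ htop⟩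
    · exact
        { card := hW.card
          hw := hW.hw
          hu := hW.hu
          hwu := hW.hwu
          hA := hW.hA
          hB := hW.hB
          hA0 := by rw [cls]; exact hW.hA0
          hB0 := by rw [cls]; exact hW.hB0
          hAne := fun i hi => by
            rw [cls']
            exact hW.hAne _ (fun h => hi (by rw [← h, σ.apply_symm_apply]))
          hB1 := fun i hi => by
            rw [cls']
            exact hW.hB1 _ (fun h => hi (by rw [← h, σ.apply_symm_apply]))
          hBA := hW.hBA
          adj := fun a b => by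
            rw [hW.adj a b]
            simp only [ne_eq, σ.injective.eq_iff] }
    · intro i hi
      simpa [σ.injective.eq_iff] using hi
    · intro i
      simp [σ.injective.eq_iff]
  · rintro ⟨H, c, w, T, L, p, q, hW, hsz, hL2, hpq, hlt⟩
    refine ⟨H, fun v => σ (c v), w, T, L, p, q, ?_, szs hy hsz, hL2, ?_, ?_⟩
    · exact
        { card := hW.card
          hw := hW.hw
          hT := hW.hT
          hT1 := fun i => by rw [cls']; exact hW.hT1 _
          hp := hW.hp
          hq := hW.hq
          hpq := fun h => hW.hpq (σ.injective h)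
          hL := by rw [cls]; exact hW.hL
          hqL := hW.hqL
          adj := fun a b => by
            rw [hW.adj a b]
            simp only [ne_eq, σ.injective.eq_iff] }
    · rw [cls, cls]
      exact hpq
    · intro i hip hiq
      rw [cls', cls]
      exact hlt _ (fun h => hip (by change i = σ (c p); rw [← h, σ.apply_symm_apply]))
        (fun h => hiq (by change i = σ (c q); rw [← h, σ.apply_symm_apply]))

end Pool.Agent.Work.MP_5532fa_up
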