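import Pool.Agent.Work.MP_5532fa_x.Interface5

/-!
# MP_5532fa_co, sixth round, block REPS: five integers with given sum and sum of squares
-/

open Finset

namespace Pool.Agent.Work.MP_5532fa_up

namespace X_REPS

/-- the vector with the largest entry -/
theorem largest (P : (Fin 5 → ℤ) → Prop) (S : ℤ) (hP : ∀ z, P z → ∑ i, z i ^ 2 ≤ S)
    (hne : ∃ z, P z) : ∃ (z : Fin 5 → ℤ) (i : Fin 5), P z ∧ ∀ z', P z' → ∀ j, z' j ≤ z i := by
  obtain ⟨z0, h0⟩ := hne
  have hb : ∃ b : ℤ, ∀ t : ℤ, (∃ (z : Fin 5 → ℤ) (i : Fin 5), P z ∧ z i = t) → t ≤ b := by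
    refine ⟨S, ?_⟩
    rintro t ⟨z, i, hz, rfl⟩
    have h1 : z i ≤ z i ^ 2 := Int.le_self_sq _
    have h2 : z i ^ 2 ≤ ∑ j, z j ^ 2 :=
      Finset.single_le_sum (f := fun j => z j ^ 2) (fun j _ => sq_nonneg _) (Finset.mem_univ i)
    linarith [hP z hz]
  obtain ⟨t, ⟨z, i, hz, hzi⟩, hmax⟩ := Int.exists_greatest_of_bdd hb ⟨z0 0, z0, 0, h0, rfl⟩
  exact ⟨z, i, hz, fun z' hz' j => by rw [hzi]; exact hmax _ ⟨z', j, hz', rfl⟩⟩

/-- a solution with the entry `t` if `M - t` is odd -/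
theorem mk (M S t : ℤ) (hpar : Even (S - M)) (hodd : (M - t) % 2 = 1) (w : Fin 4 → ℤ)
    (h1 : ∑ j, w j = M - t) (h2 : ∑ j, w j ^ 2 ≤ S - t ^ 2) :
    ∃ y : Fin 5 → ℤ, ∑ j, y j = M ∧ ∑ j, y j ^ 2 = S ∧ y 0 = t := by
  have hcs : (M - t) ^ 2 ≤ 4 * (S - t ^ 2) := by
    have h3 : (∑ j, w j) ^ 2 ≤ 4 * ∑ j, w j ^ 2 := by
      have := sq_sum_le_card_mul_sum_sq (s := (Finset.univ : Finset (Fin 4))) (f := w)
      simpa using this
    rw [h1] at h3
    linarith
  obtain ⟨c, hc⟩ := hpar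
  obtain ⟨d, hd⟩ := Int.even_mul_succ_self t
  have hS : (S - t ^ 2) % 2 = 1 := by
    have e : S - t ^ 2 = (M - t) + 2 * (c - d + t) := by linarith [hd, hc]
    rw [e]
    omega
  have hpos : 0 < 4 * (S - t ^ 2) - (M - t) ^ 2 := by
    rcases eq_or_lt_of_le hcs with h | h
    · exfalso
      obtain ⟨a, ha⟩ : ∃ a, M - t = 2 * a + 1 := ⟨(M - t) / 2, by omega⟩
      rw [ha] at h
      have e : (2 * a + 1) ^ 2 = 2 * (2 * (a ^ 2 + a)) + 1 := by ring
      rw [e] at h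
      omega
    · linarith
  obtain ⟨u1, u2, u3, u4, e1, e2⟩ := REPL.four pTSQ (S - t ^ 2) (M - t) hS hodd hpos
  refine ⟨![t, u1, u2, u3, u4], ?_, ?_, rfl⟩
  · simp [Fin.sum_univ_succ]
    linarith
  · simp [Fin.sum_univ_succ]
    linarith

/-- there is a solution with an entry at least the largest possible entry minus one -/
theorem near (M S : ℤ) (hpar : Even (S - M)) (z : Fin 5 → ℤ) (i : Fin 5)
    (hz1 : ∑ j, z j = M) (hz2 : ∑ j, z j ^ 2 ≤ S)
    (hmax : ∀ z' : Fin 5 → ℤ, ∑ j, z' j = M ∧ ∑ j, z' j ^ 2 ≤ S → ∀ j, z' j ≤ z i) :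
    ∃ (y : Fin 5 → ℤ) (j : Fin 5), (∑ k, y k = M ∧ ∑ k, y k ^ 2 = S) ∧ z i ≤ y j + 1 := by
  have s1 : ∑ j : Fin 4, z (i.succAbove j) = M - z i := by
    have := Fin.sum_univ_succAbove z i
    linarith
  have s2 : ∑ j : Fin 4, z (i.succAbove j) ^ 2 ≤ S - z i ^ 2 := by
    have := Fin.sum_univ_succAbove (fun j => z j ^ 2) i
    linarith
  rcases Int.emod_two_eq_zero_or_one (M - z i) with hp | hp
  · by_cases hlow : ∃ j : Fin 4, z (i.succAbove j) ≤ z i - 1
    · obtain ⟨j, hj⟩ := hlow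
      have s1' : ∑ k : Fin 4, (z (i.succAbove k) + if k = j then 1 else 0) = M - (z i - 1) := by
        rw [Finset.sum_add_distrib, s1]
        simp
        ring
      have e : ∀ k : Fin 4, (z (i.succAbove k) + if k = j then 1 else 0) ^ 2
          = z (i.succAbove k) ^ 2 + if k = j then 2 * z (i.succAbove k) + 1 else 0 := by
        intro k
        split_ifs <;> ring
      have s2' : ∑ k : Fin 4, (z (i.succAbove k) + if k = j then 1 else 0) ^ 2
          ≤ S - (z i - 1) ^ 2 := by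
        simp only [e]
        rw [Finset.sum_add_distrib]
        simp only [Finset.sum_ite_eq', Finset.mem_univ, if_true]
        have e2 : (z i - 1) ^ 2 = z i ^ 2 - 2 * z i + 1 := by ring
        rw [e2]
        linarith
      obtain ⟨y, y1, y2, y3⟩ := mk M S (z i - 1) hpar (by omega) _ s1' s2'
      exact ⟨y, 0, ⟨y1, y2⟩, by rw [y3]; linarith⟩
    · push Not at hlow
      have hall : ∀ j, z j = z i := by
        intro j
        rcases eq_or_ne j i with h | h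
        · rw [h]
        · obtain ⟨k, hk⟩ := Fin.exists_succAbove_eq h
          have h1 := hlow k
          rw [hk] at h1
          have h2 := hmax z ⟨hz1, hz2⟩ j
          omega
      have hM : M = 5 * z i := by
        rw [← hz1, Finset.sum_congr rfl (fun j _ => hall j)]
        simp
      have hS : ∑ j, z j ^ 2 = 5 * z i ^ 2 := by
        rw [Finset.sum_congr rfl (fun j _ => by rw [hall j] : ∀ j ∈ Finset.univ,
          z j ^ 2 = z i ^ 2)]
        simp
      have hlt : S < 5 * z i ^ 2 + 2 := by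
        by_contra hc
        push Not at hc
        have h3 := hmax ![z i + 1, z i - 1, z i, z i, z i] ⟨by
          simp [Fin.sum_univ_succ]
          linarith, by
          simp [Fin.sum_univ_succ]
          linarith [(by ring : (z i + 1) ^ 2 + (z i - 1) ^ 2 = 2 * z i ^ 2 + 2)]⟩ 0
        simp at h3
      obtain ⟨c, hc⟩ := hpar
      obtain ⟨d, hd⟩ := Int.even_mul_succ_self (z i)
      have e3 : z i ^ 2 = 2 * d - z i := by linarith [hd]
      refine ⟨z, i, ⟨hz1, ?_⟩, by linarith⟩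
      rw [hS] at hz2 ⊢
      omega
  · obtain ⟨y, y1, y2, y3⟩ := mk M S (z i) hpar hp _ s1 s2
    exact ⟨y, 0, ⟨y1, y2⟩, by rw [y3]; linarith⟩

end X_REPS

open X_REPS in
theorem x_REPS : Stmt_REPS := by
  intro M S hne hpar
  obtain ⟨z, i, hz, hmax⟩ := largest (fun z => ∑ i, z i = M ∧ ∑ i, z i ^ 2 ≤ S) S
    (fun z h => h.2) hne
  obtain ⟨y0, j0, hy0, hle⟩ := near M S hpar z i hz.1 hz.2 hmax
  obtain ⟨y, i1, hy, hymax⟩ := largest (fun z => ∑ i, z i = M ∧ ∑ i, z i ^ 2 = S) S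
    (fun z h => h.2.le) ⟨y0, hy0⟩
  refine ⟨y, i1, hy.1, hy.2, fun k => hymax y hy k, fun v h1 h2 k => hymax v ⟨h1, h2⟩ k,
    fun v h1 h2 k => ?_⟩
  have h3 := hmax v ⟨h1, h2⟩ k
  have h4 := hymax y0 hy0 j0
  linarith

end Pool.Agent.Work.MP_5532fa_up
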