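import Pool.Agent.Work.MP_5532fa_x.Interface3

/-! # RJS: class sizes of gadgets for `j ≤ r - 2` (helper67) -/

set_option autoImplicit false

open Finset

namespace Pool.Agent.Work.MP_5532fa_up

open MP5532fa (specRad qf pE)

namespace X_RJS

/-- reduction to a balanced vector -/
theorem aux {r : ℕ} (hr : 3 ≤ r) (N j : ℕ) (b : Fin r → ℕ) (hb : ∑ i, b i = N)
    (hb' : ∀ i k, b i ≤ b k + 1) (y : Fin r → ℤ) (hy : ∑ i, y i = N)
    (hs : ∑ i, y i ^ 2 + 2 * (j : ℤ) = ∑ i, (b i : ℤ) ^ 2 + 2 * ((r : ℤ) - 1)) :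
    ∃ y : Fin r → ℤ, ∑ i, y i = N ∧
      ∑ i, y i ^ 2 + 2 * ((tn r N : ℤ) + j) = (N : ℤ) ^ 2 + 2 * ((r : ℤ) - 1) := by
  refine ⟨y, hy, ?_⟩
  have h1 := (pTN r hr N).1 b hb hb'
  have h2 : 2 * (tn r N : ℤ) + ∑ i, (b i : ℤ) ^ 2 = (N : ℤ) ^ 2 := by exact_mod_cast h1
  linarith

/-- the balanced vector -/
theorem bal {r : ℕ} (hr : 0 < r) (N : ℕ) : ∑ i : Fin r, (N + i.val) / r = N := by
  induction N with
  | zero =>
    refine Finset.sum_eq_zero fun i _ => ?_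
    rw [Nat.zero_add]
    exact Nat.div_eq_of_lt i.2
  | succ n ih =>
    rw [Fin.sum_univ_eq_sum_range (fun i => (n + 1 + i) / r) r]
    rw [Fin.sum_univ_eq_sum_range (fun i => (n + i) / r) r] at ih
    obtain ⟨q, hq⟩ : ∃ q, r = q + 1 := ⟨r - 1, by omega⟩
    rw [hq] at ih ⊢
    rw [Finset.sum_range_succ]
    rw [Finset.sum_range_succ'] at ih
    have e1 : ∀ i, (n + 1 + i) / (q + 1) = (n + (i + 1)) / (q + 1) := by
      intro i; congr 1; omega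
    simp only [e1]
    have e2 : (n + (q + 1)) / (q + 1) = n / (q + 1) + 1 := by
      rw [Nat.add_div_right _ (by omega)]
    rw [e2]
    simp only [Nat.add_zero, Nat.zero_add, Nat.add_assoc] at ih ⊢
    omega

theorem bal' {r : ℕ} (hr : 0 < r) (N : ℕ) (i k : Fin r) :
    (N + i.val) / r ≤ (N + k.val) / r + 1 := by
  have h6 : (N + i.val) / r ≤ (N + k.val + r) / r := by
    apply Nat.div_le_div_right
    have := i.2
    omega
  rwa [Nat.add_div_right _ hr] at h6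

theorem big {r : ℕ} (hr : 5 ≤ r) (N j : ℕ) (hj : j + 1 < r) :
    ∃ y : Fin r → ℤ, ∑ i, y i = N ∧
      ∑ i, y i ^ 2 + 2 * ((tn r N : ℤ) + j) = (N : ℤ) ^ 2 + 2 * ((r : ℤ) - 1) := by
  have hr0 : 0 < r := by omega
  have h0 : ∑ i : Fin r, (((N + i.val) / r : ℕ) : ℤ) = N := by
    exact_mod_cast bal (r := r) hr0 N
  have h1 := (pTN r (by omega) N).1 _ (bal hr0 N) (bal' hr0 N)
  have h2 : 2 * (tn r N : ℤ) + ∑ i : Fin r, (((N + i.val) / r : ℕ) : ℤ) ^ 2 = (N : ℤ) ^ 2 := by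
    exact_mod_cast h1
  obtain ⟨y, hy1, hy2⟩ := pREPL r hr (N : ℤ)
    ((N : ℤ) ^ 2 + 2 * ((r : ℤ) - 1) - 2 * ((tn r N : ℤ) + j))
    ⟨fun i => (((N + i.val) / r : ℕ) : ℤ), h0, by
      have : (j : ℤ) + 1 < r := by exact_mod_cast hj
      linarith⟩ (by
      have h3 : Even ((N : ℤ) ^ 2 - N) := by
        have := Int.even_mul_succ_self ((N : ℤ) - 1)
        have e : ((N : ℤ) - 1) * ((N : ℤ) - 1 + 1) = (N : ℤ) ^ 2 - N := by ring
        rwa [e] at this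
      have e : (N : ℤ) ^ 2 + 2 * ((r : ℤ) - 1) - 2 * ((tn r N : ℤ) + j) - N =
          ((N : ℤ) ^ 2 - N) + 2 * (((r : ℤ) - 1) - ((tn r N : ℤ) + j)) := by ring
      rw [e]
      exact h3.add (even_two_mul _))
  exact ⟨y, hy1, by rw [hy2]; ring⟩

theorem three (N j : ℕ) (hj : j + 1 < 3) (hE : ¬ Exc 3 N j) :
    ∃ y : Fin 3 → ℤ, ∑ i, y i = N ∧
      ∑ i, y i ^ 2 + 2 * ((tn 3 N : ℤ) + j) = (N : ℤ) ^ 2 + 2 * (((3 : ℕ) : ℤ) - 1) := by
  obtain ⟨q, t, ht, rfl⟩ : ∃ q t : ℕ, t < 3 ∧ N = 3 * q + t :=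
    ⟨N / 3, N % 3, Nat.mod_lt _ (by norm_num), (Nat.div_add_mod N 3).symm⟩
  have hj' : j = 0 ∨ j = 1 := by omega
  have ht' : t = 0 ∨ t = 1 ∨ t = 2 := by omega
  rcases ht' with rfl | rfl | rfl <;> rcases hj' with rfl | rfl
  · exact absurd ⟨rfl, Or.inl ⟨rfl, by omega⟩⟩ hE
  · refine aux le_rfl _ _ ![q, q, q] ?_ ?_ ![q + 1, q, q - 1] ?_ ?_ <;>
      simp [Fin.sum_univ_succ, Fin.forall_fin_succ] <;> first | ring1 | omega
  · refine aux le_rfl _ _ ![q + 1, q, q] ?_ ?_ ![q + 2, q, q - 1] ?_ ?_ <;>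
      simp [Fin.sum_univ_succ, Fin.forall_fin_succ] <;> first | ring1 | omega
  · refine aux le_rfl _ _ ![q + 1, q, q] ?_ ?_ ![q + 1, q + 1, q - 1] ?_ ?_ <;>
      simp [Fin.sum_univ_succ, Fin.forall_fin_succ] <;> first | ring1 | omega
  · refine aux le_rfl _ _ ![q + 1, q + 1, q] ?_ ?_ ![q + 2, q + 1, q - 1] ?_ ?_ <;>
      simp [Fin.sum_univ_succ, Fin.forall_fin_succ] <;> first | ring1 | omega
  · refine aux le_rfl _ _ ![q + 1, q + 1, q] ?_ ?_ ![q + 2, q, q] ?_ ?_ <;>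
      simp [Fin.sum_univ_succ, Fin.forall_fin_succ] <;> first | ring1 | omega

theorem four (N j : ℕ) (hj : j + 1 < 4) (hE : ¬ Exc 4 N j) :
    ∃ y : Fin 4 → ℤ, ∑ i, y i = N ∧
      ∑ i, y i ^ 2 + 2 * ((tn 4 N : ℤ) + j) = (N : ℤ) ^ 2 + 2 * (((4 : ℕ) : ℤ) - 1) := by
  obtain ⟨q, t, ht, rfl⟩ : ∃ q t : ℕ, t < 4 ∧ N = 4 * q + t :=
    ⟨N / 4, N % 4, Nat.mod_lt _ (by norm_num), (Nat.div_add_mod N 4).symm⟩
  have hj' : j = 0 ∨ j = 1 ∨ j = 2 := by omega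
  have ht' : t = 0 ∨ t = 1 ∨ t = 2 ∨ t = 3 := by omega
  have h34 : 3 ≤ 4 := by norm_num
  rcases ht' with rfl | rfl | rfl | rfl <;> rcases hj' with rfl | rfl | rfl
  · refine aux h34 _ _ ![q, q, q, q] ?_ ?_ ![q + 2, q, q - 1, q - 1] ?_ ?_ <;>
      simp [Fin.sum_univ_succ, Fin.forall_fin_succ] <;> first | ring1 | omega
  · refine aux h34 _ _ ![q, q, q, q] ?_ ?_ ![q + 1, q + 1, q - 1, q - 1] ?_ ?_ <;>
      simp [Fin.sum_univ_succ, Fin.forall_fin_succ] <;> first | ring1 | omega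
  · refine aux h34 _ _ ![q, q, q, q] ?_ ?_ ![q + 1, q, q, q - 1] ?_ ?_ <;>
      simp [Fin.sum_univ_succ, Fin.forall_fin_succ] <;> first | ring1 | omega
  · refine aux h34 _ _ ![q + 1, q, q, q] ?_ ?_ ![q + 2, q + 1, q - 1, q - 1] ?_ ?_ <;>
      simp [Fin.sum_univ_succ, Fin.forall_fin_succ] <;> first | ring1 | omega
  · refine aux h34 _ _ ![q + 1, q, q, q] ?_ ?_ ![q + 2, q, q, q - 1] ?_ ?_ <;>
      simp [Fin.sum_univ_succ, Fin.forall_fin_succ] <;> first | ring1 | omega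
  · refine aux h34 _ _ ![q + 1, q, q, q] ?_ ?_ ![q + 1, q + 1, q, q - 1] ?_ ?_ <;>
      simp [Fin.sum_univ_succ, Fin.forall_fin_succ] <;> first | ring1 | omega
  · exact absurd ⟨rfl, Or.inr ⟨rfl, by omega⟩⟩ hE
  · refine aux h34 _ _ ![q + 1, q + 1, q, q] ?_ ?_ ![q + 2, q + 1, q, q - 1] ?_ ?_ <;>
      simp [Fin.sum_univ_succ, Fin.forall_fin_succ] <;> first | ring1 | omega
  · refine aux h34 _ _ ![q + 1, q + 1, q, q] ?_ ?_ ![q + 2, q, q, q] ?_ ?_ <;>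
      simp [Fin.sum_univ_succ, Fin.forall_fin_succ] <;> first | ring1 | omega
  · refine aux h34 _ _ ![q + 1, q + 1, q + 1, q] ?_ ?_ ![q + 3, q, q, q] ?_ ?_ <;>
      simp [Fin.sum_univ_succ, Fin.forall_fin_succ] <;> first | ring1 | omega
  · refine aux h34 _ _ ![q + 1, q + 1, q + 1, q] ?_ ?_ ![q + 2, q + 1, q + 1, q - 1] ?_ ?_ <;>
      simp [Fin.sum_univ_succ, Fin.forall_fin_succ] <;> first | ring1 | omega
  · refine aux h34 _ _ ![q + 1, q + 1, q + 1, q] ?_ ?_ ![q + 2, q + 1, q, q] ?_ ?_ <;>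
      simp [Fin.sum_univ_succ, Fin.forall_fin_succ] <;> first | ring1 | omega

end X_RJS

theorem x_RJS : Stmt_RJS := by
  intro r N j hr hj hE
  rcases Nat.lt_or_ge 4 r with h | h
  · exact X_RJS.big h N j hj
  · have h2 : r = 3 ∨ r = 4 := by omega
    rcases h2 with rfl | rfl
    · exact X_RJS.three N j hj hE
    · exact X_RJS.four N j hj hE

end Pool.Agent.Work.MP_5532fa_up
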