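import Pool.Agent.Work.MP_5532fa_x.Interface4

/-!
# Block RULR (helper41): the rule with error `O(1/√n)`
-/

set_option autoImplicit false

open Finset

namespace Pool.Agent.Work.MP_5532fa_up

open MP5532fa (specRad qf pE)

namespace X_RULR

/-- the second moment in terms of `kk` -/
theorem mo2 {r : ℕ} (hr : 3 ≤ r) {m n : ℕ} {y : Fin r → ℕ} (h : ∑ i, y i = n) :
    mo 2 n (re y) = al r * (n : ℝ) ^ 2 - 2 * m + 2 * ((r : ℝ) - 1) + 2 * kk m n y := by
  have hsum : ∑ i, re y i = (n : ℝ) := by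
    unfold re
    exact_mod_cast h
  rw [mo_two hr hsum]
  unfold re kk al
  ring

/-- the second moment of an admissible vector -/
theorem mo2_le {r n : ℕ} {y : Fin r → ℕ} (h : ∀ i, |(y i : ℝ) - n / r| ≤ 2 * √(n : ℝ)) :
    mo 2 n (re y) ≤ 4 * r * n := by
  unfold mo re
  have h1 : ∀ i ∈ (Finset.univ : Finset (Fin r)), ((y i : ℝ) - n / r) ^ 2 ≤ 4 * n := by
    intro i _
    have h2 : |(y i : ℝ) - n / r| ^ 2 ≤ (2 * √(n : ℝ)) ^ 2 :=
      pow_le_pow_left₀ (abs_nonneg _) (h i) 2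
    rw [sq_abs, mul_pow, Real.sq_sqrt (Nat.cast_nonneg n)] at h2
    linarith
  calc ∑ i, ((y i : ℝ) - n / r) ^ 2 ≤ ∑ _i : Fin r, (4 * (n : ℝ)) := Finset.sum_le_sum h1
    _ = 4 * r * n := by
      rw [Finset.sum_const, Finset.card_univ, Fintype.card_fin, nsmul_eq_mul]
      ring

end X_RULR

theorem x_RULR (hCUPR : Stmt_CUPR) (hCLOR : Stmt_CLOR) : Stmt_RULR := by
  intro r hr
  have hrr : (3 : ℝ) ≤ r := by exact_mod_cast hr
  have hal := al_ge hr
  obtain ⟨K1, n1, hK1, H1⟩ := hCUPR r hr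
  obtain ⟨K2, n2, hK2, H2⟩ := hCLOR r hr
  obtain ⟨B, hB⟩ : ∃ B : ℝ, B = K2 + 4 * r := ⟨_, rfl⟩
  obtain ⟨C, hC1, HT⟩ := pTAY r B hr (by rw [hB]; linarith)
  obtain ⟨nC, hnC⟩ := exists_nat_ge C
  refine ⟨3 * C + K1 + K2, n1 + n2 + nC + 4 * r ^ 2 + 1, by linarith, ?_⟩
  intro n hn m y V _ G c0 hG hsum hdev hk hform z c' hzsum hzdev hzk hcst
  have hn4 : 4 * (r : ℝ) ^ 2 < n := by
    have h1 : 4 * r ^ 2 < n := by omega
    exact_mod_cast h1
  have hnpos : (0 : ℝ) < n := lt_of_le_of_lt (by positivity) hn4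
  have hn1 : (1 : ℝ) ≤ n := by
    have h1 : 1 ≤ n := by omega
    exact_mod_cast h1
  have hCn : C ≤ n := hnC.trans (by
    have h1 : nC ≤ n := by omega
    exact_mod_cast h1)
  obtain ⟨s, hs⟩ : ∃ s : ℝ, s = √(n : ℝ) := ⟨_, rfl⟩
  have hs2 : s ^ 2 = n := by rw [hs, Real.sq_sqrt hnpos.le]
  have hs0 : 0 < s := by rw [hs]; exact Real.sqrt_pos.2 hnpos
  have hs1 : 1 ≤ s := by
    by_contra hcon
    push Not at hcon
    nlinarith
  obtain ⟨hlam, hlow⟩ := H2 n (by omega) m y V G c0 hG.2.2.1 hdev hk hform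
  obtain ⟨G', hfree, hcol, hpE, hup⟩ := H1 n (by omega) m z c' hzsum hzdev hzk hcst
  have hle : specRad G' ≤ specRad G := hG.2.2.2 _ G' hfree hcol hpE
  obtain ⟨x', hPx'⟩ := exists_PV G'
  have hl0 : 0 ≤ specRad G' := BIG.lam_nonneg hPx'
  have hzpos : ∀ i, 0 < re z i := by
    intro i
    have h1 := (abs_le.1 (hzdev i)).1
    have h2 : 2 * √(n : ℝ) < n / r := by
      rw [lt_div_iff₀ (by linarith), ← hs]
      have h3 : 2 * (r : ℝ) < s := by
        by_contra hcon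
        push Not at hcon
        have h4 : s ^ 2 ≤ (2 * (r : ℝ)) ^ 2 := pow_le_pow_left₀ hs0.le hcon 2
        rw [hs2] at h4
        nlinarith
      nlinarith
    unfold re
    linarith
  have hanti : Ph (re z) (specRad G) ≤ Ph (re z) (specRad G') := BIG.Ph_anti hzpos hl0 hle
  have halpos : 0 < al r := by linarith
  have hup' : (n : ℝ) ^ 2 * Ph (re z) (specRad G) / al r ≤
      (n : ℝ) ^ 2 * Ph (re z) (specRad G') / al r :=
    div_le_div_of_nonneg_right (mul_le_mul_of_nonneg_left hanti (sq_nonneg _)) halpos.le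
  have hysum' : ∑ i, re y i = (n : ℝ) := by
    unfold re
    exact_mod_cast hsum
  have hzsum' : ∑ i, re z i = (n : ℝ) := by
    unfold re
    exact_mod_cast hzsum
  have hBn : ∀ u : Fin r → ℕ, (∀ i, |(u i : ℝ) - n / r| ≤ 2 * √(n : ℝ)) →
      mo 2 n (re u) ≤ B * n := by
    intro u hu
    refine (X_RULR.mo2_le hu).trans ?_
    rw [hB]
    exact mul_le_mul_of_nonneg_right (by linarith) hnpos.le
  have hT := HT n (re y) (re z) (specRad G) hCn (hlam.trans (by rw [hB]; linarith)) hysum' hzsum'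
    (hBn y hdev) (hBn z hzdev)
  have hT1 := (abs_le.1 hT).2
  have hmy := X_RULR.mo2 (m := m) hr hsum
  have hmz := X_RULR.mo2 (m := m) hr hzsum
  rw [hmy, hmz] at hT1
  have e1 : (n : ℝ) ^ 2 / al r * (Ph (re y) (specRad G) - Ph (re z) (specRad G)) =
      (n : ℝ) ^ 2 * Ph (re y) (specRad G) / al r - (n : ℝ) ^ 2 * Ph (re z) (specRad G) / al r := by
    ring
  have e2 : (mo 3 n (re y) - mo 3 n (re z)) / (n : ℝ) + (mo 4 n (re z) - mo 4 n (re y)) / (n : ℝ) ^ 2
      = M34 n y - M34 n z := by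
    unfold M34
    ring
  have e3 : al r * (n : ℝ) ^ 2 - 2 * m + 2 * ((r : ℝ) - 1) + 2 * kk m n y -
      (al r * (n : ℝ) ^ 2 - 2 * m + 2 * ((r : ℝ) - 1) + 2 * kk m n z) =
      2 * (kk m n y - kk m n z) := by ring
  rw [e1, e3, abs_mul, abs_two] at hT1
  have e4 : C * (2 * |kk m n y - kk m n z|) / (n : ℝ) ≤
      2 * C * (|kk m n y| + |kk m n z|) / s := by
    rw [← hs2, div_le_div_iff₀ (by positivity) hs0]
    have h1 : |kk m n y - kk m n z| ≤ |kk m n y| + |kk m n z| := abs_sub _ _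
    have h2 : 0 ≤ |kk m n y| + |kk m n z| := by positivity
    have h3 : C * (2 * |kk m n y - kk m n z|) * s ≤
        C * (2 * (|kk m n y| + |kk m n z|)) * s :=
      mul_le_mul_of_nonneg_right (mul_le_mul_of_nonneg_left (by linarith) (by linarith)) hs0.le
    have h4 : C * (2 * (|kk m n y| + |kk m n z|)) * s * 1 ≤
        C * (2 * (|kk m n y| + |kk m n z|)) * s * s :=
      mul_le_mul_of_nonneg_left hs1 (by positivity)
    calc C * (2 * |kk m n y - kk m n z|) * s ≤ C * (2 * (|kk m n y| + |kk m n z|)) * s := h3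
      _ = C * (2 * (|kk m n y| + |kk m n z|)) * s * 1 := by ring
      _ ≤ C * (2 * (|kk m n y| + |kk m n z|)) * s * s := h4
      _ = 2 * C * (|kk m n y| + |kk m n z|) * s ^ 2 := by ring
  rw [← hs] at hT1 hlow hup ⊢
  have e5 : (3 * C + K1 + K2) * (1 + |kk m n y| + |kk m n z|) / s =
      C / s + 2 * C * (|kk m n y| + |kk m n z|) / s + K1 * (1 + |kk m n z|) / s +
        K2 * (1 + |kk m n y|) / s + (2 * C + (C + K1) * |kk m n y| + (C + K2) * |kk m n z|) / s := by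
    ring
  have e6 : 0 ≤ (2 * C + (C + K1) * |kk m n y| + (C + K2) * |kk m n z|) / s := by
    refine div_nonneg ?_ hs0.le
    have h1 : 0 ≤ (C + K1) * |kk m n y| := mul_nonneg (by linarith) (abs_nonneg _)
    have h2 : 0 ≤ (C + K2) * |kk m n z| := mul_nonneg (by linarith) (abs_nonneg _)
    linarith
  rw [e5]
  linarith

end Pool.Agent.Work.MP_5532fa_up
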