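import Pool.Agent.Work.MP_5532fa_x.Interface2

/-!
# MP_5532fa_co, sixth round, block SECG: the secular function of a gadget
-/

open Finset

namespace Pool.Agent.Work.MP_5532fa_up

open MP5532fa (specRad qf pE)

namespace X_SECG

/-- the real inequality, `μ = 1/lam` -/
theorem real_part {r μ B b1 b2 X X1 X2 F : ℝ} (hr : 3 ≤ r) (hμ : 0 < μ) (hμ1 : μ ≤ 1)
    (hb1 : 0 ≤ b1) (hb1' : b1 ≤ μ) (hb2 : 0 ≤ b2) (hb2' : b2 ≤ μ) (hB0 : 0 ≤ B) (hB : B ≤ r * μ)
    (hX0 : 0 ≤ X) (hX : X ≤ μ) (hX10 : 0 ≤ X1) (hX1 : X1 ≤ 2 * μ) (hX20 : 0 ≤ X2)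
    (hX2 : X2 ≤ 2 * μ) (h1 : F = b1 * X2 + b2 * X1 - X * B) (h2 : B = μ * (r - 1 - F))
    (h3 : X1 = b1 + (X - X2) * (1 - b1) * μ) (h4 : X2 = b2 + (X - X1) * (1 - b2) * μ)
    (h5 : |X - μ * B| ≤ (r + 4) * μ ^ 3) :
    |F - (2 * b1 * b2 - (b1 ^ 2 + b2 ^ 2) * μ - (r - 1) ^ 2 * μ ^ 3)|
      ≤ (3 * r ^ 2 + 17 * r + 18) * μ ^ 4 := by
  have hμ2 : μ ^ 2 ≤ μ := by nlinarith
  have hμ0 : 0 ≤ μ := hμ.le
  have p2 : 0 ≤ μ ^ 2 := by positivity
  have p3 : 0 ≤ μ ^ 3 := by positivity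
  have p4 : 0 ≤ μ ^ 4 := by positivity
  have q3 : μ ^ 3 ≤ μ ^ 2 := by nlinarith
  have q4 : μ ^ 4 ≤ μ ^ 3 := by nlinarith
  have q5 : μ ^ 5 ≤ μ ^ 4 := by nlinarith
  -- (a)
  have a1 : b1 * X2 ≤ 2 * μ ^ 2 := by
    calc b1 * X2 ≤ μ * (2 * μ) := mul_le_mul hb1' hX2 hX20 hμ0
      _ = 2 * μ ^ 2 := by ring
  have a2 : b2 * X1 ≤ 2 * μ ^ 2 := by
    calc b2 * X1 ≤ μ * (2 * μ) := mul_le_mul hb2' hX1 hX10 hμ0
      _ = 2 * μ ^ 2 := by ring
  have a3 : X * B ≤ r * μ ^ 2 := by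
    calc X * B ≤ μ * (r * μ) := mul_le_mul hX hB hB0 hμ0
      _ = r * μ ^ 2 := by ring
  have a4 : 0 ≤ b1 * X2 := mul_nonneg hb1 hX20
  have a5 : 0 ≤ b2 * X1 := mul_nonneg hb2 hX10
  have a6 : 0 ≤ X * B := mul_nonneg hX0 hB0
  have hF : |F| ≤ (r + 4) * μ ^ 2 := by
    rw [abs_le]
    constructor
    · nlinarith
    · nlinarith
  -- (b)
  have hBb : |B - (r - 1) * μ| ≤ (r + 4) * μ ^ 3 := by
    have : B - (r - 1) * μ = - (μ * F) := by rw [h2]; ring
    rw [this, abs_neg, abs_mul, abs_of_pos hμ]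
    calc μ * |F| ≤ μ * ((r + 4) * μ ^ 2) := mul_le_mul_of_nonneg_left hF hμ0
      _ = (r + 4) * μ ^ 3 := by ring
  -- (c)
  have hXc : |X - (r - 1) * μ ^ 2| ≤ 2 * (r + 4) * μ ^ 3 := by
    have e : X - (r - 1) * μ ^ 2 = (X - μ * B) + μ * (B - (r - 1) * μ) := by ring
    rw [e]
    calc |(X - μ * B) + μ * (B - (r - 1) * μ)|
        ≤ |X - μ * B| + |μ * (B - (r - 1) * μ)| := abs_add_le _ _
      _ = |X - μ * B| + μ * |B - (r - 1) * μ| := by rw [abs_mul, abs_of_pos hμ]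
      _ ≤ (r + 4) * μ ^ 3 + μ * ((r + 4) * μ ^ 3) :=
          add_le_add h5 (mul_le_mul_of_nonneg_left hBb hμ0)
      _ ≤ 2 * (r + 4) * μ ^ 3 := by nlinarith
  -- (d)
  have hXB : |X * B - (r - 1) ^ 2 * μ ^ 3| ≤ (3 * r - 1) * (r + 4) * μ ^ 4 := by
    have e : X * B - (r - 1) ^ 2 * μ ^ 3
        = (X - (r - 1) * μ ^ 2) * B + (r - 1) * μ ^ 2 * (B - (r - 1) * μ) := by ring
    rw [e]
    calc |(X - (r - 1) * μ ^ 2) * B + (r - 1) * μ ^ 2 * (B - (r - 1) * μ)|
        ≤ |(X - (r - 1) * μ ^ 2) * B| + |(r - 1) * μ ^ 2 * (B - (r - 1) * μ)| := abs_add_le _ _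
      _ = |X - (r - 1) * μ ^ 2| * B + (r - 1) * μ ^ 2 * |B - (r - 1) * μ| := by
          rw [abs_mul, abs_mul, abs_of_nonneg hB0,
            abs_of_nonneg (mul_nonneg (by linarith : (0 : ℝ) ≤ r - 1) p2)]
      _ ≤ 2 * (r + 4) * μ ^ 3 * (r * μ) + (r - 1) * μ ^ 2 * ((r + 4) * μ ^ 3) :=
          add_le_add (mul_le_mul hXc hB hB0 (by positivity))
            (mul_le_mul_of_nonneg_left hBb (mul_nonneg (by linarith) p2))
      _ = 2 * r * (r + 4) * μ ^ 4 + (r - 1) * (r + 4) * μ ^ 5 := by ring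
      _ ≤ 2 * r * (r + 4) * μ ^ 4 + (r - 1) * (r + 4) * μ ^ 4 := by
          have : 0 ≤ (r - 1) * (r + 4) := mul_nonneg (by linarith) (by linarith)
          have := mul_le_mul_of_nonneg_left q5 this
          linarith
      _ = (3 * r - 1) * (r + 4) * μ ^ 4 := by ring
  have hXs : X ≤ (3 * r + 7) * μ ^ 2 := by
    have := (abs_le.mp hXc).2
    nlinarith
  -- (e)
  have key : ∀ b b' Y Y' : ℝ, 0 ≤ b → b ≤ μ → 0 ≤ b' → b' ≤ μ → 0 ≤ Y → Y ≤ 2 * μ → 0 ≤ Y' →
      Y' ≤ 2 * μ → Y = b + (X - Y') * (1 - b) * μ → Y' = b' + (X - Y) * (1 - b') * μ →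
      |Y' - (b' - b * μ)| ≤ (3 * r + 11) * μ ^ 3 := by
    intro b b' Y Y' hb hbμ hb' hb'μ hY hYμ hY' hY'μ e1 e2
    have hd : |b - Y| ≤ 2 * μ ^ 2 := by
      have : b - Y = - ((X - Y') * (1 - b) * μ) := by linarith
      rw [this, abs_neg, abs_mul, abs_mul, abs_of_pos hμ,
        abs_of_nonneg (by linarith : (0 : ℝ) ≤ 1 - b)]
      have h6 : |X - Y'| ≤ 2 * μ := by rw [abs_le]; constructor <;> linarith
      calc |X - Y'| * (1 - b) * μ ≤ 2 * μ * 1 * μ :=
            mul_le_mul_of_nonneg_right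
              (mul_le_mul h6 (by linarith) (by linarith) (by linarith)) hμ0
        _ = 2 * μ ^ 2 := by ring
    have e : Y' - (b' - b * μ) = (X * (1 - b') + (b - Y) + Y * b') * μ := by
      have : Y' - (b' - b * μ) = (b' + (X - Y) * (1 - b') * μ) - (b' - b * μ) := by rw [← e2]
      rw [this]; ring
    rw [e, abs_mul, abs_of_pos hμ]
    have h7 : |X * (1 - b') + (b - Y) + Y * b'| ≤ (3 * r + 11) * μ ^ 2 := by
      have h8 : |X * (1 - b')| ≤ (3 * r + 7) * μ ^ 2 := by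
        rw [abs_of_nonneg (mul_nonneg hX0 (by linarith))]
        calc X * (1 - b') ≤ X * 1 := mul_le_mul_of_nonneg_left (by linarith) hX0
          _ = X := mul_one _
          _ ≤ _ := hXs
      have h9 : |Y * b'| ≤ 2 * μ ^ 2 := by
        rw [abs_of_nonneg (mul_nonneg hY hb')]
        calc Y * b' ≤ 2 * μ * μ := mul_le_mul hYμ hb'μ hb' (by linarith)
          _ = 2 * μ ^ 2 := by ring
      calc |X * (1 - b') + (b - Y) + Y * b'|
          ≤ |X * (1 - b')| + |b - Y| + |Y * b'| := abs_add_three _ _ _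
        _ ≤ (3 * r + 7) * μ ^ 2 + 2 * μ ^ 2 + 2 * μ ^ 2 := by linarith
        _ = (3 * r + 11) * μ ^ 2 := by ring
    calc |X * (1 - b') + (b - Y) + Y * b'| * μ ≤ (3 * r + 11) * μ ^ 2 * μ :=
          mul_le_mul_of_nonneg_right h7 hμ0
      _ = (3 * r + 11) * μ ^ 3 := by ring
  have k2 := key b1 b2 X1 X2 hb1 hb1' hb2 hb2' hX10 hX1 hX20 hX2 h3 h4
  have k1 := key b2 b1 X2 X1 hb2 hb2' hb1 hb1' hX20 hX2 hX10 hX1 h4 h3
  -- (f)
  have e : F - (2 * b1 * b2 - (b1 ^ 2 + b2 ^ 2) * μ - (r - 1) ^ 2 * μ ^ 3)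
      = b1 * (X2 - (b2 - b1 * μ)) + b2 * (X1 - (b1 - b2 * μ))
        + - (X * B - (r - 1) ^ 2 * μ ^ 3) := by rw [h1]; ring
  rw [e]
  calc |b1 * (X2 - (b2 - b1 * μ)) + b2 * (X1 - (b1 - b2 * μ))
        + - (X * B - (r - 1) ^ 2 * μ ^ 3)|
      ≤ |b1 * (X2 - (b2 - b1 * μ))| + |b2 * (X1 - (b1 - b2 * μ))|
        + |- (X * B - (r - 1) ^ 2 * μ ^ 3)| := abs_add_three _ _ _
    _ = b1 * |X2 - (b2 - b1 * μ)| + b2 * |X1 - (b1 - b2 * μ)|
        + |X * B - (r - 1) ^ 2 * μ ^ 3| := by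
        rw [abs_mul, abs_mul, abs_neg, abs_of_nonneg hb1, abs_of_nonneg hb2]
    _ ≤ μ * ((3 * r + 11) * μ ^ 3) + μ * ((3 * r + 11) * μ ^ 3)
        + (3 * r - 1) * (r + 4) * μ ^ 4 := by
        have := mul_le_mul hb1' k2 (abs_nonneg _) hμ0
        have := mul_le_mul hb2' k1 (abs_nonneg _) hμ0
        linarith
    _ = (3 * r ^ 2 + 17 * r + 18) * μ ^ 4 := by ring

/-- sum of `chi (i = k)` over `Fin r` -/
theorem sum_chi {r : ℕ} (k : Fin r) (f : Fin r → ℝ) : ∑ i, chi (k = i) * f i = f k := by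
  rw [Finset.sum_eq_single k]
  · rw [chi_pos rfl, one_mul]
  · intro b _ hb
    rw [chi_neg (fun h => hb h.symm), zero_mul]
  · intro h; exact absurd (Finset.mem_univ _) h

theorem sum_cl_chi {V : Type} {r : ℕ} (H : Finset V) (c : V → Fin r) (v : V) (hv : v ∈ H)
    (i : Fin r) (t : ℝ) : ∑ u ∈ cl H c i, chi (u = v) * t = chi (c v = i) * t := by
  classical
  by_cases h : c v = i
  · rw [chi_pos h, one_mul, Finset.sum_eq_single v]
    · rw [chi_pos rfl, one_mul]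
    · intro b _ hb
      rw [chi_neg hb, zero_mul]
    · intro h'
      exact absurd (mem_cl.mpr ⟨hv, h⟩) h'
  · rw [chi_neg h, zero_mul]
    refine Finset.sum_eq_zero fun u hu => ?_
    have : u ≠ v := by
      rintro rfl
      exact h (mem_cl.mp hu).2
    rw [chi_neg this, zero_mul]

theorem main {V : Type} [Fintype V] {r n : ℕ} {G : SimpleGraph V} {x : V → ℝ} {lam : ℝ}
    {c : V → Fin r} {H : Finset V} {w : V} {A : Finset V} {v1 v2 : V} (hr : 3 ≤ r)
    (hW : WD G n H c w A v1 v2) (hAr : A.card = r) (hx : PV G x lam) (hl : 1 ≤ lam) :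
    |Ph (sz H c) lam - gg r lam (sz H c (c v1)) (sz H c (c v2))|
      ≤ (3 * (r : ℝ) ^ 2 + 17 * r + 18) * (1 / lam) ^ 4 := by
  classical
  have hrR : (3 : ℝ) ≤ r := by exact_mod_cast hr
  have hlam : 0 < lam := by linarith
  obtain ⟨hv1H, hv2H, hv12, -⟩ := SM1b.wd_pair hW
  have hv1A : v1 ∈ A := by
    have : v1 ∈ cl A c (c v1) := by rw [hW.h1]; exact Finset.mem_singleton_self _
    exact (mem_cl.mp this).1
  have hv2A : v2 ∈ A := by
    have : v2 ∈ cl A c (c v2) := by rw [hW.h2]; exact Finset.mem_singleton_self _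
    exact (mem_cl.mp this).1
  have hF := (pFAM r hr V G n H c w A).1 v1 v2 hW
  obtain ⟨e1, e2, e3, e4⟩ := pCSE r V G H c w A _ x lam hF hx
  simp only [D3.JD_sum] at e1 e2 e3 e4
  have hwv1 : w ≠ v1 := fun h => hW.hw (h ▸ hv1H)
  have hwv2 : w ≠ v2 := fun h => hW.hw (h ▸ hv2H)
  rw [chi_neg hwv1, chi_neg hwv2] at e3
  have e3' : lam * x w = ∑ v ∈ A, x v := by linarith
  -- S
  obtain ⟨S, hS⟩ : ∃ S, S = ∑ u ∈ H, x u := ⟨_, rfl⟩
  rw [← hS] at e1 e2
  have hS0 : 0 ≤ S := by rw [hS]; exact Finset.sum_nonneg fun v _ => hx.nn v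
  have hSpos : 0 < S := by
    rcases hS0.lt_or_eq with h | h
    · exact h
    · exfalso
      have hz : ∀ v ∈ H, x v = 0 :=
        (Finset.sum_eq_zero_iff_of_nonneg fun v _ => hx.nn v).mp (hS.symm.trans h.symm)
      have hw0 : x w = 0 := by
        have : ∑ v ∈ A, x v = 0 := Finset.sum_eq_zero fun v hv => hz v (hW.hA hv)
        rw [this] at e3'
        rcases mul_eq_zero.mp e3' with h' | h'
        · linarith
        · exact h'
      have hall : ∀ v, x v = 0 := by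
        intro v
        by_cases hv : v ∈ H
        · exact hz v hv
        · by_cases hvw : v = w
          · rw [hvw]; exact hw0
          · have h6 := e4 v hv hvw
            rw [hz v1 hv1H, hz v2 hv2H] at h6
            have : lam * x v = 0 := by rw [h6]; ring
            rcases mul_eq_zero.mp this with h' | h'
            · linarith
            · exact h'
      have := hx.unit
      simp [hall] at this
  obtain ⟨X, hX⟩ : ∃ X, X = x w / S := ⟨_, rfl⟩
  obtain ⟨X1, hX1⟩ : ∃ X1, X1 = x v1 / S := ⟨_, rfl⟩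
  obtain ⟨X2, hX2⟩ : ∃ X2, X2 = x v2 / S := ⟨_, rfl⟩
  have xw : x w = X * S := by rw [hX]; field_simp
  have x1 : x v1 = X1 * S := by rw [hX1]; field_simp
  have x2 : x v2 = X2 * S := by rw [hX2]; field_simp
  have hX0 : 0 ≤ X := by rw [hX]; exact div_nonneg (hx.nn _) hS0
  have hX10 : 0 ≤ X1 := by rw [hX1]; exact div_nonneg (hx.nn _) hS0
  have hX20 : 0 ≤ X2 := by rw [hX2]; exact div_nonneg (hx.nn _) hS0
  obtain ⟨t, ht⟩ : ∃ t : Fin r → ℝ, t = fun i => cs x H c i / S := ⟨_, rfl⟩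
  have hcs : ∀ i, cs x H c i = t i * S := by
    intro i; rw [ht]; simp only; rw [div_mul_cancel₀ _ hSpos.ne']
  have ht0 : ∀ i, 0 ≤ t i := by
    intro i; rw [ht]
    exact div_nonneg (Finset.sum_nonneg fun v _ => hx.nn v) hS0
  have htsum : ∑ i, t i = 1 := by
    have h6 : ∑ i, cs x H c i = S := by rw [hS]; exact sum_cl H c x
    have h7 : (∑ i, t i) * S = 1 * S := by
      rw [Finset.sum_mul, one_mul]
      rw [← h6]
      exact Finset.sum_congr rfl fun i _ => by rw [hcs]; rw [h6]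
    exact mul_right_cancel₀ hSpos.ne' h7
  obtain ⟨m, hm⟩ : ∃ m : Fin r → ℝ, m = sz H c := ⟨_, rfl⟩
  have hm0 : ∀ i, 0 ≤ m i := by intro i; rw [hm]; exact Nat.cast_nonneg _
  obtain ⟨b, hb⟩ : ∃ b : Fin r → ℝ, b = fun i => 1 / (lam + m i) := ⟨_, rfl⟩
  have hlm : ∀ i, 0 < lam + m i := fun i => by have := hm0 i; linarith
  have hb0 : ∀ i, 0 ≤ b i := by intro i; rw [hb]; exact (one_div_pos.mpr (hlm i)).le
  have hbm : ∀ i, b i * (lam + m i) = 1 := by
    intro i; rw [hb]; simp only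
    exact one_div_mul_cancel (hlm i).ne'
  have hbμ : ∀ i, b i ≤ 1 / lam := by
    intro i; rw [hb]
    exact one_div_le_one_div_of_le hlam (by have := hm0 i; linarith)
  obtain ⟨P, hP⟩ : ∃ P : Fin r → ℝ,
    P = fun i => X - chi (c v1 = i) * X2 - chi (c v2 = i) * X1 := ⟨_, rfl⟩
  have hPi : ∀ i, P i = X - chi (c v1 = i) * X2 - chi (c v2 = i) * X1 := fun i => by rw [hP]
  -- class sums
  have ecs : ∀ i, lam * t i = m i * (1 - t i) + P i := by
    intro i
    have h6 := e2 i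
    have h7 : ∑ v ∈ cl H c i, (-(chi (v = v1) * x v2) - chi (v = v2) * x v1)
        = -(chi (c v1 = i) * x v2) - chi (c v2 = i) * x v1 := by
      rw [Finset.sum_sub_distrib, Finset.sum_neg_distrib, sum_cl_chi H c v1 hv1H,
        sum_cl_chi H c v2 hv2H]
    have h8 : sz A c i = 1 := by
      unfold sz; rw [TOPG.card_one hW hAr i]; norm_num
    rw [h7, h8, hcs, xw, x1, x2, ← hm] at h6
    have h9 : (lam * t i) * S = (m i * (1 - t i) + P i) * S := by
      rw [hPi]; linarith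
    exact mul_right_cancel₀ hSpos.ne' h9
  have et : ∀ i, 1 - t i = b i * (lam - P i) := by
    intro i
    have h6 : (1 - t i) * (lam + m i) = lam - P i := by have := ecs i; linarith
    calc 1 - t i = (1 - t i) * (b i * (lam + m i)) := by rw [hbm, mul_one]
      _ = b i * ((1 - t i) * (lam + m i)) := by ring
      _ = b i * (lam - P i) := by rw [h6]
  -- vertex equations in `A`
  have hvert : ∀ v ∈ A, x v = (b (c v) + P (c v) * (1 - b (c v)) / lam) * S := by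
    intro v hv
    have hvH := hW.hA hv
    have c1 : chi (v = v1) = chi (c v1 = c v) := by
      refine chi_congr ⟨fun h => by rw [h], fun h => ?_⟩
      have : v ∈ cl A c (c v1) := mem_cl.mpr ⟨hv, h.symm⟩
      rw [hW.h1] at this
      exact Finset.mem_singleton.mp this
    have c2 : chi (v = v2) = chi (c v2 = c v) := by
      refine chi_congr ⟨fun h => by rw [h], fun h => ?_⟩
      have : v ∈ cl A c (c v2) := mem_cl.mpr ⟨hv, h.symm⟩
      rw [hW.h2] at this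
      exact Finset.mem_singleton.mp this
    have h6 := e1 v hvH
    rw [chi_pos hv, c1, c2, hcs, xw, x1, x2] at h6
    have h7 : lam * x v = ((1 - t (c v)) + P (c v)) * S := by rw [hPi]; linarith
    rw [et] at h7
    have h8 : x v = (b (c v) * (lam - P (c v)) + P (c v)) * S / lam := by
      rw [eq_div_iff hlam.ne']; linarith
    rw [h8]; field_simp; ring
  have P1 : P (c v1) = X - X2 := by
    rw [hPi, chi_pos rfl, chi_neg (fun h => hW.h12 h.symm)]; ring
  have P2 : P (c v2) = X - X1 := by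
    rw [hPi, chi_pos rfl, chi_neg hW.h12]; ring
  -- X1, X2
  have eX1 : X1 = b (c v1) + (X - X2) * (1 - b (c v1)) * (1 / lam) := by
    have h6 := hvert v1 hv1A
    rw [P1, x1] at h6
    rw [mul_right_cancel₀ hSpos.ne' h6]; ring
  have eX2 : X2 = b (c v2) + (X - X1) * (1 - b (c v2)) * (1 / lam) := by
    have h6 := hvert v2 hv2A
    rw [P2, x2] at h6
    rw [mul_right_cancel₀ hSpos.ne' h6]; ring
  -- bounds
  have hlX : lam * X ≤ 1 := by
    have h6 : lam * x w ≤ S := by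
      rw [e3', hS]
      exact Finset.sum_le_sum_of_subset_of_nonneg hW.hA fun v _ _ => hx.nn v
    rw [xw] at h6
    have h7 : (lam * X) * S ≤ 1 * S := by linarith
    exact le_of_mul_le_mul_right h7 hSpos
  have hXμ : X ≤ 1 / lam := by rw [le_div_iff₀ hlam]; linarith
  have hX1' : X ≤ 1 := by nlinarith
  have hlX1 : lam * X1 ≤ 2 := by
    have h6 := e1 v1 hv1H
    rw [chi_pos hv1A, chi_pos rfl, chi_neg hv12, hcs, xw, x1, x2] at h6
    have h7 : (lam * X1) * S = ((1 - t (c v1)) + X - X2) * S := by linarith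
    have h8 := mul_right_cancel₀ hSpos.ne' h7
    have := ht0 (c v1)
    linarith
  have hlX2 : lam * X2 ≤ 2 := by
    have h6 := e1 v2 hv2H
    rw [chi_pos hv2A, chi_pos rfl, chi_neg hv12.symm, hcs, xw, x1, x2] at h6
    have h7 : (lam * X2) * S = ((1 - t (c v2)) + X - X1) * S := by linarith
    have h8 := mul_right_cancel₀ hSpos.ne' h7
    have := ht0 (c v2)
    linarith
  have hX1μ : X1 ≤ 2 * (1 / lam) := by
    rw [mul_one_div, le_div_iff₀ hlam]; linarith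
  have hX2μ : X2 ≤ 2 * (1 / lam) := by
    rw [mul_one_div, le_div_iff₀ hlam]; linarith
  -- sum of the P i b i
  have hsumP : ∀ f : Fin r → ℝ, ∑ i, P i * f i = X * ∑ i, f i - X2 * f (c v1) - X1 * f (c v2) := by
    intro f
    have h6 : ∀ i, P i * f i = X * f i - X2 * (chi (c v1 = i) * f i) - X1 * (chi (c v2 = i) * f i) := by
      intro i; rw [hPi]; ring
    rw [Finset.sum_congr rfl fun i _ => h6 i, Finset.sum_sub_distrib, Finset.sum_sub_distrib,
      ← Finset.mul_sum, ← Finset.mul_sum, ← Finset.mul_sum, sum_chi, sum_chi]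
  have hPh : Ph m lam = b (c v1) * X2 + b (c v2) * X1 - X * ∑ i, b i := by
    have h6 : ∀ i, m i / (lam + m i) = t i - P i * b i := by
      intro i
      have h7 : m i / (lam + m i) = m i * b i := by rw [hb]; simp only; ring
      have h8 : m i * b i = 1 - lam * b i := by have := hbm i; linarith
      have h9 := et i
      rw [h7, h8]; linarith
    unfold Ph
    rw [Finset.sum_congr rfl fun i _ => h6 i, Finset.sum_sub_distrib, htsum, hsumP]; ring
  have hB2 : ∑ i, b i = 1 / lam * ((r : ℝ) - 1 - Ph m lam) := by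
    have h6 : ∀ i, m i / (lam + m i) = 1 - lam * b i := by
      intro i
      have h7 : m i / (lam + m i) = m i * b i := by rw [hb]; simp only; ring
      have := hbm i
      rw [h7]; linarith
    have h7 : Ph m lam = (r : ℝ) - lam * ∑ i, b i - 1 := by
      unfold Ph
      rw [Finset.sum_congr rfl fun i _ => h6 i, Finset.sum_sub_distrib, ← Finset.mul_sum]
      simp
    rw [h7]; field_simp; ring
  have hBle : ∑ i, b i ≤ (r : ℝ) * (1 / lam) := by
    calc ∑ i, b i ≤ ∑ _i : Fin r, 1 / lam := Finset.sum_le_sum fun i _ => hbμ i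
      _ = _ := by simp
  have hB0 : 0 ≤ ∑ i, b i := Finset.sum_nonneg fun i _ => hb0 i
  -- the equation at w
  have hw3 : lam * X = ∑ i, b i + 1 / lam * ∑ i, P i * (1 - b i) := by
    have h6 : ∑ v ∈ A, x v = (∑ i, (b i + P i * (1 - b i) / lam)) * S := by
      rw [← sum_cl A c x, Finset.sum_mul]
      refine Finset.sum_congr rfl fun i _ => ?_
      have h7 : ∀ v ∈ cl A c i, x v = (b i + P i * (1 - b i) / lam) * S := by
        intro v hv
        obtain ⟨hv1, hv2⟩ := mem_cl.mp hv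
        rw [hvert v hv1, hv2]
      rw [Finset.sum_congr rfl h7, Finset.sum_const, TOPG.card_one hW hAr i, one_smul]
    rw [← e3', xw] at h6
    have h7 : (lam * X) * S = (∑ i, (b i + P i * (1 - b i) / lam)) * S := by linarith
    rw [mul_right_cancel₀ hSpos.ne' h7, Finset.sum_add_distrib, Finset.mul_sum]
    congr 1
    exact Finset.sum_congr rfl fun i _ => by ring
  have h5 : |X - 1 / lam * ∑ i, b i| ≤ ((r : ℝ) + 4) * (1 / lam) ^ 3 := by
    have hμ0 : 0 ≤ 1 / lam := (one_div_pos.mpr hlam).le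
    have h6 : X - 1 / lam * ∑ i, b i = (1 / lam) ^ 2 * ∑ i, P i * (1 - b i) := by
      have h7 : X = 1 / lam * (lam * X) := by field_simp
      rw [h7, hw3]; ring
    rw [h6, abs_mul, abs_of_nonneg (by positivity : 0 ≤ (1 / lam) ^ 2)]
    have h8 : ∀ i, 0 ≤ 1 - b i ∧ 1 - b i ≤ 1 := by
      intro i
      have h9 : 1 / lam ≤ 1 := by rw [div_le_one hlam]; exact hl
      have := hbμ i; have := hb0 i
      constructor <;> linarith
    have h10 : |∑ i, P i * (1 - b i)| ≤ ((r : ℝ) + 4) * (1 / lam) := by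
      rw [hsumP fun i => 1 - b i]
      have s1 : ∑ i, (1 - b i) ≤ (r : ℝ) := by
        calc ∑ i, (1 - b i) ≤ ∑ _i : Fin r, (1 : ℝ) := Finset.sum_le_sum fun i _ => (h8 i).2
          _ = _ := by simp
      have s0 : 0 ≤ ∑ i, (1 - b i) := Finset.sum_nonneg fun i _ => (h8 i).1
      have u1 : X * ∑ i, (1 - b i) ≤ (1 / lam) * r := mul_le_mul hXμ s1 s0 hμ0
      have u0 : 0 ≤ X * ∑ i, (1 - b i) := mul_nonneg hX0 s0
      have w1 : X2 * (1 - b (c v1)) ≤ 2 * (1 / lam) * 1 :=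
        mul_le_mul hX2μ (h8 _).2 (h8 _).1 (by linarith)
      have w10 : 0 ≤ X2 * (1 - b (c v1)) := mul_nonneg hX20 (h8 _).1
      have w2 : X1 * (1 - b (c v2)) ≤ 2 * (1 / lam) * 1 :=
        mul_le_mul hX1μ (h8 _).2 (h8 _).1 (by linarith)
      have w20 : 0 ≤ X1 * (1 - b (c v2)) := mul_nonneg hX10 (h8 _).1
      have u2 : 0 ≤ (1 / lam) * (r : ℝ) := by positivity
      rw [abs_le]
      constructor <;> nlinarith
    calc (1 / lam) ^ 2 * |∑ i, P i * (1 - b i)|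
        ≤ (1 / lam) ^ 2 * (((r : ℝ) + 4) * (1 / lam)) :=
          mul_le_mul_of_nonneg_left h10 (by positivity)
      _ = _ := by ring
  have hfin := real_part (r := (r : ℝ)) (μ := 1 / lam) (B := ∑ i, b i) (b1 := b (c v1))
    (b2 := b (c v2)) (X := X) (X1 := X1) (X2 := X2) (F := Ph m lam) hrR (one_div_pos.mpr hlam)
    (by rw [div_le_one hlam]; exact hl) (hb0 _) (hbμ _) (hb0 _) (hbμ _) hB0 hBle hX0 hXμ hX10
    hX1μ hX20 hX2μ hPh hB2 eX1 eX2 h5
  have hgg : gg r lam (m (c v1)) (m (c v2)) = 2 * b (c v1) * b (c v2)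
      - (b (c v1) ^ 2 + b (c v2) ^ 2) * (1 / lam) - ((r : ℝ) - 1) ^ 2 * (1 / lam) ^ 3 := by
    unfold gg
    rw [hb]
    simp only
    have := (hlm (c v1)).ne'
    have := (hlm (c v2)).ne'
    field_simp
  rw [← hm, hgg]
  exact hfin

end X_SECG

theorem x_SECG : Stmt_SECG := by
  intro r hr
  have hrR : (3 : ℝ) ≤ r := by exact_mod_cast hr
  refine ⟨16 * (3 * (r : ℝ) ^ 2 + 17 * r + 18), by nlinarith, ?_⟩
  intro n V _ G x lam c H w A v1 v2 hn hW hAr hx hln
  have hnR : (2 : ℝ) ≤ n := by exact_mod_cast hn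
  have hl : 1 ≤ lam := by linarith
  have hlam : 0 < lam := by linarith
  refine (X_SECG.main hr hW hAr hx hl).trans ?_
  have h1 : 1 / lam ≤ 2 / n := by
    rw [div_le_div_iff₀ hlam (by linarith)]; linarith
  have h2 : (1 / lam) ^ 4 ≤ (2 / (n : ℝ)) ^ 4 :=
    pow_le_pow_left₀ (one_div_pos.mpr hlam).le h1 4
  have h3 : 0 ≤ 3 * (r : ℝ) ^ 2 + 17 * r + 18 := by positivity
  calc (3 * (r : ℝ) ^ 2 + 17 * r + 18) * (1 / lam) ^ 4
      ≤ (3 * (r : ℝ) ^ 2 + 17 * r + 18) * (2 / (n : ℝ)) ^ 4 := mul_le_mul_of_nonneg_left h2 h3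
    _ = 16 * (3 * (r : ℝ) ^ 2 + 17 * r + 18) / (n : ℝ) ^ 4 := by rw [div_pow]; ring

end Pool.Agent.Work.MP_5532fa_up
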