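import Pool.Agent.Work.MP_5532fa_x.Interface4

/-!
# MP_5532fa_co, sixth round, block SECR
-/

open Finset

namespace Pool.Agent.Work.MP_5532fa_up

open MP5532fa (specRad qf pE)

namespace X_SECR

section
variable {V : Type} [Fintype V] {r : ℕ} {G : SimpleGraph V} {H : Finset V} {c : V → Fin r}

omit [Fintype V] in
/-- the missing neighbours, upper bound -/
theorem ms_le {x : V → ℝ} {b : ℝ} (hx : ∀ v ∈ H, x v ≤ b) :
    ∑ v ∈ H, EST1.ms G H c x v ≤ (mis G H c : ℝ) * b := by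
  rw [EDG.mis_eq, Finset.sum_mul]
  refine Finset.sum_le_sum fun v _ => ?_
  rw [EST1.ms, Finset.sum_mul]
  exact Finset.sum_le_sum fun u hu => mul_le_mul_of_nonneg_left (hx u hu) (chi_nonneg _)

omit [Fintype V] in
/-- the missing neighbours, lower bound -/
theorem ms_ge {x : V → ℝ} {b : ℝ} (hx : ∀ v ∈ H, b ≤ x v) :
    (mis G H c : ℝ) * b ≤ ∑ v ∈ H, EST1.ms G H c x v := by
  rw [EDG.mis_eq, Finset.sum_mul]
  refine Finset.sum_le_sum fun v _ => ?_
  rw [EST1.ms, Finset.sum_mul]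
  exact Finset.sum_le_sum fun u hu => mul_le_mul_of_nonneg_left (hx u hu) (chi_nonneg _)

/-- the entries outside `H` -/
theorem out_le {x : V → ℝ} {lam b : ℝ} (hpv : PV G x lam) (hx : ∀ v, x v ≤ b) (hb : 0 ≤ b)
    {u : V} (hu : u ∉ H) : lam * x u ≤ (eo G H : ℝ) * b := by
  rw [← hpv.eig u]
  calc ∑ v, ad G u v * x v ≤ ∑ v, ad G u v * b :=
        Finset.sum_le_sum fun v _ => mul_le_mul_of_nonneg_left (hx v) (chi_nonneg _)
    _ = (∑ v, ad G u v) * b := by rw [Finset.sum_mul]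
    _ ≤ (eo G H : ℝ) * b := by
        refine mul_le_mul_of_nonneg_right ?_ hb
        rw [EDG.eo_eq]
        exact Finset.single_le_sum (f := fun u => ∑ v, ad G u v)
          (fun u _ => Finset.sum_nonneg fun v _ => chi_nonneg _) (mem_out.2 hu)

/-- the outside neighbours -/
theorem ot_sum {y : V → ℝ} {mx : ℝ} (hm : ∀ v, v ∉ H → y v ≤ mx) (hmx : 0 ≤ mx) :
    ∑ v ∈ H, EST1.ot G H y v ≤ (eo G H : ℝ) * mx := by
  rw [EDG.eo_eq, Finset.sum_mul]
  have h1 : ∑ v ∈ H, EST1.ot G H y v = ∑ u ∈ out H, ∑ v ∈ H, ad G v u * y u := by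
    unfold EST1.ot
    rw [Finset.sum_comm]
  rw [h1]
  refine Finset.sum_le_sum fun u hu => ?_
  rw [Finset.sum_mul]
  calc ∑ v ∈ H, ad G v u * y u ≤ ∑ v ∈ H, ad G u v * mx := by
        refine Finset.sum_le_sum fun v _ => ?_
        rw [ad_comm G v u]
        exact mul_le_mul_of_nonneg_left (hm u (mem_out.1 hu)) (chi_nonneg _)
    _ ≤ ∑ v, ad G u v * mx :=
        Finset.sum_le_sum_of_subset_of_nonneg (Finset.subset_univ _)
          (fun v _ _ => mul_nonneg (chi_nonneg _) hmx)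

end

/-- sums divided by almost constant numbers -/
theorem div_near {ι : Type} [Fintype ι] {a p : ι → ℝ} {s : ℝ} (hs : 6 ≤ s)
    (ha : ∀ i, 0 ≤ a i) (hp : ∀ i, |p i - s ^ 2| ≤ 3 * s) :
    |s ^ 2 * ∑ i, a i / p i - ∑ i, a i| ≤ 6 / s * ∑ i, a i := by
  have hs0 : 0 < s := by linarith
  rw [Finset.mul_sum, ← Finset.sum_sub_distrib, Finset.mul_sum]
  refine (Finset.abs_sum_le_sum_abs _ _).trans (Finset.sum_le_sum fun i _ => ?_)
  have h1 := abs_le.mp (hp i)
  have h2 : s ^ 2 / 2 ≤ p i := by nlinarith only [h1.1, hs]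
  have h3 : 0 < p i := lt_of_lt_of_le (by positivity) h2
  have e : s ^ 2 * (a i / p i) - a i = a i * ((s ^ 2 - p i) / p i) := by
    field_simp
  rw [e, abs_mul, abs_of_nonneg (ha i), mul_comm]
  refine mul_le_mul_of_nonneg_right ?_ (ha i)
  rw [abs_div, abs_of_pos h3, div_le_div_iff₀ h3 hs0, abs_sub_comm]
  calc |p i - s ^ 2| * s ≤ 3 * s * s := mul_le_mul_of_nonneg_right (hp i) hs0.le
    _ = 6 * (s ^ 2 / 2) := by ring
    _ ≤ 6 * p i := by linarith only [h2]

/-- the last step -/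
theorem fin {xb s X Q MS OT m e : ℝ} (hxb : 0 < xb) (hs : 1 ≤ s) (hX : 19 / 20 * xb ≤ X)
    (hm : 0 ≤ m) (he : 0 ≤ e) (h1 : |Q * X - (MS - OT)| ≤ 6 / s * (MS + OT))
    (h2 : m * (X - 27 * xb / s) ≤ MS) (h3 : MS ≤ m * (X + 27 * xb / s))
    (h4 : MS ≤ m * (21 / 20 * xb)) (h5 : OT ≤ 42 / 5 * e * xb / s) (h6 : 0 ≤ OT) :
    |Q - m| ≤ 64 * (m + e) / s := by
  have hs0 : 0 < s := by linarith
  obtain ⟨t, ht⟩ : ∃ t, t = 1 / s := ⟨_, rfl⟩
  have ht0 : 0 < t := by rw [ht]; positivity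
  have ht1 : t ≤ 1 := by rw [ht, div_le_one hs0]; exact hs
  have e1 : 6 / s = 6 * t := by rw [ht]; ring
  have e2 : 27 * xb / s = 27 * xb * t := by rw [ht]; ring
  have e3 : 42 / 5 * e * xb / s = 42 / 5 * e * xb * t := by rw [ht]; ring
  have e4 : 64 * (m + e) / s = 64 * (m + e) * t := by rw [ht]; ring
  rw [e1] at h1
  rw [e2] at h2 h3
  rw [e3] at h5
  rw [e4]
  have hX0 : 0 < X := by linarith
  have k1 : 6 * t * (MS + OT) ≤ 63 / 10 * (m * xb * t) + 6 * OT := by
    have a1 : t * MS ≤ t * (m * (21 / 20 * xb)) := mul_le_mul_of_nonneg_left h4 ht0.le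
    have a2 : t * OT ≤ 1 * OT := mul_le_mul_of_nonneg_right ht1 h6
    linarith only [a1, a2]
  have hmx : 0 ≤ m * xb * t := by positivity
  have hex : 0 ≤ e * xb * t := by positivity
  have k2 : |(Q - m) * X| ≤ 594 / 10 * ((m + e) * xb * t) := by
    have b1 := abs_le.mp h1
    rw [abs_le]
    constructor
    · linarith only [b1.1, b1.2, k1, h2, h3, h5, h6, hmx, hex]
    · linarith only [b1.1, b1.2, k1, h2, h3, h5, h6, hmx, hex]
  rw [abs_mul, abs_of_pos hX0] at k2
  have k3 : |Q - m| * (19 / 20 * xb) ≤ |Q - m| * X :=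
    mul_le_mul_of_nonneg_left hX (abs_nonneg _)
  have k4 : |Q - m| * (19 / 20 * xb) ≤ (64 * (m + e) * t) * (19 / 20 * xb) := by
    linarith only [k2, k3, hmx, hex]
  exact le_of_mul_le_mul_right k4 (by positivity)

end X_SECR

theorem x_SECR : Stmt_SECR := by
  classical
  intro r hr
  have hR : (3 : ℝ) ≤ r := by exact_mod_cast hr
  obtain ⟨δ1, n1, hδ1, hδ1e, HE⟩ := pEST1 r (1 / 20) hr (by norm_num)
  obtain ⟨δ2, n2, hδ2, HL⟩ := pLAM r hr
  obtain ⟨δ, hδ, hl1, hl2⟩ : ∃ δ : ℝ, 0 < δ ∧ δ ≤ δ1 ∧ δ ≤ δ2 :=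
    ⟨min δ1 δ2, lt_min hδ1 hδ2, min_le_left _ _, min_le_right _ _⟩
  obtain ⟨B, hB⟩ : ∃ B : ℝ, B = 4 / δ + 4 * r + 50 := ⟨_, rfl⟩
  have h4δ : 0 < 4 / δ := by positivity
  refine ⟨4 * r + 65, n1 + n2 + ⌈B ^ 2⌉₊ + 1, by linarith, ?_⟩
  intro n hn V _ G x lam c H hcard hind hdev hmis heo hpv
  have hdev0 := hdev
  obtain ⟨s, hs⟩ : ∃ s, s = √(n : ℝ) := ⟨_, rfl⟩
  rw [← hs] at hdev hmis heo ⊢
  have hs2 : s ^ 2 = n := by rw [hs]; exact Real.sq_sqrt (Nat.cast_nonneg n)
  have hsB : B ≤ s := by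
    rw [hs]
    apply Real.le_sqrt_of_sq_le
    have h5 : B ^ 2 ≤ (⌈B ^ 2⌉₊ : ℝ) := Nat.le_ceil _
    have h6 : ((⌈B ^ 2⌉₊ : ℕ) : ℝ) ≤ (n : ℝ) := by
      exact_mod_cast (by omega : ⌈B ^ 2⌉₊ ≤ n)
    exact h5.trans h6
  have hs50 : 50 ≤ s := by linarith
  have hsr : 4 * (r : ℝ) + 1 ≤ s := by linarith
  have hs0 : 0 < s := by linarith
  have hsδ : 4 ≤ δ * s := by
    have h1 : 4 / δ ≤ s := by linarith
    rw [div_le_iff₀ hδ] at h1
    linarith
  have hdn : 4 * s ≤ δ * n := by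
    rw [← hs2]
    calc 4 * s ≤ δ * s * s := mul_le_mul_of_nonneg_right hsδ hs0.le
      _ = δ * s ^ 2 := by ring
  have hC : C0 r δ n G c H := ⟨hcard, hind, hmis.trans hdn,
    fun i => (hdev i).trans (by linarith), heo.trans hdn⟩
  have hlam := HL n (by omega) V G x lam c H (hC.mono hl2) hdev0 hpv
  obtain ⟨xb, hF⟩ := HE n (by omega) V G x lam c H (hC.mono hl1) hpv
  refine ⟨hlam.trans (by linarith), ?_⟩
  have hxb := hF.xb0
  have hal := al_ge hr
  have hx0 := hpv.nn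
  have hlam' := abs_le.mp hlam
  have hss : 50 * s ≤ s ^ 2 := by nlinarith only [hs50]
  have haln : al r * (n : ℝ) = s ^ 2 - s ^ 2 / r := by rw [← hs2]; unfold al; ring
  have haln2 : 2 / 3 * s ^ 2 ≤ al r * (n : ℝ) := by
    rw [← hs2]
    exact mul_le_mul_of_nonneg_right hal (by positivity)
  have hlamh : s ^ 2 / 2 ≤ lam := by linarith only [hlam'.1, haln2, hsr, hss]
  have hlam0 : 0 < lam := by linarith only [hlamh, hss, hs50]
  -- the denominators
  have hp : ∀ i, |(lam + sz H c i) - s ^ 2| ≤ 3 * s := by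
    intro i
    have h2 := abs_le.mp (hdev i)
    rw [← hs2] at h2
    rw [abs_le]
    constructor
    · linarith only [hlam'.1, h2.1, haln, hsr]
    · linarith only [hlam'.2, h2.2, haln, hsr]
  have hp2 : ∀ i, s ^ 2 / 2 ≤ lam + sz H c i := by
    intro i
    have := abs_le.mp (hp i)
    linarith only [this.1, hss, hs50]
  have hppos : ∀ i, 0 < lam + sz H c i := fun i => by
    have := hp2 i
    linarith only [this, hss, hs50]
  -- bounds for the entries
  have hxH : ∀ v ∈ H, x v ≤ 21 / 20 * xb := by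
    intro v hv
    have := abs_le.mp (hF.xH v hv)
    linarith only [this.2]
  have hxall : ∀ v, x v ≤ 21 / 20 * xb := by
    intro v
    by_cases hv : v ∈ H
    · exact hxH v hv
    · have := hF.xo v hv
      linarith only [this, hxb]
  obtain ⟨m, hm⟩ : ∃ m : ℝ, m = (mis G H c : ℝ) := ⟨_, rfl⟩
  obtain ⟨e, he⟩ : ∃ e : ℝ, e = (eo G H : ℝ) := ⟨_, rfl⟩
  have hm0 : 0 ≤ m := by rw [hm]; exact Nat.cast_nonneg _
  have he0 : 0 ≤ e := by rw [he]; exact Nat.cast_nonneg _
  have hm4 : m ≤ 4 * s := by rw [hm]; exact hmis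
  have he4 : e ≤ 4 * s := by rw [he]; exact heo
  -- outside
  have hxo : ∀ v, v ∉ H → x v ≤ 21 / 10 * e * xb / s ^ 2 := by
    intro v hv
    have h1 := X_SECR.out_le hpv hxall (by positivity) hv
    rw [← he] at h1
    have h2 : s ^ 2 / 2 * x v ≤ lam * x v := mul_le_mul_of_nonneg_right hlamh (hx0 v)
    rw [le_div_iff₀ (by positivity)]
    linarith only [h1, h2]
  have hOT : ∑ v ∈ H, EST1.ot G H x v ≤ 42 / 5 * e * xb / s := by
    have h1 := X_SECR.ot_sum (G := G) hxo (by positivity)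
    rw [← he] at h1
    refine h1.trans ?_
    have h2 : e * (21 / 10 * e * xb / s ^ 2) = 21 / 10 * e * xb / s ^ 2 * e := by ring
    rw [h2]
    calc 21 / 10 * e * xb / s ^ 2 * e ≤ 21 / 10 * e * xb / s ^ 2 * (4 * s) :=
          mul_le_mul_of_nonneg_left he4 (by positivity)
      _ = 42 / 5 * e * xb / s := by field_simp; ring
  have hot0 := EST1.ot_nonneg (G := G) (H := H) hx0
  have hms0 := EST1.ms_nonneg (G := G) (H := H) (c := c) hx0
  have hOT2 : ∑ v ∈ H, EST1.ot G H x v ≤ 34 * xb := by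
    refine hOT.trans ?_
    rw [div_le_iff₀ hs0]
    have : e * xb ≤ 4 * s * xb := mul_le_mul_of_nonneg_right he4 hxb.le
    have : 0 < s * xb := mul_pos hs0 hxb
    linarith
  have hMS4 : ∑ v ∈ H, EST1.ms G H c x v ≤ m * (21 / 20 * xb) := by
    rw [hm]; exact X_SECR.ms_le hxH
  have hMS2 : ∑ v ∈ H, EST1.ms G H c x v ≤ 42 / 10 * (s * xb) := by
    refine hMS4.trans ?_
    have : m * xb ≤ 4 * s * xb := mul_le_mul_of_nonneg_right hm4 hxb.le
    linarith
  have hclH : ∀ i, cl H c i ⊆ H := fun i v hv => (mem_cl.1 hv).1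
  have hOTi : ∀ i, 0 ≤ ∑ v ∈ cl H c i, EST1.ot G H x v ∧
      ∑ v ∈ cl H c i, EST1.ot G H x v ≤ 34 * xb := fun i =>
    ⟨Finset.sum_nonneg fun v _ => hot0 v,
      (Finset.sum_le_sum_of_subset_of_nonneg (hclH i) fun v _ _ => hot0 v).trans hOT2⟩
  have hMSi : ∀ i, 0 ≤ ∑ v ∈ cl H c i, EST1.ms G H c x v ∧
      ∑ v ∈ cl H c i, EST1.ms G H c x v ≤ 42 / 10 * (s * xb) := fun i =>
    ⟨Finset.sum_nonneg fun v _ => hms0 v,
      (Finset.sum_le_sum_of_subset_of_nonneg (hclH i) fun v _ _ => hms0 v).trans hMS2⟩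
  -- the sum
  obtain ⟨S, hS⟩ : ∃ S, S = ∑ u ∈ H, x u := ⟨_, rfl⟩
  obtain ⟨X, hXd⟩ : ∃ X, X = S / s ^ 2 := ⟨_, rfl⟩
  have hSX : S = s ^ 2 * X := by rw [hXd]; field_simp
  have hcn : (H.card : ℝ) = s ^ 2 := by rw [hcard, hs2]
  have hS1 : s ^ 2 * (19 / 20 * xb) ≤ S := by
    have h1 : ∀ v ∈ H, 19 / 20 * xb ≤ x v := by
      intro v hv
      have := abs_le.mp (hF.xH v hv)
      linarith only [this.1]
    have := Finset.sum_le_sum h1
    rw [Finset.sum_const, nsmul_eq_mul, hcn, ← hS] at this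
    exact this
  have hS2 : S ≤ s ^ 2 * (21 / 20 * xb) := by
    have := Finset.sum_le_sum hxH
    rw [Finset.sum_const, nsmul_eq_mul, hcn, ← hS] at this
    exact this
  have hss0 : 0 < s ^ 2 := by positivity
  have hX1 : 19 / 20 * xb ≤ X := by
    rw [hSX] at hS1
    exact le_of_mul_le_mul_left hS1 hss0
  have hX2 : X ≤ 21 / 20 * xb := by
    rw [hSX] at hS2
    exact le_of_mul_le_mul_left hS2 hss0
  have hX0 : 0 < X := by linarith
  -- the entries in `H`
  have hnear : ∀ v ∈ H, |x v - X| ≤ 27 * xb / s := by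
    intro v hv
    have h1 := EST1.row hind hpv hv
    have h2 := SEC0.cs_eq hind hpv (c v)
    rw [← hS] at h1 h2
    obtain ⟨p, hpd⟩ : ∃ p, p = lam + sz H c (c v) := ⟨_, rfl⟩
    have hpn := hp (c v)
    have hph := hp2 (c v)
    rw [← hpd] at h2 hpn hph
    have hp0 : 0 < p := lt_of_lt_of_le (by positivity) hph
    have hp1 : 1 ≤ p := by linarith only [hph, hss, hs50]
    obtain ⟨o1, o2⟩ := hOTi (c v)
    obtain ⟨m1, m2⟩ := hMSi (c v)
    obtain ⟨D, hD⟩ : ∃ D, D = ∑ v ∈ cl H c (c v), EST1.ot G H x v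
      - ∑ v ∈ cl H c (c v), EST1.ms G H c x v := ⟨_, rfl⟩
    rw [← hD] at h2
    have hDb : |D| ≤ 34 * xb + 42 / 10 * (s * xb) := by
      rw [hD, abs_le]
      constructor
      · linarith only [o1, m2, hxb]
      · have : 0 < s * xb := mul_pos hs0 hxb
        linarith only [o2, m1, this]
    have hov : EST1.ot G H x v ≤ 34 * xb :=
      (Finset.single_le_sum (f := fun v => EST1.ot G H x v) (fun u _ => hot0 u) hv).trans hOT2
    have hmv : EST1.ms G H c x v ≤ 42 / 10 * (s * xb) :=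
      (Finset.single_le_sum (f := fun v => EST1.ms G H c x v) (fun u _ => hms0 u) hv).trans hMS2
    have hov0 := hot0 v
    have hmv0 := hms0 v
    have hDp : |D / p| ≤ 34 * xb + 42 / 10 * (s * xb) := by
      rw [abs_div, abs_of_pos hp0, div_le_iff₀ hp0]
      refine hDb.trans ?_
      have : 0 ≤ 34 * xb + 42 / 10 * (s * xb) := by positivity
      nlinarith only [this, hp1]
    have e1 : lam * (x v - S / p) = -(D / p) - EST1.ms G H c x v + EST1.ot G H x v := by
      have e2 : cs x H c (c v) = (sz H c (c v) * S + D) / p := by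
        rw [eq_div_iff hp0.ne']
        linarith only [h2]
      have e3 : sz H c (c v) = p - lam := by rw [hpd]; ring
      rw [mul_sub, h1, e2, e3]
      field_simp
      ring
    have h3 : |lam * (x v - S / p)| ≤ 10 * (s * xb) := by
      rw [e1]
      have a1 := abs_le.mp hDp
      have a2 : 50 * xb ≤ s * xb := mul_le_mul_of_nonneg_right hs50 hxb.le
      rw [abs_le]
      constructor
      · linarith only [a1.2, hmv, hov0, a2, hxb]
      · linarith only [a1.1, hmv0, hov, a2, hxb]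
    rw [abs_mul, abs_of_pos hlam0] at h3
    have h4 : |x v - S / p| ≤ 20 * xb / s := by
      have h5 : s ^ 2 / 2 * |x v - S / p| ≤ 10 * (s * xb) :=
        (mul_le_mul_of_nonneg_right hlamh (abs_nonneg _)).trans h3
      have h6 : s ^ 2 / 2 * (20 * xb / s) = 10 * (s * xb) := by field_simp; ring
      rw [← h6] at h5
      exact le_of_mul_le_mul_left h5 (by positivity)
    have h7 : |S / p - X| ≤ 63 / 10 * xb / s := by
      have e4 : S / p - X = X * ((s ^ 2 - p) / p) := by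
        rw [hSX]
        field_simp
      rw [e4, abs_mul, abs_of_pos hX0, abs_div, abs_of_pos hp0]
      have h8 : |s ^ 2 - p| / p ≤ 6 / s := by
        rw [div_le_div_iff₀ hp0 hs0, abs_sub_comm]
        calc |p - s ^ 2| * s ≤ 3 * s * s := mul_le_mul_of_nonneg_right hpn hs0.le
          _ = 6 * (s ^ 2 / 2) := by ring
          _ ≤ 6 * p := by linarith only [hph]
      calc X * (|s ^ 2 - p| / p) ≤ 21 / 20 * xb * (6 / s) :=
            mul_le_mul hX2 h8 (by positivity) (by positivity)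
        _ = 63 / 10 * xb / s := by ring
    have h9 : |x v - X| ≤ |x v - S / p| + |S / p - X| := abs_sub_le _ _ _
    have h10 : 20 * xb / s + 63 / 10 * xb / s ≤ 27 * xb / s := by
      have : 0 < xb / s := by positivity
      have e5 : 20 * xb / s + 63 / 10 * xb / s = (263 / 10) * (xb / s) := by ring
      have e6 : 27 * xb / s = 27 * (xb / s) := by ring
      rw [e5, e6]
      linarith
    linarith only [h4, h7, h9, h10]
  -- the secular function
  have hid := SEC0.sec_eq hind hpv hppos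
  rw [← hS] at hid
  have q1 := X_SECR.div_near (s := s) (by linarith) (fun i => (hMSi i).1) hp
  have q2 := X_SECR.div_near (s := s) (by linarith) (fun i => (hOTi i).1) hp
  rw [sum_cl H c (EST1.ms G H c x)] at q1
  rw [sum_cl H c (EST1.ot G H x)] at q2
  rw [← hm, ← he]
  have hfin : |(n : ℝ) ^ 2 * Ph (sz H c) lam - m| ≤ 64 * (m + e) / s := by
    refine X_SECR.fin (MS := ∑ v ∈ H, EST1.ms G H c x v) (OT := ∑ v ∈ H, EST1.ot G H x v)
      hxb (by linarith) hX1 hm0 he0 ?_ ?_ ?_ hMS4 hOT (Finset.sum_nonneg fun v _ => hot0 v)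
    · have e7 : (n : ℝ) ^ 2 * Ph (sz H c) lam * X = s ^ 2 * (S * Ph (sz H c) lam) := by
        rw [← hs2, hSX]; ring
      rw [e7, hid, mul_sub]
      have r1 := abs_le.mp q1
      have r2 := abs_le.mp q2
      rw [abs_le]
      constructor
      · linarith only [r1.1, r2.2]
      · linarith only [r1.2, r2.1]
    · rw [hm]
      refine X_SECR.ms_ge fun v hv => ?_
      have := abs_le.mp (hnear v hv)
      linarith only [this.1]
    · rw [hm]
      refine X_SECR.ms_le fun v hv => ?_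
      have := abs_le.mp (hnear v hv)
      linarith only [this.2]
  refine hfin.trans ?_
  refine div_le_div_of_nonneg_right ?_ hs0.le
  exact mul_le_mul_of_nonneg_right (by linarith) (by linarith)

end Pool.Agent.Work.MP_5532fa_up
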