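import Pool.Agent.Work.MP_5532fa_x.Interface3

/-!
# MP_5532fa_co, sixth round: block SECU
-/

open Finset

namespace Pool.Agent.Work.MP_5532fa_up

open MP5532fa (specRad qf pE)

namespace X_SECU

/-- the missing neighbours, upper bound -/
private theorem ms_le {V : Type} {r : ℕ} {G : SimpleGraph V} {H : Finset V} {c : V → Fin r}
    {x : V → ℝ} {b : ℝ} (hx : ∀ v ∈ H, x v ≤ b) :
    ∑ v ∈ H, EST1.ms G H c x v ≤ (mis G H c : ℝ) * b := by
  rw [EDG.mis_eq, Finset.sum_mul]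
  refine Finset.sum_le_sum fun v _ => ?_
  rw [EST1.ms, Finset.sum_mul]
  exact Finset.sum_le_sum fun u hu => mul_le_mul_of_nonneg_left (hx u hu) (chi_nonneg _)

end X_SECU

theorem x_SECU : Stmt_SECU := by
  intro r e hr he
  obtain ⟨th, hth0, hth1, hthe⟩ : ∃ th : ℝ, 0 < th ∧ th ≤ 1 / 20 ∧ 7 * th ≤ e :=
    ⟨min (e / 7) (1 / 20), lt_min (by positivity) (by norm_num), min_le_right _ _, by
      have := min_le_left (e / 7) (1 / 20)
      linarith⟩
  obtain ⟨δ, N0, hδ, hδe, hE'⟩ := pEST1 r th hr hth0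
  refine ⟨δ, N0 + 1, hδ, ?_⟩
  intro n hn V _ G x lam c H hC hpv
  obtain ⟨xb, hF⟩ := hE' n (by omega) V G x lam c H hC hpv
  obtain ⟨_, k2⟩ := SEC0.key hC hpv hF hth0.le hth1 hδe (by omega)
  have hxb := hF.xb0
  have hM : ∑ v ∈ H, EST1.ms G H c x v ≤ (mis G H c : ℝ) * ((1 + th) * xb) :=
    X_SECU.ms_le fun v hv => by
      have := abs_le.mp (hF.xH v hv)
      linarith [this.2]
  have hm0 : (0 : ℝ) ≤ mis G H c := Nat.cast_nonneg _
  have hMl : (∑ v ∈ H, EST1.ms G H c x v) / xb ≤ (mis G H c : ℝ) * (1 + th) := by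
    rw [div_le_iff₀ hxb]
    linarith
  clear hM
  generalize (∑ v ∈ H, EST1.ms G H c x v) / xb = M at *
  generalize (n : ℝ) ^ 2 * Ph (sz H c) lam = Q at *
  generalize (mis G H c : ℝ) = m at *
  have h4 : M * (1 + 5 * th) ≤ m * (1 + th) * (1 + 5 * th) :=
    mul_le_mul_of_nonneg_right hMl (by linarith)
  have h5 : (1 + th) * (1 + 5 * th) ≤ 1 + e := by nlinarith
  have h6 : m * ((1 + th) * (1 + 5 * th)) ≤ m * (1 + e) := mul_le_mul_of_nonneg_left h5 hm0
  linarith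

end Pool.Agent.Work.MP_5532fa_up
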