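import Pool.Agent.Work.MP_5532fa_x.Interface6

/-!
# MP_5532fa_co, sixth round, block SECX: the secular function of the graphs `WD`, `WE`
-/

open Finset

namespace Pool.Agent.Work.MP_5532fa_up

open MP5532fa (specRad qf pE)

namespace X_SECX

/-- the secular function in terms of the perturbation -/
theorem alg {r : ℕ} {lam X Y W JA : ℝ} {n a J t : Fin r → ℝ}
    (hP : ∀ i, 0 < lam + n i)
    (hD : 0 < lam ^ 2 - ∑ i, a i + ∑ i, a i ^ 2 / (lam + n i))
    (h2 : ∀ i, (lam + n i) * t i = n i + a i * X + J i) (hsum : ∑ i, t i = 1)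
    (h3 : lam * X = Y + W)
    (h1 : lam * Y = ∑ i, a i * (1 - t i) + (∑ i, a i) * X + JA) :
    Ph n lam + FF lam n a = -(∑ i, J i / (lam + n i))
      - (JA + lam * W - ∑ i, a i * (J i / (lam + n i))) * (∑ i, a i / (lam + n i))
        / (lam ^ 2 - ∑ i, a i + ∑ i, a i ^ 2 / (lam + n i)) := by
  obtain ⟨T, hT⟩ : ∃ T, T = ∑ i, a i / (lam + n i) := ⟨_, rfl⟩
  obtain ⟨s, hs⟩ : ∃ s, s = ∑ i, a i := ⟨_, rfl⟩
  obtain ⟨Q, hQ⟩ : ∃ Q, Q = ∑ i, a i ^ 2 / (lam + n i) := ⟨_, rfl⟩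
  obtain ⟨R, hR⟩ : ∃ R, R = ∑ i, a i * (J i / (lam + n i)) := ⟨_, rfl⟩
  obtain ⟨L, hL⟩ : ∃ L, L = ∑ i, J i / (lam + n i) := ⟨_, rfl⟩
  have ht : ∀ i, t i = n i / (lam + n i) + X * (a i / (lam + n i)) + J i / (lam + n i) := by
    intro i
    have h := (hP i).ne'
    have : t i = (n i + a i * X + J i) / (lam + n i) := by
      rw [eq_div_iff h, mul_comm]; exact h2 i
    rw [this]; field_simp
  have ht' : ∀ i, a i * (1 - t i) = lam * (a i / (lam + n i)) - X * (a i ^ 2 / (lam + n i))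
      - a i * (J i / (lam + n i)) := by
    intro i
    have h := (hP i).ne'
    rw [ht i]; field_simp; ring
  have e1 : Ph n lam = -(X * T) - L := by
    have h : ∑ i, n i / (lam + n i) + X * T + L = 1 := by
      rw [hT, hL, ← hsum, Finset.mul_sum, ← Finset.sum_add_distrib, ← Finset.sum_add_distrib]
      exact Finset.sum_congr rfl fun i _ => (ht i).symm
    unfold Ph
    linarith
  have e2 : ∑ i, a i * (1 - t i) = lam * T - X * Q - R := by
    rw [hT, hQ, hR, Finset.mul_sum, Finset.mul_sum, ← Finset.sum_sub_distrib,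
      ← Finset.sum_sub_distrib]
    exact Finset.sum_congr rfl fun i _ => ht' i
  rw [e2] at h1
  rw [← hs] at h1 hD
  rw [← hQ] at hD
  have e3 : X * (lam ^ 2 - s + Q) = lam * T + (JA + lam * W - R) := by
    have : lam ^ 2 * X = lam * (Y + W) := by rw [← h3]; ring
    linarith
  unfold FF
  rw [← hT, ← hs, ← hQ, ← hR, ← hL, e1]
  have hD' := hD.ne'
  field_simp
  linear_combination (-T) * e3

theorem sum_chi {r : ℕ} (k : Fin r) (f : Fin r → ℝ) : ∑ i, chi (k = i) * f i = f k := by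
  rw [Finset.sum_eq_single k]
  · rw [chi_pos rfl, one_mul]
  · intro b _ hb
    rw [chi_neg (fun h => hb h.symm), zero_mul]
  · intro h; exact absurd (Finset.mem_univ _) h

theorem sum_cl_chi {V : Type} {r : ℕ} (H : Finset V) (c : V → Fin r) (v : V) (hv : v ∈ H)
    (i : Fin r) (t : ℝ) : ∑ u ∈ cl H c i, chi (u = v) * t = chi (c v = i) * t := by
  classical
  by_cases h : c v = i
  · rw [chi_pos h, one_mul, Finset.sum_eq_single v]
    · rw [chi_pos rfl, one_mul]
    · intro b _ hb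
      rw [chi_neg hb, zero_mul]
    · intro h'
      exact absurd (mem_cl.mpr ⟨hv, h⟩) h'
  · rw [chi_neg h, zero_mul]
    refine Finset.sum_eq_zero fun u hu => ?_
    have : u ≠ v := by
      rintro rfl
      exact h (mem_cl.mp hu).2
    rw [chi_neg this, zero_mul]

variable {V : Type} [Fintype V] {r : ℕ}

theorem chi_sum (S : Finset V) (f : V → ℝ) : ∑ u, chi (u ∈ S) * f u = ∑ u ∈ S, f u := by
  classical
  rw [← Finset.sum_subset (Finset.subset_univ S)]
  · refine Finset.sum_congr rfl fun v hv => ?_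
    rw [chi_pos hv, one_mul]
  · intro v _ hv
    rw [chi_neg hv, zero_mul]

theorem chi_sub {S T : Finset V} (hST : S ⊆ T) (f : V → ℝ) :
    ∑ u ∈ T, chi (u ∈ S) * f u = ∑ u ∈ S, f u := by
  classical
  rw [← Finset.sum_subset hST]
  · refine Finset.sum_congr rfl fun v hv => ?_
    rw [chi_pos hv, one_mul]
  · intro v _ hv
    rw [chi_neg hv, zero_mul]

theorem sz_sum (S : Finset V) (c : V → Fin r) : ∑ i, sz S c i = S.card := by
  unfold sz
  have := sum_card_cl S c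
  exact_mod_cast this

/-- sum over `S` of a function of the class -/
theorem sum_class (S : Finset V) (c : V → Fin r) (f : Fin r → ℝ) :
    ∑ v ∈ S, f (c v) = ∑ i, sz S c i * f i := by
  rw [← sum_cl S c]
  refine Finset.sum_congr rfl fun i _ => ?_
  have h : ∀ v ∈ cl S c i, f (c v) = f i := fun v hv => by rw [(mem_cl.1 hv).2]
  rw [Finset.sum_congr rfl h, Finset.sum_const, nsmul_eq_mul]
  rfl

theorem sum_cs (H : Finset V) (c : V → Fin r) (x : V → ℝ) :
    ∑ u ∈ H, x u * (∑ v ∈ H, x v - cs x H c (c u)) =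
      (∑ v ∈ H, x v) ^ 2 - ∑ i, cs x H c i ^ 2 := by
  have h3 : ∑ u ∈ H, x u * (∑ v ∈ H, x v - cs x H c (c u)) =
      (∑ u ∈ H, x u) * ∑ v ∈ H, x v - ∑ u ∈ H, x u * cs x H c (c u) := by
    rw [Finset.sum_mul, ← Finset.sum_sub_distrib]
    exact Finset.sum_congr rfl fun u _ => by ring
  have h4 : ∑ u ∈ H, x u * cs x H c (c u) = ∑ i, cs x H c i ^ 2 := by
    rw [← sum_cl H c]
    refine Finset.sum_congr rfl fun i _ => ?_
    have : ∀ v ∈ cl H c i, x v * cs x H c (c v) = x v * cs x H c i := by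
      intro v hv
      rw [(mem_cl.1 hv).2]
    rw [Finset.sum_congr rfl this, ← Finset.sum_mul]
    unfold cs
    ring
  rw [h3, h4]
  ring

theorem lower (hr : 3 ≤ r) {G : SimpleGraph V} {N : ℕ} {H : Finset V} {c : V → Fin r}
    {w : V} {A : Finset V} {J : V → V → ℝ} {x : V → ℝ} {lam : ℝ} (hN : 1 ≤ N)
    (hH : H.card = N) (hF : Fam G H c w A J) (hb : Bal H c) (hP : PV G x lam) :
    al r * N - 3 * r ≤ lam := by
  classical
  have hr0 : (0 : ℝ) < r := by
    have : 0 < r := by omega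
    exact_mod_cast this
  have hn1 : (1 : ℝ) ≤ N := by exact_mod_cast hN
  have := hP.nonempty
  obtain ⟨z, hz⟩ : ∃ z : V → ℝ, z = fun v => chi (v ∈ H) := ⟨_, rfl⟩
  have hz0 : ∀ v, 0 ≤ z v := by intro v; rw [hz]; exact chi_nonneg _
  have hz1 : ∀ v, z v ≤ 1 := by intro v; rw [hz]; exact chi_le_one _
  have hzH : ∀ v ∈ H, z v = 1 := by intro v hv; rw [hz]; exact chi_pos hv
  have h1 := rayleigh G z
  rw [← hP.rad] at h1
  have h2 : ∑ v ∈ H, z v = N := by
    rw [Finset.sum_congr rfl hzH, Finset.sum_const, nsmul_eq_mul, mul_one, hH]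
  have h3 : ∀ i, cs z H c i = sz H c i := by
    intro i
    unfold cs sz
    have : ∑ v ∈ cl H c i, z v = ∑ v ∈ cl H c i, (1 : ℝ) :=
      Finset.sum_congr rfl fun v hv => hzH v (mem_cl.1 hv).1
    rw [this, Finset.sum_const, nsmul_eq_mul, mul_one]
  have h6 : ∑ v, z v ^ 2 = N := by
    have : ∀ v, z v ^ 2 = chi (v ∈ H) * z v := by
      intro v; rw [hz]; ring
    rw [Finset.sum_congr rfl fun v _ => this v, chi_sum, h2]
  rw [h6] at h1
  have h7 : ∑ u, ∑ v, (chi (u ∈ H ∧ v ∈ H ∧ c u ≠ c v) * (z u * z v) - |J u v|)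
      ≤ ∑ u, ∑ v, ad G u v * (z u * z v) := by
    refine Finset.sum_le_sum fun u _ => Finset.sum_le_sum fun v _ => ?_
    rw [hF.adj u v]
    have a1 : 0 ≤ z u * z v := mul_nonneg (hz0 u) (hz0 v)
    have a2 : z u * z v ≤ 1 := mul_le_one₀ (hz1 u) (hz0 v) (hz1 v)
    have a3 : 0 ≤ chi (u = w ∧ v ∈ A) * (z u * z v) := mul_nonneg (chi_nonneg _) a1
    have a4 : 0 ≤ chi (v = w ∧ u ∈ A) * (z u * z v) := mul_nonneg (chi_nonneg _) a1
    have a5 : -|J u v| ≤ J u v * (z u * z v) := by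
      have b1 := neg_abs_le (J u v * (z u * z v))
      rw [abs_mul, abs_of_nonneg a1] at b1
      have b2 : |J u v| * (z u * z v) ≤ |J u v| * 1 :=
        mul_le_mul_of_nonneg_left a2 (abs_nonneg _)
      linarith
    have a6 : (chi (u ∈ H ∧ v ∈ H ∧ c u ≠ c v) + chi (u = w ∧ v ∈ A) + chi (v = w ∧ u ∈ A)
        + J u v) * (z u * z v) = chi (u ∈ H ∧ v ∈ H ∧ c u ≠ c v) * (z u * z v)
        + chi (u = w ∧ v ∈ A) * (z u * z v) + chi (v = w ∧ u ∈ A) * (z u * z v)
        + J u v * (z u * z v) := by ring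
    rw [a6]
    linarith
  have h8 : ∑ u, ∑ v, (chi (u ∈ H ∧ v ∈ H ∧ c u ≠ c v) * (z u * z v) - |J u v|)
      = (N ^ 2 - ∑ i, sz H c i ^ 2) - ∑ u, ∑ v, |J u v| := by
    have a1 : ∀ u, ∑ v, (chi (u ∈ H ∧ v ∈ H ∧ c u ≠ c v) * (z u * z v) - |J u v|) =
        chi (u ∈ H) * (z u * (∑ v ∈ H, z v - cs z H c (c u))) - ∑ v, |J u v| := by
      intro u
      rw [Finset.sum_sub_distrib]
      congr 1
      have a2 := CSE.row1 H c z u
      calc ∑ v, chi (u ∈ H ∧ v ∈ H ∧ c u ≠ c v) * (z u * z v)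
          = z u * ∑ v, chi (u ∈ H ∧ v ∈ H ∧ c u ≠ c v) * z v := by
            rw [Finset.mul_sum]; exact Finset.sum_congr rfl fun v _ => by ring
        _ = _ := by rw [a2]; ring
    rw [Finset.sum_congr rfl fun u _ => a1 u, Finset.sum_sub_distrib, chi_sum, sum_cs, h2]
    simp only [h3]
  rw [h8] at h7
  have h9 := hF.Jt
  have h10 : ∑ i, sz H c i ^ 2 ≤ (N : ℝ) ^ 2 / r + r := by
    have b1 : ∀ i, sz H c i ^ 2 ≤ 1 + 2 * (N / r) * sz H c i - (N / r) ^ 2 := by
      intro i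
      have b2 := THRD.bal_near hr hH hb i
      have b3 : (sz H c i - N / r) ^ 2 ≤ 1 ^ 2 := sq_le_sq' (by
        have := (abs_le.1 b2).1; linarith) (abs_le.1 b2).2
      nlinarith
    have b4 : ∑ i, sz H c i ^ 2 ≤
        ∑ i : Fin r, (1 + 2 * (N / r) * sz H c i - (N / r : ℝ) ^ 2) :=
      Finset.sum_le_sum fun i _ => b1 i
    have b5 : ∑ i : Fin r, 2 * ((N : ℝ) / r) * sz H c i = 2 * ((N : ℝ) / r) * N := by
      rw [← Finset.mul_sum, sz_sum, hH]
    rw [Finset.sum_sub_distrib, Finset.sum_add_distrib, b5, Finset.sum_const,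
      Finset.sum_const, Finset.card_univ, Fintype.card_fin, nsmul_eq_mul, nsmul_eq_mul] at b4
    have b6 : (r : ℝ) * (N / r : ℝ) ^ 2 = (N : ℝ) ^ 2 / r := by
      field_simp
    have b7 : 2 * ((N : ℝ) / r) * N = 2 * ((N : ℝ) ^ 2 / r) := by ring
    rw [b6, b7] at b4
    linarith
  have h11 : (al r * N - 3 * r) * N ≤ lam * N := by
    have b1 : al r * (N : ℝ) * N = (N : ℝ) ^ 2 - (N : ℝ) ^ 2 / r := by unfold al; ring
    have b2 : 3 * (r : ℝ) ≤ 3 * r * N := by nlinarith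
    nlinarith
  exact le_of_mul_le_mul_right h11 (by linarith)

theorem quad {G : SimpleGraph V} {H : Finset V} {c : V → Fin r} {w : V} {A : Finset V}
    {J : V → V → ℝ} {x : V → ℝ} {lam : ℝ} (hF : Fam G H c w A J) (hP : PV G x lam) :
    lam * ∑ v ∈ H, x v ^ 2 = ((∑ v ∈ H, x v) ^ 2 - ∑ i, cs x H c i ^ 2)
      + (x w * ∑ v ∈ A, x v + ∑ v ∈ H, x v * ∑ z, J v z * x z) := by
  obtain ⟨e1, -, -, -⟩ := pCSE r V G H c w A J x lam hF hP
  have h1 : ∀ v ∈ H, lam * x v ^ 2 = x v * (∑ u ∈ H, x u - cs x H c (c v))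
      + x w * (chi (v ∈ A) * x v) + x v * ∑ z, J v z * x z := by
    intro v hv
    have : lam * x v ^ 2 = x v * (lam * x v) := by ring
    rw [this, e1 v hv]; ring
  rw [Finset.mul_sum, Finset.sum_congr rfl h1, Finset.sum_add_distrib, Finset.sum_add_distrib,
    sum_cs, ← Finset.mul_sum, chi_sub hF.hA]
  ring

theorem upper (hr : 3 ≤ r) {H : Finset V} {c : V → Fin r} {x : V → ℝ} {lam R0 M : ℝ}
    {N : ℕ} (hN : 1 ≤ N) (hH : H.card = N) (hS : 0 < ∑ v ∈ H, x v)
    (hE : lam * ∑ v ∈ H, x v ^ 2 = ((∑ v ∈ H, x v) ^ 2 - ∑ i, cs x H c i ^ 2) + R0)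
    (hR : R0 ≤ lam * M * (∑ v ∈ H, x v) ^ 2) (hl : 0 < lam) (hM : 0 ≤ M) :
    lam - al r * N ≤ N * (lam * M) := by
  have hr0 : (0 : ℝ) < r := by
    have : 0 < r := by omega
    exact_mod_cast this
  have hn1 : (1 : ℝ) ≤ N := by exact_mod_cast hN
  have hn0 : (0 : ℝ) < N := by linarith
  obtain ⟨S, hSd⟩ : ∃ S, S = ∑ v ∈ H, x v := ⟨_, rfl⟩
  obtain ⟨q, hq⟩ : ∃ q, q = ∑ v ∈ H, x v ^ 2 := ⟨_, rfl⟩
  have h3 : S ^ 2 ≤ N * q := by
    have := sq_sum_le_card_mul_sum_sq (s := H) (f := x)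
    rw [hH] at this
    rw [hSd, hq]; exact this
  have h6 : S ^ 2 ≤ r * ∑ i, cs x H c i ^ 2 := by
    have h7 : ∑ i, cs x H c i = ∑ v ∈ H, x v := sum_cl H c x
    have h8 := sq_sum_le_card_mul_sum_sq (s := (Finset.univ : Finset (Fin r)))
      (f := fun i => cs x H c i)
    rw [h7, Finset.card_univ, Fintype.card_fin] at h8
    rw [hSd]; exact h8
  have h13 : S ^ 2 / r ≤ ∑ i, cs x H c i ^ 2 := by
    rw [div_le_iff₀ hr0]; linarith
  have h15 : S ^ 2 - S ^ 2 / r = al r * S ^ 2 := by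
    unfold al; ring
  rw [← hSd] at hS hE hR
  rw [← hq] at hE
  have hal : 0 ≤ al r := by linarith [al_ge hr]
  have h16 : al r * S ^ 2 ≤ al r * (N * q) := mul_le_mul_of_nonneg_left h3 hal
  have h17 : (lam - al r * N) * q ≤ lam * M * S ^ 2 := by nlinarith
  by_cases hc : lam - al r * N ≤ 0
  · have : 0 ≤ (N : ℝ) * (lam * M) := by positivity
    linarith
  · have hc' : 0 < lam - al r * N := not_le.mp hc
    have h18 : (lam - al r * N) * S ^ 2 ≤ (N * (lam * M)) * S ^ 2 := by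
      calc (lam - al r * N) * S ^ 2 ≤ (lam - al r * N) * (N * q) :=
            mul_le_mul_of_nonneg_left h3 hc'.le
        _ = N * ((lam - al r * N) * q) := by ring
        _ ≤ N * (lam * M * S ^ 2) := mul_le_mul_of_nonneg_left h17 hn0.le
        _ = (N * (lam * M)) * S ^ 2 := by ring
    exact le_of_mul_le_mul_right h18 (by positivity)

/-- the equations divided by `S` -/
theorem core {G : SimpleGraph V} {H : Finset V} {c : V → Fin r} {w : V} {A : Finset V}
    {J : V → V → ℝ} {x : V → ℝ} {lam S : ℝ} (hF : Fam G H c w A J) (hP : PV G x lam)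
    (hS : S = ∑ v ∈ H, x v) (hS0 : 0 < S) (hl : 0 < lam)
    (hD : 0 < lam ^ 2 - ∑ i, sz A c i + ∑ i, sz A c i ^ 2 / (lam + sz H c i)) :
    Ph (sz H c) lam + FF lam (sz H c) (sz A c)
      = -(∑ i, ((∑ v ∈ cl H c i, ∑ z, J v z * x z) / S) / (lam + sz H c i))
      - ((∑ v ∈ A, ∑ z, J v z * x z) / S + lam * ((∑ z, J w z * x z) / S)
        - ∑ i, sz A c i * (((∑ v ∈ cl H c i, ∑ z, J v z * x z) / S) / (lam + sz H c i)))
        * (∑ i, sz A c i / (lam + sz H c i))
        / (lam ^ 2 - ∑ i, sz A c i + ∑ i, sz A c i ^ 2 / (lam + sz H c i)) := by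
  obtain ⟨e1, e2, e3, -⟩ := pCSE r V G H c w A J x lam hF hP
  rw [← hS] at e1 e2
  have hne := hS0.ne'
  refine alg (X := x w / S) (Y := (∑ v ∈ A, x v) / S) (t := fun i => cs x H c i / S) ?_ hD ?_ ?_
    ?_ ?_
  · intro i
    have : 0 ≤ sz H c i := Nat.cast_nonneg _
    linarith
  · intro i
    have h := e2 i
    field_simp
    linarith
  · have h6 : ∑ i, cs x H c i = S := by rw [hS]; exact sum_cl H c x
    rw [← Finset.sum_div, h6, div_self hne]
  · rw [← add_div, ← e3]; ring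
  · have h7 : lam * ∑ v ∈ A, x v = ∑ i, sz A c i * (S - cs x H c i) + (∑ i, sz A c i) * x w
        + ∑ v ∈ A, ∑ z, J v z * x z := by
      rw [← sum_class A c (fun i => S - cs x H c i), sz_sum, Finset.mul_sum]
      have h8 : ∀ v ∈ A, lam * x v = (S - cs x H c (c v)) + x w + ∑ z, J v z * x z := by
        intro v hv
        rw [e1 v (hF.hA hv), chi_pos hv, one_mul]
      rw [Finset.sum_congr rfl h8, Finset.sum_add_distrib, Finset.sum_add_distrib,
        Finset.sum_const, nsmul_eq_mul]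
    have h9 : ∑ i, sz A c i * (1 - cs x H c i / S) = (∑ i, sz A c i * (S - cs x H c i)) / S := by
      rw [Finset.sum_div]
      refine Finset.sum_congr rfl fun i _ => ?_
      field_simp
    rw [h9, ← mul_div_assoc, h7]
    field_simp


omit [Fintype V] in
theorem sz_nonneg (S : Finset V) (c : V → Fin r) (i : Fin r) : 0 ≤ sz S c i := Nat.cast_nonneg _

omit [Fintype V] in
theorem sz_mono {A H : Finset V} (hA : A ⊆ H) (c : V → Fin r) (i : Fin r) :
    sz A c i ≤ sz H c i := by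
  unfold sz
  have : cl A c i ⊆ cl H c i := fun v hv => mem_cl.2 ⟨hA (mem_cl.1 hv).1, (mem_cl.1 hv).2⟩
  exact_mod_cast Finset.card_le_card this

/-- bounds of `T` and of the denominator -/
theorem TD {H A : Finset V} {c : V → Fin r} {lam : ℝ} {N : ℕ} (hA : A ⊆ H) (hH : H.card = N)
    (hN : (8 : ℝ) ≤ N) (hl : (N : ℝ) / 2 ≤ lam) :
    0 ≤ ∑ i, sz A c i / (lam + sz H c i) ∧ ∑ i, sz A c i / (lam + sz H c i) ≤ r ∧
      (N : ℝ) ^ 2 / 8 ≤ lam ^ 2 - ∑ i, sz A c i + ∑ i, sz A c i ^ 2 / (lam + sz H c i) := by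
  have hlam : 0 < lam := by linarith
  have hP : ∀ i, 0 < lam + sz H c i := fun i => by have := sz_nonneg H c i; linarith
  refine ⟨Finset.sum_nonneg fun i _ => div_nonneg (sz_nonneg A c i) (hP i).le, ?_, ?_⟩
  · calc ∑ i, sz A c i / (lam + sz H c i) ≤ ∑ _i : Fin r, (1 : ℝ) := by
          refine Finset.sum_le_sum fun i _ => ?_
          rw [div_le_one (hP i)]
          have := sz_mono hA c i
          linarith
      _ = r := by simp
  · have h1 : 0 ≤ ∑ i, sz A c i ^ 2 / (lam + sz H c i) :=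
      Finset.sum_nonneg fun i _ => div_nonneg (sq_nonneg _) (hP i).le
    have h2 : ∑ i, sz A c i ≤ N := by
      rw [sz_sum, ← hH]
      exact_mod_cast Finset.card_le_card hA
    have h3 : ((N : ℝ) / 2) ^ 2 ≤ lam ^ 2 := pow_le_pow_left₀ (by linarith) hl 2
    nlinarith

theorem rest {ρ T D κ n q : ℝ} (hn : 0 < n) (hρ : |ρ| ≤ κ / n) (hT : 0 ≤ T) (hT' : T ≤ q)
    (hD : n ^ 2 / 8 ≤ D) : |ρ * T / D| ≤ 8 * q * κ / n ^ 3 := by
  have hn2 : 0 < n ^ 2 / 8 := by positivity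
  have hD0 : 0 < D := by linarith
  have hκ : 0 ≤ κ / n := (abs_nonneg _).trans hρ
  rw [abs_div, abs_mul, abs_of_nonneg hT, abs_of_pos hD0]
  calc |ρ| * T / D ≤ κ / n * q / (n ^ 2 / 8) := by
        apply div_le_div₀ (mul_nonneg hκ (hT.trans hT')) _ hn2 hD
        exact mul_le_mul hρ hT' hT hκ
    _ = 8 * q * κ / n ^ 3 := by
        field_simp

theorem inv_bound {n P B : ℝ} (hn : 2 ≤ n) (hP : n / 2 ≤ P) (hB : |P - n| ≤ B) :
    |1 / P - 1 / n| ≤ 2 * B / n ^ 2 := by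
  have hn0 : 0 < n := by linarith
  have hP0 : 0 < P := by linarith
  have e : 1 / P - 1 / n = (n - P) / (P * n) := by field_simp
  have hB0 : 0 ≤ B := (abs_nonneg _).trans hB
  rw [e, abs_div, abs_of_pos (by positivity : 0 < P * n), abs_sub_comm]
  calc |P - n| / (P * n) ≤ B / (n / 2 * n) := by
        apply div_le_div₀ hB0 hB (by positivity)
        exact mul_le_mul_of_nonneg_right hP hn0.le
    _ = 2 * B / n ^ 2 := by field_simp

/-- the entries at `v1`, `v2` -/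
theorem x1_bound {n lam P m B X X1 X2 t : ℝ} (hn : 2 ≤ n) (hl : n / 2 ≤ lam) (hm : 0 ≤ m)
    (hPm : P = lam + m) (hB : |P - n| ≤ B) (h1 : lam * X1 = 1 - t + X - X2)
    (h2 : P * t = m + X - X2) (h3 : |X - X2| ≤ 2 / lam) :
    |X1 - 1 / n| ≤ (8 + 2 * B) / n ^ 2 ∧ |X1 / P - 1 / n ^ 2| ≤ (16 + 6 * B) / n ^ 3 := by
  have hn0 : 0 < n := by linarith
  have hlam : 0 < lam := by linarith
  have hP1 : 1 ≤ P := by linarith
  have hP0 : 0 < P := by linarith
  have hPn : n / 2 ≤ P := by linarith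
  have hB0 : 0 ≤ B := (abs_nonneg _).trans hB
  have e1 : X1 - 1 / P = (X - X2) * (1 - 1 / P) / lam := by
    have ht : t = (m + X - X2) / P := by rw [eq_div_iff hP0.ne']; linarith
    have hX1 : X1 = (1 - t + X - X2) / lam := by rw [eq_div_iff hlam.ne']; linarith
    rw [hX1, ht]
    field_simp
    rw [hPm]; ring
  have hq : 0 ≤ 1 - 1 / P ∧ 1 - 1 / P ≤ 1 := by
    have : 1 / P ≤ 1 := by rw [div_le_one hP0]; exact hP1
    have : 0 ≤ 1 / P := by positivity
    constructor <;> linarith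
  have e2 : |X1 - 1 / P| ≤ 8 / n ^ 2 := by
    rw [e1, abs_div, abs_mul, abs_of_pos hlam, abs_of_nonneg hq.1]
    calc |X - X2| * (1 - 1 / P) / lam ≤ 2 / lam * 1 / lam := by
          apply div_le_div_of_nonneg_right _ hlam.le
          exact mul_le_mul h3 hq.2 hq.1 (by positivity)
      _ = 2 / lam ^ 2 := by field_simp
      _ ≤ 2 / (n / 2) ^ 2 := by
          apply div_le_div_of_nonneg_left (by norm_num) (by positivity)
          exact pow_le_pow_left₀ (by linarith) hl 2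
      _ = 8 / n ^ 2 := by field_simp; norm_num
  have e3 := inv_bound hn hPn hB
  have e4 : |X1 - 1 / n| ≤ (8 + 2 * B) / n ^ 2 := by
    have : X1 - 1 / n = (X1 - 1 / P) + (1 / P - 1 / n) := by ring
    rw [this]
    calc |(X1 - 1 / P) + (1 / P - 1 / n)| ≤ |X1 - 1 / P| + |1 / P - 1 / n| := abs_add_le _ _
      _ ≤ 8 / n ^ 2 + 2 * B / n ^ 2 := add_le_add e2 e3
      _ = _ := by ring
  refine ⟨e4, ?_⟩
  have e5 : X1 / P - 1 / n ^ 2 = (X1 - 1 / n) / P + (1 / n) * (1 / P - 1 / n) := by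
    field_simp; ring
  rw [e5]
  calc |(X1 - 1 / n) / P + (1 / n) * (1 / P - 1 / n)|
      ≤ |(X1 - 1 / n) / P| + |(1 / n) * (1 / P - 1 / n)| := abs_add_le _ _
    _ = |X1 - 1 / n| / P + (1 / n) * |1 / P - 1 / n| := by
        rw [abs_div, abs_mul, abs_of_pos hP0, abs_of_pos (by positivity : 0 < 1 / n)]
    _ ≤ (8 + 2 * B) / n ^ 2 / (n / 2) + (1 / n) * (2 * B / n ^ 2) := by
        apply add_le_add
        · exact div_le_div₀ (by positivity) e4 (by positivity) hPn
        · exact mul_le_mul_of_nonneg_left e3 (by positivity)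
    _ = (16 + 6 * B) / n ^ 3 := by field_simp; ring

theorem half {r : ℕ} {n lam : ℝ} (hr : 3 ≤ r) (hn : 18 * (r : ℝ) ≤ n)
    (h : al r * n - 3 * r ≤ lam) : n / 2 ≤ lam := by
  have h1 := al_ge hr
  have h2 : (3 : ℝ) ≤ r := by exact_mod_cast hr
  nlinarith

theorem P_near {H : Finset V} {c : V → Fin r} {lam C : ℝ} {N : ℕ} (hr : 3 ≤ r)
    (hH : H.card = N) (hb : Bal H c) (h : |lam - al r * N| ≤ C) (i : Fin r) :
    |lam + sz H c i - N| ≤ C + 1 := by
  have h1 := THRD.bal_near hr hH hb i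
  have e : lam + sz H c i - N = (lam - al r * N) + (sz H c i - N / r) := by
    unfold al; ring
  rw [e]
  exact (abs_add_le _ _).trans (add_le_add h h1)

/-- type D -/
theorem caseD (hr : 3 ≤ r) {G : SimpleGraph V} {N : ℕ} {H : Finset V} {c : V → Fin r} {w : V}
    {A : Finset V} {v1 v2 : V} {x : V → ℝ} {lam : ℝ} (hN : 18 * r ≤ N)
    (hW : WD G N H c w A v1 v2) (hb : Bal H c) (hx : PV G x lam) :
    |lam - al r * N| ≤ 3 * r ∧
    |Ph (sz H c) lam + FF lam (sz H c) (sz A c) - 2 / (N : ℝ) ^ 2|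
      ≤ 1000 * (r : ℝ) ^ 2 / (N : ℝ) ^ 3 := by
  classical
  have hrR : (3 : ℝ) ≤ r := by exact_mod_cast hr
  have hNR : 18 * (r : ℝ) ≤ N := by exact_mod_cast hN
  have hN0 : (54 : ℝ) ≤ N := by linarith
  have hN1 : 1 ≤ N := by omega
  have hF := (pFAM r hr V G N H c w A).1 v1 v2 hW
  have hlow := lower hr hN1 hW.card hF hb hx
  have hl := half hr hNR hlow
  have hlam : 0 < lam := by linarith
  have hlam1 : 1 ≤ lam := by linarith
  obtain ⟨hv1H, hv2H, hv12, -⟩ := SM1b.wd_pair hW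
  have hv1A : v1 ∈ A := by
    have : v1 ∈ cl A c (c v1) := by rw [hW.h1]; exact Finset.mem_singleton_self _
    exact (mem_cl.mp this).1
  have hv2A : v2 ∈ A := by
    have : v2 ∈ cl A c (c v2) := by rw [hW.h2]; exact Finset.mem_singleton_self _
    exact (mem_cl.mp this).1
  have ha1 : sz A c (c v1) = 1 := by unfold sz; rw [hW.h1]; simp
  have ha2 : sz A c (c v2) = 1 := by unfold sz; rw [hW.h2]; simp
  obtain ⟨e1, e2, e3, e4⟩ := pCSE r V G H c w A _ x lam hF hx
  have hwv1 : w ≠ v1 := fun h => hW.hw (h ▸ hv1H)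
  have hwv2 : w ≠ v2 := fun h => hW.hw (h ▸ hv2H)
  have hJw : ∑ z, JD v1 v2 w z * x z = 0 := by
    rw [D3.JD_sum, chi_neg hwv1, chi_neg hwv2]; ring
  obtain ⟨S, hS⟩ : ∃ S, S = ∑ u ∈ H, x u := ⟨_, rfl⟩
  have e3' : lam * x w = ∑ v ∈ A, x v := by rw [e3, hJw, add_zero]
  rw [← hS] at e1 e2
  have hS0 : 0 ≤ S := by rw [hS]; exact Finset.sum_nonneg fun v _ => hx.nn v
  have hSpos : 0 < S := by
    rcases hS0.lt_or_eq with h | h
    · exact h
    · exfalso
      have hz : ∀ v ∈ H, x v = 0 :=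
        (Finset.sum_eq_zero_iff_of_nonneg fun v _ => hx.nn v).mp (hS.symm.trans h.symm)
      have hw0 : x w = 0 := by
        have : ∑ v ∈ A, x v = 0 := Finset.sum_eq_zero fun v hv => hz v (hW.hA hv)
        rw [this] at e3'
        rcases mul_eq_zero.mp e3' with h' | h'
        · linarith
        · exact h'
      have hall : ∀ v, x v = 0 := by
        intro v
        by_cases hv : v ∈ H
        · exact hz v hv
        · by_cases hvw : v = w
          · rw [hvw]; exact hw0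
          · have h6 := e4 v hv hvw
            rw [D3.JD_sum, hz v1 hv1H, hz v2 hv2H] at h6
            have : lam * x v = 0 := by rw [h6]; ring
            rcases mul_eq_zero.mp this with h' | h'
            · linarith
            · exact h'
      have := hx.unit
      simp [hall] at this
  have hSne := hSpos.ne'
  obtain ⟨X, hX⟩ : ∃ X, X = x w / S := ⟨_, rfl⟩
  obtain ⟨X1, hX1⟩ : ∃ X1, X1 = x v1 / S := ⟨_, rfl⟩
  obtain ⟨X2, hX2⟩ : ∃ X2, X2 = x v2 / S := ⟨_, rfl⟩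
  have xw : x w = X * S := by rw [hX]; field_simp
  have x1 : x v1 = X1 * S := by rw [hX1]; field_simp
  have x2 : x v2 = X2 * S := by rw [hX2]; field_simp
  have hX0 : 0 ≤ X := by rw [hX]; exact div_nonneg (hx.nn _) hS0
  have hX10 : 0 ≤ X1 := by rw [hX1]; exact div_nonneg (hx.nn _) hS0
  have hX20 : 0 ≤ X2 := by rw [hX2]; exact div_nonneg (hx.nn _) hS0
  obtain ⟨t, ht⟩ : ∃ t : Fin r → ℝ, t = fun i => cs x H c i / S := ⟨_, rfl⟩
  have hcs : ∀ i, cs x H c i = t i * S := by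
    intro i; rw [ht]; simp only; rw [div_mul_cancel₀ _ hSne]
  have ht0 : ∀ i, 0 ≤ t i := by
    intro i; rw [ht]
    exact div_nonneg (Finset.sum_nonneg fun v _ => hx.nn v) hS0
  have hJi : ∀ i, (∑ v ∈ cl H c i, ∑ z, JD v1 v2 v z * x z) / S
      = -(chi (c v1 = i) * X2) - chi (c v2 = i) * X1 := by
    intro i
    have h7 : ∑ v ∈ cl H c i, ∑ z, JD v1 v2 v z * x z
        = -(chi (c v1 = i) * x v2) - chi (c v2 = i) * x v1 := by
      rw [Finset.sum_congr rfl fun v _ => D3.JD_sum v1 v2 x v, Finset.sum_sub_distrib,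
        Finset.sum_neg_distrib, sum_cl_chi H c v1 hv1H, sum_cl_chi H c v2 hv2H]
    rw [h7, x1, x2]; field_simp
  have hJA : (∑ v ∈ A, ∑ z, JD v1 v2 v z * x z) / S = -X2 - X1 := by
    have h7 : ∑ v ∈ A, ∑ z, JD v1 v2 v z * x z = -(x v2) - x v1 := by
      rw [Finset.sum_congr rfl fun v _ => D3.JD_sum v1 v2 x v, Finset.sum_sub_distrib,
        Finset.sum_neg_distrib]
      have h8 : ∀ (p : V) (y : ℝ), p ∈ A → ∑ v ∈ A, chi (v = p) * y = y := by
        intro p y hp
        rw [Finset.sum_eq_single p]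
        · rw [chi_pos rfl, one_mul]
        · intro b _ hb
          rw [chi_neg hb, zero_mul]
        · intro h'; exact absurd hp h'
      rw [h8 v1 _ hv1A, h8 v2 _ hv2A]
    rw [h7, x1, x2]; field_simp
  -- class sums of the classes of `v1`, `v2`
  have ecs1 : (lam + sz H c (c v1)) * t (c v1) = sz H c (c v1) + X - X2 := by
    have h6 := e2 (c v1)
    have h7 := hJi (c v1)
    rw [div_eq_iff hSne, chi_pos rfl, chi_neg (fun h => hW.h12 h.symm)] at h7
    rw [h7, ha1, hcs, xw] at h6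
    have h9 : ((lam + sz H c (c v1)) * t (c v1)) * S = (sz H c (c v1) + X - X2) * S := by
      linarith
    exact mul_right_cancel₀ hSne h9
  have ecs2 : (lam + sz H c (c v2)) * t (c v2) = sz H c (c v2) + X - X1 := by
    have h6 := e2 (c v2)
    have h7 := hJi (c v2)
    rw [div_eq_iff hSne, chi_pos rfl, chi_neg hW.h12] at h7
    rw [h7, ha2, hcs, xw] at h6
    have h9 : ((lam + sz H c (c v2)) * t (c v2)) * S = (sz H c (c v2) + X - X1) * S := by
      linarith
    exact mul_right_cancel₀ hSne h9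
  have lX1 : lam * X1 = 1 - t (c v1) + X - X2 := by
    have h6 := e1 v1 hv1H
    rw [D3.JD_sum, chi_pos hv1A, chi_pos rfl, chi_neg hv12, hcs, xw, x1, x2] at h6
    have h7 : (lam * X1) * S = (1 - t (c v1) + X - X2) * S := by linarith
    exact mul_right_cancel₀ hSne h7
  have lX2 : lam * X2 = 1 - t (c v2) + X - X1 := by
    have h6 := e1 v2 hv2H
    rw [D3.JD_sum, chi_pos hv2A, chi_pos rfl, chi_neg hv12.symm, hcs, xw, x1, x2] at h6
    have h7 : (lam * X2) * S = (1 - t (c v2) + X - X1) * S := by linarith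
    exact mul_right_cancel₀ hSne h7
  -- bounds
  have hlX : lam * X ≤ 1 := by
    have h6 : lam * x w ≤ S := by
      rw [e3', hS]
      exact Finset.sum_le_sum_of_subset_of_nonneg hW.hA fun v _ _ => hx.nn v
    rw [xw] at h6
    have h7 : (lam * X) * S ≤ 1 * S := by linarith
    exact le_of_mul_le_mul_right h7 hSpos
  have hX1' : X ≤ 1 := by nlinarith
  have hlX1 : lam * X1 ≤ 2 := by have := ht0 (c v1); linarith
  have hlX2 : lam * X2 ≤ 2 := by have := ht0 (c v2); linarith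
  have bX : X ≤ 1 / lam := by rw [le_div_iff₀ hlam]; linarith
  have bX1 : X1 ≤ 2 / lam := by rw [le_div_iff₀ hlam]; linarith
  have bX2 : X2 ≤ 2 / lam := by rw [le_div_iff₀ hlam]; linarith
  have b12 : (1 : ℝ) / lam ≤ 2 / lam := by
    apply div_le_div_of_nonneg_right (by norm_num) hlam.le
  have bl : 2 / lam ≤ 4 / N := by
    rw [div_le_div_iff₀ hlam (by linarith)]; linarith
  have ab1 : |X - X2| ≤ 2 / lam := by rw [abs_le]; constructor <;> linarith
  have ab2 : |X - X1| ≤ 2 / lam := by rw [abs_le]; constructor <;> linarith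
  -- upper bound of `lam`
  have hup : lam - al r * N ≤ 2 := by
    have hq := quad hF hx
    have hR : x w * ∑ v ∈ A, x v + ∑ v ∈ H, x v * ∑ z, JD v1 v2 v z * x z
        ≤ lam * X ^ 2 * (∑ v ∈ H, x v) ^ 2 := by
      have h8 : ∑ v ∈ H, x v * ∑ z, JD v1 v2 v z * x z ≤ 0 := by
        refine Finset.sum_nonpos fun v _ => ?_
        rw [D3.JD_sum]
        have a1 := mul_nonneg (chi_nonneg (v = v1)) (hx.nn v2)
        have a2 := mul_nonneg (chi_nonneg (v = v2)) (hx.nn v1)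
        have a3 := hx.nn v
        have : x v * (-(chi (v = v1) * x v2) - chi (v = v2) * x v1)
            = -(x v * (chi (v = v1) * x v2 + chi (v = v2) * x v1)) := by ring
        rw [this]
        have := mul_nonneg a3 (add_nonneg a1 a2)
        linarith
      rw [← e3', ← hS]
      have h9 : x w * (lam * x w) = lam * X ^ 2 * S ^ 2 := by rw [xw]; ring
      linarith
    have h10 := upper hr hN1 hW.card (hS ▸ hSpos) hq hR hlam (sq_nonneg X)
    have h11 : (N : ℝ) * (lam * X ^ 2) ≤ 2 := by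
      have a1 : lam * X ^ 2 ≤ X := by
        have : lam * X ^ 2 = (lam * X) * X := by ring
        rw [this]; nlinarith
      have a2 : (N : ℝ) * X ≤ 2 := by nlinarith
      have a3 : (0 : ℝ) ≤ N := by linarith
      nlinarith
    linarith
  have habs : |lam - al r * N| ≤ 3 * r := by rw [abs_le]; constructor <;> linarith
  refine ⟨habs, ?_⟩
  obtain ⟨hT0, hT1, hD⟩ := TD (c := c) (lam := lam) hW.hA hW.card (by linarith) hl
  have hDpos : 0 < lam ^ 2 - ∑ i, sz A c i + ∑ i, sz A c i ^ 2 / (lam + sz H c i) := by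
    have : (0 : ℝ) < (N : ℝ) ^ 2 / 8 := by positivity
    linarith
  have hcore := core hF hx hS hSpos hlam hDpos
  obtain ⟨D, hDd⟩ : ∃ D, D = lam ^ 2 - ∑ i, sz A c i + ∑ i, sz A c i ^ 2 / (lam + sz H c i) :=
    ⟨_, rfl⟩
  obtain ⟨T, hTd⟩ : ∃ T, T = ∑ i, sz A c i / (lam + sz H c i) := ⟨_, rfl⟩
  obtain ⟨P1, hP1⟩ : ∃ P1, P1 = lam + sz H c (c v1) := ⟨_, rfl⟩
  obtain ⟨P2, hP2⟩ : ∃ P2, P2 = lam + sz H c (c v2) := ⟨_, rfl⟩
  have hP1l : 1 ≤ P1 := by have := sz_nonneg H c (c v1); linarith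
  have hP2l : 1 ≤ P2 := by have := sz_nonneg H c (c v2); linarith
  have s1 : ∑ i, ((∑ v ∈ cl H c i, ∑ z, JD v1 v2 v z * x z) / S) / (lam + sz H c i)
      = -(X2 / P1) - X1 / P2 := by
    have h6 : ∀ i, ((∑ v ∈ cl H c i, ∑ z, JD v1 v2 v z * x z) / S) / (lam + sz H c i)
        = -(chi (c v1 = i) * (X2 / (lam + sz H c i))) - chi (c v2 = i) * (X1 / (lam + sz H c i)) := by
      intro i; rw [hJi]; ring
    rw [Finset.sum_congr rfl fun i _ => h6 i, Finset.sum_sub_distrib, Finset.sum_neg_distrib,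
      sum_chi, sum_chi, hP1, hP2]
  have s2 : ∑ i, sz A c i * (((∑ v ∈ cl H c i, ∑ z, JD v1 v2 v z * x z) / S)
      / (lam + sz H c i)) = -(X2 / P1) - X1 / P2 := by
    have h6 : ∀ i, sz A c i * (((∑ v ∈ cl H c i, ∑ z, JD v1 v2 v z * x z) / S)
        / (lam + sz H c i))
        = -(chi (c v1 = i) * (sz A c i * (X2 / (lam + sz H c i))))
          - chi (c v2 = i) * (sz A c i * (X1 / (lam + sz H c i))) := by
      intro i; rw [hJi]; ring
    rw [Finset.sum_congr rfl fun i _ => h6 i, Finset.sum_sub_distrib, Finset.sum_neg_distrib,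
      sum_chi, sum_chi, hP1, hP2, ha1, ha2, one_mul, one_mul]
  rw [s1, s2, hJA, hJw, zero_div, mul_zero, add_zero, ← hDd, ← hTd] at hcore
  rw [← hDd] at hD
  rw [← hTd] at hT0 hT1
  have hn2 : (2 : ℝ) ≤ N := by linarith
  obtain ⟨-, k1⟩ := x1_bound (n := N) (lam := lam) (P := P1) (B := 3 * r + 1) hn2 hl
    (sz_nonneg H c (c v1)) hP1 (by rw [hP1]; exact P_near hr hW.card hb habs _) lX1
    (by rw [hP1]; exact ecs1) ab1
  obtain ⟨k3, -⟩ := x1_bound (n := N) (lam := lam) (P := P1) (B := 3 * r + 1) hn2 hl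
    (sz_nonneg H c (c v1)) hP1 (by rw [hP1]; exact P_near hr hW.card hb habs _) lX1
    (by rw [hP1]; exact ecs1) ab1
  obtain ⟨k4, k2⟩ := x1_bound (n := N) (lam := lam) (P := P2) (B := 3 * r + 1) hn2 hl
    (sz_nonneg H c (c v2)) hP2 (by rw [hP2]; exact P_near hr hW.card hb habs _) lX2
    (by rw [hP2]; exact ecs2) ab2
  -- the crossed quotients
  have cross : ∀ Y P : ℝ, 1 ≤ P → (N : ℝ) / 2 ≤ P → |P - N| ≤ 3 * r + 1 →
      |Y - 1 / N| ≤ (8 + 2 * (3 * r + 1)) / (N : ℝ) ^ 2 →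
      |Y / P - 1 / (N : ℝ) ^ 2| ≤ (16 + 6 * (3 * r + 1)) / (N : ℝ) ^ 3 := by
    intro Y P hp1 hp2 hp3 hy
    have hn0 : (0 : ℝ) < N := by linarith
    have hp0 : 0 < P := by linarith
    have e5 : Y / P - 1 / (N : ℝ) ^ 2 = (Y - 1 / N) / P + (1 / N) * (1 / P - 1 / N) := by
      field_simp; ring
    have e6 := inv_bound hn2 hp2 hp3
    rw [e5]
    calc |(Y - 1 / (N : ℝ)) / P + (1 / N) * (1 / P - 1 / N)|
        ≤ |(Y - 1 / (N : ℝ)) / P| + |(1 / (N : ℝ)) * (1 / P - 1 / N)| := abs_add_le _ _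
      _ = |Y - 1 / (N : ℝ)| / P + (1 / (N : ℝ)) * |1 / P - 1 / N| := by
          rw [abs_div, abs_mul, abs_of_pos hp0, abs_of_pos (by positivity : 0 < 1 / (N : ℝ))]
      _ ≤ (8 + 2 * (3 * r + 1)) / (N : ℝ) ^ 2 / (N / 2)
          + (1 / N) * (2 * (3 * r + 1) / (N : ℝ) ^ 2) := by
          apply add_le_add
          · exact div_le_div₀ (by positivity) hy (by positivity) hp2
          · exact mul_le_mul_of_nonneg_left e6 (by positivity)
      _ = (16 + 6 * (3 * r + 1)) / (N : ℝ) ^ 3 := by field_simp; ring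
  have m1 := cross X2 P1 hP1l (by rw [hP1]; have := sz_nonneg H c (c v1); linarith)
    (by rw [hP1]; exact P_near hr hW.card hb habs _) k4
  have m2 := cross X1 P2 hP2l (by rw [hP2]; have := sz_nonneg H c (c v2); linarith)
    (by rw [hP2]; exact P_near hr hW.card hb habs _) k3
  have hρ : |-X2 - X1 - (-(X2 / P1) - X1 / P2)| ≤ 8 / (N : ℝ) := by
    have a1 : 0 ≤ X2 / P1 := div_nonneg hX20 (by linarith)
    have a2 : 0 ≤ X1 / P2 := div_nonneg hX10 (by linarith)
    have a3 : X2 / P1 ≤ X2 := div_le_self hX20 hP1l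
    have a4 : X1 / P2 ≤ X1 := div_le_self hX10 hP2l
    have a5 : (8 : ℝ) / N = 4 / N + 4 / N := by ring
    rw [abs_le]
    constructor <;> linarith
  have hrest := rest (q := (r : ℝ)) (by linarith : (0 : ℝ) < N) hρ hT0 hT1 hD
  rw [hcore]
  have e9 : -(-(X2 / P1) - X1 / P2) - (-X2 - X1 - (-(X2 / P1) - X1 / P2)) * T / D
      - 2 / (N : ℝ) ^ 2 = (X2 / P1 - 1 / (N : ℝ) ^ 2) + (X1 / P2 - 1 / (N : ℝ) ^ 2)
      + -((-X2 - X1 - (-(X2 / P1) - X1 / P2)) * T / D) := by ring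
  rw [e9]
  calc |(X2 / P1 - 1 / (N : ℝ) ^ 2) + (X1 / P2 - 1 / (N : ℝ) ^ 2)
      + -((-X2 - X1 - (-(X2 / P1) - X1 / P2)) * T / D)|
      ≤ |X2 / P1 - 1 / (N : ℝ) ^ 2| + |X1 / P2 - 1 / (N : ℝ) ^ 2|
        + |-((-X2 - X1 - (-(X2 / P1) - X1 / P2)) * T / D)| := abs_add_three _ _ _
    _ ≤ (16 + 6 * (3 * r + 1)) / (N : ℝ) ^ 3 + (16 + 6 * (3 * r + 1)) / (N : ℝ) ^ 3
        + 8 * (r : ℝ) * 8 / (N : ℝ) ^ 3 := by
        rw [abs_neg]
        exact add_le_add (add_le_add m1 m2) hrest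
    _ = (44 + 100 * (r : ℝ)) / (N : ℝ) ^ 3 := by ring
    _ ≤ 1000 * (r : ℝ) ^ 2 / (N : ℝ) ^ 3 := by
        apply div_le_div_of_nonneg_right _ (by positivity)
        nlinarith

/-- type E -/
theorem caseE (hr : 3 ≤ r) {G : SimpleGraph V} {N : ℕ} {H : Finset V} {c : V → Fin r} {w : V}
    {A : Finset V} {u : V} {B : Finset V} {i0 : Fin r} {x : V → ℝ} {lam : ℝ} (hN : 18 * r ≤ N)
    (hW : WE G N H c w u A B i0) (hb : Bal H c) (hx : PV G x lam) :
    |lam - al r * N| ≤ 32 + 3 * r ∧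
    |Ph (sz H c) lam + FF lam (sz H c) (sz A c)| ≤ 1000 * (r : ℝ) ^ 2 / (N : ℝ) ^ 3 := by
  classical
  have hrR : (3 : ℝ) ≤ r := by exact_mod_cast hr
  have hNR : 18 * (r : ℝ) ≤ N := by exact_mod_cast hN
  have hN0 : (54 : ℝ) ≤ N := by linarith
  have hN1 : 1 ≤ N := by omega
  have hF := (pFAM r hr V G N H c w A).2 u B i0 hW
  have hlow := lower hr hN1 hW.card hF hb hx
  have hl := half hr hNR hlow
  have hlam : 0 < lam := by linarith
  have hlam1 : 27 ≤ lam := by linarith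
  obtain ⟨e1, e2, e3, e4⟩ := pCSE r V G H c w A _ x lam hF hx
  have hwB : w ∉ B := fun h => hW.hw (hW.hB h)
  have huB : u ∉ B := fun h => hW.hu (hW.hB h)
  have hJw : ∑ z, JE w u B w z * x z = x u := by
    rw [EB.JE_row, chi_neg hW.hwu, chi_neg hwB, chi_pos rfl]; ring
  have hJu : ∑ z, JE w u B u z * x z = ∑ v ∈ B, x v + x w := by
    rw [EB.JE_row, chi_pos rfl, chi_neg huB, chi_neg hW.hwu.symm]; ring
  have hJH : ∀ v ∈ H, ∑ z, JE w u B v z * x z = chi (v ∈ B) * x u := by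
    intro v hv
    have h1 : v ≠ u := fun h => hW.hu (h ▸ hv)
    have h2 : v ≠ w := fun h => hW.hw (h ▸ hv)
    rw [EB.JE_row, chi_neg h1, chi_neg h2]; ring
  obtain ⟨S, hS⟩ : ∃ S, S = ∑ u ∈ H, x u := ⟨_, rfl⟩
  obtain ⟨YA, hYA⟩ : ∃ YA, YA = ∑ v ∈ A, x v := ⟨_, rfl⟩
  obtain ⟨YB, hYB⟩ : ∃ YB, YB = ∑ v ∈ B, x v := ⟨_, rfl⟩
  have eu : lam * x u = YB + x w := by rw [e4 u hW.hu hW.hwu.symm, hJu, hYB]
  have ew : lam * x w = YA + x u := by rw [e3, hJw, hYA]
  have hYA0 : 0 ≤ YA := by rw [hYA]; exact Finset.sum_nonneg fun v _ => hx.nn v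
  have hYB0 : 0 ≤ YB := by rw [hYB]; exact Finset.sum_nonneg fun v _ => hx.nn v
  have hYAS : YA ≤ S := by
    rw [hYA, hS]; exact Finset.sum_le_sum_of_subset_of_nonneg hW.hA fun v _ _ => hx.nn v
  have hYBS : YB ≤ S := by
    rw [hYB, hS]; exact Finset.sum_le_sum_of_subset_of_nonneg hW.hB fun v _ _ => hx.nn v
  rw [← hS] at e1 e2
  have hS0 : 0 ≤ S := by rw [hS]; exact Finset.sum_nonneg fun v _ => hx.nn v
  have xu0 := hx.nn u
  have xw0 := hx.nn w
  have hsum : lam * (x w + x u) ≤ 4 * S := by nlinarith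
  have hSpos : 0 < S := by
    rcases hS0.lt_or_eq with h | h
    · exact h
    · exfalso
      have hz : ∀ v ∈ H, x v = 0 :=
        (Finset.sum_eq_zero_iff_of_nonneg fun v _ => hx.nn v).mp (hS.symm.trans h.symm)
      have h0 : x w + x u = 0 := by
        have : lam * (x w + x u) ≤ 0 := by rw [← h] at hsum; linarith
        have h' : x w + x u ≤ 0 := by
          by_contra hc
          have := mul_pos hlam (not_le.mp hc)
          linarith
        linarith
      have hw0 : x w = 0 := by linarith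
      have hu0 : x u = 0 := by linarith
      have hall : ∀ v, x v = 0 := by
        intro v
        by_cases hv : v ∈ H
        · exact hz v hv
        · by_cases hvw : v = w
          · rw [hvw]; exact hw0
          · by_cases hvu : v = u
            · rw [hvu]; exact hu0
            · have h6 := e4 v hv hvw
              have hvB : v ∉ B := fun h => hv (hW.hB h)
              rw [EB.JE_row, chi_neg hvu, chi_neg hvB, chi_neg hvw] at h6
              have : lam * x v = 0 := by rw [h6]; ring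
              rcases mul_eq_zero.mp this with h' | h'
              · linarith
              · exact h'
      have := hx.unit
      simp [hall] at this
  have hSne := hSpos.ne'
  obtain ⟨X, hX⟩ : ∃ X, X = x w / S := ⟨_, rfl⟩
  obtain ⟨U, hU⟩ : ∃ U, U = x u / S := ⟨_, rfl⟩
  have xw : x w = X * S := by rw [hX]; field_simp
  have xu : x u = U * S := by rw [hU]; field_simp
  have hX0 : 0 ≤ X := by rw [hX]; exact div_nonneg (hx.nn _) hS0
  have hU0 : 0 ≤ U := by rw [hU]; exact div_nonneg (hx.nn _) hS0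
  have hXU : lam * (X + U) ≤ 4 := by
    rw [xw, xu] at hsum
    have h7 : (lam * (X + U)) * S ≤ 4 * S := by linarith
    exact le_of_mul_le_mul_right h7 hSpos
  have hXU1 : X + U ≤ 1 := by nlinarith
  have hszB : ∀ i, sz B c i ≤ 1 := by
    intro i
    by_cases hi : i = i0
    · unfold sz; rw [hi, hW.hB0]; simp
    · unfold sz; rw [hW.hB1 i hi]; simp
  have hBcard : (B.card : ℝ) ≤ r := by
    rw [← sz_sum B c]
    calc ∑ i, sz B c i ≤ ∑ _i : Fin r, (1 : ℝ) := Finset.sum_le_sum fun i _ => hszB i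
      _ = r := by simp
  -- `U`
  have hYBb : lam * YB ≤ 2 * r * S := by
    have h6 : ∀ v ∈ B, lam * x v ≤ 2 * S := by
      intro v hv
      have h7 := e1 v (hW.hB hv)
      rw [hJH v (hW.hB hv), chi_pos hv, one_mul] at h7
      have h8 : 0 ≤ cs x H c (c v) := Finset.sum_nonneg fun v _ => hx.nn v
      have h9 : chi (v ∈ A) * x w ≤ x w := by
        have := chi_le_one (v ∈ A)
        nlinarith
      have h10 : x w + x u ≤ S := by
        rw [xw, xu]; nlinarith
      linarith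
    rw [hYB, Finset.mul_sum]
    calc ∑ v ∈ B, lam * x v ≤ ∑ _v ∈ B, 2 * S := Finset.sum_le_sum h6
      _ = B.card * (2 * S) := by rw [Finset.sum_const, nsmul_eq_mul]
      _ ≤ r * (2 * S) := mul_le_mul_of_nonneg_right hBcard (by linarith)
      _ = 2 * r * S := by ring
  have hUb : lam ^ 2 * U ≤ 2 * r + 4 := by
    have h6 : lam ^ 2 * x u = lam * YB + lam * x w := by
      have : lam ^ 2 * x u = lam * (lam * x u) := by ring
      rw [this, eu]; ring
    have h7 : lam * x w ≤ 4 * S := by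
      have := mul_nonneg hlam.le xu0
      linarith
    rw [xu] at h6
    have h8 : (lam ^ 2 * U) * S ≤ (2 * r + 4) * S := by linarith
    exact le_of_mul_le_mul_right h8 hSpos
  have hl2 : (N : ℝ) ^ 2 / 4 ≤ lam ^ 2 := by
    have := pow_le_pow_left₀ (by linarith : (0 : ℝ) ≤ N / 2) hl 2
    linarith
  have hUN : U ≤ (8 * r + 16) / (N : ℝ) ^ 2 := by
    rw [le_div_iff₀ (by positivity)]
    nlinarith
  -- upper bound of `lam`
  have hup : lam - al r * N ≤ 32 := by
    have hq := quad hF hx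
    have hR : x w * ∑ v ∈ A, x v + ∑ v ∈ H, x v * ∑ z, JE w u B v z * x z
        ≤ lam * (X + U) ^ 2 * (∑ v ∈ H, x v) ^ 2 := by
      have h8 : ∑ v ∈ H, x v * ∑ z, JE w u B v z * x z = x u * YB := by
        have h9 : ∀ v ∈ H, x v * ∑ z, JE w u B v z * x z = x u * (chi (v ∈ B) * x v) := by
          intro v hv
          rw [hJH v hv]; ring
        rw [Finset.sum_congr rfl h9, ← Finset.mul_sum, chi_sub hW.hB, hYB]
      rw [h8, ← hYA, ← hS]
      have a1 : x w * YA ≤ x w * (lam * x w) := mul_le_mul_of_nonneg_left (by linarith) xw0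
      have a2 : x u * YB ≤ x u * (lam * x u) := mul_le_mul_of_nonneg_left (by linarith) xu0
      have a3 : x w * (lam * x w) + x u * (lam * x u) = lam * (X ^ 2 + U ^ 2) * S ^ 2 := by
        rw [xw, xu]; ring
      have a4 : lam * (X ^ 2 + U ^ 2) * S ^ 2 ≤ lam * (X + U) ^ 2 * S ^ 2 := by
        apply mul_le_mul_of_nonneg_right _ (sq_nonneg S)
        apply mul_le_mul_of_nonneg_left _ hlam.le
        nlinarith [mul_nonneg hX0 hU0]
      linarith
    have h10 := upper hr hN1 hW.card (hS ▸ hSpos) hq hR hlam (sq_nonneg (X + U))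
    have h11 : (N : ℝ) * (lam * (X + U) ^ 2) ≤ 32 := by
      have hXU0 : 0 ≤ X + U := by linarith
      have a1 : lam * (X + U) ^ 2 ≤ 4 * (X + U) := by
        have : lam * (X + U) ^ 2 = (lam * (X + U)) * (X + U) := by ring
        rw [this]; nlinarith
      have a2 : (N : ℝ) * (X + U) ≤ 8 := by nlinarith
      have a3 : (0 : ℝ) ≤ N := by linarith
      nlinarith
    linarith
  have habs : |lam - al r * N| ≤ 32 + 3 * r := by rw [abs_le]; constructor <;> linarith
  refine ⟨habs, ?_⟩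
  obtain ⟨hT0, hT1, hD⟩ := TD (c := c) (lam := lam) hW.hA hW.card (by linarith) hl
  have hDpos : 0 < lam ^ 2 - ∑ i, sz A c i + ∑ i, sz A c i ^ 2 / (lam + sz H c i) := by
    have : (0 : ℝ) < (N : ℝ) ^ 2 / 8 := by positivity
    linarith
  have hcore := core hF hx hS hSpos hlam hDpos
  obtain ⟨D, hDd⟩ : ∃ D, D = lam ^ 2 - ∑ i, sz A c i + ∑ i, sz A c i ^ 2 / (lam + sz H c i) :=
    ⟨_, rfl⟩
  obtain ⟨T, hTd⟩ : ∃ T, T = ∑ i, sz A c i / (lam + sz H c i) := ⟨_, rfl⟩
  have hPpos : ∀ i, (N : ℝ) / 2 ≤ lam + sz H c i := fun i => by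
    have := sz_nonneg H c i; linarith
  have hPp : ∀ i, 0 < lam + sz H c i := fun i => by
    have := hPpos i; linarith
  have hJi : ∀ i, (∑ v ∈ cl H c i, ∑ z, JE w u B v z * x z) / S = sz B c i * U := by
    intro i
    have h7 : ∑ v ∈ cl H c i, ∑ z, JE w u B v z * x z = sz B c i * x u := by
      have h8 : ∀ v ∈ cl H c i, ∑ z, JE w u B v z * x z = chi (v ∈ cl B c i) * x u := by
        intro v hv
        obtain ⟨g1, g2⟩ := mem_cl.1 hv
        rw [hJH v g1, chi_congr (p := v ∈ B) (q := v ∈ cl B c i)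
          ⟨fun h => mem_cl.2 ⟨h, g2⟩, fun h => (mem_cl.1 h).1⟩]
      rw [Finset.sum_congr rfl h8, chi_sub (fun v hv => mem_cl.2
        ⟨hW.hB (mem_cl.1 hv).1, (mem_cl.1 hv).2⟩) (fun _ => x u), Finset.sum_const,
        nsmul_eq_mul]
      rfl
    rw [h7, hU]; ring
  have hJi0 : ∀ i, 0 ≤ sz B c i * U ∧ sz B c i * U ≤ U := by
    intro i
    have g1 := sz_nonneg B c i
    have g2 := hszB i
    constructor
    · positivity
    · nlinarith
  obtain ⟨s1, hs1⟩ : ∃ s1, s1 = ∑ i, ((∑ v ∈ cl H c i, ∑ z, JE w u B v z * x z) / S)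
      / (lam + sz H c i) := ⟨_, rfl⟩
  obtain ⟨s2, hs2⟩ : ∃ s2, s2 = ∑ i, sz A c i * (((∑ v ∈ cl H c i, ∑ z, JE w u B v z * x z)
      / S) / (lam + sz H c i)) := ⟨_, rfl⟩
  obtain ⟨s3, hs3⟩ : ∃ s3, s3 = (∑ v ∈ A, ∑ z, JE w u B v z * x z) / S := ⟨_, rfl⟩
  have b1 : 0 ≤ s1 ∧ s1 ≤ r * (U / (N / 2)) := by
    rw [hs1]
    constructor
    · refine Finset.sum_nonneg fun i _ => ?_
      rw [hJi]
      exact div_nonneg (hJi0 i).1 (hPp i).le
    · calc ∑ i, ((∑ v ∈ cl H c i, ∑ z, JE w u B v z * x z) / S) / (lam + sz H c i)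
          ≤ ∑ _i : Fin r, U / (N / 2) := by
            refine Finset.sum_le_sum fun i _ => ?_
            rw [hJi]
            exact div_le_div₀ hU0 (hJi0 i).2 (by linarith) (hPpos i)
        _ = r * (U / (N / 2)) := by simp
  have b2 : 0 ≤ s2 ∧ s2 ≤ r * U := by
    rw [hs2]
    constructor
    · refine Finset.sum_nonneg fun i _ => ?_
      rw [hJi]
      exact mul_nonneg (sz_nonneg A c i) (div_nonneg (hJi0 i).1 (hPp i).le)
    · calc ∑ i, sz A c i * (((∑ v ∈ cl H c i, ∑ z, JE w u B v z * x z) / S)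
          / (lam + sz H c i)) ≤ ∑ _i : Fin r, U := by
            refine Finset.sum_le_sum fun i _ => ?_
            rw [hJi, ← mul_div_assoc, div_le_iff₀ (hPp i)]
            have g1 := sz_mono hW.hA c i
            have g2 := sz_nonneg A c i
            have g3 := hJi0 i
            have g4 : sz A c i ≤ lam + sz H c i := by linarith
            calc sz A c i * (sz B c i * U) ≤ sz A c i * U := mul_le_mul_of_nonneg_left g3.2 g2
              _ ≤ (lam + sz H c i) * U := mul_le_mul_of_nonneg_right g4 hU0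
              _ = U * (lam + sz H c i) := by ring
        _ = r * U := by simp
  have b3 : 0 ≤ s3 ∧ s3 ≤ r * U := by
    have h7 : ∑ v ∈ A, ∑ z, JE w u B v z * x z = ∑ v ∈ A, chi (v ∈ B) * x u :=
      Finset.sum_congr rfl fun v hv => hJH v (hW.hA hv)
    have h8 : ∑ v ∈ A, chi (v ∈ B) * x u ≤ ∑ v, chi (v ∈ B) * x u :=
      Finset.sum_le_sum_of_subset_of_nonneg (Finset.subset_univ A)
        fun v _ _ => mul_nonneg (chi_nonneg _) xu0
    rw [chi_sum B (fun _ => x u), Finset.sum_const, nsmul_eq_mul] at h8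
    rw [hs3, h7]
    constructor
    · exact div_nonneg (Finset.sum_nonneg fun v _ => mul_nonneg (chi_nonneg _) xu0) hS0
    · rw [div_le_iff₀ hSpos]
      calc ∑ v ∈ A, chi (v ∈ B) * x u ≤ B.card * x u := h8
        _ ≤ r * x u := mul_le_mul_of_nonneg_right hBcard xu0
        _ = r * U * S := by rw [xu]; ring
  rw [← hs1, ← hs2, ← hs3, hJw, ← hU, ← hDd, ← hTd] at hcore
  rw [← hDd] at hD
  rw [← hTd] at hT0 hT1
  have hal := al_lt hr
  have hlamN : lam ≤ 2 * N := by nlinarith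
  have hρ : |s3 + lam * U - s2| ≤ (24 * r + 48) / (N : ℝ) := by
    have hN0' : (0 : ℝ) < N := by linarith
    have g1 : (lam + r) * U ≤ (24 * r + 48) / (N : ℝ) := by
      calc (lam + r) * U ≤ (3 * N) * ((8 * r + 16) / (N : ℝ) ^ 2) :=
            mul_le_mul (by linarith) hUN hU0 (by linarith)
        _ = (24 * r + 48) / (N : ℝ) := by field_simp; ring
    have g2 : 0 ≤ lam * U := mul_nonneg hlam.le hU0
    rw [abs_le]
    constructor <;> nlinarith
  have hrest := rest (q := (r : ℝ)) (by linarith : (0 : ℝ) < N) hρ hT0 hT1 hD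
  have hb1 : |s1| ≤ r * (16 * r + 32) / (N : ℝ) ^ 3 := by
    have hN0' : (0 : ℝ) < N := by linarith
    rw [abs_of_nonneg b1.1]
    calc s1 ≤ r * (U / (N / 2)) := b1.2
      _ ≤ r * ((8 * r + 16) / (N : ℝ) ^ 2 / (N / 2)) := by
          apply mul_le_mul_of_nonneg_left _ (by linarith)
          exact div_le_div_of_nonneg_right hUN (by linarith)
      _ = r * (16 * r + 32) / (N : ℝ) ^ 3 := by field_simp; ring
  rw [hcore]
  have e9 : -s1 - (s3 + lam * U - s2) * T / D = -s1 + -((s3 + lam * U - s2) * T / D) := by ring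
  rw [e9]
  calc |-s1 + -((s3 + lam * U - s2) * T / D)|
      ≤ |-s1| + |-((s3 + lam * U - s2) * T / D)| := abs_add_le _ _
    _ ≤ r * (16 * r + 32) / (N : ℝ) ^ 3 + 8 * (r : ℝ) * (24 * r + 48) / (N : ℝ) ^ 3 := by
        rw [abs_neg, abs_neg]
        exact add_le_add hb1 hrest
    _ = (208 * (r : ℝ) ^ 2 + 416 * r) / (N : ℝ) ^ 3 := by ring
    _ ≤ 1000 * (r : ℝ) ^ 2 / (N : ℝ) ^ 3 := by
        apply div_le_div_of_nonneg_right _ (by positivity)
        nlinarith

end X_SECX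

/-- **SECX** -/
theorem x_SECX : Stmt_SECX := by
  intro r hr
  have hrR : (3 : ℝ) ≤ r := by exact_mod_cast hr
  refine ⟨1000 * (r : ℝ) ^ 2, 18 * r, by nlinarith, ?_⟩
  intro N hN V _ G x lam c H w A hx hb
  have h1 : 3 * (r : ℝ) ≤ 1000 * (r : ℝ) ^ 2 := by nlinarith
  have h2 : 32 + 3 * (r : ℝ) ≤ 1000 * (r : ℝ) ^ 2 := by nlinarith
  refine ⟨fun v1 v2 hW => ?_, fun u B i0 hW => ?_⟩
  · obtain ⟨g1, g2⟩ := X_SECX.caseD hr hN hW hb hx
    exact ⟨g1.trans h1, g2⟩
  · obtain ⟨g1, g2⟩ := X_SECX.caseE hr hN hW hb hx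
    exact ⟨g1.trans h2, g2⟩

end Pool.Agent.Work.MP_5532fa_up
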