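import Pool.Agent.Work.MP_5532fa_x.Interface3

/-!
# Block SEXC (helper27): the exceptional values
-/

open Finset

namespace Pool.Agent.Work.MP_5532fa_up

open MP5532fa (specRad qf pE)

namespace X_SEXC

/-- consecutive values -/
lemma perm_of {r : ℕ} (y : Fin r → ℕ) (a : ℕ) (h1 : ∀ i, a ≤ y i ∧ y i < a + r)
    (h2 : Function.Injective y) : ∃ σ : Equiv.Perm (Fin r), ∀ i, y (σ i) = a + i := by
  classical
  let f : Fin r → Fin r := fun i => ⟨y i - a, by have := h1 i; omega⟩
  have hf : Function.Injective f := by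
    intro i j h
    have h3 : y i - a = y j - a := congrArg Fin.val h
    have := h1 i
    have := h1 j
    exact h2 (by omega)
  have hb : Function.Bijective f := Finite.injective_iff_bijective.1 hf
  refine ⟨(Equiv.ofBijective f hb).symm, fun i => ?_⟩
  have h4 : f ((Equiv.ofBijective f hb).symm i) = i := Equiv.ofBijective_apply_symm_apply f hb i
  have h5 : y ((Equiv.ofBijective f hb).symm i) - a = i := congrArg Fin.val h4
  have := h1 ((Equiv.ofBijective f hb).symm i)
  omega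

lemma sq2 {a : ℤ} (h : a ^ 2 ≤ 8) : -2 ≤ a ∧ a ≤ 2 := by
  constructor <;> nlinarith

lemma c3 (a b c : ℤ) (h1 : a + b + c = 0) (h2 : a ^ 2 + b ^ 2 + c ^ 2 = 2) :
    (-1 ≤ a ∧ a ≤ 1) ∧ (-1 ≤ b ∧ b ≤ 1) ∧ (-1 ≤ c ∧ c ≤ 1) ∧ a ≠ b ∧ a ≠ c ∧ b ≠ c := by
  have ha := sq2 (a := a) (by nlinarith [sq_nonneg b, sq_nonneg c])
  have hb := sq2 (a := b) (by nlinarith [sq_nonneg a, sq_nonneg c])
  obtain ⟨ha1, ha2⟩ := ha
  obtain ⟨hb1, hb2⟩ := hb
  obtain rfl : c = -a - b := by omega
  interval_cases a <;> interval_cases b <;> first | omega | (norm_num at h2)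

lemma c30 (a b c : ℤ) (h1 : a + b + c = 0) (h2 : a ^ 2 + b ^ 2 + c ^ 2 = 4) : False := by
  have ha := sq2 (a := a) (by nlinarith [sq_nonneg b, sq_nonneg c])
  have hb := sq2 (a := b) (by nlinarith [sq_nonneg a, sq_nonneg c])
  obtain ⟨ha1, ha2⟩ := ha
  obtain ⟨hb1, hb2⟩ := hb
  obtain rfl : c = -a - b := by omega
  interval_cases a <;> interval_cases b <;> first | omega | (norm_num at h2)

lemma c4 (a b c d : ℤ) (h1 : a + b + c + d = 2) (h2 : a ^ 2 + b ^ 2 + c ^ 2 + d ^ 2 = 6) :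
    (-1 ≤ a ∧ a ≤ 2) ∧ (-1 ≤ b ∧ b ≤ 2) ∧ (-1 ≤ c ∧ c ≤ 2) ∧ (-1 ≤ d ∧ d ≤ 2) ∧
      a ≠ b ∧ a ≠ c ∧ a ≠ d ∧ b ≠ c ∧ b ≠ d ∧ c ≠ d := by
  have ha := sq2 (a := a) (by nlinarith [sq_nonneg b, sq_nonneg c, sq_nonneg d])
  have hb := sq2 (a := b) (by nlinarith [sq_nonneg a, sq_nonneg c, sq_nonneg d])
  have hc := sq2 (a := c) (by nlinarith [sq_nonneg a, sq_nonneg b, sq_nonneg d])
  obtain ⟨ha1, ha2⟩ := ha
  obtain ⟨hb1, hb2⟩ := hb
  obtain ⟨hc1, hc2⟩ := hc
  obtain rfl : d = 2 - a - b - c := by omega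
  interval_cases a <;> interval_cases b <;> interval_cases c <;> omega

lemma c40 (a b c d : ℤ) (h1 : a + b + c + d = 2) (h2 : a ^ 2 + b ^ 2 + c ^ 2 + d ^ 2 = 8) :
    False := by
  have ha := sq2 (a := a) (by nlinarith [sq_nonneg b, sq_nonneg c, sq_nonneg d])
  have hb := sq2 (a := b) (by nlinarith [sq_nonneg a, sq_nonneg c, sq_nonneg d])
  have hc := sq2 (a := c) (by nlinarith [sq_nonneg a, sq_nonneg b, sq_nonneg d])
  obtain ⟨ha1, ha2⟩ := ha
  obtain ⟨hb1, hb2⟩ := hb
  obtain ⟨hc1, hc2⟩ := hc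
  obtain rfl : d = 2 - a - b - c := by omega
  interval_cases a <;> interval_cases b <;> interval_cases c <;> omega

/-- the analytic part -/
theorem core {V : Type} [Fintype V] {G : SimpleGraph V} {r m N : ℕ} (hr : 3 ≤ r) (hr4 : r ≤ 4)
    (hN : 10 ^ 6 ≤ N) {δ : ℝ} (hδ : 1 ≤ δ * N) {y z : Fin r → ℕ} {c0 : ℝ}
    (hys : ∑ i, y i = N) (hF : FormC m N y G c0) (hO : Opt m N (1 / 1000) δ y c0)
    (hky : |kk m N y| ≤ 1 / 1000 * N) {k : ℤ} (hk : kk m N y = k)
    (hR : mo 2 N (re y) ≤ 7 + 2 * |(k : ℝ)|) (hzs : ∑ i, z i = N)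
    (hzd : ∀ i, |(z i : ℝ) - N / r| ≤ 2 * √(N : ℝ)) (hkz : kk m N z = -1)
    (hz3 : mo 3 N (re z) = 0) (hz4 : mo 4 N (re z) ≤ 11) :
    k = 0 ∨ (k = -1 ∧ FamS N y G) := by
  have hNR : (10 : ℝ) ^ 6 ≤ N := by exact_mod_cast hN
  have hN0 : (0 : ℝ) < N := lt_of_lt_of_le (by norm_num) hNR
  obtain ⟨h2, h3, h4, h4'⟩ := GDSp.mobd blk_CU1 hr N y hys
  rw [hk] at hky
  have hK0 : 0 ≤ |(k : ℝ)| := abs_nonneg _
  have hs : √(mo 2 N (re y)) ≤ N / 7000 := by
    rw [Real.sqrt_le_left (by positivity)]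
    nlinarith
  have hRR : mo 2 N (re y) * √(mo 2 N (re y)) ≤ (1 / 1000) * (1 + |(k : ℝ)|) * N := by
    calc mo 2 N (re y) * √(mo 2 N (re y)) ≤ (7 + 2 * |(k : ℝ)|) * (N / 7000) :=
          mul_le_mul hR hs (Real.sqrt_nonneg _) (by positivity)
      _ ≤ (7 * (1 + |(k : ℝ)|)) * (N / 7000) := by
          apply mul_le_mul_of_nonneg_right _ (by positivity)
          linarith
      _ = (1 / 1000) * (1 + |(k : ℝ)|) * N := by ring
  have hMy : M34 N y ≤ (1 / 1000) * (1 + |(k : ℝ)|) := by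
    unfold M34
    have e1 : mo 3 N (re y) / N ≤ (1 / 1000) * (1 + |(k : ℝ)|) := by
      rw [div_le_iff₀ hN0]
      exact ((le_abs_self _).trans h3).trans hRR
    have e2 : 0 ≤ mo 4 N (re y) / (N : ℝ) ^ 2 := by positivity
    linarith
  have hMz : -(1 / 1000) ≤ M34 N z := by
    unfold M34
    rw [hz3, zero_div]
    have e2 : mo 4 N (re z) / (N : ℝ) ^ 2 ≤ 1 / 1000 := by
      rw [div_le_iff₀ (by positivity)]
      nlinarith
    linarith
  have hmain := hO z (-(2 * kk m N z / ((r : ℝ) - 1))) hzs hzd (by rw [hkz]; simpa using hδ)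
    (Or.inr (Or.inr ⟨le_of_eq hkz, rfl⟩))
  rw [hk, hkz] at hmain
  have habs1 : |(-1 : ℝ)| = 1 := by norm_num
  rw [habs1] at hmain
  have hkl : -|(k : ℝ)| ≤ k := neg_abs_le _
  have hku : (k : ℝ) ≤ |(k : ℝ)| := le_abs_self _
  rcases hF with ⟨-, hk0, hc⟩ | ⟨-, hk0, hc⟩ | ⟨hS, hk0, hc⟩
  · left
    rw [hk] at hk0 hc
    rw [abs_of_nonneg hk0] at hmain hMy
    have hk0' : 0 ≤ k := by exact_mod_cast hk0
    by_contra hne
    have hk1 : (1 : ℤ) ≤ k := by omega
    have hk1' : (1 : ℝ) ≤ k := by exact_mod_cast hk1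
    obtain rfl | rfl : r = 3 ∨ r = 4 := by omega
    · push_cast at hmain
      linarith
    · push_cast at hmain
      linarith
  · exfalso
    rw [hk] at hk0 hc
    have hk1 : (0 : ℝ) ≤ k := le_trans (by positivity) hk0
    rw [abs_of_nonneg hk1] at hmain hMy
    obtain rfl | rfl : r = 3 ∨ r = 4 := by omega
    · push_cast at hmain hk0 hc
      linarith
    · push_cast at hmain hk0 hc
      linarith
  · right
    rw [hk] at hk0 hc
    have hk1 : (k : ℝ) ≤ 0 := by linarith
    rw [abs_of_nonpos hk1] at hmain hMy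
    refine ⟨?_, hS⟩
    have hk2 : k ≤ -1 := by exact_mod_cast hk0
    by_contra hne
    have hk3 : k ≤ -2 := by omega
    have hk4 : (k : ℝ) ≤ -2 := by exact_mod_cast hk3
    obtain rfl | rfl : r = 3 ∨ r = 4 := by omega
    · push_cast at hmain hc
      linarith
    · push_cast at hmain hc
      linarith

/-- the end -/
theorem fin {V : Type} [Fintype V] {G : SimpleGraph V} (hGS : Stmt_GS) {r m N : ℕ} (hr : 3 ≤ r)
    {y : Fin r → ℕ} (hE : Ext r m G) (hk : kk m N y = -1) (hS : FamS N y G) {a : ℕ}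
    (h1 : ∀ i, a ≤ y i ∧ y i < a + r) (h2 : Function.Injective y) : TypeX r N G := by
  obtain ⟨H, c, w, T, L, p, q, hW, hy, hL2, hpq, hle⟩ := hS
  obtain ⟨σ, hσ⟩ := perm_of y a h1 h2
  have h3 := (hGS r hr V G N H c w T L p q hW).2.2.2.2
  rw [hE.2.2.1] at h3
  have h4 : ∑ i, sz H c i ^ 2 = ∑ i, (y i : ℝ) ^ 2 := by
    refine Finset.sum_congr rfl fun i _ => ?_
    unfold sz
    rw [hy]
  rw [h4] at h3
  unfold kk at hk
  have h5 : (L.card : ℝ) = 2 := by linarith
  refine ⟨H, c, w, T, L, p, q, hW, by exact_mod_cast h5, ⟨σ, a, fun i => ?_⟩, hpq, hle⟩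
  rw [hy, hσ]

end X_SEXC

open X_SEXC in
theorem x_SEXC (hGS : Stmt_GS) (hMAINC : Stmt_MAINC) : Stmt_SEXC := by
  intro r hr
  obtain ⟨δ, m1, hδ, hM⟩ := hMAINC r (1 / 1000) hr (by norm_num)
  set M : ℕ := max (10 ^ 6) (⌈1 / δ⌉₊) with hMdef
  refine ⟨max m1 (M ^ 2 + 1), fun m hm N j hmj hlt hE V _ G hG => ?_⟩
  obtain ⟨hj, hE⟩ := hE
  subst hj
  have hNM : M ≤ N := large_N pTN hr M (le_trans (le_max_right _ _) hm) hlt
  have hN : 10 ^ 6 ≤ N := le_trans (le_max_left _ _) hNM
  have hNR : (10 : ℝ) ^ 6 ≤ N := by exact_mod_cast hN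
  have hN0 : (0 : ℝ) < N := lt_of_lt_of_le (by norm_num) hNR
  have hδN : 1 ≤ δ * N := by
    have h1 : 1 / δ ≤ N := (Nat.le_ceil _).trans (by
      exact_mod_cast le_trans (le_max_right _ _) hNM)
    rw [div_le_iff₀ hδ] at h1
    linarith
  have hrr : (3 : ℝ) ≤ r := by exact_mod_cast hr
  have hsq : (1 : ℝ) ≤ √(N : ℝ) := by
    rw [Real.one_le_sqrt]
    linarith
  rcases hM m (le_trans (le_max_left _ _) hm) N 0 hmj hlt V G hG with ⟨h1, -, -⟩ |
    ⟨n, y, c0, hn, hyd, hys, hky, hF, hO⟩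
  · exfalso
    rw [Nat.cast_zero] at h1
    linarith
  have hnN : n = N := by
    rcases hn with ⟨h, -⟩ | ⟨-, h⟩
    · exact h
    · exfalso
      rw [Nat.cast_zero] at h
      have h1 : 2 / (r : ℝ) ≤ 2 / 3 := div_le_div_of_nonneg_left (by norm_num) (by norm_num) hrr
      have h2 := al_ge hr
      have h3 : 0 < (1 - 2 / (r : ℝ) - 1 / 1000) * (al r * N) := by
        have h4 : 0 < 1 - 2 / (r : ℝ) - 1 / 1000 := by linarith
        have h5 : 0 < al r := by linarith
        positivity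
      linarith
  subst hnN
  rcases hE with ⟨rfl, hmod⟩ | ⟨rfl, hmod⟩
  · -- r = 3
    obtain ⟨p, rfl⟩ : ∃ p, n = 3 * p + 3 := ⟨n / 3 - 1, by omega⟩
    have htn := (pTN 3 hr (3 * p + 3)).1 (fun _ => p + 1)
      (by simp only [Finset.sum_const, Finset.card_univ, Fintype.card_fin, smul_eq_mul]; ring)
      (fun _ _ => by omega)
    have htn' : 2 * (tn 3 (3 * p + 3) : ℝ) + 3 * ((p : ℝ) + 1) ^ 2 = (3 * p + 3) ^ 2 := by
      have := htn
      simp only [Finset.sum_const, Finset.card_univ, Fintype.card_fin, smul_eq_mul] at this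
      exact_mod_cast this
    have hmR : (m : ℝ) = tn 3 (3 * p + 3) := by rw [hmj]; simp
    -- the numbers `v`
    set a : ℤ := (y 0 : ℤ) - (p + 1) with ha
    set b : ℤ := (y 1 : ℤ) - (p + 1) with hb
    set c : ℤ := (y 2 : ℤ) - (p + 1) with hc
    have hya : (y 0 : ℝ) = a + (p + 1) := by rw [ha]; push_cast; ring
    have hyb : (y 1 : ℝ) = b + (p + 1) := by rw [hb]; push_cast; ring
    have hyc : (y 2 : ℝ) = c + (p + 1) := by rw [hc]; push_cast; ring
    have habc : a + b + c = 0 := by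
      rw [Fin.sum_univ_three] at hys
      omega
    have habcR : (a : ℝ) + b + c = 0 := by exact_mod_cast habc
    have hc' : (c : ℝ) = -a - b := by linarith
    have hk : kk m (3 * p + 3) y = ((a ^ 2 + a * b + b ^ 2 - 2 : ℤ) : ℝ) := by
      unfold kk
      rw [Fin.sum_univ_three, hya, hyb, hyc, hmR, hc']
      push_cast
      linear_combination (1 / 2) * htn'
    have hkz : kk m (3 * p + 3) (![p + 2, p + 1, p] : Fin 3 → ℕ) = -1 := by
      unfold kk
      rw [Fin.sum_univ_three, hmR]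
      simp only [Matrix.cons_val_zero, Matrix.cons_val_one, Matrix.cons_val]
      push_cast
      linear_combination (1 / 2) * htn'
    have hdev : ((3 * p + 3 : ℕ) : ℝ) / (3 : ℕ) = p + 1 := by push_cast; ring
    have hres := core (z := ![p + 2, p + 1, p]) hr (by norm_num) hN hδN hys hF hO hky hk (by
        unfold mo re
        rw [Fin.sum_univ_three, hdev, hya, hyb, hyc, hc']
        have h1 := le_abs_self (((a ^ 2 + a * b + b ^ 2 - 2 : ℤ) : ℝ))
        have h2 : ((a : ℝ) + (p + 1) - (p + 1)) ^ 2 + ((b : ℝ) + (p + 1) - (p + 1)) ^ 2 +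
            (-(a : ℝ) - b + (p + 1) - (p + 1)) ^ 2 =
            4 + 2 * ((a ^ 2 + a * b + b ^ 2 - 2 : ℤ) : ℝ) := by
          push_cast
          ring
        rw [h2]
        linarith) (by
        rw [Fin.sum_univ_three]
        simp only [Matrix.cons_val_zero, Matrix.cons_val_one, Matrix.cons_val]
        omega) (by
        intro i
        rw [hdev]
        refine le_trans ?_ (mul_le_mul_of_nonneg_left hsq (by norm_num : (0 : ℝ) ≤ 2))
        fin_cases i <;> simp only [Fin.zero_eta, Fin.mk_one, Fin.reduceFinMk,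
          Matrix.cons_val_zero, Matrix.cons_val_one, Matrix.cons_val] <;>
          push_cast <;> rw [abs_le] <;> constructor <;> linarith) hkz (by
        unfold mo re
        rw [Fin.sum_univ_three, hdev]
        simp only [Matrix.cons_val_zero, Matrix.cons_val_one, Matrix.cons_val]
        push_cast
        ring) (by
        unfold mo re
        rw [Fin.sum_univ_three, hdev]
        simp only [Matrix.cons_val_zero, Matrix.cons_val_one, Matrix.cons_val]
        push_cast
        ring_nf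
        norm_num)
    rcases hres with h0 | ⟨h1, hS⟩
    · exfalso
      refine c30 a b c habc ?_
      have : c = -a - b := by omega
      rw [this]
      linear_combination 2 * h0
    · have hsq2 : a ^ 2 + b ^ 2 + c ^ 2 = 2 := by
        have : c = -a - b := by omega
        rw [this]
        linear_combination 2 * h1
      obtain ⟨hA, hB, hC, hab, hac, hbc⟩ := c3 a b c habc hsq2
      refine fin hGS hr hG (by rw [hk, h1]; norm_num) hS (a := p) ?_ ?_
      · intro i
        fin_cases i <;> simp only [Fin.zero_eta, Fin.mk_one, Fin.reduceFinMk] <;> omega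
      · intro i j hij
        fin_cases i <;> fin_cases j <;>
          simp only [Fin.zero_eta, Fin.mk_one, Fin.reduceFinMk] at hij ⊢ <;> omega
  · -- r = 4
    obtain ⟨p, rfl⟩ : ∃ p, n = 4 * p + 6 := ⟨(n - 6) / 4, by omega⟩
    have htn := (pTN 4 hr (4 * p + 6)).1 (![p + 2, p + 2, p + 1, p + 1])
      (by
        rw [Fin.sum_univ_four]
        simp only [Matrix.cons_val_zero, Matrix.cons_val_one, Matrix.cons_val]
        ring)
      (fun i k => by
        fin_cases i <;> fin_cases k <;>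
          simp [Matrix.cons_val_zero, Matrix.cons_val_one, Matrix.cons_val])
    have htn' : 2 * (tn 4 (4 * p + 6) : ℝ) + (2 * ((p : ℝ) + 2) ^ 2 + 2 * ((p : ℝ) + 1) ^ 2) =
        (4 * p + 6) ^ 2 := by
      have := htn
      rw [Fin.sum_univ_four] at this
      simp only [Matrix.cons_val_zero, Matrix.cons_val_one, Matrix.cons_val] at this
      have h2 : 2 * (tn 4 (4 * p + 6) : ℝ) + (((p : ℝ) + 2) ^ 2 + (p + 2) ^ 2 + (p + 1) ^ 2 +
        (p + 1) ^ 2) = (4 * p + 6) ^ 2 := by exact_mod_cast this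
      linarith
    have hmR : (m : ℝ) = tn 4 (4 * p + 6) := by rw [hmj]; simp
    set a : ℤ := (y 0 : ℤ) - (p + 1) with ha
    set b : ℤ := (y 1 : ℤ) - (p + 1) with hb
    set c : ℤ := (y 2 : ℤ) - (p + 1) with hc
    set d : ℤ := (y 3 : ℤ) - (p + 1) with hd
    have hya : (y 0 : ℝ) = a + (p + 1) := by rw [ha]; push_cast; ring
    have hyb : (y 1 : ℝ) = b + (p + 1) := by rw [hb]; push_cast; ring
    have hyc : (y 2 : ℝ) = c + (p + 1) := by rw [hc]; push_cast; ring
    have hyd' : (y 3 : ℝ) = d + (p + 1) := by rw [hd]; push_cast; ring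
    have habc : a + b + c + d = 2 := by
      rw [Fin.sum_univ_four] at hys
      omega
    have habcR : (a : ℝ) + b + c + d = 2 := by exact_mod_cast habc
    have hd' : (d : ℝ) = 2 - a - b - c := by linarith
    have hk : kk m (4 * p + 6) y = ((a ^ 2 + b ^ 2 + c ^ 2 + a * b + b * c + c * a
        - 2 * (a + b + c) - 2 : ℤ) : ℝ) := by
      unfold kk
      rw [Fin.sum_univ_four, hya, hyb, hyc, hyd', hmR, hd']
      push_cast
      linear_combination (1 / 2) * htn'
    have hkz : kk m (4 * p + 6) (![p + 3, p + 2, p + 1, p] : Fin 4 → ℕ) = -1 := by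
      unfold kk
      rw [Fin.sum_univ_four, hmR]
      simp only [Matrix.cons_val_zero, Matrix.cons_val_one, Matrix.cons_val]
      push_cast
      linear_combination (1 / 2) * htn'
    have hdev : ((4 * p + 6 : ℕ) : ℝ) / (4 : ℕ) = p + 3 / 2 := by push_cast; ring
    have hres := core (z := ![p + 3, p + 2, p + 1, p]) hr (by norm_num) hN hδN hys hF hO hky hk
      (by
        unfold mo re
        rw [Fin.sum_univ_four, hdev, hya, hyb, hyc, hyd', hd']
        have h1 := le_abs_self (((a ^ 2 + b ^ 2 + c ^ 2 + a * b + b * c + c * a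
          - 2 * (a + b + c) - 2 : ℤ) : ℝ))
        have h2 : ((a : ℝ) + (p + 1) - (p + 3 / 2)) ^ 2 + ((b : ℝ) + (p + 1) - (p + 3 / 2)) ^ 2 +
            ((c : ℝ) + (p + 1) - (p + 3 / 2)) ^ 2 +
            (2 - (a : ℝ) - b - c + (p + 1) - (p + 3 / 2)) ^ 2 =
            7 + 2 * ((a ^ 2 + b ^ 2 + c ^ 2 + a * b + b * c + c * a
          - 2 * (a + b + c) - 2 : ℤ) : ℝ) := by
          push_cast
          ring
        rw [h2]
        linarith) (by
        rw [Fin.sum_univ_four]
        simp only [Matrix.cons_val_zero, Matrix.cons_val_one, Matrix.cons_val]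
        omega) (by
        intro i
        rw [hdev]
        refine le_trans ?_ (mul_le_mul_of_nonneg_left hsq (by norm_num : (0 : ℝ) ≤ 2))
        fin_cases i <;> simp only [Fin.zero_eta, Fin.mk_one, Fin.reduceFinMk,
          Matrix.cons_val_zero, Matrix.cons_val_one, Matrix.cons_val] <;>
          push_cast <;> rw [abs_le] <;> constructor <;> linarith) hkz (by
        unfold mo re
        rw [Fin.sum_univ_four, hdev]
        simp only [Matrix.cons_val_zero, Matrix.cons_val_one, Matrix.cons_val]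
        push_cast
        ring) (by
        unfold mo re
        rw [Fin.sum_univ_four, hdev]
        simp only [Matrix.cons_val_zero, Matrix.cons_val_one, Matrix.cons_val]
        push_cast
        ring_nf
        norm_num)
    rcases hres with h0 | ⟨h1, hS⟩
    · exfalso
      refine c40 a b c d habc ?_
      have : d = 2 - a - b - c := by omega
      rw [this]
      linear_combination 2 * h0
    · have hsq2 : a ^ 2 + b ^ 2 + c ^ 2 + d ^ 2 = 6 := by
        have : d = 2 - a - b - c := by omega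
        rw [this]
        linear_combination 2 * h1
      obtain ⟨hA, hB, hC, hD, hab, hac, had, hbc, hbd, hcd⟩ := c4 a b c d habc hsq2
      refine fin hGS hr hG (by rw [hk, h1]; norm_num) hS (a := p) ?_ ?_
      · intro i
        fin_cases i <;> simp only [Fin.zero_eta, Fin.mk_one, Fin.reduceFinMk] <;> omega
      · intro i j hij
        fin_cases i <;> fin_cases j <;>
          simp only [Fin.zero_eta, Fin.mk_one, Fin.reduceFinMk] at hij ⊢ <;> omega

end Pool.Agent.Work.MP_5532fa_up
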