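import Pool.Agent.Work.MP_5532fa_x.Interface

/-!
# MP_5532fa_co, sixth round, block SM6: assembly of the three types
-/

open Finset

namespace Pool.Agent.Work.MP_5532fa_up

open MP5532fa (specRad qf pE)

namespace X_SM6

/-- `WF` with exactly one missing edge is `WD` -/
theorem wd_of_wf {V : Type} [Fintype V] {r : ℕ} {G : SimpleGraph V} {N : ℕ} {H : Finset V}
    {c : V → Fin r} {w : V} {T : Finset V} (h : WF G N H c w T) (hm : mis G H c ≤ 2) :
    ∃ a b : V, WD G N H c w T a b := by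
  classical
  obtain ⟨a, ha, b, hb, hab, hadj⟩ := h.hF
  have hone : ∀ z, z ∈ T → cl T c (c z) = {z} := by
    intro z hz
    obtain ⟨y, hy⟩ := Finset.card_eq_one.mp (h.hT1 (c z))
    have h1 : z ∈ cl T c (c z) := mem_cl.mpr ⟨hz, rfl⟩
    rw [hy, Finset.mem_singleton] at h1
    rw [hy, h1]
  have hca : c a ≠ c b := by
    intro hcc
    have h1 : a ∈ cl T c (c b) := mem_cl.mpr ⟨ha, hcc⟩
    rw [hone b hb, Finset.mem_singleton] at h1
    exact hab h1
  refine ⟨a, b, ⟨h.card, h.hw, h.hT, hca, hone a ha, hone b hb, ?_, ?_⟩⟩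
  · intro i
    rw [← Finset.card_pos, h.hT1 i]
    exact Nat.one_pos
  · intro x y
    constructor
    · intro hxy
      rcases h.sub x y hxy with ⟨h1, h2, h3⟩ | h1 | h1
      · refine Or.inl ⟨h1, h2, h3, ?_, ?_⟩
        · rintro ⟨rfl, rfl⟩
          exact hadj hxy
        · rintro ⟨rfl, rfl⟩
          exact hadj hxy.symm
      · exact Or.inr (Or.inl h1)
      · exact Or.inr (Or.inr h1)
    · rintro (⟨h1, h2, h3, h4, h5⟩ | ⟨rfl, h1⟩ | ⟨rfl, h1⟩)
      · by_contra hno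
        have hsub : ({(a, b), (b, a), (x, y)} : Finset (V × V)) ⊆
            (H ×ˢ H).filter (fun e => c e.1 ≠ c e.2 ∧ ¬ G.Adj e.1 e.2) := by
          intro e he
          simp only [Finset.mem_insert, Finset.mem_singleton] at he
          rw [Finset.mem_filter, Finset.mem_product]
          rcases he with rfl | rfl | rfl
          · exact ⟨⟨h.hT ha, h.hT hb⟩, hca, hadj⟩
          · exact ⟨⟨h.hT hb, h.hT ha⟩, hca.symm, fun q => hadj q.symm⟩
          · exact ⟨⟨h1, h2⟩, h3, hno⟩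
        have hc3 : ({(a, b), (b, a), (x, y)} : Finset (V × V)).card = 3 := by
          rw [Finset.card_insert_of_notMem, Finset.card_insert_of_notMem, Finset.card_singleton]
          · rw [Finset.mem_singleton]
            intro q
            exact h5 ⟨(Prod.mk.inj q).1.symm, (Prod.mk.inj q).2.symm⟩
          · rw [Finset.mem_insert, Finset.mem_singleton]
            rintro (q | q)
            · exact hab (Prod.mk.inj q).1
            · exact h4 ⟨(Prod.mk.inj q).1.symm, (Prod.mk.inj q).2.symm⟩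
        have hle : 3 ≤ mis G H c := by
          rw [← hc3]
          exact Finset.card_le_card hsub
        omega
      · exact h.hwT y h1
      · exact (h.hwT x h1).symm

end X_SM6

theorem x_SM6 (hD2 : Stmt_D2G) (hD3 : Stmt_D3G) (hEB : Stmt_EBG) (hE2 : Stmt_E2G)
    (hE3 : Stmt_E3G) (_hGS : Stmt_GS) (hFS1 : Stmt_FS1) (hFS2 : Stmt_FS2) : Stmt_SM6 := by
  classical
  intro r hr
  obtain ⟨d0, n0, hd0, H0⟩ := pSM r hr
  obtain ⟨d1, n1, hd1, H1⟩ := hD2 r hr
  obtain ⟨d2, n2, hd2, H2⟩ := hD3 r hr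
  obtain ⟨d3, n3, hd3, H3⟩ := hEB r hr
  obtain ⟨d4, n4, hd4, H4⟩ := hE2 r hr
  obtain ⟨d5, n5, hd5, H5⟩ := hE3 r hr
  obtain ⟨d6, n6, hd6, H6⟩ := hFS1 r hr
  obtain ⟨d7, n7, hd7, H7⟩ := hFS2 r hr
  obtain ⟨d8, n8, hd8, H8⟩ := (blk_EQS pGF pEID pFLAT) r hr
  obtain ⟨d, hd, l0, l1, l2, l3, l4, l5, l6, l7, l8⟩ : ∃ d : ℝ, 0 < d ∧ d ≤ d0 ∧ d ≤ d1 ∧
      d ≤ d2 ∧ d ≤ d3 ∧ d ≤ d4 ∧ d ≤ d5 ∧ d ≤ d6 ∧ d ≤ d7 ∧ d ≤ d8 := by
    refine ⟨min (min (min d0 d1) (min d2 d3)) (min (min d4 d5) (min d6 (min d7 d8))), ?_, ?_⟩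
    · simp only [lt_min_iff]
      exact ⟨⟨⟨hd0, hd1⟩, hd2, hd3⟩, ⟨hd4, hd5⟩, hd6, hd7, hd8⟩
    · simp only [min_le_iff, le_refl, true_or, or_true, and_self]
  refine ⟨d, n0 + n1 + n2 + n3 + n4 + n5 + n6 + n7 + n8, hd, ?_⟩
  intro N hN V _ G c H hC hfree hcol hMX
  have key : ∀ (w : V) (A : Finset V) (v1 v2 : V), WD G N H c w A v1 v2 →
      FamD N (fun i => (cl H c i).card) G := fun w A v1 v2 h =>
    ⟨H, c, w, A, v1, v2, h, fun _ => rfl,
      H1 N (by omega) V G H c w A v1 v2 (hC.mono l1) h hMX,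
      H2 N (by omega) V G H c w A v1 v2 (hC.mono l2) h hMX⟩
  rcases H0 N (by omega) V G c H (hC.mono l0) hfree hcol hMX with
    ⟨w, A, v1, v2, h⟩ | ⟨w, u, A, B, i0, h⟩ | ⟨w, T, h⟩
  · exact Or.inl (key w A v1 v2 h)
  · have ho := H3 N (by omega) V G H c w u A B i0 (hC.mono l3) h hMX
    exact Or.inr (Or.inl ⟨H, c, w, u, A, B, i0, h, fun _ => rfl, ho,
      H4 N (by omega) V G H c w u A B i0 (hC.mono l4) h ho hMX,
      H5 N (by omega) V G H c w u A B i0 (hC.mono l5) h ho hMX⟩)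
  · by_cases h4 : 4 ≤ mis G H c
    · obtain ⟨L, p, q, hWS, hL, hbig⟩ := H6 N (by omega) V G c H w T (hC.mono l6) h hMX h4
      refine Or.inr (Or.inr ⟨H, c, w, T, L, p, q, hWS, fun _ => rfl, by omega, ?_, hbig⟩)
      rcases lt_trichotomy (cl H c (c q)).card (cl H c (c p)).card with h5 | h5 | h5
      · exact h5
      · exact (H8 N (by omega) V G c H w T (c q) (c p) (hC.mono l8) h hMX h4
          (Ne.symm hWS.hpq) h5).elim
      · exact (H7 N (by omega) V G c H w T L p q (hC.mono l7) hWS hMX (by omega) h5).elim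
    · have hev := (pEVN r V G c H).1
      have hm : mis G H c ≤ 2 := by
        obtain ⟨k, hk⟩ := hev
        omega
      obtain ⟨a, b, hWD⟩ := X_SM6.wd_of_wf h hm
      exact Or.inl (key w T a b hWD)

end Pool.Agent.Work.MP_5532fa_up
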