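import Pool.Agent.Work.MP_5532fa_x.Interface3
import Pool.Agent.Work.MP_5532fa_x.B_MAIN8

/-!
# Block SMJ (helper7): the case `j + 1 < r`, the gadgets

`RJS` gives the class sizes, whose deviations from `N/r` are bounded, and `x_MAIN8` with `n = N`
gives the claim.
-/

set_option autoImplicit false

open Finset

namespace Pool.Agent.Work.MP_5532fa_up

open MP5532fa (specRad qf pE)

theorem x_SMJ (hRJS : Stmt_RJS) (hGPS : Stmt_GPS) : Stmt_SMJ := by
  intro r hr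
  have hrr : (3 : ℝ) ≤ r := by exact_mod_cast hr
  have hr0 : (0 : ℝ) < r := by linarith
  obtain ⟨κ, m8, hκ, H8⟩ := x_MAIN8 hGPS r hr
  obtain ⟨M, hM⟩ := exists_nat_gt ((3 * (r : ℝ)) ^ 3 / κ + 6 * (r : ℝ) ^ 2)
  refine ⟨m8 + ((M + 1) ^ 2 + 1), ?_⟩
  intro m hm N j hmj hlt hj hexc V _ G hG
  have hNM := large_N pTN hr (M + 1) (show (M + 1) ^ 2 + 1 ≤ m by omega) hlt
  have hMN : (M : ℝ) < N := by exact_mod_cast (by omega : M < N)
  have hp1 : 0 < (3 * (r : ℝ)) ^ 3 / κ := by positivity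
  have hN6 : 6 * (r : ℝ) ^ 2 < N := by linarith only [hp1, hM, hMN]
  have hNκ : (3 * (r : ℝ)) ^ 3 ≤ κ * N := by
    have h1 : (3 * (r : ℝ)) ^ 3 / κ < N := by
      have : (0 : ℝ) ≤ 6 * (r : ℝ) ^ 2 := by positivity
      linarith only [hM, hMN, this]
    rw [div_lt_iff₀ hκ] at h1
    linarith only [h1]
  have hN1 : (1 : ℝ) ≤ N := by nlinarith only [hN6, hrr]
  obtain ⟨y, hy1, hy2⟩ := hRJS r N j hr hj hexc
  have hy1' : ∑ i, (y i : ℝ) = (N : ℝ) := by exact_mod_cast hy1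
  have hy2' : ∑ i, (y i : ℝ) ^ 2 + 2 * ((tn r N : ℝ) + j) = (N : ℝ) ^ 2 + 2 * ((r : ℝ) - 1) := by
    exact_mod_cast hy2
  have htn := (pTN r hr N).2.1
  rw [abs_le] at htn
  -- the deviations
  obtain ⟨D, hD⟩ : ∃ D : ℝ, D = ∑ i, ((y i : ℝ) - N / r) ^ 2 := ⟨_, rfl⟩
  have hDm : D = ∑ i, (y i : ℝ) ^ 2 - (N : ℝ) ^ 2 / r := by
    have h1 := mo_two (y := fun i => (y i : ℝ)) hr hy1'
    unfold mo at h1
    rw [hD]
    exact h1
  have hD0 : 0 ≤ D := by
    rw [hD]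
    exact Finset.sum_nonneg fun _ _ => sq_nonneg _
  have hjr : (0 : ℝ) ≤ j := Nat.cast_nonneg j
  have hD3 : D ≤ 3 * r := by
    have e : al r * (N : ℝ) ^ 2 = (N : ℝ) ^ 2 - (N : ℝ) ^ 2 / r := by unfold al; ring
    linarith only [hDm, hy2', htn.1, htn.2, e, hjr]
  have hpos : ∀ i, 0 ≤ y i := by
    intro i
    by_contra hcon
    push Not at hcon
    have h1 : (y i : ℝ) < 0 := by exact_mod_cast hcon
    have h2 : ((y i : ℝ) - N / r) ^ 2 ≤ D := by
      rw [hD]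
      exact Finset.single_le_sum (f := fun i => ((y i : ℝ) - (N : ℝ) / r) ^ 2)
        (fun _ _ => sq_nonneg _) (Finset.mem_univ i)
    have h3 : 6 * (r : ℝ) ≤ N / r := by
      rw [le_div_iff₀ hr0]
      linarith only [hN6, sq (r : ℝ)]
    have h4 : (6 * (r : ℝ)) ^ 2 ≤ ((y i : ℝ) - N / r) ^ 2 := by
      rw [sq_le_sq, abs_of_nonneg (by positivity)]
      rw [abs_of_neg (by linarith only [h1, h3, hr0])]
      linarith only [h1, h3]
    nlinarith only [h4, h2, hD3, hrr]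
  have e1 : ∀ i, (((y i).toNat : ℕ) : ℤ) = y i := fun i => Int.toNat_of_nonneg (hpos i)
  have e2 : ∀ i, (((y i).toNat : ℕ) : ℝ) = (y i : ℝ) := fun i => by exact_mod_cast e1 i
  have hsum : ∑ i, (y i).toNat = N := by
    have : ((∑ i, (y i).toNat : ℕ) : ℤ) = (N : ℤ) := by
      push_cast
      simp only [e1]
      exact hy1
    exact_mod_cast this
  have hkk : kk m N (fun i => (y i).toNat) = 0 := by
    unfold kk
    simp only [e2]
    have h3 : (m : ℝ) = tn r N + j := by rw [hmj]; push_cast; ring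
    rw [h3]
    linarith only [hy2']
  have hDe : ∑ i, ((((y i).toNat : ℕ) : ℝ) - N / r) ^ 2 = D := by
    simp only [e2]
    exact hD.symm
  have hr3 : 0 ≤ 3 * (r : ℝ) := by positivity
  have hDr3 : D ^ 3 ≤ (3 * (r : ℝ)) ^ 3 := pow_le_pow_left₀ hD0 hD3 3
  have hDr2 : D ^ 2 ≤ (3 * (r : ℝ)) ^ 2 := pow_le_pow_left₀ hD0 hD3 2
  have h23 : (3 * (r : ℝ)) ^ 2 ≤ (3 * (r : ℝ)) ^ 3 :=
    pow_le_pow_right₀ (by linarith only [hrr]) (by norm_num)
  have hκN : κ * (N : ℝ) ≤ κ * (N : ℝ) ^ 2 :=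
    mul_le_mul_of_nonneg_left (by nlinarith only [hN1]) hκ.le
  refine (H8 m (by omega) N N (fun i => (y i).toNat) (by omega) hlt (Or.inl rfl) hsum hkk ?_
    V G hG).2 ?_
  · rw [hDe]
    linarith only [hDr3, hNκ, hκN]
  · rw [hDe]
    linarith only [hDr2, h23, hNκ]

end Pool.Agent.Work.MP_5532fa_up
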