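import Pool.Agent.Work.MP_5532fa_x.Interface6

/-!
# MP_5532fa_co, sixth round, block THF: the first threshold
-/

open Finset

namespace Pool.Agent.Work.MP_5532fa_up

open MP5532fa (specRad qf pE)

namespace X_THF

theorem thet_nonneg {r : ℕ} (hr : 3 ≤ r) (N : ℕ) {X : ℝ} : 0 ≤ thet r N X := by
  have hrr : (3 : ℝ) ≤ r := by exact_mod_cast hr
  unfold thet
  split_ifs
  · have h1 : (0 : ℝ) ≤ 2 * r * ((r : ℝ) - 2) :=
      mul_nonneg (by linarith only [hrr]) (by linarith only [hrr])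
    have h2 : (0 : ℝ) ≤ X ^ 4 := by positivity
    exact div_nonneg h2 h1
  · exact le_rfl

theorem thet_le {r : ℕ} (hr : 3 ≤ r) (N : ℕ) {X : ℝ} (h0 : 0 ≤ X) (h1 : X ≤ 1) :
    thet r N X ≤ 1 / (2 * r) := by
  have hrr : (3 : ℝ) ≤ r := by exact_mod_cast hr
  unfold thet
  split_ifs
  · have h2 : X ^ 4 ≤ 1 := pow_le_one₀ h0 h1
    have h3 : 2 * (r : ℝ) ≤ 2 * r * ((r : ℝ) - 2) := by nlinarith only [hrr]
    exact div_le_div₀ zero_le_one h2 (by linarith only [hrr]) h3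
  · positivity

/-- the window lies in the range of the second round -/
theorem rgU {r N j : ℕ} (hr : 3 ≤ r) (hN : 1 ≤ N) {ε : ℝ} (hε : ε ≤ 1 / 36)
    (h : ((r : ℝ) + 1) * (j / (al r * N)) ≤ 1 + 1 / (2 * r)) : RgU r ε N j := by
  have hrr : (3 : ℝ) ≤ r := by exact_mod_cast hr
  have hN1 : (1 : ℝ) ≤ N := by exact_mod_cast hN
  have ha := al_ge hr
  have haN : (0 : ℝ) < al r * N :=
    mul_pos (by linarith only [ha]) (by linarith only [hN1])
  have h1 : 1 / (2 * (r : ℝ)) ≤ 1 / 6 :=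
    one_div_le_one_div_of_le (by norm_num) (by linarith only [hrr])
  have h2 : 2 / (r : ℝ) ≤ 2 / 3 := div_le_div_of_nonneg_left (by norm_num) (by norm_num) hrr
  have hX0 : 0 ≤ (j : ℝ) / (al r * N) := by positivity
  have h3 : (j : ℝ) / (al r * N) ≤ 7 / 24 := by
    have h4 : 4 * ((j : ℝ) / (al r * N)) ≤ ((r : ℝ) + 1) * (j / (al r * N)) :=
      mul_le_mul_of_nonneg_right (by linarith only [hrr]) hX0
    linarith only [h, h1, h4]
  rw [div_le_iff₀ haN] at h3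
  show (j : ℝ) ≤ ((1 - 2 / r) * al r - ε) * N
  have h5 : (1 / 3 : ℝ) * (al r * N) ≤ (1 - 2 / (r : ℝ)) * (al r * N) :=
    mul_le_mul_of_nonneg_right (by linarith only [h2]) haN.le
  have h6 : 2 / 3 * (N : ℝ) ≤ al r * N :=
    mul_le_mul_of_nonneg_right ha (by linarith only [hN1])
  have h7 : ε * (N : ℝ) ≤ 1 / 36 * N := mul_le_mul_of_nonneg_right hε (by linarith only [hN1])
  have h8 : ((1 - 2 / (r : ℝ)) * al r - ε) * N = (1 - 2 / (r : ℝ)) * (al r * N) - ε * N := by ring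
  rw [h8]
  linarith only [h3, h5, h6, h7]

end X_THF

theorem x_THF (hTHX : Stmt_THX) : Stmt_THF := by
  classical
  intro r hr
  have hrr : (3 : ℝ) ≤ r := by exact_mod_cast hr
  obtain ⟨K, N0, hK, HX⟩ := hTHX r hr
  obtain ⟨N1, HE⟩ := pEXU r (1 / 36) hr (by norm_num)
  obtain ⟨ε1, hε1d⟩ : ∃ ε1 : ℝ, ε1 = min (1 / (2 * (r : ℝ))) (1 / 36) := ⟨_, rfl⟩
  have hε1 : 0 < ε1 := by
    rw [hε1d]
    exact lt_min (by positivity) (by norm_num)
  have e1 : ε1 ≤ 1 / (2 * (r : ℝ)) := by rw [hε1d]; exact min_le_left _ _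
  have e2 : ε1 ≤ 1 / 36 := by rw [hε1d]; exact min_le_right _ _
  obtain ⟨N2, HL⟩ := pLIN2 r ε1 hr hε1
  obtain ⟨N3, HT⟩ := pTHRDB r (1 / (2 * (r : ℝ) ^ 2)) hr (by positivity)
  refine ⟨K, (N0 + N1 + N2 + N3 + 5 * r + 1) ^ 2 + 1, hK, ?_⟩
  intro m hm N j hmj hlt hj2 hX V _ G hG
  have hNM := large_N pTN hr _ hm hlt
  have hN1 : (1 : ℝ) ≤ N := by
    have : 1 ≤ N := by omega
    exact_mod_cast this
  have hN0 : (0 : ℝ) ≤ N := by linarith only [hN1]
  have ha := al_ge hr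
  have haN : (0 : ℝ) < al r * N :=
    mul_pos (by linarith only [ha]) (by linarith only [hN1])
  have em : 2 * (m : ℝ) = 2 * ((tn r N : ℝ) + j) := by rw [hmj]; push_cast; ring
  have hX0 : 0 ≤ (j : ℝ) / (al r * N) := by positivity
  have hrinv : 1 / (4 * (r : ℝ) ^ 2) ≤ 1 / r := by
    apply one_div_le_one_div_of_le (by linarith only [hrr])
    nlinarith only [hrr]
  have h2r : 2 / (r : ℝ) = 1 / r + 1 / r := by ring
  have hX1r : (j : ℝ) / (al r * N) ≤ 1 - 1 / r := by linarith only [hX, hrinv, h2r]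
  have hrp : 0 < 1 / (r : ℝ) := by positivity
  have hX1 : (j : ℝ) / (al r * N) ≤ 1 := by linarith only [hX1r, hrp]
  have hKN : 0 ≤ K / N := div_nonneg (by linarith only [hK]) hN0
  have ht0 := X_THF.thet_nonneg hr N (X := (j : ℝ) / (al r * N))
  have ht1 := X_THF.thet_le hr N hX0 hX1
  by_cases hlo : ((r : ℝ) + 1) * (j / (al r * N)) < 1 - 1 / (2 * r)
  · -- below the window
    have hp2 : 0 < 1 / (2 * (r : ℝ)) := by positivity
    refine ⟨fun hD => ?_, fun _ => by linarith only [hlo, hp2, ht0, hKN]⟩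
    exfalso
    obtain ⟨lD, lE, c1, c2, -, ⟨G', hG'⟩, -, c6, -⟩ := HL N (by omega) j hj2
      (X_THF.rgU hr (by omega) e2 (by linarith only [hlo, hp2]))
    have h1 := c6 (by linarith only [hlo, e1])
    obtain ⟨⟨a1, a2, a3⟩, a4⟩ := c2 _ G' hG'
    have h2 := hG.2.2.2 _ G' a1 a2 (a3.trans em.symm)
    rw [a4, (c1 V G hD).2] at h2
    linarith only [h1, h2]
  by_cases hhi : 1 + 1 / (2 * (r : ℝ)) < ((r : ℝ) + 1) * (j / (al r * N))
  · -- above the window
    refine ⟨fun _ => by linarith only [hhi, ht1, hKN], fun hE => ?_⟩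
    exfalso
    have hjl : 1 / (2 * (r : ℝ) ^ 2) * N ≤ j := by
      have h1 : 1 ≤ ((r : ℝ) + 1) * (j / (al r * N)) := by
        have : 0 < 1 / (2 * (r : ℝ)) := by positivity
        linarith only [hhi, this]
      have h2 : al r * N ≤ ((r : ℝ) + 1) * j := by
        have h3 := mul_le_mul_of_nonneg_right h1 haN.le
        have h4 : ((r : ℝ) + 1) * (j / (al r * N)) * (al r * N) = ((r : ℝ) + 1) * j := by
          field_simp
        rw [h4, one_mul] at h3
        exact h3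
      have h5 : 2 / 3 * (N : ℝ) ≤ al r * N := mul_le_mul_of_nonneg_right ha hN0
      have h6 : 2 / 3 * (N : ℝ) ≤ ((r : ℝ) + 1) * j := h5.trans h2
      rw [div_mul_eq_mul_div, one_mul, div_le_iff₀ (by positivity)]
      have hj0 : (0 : ℝ) ≤ j := by positivity
      have h7 : ((r : ℝ) + 1) * j ≤ 2 / 3 * (2 * (r : ℝ) ^ 2) * j :=
        mul_le_mul_of_nonneg_right (by nlinarith only [hrr]) hj0
      linarith only [h6, h7]
    have hRV : RgV r N j := by
      show (j : ℝ) ≤ (1 - 2 / r + 1 / (4 * r ^ 2)) * (al r * N)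
      rwa [div_le_iff₀ haN] at hX
    refine HT N (by omega) j ⟨hjl, hRV⟩ ?_ V G hE hG.mx
    have h4 : ((j : ℝ) / (al r * N)) ^ 4 ≤ 1 - 1 / r := by
      have h5 : ((j : ℝ) / (al r * N)) ^ 4 ≤ ((j : ℝ) / (al r * N)) ^ 1 :=
        pow_le_pow_of_le_one hX0 hX1 (by norm_num)
      rw [pow_one] at h5
      exact h5.trans hX1r
    have h6 : ((j : ℝ) / (al r * N)) ^ 4 / (r * ((r : ℝ) - 1)) ≤ (1 - 1 / r) / (2 * r) := by
      apply div_le_div₀ _ h4 (by linarith only [hrr]) (by nlinarith only [hrr])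
      linarith only [h4, pow_nonneg hX0 4]
    have h7 : (1 - 1 / (r : ℝ)) / (2 * r) = 1 / (2 * r) - 1 / (2 * (r : ℝ) ^ 2) := by
      have : (r : ℝ) ≠ 0 := by linarith only [hrr]
      field_simp
    rw [h7] at h6
    linarith only [h6, hhi]
  -- the window
  push Not at hlo hhi
  have hW : |((r : ℝ) + 1) * (j / (al r * N)) - 1| ≤ 1 / (2 * r) := by
    rw [abs_le]
    constructor <;> linarith only [hlo, hhi]
  have hNN : 3 * r ≤ N := by omega
  obtain ⟨⟨GD, hGD⟩, ⟨GE, hGE⟩⟩ := HE N (by omega) j (X_THF.rgU hr (by omega) le_rfl hhi) hj2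
    (Fin (N + 2)) (by simp)
  constructor
  · intro hD
    obtain ⟨a1, a2, a3⟩ := typeE_class pTN pGE hr hNN hGE
    have h1 := hG.2.2.2 _ GE a1 a2 (a3.trans em.symm)
    have h2 := HX N (by omega) j hW V (Fin (N + 2)) G GE hD hGE
    have h3 : 0 ≤ (N : ℝ) * (specRad G - specRad GE) :=
      mul_nonneg hN0 (sub_nonneg.2 h1)
    have h4 := (abs_le.1 h2).2
    linarith only [h3, h4, hKN]
  · intro hE
    obtain ⟨a1, a2, a3⟩ := typeD_class pTN pGD hr hNN hGD
    have h1 := hG.2.2.2 _ GD a1 a2 (a3.trans em.symm)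
    have h2 := HX N (by omega) j hW (Fin (N + 2)) V GD G hGD hE
    have h3 : 0 ≤ (N : ℝ) * (specRad G - specRad GD) :=
      mul_nonneg hN0 (sub_nonneg.2 h1)
    have h5 : (N : ℝ) * (specRad GD - specRad G) = -((N : ℝ) * (specRad G - specRad GD)) := by ring
    have h4 := (abs_le.1 h2).1
    rw [h5] at h4
    linarith only [h3, h4, hKN]

end Pool.Agent.Work.MP_5532fa_up
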