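import Pool.Agent.Work.MP_5532fa_x.Interface6

/-!
# MP_5532fa_co, sixth round, block THX: comparison of D and E near the first threshold
-/

open Finset

namespace Pool.Agent.Work.MP_5532fa_up

open MP5532fa (specRad qf pE)

namespace X_THX

/-! ## uniform `O` -/

section calculus

variable {α : Type}

/-- `f = O(g)` uniformly on `α` -/
def OO (g f : α → ℝ) : Prop := ∃ C : ℝ, 0 ≤ C ∧ ∀ t, |f t| ≤ C * g t

/-- the constant function one -/
def one (α : Type) : α → ℝ := fun _ => 1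

theorem OO.congr {g f f' : α → ℝ} (h : OO g f) (e : ∀ t, f t = f' t) : OO g f' := by
  obtain ⟨C, hC, H⟩ := h
  exact ⟨C, hC, fun t => by rw [← e t]; exact H t⟩

theorem OO.add {g f f' : α → ℝ} (h : OO g f) (h' : OO g f') : OO g (fun t => f t + f' t) := by
  obtain ⟨C, hC, H⟩ := h
  obtain ⟨C', hC', H'⟩ := h'
  refine ⟨C + C', by positivity, fun t => (abs_add_le _ _).trans ?_⟩
  rw [add_mul]
  exact add_le_add (H t) (H' t)

theorem OO.neg {g f : α → ℝ} (h : OO g f) : OO g (fun t => - f t) := by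
  obtain ⟨C, hC, H⟩ := h
  exact ⟨C, hC, fun t => by rw [abs_neg]; exact H t⟩

theorem OO.sub {g f f' : α → ℝ} (h : OO g f) (h' : OO g f') : OO g (fun t => f t - f' t) :=
  (h.add h'.neg).congr fun t => by ring

theorem OO.mul {g g' f f' : α → ℝ} (h : OO g f) (h' : OO g' f') :
    OO (fun t => g t * g' t) (fun t => f t * f' t) := by
  obtain ⟨C, hC, H⟩ := h
  obtain ⟨C', hC', H'⟩ := h'
  refine ⟨C * C', by positivity, fun t => ?_⟩
  rw [abs_mul]
  calc |f t| * |f' t| ≤ (C * g t) * (C' * g' t) :=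
        mul_le_mul (H t) (H' t) (abs_nonneg _) ((abs_nonneg _).trans (H t))
    _ = C * C' * (g t * g' t) := by ring

theorem OO.mono {g g' f : α → ℝ} (h : OO g f) (K : ℝ) (hK : 0 ≤ K) (hg : ∀ t, g t ≤ K * g' t) :
    OO g' f := by
  obtain ⟨C, hC, H⟩ := h
  refine ⟨C * K, by positivity, fun t => (H t).trans ?_⟩
  rw [mul_assoc]
  exact mul_le_mul_of_nonneg_left (hg t) hC

theorem OO.mul1 {g f f' : α → ℝ} (h : OO g f) (h' : OO (one α) f') :
    OO g (fun t => f t * f' t) :=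
  (h.mul h').mono 1 zero_le_one fun t => by simp [one]

theorem OO.one_mul {g f f' : α → ℝ} (h : OO (one α) f) (h' : OO g f') :
    OO g (fun t => f t * f' t) :=
  (h'.mul1 h).congr fun t => by ring

theorem OO.const (c : ℝ) : OO (one α) (fun _ => c) := ⟨|c|, abs_nonneg _, fun t => by simp [one]⟩

theorem OO.inv {f : α → ℝ} {c : ℝ} (hc : 0 < c) (h : ∀ t, c ≤ f t) :
    OO (one α) (fun t => (f t)⁻¹) := by
  refine ⟨c⁻¹, by positivity, fun t => ?_⟩
  have h0 : 0 < f t := hc.trans_le (h t)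
  rw [abs_of_pos (inv_pos.2 h0)]
  simp only [one, mul_one]
  exact inv_anti₀ hc (h t)

theorem OO.sum {r : ℕ} {g : α → ℝ} {f : Fin r → α → ℝ} (h : ∀ i, OO g (f i)) :
    OO g (fun t => ∑ i, f i t) := by
  choose C hC H using h
  refine ⟨∑ i, C i, Finset.sum_nonneg fun i _ => hC i, fun t => ?_⟩
  rw [Finset.sum_mul]
  exact (Finset.abs_sum_le_sum_abs _ _).trans (Finset.sum_le_sum fun i _ => H i t)

/-- `f = f0 + O(g)` -/
def NR (g f f0 : α → ℝ) : Prop := OO g (fun t => f t - f0 t)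

theorem NR.refl (g f : α → ℝ) : NR g f f := ⟨0, le_rfl, fun t => by simp⟩

theorem NR.add {g f f0 k k0 : α → ℝ} (h : NR g f f0) (h' : NR g k k0) :
    NR g (fun t => f t + k t) (fun t => f0 t + k0 t) :=
  OO.congr (OO.add h h') fun t => by ring

theorem NR.neg {g f f0 : α → ℝ} (h : NR g f f0) : NR g (fun t => - f t) (fun t => - f0 t) :=
  OO.congr (OO.neg h) fun t => by ring

theorem NR.sub {g f f0 k k0 : α → ℝ} (h : NR g f f0) (h' : NR g k k0) :
    NR g (fun t => f t - k t) (fun t => f0 t - k0 t) :=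
  OO.congr (OO.sub h h') fun t => by ring

theorem NR.mul {g f f0 k k0 : α → ℝ} (h : NR g f f0) (h' : NR g k k0) (b : OO (one α) f)
    (b0 : OO (one α) k0) : NR g (fun t => f t * k t) (fun t => f0 t * k0 t) :=
  OO.congr (OO.add (OO.one_mul b h') (OO.mul1 h b0)) fun t => by ring

theorem NR.inv {g f f0 : α → ℝ} {c : ℝ} (hc : 0 < c) (h : NR g f f0) (b : ∀ t, c ≤ f t)
    (b0 : ∀ t, c ≤ f0 t) : NR g (fun t => (f t)⁻¹) (fun t => (f0 t)⁻¹) := by
  refine OO.congr (OO.mul1 (OO.mul1 (OO.neg h) (OO.inv hc b)) (OO.inv hc b0)) fun t => ?_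
  have h1 : f t ≠ 0 := (hc.trans_le (b t)).ne'
  have h2 : f0 t ≠ 0 := (hc.trans_le (b0 t)).ne'
  field_simp
  ring

theorem NR.sum {r : ℕ} {g : α → ℝ} {f f0 : Fin r → α → ℝ} (h : ∀ i, NR g (f i) (f0 i)) :
    NR g (fun t => ∑ i, f i t) (fun t => ∑ i, f0 i t) :=
  OO.congr (OO.sum h) fun t => by rw [Finset.sum_sub_distrib]

/-- `f = f0 + O(g)`, both bounded -/
structure NB (g f f0 : α → ℝ) : Prop where
  nr : NR g f f0
  b : OO (one α) f
  b0 : OO (one α) f0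

theorem NB.refl {f : α → ℝ} (g : α → ℝ) (b : OO (one α) f) : NB g f f := ⟨NR.refl g f, b, b⟩

theorem NB.const (g : α → ℝ) (c : ℝ) : NB g (fun _ => c) (fun _ => c) := NB.refl g (OO.const c)

theorem NB.add {g f f0 k k0 : α → ℝ} (h : NB g f f0) (h' : NB g k k0) :
    NB g (fun t => f t + k t) (fun t => f0 t + k0 t) :=
  ⟨h.nr.add h'.nr, h.b.add h'.b, h.b0.add h'.b0⟩

theorem NB.sub {g f f0 k k0 : α → ℝ} (h : NB g f f0) (h' : NB g k k0) :
    NB g (fun t => f t - k t) (fun t => f0 t - k0 t) :=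
  ⟨h.nr.sub h'.nr, h.b.sub h'.b, h.b0.sub h'.b0⟩

theorem NB.mul {g f f0 k k0 : α → ℝ} (h : NB g f f0) (h' : NB g k k0) :
    NB g (fun t => f t * k t) (fun t => f0 t * k0 t) :=
  ⟨h.nr.mul h'.nr h.b h'.b0, h.b.mul1 h'.b, h.b0.mul1 h'.b0⟩

theorem NB.inv {g f f0 : α → ℝ} {c : ℝ} (hc : 0 < c) (h : NB g f f0) (b : ∀ t, c ≤ f t)
    (b0 : ∀ t, c ≤ f0 t) : NB g (fun t => (f t)⁻¹) (fun t => (f0 t)⁻¹) :=
  ⟨h.nr.inv hc b b0, OO.inv hc b, OO.inv hc b0⟩

theorem NB.pow {g f f0 : α → ℝ} (h : NB g f f0) (k : ℕ) :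
    NB g (fun t => f t ^ k) (fun t => f0 t ^ k) := by
  induction k with
  | zero => simpa using NB.const g 1
  | succ k ih => simpa only [pow_succ] using ih.mul h

theorem NB.congr {g f f0 f' f0' : α → ℝ} (h : NB g f f0) (e : ∀ t, f t = f' t)
    (e0 : ∀ t, f0 t = f0' t) : NB g f' f0' :=
  ⟨h.nr.congr fun t => by rw [e t, e0 t], h.b.congr e, h.b0.congr e0⟩

end calculus

/-! ## the expansions -/

/-- expansion of `FF` -/
noncomputable def EE (r N : ℕ) (lam s σ Q : ℝ) : ℝ :=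
  s ^ 2 / (lam * (lam + N / r) ^ 2) - 2 * s * σ / (lam * (lam + N / r) ^ 3)
    + s ^ 3 / (lam ^ 3 * (lam + N / r) ^ 2) - s ^ 2 * Q / (lam ^ 3 * (lam + N / r) ^ 3)

/-- second order part -/
noncomputable def RF (s u q L p : ℝ) : ℝ :=
  s ^ 3 * (L ^ 3 * p ^ 2)⁻¹ - 2 * s * u * (L * p ^ 3)⁻¹ - s ^ 2 * q * (L ^ 3 * p ^ 3)⁻¹

theorem EE_norm {r N : ℕ} {lam : ℝ} (s σ Q : ℝ) (hN : (0 : ℝ) < N) (hl : 0 < lam)
    (hr : (0 : ℝ) < r) :
    (N : ℝ) * EE r N lam s σ Q = (s / N) ^ 2 * (lam / N * (lam / N + 1 / r) ^ 2)⁻¹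
      + (N : ℝ)⁻¹ * RF (s / N) (σ / N) (Q / N ^ 2) (lam / N) (lam / N + 1 / r) := by
  have hP : 0 < lam + N / r := by positivity
  have e : lam / N + 1 / r = (lam + N / r) / N := by field_simp
  rw [e]
  unfold EE RF
  generalize lam + (N : ℝ) / r = P at *
  field_simp
  ring

/-- the data of a pair of graphs -/
structure Dat (r : ℕ) (C : ℝ) where
  N : ℕ
  j : ℕ
  lam : ℝ
  lam' : ℝ
  n : Fin r → ℝ
  sD : ℝ
  sE : ℝ
  qD : ℝ
  qE : ℝ
  FD : ℝ
  FE : ℝ
  ρ : ℝ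
  tD : ℝ
  tE : ℝ
  hC : 1 ≤ C
  hN : 16 * C ≤ N
  hj : (j : ℝ) ≤ 2 * N
  hl : |lam - al r * N| ≤ C
  hl' : |lam' - al r * N| ≤ C
  hn : ∀ i, |n i - N / r| ≤ C
  hρ0 : 0 ≤ ρ
  hρ1 : ρ ≤ 1
  htD : 1 ≤ tD
  htE : 1 ≤ tE
  hsD : |sD + ρ * j| ≤ C
  hsE : |sE + ρ * j| ≤ C
  hqD : |qD - (j : ℝ) ^ 2 / tD| ≤ C * N
  hqE : |qE - (j : ℝ) ^ 2 / tE| ≤ C * N
  hFD : |FD - EE r N lam (j + 1) sD qD| ≤ C / (N : ℝ) ^ 3
  hFE : |FE - EE r N lam' (j - r) sE qE| ≤ C / (N : ℝ) ^ 3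
  hD : |Ph n lam + FD - 2 / (N : ℝ) ^ 2| ≤ C / (N : ℝ) ^ 3
  hE : |Ph n lam' + FE| ≤ C / (N : ℝ) ^ 3

namespace Dat

variable {r : ℕ} {C : ℝ}

/-- `1 / N` -/
noncomputable def h (d : Dat r C) : ℝ := (d.N : ℝ)⁻¹

/-- `j / N` -/
noncomputable def y (d : Dat r C) : ℝ := d.j / d.N

/-- `lam / N` -/
noncomputable def L (d : Dat r C) : ℝ := d.lam / d.N

/-- `lam' / N` -/
noncomputable def L' (d : Dat r C) : ℝ := d.lam' / d.N

theorem N0 (d : Dat r C) : (0 : ℝ) < d.N := by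
  have := d.hC
  have := d.hN
  linarith

theorem h0 (d : Dat r C) : 0 < d.h := inv_pos.2 d.N0

theorem Ch (d : Dat r C) : C * d.h ≤ 1 / 16 := by
  unfold h
  rw [← div_eq_mul_inv, div_le_iff₀ d.N0]
  linarith [d.hN]

theorem h1 (d : Dat r C) : d.h ≤ 1 := by
  have h1 := d.Ch
  have h2 := d.hC
  have h3 := d.h0
  nlinarith

theorem y0 (d : Dat r C) : 0 ≤ d.y := div_nonneg (Nat.cast_nonneg _) d.N0.le

theorem y2 (d : Dat r C) : d.y ≤ 2 := by
  unfold y
  rw [div_le_iff₀ d.N0]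
  exact d.hj

theorem Lab (d : Dat r C) : |d.L - al r| ≤ C * d.h := by
  have e : d.L - al r = (d.lam - al r * d.N) * d.h := by
    unfold L h
    have := d.N0.ne'
    field_simp
  rw [e, abs_mul, abs_of_pos d.h0]
  exact mul_le_mul_of_nonneg_right d.hl d.h0.le

theorem Lab' (d : Dat r C) : |d.L' - al r| ≤ C * d.h := by
  have e : d.L' - al r = (d.lam' - al r * d.N) * d.h := by
    unfold L' h
    have := d.N0.ne'
    field_simp
  rw [e, abs_mul, abs_of_pos d.h0]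
  exact mul_le_mul_of_nonneg_right d.hl' d.h0.le

theorem nab (d : Dat r C) (i : Fin r) : |d.n i / d.N - 1 / r| ≤ C * d.h := by
  have e : d.n i / d.N - 1 / r = (d.n i - d.N / r) * d.h := by
    unfold h
    have := d.N0.ne'
    field_simp
  rw [e, abs_mul, abs_of_pos d.h0]
  exact mul_le_mul_of_nonneg_right (d.hn i) d.h0.le

end Dat


section core

variable {r : ℕ} {C : ℝ}

theorem bd_h : OO (one (Dat r C)) Dat.h :=
  ⟨1, zero_le_one, fun d => by simpa [one, abs_of_pos d.h0] using d.h1⟩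

theorem nb_h : NB Dat.h Dat.h (fun _ : Dat r C => 0) :=
  ⟨⟨1, zero_le_one, fun d => by simp [abs_of_pos d.h0]⟩, bd_h, OO.const 0⟩

theorem nb_of {f f0 : Dat r C → ℝ} (h : NR Dat.h f f0) (b : OO (one (Dat r C)) f0) :
    NB Dat.h f f0 :=
  ⟨h, ((OO.mono h 1 zero_le_one (fun d => by simpa [one] using d.h1)).add b).congr
    fun d => by ring, b⟩

theorem nb_y : NB Dat.h Dat.y (Dat.y (r := r) (C := C)) :=
  NB.refl _ ⟨2, by norm_num, fun d => by simpa [one, abs_of_nonneg d.y0] using d.y2⟩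

theorem nb_L (hC : 1 ≤ C) : NB Dat.h Dat.L (fun _ : Dat r C => al r) :=
  nb_of ⟨C, by linarith, fun d => d.Lab⟩ (OO.const _)

theorem nb_L' (hC : 1 ≤ C) : NB Dat.h Dat.L' (fun _ : Dat r C => al r) :=
  nb_of ⟨C, by linarith, fun d => d.Lab'⟩ (OO.const _)

theorem al_add (r : ℕ) : al r + 1 / r = 1 := by
  unfold al
  ring

theorem L_ge (hr : 3 ≤ r) (d : Dat r C) : 1 / 2 ≤ d.L := by
  have h1 := (abs_le.1 d.Lab).1
  have h2 := al_ge hr
  have h3 := d.Ch
  linarith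

theorem L_ge' (hr : 3 ≤ r) (d : Dat r C) : 1 / 2 ≤ d.L' := by
  have h1 := (abs_le.1 d.Lab').1
  have h2 := al_ge hr
  have h3 := d.Ch
  linarith

theorem rinv_pos (r : ℕ) : (0 : ℝ) ≤ 1 / r := by positivity

theorem n_ge (d : Dat r C) (i : Fin r) : -(1 / 16) ≤ d.n i / d.N := by
  have h1 := (abs_le.1 (d.nab i)).1
  have h2 := rinv_pos r
  have h3 := d.Ch
  linarith

/-- the sum in the difference of `Ph` -/
noncomputable def SS (d : Dat r C) : ℝ :=
  ∑ i, d.n i / d.N * (d.L + d.n i / d.N)⁻¹ * (d.L' + d.n i / d.N)⁻¹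

theorem SS_near (hr : 3 ≤ r) (hC : 1 ≤ C) : NR Dat.h SS (fun _ : Dat r C => 1) := by
  have hrr : (3 : ℝ) ≤ r := by exact_mod_cast hr
  have h1 : ∀ i : Fin r, NB Dat.h (fun d : Dat r C =>
      d.n i / d.N * (d.L + d.n i / d.N)⁻¹ * (d.L' + d.n i / d.N)⁻¹)
      (fun _ => 1 / r * (al r + 1 / r)⁻¹ * (al r + 1 / r)⁻¹) := by
    intro i
    have hn : NB Dat.h (fun d : Dat r C => d.n i / d.N) (fun _ => 1 / (r : ℝ)) :=
      nb_of ⟨C, by linarith, fun d => d.nab i⟩ (OO.const _)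
    refine (hn.mul (((nb_L hC).add hn).inv (c := 1 / 4) (by norm_num) (fun d => ?_)
      (fun _ => ?_))).mul (((nb_L' hC).add hn).inv (c := 1 / 4) (by norm_num) (fun d => ?_)
      (fun _ => ?_))
    · have := L_ge hr d
      have := n_ge d i
      linarith
    · rw [al_add r]
      norm_num
    · have := L_ge' hr d
      have := n_ge d i
      linarith
    · rw [al_add r]
      norm_num
  refine OO.congr (NR.sum fun i => (h1 i).nr) fun d => ?_
  unfold SS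
  rw [al_add r]
  simp
  field_simp

theorem Ph_sub (hr : 3 ≤ r) (d : Dat r C) :
    (d.N : ℝ) * (Ph d.n d.lam - Ph d.n d.lam') = -((d.lam - d.lam') * SS d) := by
  unfold Ph SS
  have hN := d.N0
  rw [← neg_mul, Finset.mul_sum]
  rw [show ∀ a b : ℝ, a - 1 - (b - 1) = a - b from fun a b => by ring, ← Finset.sum_sub_distrib,
    Finset.mul_sum]
  refine Finset.sum_congr rfl fun i _ => ?_
  have e1 : d.L + d.n i / d.N = (d.lam + d.n i) / d.N := by
    unfold Dat.L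
    field_simp
  have e2 : d.L' + d.n i / d.N = (d.lam' + d.n i) / d.N := by
    unfold Dat.L'
    field_simp
  have p1 : 0 < d.lam + d.n i := by
    have h1 : 0 < (d.lam + d.n i) / d.N := by
      rw [← e1]
      linarith [L_ge hr d, n_ge d i]
    exact (div_pos_iff_of_pos_right hN).1 h1
  have p2 : 0 < d.lam' + d.n i := by
    have h1 : 0 < (d.lam' + d.n i) / d.N := by
      rw [← e2]
      linarith [L_ge' hr d, n_ge d i]
    exact (div_pos_iff_of_pos_right hN).1 h1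
  rw [e1, e2]
  field_simp
  ring

theorem lam_pos (hr : 3 ≤ r) (d : Dat r C) : 0 < d.lam := by
  have h1 : 0 < d.lam / d.N := by
    have := L_ge hr d
    unfold Dat.L at this
    linarith
  exact (div_pos_iff_of_pos_right d.N0).1 h1

theorem lam_pos' (hr : 3 ≤ r) (d : Dat r C) : 0 < d.lam' := by
  have h1 : 0 < d.lam' / d.N := by
    have := L_ge' hr d
    unfold Dat.L' at this
    linarith
  exact (div_pos_iff_of_pos_right d.N0).1 h1

/-- the functions of `L` -/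
theorem nb_A (hr : 3 ≤ r) (hC : 1 ≤ C) (a b : ℕ) :
    NB Dat.h (fun d : Dat r C => (d.L ^ a * (d.L + 1 / r) ^ b)⁻¹) (fun _ => (al r ^ a)⁻¹) := by
  have h2 := al_ge hr
  have h3 := rinv_pos r
  have h4 : (0 : ℝ) < (1 / 2) ^ a * (1 / 2) ^ b := by positivity
  refine NB.congr ((((nb_L hC).pow a).mul (((nb_L hC).add (NB.const _ (1 / (r : ℝ)))).pow b)).inv
    h4 (fun d => ?_) (fun _ => ?_)) (fun _ => rfl) (fun _ => ?_)
  · have := L_ge hr d
    gcongr
    linarith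
  · gcongr
    · linarith
    · rw [al_add r]; norm_num
  · rw [al_add r]; simp

theorem nb_A' (hr : 3 ≤ r) (hC : 1 ≤ C) (a b : ℕ) :
    NB Dat.h (fun d : Dat r C => (d.L' ^ a * (d.L' + 1 / r) ^ b)⁻¹) (fun _ => (al r ^ a)⁻¹) := by
  have h2 := al_ge hr
  have h3 := rinv_pos r
  have h4 : (0 : ℝ) < (1 / 2) ^ a * (1 / 2) ^ b := by positivity
  refine NB.congr ((((nb_L' hC).pow a).mul
    (((nb_L' hC).add (NB.const _ (1 / (r : ℝ)))).pow b)).inv
    h4 (fun d => ?_) (fun _ => ?_)) (fun _ => rfl) (fun _ => ?_)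
  · have := L_ge' hr d
    gcongr
    linarith
  · gcongr
    · linarith
    · rw [al_add r]; norm_num
  · rw [al_add r]; simp

/-- the second order parts -/
theorem nb_RF {s u q s0 u0 q0 L : Dat r C → ℝ}
    (hA : ∀ a b : ℕ, NB Dat.h (fun d : Dat r C => (L d ^ a * (L d + 1 / r) ^ b)⁻¹)
      (fun _ => (al r ^ a)⁻¹)) (hs : NB Dat.h s s0) (hu : NB Dat.h u u0) (hq : NB Dat.h q q0) :
    NB Dat.h (fun d => RF (s d) (u d) (q d) (L d) (L d + 1 / r))
      (fun d => s0 d ^ 3 * (al r ^ 3)⁻¹ - 2 * s0 d * u0 d * (al r ^ 1)⁻¹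
        - s0 d ^ 2 * q0 d * (al r ^ 3)⁻¹) := by
  refine NB.congr ((((hs.pow 3).mul (hA 3 2)).sub ((((NB.const _ 2).mul hs).mul hu).mul
    (hA 1 3))).sub (((hs.pow 2).mul hq).mul (hA 3 3))) (fun d => ?_) (fun d => rfl)
  unfold RF
  simp only [pow_one]

/-- the main term plus `2` -/
noncomputable def MM (d : Dat r C) : ℝ :=
  2 * (1 + r) * d.y * (al r)⁻¹ + (d.y ^ 4 * (al r ^ 3)⁻¹ * (1 / d.tE) - d.y ^ 4 * (al r ^ 3)⁻¹
    * (1 / d.tD))

/-- the difference of the spectral radii -/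
noncomputable def DL (d : Dat r C) : ℝ := d.lam - d.lam'

theorem bd_DL (hC : 1 ≤ C) : OO (one (Dat r C)) DL := by
  refine ⟨2 * C, by linarith, fun d => ?_⟩
  have e : DL d = (d.lam - al r * d.N) - (d.lam' - al r * d.N) := by
    unfold DL
    ring
  rw [e]
  have := abs_sub (d.lam - al r * d.N) (d.lam' - al r * d.N)
  have h1 := d.hl
  have h2 := d.hl'
  simp only [one]
  linarith

theorem err {X : Dat r C → ℝ} (h : ∀ d, |X d| ≤ C / (d.N : ℝ) ^ 3) (hC : 1 ≤ C) :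
    OO (fun d : Dat r C => d.h * d.h) (fun d => d.N * X d) := by
  refine ⟨C, by linarith, fun d => ?_⟩
  have hN := d.N0
  rw [abs_mul, abs_of_pos hN]
  calc (d.N : ℝ) * |X d| ≤ d.N * (C / (d.N : ℝ) ^ 3) := mul_le_mul_of_nonneg_left (h d) hN.le
    _ = C * (d.h * d.h) := by
        unfold Dat.h
        field_simp

/-- the factor in the difference of the leading terms -/
noncomputable def WW (d : Dat r C) : ℝ :=
  ((d.L' + 1 / r) ^ 2 + d.L * ((d.L + 1 / r) + (d.L' + 1 / r)))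
    * (d.L ^ 1 * (d.L + 1 / r) ^ 2)⁻¹ * (d.L' ^ 1 * (d.L' + 1 / r) ^ 2)⁻¹

theorem bd_WW (hr : 3 ≤ r) (hC : 1 ≤ C) : OO (one (Dat r C)) WW := by
  have h1 := (nb_L (r := r) hC).b
  have h2 := (nb_L' (r := r) hC).b
  have h3 := (((nb_L (r := r) hC).add (NB.const _ (1 / (r : ℝ))))).b
  have h4 := ((nb_L' (r := r) hC).add (NB.const _ (1 / (r : ℝ))))
  exact (((h4.pow 2).b.add (OO.mul1 h1 (h3.add h4.b))).mul1 (nb_A hr hC 1 2).b).mul1
    (nb_A' hr hC 1 2).b

theorem A_sub (hr : 3 ≤ r) (d : Dat r C) :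
    (d.L ^ 1 * (d.L + 1 / r) ^ 2)⁻¹ - (d.L' ^ 1 * (d.L' + 1 / r) ^ 2)⁻¹
      = -(WW d * (DL d * d.h)) := by
  have h1 : 0 < d.L := by linarith [L_ge hr d]
  have h2 : 0 < d.L' := by linarith [L_ge' hr d]
  have h3 := rinv_pos r
  have h4 : 0 < d.L + 1 / r := by linarith
  have h5 : 0 < d.L' + 1 / r := by linarith
  have e : DL d * d.h = d.L - d.L' := by
    unfold DL Dat.h Dat.L Dat.L'
    have := d.N0
    field_simp
  rw [e]
  have hX : d.L ^ 1 * (d.L + 1 / r) ^ 2 ≠ 0 := by positivity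
  have hY : d.L' ^ 1 * (d.L' + 1 / r) ^ 2 ≠ 0 := by positivity
  have key : d.L' ^ 1 * (d.L' + 1 / r) ^ 2 - d.L ^ 1 * (d.L + 1 / r) ^ 2
      = -(((d.L' + 1 / r) ^ 2 + d.L * ((d.L + 1 / r) + (d.L' + 1 / r))) * (d.L - d.L')) := by
    ring
  have e2 : ∀ X Y : ℝ, X ≠ 0 → Y ≠ 0 → X⁻¹ - Y⁻¹ = (Y - X) * X⁻¹ * Y⁻¹ := by
    intro X Y hX hY
    field_simp
  rw [e2 _ _ hX hY, key]
  unfold WW
  ring

/-- normalised second moments -/
theorem nb_q {q t : Dat r C → ℝ} (hC : 1 ≤ C) (ht : ∀ d, 1 ≤ t d)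
    (h : ∀ d, |q d - (d.j : ℝ) ^ 2 / t d| ≤ C * d.N) :
    NB Dat.h (fun d => q d / (d.N : ℝ) ^ 2) (fun d => d.y ^ 2 * (1 / t d)) := by
  refine nb_of ⟨C, by linarith, fun d => ?_⟩ (((nb_y).pow 2).b.mul1 ?_)
  · have hN := d.N0
    have ht0 : t d ≠ 0 := by linarith [ht d]
    have e : q d / (d.N : ℝ) ^ 2 - d.y ^ 2 * (1 / t d)
        = (q d - (d.j : ℝ) ^ 2 / t d) / (d.N : ℝ) ^ 2 := by
      unfold Dat.y
      field_simp
    change |q d / (d.N : ℝ) ^ 2 - d.y ^ 2 * (1 / t d)| ≤ _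
    rw [e, abs_div, abs_of_pos (by positivity : (0 : ℝ) < (d.N : ℝ) ^ 2),
      div_le_iff₀ (by positivity)]
    refine (h d).trans (le_of_eq ?_)
    unfold Dat.h
    field_simp
  · refine ⟨1, zero_le_one, fun d => ?_⟩
    have h1 := ht d
    rw [abs_of_nonneg (by positivity)]
    simp only [one, mul_one]
    rw [div_le_one (by linarith)]
    exact h1

/-- normalised mixed sums -/
theorem nb_u {u : Dat r C → ℝ} (hC : 1 ≤ C) (h : ∀ d, |u d + d.ρ * d.j| ≤ C) :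
    NB Dat.h (fun d => u d / d.N) (fun d => -(d.ρ * d.y)) := by
  refine nb_of ⟨C, by linarith, fun d => ?_⟩ (OO.neg (OO.mul1 ?_ nb_y.b))
  · have hN := d.N0
    have e : u d / d.N - -(d.ρ * d.y) = (u d + d.ρ * d.j) * d.h := by
      unfold Dat.y Dat.h
      field_simp
      ring
    change |u d / d.N - -(d.ρ * d.y)| ≤ _
    rw [e, abs_mul, abs_of_pos d.h0]
    exact mul_le_mul_of_nonneg_right (h d) d.h0.le
  · refine ⟨1, zero_le_one, fun d => ?_⟩
    rw [abs_of_nonneg d.hρ0]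
    simpa [one] using d.hρ1

/-- first part of the error -/
noncomputable def T1 (d : Dat r C) : ℝ :=
  d.h * ((1 + r) * (2 * d.y + (1 - r) * d.h) * (d.L ^ 1 * (d.L + 1 / r) ^ 2)⁻¹
      - (1 + r) * (2 * d.y + (1 - r) * 0) * (al r ^ 1)⁻¹)
    + d.h * ((RF (d.y + 1 * d.h) (d.sD / d.N) (d.qD / (d.N : ℝ) ^ 2) d.L (d.L + 1 / r)
        - RF (d.y - r * d.h) (d.sE / d.N) (d.qE / (d.N : ℝ) ^ 2) d.L' (d.L' + 1 / r))
      - (((d.y + 1 * 0) ^ 3 * (al r ^ 3)⁻¹ - 2 * (d.y + 1 * 0) * (-(d.ρ * d.y)) * (al r ^ 1)⁻¹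
          - (d.y + 1 * 0) ^ 2 * (d.y ^ 2 * (1 / d.tD)) * (al r ^ 3)⁻¹)
        - ((d.y - r * 0) ^ 3 * (al r ^ 3)⁻¹ - 2 * (d.y - r * 0) * (-(d.ρ * d.y)) * (al r ^ 1)⁻¹
          - (d.y - r * 0) ^ 2 * (d.y ^ 2 * (1 / d.tE)) * (al r ^ 3)⁻¹)))
    - (d.N * (Ph d.n d.lam + d.FD - 2 / (d.N : ℝ) ^ 2) - d.N * (Ph d.n d.lam' + d.FE)
      - d.N * (d.FD - EE r d.N d.lam (d.j + 1) d.sD d.qD)
      + d.N * (d.FE - EE r d.N d.lam' (d.j - r) d.sE d.qE))

/-- second part of the error -/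
noncomputable def T2 (d : Dat r C) : ℝ :=
  -(DL d * (SS d - 1)) - ((d.y - r * d.h) ^ 2 * WW d) * (DL d * d.h)

theorem T1_bd (hr : 3 ≤ r) (hC : 1 ≤ C) : OO (fun d : Dat r C => d.h * d.h) T1 := by
  have hh : OO Dat.h (Dat.h (r := r) (C := C)) :=
    ⟨1, zero_le_one, fun d => by simp [abs_of_pos d.h0]⟩
  have hsD : NB Dat.h (fun d : Dat r C => d.y + 1 * d.h) (fun d => d.y + 1 * 0) :=
    nb_y.add ((NB.const _ 1).mul nb_h)
  have hsE : NB Dat.h (fun d : Dat r C => d.y - r * d.h) (fun d => d.y - r * 0) :=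
    nb_y.sub ((NB.const _ (r : ℝ)).mul nb_h)
  have huD := nb_u (r := r) (u := Dat.sD) hC (fun d => d.hsD)
  have huE := nb_u (r := r) (u := Dat.sE) hC (fun d => d.hsE)
  have hqD := nb_q (r := r) (q := Dat.qD) (t := Dat.tD) hC (fun d => d.htD) (fun d => d.hqD)
  have hqE := nb_q (r := r) (q := Dat.qE) (t := Dat.tE) hC (fun d => d.htE) (fun d => d.hqE)
  have a1 := (((NB.const Dat.h (1 + (r : ℝ))).mul (((NB.const Dat.h 2).mul nb_y).add
    ((NB.const _ (1 - (r : ℝ))).mul nb_h))).mul (nb_A hr hC 1 2)).nr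
  have a2 := ((nb_RF (L := Dat.L) (nb_A hr hC) hsD huD hqD).sub
    (nb_RF (L := Dat.L') (nb_A' hr hC) hsE huE hqE)).nr
  exact ((hh.mul a1).add (hh.mul a2)).sub ((((err (fun d => d.hD) hC).sub
    (err (fun d => d.hE) hC)).sub (err (fun d => d.hFD) hC)).add (err (fun d => d.hFE) hC))

theorem T2_bd (hr : 3 ≤ r) (hC : 1 ≤ C) : OO (fun d : Dat r C => |DL d| * d.h) T2 := by
  have hh : OO Dat.h (Dat.h (r := r) (C := C)) :=
    ⟨1, zero_le_one, fun d => by simp [abs_of_pos d.h0]⟩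
  have hd : OO (fun d : Dat r C => |DL d|) DL := ⟨1, zero_le_one, fun d => by simp⟩
  have hsE : NB Dat.h (fun d : Dat r C => d.y - r * d.h) (fun d => d.y - r * 0) :=
    nb_y.sub ((NB.const _ (r : ℝ)).mul nb_h)
  exact (hd.mul (SS_near hr hC)).neg.sub (OO.one_mul ((hsE.pow 2).b.mul1 (bd_WW hr hC))
    (hd.mul hh))

theorem ident (hr : 3 ≤ r) (d : Dat r C) :
    DL d = d.h * (MM d - 2) + T1 d + T2 d := by
  have hN := d.N0
  have hrr : (0 : ℝ) < r := by
    have : (3 : ℝ) ≤ r := by exact_mod_cast hr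
    linarith
  have e1 := Ph_sub hr d
  have e2 := EE_norm (r := r) (d.j + 1 : ℝ) d.sD d.qD hN (lam_pos hr d) hrr
  have e3 := EE_norm (r := r) (d.j - r : ℝ) d.sE d.qE hN (lam_pos' hr d) hrr
  have e4 := A_sub hr d
  have f1 : ((d.j : ℝ) + 1) / d.N = d.y + 1 * d.h := by
    unfold Dat.y Dat.h
    field_simp
  have f2 : ((d.j : ℝ) - r) / d.N = d.y - r * d.h := by
    unfold Dat.y Dat.h
    field_simp
  have f3 : (d.N : ℝ) * (2 / (d.N : ℝ) ^ 2) = 2 * d.h := by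
    unfold Dat.h
    field_simp
  rw [f1] at e2
  rw [f2] at e3
  have g1 : d.lam / d.N = d.L := rfl
  have g2 : d.lam' / d.N = d.L' := rfl
  have g3 : ((d.N : ℝ))⁻¹ = d.h := rfl
  rw [g1, g3] at e2
  rw [g2, g3] at e3
  unfold T1 T2 MM
  simp only [pow_one] at e4 ⊢
  change (d.N : ℝ) * (Ph d.n d.lam - Ph d.n d.lam') = -(DL d * SS d) at e1
  have key : d.N * (Ph d.n d.lam + d.FD - 2 / (d.N : ℝ) ^ 2) - d.N * (Ph d.n d.lam' + d.FE)
      - d.N * (d.FD - EE r d.N d.lam (d.j + 1) d.sD d.qD)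
      + d.N * (d.FE - EE r d.N d.lam' (d.j - r) d.sE d.qE)
      = -(DL d * SS d) - 2 * d.h
        + ((d.y + 1 * d.h) ^ 2 * (d.L * (d.L + 1 / r) ^ 2)⁻¹ + d.h * RF (d.y + 1 * d.h)
          (d.sD / d.N) (d.qD / (d.N : ℝ) ^ 2) d.L (d.L + 1 / r))
        - ((d.y - r * d.h) ^ 2 * (d.L' * (d.L' + 1 / r) ^ 2)⁻¹ + d.h * RF (d.y - r * d.h)
          (d.sE / d.N) (d.qE / (d.N : ℝ) ^ 2) d.L' (d.L' + 1 / r)) := by
    linear_combination e1 + e2 - e3 - f3
  rw [key]
  linear_combination (d.y - r * d.h) ^ 2 * e4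

theorem bd_inv_t {t : Dat r C → ℝ} (ht : ∀ d, 1 ≤ t d) :
    OO (one (Dat r C)) (fun d => 1 / t d) := by
  refine ⟨1, zero_le_one, fun d => ?_⟩
  have h1 := ht d
  rw [abs_of_nonneg (by positivity)]
  simp only [one, mul_one]
  rw [div_le_one (by linarith)]
  exact h1

theorem bd_MM : OO (one (Dat r C)) MM := by
  have hy := (nb_y (r := r) (C := C)).b
  have hy4 := ((nb_y (r := r) (C := C)).pow 4).b
  exact (((OO.const (2 * (1 + (r : ℝ)))).mul1 hy).mul1 (OO.const _)).add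
    (((hy4.mul1 (OO.const _)).mul1 (bd_inv_t fun d => d.htE)).sub
      ((hy4.mul1 (OO.const _)).mul1 (bd_inv_t fun d => d.htD)))

theorem core (hr : 3 ≤ r) (hC : 1 ≤ C) : ∃ K : ℝ, 0 ≤ K ∧ ∀ d : Dat r C,
    |(d.N : ℝ) * DL d - (MM d - 2)| ≤ K / d.N := by
  have hh : OO Dat.h (Dat.h (r := r) (C := C)) :=
    ⟨1, zero_le_one, fun d => by simp [abs_of_pos d.h0]⟩
  -- first `DL = O(h)`
  have s1 : OO Dat.h (DL (r := r) (C := C)) := by
    have t1 : OO Dat.h (fun d : Dat r C => d.h * (MM d - 2)) :=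
      hh.mul1 (bd_MM.sub (OO.const 2))
    have t2 : OO Dat.h (T1 (r := r) (C := C)) := (T1_bd hr hC).mono 1 zero_le_one fun d => by
      have h1 := d.h1
      have h0 := d.h0
      nlinarith
    have t3 : OO Dat.h (T2 (r := r) (C := C)) := by
      obtain ⟨B, hB, HB⟩ := bd_DL (r := r) hC
      refine (T2_bd hr hC).mono B hB fun d => ?_
      have := HB d
      simp only [one, mul_one] at this
      exact mul_le_mul_of_nonneg_right this d.h0.le
    exact ((t1.add t2).add t3).congr fun d => (ident hr d).symm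
  -- then the precise form
  have s2 : OO (fun d : Dat r C => d.h * d.h) (fun d => DL d - d.h * (MM d - 2)) := by
    have t3 : OO (fun d : Dat r C => d.h * d.h) (T2 (r := r) (C := C)) := by
      obtain ⟨B, hB, HB⟩ := s1
      refine (T2_bd hr hC).mono B hB fun d => ?_
      have := mul_le_mul_of_nonneg_right (HB d) d.h0.le
      rwa [mul_assoc] at this
    refine ((T1_bd hr hC).add t3).congr fun d => ?_
    have := ident hr d
    linarith
  obtain ⟨K, hK, H⟩ := s2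
  refine ⟨K, hK, fun d => ?_⟩
  have hN := d.N0
  have e : (d.N : ℝ) * DL d - (MM d - 2) = d.N * (DL d - d.h * (MM d - 2)) := by
    unfold Dat.h
    field_simp
  rw [e, abs_mul, abs_of_pos hN]
  calc (d.N : ℝ) * |DL d - d.h * (MM d - 2)| ≤ d.N * (K * (d.h * d.h)) :=
        mul_le_mul_of_nonneg_left (H d) hN.le
    _ = K / d.N := by
        unfold Dat.h
        field_simp

end core

/-! ## balanced classes -/

theorem bal_val {r N : ℕ} (hr : 1 ≤ r) (y : Fin r → ℕ) (hs : ∑ i, y i = N)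
    (hb : ∀ i k, y i ≤ y k + 1) (i : Fin r) : y i = N / r ∨ y i = N / r + 1 := by
  have h1 : r * y i + 1 ≤ N + r := by
    have h : ∑ k : Fin r, (y i + if k = i then 1 else 0) ≤ ∑ k : Fin r, (y k + 1) :=
      Finset.sum_le_sum fun k _ => by
        split_ifs with hk
        · rw [hk]
        · have := hb i k
          omega
    rw [Finset.sum_add_distrib, Finset.sum_add_distrib, hs] at h
    simpa using h
  have h2 : N + 1 ≤ r * y i + r := by
    have h : ∑ k : Fin r, (y k + if k = i then 1 else 0) ≤ ∑ k : Fin r, (y i + 1) :=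
      Finset.sum_le_sum fun k _ => by
        split_ifs with hk
        · rw [hk]
        · have := hb k i
          omega
    rw [Finset.sum_add_distrib, hs] at h
    simp only [Finset.sum_ite_eq', Finset.mem_univ, if_true, Finset.sum_const,
      Finset.card_univ, Fintype.card_fin, smul_eq_mul] at h
    linarith
  have h3 := Nat.div_add_mod N r
  have h4 := Nat.mod_lt N hr
  have h5 : N / r ≤ y i := by
    by_contra hc
    push Not at hc
    have : r * (y i + 1) ≤ r * (N / r) := Nat.mul_le_mul_left r hc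
    rw [mul_add, mul_one] at this
    omega
  have h6 : y i ≤ N / r + 1 := by
    by_contra hc
    push Not at hc
    have : r * (N / r + 2) ≤ r * y i := Nat.mul_le_mul_left r hc
    rw [mul_add] at this
    omega
  omega

theorem bal_sum {r N : ℕ} (hr : 1 ≤ r) (y : Fin r → ℕ) (hs : ∑ i, y i = N)
    (hb : ∀ i k, y i ≤ y k + 1) (f : ℝ → ℝ) : ∑ i, f (y i) =
      r * f ((N / r : ℕ) : ℝ) + ((N : ℝ) - r * (N / r : ℕ))
        * (f (((N / r : ℕ) : ℝ) + 1) - f ((N / r : ℕ) : ℝ)) := by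
  have h1 : ∀ i, f (y i) = f ((N / r : ℕ) : ℝ) + ((y i : ℝ) - (N / r : ℕ))
      * (f (((N / r : ℕ) : ℝ) + 1) - f ((N / r : ℕ) : ℝ)) := by
    intro i
    rcases bal_val hr y hs hb i with h | h
    · rw [h]
      ring
    · rw [h]
      push_cast
      ring
  rw [Finset.sum_congr rfl fun i _ => h1 i, Finset.sum_add_distrib, ← Finset.sum_mul,
    Finset.sum_sub_distrib]
  have h2 : ∑ i, (y i : ℝ) = N := by exact_mod_cast hs
  rw [h2]
  simp

theorem Ph_bal {V V' : Type} {r N : ℕ} (hr : 3 ≤ r) {H : Finset V} {c : V → Fin r}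
    {H' : Finset V'} {c' : V' → Fin r} (hH : H.card = N) (hH' : H'.card = N) (hB : Bal H c)
    (hB' : Bal H' c') (lam : ℝ) : Ph (sz H c) lam = Ph (sz H' c') lam := by
  unfold Ph
  have h1 := bal_sum (by omega) (fun i => (cl H c i).card) ((sum_card_cl H c).trans hH) hB
    (fun t => t / (lam + t))
  have h2 := bal_sum (by omega) (fun i => (cl H' c' i).card) ((sum_card_cl H' c').trans hH') hB'
    (fun t => t / (lam + t))
  unfold sz
  rw [h1, h2]

end X_THX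

open X_THX in
theorem x_THX (hFFE : Stmt_FFE) (hSECX : Stmt_SECX) (hPLC : Stmt_PLC) : Stmt_THX := by
  classical
  intro r hr
  have hrr : (3 : ℝ) ≤ r := by exact_mod_cast hr
  have hr0 : (0 : ℝ) < r := by linarith
  have ha := al_ge hr
  have ha0 : 0 < al r := by linarith
  obtain ⟨K1, N1, hK1, HS⟩ := hSECX r hr
  obtain ⟨K2, N2, hK2, HF⟩ := hFFE r K1 hr hK1
  obtain ⟨K3, N3, hK3, HP⟩ := hPLC r hr
  set C : ℝ := max K1 (max K2 K3) with hC
  have hC1 : K1 ≤ C := le_max_left _ _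
  have hC2 : K2 ≤ C := (le_max_left _ _).trans (le_max_right _ _)
  have hC3 : K3 ≤ C := (le_max_right _ _).trans (le_max_right _ _)
  have hC0 : 1 ≤ C := hK1.trans hC1
  obtain ⟨K, hK, HK⟩ := core (r := r) (C := C) hr hC0
  refine ⟨K + 1, N1 + N2 + N3 + ⌈16 * C⌉₊, by linarith, ?_⟩
  intro N hN j hj V V' _ _ G G' hD hE
  have hNC : 16 * C ≤ N := by
    have h1 : 16 * C ≤ ⌈16 * C⌉₊ := Nat.le_ceil _
    have h2 : ((⌈16 * C⌉₊ : ℕ) : ℝ) ≤ N := by
      have : ⌈16 * C⌉₊ ≤ N := by omega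
      exact_mod_cast this
    linarith
  have hN0 : (0 : ℝ) < N := by linarith
  obtain ⟨H0, c, w, A, v1, v2, hW, hA, hB, hP, hT⟩ := hD
  obtain ⟨H', c', w', u', A', B', i0, hW', _, hA', hB', hP', hT'⟩ := hE
  have : Nonempty V := ⟨w⟩
  have : Nonempty V' := ⟨w'⟩
  obtain ⟨x, hx⟩ := exists_PV G
  obtain ⟨x', hx'⟩ := exists_PV G'
  obtain ⟨a1, a2⟩ := (HS N (by omega) V G x _ c H0 w A hx hB).1 v1 v2 hW
  obtain ⟨b1, b2⟩ := (HS N (by omega) V' G' x' _ c' H' w' A' hx' hB').2 u' B' i0 hW'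
  obtain ⟨p1, p2⟩ := (HP N (by omega) j hj V G c H0 w A hB).1 v1 v2 hW hA hP hT
  obtain ⟨q1, q2⟩ := (HP N (by omega) j hj V' G' c' H' w' A' hB').2 u' B' i0 hW' hA' hP' hT'
  have hX : (j : ℝ) / (al r * N) ≤ 1 := by
    have h1 := (abs_le.1 hj).2
    have h2 : 1 / (2 * (r : ℝ)) ≤ 1 := by
      rw [div_le_one (by positivity)]
      linarith
    have h3 : 0 ≤ (j : ℝ) / (al r * N) := by positivity
    nlinarith
  have hj2 : (j : ℝ) ≤ 2 * N := by
    rw [div_le_one (by positivity)] at hX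
    have := al_lt hr
    nlinarith
  have szle : ∀ {U : Type} (S T : Finset U) (k : U → Fin r), S ⊆ T → T.card = N →
      ∀ i, sz S k i ≤ 2 * N := by
    intro U S T k hST hTN i
    have h1 : (cl S k i).card ≤ N :=
      (Finset.card_le_card (Finset.filter_subset _ _)).trans
        ((Finset.card_le_card hST).trans hTN.le)
    have h2 : ((cl S k i).card : ℝ) ≤ N := by exact_mod_cast h1
    unfold sz
    linarith
  have sumsz : ∀ {U : Type} (S : Finset U) (k : U → Fin r), ∑ i, sz S k i = S.card := by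
    intro U S k
    unfold sz
    exact_mod_cast sum_card_cl S k
  have sA : ((j : ℝ) + 1) = ∑ i, sz A c i := by
    rw [sumsz, hA]
    push_cast
    ring
  have sA' : ((j : ℝ) - r) = ∑ i, sz A' c' i := by
    rw [sumsz]
    have : ((A'.card + r : ℕ) : ℝ) = j := by exact_mod_cast hA'
    push_cast at this
    linarith
  have fD := HF N (by omega) (specRad G) (sz H0 c) (sz A c) (j + 1)
    (∑ i, sz A c i * (sz H0 c i - N / r)) (∑ i, sz A c i ^ 2) (specRad G + N / r) a1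
    (fun i => (THRE.near_of_bal hr hW.card hB i).trans hK1) (fun i => Nat.cast_nonneg _)
    (szle A H0 c hW.hA hW.card) sA rfl rfl rfl
  have fE := HF N (by omega) (specRad G') (sz H' c') (sz A' c') (j - r)
    (∑ i, sz A' c' i * (sz H' c' i - N / r)) (∑ i, sz A' c' i ^ 2) (specRad G' + N / r) b1
    (fun i => (THRE.near_of_bal hr hW'.card hB' i).trans hK1) (fun i => Nat.cast_nonneg _)
    (szle A' H' c' hW'.hA hW'.card) sA' rfl rfl rfl
  have hmod : N % r < r := Nat.mod_lt _ (by omega)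
  have hmod' : ((N % r : ℕ) : ℝ) + 1 ≤ r := by exact_mod_cast hmod
  have N3 : (0 : ℝ) < (N : ℝ) ^ 3 := by positivity
  let d : Dat r C :=
    { N := N
      j := j
      lam := specRad G
      lam' := specRad G'
      n := sz H0 c
      sD := ∑ i, sz A c i * (sz H0 c i - N / r)
      sE := ∑ i, sz A' c' i * (sz H' c' i - N / r)
      qD := ∑ i, sz A c i ^ 2
      qE := ∑ i, sz A' c' i ^ 2
      FD := FF (specRad G) (sz H0 c) (sz A c)
      FE := FF (specRad G') (sz H' c') (sz A' c')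
      ρ := ((N % r : ℕ) : ℝ) / r
      tD := if N % r ≤ 1 then (r : ℝ) - 2 else r - (N % r : ℕ)
      tE := if N % r ≤ 1 then (r : ℝ) - 1 else r - (N % r : ℕ)
      hC := hC0
      hN := hNC
      hj := hj2
      hl := a1.trans hC1
      hl' := b1.trans hC1
      hn := fun i => (THRE.near_of_bal hr hW.card hB i).trans hC0
      hρ0 := by positivity
      hρ1 := by
        rw [div_le_one hr0]
        linarith
      htD := by
        split_ifs <;> linarith
      htE := by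
        split_ifs <;> linarith
      hsD := p2.trans hC3
      hsE := q2.trans hC3
      hqD := p1.trans (mul_le_mul_of_nonneg_right hC3 hN0.le)
      hqE := q1.trans (mul_le_mul_of_nonneg_right hC3 hN0.le)
      hFD := fD.trans (div_le_div_of_nonneg_right hC2 N3.le)
      hFE := fE.trans (div_le_div_of_nonneg_right hC2 N3.le)
      hD := a2.trans (div_le_div_of_nonneg_right hC1 N3.le)
      hE := by
        rw [Ph_bal hr hW.card hW'.card hB hB']
        exact b2.trans (div_le_div_of_nonneg_right hC1 N3.le) }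
  have main := HK d
  have e : MM d - 2 = 2 * (((r : ℝ) + 1) * (j / (al r * N)) - 1 - thet r N (j / (al r * N))) := by
    have har : al r = (r - 1) / r := by
      unfold al
      field_simp
    have h1 : (r : ℝ) - 1 ≠ 0 := by linarith
    have h2 : (r : ℝ) - 2 ≠ 0 := by linarith
    change 2 * (1 + (r : ℝ)) * ((j : ℝ) / N) * (al r)⁻¹ + (((j : ℝ) / N) ^ 4 * (al r ^ 3)⁻¹
      * (1 / (if N % r ≤ 1 then (r : ℝ) - 1 else r - (N % r : ℕ))) - ((j : ℝ) / N) ^ 4
      * (al r ^ 3)⁻¹ * (1 / (if N % r ≤ 1 then (r : ℝ) - 2 else r - (N % r : ℕ)))) - 2 = _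
    unfold thet
    by_cases hm : N % r ≤ 1
    · rw [if_pos hm, if_pos hm, if_pos hm, har]
      field_simp
      ring
    · rw [if_neg hm, if_neg hm, if_neg hm]
      field_simp
      ring
  rw [e] at main
  refine main.trans ?_
  change K / (N : ℝ) ≤ (K + 1) / N
  exact div_le_div_of_nonneg_right (by linarith) hN0.le

end Pool.Agent.Work.MP_5532fa_up
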