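import Pool.Agent.Work.MP_5532fa_x.Interface

/-!
# Block TIEG: the position of the vertex of `B` outside `A` does not matter, general form
-/

open Finset

namespace Pool.Agent.Work.MP_5532fa_up

open MP5532fa (specRad qf pE)

namespace X_TIEG

section
variable {V : Type} [Fintype V] {r : ℕ}

theorem adj_zero {G : SimpleGraph V} {x : V → ℝ} {lam : ℝ} (hx : PV G x lam) {a b : V}
    (h : G.Adj a b) (ha : x a = 0) : x b = 0 := by
  have h1 : ∑ v, ad G a v * x v = 0 := by rw [hx.eig, ha, mul_zero]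
  have h2 := (Finset.sum_eq_zero_iff_of_nonneg (fun v _ =>
    mul_nonneg (chi_nonneg (G.Adj a v)) (hx.nn v))).1 h1 b (Finset.mem_univ b)
  have h3 : ad G a b = 1 := chi_pos h
  rwa [show chi (G.Adj a b) = 1 from h3, one_mul] at h2

theorem rad_pos [Nonempty V] {G : SimpleGraph V} {a b : V} (h : G.Adj a b) :
    0 < specRad G := by
  have h1 := rayleigh G (fun _ => (1 : ℝ))
  have h2 : ad G a b * ((1 : ℝ) * 1) ≤ ∑ v, ad G a v * ((1 : ℝ) * 1) :=
    Finset.single_le_sum (f := fun v => ad G a v * ((1 : ℝ) * 1))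
      (fun v _ => mul_nonneg (chi_nonneg _) (by norm_num)) (Finset.mem_univ b)
  have h3 : ∑ v, ad G a v * ((1 : ℝ) * 1) ≤ ∑ u, ∑ v, ad G u v * ((1 : ℝ) * 1) :=
    Finset.single_le_sum (f := fun u => ∑ v, ad G u v * ((1 : ℝ) * 1))
      (fun u _ => Finset.sum_nonneg fun v _ => mul_nonneg (chi_nonneg _) (by norm_num))
      (Finset.mem_univ a)
  have h4 : ad G a b = 1 := chi_pos h
  rw [h4] at h2
  by_contra hn
  have h5 : specRad G * ∑ _v : V, (1 : ℝ) ^ 2 ≤ 0 :=
    mul_nonpos_of_nonpos_of_nonneg (not_lt.1 hn) (Finset.sum_nonneg fun _ _ => by norm_num)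
  linarith

theorem iso_zero {G : SimpleGraph V} {x : V → ℝ} {lam : ℝ} (hx : PV G x lam) (hl : 0 < lam)
    {a : V} (h : ∀ b, ¬ G.Adj a b) : x a = 0 := by
  have h1 : ∑ v, ad G a v * x v = 0 :=
    Finset.sum_eq_zero fun v _ => by
      rw [show ad G a v = 0 from chi_neg (h v), zero_mul]
  rw [hx.eig] at h1
  rcases mul_eq_zero.1 h1 with h2 | h2
  · exact absurd h2 hl.ne'
  · exact h2

theorem pos {G : SimpleGraph V} {N : ℕ} {H : Finset V} {c : V → Fin r} {w u : V} {A B : Finset V}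
    {i0 : Fin r} {x : V → ℝ} {lam : ℝ} (hr : 3 ≤ r) (hG : WE G N H c w u A B i0)
    (hx : PV G x lam) (hl : 0 < lam) : 0 < x u := by
  refine lt_of_le_of_ne (hx.nn u) fun h0 => ?_
  have hu0 : x u = 0 := h0.symm
  have hw0 : x w = 0 := adj_zero hx ((hG.adj u w).2 (by tauto)) hu0
  have hB0 : ∀ b ∈ B, x b = 0 := fun b hb => adj_zero hx ((hG.adj u b).2 (by tauto)) hu0
  have hH0 : ∀ v ∈ H, x v = 0 := by
    intro v hv
    obtain ⟨i, hi0, hiv⟩ : ∃ i : Fin r, i ≠ i0 ∧ i ≠ c v := by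
      by_contra hcon
      push Not at hcon
      have h1 : (Finset.univ : Finset (Fin r)) ⊆ {i0, c v} := by
        intro i _
        by_cases hi : i = i0
        · simp [hi]
        · simp [hcon i hi]
      have h2 := Finset.card_le_card h1
      have h3 : ({i0, c v} : Finset (Fin r)).card ≤ 2 := Finset.card_le_two
      rw [Finset.card_univ, Fintype.card_fin] at h2
      omega
    obtain ⟨b, hb⟩ := Finset.card_pos.1 (by rw [hG.hB1 i hi0]; norm_num : 0 < (cl B c i).card)
    have hb' := mem_cl.1 hb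
    refine adj_zero hx ((hG.adj b v).2 (Or.inl ⟨hG.hB hb'.1, hv, ?_⟩)) (hB0 b hb'.1)
    rw [hb'.2]
    exact hiv
  have hall : ∀ v, x v = 0 := by
    intro v
    by_cases hv : v ∈ H
    · exact hH0 v hv
    by_cases hvw : v = w
    · rw [hvw]; exact hw0
    by_cases hvu : v = u
    · rw [hvu]; exact hu0
    refine iso_zero hx hl fun b hb => ?_
    rcases (hG.adj v b).1 hb with h | h | h | h | h | h | h
    · exact hv h.1
    · exact hvw h.1
    · exact hv (hG.hA h.2)
    · exact hvu h.1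
    · exact hv (hG.hB h.2)
    · exact hvw h.1
    · exact hvu h.1
  have h1 := hx.unit
  rw [Finset.sum_eq_zero fun v _ => by rw [hall v]; norm_num] at h1
  exact zero_ne_one h1

end

end X_TIEG

theorem x_TIEG : Stmt_TIEG := by
  intro r hr V _ G G' N H c w u A B B' i0 hG hG' h1 h1'
  have hV : Nonempty V := ⟨w⟩
  have hF := (pFAM r hr V G N H c w A).2 u B i0 hG
  have hF' := (pFAM r hr V G' N H c w A).2 u B' i0 hG'
  obtain ⟨x, hx⟩ := exists_PV G
  obtain ⟨y, hy⟩ := exists_PV G'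
  have hl : 0 < specRad G := X_TIEG.rad_pos ((hG.adj w u).2 (by tauto))
  have hl' : 0 < specRad G' := X_TIEG.rad_pos ((hG'.adj w u).2 (by tauto))
  refine TIE.main pCSE hF hF' hx hy hG.hu hG.hB hG'.hB ?_ h1 h1' hl hl' ?_
  · intro i
    by_cases hi : i = i0
    · rw [hi, hG.hB0, hG'.hB0]
    · rw [hG.hB1 i hi, hG'.hB1 i hi]
  · have h2 : x u * y u ≤ ∑ v, x v * y v :=
      Finset.single_le_sum (f := fun v => x v * y v)
        (fun i _ => mul_nonneg (hx.nn i) (hy.nn i)) (Finset.mem_univ u)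
    have h3 : 0 < x u * y u := mul_pos (X_TIEG.pos hr hG hx hl) (X_TIEG.pos hr hG' hy hl')
    linarith

end Pool.Agent.Work.MP_5532fa_up
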