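import Pool.Agent.Work.MP_5532fa_x.Interface2

/-! Block TNZ: (integer vectors) an entry which is as large as possible is almost the largest possible real
number. -/

open Finset

namespace Pool.Agent.Work.MP_5532fa_up

namespace X_TNZ

/-- a balanced integer vector -/
theorem balanced (r' : ℕ) (hr : 0 < r') (M : ℤ) : ∃ g : Fin r' → ℤ, ∑ j, g j = M ∧
    ∀ j, |(g j : ℝ) - M / r'| ≤ 1 := by
  have hr0 : (r' : ℤ) ≠ 0 := by exact_mod_cast hr.ne'
  have hrz : (0 : ℤ) < r' := by exact_mod_cast hr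
  have hrr : (0 : ℝ) < r' := by exact_mod_cast hr
  refine ⟨fun j => (M * ((j : ℕ) + 1 : ℕ)) / r' - (M * ((j : ℕ) : ℕ)) / r', ?_, fun j => ?_⟩
  · rw [Fin.sum_univ_eq_sum_range (fun j : ℕ => (M * ((j + 1 : ℕ) : ℤ)) / r' -
      (M * ((j : ℕ) : ℤ)) / r') r', sum_range_sub (fun j : ℕ => (M * (j : ℤ)) / r')]
    rw [Int.mul_ediv_cancel _ hr0]
    simp
  · have key : ∀ a : ℤ, ((a / (r' : ℤ) : ℤ) : ℝ) ≤ (a : ℝ) / r' ∧
        (a : ℝ) / r' - 1 < ((a / (r' : ℤ) : ℤ) : ℝ) := by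
      intro a
      constructor
      · rw [le_div_iff₀ hrr]
        have h1 : a / (r' : ℤ) * r' ≤ a := Int.ediv_mul_le a hr0
        exact_mod_cast h1
      · rw [sub_lt_iff_lt_add, div_lt_iff₀ hrr]
        have h1 : a < (a / (r' : ℤ) + 1) * r' := by
          have := Int.lt_ediv_add_one_mul_self a hrz
          linarith
        exact_mod_cast h1
    have h1 := key (M * ((j : ℕ) + 1 : ℕ))
    have h2 := key (M * ((j : ℕ) : ℕ))
    have e : ((M * ((j : ℕ) + 1 : ℕ) : ℤ) : ℝ) / r' = ((M * ((j : ℕ) : ℕ) : ℤ) : ℝ) / r' +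
        M / r' := by
      push_cast
      field_simp
    rw [e] at h1
    rw [abs_le]
    constructor
    · push_cast at h1 h2 ⊢
      linarith [h1.2, h2.1]
    · push_cast at h1 h2 ⊢
      linarith [h1.1, h2.2]

end X_TNZ

theorem x_TNZ : Stmt_TNZ := by
  intro r hr y i1 m htop hm
  have hr0 : (0 : ℝ) < r := by
    have : (3 : ℝ) ≤ r := by exact_mod_cast hr
    linarith
  obtain ⟨n, hn⟩ : ∃ n : ℤ, ∑ i, y i = n := ⟨_, rfl⟩
  have hsumR : ∑ i, (y i : ℝ) = n := by rw [← hn]; push_cast; rfl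
  have hle : ∀ i, y i ≤ y i1 := fun i => htop y rfl le_rfl i
  rw [hsumR] at hm
  constructor
  · have h1 : ∑ i, (y i : ℝ) ≤ ∑ _i : Fin r, (y i1 : ℝ) :=
      sum_le_sum fun i _ => by exact_mod_cast hle i
    rw [sum_const, card_univ, Fintype.card_fin, nsmul_eq_mul, hsumR] at h1
    rw [sub_nonneg, hm, div_le_iff₀ hr0]
    linarith
  · obtain ⟨r', rfl⟩ : ∃ r', r = r' + 1 := ⟨r - 1, by omega⟩
    have hr'0 : 0 < r' := by omega
    have hrr : (0 : ℝ) < r' := by exact_mod_cast hr'0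
    by_contra hcon
    push Not at hcon
    set a : ℤ := y i1 + 1 with ha
    obtain ⟨g, hg1, hg2⟩ := X_TNZ.balanced r' hr'0 (n - a)
    let z : Fin (r' + 1) → ℤ := Fin.insertNth (α := fun _ => ℤ) i1 a g
    have hz1 : z i1 = a := Fin.insertNth_apply_same (α := fun _ => ℤ) i1 a g
    have hz2 : ∀ j, z (i1.succAbove j) = g j :=
      fun j => Fin.insertNth_apply_succAbove (α := fun _ => ℤ) i1 a g j
    have hzs : ∑ i, z i = n := by
      rw [Fin.sum_univ_succAbove z i1, hz1]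
      simp only [hz2]
      rw [hg1]
      ring
    set d : ℝ := (y i1 : ℝ) - m with hd
    set M : ℝ := ((n - a : ℤ) : ℝ) / r' with hM
    have haR : (a : ℝ) = (y i1 : ℝ) + 1 := by rw [ha]; push_cast; ring
    have hnm : (n : ℝ) = ((r' : ℝ) + 1) * m := by
      rw [hm]
      push_cast
      field_simp
    have hMm : M - m = - (d + 1) / r' := by
      rw [hM, Int.cast_sub, haR, hd, hnm]
      field_simp
      ring
    have hgs : ∑ j, ((g j : ℝ) - M) = 0 := by
      rw [sum_sub_distrib, sum_const, card_univ, Fintype.card_fin, nsmul_eq_mul]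
      have : ∑ j, (g j : ℝ) = ((n - a : ℤ) : ℝ) := by exact_mod_cast hg1
      rw [this, hM]
      field_simp
      ring
    have hgq : ∑ j, ((g j : ℝ) - m) ^ 2 ≤ r' + (d + 1) ^ 2 / r' := by
      have e : ∀ j, ((g j : ℝ) - m) ^ 2 = ((g j : ℝ) - M) ^ 2 + 2 * (M - m) * ((g j : ℝ) - M) +
          (M - m) ^ 2 := fun j => by ring
      have h1 : ∑ j, ((g j : ℝ) - M) ^ 2 ≤ ∑ _j : Fin r', (1 : ℝ) := by
        refine sum_le_sum fun j _ => ?_
        rw [sq_le_one_iff_abs_le_one]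
        exact hg2 j
      simp only [e]
      rw [sum_add_distrib, sum_add_distrib, ← mul_sum, hgs, sum_const, card_univ,
        Fintype.card_fin, nsmul_eq_mul, hMm]
      rw [sum_const, card_univ, Fintype.card_fin, nsmul_eq_mul] at h1
      have e2 : (r' : ℝ) * (-(d + 1) / r') ^ 2 = (d + 1) ^ 2 / r' := by
        field_simp
      rw [e2]
      linarith
    have hzq : ∑ i, ((z i : ℝ) - m) ^ 2 ≤ ∑ i, ((y i : ℝ) - m) ^ 2 := by
      rw [Fin.sum_univ_succAbove (fun i => ((z i : ℝ) - m) ^ 2) i1]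
      simp only [hz1, hz2]
      have h1 : ((a : ℝ) - m) ^ 2 = (d + 1) ^ 2 := by
        rw [haR, hd]; ring
      have h2 : (d + 1) ^ 2 * (((r' + 1 : ℕ) : ℝ) / (((r' + 1 : ℕ) : ℝ) - 1)) =
          (d + 1) ^ 2 + (d + 1) ^ 2 / r' := by
        push_cast
        rw [add_sub_cancel_right]
        field_simp
      rw [h1]
      rw [h2] at hcon
      have h4 : (((r' + 1 : ℕ) : ℝ)) = r' + 1 := by push_cast; ring
      rw [h4] at hcon
      linarith
    have expand : ∀ f : Fin (r' + 1) → ℝ, ∑ i, f i = n →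
        ∑ i, (f i - m) ^ 2 = ∑ i, f i ^ 2 - 2 * m * n + ((r' : ℝ) + 1) * m ^ 2 := by
      intro f hf
      have e : ∀ i, (f i - m) ^ 2 = f i ^ 2 - 2 * m * f i + m ^ 2 := fun i => by ring
      simp only [e]
      rw [sum_add_distrib, sum_sub_distrib, ← mul_sum, hf, sum_const, card_univ,
        Fintype.card_fin, nsmul_eq_mul]
      push_cast
      ring
    rw [expand (fun i => (z i : ℝ)) (by exact_mod_cast hzs), expand (fun i => (y i : ℝ)) hsumR]
      at hzq
    have hzq' : ∑ i, (z i : ℝ) ^ 2 ≤ ∑ i, (y i : ℝ) ^ 2 := by linarith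
    have hfin := htop z (by rw [hzs, hn]) (by exact_mod_cast hzq') i1
    rw [hz1, ha] at hfin
    linarith

end Pool.Agent.Work.MP_5532fa_up
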