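import Pool.Agent.Work.MP_5532fa_x.Interface5
import Pool.Agent.Work.MP_5532fa_x.B_TNZ

/-! Block TNZ1: (integer vectors) as TNZ, with `z i1 = u i1 + 2` in the test vector. -/

open Finset

namespace Pool.Agent.Work.MP_5532fa_up

theorem x_TNZ1 : Stmt_TNZ1 := by
  intro r hr y i1 m htop hle hm
  have hr0 : (0 : ℝ) < r := by
    have : (3 : ℝ) ≤ r := by exact_mod_cast hr
    linarith
  obtain ⟨n, hn⟩ : ∃ n : ℤ, ∑ i, y i = n := ⟨_, rfl⟩
  have hsumR : ∑ i, (y i : ℝ) = n := by rw [← hn]; push_cast; rfl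
  rw [hsumR] at hm
  constructor
  · have h1 : ∑ i, (y i : ℝ) ≤ ∑ _i : Fin r, (y i1 : ℝ) :=
      sum_le_sum fun i _ => by exact_mod_cast hle i
    rw [sum_const, card_univ, Fintype.card_fin, nsmul_eq_mul, hsumR] at h1
    rw [sub_nonneg, hm, div_le_iff₀ hr0]
    linarith
  · obtain ⟨r', rfl⟩ : ∃ r', r = r' + 1 := ⟨r - 1, by omega⟩
    have hr'0 : 0 < r' := by omega
    have hrr : (0 : ℝ) < r' := by exact_mod_cast hr'0
    by_contra hcon
    push Not at hcon
    set a : ℤ := y i1 + 2 with ha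
    obtain ⟨g, hg1, hg2⟩ := X_TNZ.balanced r' hr'0 (n - a)
    let z : Fin (r' + 1) → ℤ := Fin.insertNth (α := fun _ => ℤ) i1 a g
    have hz1 : z i1 = a := Fin.insertNth_apply_same (α := fun _ => ℤ) i1 a g
    have hz2 : ∀ j, z (i1.succAbove j) = g j :=
      fun j => Fin.insertNth_apply_succAbove (α := fun _ => ℤ) i1 a g j
    have hzs : ∑ i, z i = n := by
      rw [Fin.sum_univ_succAbove z i1, hz1]
      simp only [hz2]
      rw [hg1]
      ring
    set d : ℝ := (y i1 : ℝ) - m with hd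
    set M : ℝ := ((n - a : ℤ) : ℝ) / r' with hM
    have haR : (a : ℝ) = (y i1 : ℝ) + 2 := by rw [ha]; push_cast; ring
    have hnm : (n : ℝ) = ((r' : ℝ) + 1) * m := by
      rw [hm]
      push_cast
      field_simp
    have hMm : M - m = - (d + 2) / r' := by
      rw [hM, Int.cast_sub, haR, hd, hnm]
      field_simp
      ring
    have hgs : ∑ j, ((g j : ℝ) - M) = 0 := by
      rw [sum_sub_distrib, sum_const, card_univ, Fintype.card_fin, nsmul_eq_mul]
      have : ∑ j, (g j : ℝ) = ((n - a : ℤ) : ℝ) := by exact_mod_cast hg1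
      rw [this, hM]
      field_simp
      ring
    have hgq : ∑ j, ((g j : ℝ) - m) ^ 2 ≤ r' + (d + 2) ^ 2 / r' := by
      have e : ∀ j, ((g j : ℝ) - m) ^ 2 = ((g j : ℝ) - M) ^ 2 + 2 * (M - m) * ((g j : ℝ) - M) +
          (M - m) ^ 2 := fun j => by ring
      have h1 : ∑ j, ((g j : ℝ) - M) ^ 2 ≤ ∑ _j : Fin r', (1 : ℝ) := by
        refine sum_le_sum fun j _ => ?_
        rw [sq_le_one_iff_abs_le_one]
        exact hg2 j
      simp only [e]
      rw [sum_add_distrib, sum_add_distrib, ← mul_sum, hgs, sum_const, card_univ,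
        Fintype.card_fin, nsmul_eq_mul, hMm]
      rw [sum_const, card_univ, Fintype.card_fin, nsmul_eq_mul] at h1
      have e2 : (r' : ℝ) * (-(d + 2) / r') ^ 2 = (d + 2) ^ 2 / r' := by
        field_simp
      rw [e2]
      linarith
    have hzq : ∑ i, ((z i : ℝ) - m) ^ 2 ≤ ∑ i, ((y i : ℝ) - m) ^ 2 := by
      rw [Fin.sum_univ_succAbove (fun i => ((z i : ℝ) - m) ^ 2) i1]
      simp only [hz1, hz2]
      have h1 : ((a : ℝ) - m) ^ 2 = (d + 2) ^ 2 := by
        rw [haR, hd]; ring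
      have h2 : (d + 2) ^ 2 * (((r' + 1 : ℕ) : ℝ) / (((r' + 1 : ℕ) : ℝ) - 1)) =
          (d + 2) ^ 2 + (d + 2) ^ 2 / r' := by
        push_cast
        rw [add_sub_cancel_right]
        field_simp
      rw [h1]
      rw [h2] at hcon
      have h4 : (((r' + 1 : ℕ) : ℝ)) = r' + 1 := by push_cast; ring
      rw [h4] at hcon
      linarith
    have expand : ∀ f : Fin (r' + 1) → ℝ, ∑ i, f i = n →
        ∑ i, (f i - m) ^ 2 = ∑ i, f i ^ 2 - 2 * m * n + ((r' : ℝ) + 1) * m ^ 2 := by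
      intro f hf
      have e : ∀ i, (f i - m) ^ 2 = f i ^ 2 - 2 * m * f i + m ^ 2 := fun i => by ring
      simp only [e]
      rw [sum_add_distrib, sum_sub_distrib, ← mul_sum, hf, sum_const, card_univ,
        Fintype.card_fin, nsmul_eq_mul]
      push_cast
      ring
    rw [expand (fun i => (z i : ℝ)) (by exact_mod_cast hzs), expand (fun i => (y i : ℝ)) hsumR]
      at hzq
    have hzq' : ∑ i, (z i : ℝ) ^ 2 ≤ ∑ i, (y i : ℝ) ^ 2 := by linarith
    have hfin := htop z (by rw [hzs, hn]) (by exact_mod_cast hzq') i1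
    rw [hz1, ha] at hfin
    linarith

end Pool.Agent.Work.MP_5532fa_up
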