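import Pool.Agent.Work.MP_5532fa_x.Interface3

/-!
# MP_5532fa_co, sixth round, block TYP3 (helper25): each form occurs for `r = 3`
-/

open Finset

namespace Pool.Agent.Work.MP_5532fa_up

open MP5532fa (specRad qf pE)

namespace X_TYP3

/-- the Turan numbers -/
theorem tn_vals (s : ℕ) (hs : 1 ≤ s) :
    tn 3 (30 * s ^ 2) = 300 * s ^ 4 ∧ tn 3 (30 * s ^ 2 - 1) + 20 * s ^ 2 = 300 * s ^ 4 := by
  have h1 := (pTN 3 le_rfl (30 * s ^ 2)).1 (fun _ => 10 * s ^ 2)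
    (by rw [Finset.sum_const, Finset.card_univ, Fintype.card_fin, smul_eq_mul]; ring)
    (fun _ _ => Nat.le_succ _)
  rw [Finset.sum_const, Finset.card_univ, Fintype.card_fin, smul_eq_mul] at h1
  have e1 : (30 * s ^ 2) ^ 2 = 900 * s ^ 4 := by ring
  have e2 : 3 * (10 * s ^ 2) ^ 2 = 300 * s ^ 4 := by ring
  rw [e1, e2] at h1
  have h2 : tn 3 (30 * s ^ 2) = 300 * s ^ 4 := by omega
  refine ⟨h2, ?_⟩
  have hs2 : 1 ≤ s ^ 2 := Nat.one_le_pow _ _ hs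
  have h3 := (pTN 3 le_rfl (30 * s ^ 2 - 1)).2.2
  have e3 : 30 * s ^ 2 - 1 + 1 = 30 * s ^ 2 := by omega
  rw [e3, h2] at h3
  omega

theorem sorted (y : Fin 3 → ℕ) : ∃ τ : Equiv.Perm (Fin 3), y (τ 1) ≤ y (τ 0) ∧
    y (τ 2) ≤ y (τ 1) := by
  have h := Tuple.monotone_sort y
  refine ⟨Fin.revPerm.trans (Tuple.sort y), ?_, ?_⟩
  · exact h (by decide : (1 : Fin 3) ≤ 2)
  · exact h (by decide : (0 : Fin 3) ≤ 1)

theorem m34 {n : ℕ} {q : ℝ} (hn : (n : ℝ) = 3 * q) (y : Fin 3 → ℕ)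
    (hv : (y 0 : ℝ) + y 1 + y 2 = n) :
    M34 n y = mm n ((y 0 : ℝ) - q) ((y 1 : ℝ) - y 2) := by
  unfold M34 mo mm re
  rw [Fin.sum_univ_three, Fin.sum_univ_three]
  have e : (n : ℝ) / ((3 : ℕ) : ℝ) = q := by rw [hn]; push_cast; ring
  rw [e]
  have h2 : (y 2 : ℝ) = 3 * q - y 0 - y 1 := by linarith
  rw [h2]
  ring

theorem kk3 {m n : ℕ} {q : ℝ} (hn : (n : ℝ) = 3 * q) (y : Fin 3 → ℕ)
    (hv : (y 0 : ℝ) + y 1 + y 2 = n) :
    kk m n y = m - 2 - 3 * q ^ 2 + (3 * ((y 0 : ℝ) - q) ^ 2 + ((y 1 : ℝ) - y 2) ^ 2) / 4 := by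
  unfold kk
  rw [Fin.sum_univ_three]
  have h2 : (y 2 : ℝ) = 3 * q - y 0 - y 1 := by linarith
  rw [h2, hn]
  push_cast
  ring

theorem kk_perm {m n : ℕ} (y : Fin 3 → ℕ) (τ : Equiv.Perm (Fin 3)) :
    kk m n (fun i => y (τ i)) = kk m n y := by
  unfold kk
  rw [Equiv.sum_comp τ (fun i => (y i : ℝ) ^ 2)]

theorem M34_perm {n : ℕ} (y : Fin 3 → ℕ) (τ : Equiv.Perm (Fin 3)) :
    M34 n (fun i => y (τ i)) = M34 n y := by
  unfold M34 mo re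
  rw [Equiv.sum_comp τ (fun i => ((y i : ℝ) - n / (3 : ℕ)) ^ 3),
    Equiv.sum_comp τ (fun i => ((y i : ℝ) - n / (3 : ℕ)) ^ 4)]

/-- the numerical core -/
theorem num {s m : ℕ} {δT ε : ℝ} (hs : 20 ≤ s)
    (hT : ∀ D d D' d' κ : ℝ, (D = 4 * s ∨ D = 4 * s + 1) → 0 ≤ d → d ≤ 9 →
      3 * D' ^ 2 + d' ^ 2 = 3 * D ^ 2 + d ^ 2 + 4 * κ → |d'| ≤ 3 * D' →
      |κ| ≤ δT * (30 * (s : ℝ) ^ 2) → (D' = D ∨ D' + 1 ≤ D ∨ D + 1 ≤ D') →
      mm (30 * (s : ℝ) ^ 2) D' d' ≤ mm (30 * (s : ℝ) ^ 2) D d + 1 / 1000 * (1 + |κ|) ∧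
      (D' + 1 ≤ D →
        mm (30 * (s : ℝ) ^ 2) D' d' ≤ mm (30 * (s : ℝ) ^ 2) D d - 17 / 5 +
          1 / 1000 * (1 + |κ|)) ∧
      (D + 1 ≤ D' → 3 / 2 * D - 20 ≤ κ))
    (hε : ε ≤ 1 / 1000)
    (hε2 : ε * (30 * (s : ℝ) ^ 2) + 3 ≤ δT * (30 * (s : ℝ) ^ 2))
    (a b c D d : ℕ) (hab : b ≤ a) (hbc : c ≤ b) (habc : a + b + c = 30 * s ^ 2)
    (hD : D = 4 * s ∨ D = 4 * s + 1) (hd : d ≤ 9) (k k0 c0 c' : ℝ)
    (hk : k = m - 2 - 3 * (10 * (s : ℝ) ^ 2) ^ 2 +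
      (3 * ((a : ℝ) - 10 * (s : ℝ) ^ 2) ^ 2 + ((b : ℝ) - c) ^ 2) / 4)
    (hk0 : k0 = m - 2 - 3 * (10 * (s : ℝ) ^ 2) ^ 2 + (3 * (D : ℝ) ^ 2 + (d : ℝ) ^ 2) / 4)
    (hkn : |k| ≤ ε * (30 * (s : ℝ) ^ 2)) (hk03 : |k0| ≤ 3) (hc' : c' ≤ 3) (hkc : |k| ≤ c0)
    (hopt : c0 - mm (30 * (s : ℝ) ^ 2) ((a : ℝ) - 10 * (s : ℝ) ^ 2) ((b : ℝ) - c) ≤
      c' - mm (30 * (s : ℝ) ^ 2) D d + ε * (1 + |k| + |k0|)) :
    a = 10 * s ^ 2 + D ∧ ((b : ℝ) - c) ^ 2 = (d : ℝ) ^ 2 + 4 * (k - k0) ∧ c0 ≤ c' + 1 / 50 := by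
  have hab' : (b : ℝ) ≤ a := by exact_mod_cast hab
  have hbc' : (c : ℝ) ≤ b := by exact_mod_cast hbc
  have habc' : (a : ℝ) + b + c = 30 * (s : ℝ) ^ 2 := by exact_mod_cast habc
  have hs' : (20 : ℝ) ≤ s := by exact_mod_cast hs
  have hkk : |k - k0| ≤ |k| + 3 := (abs_sub _ _).trans (by linarith)
  have hε3 : ε * (1 + |k| + |k0|) ≤ 1 / 1000 * (4 + |k|) := by
    refine (mul_le_mul_of_nonneg_right hε (by positivity)).trans ?_
    linarith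
  have heq : 3 * ((a : ℝ) - 10 * (s : ℝ) ^ 2) ^ 2 + ((b : ℝ) - c) ^ 2 =
      3 * (D : ℝ) ^ 2 + (d : ℝ) ^ 2 + 4 * (k - k0) := by
    rw [hk, hk0]; ring
  have hDr : (D : ℝ) = 4 * s ∨ (D : ℝ) = 4 * s + 1 := by
    rcases hD with h | h
    · left; rw [h]; push_cast; ring
    · right; rw [h]; push_cast; ring
  have htri : (a : ℝ) - 10 * (s : ℝ) ^ 2 = D ∨ (a : ℝ) - 10 * (s : ℝ) ^ 2 + 1 ≤ D ∨
      (D : ℝ) + 1 ≤ (a : ℝ) - 10 * (s : ℝ) ^ 2 := by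
    rcases lt_trichotomy a (10 * s ^ 2 + D) with h | h | h
    · right; left
      have h1 : a + 1 ≤ 10 * s ^ 2 + D := h
      have h2 : (a : ℝ) + 1 ≤ 10 * (s : ℝ) ^ 2 + D := by exact_mod_cast h1
      linarith
    · left
      have h2 : (a : ℝ) = 10 * (s : ℝ) ^ 2 + D := by exact_mod_cast h
      linarith
    · right; right
      have h1 : 10 * s ^ 2 + D + 1 ≤ a := h
      have h2 : 10 * (s : ℝ) ^ 2 + D + 1 ≤ (a : ℝ) := by exact_mod_cast h1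
      linarith
  obtain ⟨hA, hB, hC⟩ := hT D d ((a : ℝ) - 10 * (s : ℝ) ^ 2) ((b : ℝ) - c) (k - k0) hDr
    (by positivity) (by exact_mod_cast hd) heq
    (by rw [abs_of_nonneg (by linarith)]; linarith) (by linarith) htri
  have hk_nn := abs_nonneg k
  rcases htri with h | h | h
  · have ha : a = 10 * s ^ 2 + D := by
      have : (a : ℝ) = 10 * (s : ℝ) ^ 2 + D := by linarith
      exact_mod_cast this
    refine ⟨ha, ?_, ?_⟩
    · rw [h] at heq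
      linarith
    · linarith
  · exfalso
    have := hB h
    linarith
  · exfalso
    have h1 := hC h
    have h2 := le_abs_self (k - k0)
    have h3 : (80 : ℝ) ≤ D := by
      rcases hDr with h | h <;> linarith
    linarith

theorem data (hMAINC : Stmt_MAINC) (hTI3 : Stmt_TI3) : ∃ s0 : ℕ, ∀ s ≥ s0, ∀ (m : ℕ)
    (V : Type) [Fintype V] (G : SimpleGraph V), Ext 3 m G →
    300 * s ^ 4 ≤ m + 12 * s ^ 2 + 6 * s + 16 → m + 12 * s ^ 2 ≤ 300 * s ^ 4 + 2 →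
    ∀ (z : Fin 3 → ℕ) (D d : ℕ) (k0 c' : ℝ), (D = 4 * s ∨ D = 4 * s + 1) → d ≤ 9 →
      z 0 = 10 * s ^ 2 + D → z 1 = z 2 + d → z 0 + z 1 + z 2 = 30 * s ^ 2 →
      k0 = m - 2 - 3 * (10 * (s : ℝ) ^ 2) ^ 2 + (3 * (D : ℝ) ^ 2 + (d : ℝ) ^ 2) / 4 →
      |k0| ≤ 3 → c' ≤ 3 → Cst 3 k0 c' →
      ∃ (y : Fin 3 → ℕ) (τ : Equiv.Perm (Fin 3)) (c0 k : ℝ), k = kk m (30 * s ^ 2) y ∧
        y (τ 0) = 10 * s ^ 2 + D ∧ y (τ 2) ≤ y (τ 1) ∧
        y (τ 0) + y (τ 1) + y (τ 2) = 30 * s ^ 2 ∧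
        ((y (τ 1) : ℝ) - y (τ 2)) ^ 2 = (d : ℝ) ^ 2 + 4 * (k - k0) ∧
        ((FamD (30 * s ^ 2) y G ∧ 0 ≤ k ∧ c0 = 2 * k) ∨
          (FamE (30 * s ^ 2) y G ∧ 3 ≤ k ∧ c0 = 2 * k - 3) ∨
          (FamS (30 * s ^ 2) y G ∧ k ≤ -1 ∧ c0 = -k)) ∧
        |k| ≤ c0 ∧ c0 ≤ c' + 1 / 50 := by
  obtain ⟨δT, sT, hδT, HT⟩ := hTI3 (1 / 1000) (by norm_num)
  set ε : ℝ := min (1 / 1000) (δT / 2) with hεd
  have hε : 0 < ε := lt_min (by norm_num) (by linarith)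
  have hε1 : ε ≤ 1 / 1000 := min_le_left _ _
  have hε2 : ε ≤ δT / 2 := min_le_right _ _
  obtain ⟨δM, m0, hδM, HM⟩ := hMAINC 3 ε le_rfl hε
  refine ⟨sT + m0 + ⌈1 / δT⌉₊ + ⌈1 / δM⌉₊ + 20, ?_⟩
  intro s hs m V _ G hG hm1 hm2 z D d k0 c' hD hd hz0 hz1 hzs hk0 hk03 hc' hcst
  have hs20 : 20 ≤ s := by omega
  have hs20' : (20 : ℝ) ≤ s := by exact_mod_cast hs20
  have hsT : 1 ≤ δT * s := by
    have h1 : ((⌈1 / δT⌉₊ : ℕ) : ℝ) ≤ s := by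
      have : ⌈1 / δT⌉₊ ≤ s := by omega
      exact_mod_cast this
    have h2 := (Nat.le_ceil (1 / δT)).trans h1
    rw [div_le_iff₀ hδT] at h2
    linarith
  have hsM : 1 ≤ δM * s := by
    have h1 : ((⌈1 / δM⌉₊ : ℕ) : ℝ) ≤ s := by
      have : ⌈1 / δM⌉₊ ≤ s := by omega
      exact_mod_cast this
    have h2 := (Nat.le_ceil (1 / δM)).trans h1
    rw [div_le_iff₀ hδM] at h2
    linarith
  have hss : (20 : ℝ) * s ≤ (s : ℝ) ^ 2 := by nlinarith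
  have hs1 : 1 ≤ s := by omega
  obtain ⟨ht1, ht2⟩ := tn_vals s hs1
  have hsN : 20 * s ≤ s ^ 2 := by nlinarith
  have hs4 : 400 * s ^ 2 ≤ s ^ 4 := by nlinarith
  have hm0 : m ≥ m0 := by
    have : m0 ≤ s := by omega
    omega
  -- N and j
  obtain ⟨j, hj⟩ : ∃ j, m = tn 3 (30 * s ^ 2 - 1) + j :=
    ⟨m - tn 3 (30 * s ^ 2 - 1), by omega⟩
  have hN1 : 30 * s ^ 2 - 1 + 1 = 30 * s ^ 2 := by omega
  have hlt : m < tn 3 (30 * s ^ 2 - 1 + 1) := by rw [hN1, ht1]; omega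
  have hjr : (8 : ℝ) * s ^ 2 ≤ j + 6 * s + 16 := by
    have : 8 * s ^ 2 ≤ j + 6 * s + 16 := by omega
    exact_mod_cast this
  have hNr : ((30 * s ^ 2 - 1 : ℕ) : ℝ) ≤ 30 * (s : ℝ) ^ 2 := by
    have : 30 * s ^ 2 - 1 ≤ 30 * s ^ 2 := by omega
    exact_mod_cast this
  have hN0 : (0 : ℝ) ≤ ((30 * s ^ 2 - 1 : ℕ) : ℝ) := Nat.cast_nonneg _
  have hal : al 3 = 2 / 3 := by unfold al; norm_num
  have hjN : ¬ (j : ℝ) ≤ ε * ((30 * s ^ 2 - 1 : ℕ) : ℝ) := by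
    intro h
    have h1 : ε * ((30 * s ^ 2 - 1 : ℕ) : ℝ) ≤ 1 / 1000 * (30 * (s : ℝ) ^ 2) :=
      mul_le_mul hε1 hNr hN0 (by norm_num)
    nlinarith
  rcases HM m hm0 (30 * s ^ 2 - 1) j hj hlt V G hG with ⟨-, h1, -⟩ |
    ⟨n, y, c0, hn, hdev, hsum, hkn, hform, hopt⟩
  · exfalso
    rw [hal] at h1
    have h2 : (1 - 2 / ((3 : ℕ) : ℝ) + ε) * (2 / 3 * ((30 * s ^ 2 - 1 : ℕ) : ℝ)) ≤
        (1 / 3 + 1 / 1000) * (2 / 3 * (30 * (s : ℝ) ^ 2)) := by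
      refine mul_le_mul ?_ ?_ (by positivity) (by norm_num)
      · push_cast; linarith
      · linarith
    nlinarith
  have hn' : n = 30 * s ^ 2 := by
    rcases hn with ⟨h1, h2⟩ | ⟨h1, -⟩
    · exact absurd h2 hjN
    · rw [h1, hN1]
  subst hn'
  clear hn
  have hncast : ((30 * s ^ 2 : ℕ) : ℝ) = 30 * (s : ℝ) ^ 2 := by push_cast; ring
  have hn3 : ((30 * s ^ 2 : ℕ) : ℝ) = 3 * (10 * (s : ℝ) ^ 2) := by rw [hncast]; ring
  -- the competitor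
  have hDr : (D : ℝ) = 4 * s ∨ (D : ℝ) = 4 * s + 1 := by
    rcases hD with h | h
    · left; rw [h]; push_cast; ring
    · right; rw [h]; push_cast; ring
  have hz0r : (z 0 : ℝ) = 10 * (s : ℝ) ^ 2 + D := by exact_mod_cast hz0
  have hz1r : (z 1 : ℝ) = z 2 + d := by exact_mod_cast hz1
  have hzsr : (z 0 : ℝ) + z 1 + z 2 = ((30 * s ^ 2 : ℕ) : ℝ) := by exact_mod_cast hzs
  have hd' : (d : ℝ) ≤ 9 := by exact_mod_cast hd
  have hd0 : (0 : ℝ) ≤ d := Nat.cast_nonneg _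
  have hkz : kk m (30 * s ^ 2) z = k0 := by
    rw [kk3 hn3 z hzsr, hk0, hz0r, hz1r]
    ring
  have hsq : 5 * (s : ℝ) ≤ √((30 * s ^ 2 : ℕ) : ℝ) := by
    apply Real.le_sqrt_of_sq_le
    rw [hncast]
    nlinarith
  have hq : (((30 * s ^ 2 : ℕ) : ℝ)) / ((3 : ℕ) : ℝ) = 10 * (s : ℝ) ^ 2 := by
    rw [hn3]; push_cast; ring
  have hO := hopt z c' (by rw [Fin.sum_univ_three]; exact hzs)
    (by
      intro i
      rw [hq]
      have hD5 : (D : ℝ) ≤ 4 * s + 1 := by rcases hDr with h | h <;> linarith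
      have hD4 : 4 * (s : ℝ) ≤ D := by rcases hDr with h | h <;> linarith
      rw [hn3] at hzsr
      have g0 : |(z 0 : ℝ) - 10 * (s : ℝ) ^ 2| ≤ 10 * (s : ℝ) := by
        rw [abs_le]; constructor <;> linarith
      have g1 : |(z 1 : ℝ) - 10 * (s : ℝ) ^ 2| ≤ 10 * (s : ℝ) := by
        rw [abs_le]; constructor <;> linarith
      have g2 : |(z 2 : ℝ) - 10 * (s : ℝ) ^ 2| ≤ 10 * (s : ℝ) := by
        rw [abs_le]; constructor <;> linarith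
      have h10 : 10 * (s : ℝ) ≤ 2 * √((30 * s ^ 2 : ℕ) : ℝ) := by linarith
      fin_cases i
      · exact g0.trans h10
      · exact g1.trans h10
      · exact g2.trans h10)
    (by
      rw [hkz, hncast]
      have : 3 ≤ δM * (30 * (s : ℝ) ^ 2) := by nlinarith
      linarith)
    (by rw [hkz]; exact hcst)
  rw [hkz] at hO
  obtain ⟨τ, h10, h21⟩ := sorted y
  have hys : y (τ 0) + y (τ 1) + y (τ 2) = 30 * s ^ 2 := by
    rw [← hsum, ← Equiv.sum_comp τ y, Fin.sum_univ_three]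
  have hysr : (y (τ 0) : ℝ) + y (τ 1) + y (τ 2) = ((30 * s ^ 2 : ℕ) : ℝ) := by exact_mod_cast hys
  have hky := kk3 (m := m) hn3 (fun i => y (τ i)) hysr
  rw [kk_perm] at hky
  have hMy := m34 hn3 (fun i => y (τ i)) hysr
  rw [M34_perm] at hMy
  have hMz := m34 hn3 z hzsr
  rw [hMy, hMz] at hO
  set k := kk m (30 * s ^ 2) y with hkd
  have hform' : (FamD (30 * s ^ 2) y G ∧ 0 ≤ k ∧ c0 = 2 * k) ∨
      (FamE (30 * s ^ 2) y G ∧ 3 ≤ k ∧ c0 = 2 * k - 3) ∨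
      (FamS (30 * s ^ 2) y G ∧ k ≤ -1 ∧ c0 = -k) := by
    rcases hform with ⟨h1, h2, h3⟩ | ⟨h1, h2, h3⟩ | ⟨h1, h2, h3⟩
    · exact Or.inl ⟨h1, h2, h3⟩
    · refine Or.inr (Or.inl ⟨h1, by exact_mod_cast h2, ?_⟩)
      rw [h3]; push_cast; ring
    · refine Or.inr (Or.inr ⟨h1, h2, ?_⟩)
      rw [h3]; push_cast; ring
  have hkc : |k| ≤ c0 := by
    rcases hform' with ⟨-, h2, h3⟩ | ⟨-, h2, h3⟩ | ⟨-, h2, h3⟩
    · rw [abs_of_nonneg h2]; linarith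
    · rw [abs_of_nonneg (by linarith)]; linarith
    · rw [abs_of_nonpos (by linarith)]; linarith
  have hε3 : ε * (30 * (s : ℝ) ^ 2) + 3 ≤ δT * (30 * (s : ℝ) ^ 2) := by
    have h1 : ε * (30 * (s : ℝ) ^ 2) ≤ δT / 2 * (30 * (s : ℝ) ^ 2) :=
      mul_le_mul_of_nonneg_right hε2 (by positivity)
    nlinarith
  obtain ⟨r1, r2, r3⟩ := num (m := m) hs20 (fun D d D' d' κ => HT s (by omega) D d D' d' κ) hε1 hε3
    (y (τ 0)) (y (τ 1)) (y (τ 2)) D d h10 h21 hys hD hd k k0 c0 c' hky hk0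
    (by rw [← hncast]; exact hkn) hk03 hc' hkc
    (by
      have e1 : (z 0 : ℝ) - 10 * (s : ℝ) ^ 2 = D := by linarith
      have e2 : (z 1 : ℝ) - z 2 = d := by linarith
      rw [e1, e2, hncast] at hO
      exact hO)
  exact ⟨y, τ, c0, k, rfl, r1, h21, hys, r2, hform', hkc, r3⟩

end X_TYP3

open X_TYP3 in
theorem x_TYP3 (hMAINC : Stmt_MAINC) (hTI3 : Stmt_TI3) (hPRM : Stmt_PRM) : Stmt_TYP3 := by
  obtain ⟨s0, H⟩ := data hMAINC hTI3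
  refine ⟨s0 + 20, ?_⟩
  intro s hs m V _ G hG
  have hs20 : 20 ≤ s := by omega
  have hsN : 20 * s ≤ s ^ 2 := by nlinarith
  have perm : ∀ (y y0 : Fin 3 → ℕ) (τ : Equiv.Perm (Fin 3)), y0 0 = y (τ 0) → y0 1 = y (τ 1) →
      y0 2 = y (τ 2) → ∀ i, y0 (τ.symm i) = y i := by
    intro y y0 τ h0 h1 h2 i
    have h : ∀ j, y0 j = y (τ j) := by
      intro j
      fin_cases j
      · exact h0
      · exact h1
      · exact h2
    rw [h, Equiv.apply_symm_apply]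
  refine ⟨fun hm => ?_, fun hm => ?_, fun hm => ?_⟩
  · have hmr : (m : ℝ) + 12 * (s : ℝ) ^ 2 = 300 * (s : ℝ) ^ 4 + 2 := by exact_mod_cast hm
    obtain ⟨y, τ, c0, k, hk, e0, hle, hys, hsq, hform, hkc, hc0⟩ := H s (by omega) m V G hG
      (by omega) (by omega)
      ![10 * s ^ 2 + 4 * s, 10 * s ^ 2 - 2 * s, 10 * s ^ 2 - 2 * s] (4 * s) 0 0 0
      (Or.inl rfl) (by omega) rfl rfl
      (by
        show 10 * s ^ 2 + 4 * s + (10 * s ^ 2 - 2 * s) + (10 * s ^ 2 - 2 * s) = 30 * s ^ 2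
        omega)
      (by push_cast; nlinarith) (by norm_num) (by norm_num)
      (Or.inl ⟨le_rfl, by norm_num⟩)
    have hk1 := (le_abs_self k).trans (hkc.trans hc0)
    have hbc : y (τ 1) = y (τ 2) := by
      by_contra hne
      have h1 : y (τ 2) + 1 ≤ y (τ 1) := by omega
      have h2 : (y (τ 2) : ℝ) + 1 ≤ y (τ 1) := by exact_mod_cast h1
      push_cast at hsq
      nlinarith
    have hk0 : k = 0 := by
      rw [hbc] at hsq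
      push_cast at hsq
      linarith
    rcases hform with ⟨h1, -, -⟩ | ⟨-, h2, -⟩ | ⟨-, h2, -⟩
    · refine (hPRM 3 _ y _ τ.symm (perm y _ τ ?_ ?_ ?_) V G).1 h1
      · exact e0.symm
      · show 10 * s ^ 2 - 2 * s = y (τ 1)
        omega
      · show 10 * s ^ 2 - 2 * s = y (τ 2)
        omega
    · linarith
    · linarith
  · have hmr : (m : ℝ) + 12 * (s : ℝ) ^ 2 + 6 * s = 300 * (s : ℝ) ^ 4 := by exact_mod_cast hm
    obtain ⟨y, τ, c0, k, hk, e0, hle, hys, hsq, hform, hkc, hc0⟩ := H s (by omega) m V G hG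
      (by omega) (by omega)
      ![10 * s ^ 2 + 4 * s + 1, 10 * s ^ 2 - 2 * s, 10 * s ^ 2 - 2 * s - 1] (4 * s + 1) 1 (-1) 1
      (Or.inr rfl) (by omega) rfl
      (by
        show 10 * s ^ 2 - 2 * s = 10 * s ^ 2 - 2 * s - 1 + 1
        omega)
      (by
        show 10 * s ^ 2 + 4 * s + 1 + (10 * s ^ 2 - 2 * s) + (10 * s ^ 2 - 2 * s - 1) = 30 * s ^ 2
        omega)
      (by push_cast; nlinarith) (by norm_num) (by norm_num)
      (Or.inr (Or.inr ⟨le_rfl, by norm_num⟩))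
    have hk1 := abs_le.1 (hkc.trans hc0)
    obtain ⟨t, ht⟩ : ∃ t, y (τ 1) = y (τ 2) + t := ⟨y (τ 1) - y (τ 2), by omega⟩
    have htr : (y (τ 1) : ℝ) = y (τ 2) + t := by exact_mod_cast ht
    rw [htr] at hsq
    push_cast at hsq
    have ht2 : (t : ℝ) ^ 2 = 5 + 4 * k := by linarith
    have ht3 : t ≤ 3 := by
      by_contra h
      have h1 : 4 ≤ t := by omega
      have h2 : (4 : ℝ) ≤ t := by exact_mod_cast h1
      nlinarith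
    have hodd : t = 1 ∨ t = 3 := by omega
    rcases hodd with rfl | rfl
    · have hkk : k = -1 := by push_cast at ht2; linarith
      rcases hform with ⟨-, h2, -⟩ | ⟨-, h2, -⟩ | ⟨h1, -, -⟩
      · linarith
      · linarith
      · refine (hPRM 3 _ y _ τ.symm (perm y _ τ ?_ ?_ ?_) V G).2.2 h1
        · exact e0.symm
        · show 10 * s ^ 2 - 2 * s = y (τ 1)
          omega
        · show 10 * s ^ 2 - 2 * s - 1 = y (τ 2)
          omega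
    · exfalso
      have hkk : k = 1 := by push_cast at ht2; linarith
      rcases hform with ⟨-, -, h3⟩ | ⟨-, h2, -⟩ | ⟨-, h2, -⟩ <;> linarith
  · have hmr : (m : ℝ) + 12 * (s : ℝ) ^ 2 + 6 * s + 16 = 300 * (s : ℝ) ^ 4 := by exact_mod_cast hm
    obtain ⟨y, τ, c0, k, hk, e0, hle, hys, hsq, hform, hkc, hc0⟩ := H s (by omega) m V G hG
      (by omega) (by omega)
      ![10 * s ^ 2 + 4 * s + 1, 10 * s ^ 2 - 2 * s + 4, 10 * s ^ 2 - 2 * s - 5] (4 * s + 1) 9 3 3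
      (Or.inr rfl) (by omega) rfl
      (by
        show 10 * s ^ 2 - 2 * s + 4 = 10 * s ^ 2 - 2 * s - 5 + 9
        omega)
      (by
        show 10 * s ^ 2 + 4 * s + 1 + (10 * s ^ 2 - 2 * s + 4) + (10 * s ^ 2 - 2 * s - 5) =
          30 * s ^ 2
        omega)
      (by push_cast; nlinarith) (by norm_num) (by norm_num)
      (Or.inr (Or.inl ⟨by norm_num, by norm_num⟩))
    have hk1 := abs_le.1 (hkc.trans hc0)
    obtain ⟨t, ht⟩ : ∃ t, y (τ 1) = y (τ 2) + t := ⟨y (τ 1) - y (τ 2), by omega⟩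
    have htr : (y (τ 1) : ℝ) = y (τ 2) + t := by exact_mod_cast ht
    rw [htr] at hsq
    push_cast at hsq
    have ht2 : (t : ℝ) ^ 2 = 69 + 4 * k := by linarith
    have ht3 : t ≤ 9 := by
      by_contra h
      have h1 : 10 ≤ t := by omega
      have h2 : (10 : ℝ) ≤ t := by exact_mod_cast h1
      nlinarith
    have ht4 : 8 ≤ t := by
      by_contra h
      have h1 : t ≤ 7 := by omega
      have h2 : (t : ℝ) ≤ 7 := by exact_mod_cast h1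
      have h3 : (0 : ℝ) ≤ t := Nat.cast_nonneg _
      nlinarith
    have hodd : t = 9 := by omega
    subst hodd
    have hkk : k = 3 := by push_cast at ht2; linarith
    rcases hform with ⟨-, -, h3⟩ | ⟨h1, -, -⟩ | ⟨-, h2, -⟩
    · linarith
    · refine (hPRM 3 _ y _ τ.symm (perm y _ τ ?_ ?_ ?_) V G).2.1 h1
      · exact e0.symm
      · show 10 * s ^ 2 - 2 * s + 4 = y (τ 1)
        omega
      · show 10 * s ^ 2 - 2 * s - 5 = y (τ 2)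
        omega
    · linarith

end Pool.Agent.Work.MP_5532fa_up
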