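import Pool.Agent.Work.MP_5532fa_x.Interface

/-!
# Block UND (helper58): uniqueness of the form D, arbitrary class sizes (edit of `ISOD.lean`)
-/

open Finset

namespace Pool.Agent.Work.MP_5532fa_up

open MP5532fa (specRad qf pE UpToIsolated)

theorem x_UND (hCANPG : Stmt_CANPG) : Stmt_UND := by
  classical
  intro r n y y' σ0 hr hy V V' _ _ G G' hE hG hG'
  obtain ⟨H, c, w, A, v1, v2, hW, hn, hP, hT⟩ := hG
  obtain ⟨H', c', w', A', v1', v2', hW', hn', hP', hT'⟩ := hG'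
  -- the class sizes and the number of neighbours of `w`
  have hnn : ∀ i, (cl H' c' (σ0 i)).card = (cl H c i).card := by
    intro i
    rw [hn, hn', hy]
  have hA : A.card = A'.card := by
    have h1 := (pGD r hr V G n H c w A v1 v2 hW).2.2
    have h2 := (pGD r hr V' G' n H' c' w' A' v1' v2' hW').2.2
    have h3 : ∑ i, sz H' c' i ^ 2 = ∑ i, sz H c i ^ 2 := by
      rw [← Equiv.sum_comp σ0]
      refine Finset.sum_congr rfl fun i _ => ?_
      unfold sz
      rw [hnn]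
    rw [hE, h2, h3] at h1
    have h4 : (A.card : ℝ) = A'.card := by linarith
    exact_mod_cast h4
  have hc : ({c v1, c v2} : Finset (Fin r)).card = ({c' v1', c' v2'} : Finset (Fin r)).card := by
    rw [Finset.card_pair hW.h12, Finset.card_pair hW'.h12]
  have s1 : ∀ i, i ∈ ({c v1, c v2} : Finset (Fin r)) → (cl A c i).card = 1 := by
    intro i hi
    simp only [Finset.mem_insert, Finset.mem_singleton] at hi
    rcases hi with rfl | rfl
    · rw [hW.h1, Finset.card_singleton]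
    · rw [hW.h2, Finset.card_singleton]
  have s1' : ∀ i, i ∈ ({c' v1', c' v2'} : Finset (Fin r)) → (cl A' c' i).card = 1 := by
    intro i hi
    simp only [Finset.mem_insert, Finset.mem_singleton] at hi
    rcases hi with rfl | rfl
    · rw [hW'.h1, Finset.card_singleton]
    · rw [hW'.h2, Finset.card_singleton]
  have hsub : ∀ i, (cl A c i).card ≤ (cl H c i).card := fun i => Finset.card_le_card fun v hv => by
    rw [mem_cl] at hv ⊢
    exact ⟨hW.hA hv.1, hv.2⟩
  have hsub' : ∀ i, (cl A' c' i).card ≤ (cl H' c' i).card :=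
    fun i => Finset.card_le_card fun v hv => by
      rw [mem_cl] at hv ⊢
      exact ⟨hW'.hA hv.1, hv.2⟩
  obtain ⟨σ, hσ⟩ := hCANPG r (fun i => (cl H c i).card) (fun i => (cl A c i).card)
    (fun i => (cl H' c' i).card) (fun i => (cl A' c' i).card) {c v1, c v2} {c' v1', c' v2'} 1 σ0 hc
    hnn (by rw [ISOD.sum_card_cl', ISOD.sum_card_cl', hA]) hT
    hT' s1 s1' (fun i _ => ⟨Finset.card_pos.mpr (hW.hne i), hsub i⟩)
    (fun i _ => ⟨Finset.card_pos.mpr (hW'.hne i), hsub' i⟩) hP hP'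
  obtain ⟨P, hPd⟩ : ∃ P : Finset (Fin r), P = {c v1, c v2} := ⟨_, rfl⟩
  rw [← hPd] at hσ
  have hK : ∀ v, v ∈ insert w H ↔ v = w ∨ v ∈ H := fun v => Finset.mem_insert
  have hK' : ∀ v, v ∈ insert w' H' ↔ v = w' ∨ v ∈ H' := fun v => Finset.mem_insert
  have hadj : ∀ a b, G.Adj a b ↔ a ∈ insert w H ∧ b ∈ insert w H ∧ a ≠ b ∧
      ISOD.R P (ISOD.lab c w A (1 : Equiv.Perm (Fin r)) a)
        (ISOD.lab c w A (1 : Equiv.Perm (Fin r)) b) :=
    fun a b => ISOD.adj_iff hW 1 P (fun i => by simp [hPd]) _ hK a b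
  have hadj' : ∀ a b, G'.Adj a b ↔ a ∈ insert w' H' ∧ b ∈ insert w' H' ∧ a ≠ b ∧
      ISOD.R P (ISOD.lab c' w' A' (σ⁻¹ : Equiv.Perm (Fin r)) a)
        (ISOD.lab c' w' A' (σ⁻¹ : Equiv.Perm (Fin r)) b) :=
    fun a b => ISOD.adj_iff hW' σ⁻¹ P (fun i => by
      have := (hσ (σ⁻¹ i)).1
      rw [this]
      simp) _ hK' a b
  have hfib : ∀ s : Option (Fin r × Bool),
      (fib (insert w H) (ISOD.lab c w A (1 : Equiv.Perm (Fin r))) s).card =
      (fib (insert w' H') (ISOD.lab c' w' A' (σ⁻¹ : Equiv.Perm (Fin r))) s).card := by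
    intro s
    rcases s with _ | ⟨i, b⟩
    · rw [ISOD.fib_none 1 _ hK, ISOD.fib_none σ⁻¹ _ hK']
    · have e1 : i = (1 : Equiv.Perm (Fin r)) i := rfl
      have e2 : i = (σ⁻¹ : Equiv.Perm (Fin r)) (σ i) := by simp
      cases b
      · have h1 := ISOD.fib_false (c := c) hW.hw hW.hA 1 _ hK i
        have h2 := ISOD.fib_false (c := c') hW'.hw hW'.hA σ⁻¹ _ hK' (σ i)
        rw [← e1] at h1
        rw [← e2] at h2
        rw [h1, h2, (hσ i).2.1, (hσ i).2.2]
      · have h1 := ISOD.fib_true (c := c) hW.hw hW.hA 1 _ hK i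
        have h2 := ISOD.fib_true (c := c') hW'.hw hW'.hA σ⁻¹ _ hK' (σ i)
        rw [← e1] at h1
        rw [← e2] at h2
        rw [h1, h2, (hσ i).2.2]
  exact ⟨pLAB _ V V' (ISOD.R P) G G' (insert w H) (insert w' H') _ _ hadj hadj' hfib ⟨w, by simp⟩,
    pLAB2 _ V V' (ISOD.R P) G G' (insert w H) (insert w' H') _ _ hadj hadj' hfib⟩

end Pool.Agent.Work.MP_5532fa_up
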