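import Pool.Agent.Work.MP_5532fa_x.Interface

/-!
# Block UNE (helper27): the spectral radius of the form E, arbitrary class sizes
(edit of `ISOE.lean`)
-/

open Finset

namespace Pool.Agent.Work.MP_5532fa_up

open MP5532fa (specRad qf pE)

theorem x_UNE (hCANPG : Stmt_CANPG) (hTIEG : Stmt_TIEG) : Stmt_UNE := by
  classical
  intro r n y y' σ0 hr hy V V' _ _ G G' hE hG hG'
  obtain ⟨H, c, w, u, A, B, i0, hW, hn, hO, hP, hT⟩ := hG
  obtain ⟨H', c', w', u', A', B', i0', hW', hn', hO', hP', hT'⟩ := hG'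
  -- the class sizes and the number of neighbours of `w`
  have hnn : ∀ i, (cl H' c' (σ0 i)).card = (cl H c i).card := by
    intro i
    rw [hn, hn', hy]
  have hA : A.card = A'.card := by
    have h1 := (pGE r hr V G n H c w u A B i0 hW).2.2
    have h2 := (pGE r hr V' G' n H' c' w' u' A' B' i0' hW').2.2
    have h3 : ∑ i, sz H' c' i ^ 2 = ∑ i, sz H c i ^ 2 := by
      rw [← Equiv.sum_comp σ0]
      refine Finset.sum_congr rfl fun i _ => ?_
      unfold sz
      rw [hnn]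
    rw [hE, h2, h3] at h1
    have h4 : (A.card : ℝ) = A'.card := by linarith
    exact_mod_cast h4
  have hsub : ∀ i, (cl A c i).card ≤ (cl H c i).card := fun i => Finset.card_le_card fun v hv => by
    rw [mem_cl] at hv ⊢
    exact ⟨hW.hA hv.1, hv.2⟩
  have hsub' : ∀ i, (cl A' c' i).card ≤ (cl H' c' i).card :=
    fun i => Finset.card_le_card fun v hv => by
      rw [mem_cl] at hv ⊢
      exact ⟨hW'.hA hv.1, hv.2⟩
  obtain ⟨σ, hσ⟩ := hCANPG r (fun i => (cl H c i).card) (fun i => (cl A c i).card)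
    (fun i => (cl H' c' i).card) (fun i => (cl A' c' i).card) {i0} {i0'} 0 σ0
    (by rw [Finset.card_singleton, Finset.card_singleton])
    hnn (by rw [ISOD.sum_card_cl', ISOD.sum_card_cl', hA]) hT hT'
    (fun i hi => by rw [Finset.mem_singleton.mp hi, hW.hA0, Finset.card_empty])
    (fun i hi => by rw [Finset.mem_singleton.mp hi, hW'.hA0, Finset.card_empty])
    (fun i hi => ⟨Finset.card_pos.mpr (hW.hAne i (fun e => hi (Finset.mem_singleton.mpr e))),
      hsub i⟩)
    (fun i hi => ⟨Finset.card_pos.mpr (hW'.hAne i (fun e => hi (Finset.mem_singleton.mpr e))),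
      hsub' i⟩) hP hP'
  have hσ0 : σ i0 = i0' := Finset.mem_singleton.mp ((hσ i0).1.mp (Finset.mem_singleton_self _))
  have hσne : ∀ i, i ≠ i0 → σ i ≠ i0' := fun i hi e => hi (by
    rw [← hσ0] at e; exact σ.injective e)
  -- the exceptional vertex
  obtain ⟨b, hbB, hbA, hone⟩ := hO
  have hcb : c b ≠ i0 := by
    intro e
    have : b ∈ cl B c i0 := mem_cl.mpr ⟨hbB, e⟩
    rw [hW.hB0] at this
    exact absurd this (Finset.notMem_empty _)
  have hlt : (cl A c (c b)).card < (cl H c (c b)).card := by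
    apply Finset.card_lt_card
    rw [Finset.ssubset_iff_of_subset (fun v hv => by
      rw [mem_cl] at hv ⊢; exact ⟨hW.hA hv.1, hv.2⟩)]
    exact ⟨b, mem_cl.mpr ⟨hW.hB hbB, rfl⟩, fun h => hbA (mem_cl.mp h).1⟩
  obtain ⟨B'', hW'', b'', hcb'', hb''B, hb''A, hone''⟩ :=
    ISOE.exists_B hW' (σ (c b)) (hσne _ hcb) (by
      have h1 : (cl H' c' (σ (c b))).card = (cl H c (c b)).card := (hσ (c b)).2.1
      have h2 : (cl A' c' (σ (c b))).card = (cl A c (c b)).card := (hσ (c b)).2.2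
      rw [h1, h2]; exact hlt)
  have htie := hTIEG r hr V' G' (gE H' c' w' u' A' B'') n H' c' w' u' A' B' B'' i0'
    hW' hW'' hO' ⟨b'', hb''B, hb''A, hone''⟩
  rw [htie]
  -- labels
  have hK : ∀ v, v ∈ insert w (insert u H) ↔ v = w ∨ v = u ∨ v ∈ H := fun v => by
    simp only [Finset.mem_insert]
  have hK' : ∀ v, v ∈ insert w' (insert u' H') ↔ v = w' ∨ v = u' ∨ v ∈ H' := fun v => by
    simp only [Finset.mem_insert]
  refine pLAB _ V V' (ISOE.R) G _ (insert w (insert u H)) (insert w' (insert u' H'))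
    (ISOE.lab c w u A B (1 : Equiv.Perm (Fin r)))
    (ISOE.lab c' w' u' A' B'' (σ⁻¹ : Equiv.Perm (Fin r)))
    (fun a b => ISOE.adj_iff hW 1 _ hK a b)
    (fun a b => ISOE.adj_iff hW'' σ⁻¹ _ hK' a b) ?_ ⟨w, by simp⟩
  intro s
  rcases s with _ | _ | ⟨i, p, q⟩
  · rw [ISOE.fib_none hW.hw hW.hwu.symm 1 _ hK, ISOE.fib_none hW'.hw hW'.hwu.symm σ⁻¹ _ hK']
  · rw [ISOE.fib_some_none hW.hwu.symm 1 _ hK, ISOE.fib_some_none hW'.hwu.symm σ⁻¹ _ hK']
  · have e1 : i = (1 : Equiv.Perm (Fin r)) i := rfl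
    have e2 : i = (σ⁻¹ : Equiv.Perm (Fin r)) (σ i) := by simp
    have h1 := ISOE.fib_card (c := c) hW.hw hW.hu hW.hA hW.hB 1 _ hK i p q
    have h2 := ISOE.fib_card (c := c') hW''.hw hW''.hu hW''.hA hW''.hB σ⁻¹ _ hK' (σ i) p q
    rw [← e1] at h1
    rw [← e2] at h2
    have h3 := ISOE.inter_card hW hbB hbA hone i
    have h4 := ISOE.inter_card hW'' hb''B hb''A hone'' (σ i)
    have h5 : (σ i = i0' ∨ σ i = c' b'') ↔ (i = i0 ∨ i = c b) := by
      rw [← hσ0, hcb'']
      simp only [EmbeddingLike.apply_eq_iff_eq]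
    have h6 : (cl (A' ∩ B'') c' (σ i)).card = (cl (A ∩ B) c i).card := by
      rw [h3, h4]
      by_cases hi : i = i0 ∨ i = c b
      · rw [if_pos hi, if_pos (h5.mpr hi)]
      · rw [if_neg hi, if_neg (fun h => hi (h5.mp h))]
    have h7 : (cl B'' c' (σ i)).card = (cl B c i).card := by
      by_cases hi : i = i0
      · rw [hi, hσ0, hW.hB0, hW''.hB0]
        rfl
      · rw [hW.hB1 i hi, hW''.hB1 _ (hσne i hi)]
    have h8 : (cl H' c' (σ i)).card = (cl H c i).card := (hσ i).2.1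
    have h9 : (cl A' c' (σ i)).card = (cl A c i).card := (hσ i).2.2
    have goal : ((fib (insert w (insert u H)) (ISOE.lab c w u A B (1 : Equiv.Perm (Fin r)))
        (some (some (i, p, q)))).card : ℤ) = ((fib (insert w' (insert u' H'))
          (ISOE.lab c' w' u' A' B'' (σ⁻¹ : Equiv.Perm (Fin r)))
        (some (some (i, p, q)))).card : ℤ) := by
      rw [h1, h2, h6, h7, h8, h9]
    exact_mod_cast goal

end Pool.Agent.Work.MP_5532fa_up
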