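import Pool.Agent.Work.MP_5532fa_x.Interface

/-!
# MP_5532fa_co, block UNS: the form S is unique
-/

open Finset

namespace Pool.Agent.Work.MP_5532fa_up

open MP5532fa (specRad qf pE UpToIsolated specRad_of_upTo)

namespace X_UNS

variable {V : Type} [Fintype V] {r : ℕ}

/-- the labels of the vertices other than `w` : class, in `T`, in `L` -/
abbrev Lb (r : ℕ) : Type := Option (Fin r × Bool × Bool)

/-- the relation on the labels -/
def R (P : Fin r) : Lb r → Lb r → Prop
  | none, none => False
  | none, some (_, t, _) => t = true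
  | some (_, t, _), none => t = true
  | some (i, t, l), some (i', t', l') => i ≠ i' ∧ ¬ ((i = P ∧ t = true) ∧ l' = true) ∧
      ¬ ((i' = P ∧ t' = true) ∧ l = true)

open Classical in
/-- the labels -/
noncomputable def lab (c : V → Fin r) (w : V) (T L : Finset V) (τ : Fin r → Fin r) (v : V) :
    Lb r :=
  if v = w then none else some (τ (c v), decide (v ∈ T), decide (v ∈ L))

omit [Fintype V] in
theorem lab_w (c : V → Fin r) (w : V) (T L : Finset V) (τ : Fin r → Fin r) :
    lab c w T L τ w = none := by unfold lab; rw [if_pos rfl]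

omit [Fintype V] in
open Classical in
theorem lab_ne (c : V → Fin r) (w : V) (T L : Finset V) (τ : Fin r → Fin r) {v : V}
    (h : v ≠ w) : lab c w T L τ v = some (τ (c v), decide (v ∈ T), decide (v ∈ L)) := by
  unfold lab; rw [if_neg h]

omit [Fintype V] in
theorem uniq {c : V → Fin r} {T : Finset V} (hT1 : ∀ i, (cl T c i).card = 1) {p v : V}
    (hp : p ∈ T) : c v = c p ∧ v ∈ T ↔ v = p := by
  constructor
  · rintro ⟨h1, h2⟩
    obtain ⟨x, hx⟩ := Finset.card_eq_one.mp (hT1 (c p))
    have e1 : v ∈ cl T c (c p) := mem_cl.mpr ⟨h2, h1⟩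
    have e2 : p ∈ cl T c (c p) := mem_cl.mpr ⟨hp, rfl⟩
    rw [hx, Finset.mem_singleton] at e1 e2
    rw [e1, e2]
  · rintro rfl
    exact ⟨rfl, hp⟩

theorem adj_iff {G : SimpleGraph V} {N : ℕ} {H : Finset V} {c : V → Fin r} {w : V}
    {T L : Finset V} {p q : V} (h : WS G N H c w T L p q) (τ : Equiv.Perm (Fin r))
    (P : Fin r) (hP : τ (c p) = P) (K : Finset V)
    (hK : ∀ v, v ∈ K ↔ v = w ∨ v ∈ H) (a b : V) :
    G.Adj a b ↔ a ∈ K ∧ b ∈ K ∧ a ≠ b ∧ R P (lab c w T L τ a) (lab c w T L τ b) := by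
  classical
  have hwT : w ∉ T := fun hw => h.hw (h.hT hw)
  have g : ∀ {v : V}, (τ (c v) = P ∧ v ∈ T) ↔ v = p := by
    intro v
    rw [← hP, τ.injective.eq_iff]
    exact uniq h.hT1 h.hp
  rw [h.adj, hK, hK]
  by_cases ha : a = w
  · subst ha
    by_cases hb : b = a
    · subst hb
      simp only [lab_w, R]
      constructor
      · rintro (⟨h1, _⟩ | ⟨_, h2⟩ | ⟨_, h2⟩)
        · exact absurd h1 h.hw
        · exact absurd h2 hwT
        · exact absurd h2 hwT
      · rintro ⟨_, _, h3, _⟩
        exact absurd rfl h3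
    · rw [lab_w, lab_ne c a T L τ hb]
      simp only [R, decide_eq_true_eq]
      constructor
      · rintro (⟨h1, _⟩ | ⟨_, h2⟩ | ⟨h1, _⟩)
        · exact absurd h1 h.hw
        · exact ⟨Or.inl trivial, Or.inr (h.hT h2), fun e => hb e.symm, h2⟩
        · exact absurd h1 hb
      · rintro ⟨_, _, _, h4⟩
        exact Or.inr (Or.inl ⟨trivial, h4⟩)
  · by_cases hb : b = w
    · subst hb
      rw [lab_w, lab_ne c b T L τ ha]
      simp only [R, decide_eq_true_eq]
      constructor
      · rintro (⟨_, h1, _⟩ | ⟨h1, _⟩ | ⟨_, h2⟩)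
        · exact absurd h1 h.hw
        · exact absurd h1 ha
        · exact ⟨Or.inr (h.hT h2), Or.inl trivial, ha, h2⟩
      · rintro ⟨_, _, _, h4⟩
        exact Or.inr (Or.inr ⟨trivial, h4⟩)
    · rw [lab_ne c w T L τ ha, lab_ne c w T L τ hb]
      simp only [R, decide_eq_true_eq, g]
      constructor
      · rintro (⟨h1, h2, h3, h4, h5⟩ | ⟨h1, _⟩ | ⟨h1, _⟩)
        · exact ⟨Or.inr h1, Or.inr h2, fun e => h3 (by rw [e]), fun e => h3 (τ.injective e),
            h4, h5⟩
        · exact absurd h1 ha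
        · exact absurd h1 hb
      · rintro ⟨h1, h2, h3, h4, h5, h6⟩
        left
        exact ⟨h1.resolve_left ha, h2.resolve_left hb, fun e => h4 (by rw [e]), h5, h6⟩

theorem fib_none {H : Finset V} {c : V → Fin r} {w : V} {T L : Finset V}
    (τ : Equiv.Perm (Fin r)) (K : Finset V) (hK : ∀ v, v ∈ K ↔ v = w ∨ v ∈ H) :
    (fib K (lab c w T L τ) none).card = 1 := by
  classical
  have : fib K (lab c w T L τ) none = {w} := by
    ext v
    rw [mem_fib, hK, Finset.mem_singleton]
    constructor
    · rintro ⟨_, h2⟩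
      by_contra hv
      rw [lab_ne c w T L τ hv] at h2
      simp at h2
    · rintro rfl
      exact ⟨Or.inl rfl, lab_w _ _ _ _ _⟩
  rw [this, Finset.card_singleton]

omit [Fintype V] in
open Classical in
theorem mem_fib_some {H : Finset V} {c : V → Fin r} {w : V} {T L : Finset V} (hw : w ∉ H)
    (τ : Equiv.Perm (Fin r)) (K : Finset V) (hK : ∀ v, v ∈ K ↔ v = w ∨ v ∈ H) (i : Fin r)
    (t l : Bool) (v : V) :
    v ∈ fib K (lab c w T L τ) (some (τ i, t, l)) ↔
      v ∈ H ∧ c v = i ∧ (v ∈ T ↔ t = true) ∧ (v ∈ L ↔ l = true) := by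
  rw [mem_fib, hK]
  constructor
  · rintro ⟨h1, h2⟩
    by_cases hv : v = w
    · rw [hv, lab_w] at h2; simp at h2
    · rw [lab_ne c w T L τ hv] at h2
      simp only [Option.some.injEq, Prod.mk.injEq, EmbeddingLike.apply_eq_iff_eq] at h2
      obtain ⟨e1, e2, e3⟩ := h2
      refine ⟨h1.resolve_left hv, e1, ?_, ?_⟩
      · rw [← e2]; simp
      · rw [← e3]; simp
  · rintro ⟨h1, h2, h3, h4⟩
    have hv : v ≠ w := fun e => hw (e ▸ h1)
    refine ⟨Or.inr h1, ?_⟩
    rw [lab_ne c w T L τ hv, h2]
    simp only [Option.some.injEq, Prod.mk.injEq, true_and]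
    constructor
    · cases t
      · simpa using h3
      · simpa using h3
    · cases l
      · simpa using h4
      · simpa using h4

/-- the sizes of the fibres -/
def F (isq : Prop) [Decidable isq] (s m : ℕ) (t l : Bool) : ℕ :=
  if isq then (if l then (if t then 1 else m - 1) else (if t then 0 else s - m))
  else (if l then 0 else (if t then 1 else s - 1))

theorem fib_card {G : SimpleGraph V} {N : ℕ} {H : Finset V} {c : V → Fin r} {w : V}
    {T L : Finset V} {p q : V} (h : WS G N H c w T L p q) (τ : Equiv.Perm (Fin r))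
    (K : Finset V) (hK : ∀ v, v ∈ K ↔ v = w ∨ v ∈ H) (i : Fin r) (t l : Bool) :
    (fib K (lab c w T L τ) (some (τ i, t, l))).card =
      F (i = c q) (cl H c i).card L.card t l := by
  classical
  have hm := fun v => mem_fib_some (T := T) (L := L) (c := c) h.hw τ K hK i t l v
  have hLq : ∀ v ∈ L, v ∈ H ∧ c v = c q := fun v hv => mem_cl.mp (h.hL hv)
  have hqT : ∀ {v : V}, c v = c q ∧ v ∈ T ↔ v = q := uniq h.hT1 h.hq
  unfold F
  by_cases hi : i = c q
  · subst hi
    rw [if_pos rfl]
    cases l <;> cases t <;> simp only [if_true, if_false, Bool.false_eq_true]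
    · have : fib K (lab c w T L τ) (some (τ (c q), false, false)) = cl H c (c q) \ L := by
        ext v
        rw [hm, Finset.mem_sdiff, mem_cl]
        simp only [Bool.false_eq_true, iff_false]
        constructor
        · rintro ⟨a1, a2, a3, a4⟩
          exact ⟨⟨a1, a2⟩, a4⟩
        · rintro ⟨⟨a1, a2⟩, a4⟩
          refine ⟨a1, a2, fun a3 => a4 ?_, a4⟩
          rw [hqT.mp ⟨a2, a3⟩]
          exact h.hqL
      rw [this, Finset.card_sdiff_of_subset h.hL]
    · rw [Finset.card_eq_zero, Finset.eq_empty_iff_forall_notMem]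
      intro v hv
      rw [hm] at hv
      obtain ⟨a1, a2, a3, a4⟩ := hv
      have := hqT.mp ⟨a2, a3.mpr rfl⟩
      rw [this] at a4
      exact Bool.false_ne_true (a4.mp h.hqL)
    · have : fib K (lab c w T L τ) (some (τ (c q), false, true)) = L.erase q := by
        ext v
        rw [hm, Finset.mem_erase]
        simp only [Bool.false_eq_true, iff_false, iff_true]
        constructor
        · rintro ⟨a1, a2, a3, a4⟩
          refine ⟨?_, a4⟩
          rintro rfl
          exact a3 h.hq
        · rintro ⟨a1, a2⟩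
          refine ⟨(hLq v a2).1, (hLq v a2).2, fun a3 => a1 (hqT.mp ⟨(hLq v a2).2, a3⟩), a2⟩
      rw [this, Finset.card_erase_of_mem h.hqL]
    · have : fib K (lab c w T L τ) (some (τ (c q), true, true)) = {q} := by
        ext v
        rw [hm, Finset.mem_singleton]
        simp only [iff_true]
        constructor
        · rintro ⟨a1, a2, a3, a4⟩
          exact hqT.mp ⟨a2, a3⟩
        · rintro rfl
          exact ⟨h.hT h.hq, rfl, h.hq, h.hqL⟩
      rw [this, Finset.card_singleton]
  · rw [if_neg hi]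
    have hnL : ∀ v, c v = i → v ∉ L := fun v hv hL => hi (hv.symm.trans (hLq v hL).2)
    cases l <;> simp only [if_true, if_false, Bool.false_eq_true]
    · cases t <;> simp only [if_true, if_false, Bool.false_eq_true]
      · have : fib K (lab c w T L τ) (some (τ i, false, false)) = cl H c i \ cl T c i := by
          ext v
          rw [hm, Finset.mem_sdiff, mem_cl, mem_cl]
          simp only [Bool.false_eq_true, iff_false]
          constructor
          · rintro ⟨a1, a2, a3, a4⟩
            exact ⟨⟨a1, a2⟩, fun a5 => a3 a5.1⟩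
          · rintro ⟨⟨a1, a2⟩, a4⟩
            exact ⟨a1, a2, fun a3 => a4 ⟨a3, a2⟩, hnL v a2⟩
        have hs : cl T c i ⊆ cl H c i := fun v hv => by
          rw [mem_cl] at hv ⊢
          exact ⟨h.hT hv.1, hv.2⟩
        rw [this, Finset.card_sdiff_of_subset hs, h.hT1]
      · have : fib K (lab c w T L τ) (some (τ i, true, false)) = cl T c i := by
          ext v
          rw [hm, mem_cl]
          simp only [Bool.false_eq_true, iff_false, iff_true]
          constructor
          · rintro ⟨a1, a2, a3, a4⟩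
            exact ⟨a3, a2⟩
          · rintro ⟨a1, a2⟩
            exact ⟨h.hT a1, a2, a1, hnL v a2⟩
        rw [this, h.hT1]
    · rw [Finset.card_eq_zero, Finset.eq_empty_iff_forall_notMem]
      intro v hv
      rw [hm] at hv
      obtain ⟨a1, a2, a3, a4⟩ := hv
      exact hnL v a2 (a4.mpr rfl)

/-- the position of the maximum is transported -/
theorem max_eq {y y' : Fin r → ℕ} {σ : Equiv.Perm (Fin r)} (hy : ∀ i, y' (σ i) = y i)
    {P P' : Fin r} (h : ∀ i, i ≠ P → y i < y P) (h' : ∀ i, i ≠ P' → y' i < y' P') :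
    σ P = P' := by
  by_contra hne
  have h1 := h' (σ P) hne
  rw [hy] at h1
  have h2 : σ.symm P' ≠ P := by
    intro e
    apply hne
    rw [← e, Equiv.apply_symm_apply]
  have h3 := h _ h2
  have h4 := hy (σ.symm P')
  rw [Equiv.apply_symm_apply] at h4
  omega

end X_UNS

theorem x_UNS (hGS : Stmt_GS) : Stmt_UNS := by
  classical
  intro r n y y' σ hr hy V V' _ _ G G' hpE hG hG'
  obtain ⟨H, c, w, T, L, p, q, hW, hc, hL2, hqp, hlt⟩ := hG
  obtain ⟨H', c', w', T', L', p', q', hW', hc', hL2', hqp', hlt'⟩ := hG'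
  have e1 := (hGS r hr V G n H c w T L p q hW).2.2.2.2
  have e2 := (hGS r hr V' G' n H' c' w' T' L' p' q' hW').2.2.2.2
  have hLL : L.card = L'.card := by
    have hs : ∑ i, sz H c i ^ 2 = ∑ i, sz H' c' i ^ 2 := by
      rw [← Equiv.sum_comp σ (fun i => sz H' c' i ^ 2)]
      refine Finset.sum_congr rfl fun i _ => ?_
      unfold sz
      rw [hc, hc', hy]
    rw [hpE, e2, ← hs] at e1
    have : (L.card : ℝ) = L'.card := by linarith
    exact_mod_cast this
  simp only [hc] at hqp hlt
  simp only [hc'] at hqp' hlt'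
  have hP : σ (c p) = c' p' := by
    refine X_UNS.max_eq hy ?_ ?_
    · intro i hi
      by_cases hiq : i = c q
      · rw [hiq]; exact hqp
      · exact (hlt i hi hiq).trans hqp
    · intro i hi
      by_cases hiq : i = c' q'
      · rw [hiq]; exact hqp'
      · exact (hlt' i hi hiq).trans hqp'
  have hQ : σ (c q) = c' q' := by
    by_contra hne
    have hne1 : σ (c q) ≠ c' p' := by
      rw [← hP]
      intro e
      exact hW.hpq (σ.injective e).symm
    have h1 := hlt' (σ (c q)) hne1 hne
    rw [hy] at h1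
    have h2 : σ.symm (c' q') ≠ c q := by
      intro e
      apply hne
      rw [← e, Equiv.apply_symm_apply]
    have h2' : σ.symm (c' q') ≠ c p := by
      intro e
      have : c' q' = c' p' := by rw [← hP, ← e, Equiv.apply_symm_apply]
      exact hW'.hpq this.symm
    have h3 := hlt _ h2' h2
    have h4 := hy (σ.symm (c' q'))
    rw [Equiv.apply_symm_apply] at h4
    omega
  have hK : ∀ v, v ∈ insert w H ↔ v = w ∨ v ∈ H := fun v => Finset.mem_insert
  have hK' : ∀ v, v ∈ insert w' H' ↔ v = w' ∨ v ∈ H' := fun v => Finset.mem_insert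
  obtain ⟨u1, u2⟩ := LAB.iso (X_UNS.R (c p)) G G' (insert w H) (insert w' H')
    (X_UNS.lab c w T L (1 : Equiv.Perm (Fin r)))
    (X_UNS.lab c' w' T' L' (σ⁻¹ : Equiv.Perm (Fin r)))
    (fun a b => X_UNS.adj_iff hW 1 (c p) rfl _ hK a b)
    (fun a b => X_UNS.adj_iff hW' σ⁻¹ (c p) (by rw [← hP]; simp) _ hK' a b)
    (by
      intro s
      rcases s with _ | ⟨i, t, l⟩
      · rw [X_UNS.fib_none 1 _ hK, X_UNS.fib_none σ⁻¹ _ hK']
      · have h1 := X_UNS.fib_card hW 1 _ hK i t l
        have h2 := X_UNS.fib_card hW' σ⁻¹ _ hK' (σ i) t l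
        have e1 : (1 : Equiv.Perm (Fin r)) i = i := rfl
        have e2 : (σ⁻¹ : Equiv.Perm (Fin r)) (σ i) = i := by simp
        rw [e1] at h1
        rw [e2] at h2
        rw [h1, h2, hc, hc', hy, hLL]
        unfold X_UNS.F
        have e3 : (σ i = c' q') ↔ (i = c q) := by rw [← hQ, σ.injective.eq_iff]
        simp only [e3])
  have : Nonempty {v // v ∈ insert w H} := ⟨⟨w, Finset.mem_insert_self _ _⟩⟩
  refine ⟨?_, _, _, u1, u2⟩
  rw [specRad_of_upTo u1, specRad_of_upTo u2]

end Pool.Agent.Work.MP_5532fa_up
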