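import Pool.Agent.Work.MP_5532fa_x.Interface2

/-!
# MP_5532fa_co, sixth round, block W3P: the class sizes for `j = 2 r - 2`
-/

open Finset

namespace Pool.Agent.Work.MP_5532fa_up

open MP5532fa (specRad qf pE)

namespace X_W3P

/-- the real inequality, `μ = 1/lam`, `σ = 1/(lam + n/r)` -/
theorem real_part {r μ σ T W F : ℝ} (hr : 3 ≤ r) (hμ : 0 < μ) (hμ1 : 2 * r * μ ≤ 1)
    (hσ0 : 0 ≤ σ) (hσ : σ ≤ μ) (hT0 : 0 ≤ T) (hT : T ≤ (r - 1) * μ) (hW0 : 0 ≤ W)
    (hF : F = -(W * T)) (hW : |W - 2 * μ * T - μ * W| ≤ 2 * (r - 1) * μ ^ 2 * W)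
    (hTσ : |T - (r - 1) * σ| ≤ (r - 1) * (r + 2) * μ ^ 2) :
    |F + 2 * (r - 1) ^ 2 * μ * σ ^ 2| ≤ (4 * r ^ 3 + 14 * r ^ 2) * μ ^ 4 := by
  have hr1 : 0 ≤ r - 1 := by linarith
  have hμ0 : 0 ≤ μ := hμ.le
  have hμ6 : μ ≤ 1 / 6 := by nlinarith
  have hμW : 0 ≤ μ * W := mul_nonneg hμ0 hW0
  have a1 : 2 * (r - 1) * μ ^ 2 * W ≤ μ * W := by
    have h1 : 2 * (r - 1) * μ ≤ 1 := by nlinarith
    calc 2 * (r - 1) * μ ^ 2 * W = (2 * (r - 1) * μ) * (μ * W) := by ring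
      _ ≤ 1 * (μ * W) := mul_le_mul_of_nonneg_right h1 hμW
      _ = μ * W := one_mul _
  obtain ⟨w1, w2⟩ := abs_le.mp hW
  have a0 : μ * W ≤ 1 / 6 * W := mul_le_mul_of_nonneg_right hμ6 hW0
  have hμT : 0 ≤ μ * T := mul_nonneg hμ0 hT0
  have a2 : W ≤ 3 * (μ * T) := by
    have : W - 2 * μ * T - μ * W ≤ μ * W := w2.trans a1
    linarith
  have a3 : W ≤ 3 * (r - 1) * μ ^ 2 := by
    have : μ * T ≤ μ * ((r - 1) * μ) := mul_le_mul_of_nonneg_left hT hμ0
    linarith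
  have a4 : |W - 2 * μ * T| ≤ 6 * (r - 1) * μ ^ 3 := by
    have h1 : |W - 2 * μ * T| ≤ 2 * (μ * W) := abs_le.mpr ⟨by linarith, by linarith⟩
    have h2 : μ * W ≤ μ * (3 * (r - 1) * μ ^ 2) := mul_le_mul_of_nonneg_left a3 hμ0
    linarith
  have hs : 0 ≤ (r - 1) * σ := mul_nonneg hr1 hσ0
  have hs' : (r - 1) * σ ≤ (r - 1) * μ := mul_le_mul_of_nonneg_left hσ hr1
  have e : F + 2 * (r - 1) ^ 2 * μ * σ ^ 2
      = -((W - 2 * μ * T) * T) - 2 * μ * ((T - (r - 1) * σ) * (T + (r - 1) * σ)) := by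
    rw [hF]; ring
  have p1 : |(W - 2 * μ * T) * T| ≤ 6 * (r - 1) ^ 2 * μ ^ 4 := by
    rw [abs_mul, abs_of_nonneg hT0]
    calc |W - 2 * μ * T| * T ≤ (6 * (r - 1) * μ ^ 3) * ((r - 1) * μ) :=
          mul_le_mul a4 hT hT0 (by positivity)
      _ = 6 * (r - 1) ^ 2 * μ ^ 4 := by ring
  have p2 : |2 * μ * ((T - (r - 1) * σ) * (T + (r - 1) * σ))|
      ≤ 4 * (r - 1) ^ 2 * (r + 2) * μ ^ 4 := by
    rw [abs_mul (2 * μ), abs_mul (T - (r - 1) * σ), abs_of_nonneg (by linarith : 0 ≤ 2 * μ),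
      abs_of_nonneg (by linarith : 0 ≤ T + (r - 1) * σ)]
    have h1 : |T - (r - 1) * σ| * (T + (r - 1) * σ)
        ≤ ((r - 1) * (r + 2) * μ ^ 2) * (2 * ((r - 1) * μ)) :=
      mul_le_mul hTσ (by linarith) (by linarith) (by positivity)
    calc 2 * μ * (|T - (r - 1) * σ| * (T + (r - 1) * σ))
        ≤ 2 * μ * (((r - 1) * (r + 2) * μ ^ 2) * (2 * ((r - 1) * μ))) :=
          mul_le_mul_of_nonneg_left h1 (by linarith)
      _ = 4 * (r - 1) ^ 2 * (r + 2) * μ ^ 4 := by ring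
  have h4 : (r - 1) ^ 2 ≤ r ^ 2 := pow_le_pow_left₀ hr1 (by linarith) 2
  have h5 : (r - 1) ^ 2 * ((4 * r + 14) * μ ^ 4) ≤ r ^ 2 * ((4 * r + 14) * μ ^ 4) :=
    mul_le_mul_of_nonneg_right h4 (by positivity)
  rw [e]
  calc |-((W - 2 * μ * T) * T) - 2 * μ * ((T - (r - 1) * σ) * (T + (r - 1) * σ))|
      ≤ |-((W - 2 * μ * T) * T)| + |2 * μ * ((T - (r - 1) * σ) * (T + (r - 1) * σ))| :=
        abs_sub _ _
    _ ≤ 6 * (r - 1) ^ 2 * μ ^ 4 + 4 * (r - 1) ^ 2 * (r + 2) * μ ^ 4 := by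
        rw [abs_neg]; exact add_le_add p1 p2
    _ = (r - 1) ^ 2 * ((4 * r + 14) * μ ^ 4) := by ring
    _ ≤ r ^ 2 * ((4 * r + 14) * μ ^ 4) := h5
    _ = (4 * r ^ 3 + 14 * r ^ 2) * μ ^ 4 := by ring

/-- sums over a set with one element in each class except `i0` -/
theorem sum_T {V : Type} {r : ℕ} {T : Finset V} {c : V → Fin r} {i0 : Fin r}
    (h0 : cl T c i0 = ∅) (h1 : ∀ i, i ≠ i0 → (cl T c i).card = 1) (y : V → ℝ) (β : Fin r → ℝ)
    (M : ℝ) (h : ∀ v ∈ T, |y v - β (c v)| ≤ M) :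
    |∑ v ∈ T, y v - ∑ i ∈ univ.erase i0, β i| ≤ ((r : ℝ) - 1) * M := by
  classical
  have hr : 1 ≤ r := Nat.one_le_iff_ne_zero.mpr (by rintro rfl; exact i0.elim0)
  have e1 : ∑ v ∈ T, y v = ∑ i ∈ univ.erase i0, ∑ v ∈ cl T c i, y v := by
    rw [← sum_cl T c y, ← Finset.add_sum_erase univ _ (Finset.mem_univ i0), h0,
      Finset.sum_empty, zero_add]
  rw [e1, ← Finset.sum_sub_distrib]
  refine (Finset.abs_sum_le_sum_abs _ _).trans ?_
  have h2 : ∀ i ∈ univ.erase i0, |∑ v ∈ cl T c i, y v - β i| ≤ M := by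
    intro i hi
    obtain ⟨v, hv⟩ := Finset.card_eq_one.mp (h1 i (Finset.ne_of_mem_erase hi))
    have hv' : v ∈ cl T c i := by rw [hv]; exact Finset.mem_singleton_self v
    obtain ⟨hvT, hvc⟩ := mem_cl.mp hv'
    rw [hv, Finset.sum_singleton, ← hvc]
    exact h v hvT
  refine (Finset.sum_le_sum h2).trans ?_
  rw [Finset.sum_const, Finset.card_erase_of_mem (Finset.mem_univ _), Finset.card_univ,
    Fintype.card_fin, nsmul_eq_mul, Nat.cast_sub hr, Nat.cast_one]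

/-- one vertex of `A` in each class -/
theorem cardA {V : Type} [Fintype V] {r n : ℕ} {G : SimpleGraph V} {c : V → Fin r}
    {H : Finset V} {w u : V} {A B : Finset V} {i0 : Fin r} (hW : WE G n H c w u A B i0)
    (hA : A.card + 1 = r) : ∀ i, i ≠ i0 → (cl A c i).card = 1 := by
  classical
  intro i hi
  have h1 := Finset.add_sum_erase univ (fun k => (cl A c k).card) (Finset.mem_univ i0)
  rw [sum_card_cl A c, hW.hA0] at h1
  have h1' : ∑ k ∈ univ.erase i0, (cl A c k).card = A.card := by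
    simpa using h1
  by_contra hne
  have hpos : 1 ≤ (cl A c i).card := Finset.card_pos.mpr (hW.hAne i hi)
  have h2 : ∑ _k ∈ univ.erase i0, 1 < ∑ k ∈ univ.erase i0, (cl A c k).card := by
    refine Finset.sum_lt_sum (fun k hk => ?_) ⟨i, Finset.mem_erase.mpr ⟨hi, Finset.mem_univ _⟩, ?_⟩
    · exact Finset.card_pos.mpr (hW.hAne k (Finset.ne_of_mem_erase hk))
    · omega
  rw [h1', Finset.sum_const, Finset.card_erase_of_mem (Finset.mem_univ _), Finset.card_univ,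
    Fintype.card_fin, smul_eq_mul, mul_one] at h2
  omega

theorem main {V : Type} [Fintype V] {r n : ℕ} {G : SimpleGraph V} {x : V → ℝ} {lam : ℝ}
    {c : V → Fin r} {H : Finset V} {w u : V} {A B : Finset V} {i0 : Fin r} (hr : 3 ≤ r)
    (hW : WE G n H c w u A B i0) (hAr : A.card + 1 = r) (hx : PV G x lam)
    (hl : 2 * (r : ℝ) ≤ lam) (hd : ∀ i, |sz H c i - n / r| ≤ (r : ℝ) + 2) :
    |Ph (sz H c) lam + 2 * ((r : ℝ) - 1) ^ 2 * (1 / lam) * (1 / (lam + n / r)) ^ 2|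
      ≤ (4 * (r : ℝ) ^ 3 + 14 * r ^ 2) * (1 / lam) ^ 4 := by
  classical
  have hrR : (3 : ℝ) ≤ r := by exact_mod_cast hr
  have hlam : 0 < lam := by linarith
  have hF := (pFAM r hr V G n H c w A).2 u B i0 hW
  obtain ⟨e1, e2, e3, e4⟩ := pCSE r V G H c w A _ x lam hF hx
  have huw : u ≠ w := fun h => hW.hwu h.symm
  have hwB : w ∉ B := fun h => hW.hw (hW.hB h)
  have huB : u ∉ B := fun h => hW.hu (hW.hB h)
  have e3' : lam * x w = ∑ v ∈ A, x v + x u := by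
    have := e3
    rw [EB.JE_row, chi_neg hW.hwu, chi_neg hwB, chi_pos rfl] at this
    linarith
  have e4' : lam * x u = ∑ v ∈ B, x v + x w := by
    have := e4 u hW.hu huw
    rw [EB.JE_row, chi_neg huw, chi_neg huB, chi_pos rfl] at this
    linarith
  have e1' : ∀ v ∈ H, lam * x v = (∑ z ∈ H, x z - cs x H c (c v)) + chi (v ∈ A) * x w
      + chi (v ∈ B) * x u := by
    intro v hv
    have := e1 v hv
    rw [E2.JE_row hW.hw hW.hu x hv] at this
    exact this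
  have hA1 := cardA hW hAr
  -- S
  obtain ⟨S, hS⟩ : ∃ S, S = ∑ z ∈ H, x z := ⟨_, rfl⟩
  rw [← hS] at e1' e2
  have hS0 : 0 ≤ S := by rw [hS]; exact Finset.sum_nonneg fun v _ => hx.nn v
  obtain ⟨i1, hi1⟩ : ∃ i : Fin r, i ≠ i0 := by
    have : Nontrivial (Fin r) := Fin.nontrivial_iff_two_le.mpr (by omega)
    exact exists_ne i0
  have hSpos : 0 < S := by
    rcases hS0.lt_or_eq with h | h
    · exact h
    · exfalso
      have hz : ∀ v ∈ H, x v = 0 :=
        (Finset.sum_eq_zero_iff_of_nonneg fun v _ => hx.nn v).mp (hS.symm.trans h.symm)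
      have hcs : ∀ i, cs x H c i = 0 := fun i =>
        Finset.sum_eq_zero fun v hv => hz v (mem_cl.mp hv).1
      have hw0 : x w = 0 := by
        obtain ⟨a, ha⟩ := hW.hAne i1 hi1
        have haA := (mem_cl.mp ha).1
        have h6 := e1' a (hW.hA haA)
        rw [hz a (hW.hA haA), ← h, hcs, chi_pos haA] at h6
        have h7 : 0 ≤ chi (a ∈ B) * x u := mul_nonneg (chi_nonneg _) (hx.nn u)
        have h8 := hx.nn w
        linarith
      have hu0 : x u = 0 := by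
        rw [hw0, Finset.sum_eq_zero fun v hv => hz v (hW.hA hv)] at e3'
        linarith
      have hall : ∀ v, x v = 0 := by
        intro v
        by_cases hv : v ∈ H
        · exact hz v hv
        · by_cases hvw : v = w
          · rw [hvw]; exact hw0
          · by_cases hvu : v = u
            · rw [hvu]; exact hu0
            · have h6 := e4 v hv hvw
              rw [EB.JE_row, chi_neg hvu, hu0, hw0] at h6
              have h7 : lam * x v = 0 := by rw [h6]; ring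
              rcases mul_eq_zero.mp h7 with h' | h'
              · linarith
              · exact h'
      have := hx.unit
      simp [hall] at this
  obtain ⟨X, hX⟩ : ∃ X, X = x w / S := ⟨_, rfl⟩
  obtain ⟨U, hU⟩ : ∃ U, U = x u / S := ⟨_, rfl⟩
  have xw : x w = X * S := by rw [hX]; field_simp
  have xu : x u = U * S := by rw [hU]; field_simp
  have hX0 : 0 ≤ X := by rw [hX]; exact div_nonneg (hx.nn _) hS0
  have hU0 : 0 ≤ U := by rw [hU]; exact div_nonneg (hx.nn _) hS0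
  obtain ⟨t, ht⟩ : ∃ t : Fin r → ℝ, t = fun i => cs x H c i / S := ⟨_, rfl⟩
  have hcs : ∀ i, cs x H c i = t i * S := by
    intro i; rw [ht]; simp only; rw [div_mul_cancel₀ _ hSpos.ne']
  have htsum : ∑ i, t i = 1 := by
    have h6 : ∑ i, cs x H c i = S := by rw [hS]; exact sum_cl H c x
    have h7 : (∑ i, t i) * S = 1 * S := by
      rw [Finset.sum_mul, one_mul]
      rw [← h6]
      exact Finset.sum_congr rfl fun i _ => by rw [hcs]; rw [h6]
    exact mul_right_cancel₀ hSpos.ne' h7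
  obtain ⟨m, hm⟩ : ∃ m : Fin r → ℝ, m = sz H c := ⟨_, rfl⟩
  have hm0 : ∀ i, 0 ≤ m i := by intro i; rw [hm]; exact Nat.cast_nonneg _
  obtain ⟨b, hb⟩ : ∃ b : Fin r → ℝ, b = fun i => 1 / (lam + m i) := ⟨_, rfl⟩
  have hlm : ∀ i, 0 < lam + m i := fun i => by have := hm0 i; linarith
  have hb0 : ∀ i, 0 ≤ b i := by intro i; rw [hb]; exact (one_div_pos.mpr (hlm i)).le
  have hbm : ∀ i, b i * (lam + m i) = 1 := by
    intro i; rw [hb]; simp only
    exact one_div_mul_cancel (hlm i).ne'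
  have hbμ : ∀ i, b i ≤ 1 / lam := by
    intro i; rw [hb]
    exact one_div_le_one_div_of_le hlam (by have := hm0 i; linarith)
  obtain ⟨μ, hμ⟩ : ∃ μ, μ = 1 / lam := ⟨_, rfl⟩
  have hμ0 : 0 < μ := by rw [hμ]; exact one_div_pos.mpr hlam
  have hμl : μ * lam = 1 := by rw [hμ]; exact one_div_mul_cancel hlam.ne'
  obtain ⟨W, hWd⟩ : ∃ W, W = X + U := ⟨_, rfl⟩
  have hW0 : 0 ≤ W := by rw [hWd]; linarith
  obtain ⟨P, hP⟩ : ∃ P : Fin r → ℝ, P = fun i => if i = i0 then 0 else W := ⟨_, rfl⟩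
  have P0 : P i0 = 0 := by rw [hP]; exact if_pos rfl
  have P1 : ∀ i, i ≠ i0 → P i = W := fun i hi => by rw [hP]; exact if_neg hi
  -- class sums
  have ecs : ∀ i, lam * t i = m i * (1 - t i) + P i := by
    intro i
    have h6 := e2 i
    rw [hcs, ← hm] at h6
    by_cases hi : i = i0
    · have h7 : ∑ v ∈ cl H c i, ∑ z, JE w u B v z * x z = 0 := by
        refine Finset.sum_eq_zero fun v hv => ?_
        obtain ⟨hv1, hv2⟩ := mem_cl.mp hv
        rw [E2.JE_row hW.hw hW.hu x hv1, chi_neg, zero_mul]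
        intro hvB
        have : v ∈ cl B c i0 := mem_cl.mpr ⟨hvB, hv2.trans hi⟩
        rw [hW.hB0] at this
        exact absurd this (Finset.notMem_empty v)
      have h8 : sz A c i = 0 := by unfold sz; rw [hi, hW.hA0]; simp
      rw [h7, h8] at h6
      rw [hi, P0]
      rw [hi] at h6
      have h9 : (lam * t i0) * S = (m i0 * (1 - t i0) + 0) * S := by linarith
      exact mul_right_cancel₀ hSpos.ne' h9
    · have h7 := E2.JE_cls hW.hw hW.hu hW.hB c x (hW.hB1 i hi)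
      have h8 : sz A c i = 1 := by unfold sz; rw [hA1 i hi]; norm_num
      rw [h7, h8, xw, xu] at h6
      rw [P1 i hi, hWd]
      have h9 : (lam * t i) * S = (m i * (1 - t i) + (X + U)) * S := by linarith
      exact mul_right_cancel₀ hSpos.ne' h9
  have et : ∀ i, 1 - t i = b i * (lam - P i) := by
    intro i
    have h6 : (1 - t i) * (lam + m i) = lam - P i := by have := ecs i; linarith
    calc 1 - t i = (1 - t i) * (b i * (lam + m i)) := by rw [hbm, mul_one]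
      _ = b i * ((1 - t i) * (lam + m i)) := by ring
      _ = b i * (lam - P i) := by rw [h6]
  obtain ⟨T, hT⟩ : ∃ T, T = ∑ i ∈ univ.erase i0, b i := ⟨_, rfl⟩
  have hPh : Ph m lam = -(W * T) := by
    have h6 : ∀ i, m i / (lam + m i) = t i - P i * b i := by
      intro i
      have h7 : m i / (lam + m i) = m i * b i := by rw [hb]; simp only; ring
      have h8 : m i * b i = 1 - lam * b i := by have := hbm i; linarith
      have h9 := et i
      rw [h7, h8]; linarith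
    unfold Ph
    rw [Finset.sum_congr rfl fun i _ => h6 i, Finset.sum_sub_distrib, htsum,
      ← Finset.add_sum_erase univ (fun i => P i * b i) (Finset.mem_univ i0), P0, hT,
      Finset.mul_sum, Finset.sum_congr rfl fun i hi => by
        rw [P1 i (Finset.ne_of_mem_erase hi)]]
    ring
  -- vertex equations
  have hμ1 : μ ≤ 1 := by
    rw [hμ, div_le_one hlam]; linarith
  have hvert : ∀ v ∈ H, c v ≠ i0 → |x v / S - b (c v)| ≤ μ * W := by
    intro v hv hvc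
    have h6 := e1' v hv
    rw [hcs, xw, xu] at h6
    have h7 : lam * (x v / S) = (1 - t (c v)) + (chi (v ∈ A) * X + chi (v ∈ B) * U) := by
      rw [mul_div_assoc', div_eq_iff hSpos.ne']
      linarith
    rw [et, P1 _ hvc] at h7
    obtain ⟨Q, hQ⟩ : ∃ Q, Q = chi (v ∈ A) * X + chi (v ∈ B) * U := ⟨_, rfl⟩
    have hQ0 : 0 ≤ Q := by
      rw [hQ]
      exact add_nonneg (mul_nonneg (chi_nonneg _) hX0) (mul_nonneg (chi_nonneg _) hU0)
    have hQ1 : Q ≤ W := by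
      rw [hQ, hWd]
      have a1 := mul_le_mul_of_nonneg_right (chi_le_one (v ∈ A)) hX0
      have a2 := mul_le_mul_of_nonneg_right (chi_le_one (v ∈ B)) hU0
      linarith
    rw [← hQ] at h7
    have h8 : x v / S - b (c v) = μ * (Q - b (c v) * W) := by
      have h9 : x v / S = μ * (lam * (x v / S)) := by
        rw [← mul_assoc, hμl, one_mul]
      rw [h9, h7]
      calc μ * (b (c v) * (lam - W) + Q) - b (c v)
          = (μ * lam) * b (c v) + μ * (Q - b (c v) * W) - b (c v) := by ring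
        _ = μ * (Q - b (c v) * W) := by rw [hμl]; ring
    rw [h8, abs_mul, abs_of_pos hμ0]
    refine mul_le_mul_of_nonneg_left ?_ hμ0.le
    have hbW0 : 0 ≤ b (c v) * W := mul_nonneg (hb0 _) hW0
    have hb1 : b (c v) ≤ 1 := by have := hbμ (c v); rw [← hμ] at this; linarith
    have hbW : b (c v) * W ≤ W := by
      have := mul_le_mul_of_nonneg_right hb1 hW0
      linarith
    rw [abs_le]; constructor <;> linarith
  have hsA := sum_T hW.hA0 hA1 (fun v => x v / S) b (μ * W) (fun v hv =>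
    hvert v (hW.hA hv) (fun h => by
      have : v ∈ cl A c i0 := mem_cl.mpr ⟨hv, h⟩
      rw [hW.hA0] at this
      exact absurd this (Finset.notMem_empty v)))
  have hsB := sum_T hW.hB0 hW.hB1 (fun v => x v / S) b (μ * W) (fun v hv =>
    hvert v (hW.hB hv) (fun h => by
      have : v ∈ cl B c i0 := mem_cl.mpr ⟨hv, h⟩
      rw [hW.hB0] at this
      exact absurd this (Finset.notMem_empty v)))
  rw [← hT, ← Finset.sum_div] at hsA hsB
  obtain ⟨a, ha⟩ : ∃ a, a = (∑ v ∈ A, x v) / S := ⟨_, rfl⟩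
  obtain ⟨a', ha'⟩ : ∃ a', a' = (∑ v ∈ B, x v) / S := ⟨_, rfl⟩
  rw [← ha] at hsA
  rw [← ha'] at hsB
  have hlX : lam * X = a + U := by
    rw [ha, hX, hU, mul_div_assoc', e3', add_div]
  have hlU : lam * U = a' + X := by
    rw [ha', hX, hU, mul_div_assoc', e4', add_div]
  have hWT : |W - 2 * μ * T - μ * W| ≤ 2 * ((r : ℝ) - 1) * μ ^ 2 * W := by
    have h6 : W - 2 * μ * T - μ * W = μ * ((a - T) + (a' - T)) := by
      have h7 : W = μ * (lam * X + lam * U) := by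
        rw [hWd]
        calc X + U = (μ * lam) * (X + U) := by rw [hμl, one_mul]
          _ = μ * (lam * X + lam * U) := by ring
      have h8 : lam * X + lam * U = a + a' + W := by rw [hlX, hlU, hWd]; ring
      rw [h8] at h7
      linarith
    rw [h6, abs_mul, abs_of_pos hμ0]
    calc μ * |(a - T) + (a' - T)| ≤ μ * (|a - T| + |a' - T|) :=
          mul_le_mul_of_nonneg_left (abs_add_le _ _) hμ0.le
      _ ≤ μ * (((r : ℝ) - 1) * (μ * W) + ((r : ℝ) - 1) * (μ * W)) :=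
          mul_le_mul_of_nonneg_left (add_le_add hsA hsB) hμ0.le
      _ = 2 * ((r : ℝ) - 1) * μ ^ 2 * W := by ring
  -- the sum `T`
  have hr1 : 1 ≤ r := by omega
  have hcard : ((univ.erase i0 : Finset (Fin r)).card : ℝ) = (r : ℝ) - 1 := by
    rw [Finset.card_erase_of_mem (Finset.mem_univ _), Finset.card_univ, Fintype.card_fin,
      Nat.cast_sub hr1, Nat.cast_one]
  have hT0 : 0 ≤ T := by rw [hT]; exact Finset.sum_nonneg fun i _ => hb0 i
  have hTμ : T ≤ ((r : ℝ) - 1) * μ := by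
    rw [hT]
    calc ∑ i ∈ univ.erase i0, b i ≤ ∑ _i ∈ univ.erase i0, μ :=
          Finset.sum_le_sum fun i _ => by rw [hμ]; exact hbμ i
      _ = _ := by rw [Finset.sum_const, nsmul_eq_mul, hcard]
  have hnr : 0 ≤ (n : ℝ) / r := by positivity
  obtain ⟨σ, hσ⟩ : ∃ σ, σ = 1 / (lam + (n : ℝ) / r) := ⟨_, rfl⟩
  have hln : 0 < lam + (n : ℝ) / r := by linarith
  have hσ0 : 0 ≤ σ := by rw [hσ]; exact (one_div_pos.mpr hln).le
  have hσμ : σ ≤ μ := by
    rw [hσ, hμ]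
    exact one_div_le_one_div_of_le hlam (by linarith)
  have hbσ : ∀ i, |b i - σ| ≤ ((r : ℝ) + 2) * μ ^ 2 := by
    intro i
    have h6 : b i - σ = ((n : ℝ) / r - m i) * (b i * σ) := by
      rw [hb, hσ]
      simp only
      have := (hlm i).ne'
      have := hln.ne'
      rw [div_sub_div _ _ (by assumption) (by assumption), div_mul_div_comm, mul_div_assoc']
      congr 1
      ring
    rw [h6, abs_mul, abs_sub_comm, abs_of_nonneg (mul_nonneg (hb0 i) hσ0)]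
    have h7 := hd i
    rw [← hm] at h7
    have h8 : b i * σ ≤ μ * μ := mul_le_mul (by rw [hμ]; exact hbμ i) hσμ hσ0 hμ0.le
    calc |m i - (n : ℝ) / r| * (b i * σ) ≤ ((r : ℝ) + 2) * (μ * μ) :=
          mul_le_mul h7 h8 (mul_nonneg (hb0 i) hσ0) (by linarith)
      _ = ((r : ℝ) + 2) * μ ^ 2 := by ring
  have hTσ : |T - ((r : ℝ) - 1) * σ| ≤ ((r : ℝ) - 1) * ((r : ℝ) + 2) * μ ^ 2 := by
    have h6 : T - ((r : ℝ) - 1) * σ = ∑ i ∈ univ.erase i0, (b i - σ) := by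
      rw [Finset.sum_sub_distrib, ← hT, Finset.sum_const, nsmul_eq_mul, hcard]
    rw [h6]
    refine (Finset.abs_sum_le_sum_abs _ _).trans ?_
    calc ∑ i ∈ univ.erase i0, |b i - σ| ≤ ∑ _i ∈ univ.erase i0, ((r : ℝ) + 2) * μ ^ 2 :=
          Finset.sum_le_sum fun i _ => hbσ i
      _ = _ := by rw [Finset.sum_const, nsmul_eq_mul, hcard]; ring
  have hfin := real_part (r := (r : ℝ)) (μ := μ) (σ := σ) (T := T) (W := W) (F := Ph m lam) hrR
    hμ0 (by rw [hμ, mul_one_div, div_le_one hlam]; exact hl) hσ0 hσμ hT0 hTμ hW0 hPh hWT hTσ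
  rw [← hm, ← hμ, ← hσ]
  exact hfin

/-- lower bound for the spectral radius -/
theorem low {V : Type} [Fintype V] {r n : ℕ} {G : SimpleGraph V} {c : V → Fin r}
    {H : Finset V} {w u : V} {A B : Finset V} {i0 : Fin r} (hW : WE G n H c w u A B i0) :
    (n : ℝ) ^ 2 - ∑ i, sz H c i ^ 2 ≤ specRad G * n := by
  classical
  have hV : Nonempty V := ⟨w⟩
  have h1 := rayleigh G (fun v => chi (v ∈ H))
  have h2 : ∑ v, chi (v ∈ H) ^ 2 = (n : ℝ) := by
    have h3 : ∀ v, chi (v ∈ H) ^ 2 = if v ∈ H then 1 else 0 := by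
      intro v
      by_cases h : v ∈ H
      · rw [chi_pos h, if_pos h]; norm_num
      · rw [chi_neg h, if_neg h]; norm_num
    rw [Finset.sum_congr rfl fun v _ => h3 v, Finset.sum_boole, ← hW.card]
    congr 2
    ext v; simp
  rw [h2] at h1
  refine le_trans ?_ h1
  have h3 : ∑ a, ∑ b, chi (a ∈ H ∧ b ∈ H ∧ c a ≠ c b) * (1 : ℝ)
      ≤ ∑ a, ∑ b, ad G a b * (chi (a ∈ H) * chi (b ∈ H)) := by
    refine Finset.sum_le_sum fun a _ => Finset.sum_le_sum fun b _ => ?_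
    by_cases h : a ∈ H ∧ b ∈ H ∧ c a ≠ c b
    · have hadj : G.Adj a b := (hW.adj a b).mpr (Or.inl h)
      unfold ad
      rw [chi_pos h, chi_pos hadj, chi_pos h.1, chi_pos h.2.1]
      norm_num
    · rw [chi_neg h, zero_mul]
      exact mul_nonneg (chi_nonneg _) (mul_nonneg (chi_nonneg _) (chi_nonneg _))
  refine le_trans (le_of_eq ?_) h3
  have h4 : ∀ a, ∑ b, chi (a ∈ H ∧ b ∈ H ∧ c a ≠ c b) * (1 : ℝ)
      = chi (a ∈ H) * ((n : ℝ) - sz H c (c a)) := by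
    intro a
    have h5 := CSE.row1 H c (fun _ => (1 : ℝ)) a
    rw [h5]
    unfold cs sz
    rw [Finset.sum_const, Finset.sum_const, nsmul_eq_mul, nsmul_eq_mul, mul_one, mul_one,
      hW.card]
  rw [Finset.sum_congr rfl fun a _ => h4 a]
  have h6 : ∑ a, chi (a ∈ H) * ((n : ℝ) - sz H c (c a)) = ∑ a ∈ H, ((n : ℝ) - sz H c (c a)) := by
    rw [← Finset.sum_subset (Finset.subset_univ H)]
    · exact Finset.sum_congr rfl fun a ha => by rw [chi_pos ha, one_mul]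
    · intro a _ ha
      rw [chi_neg ha, zero_mul]
  rw [h6, Finset.sum_sub_distrib, Finset.sum_const, nsmul_eq_mul, hW.card]
  have h7 : ∑ a ∈ H, sz H c (c a) = ∑ i, sz H c i ^ 2 := by
    rw [← sum_cl H c (fun a => sz H c (c a))]
    refine Finset.sum_congr rfl fun i _ => ?_
    rw [Finset.sum_congr rfl fun a ha => by rw [(mem_cl.mp ha).2], Finset.sum_const,
      nsmul_eq_mul]
    unfold sz
    ring
  rw [h7]; ring

/-- expansion of the reciprocal -/
theorem inv_exp {s d : ℝ} (hs : 0 < s) (hd : 0 < s + d) :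
    1 / (s + d) = 1 / s - d / s ^ 2 + d ^ 2 / s ^ 3 - d ^ 3 / s ^ 4 + d ^ 4 / (s ^ 4 * (s + d)) := by
  have := hs.ne'
  have := hd.ne'
  field_simp
  ring

/-- pointwise comparison -/
theorem point {lam a s B y z : ℝ} (hs : s = lam + a) (hs0 : 0 < s) (hy : |y - a| ≤ B)
    (hz : |z - a| ≤ B) (hB : 2 * B ≤ s) :
    (y ^ 3 - z ^ 3) / s ^ 4 + (1 / s ^ 2 + 2 * a / s ^ 3 + 3 * a ^ 2 / s ^ 4) * (y - z)
      - (1 / s ^ 3 + 3 * a / s ^ 4) * (y ^ 2 - z ^ 2) - 2 * B ^ 4 / s ^ 5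
      ≤ 1 / (lam + z) - 1 / (lam + y) := by
  obtain ⟨y1, y2⟩ := abs_le.mp hy
  obtain ⟨z1, z2⟩ := abs_le.mp hz
  have hB0 : 0 ≤ B := (abs_nonneg _).trans hy
  have ez : lam + z = s + (z - a) := by rw [hs]; ring
  have ey : lam + y = s + (y - a) := by rw [hs]; ring
  have pz : 0 < s + (z - a) := by linarith
  have py : s / 2 ≤ s + (y - a) := by linarith
  have py0 : 0 < s + (y - a) := by linarith
  rw [ez, ey, inv_exp hs0 pz, inv_exp hs0 py0]
  have t1 : 0 ≤ (z - a) ^ 4 / (s ^ 4 * (s + (z - a))) := by positivity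
  have t2 : (y - a) ^ 4 / (s ^ 4 * (s + (y - a))) ≤ 2 * B ^ 4 / s ^ 5 := by
    have h1 : (y - a) ^ 4 ≤ B ^ 4 := by
      have h2 : (y - a) ^ 2 ≤ B ^ 2 := sq_le_sq' y1 y2
      have h3 : ((y - a) ^ 2) ^ 2 ≤ (B ^ 2) ^ 2 := pow_le_pow_left₀ (sq_nonneg _) h2 2
      calc (y - a) ^ 4 = ((y - a) ^ 2) ^ 2 := by ring
        _ ≤ (B ^ 2) ^ 2 := h3
        _ = B ^ 4 := by ring
    have h4 : s ^ 4 * (s / 2) ≤ s ^ 4 * (s + (y - a)) :=
      mul_le_mul_of_nonneg_left py (by positivity)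
    calc (y - a) ^ 4 / (s ^ 4 * (s + (y - a))) ≤ B ^ 4 / (s ^ 4 * (s / 2)) :=
          div_le_div₀ (by positivity) h1 (by positivity) h4
      _ = 2 * B ^ 4 / s ^ 5 := by field_simp
  have e : (y ^ 3 - z ^ 3) / s ^ 4 + (1 / s ^ 2 + 2 * a / s ^ 3 + 3 * a ^ 2 / s ^ 4) * (y - z)
      - (1 / s ^ 3 + 3 * a / s ^ 4) * (y ^ 2 - z ^ 2)
      = (1 / s - (z - a) / s ^ 2 + (z - a) ^ 2 / s ^ 3 - (z - a) ^ 3 / s ^ 4)
        - (1 / s - (y - a) / s ^ 2 + (y - a) ^ 2 / s ^ 3 - (y - a) ^ 3 / s ^ 4) := by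
    field_simp
    ring
  rw [e]
  linarith

theorem expand {r : ℕ} {lam a s B : ℝ} {y z : Fin r → ℝ} (hs : s = lam + a) (hs0 : 0 < s)
    (h1 : ∑ i, y i = ∑ i, z i) (h2 : ∑ i, y i ^ 2 = ∑ i, z i ^ 2) (hy : ∀ i, |y i - a| ≤ B)
    (hz : ∀ i, |z i - a| ≤ B) (hB : 2 * B ≤ s) :
    (∑ i, y i ^ 3 - ∑ i, z i ^ 3) / s ^ 4 - r * (2 * B ^ 4 / s ^ 5)
      ≤ ∑ i, (1 / (lam + z i) - 1 / (lam + y i)) := by
  have h3 := Finset.sum_le_sum fun i (_ : i ∈ (univ : Finset (Fin r))) =>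
    point hs hs0 (hy i) (hz i) hB
  refine le_trans (le_of_eq ?_) h3
  rw [Finset.sum_sub_distrib, Finset.sum_sub_distrib, Finset.sum_add_distrib, ← Finset.sum_div,
    ← Finset.mul_sum, ← Finset.mul_sum, Finset.sum_sub_distrib, Finset.sum_sub_distrib,
    Finset.sum_sub_distrib, h1, h2, Finset.sum_const, Finset.card_univ, Fintype.card_fin,
    nsmul_eq_mul]
  ring

theorem Ph_sub {r : ℕ} {lam : ℝ} {y z : Fin r → ℝ} (hy : ∀ i, 0 < lam + y i)
    (hz : ∀ i, 0 < lam + z i) :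
    Ph y lam - Ph z lam = lam * ∑ i, (1 / (lam + z i) - 1 / (lam + y i)) := by
  unfold Ph
  rw [Finset.mul_sum, sub_sub_sub_cancel_right, ← Finset.sum_sub_distrib]
  refine Finset.sum_congr rfl fun i _ => ?_
  have := (hy i).ne'
  have := (hz i).ne'
  field_simp
  ring

/-- the deviations are bounded -/
theorem dev {r n : ℕ} (hr : 3 ≤ r) {y : Fin r → ℕ} (h1 : ∑ i, y i = n)
    (h2 : ∑ i, y i ^ 2 + 2 * tn r n = n ^ 2 + 2) (i : Fin r) :
    |(y i : ℝ) - n / r| ≤ (r : ℝ) + 2 := by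
  have hrR : (3 : ℝ) ≤ r := by exact_mod_cast hr
  have hs : ∑ i, re y i = n := by unfold re; exact_mod_cast h1
  have h3 := BIG.mo2_eq hr hs
  have h4 : ∑ i, re y i ^ 2 + 2 * (tn r n : ℝ) = (n : ℝ) ^ 2 + 2 := by
    unfold re; exact_mod_cast h2
  have h5 := abs_le.mp ((pTN r hr n).2.1)
  have h6 : al r * (n : ℝ) ^ 2 = (n : ℝ) ^ 2 - (n : ℝ) ^ 2 / r := by unfold al; ring
  have h7 := BIG.dev_le (n := n) (re y) i
  have h8 : (re y i - n / r) ^ 2 ≤ (r : ℝ) + 2 := by linarith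
  have h9 : (re y i - n / r) ^ 2 ≤ ((r : ℝ) + 2) ^ 2 := by nlinarith
  exact abs_le_of_sq_le_sq h9 (by linarith)

end X_W3P

theorem x_W3P : Stmt_W3P := by
  intro r hr
  have hrR : (3 : ℝ) ≤ r := by exact_mod_cast hr
  have hr0 : (0 : ℝ) < r := by linarith
  obtain ⟨dL, nL, hdL, HL⟩ := pLAM r hr
  obtain ⟨K, hK⟩ : ∃ K : ℝ, K = 4 * (r : ℝ) ^ 3 + 14 * r ^ 2 := ⟨_, rfl⟩
  have hK0 : 0 < K := by rw [hK]; positivity
  obtain ⟨n1, hn1⟩ := exists_nat_ge (2048 * K + 8 * r * ((r : ℝ) + 2) ^ 4 + 24 * r + 6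
    + r * (4 * r + 1) + ((r : ℝ) + 2) ^ 2 + 1)
  refine ⟨dL, nL + n1 + r * (r + 4) + 4 * r, hdL, ?_⟩
  intro n hn j _ V _ G H c w u A B i0 hC hmx hW hAr hq y hy hyq
  classical
  have hnn : (n1 : ℝ) ≤ n := by exact_mod_cast (by omega : n1 ≤ n)
  have hr3 : 0 ≤ (r : ℝ) ^ 3 := by positivity
  have q1 : 0 ≤ 8 * r * ((r : ℝ) + 2) ^ 4 := by positivity
  have q2 : 0 ≤ r * (4 * (r : ℝ) + 1) := by positivity
  have q3 : 0 ≤ ((r : ℝ) + 2) ^ 2 := by positivity
  have b1 : 2048 * K < n := by linarith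
  have b2 : 8 * r * ((r : ℝ) + 2) ^ 4 ≤ n := by linarith
  have b3 : 24 * (r : ℝ) + 6 ≤ n := by linarith
  have b4 : r * (4 * (r : ℝ) + 1) ≤ n := by linarith
  have b5 : ((r : ℝ) + 2) ^ 2 ≤ n := by linarith
  have hn0 : (0 : ℝ) < n := by linarith
  -- class sizes
  have hszn : ∑ i, (cl H c i).card = n := by rw [sum_card_cl, hW.card]
  have hyq' : ∑ i, y i ^ 2 + 2 * tn r n = n ^ 2 + 2 := by rw [hyq]; exact hq
  have dz := X_W3P.dev hr hszn hq
  have dy := X_W3P.dev hr hy hyq'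
  have hsqn : (r : ℝ) + 2 ≤ √(n : ℝ) := Real.le_sqrt_of_sq_le b5
  have hnr : (n : ℝ) / r * r = n := div_mul_cancel₀ _ hr0.ne'
  have hy2 : ∀ i, 2 ≤ y i := by
    intro i
    have h1 := (abs_le.mp (dy i)).1
    have h2 : (r : ℝ) + 4 ≤ n / r := by
      rw [le_div_iff₀ hr0]
      have h3 : r * (r + 4) ≤ n := by omega
      have h4 : (r : ℝ) * (r + 4) ≤ n := by exact_mod_cast h3
      linarith
    have h3 : (2 : ℝ) ≤ y i := by linarith
    exact_mod_cast h3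
  -- number of vertices
  have hV : n + 2 ≤ Fintype.card V := by
    have h1 : w ∉ insert u H := by
      rw [Finset.mem_insert]
      rintro (h | h)
      · exact hW.hwu h
      · exact hW.hw h
    have h2 : (insert w (insert u H)).card = n + 2 := by
      rw [Finset.card_insert_of_notMem h1, Finset.card_insert_of_notMem hW.hu, hW.card]
    rw [← h2]
    exact Finset.card_le_univ _
  obtain ⟨G', H', c', w', u', A', B', k0, hW', hAr', hsz'⟩ := W3.competitor pEMB pSETS hr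
    (by omega) hV y hy hy2
  have hszy : sz H' c' = re y := by
    funext i
    unfold sz re
    rw [hsz' i]
  have hg := pGE r hr V G n H c w u A B i0 hW
  have hg' := pGE r hr V G' n H' c' w' u' A' B' k0 hW'
  have hsq : ∑ i, re y i ^ 2 = ∑ i, sz H c i ^ 2 := by
    unfold re sz
    exact_mod_cast hyq
  have hpE : pE G' = pE G := by
    rw [hg.2.2, hg'.2.2, hszy, hsq]
    have h1 : A'.card = A.card := by omega
    rw [h1]
  have hle : specRad G' ≤ specRad G :=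
    hmx G' hg'.1 (hg'.2.1 (fun i => by rw [hsz' i]; exact le_trans (by norm_num) (hy2 i))) hpE
  have hVn : Nonempty V := ⟨w⟩
  obtain ⟨x, hx⟩ := exists_PV G
  obtain ⟨x', hx'⟩ := exists_PV G'
  obtain ⟨lam, hlam⟩ : ∃ lam, lam = specRad G := ⟨_, rfl⟩
  obtain ⟨lam', hlam'⟩ : ∃ lam', lam' = specRad G' := ⟨_, rfl⟩
  rw [← hlam] at hx
  rw [← hlam'] at hx'
  rw [← hlam, ← hlam'] at hle
  -- size of the spectral radii
  have hL := HL n (by omega) V G x lam c H hC (fun i => by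
    have h1 := dz i
    unfold sz
    linarith) hx
  have hal := al_ge hr
  have hl2 : lam ≤ n := by
    have h1 := (abs_le.mp hL).2
    have h2 : al r * n = n - n / r := by unfold al; ring
    have h3 : 4 * (r : ℝ) + 1 ≤ n / r := by
      rw [le_div_iff₀ hr0]; linarith
    linarith
  have hsum2 : ∑ i, sz H' c' i ^ 2 ≤ (n : ℝ) ^ 2 / r + r + 2 := by
    have h1 : ∑ i, re y i ^ 2 + 2 * (tn r n : ℝ) = (n : ℝ) ^ 2 + 2 := by
      unfold re; exact_mod_cast hyq'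
    have h5 := abs_le.mp ((pTN r hr n).2.1)
    have h6 : al r * (n : ℝ) ^ 2 = (n : ℝ) ^ 2 - (n : ℝ) ^ 2 / r := by unfold al; ring
    rw [hszy]
    linarith
  have hl1 : (n : ℝ) / 2 ≤ lam' := by
    have h1 := X_W3P.low hW'
    rw [← hlam'] at h1
    have h2 : (n : ℝ) ^ 2 / r ≤ n ^ 2 / 3 := div_le_div_of_nonneg_left (by positivity) (by norm_num) hrR
    have h3 : (n : ℝ) / 2 * n ≤ lam' * n := by nlinarith
    exact le_of_mul_le_mul_right h3 hn0
  have hl0' : 0 < lam' := by linarith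
  have hl0 : 0 < lam := by linarith
  have hl3 : 2 * (r : ℝ) ≤ lam' := by linarith
  have m1 := X_W3P.main hr hW hAr hx (by linarith) dz
  have m2 := X_W3P.main hr hW' hAr' hx' hl3 (fun i => by rw [hszy]; exact dy i)
  rw [hszy] at m2
  rw [← hK] at m1 m2
  have hμ' : (1 / lam') ^ 4 ≤ 16 / (n : ℝ) ^ 4 := by
    have h1 : 1 / lam' ≤ 2 / n := by
      rw [div_le_div_iff₀ hl0' hn0]; linarith
    calc (1 / lam') ^ 4 ≤ (2 / (n : ℝ)) ^ 4 := pow_le_pow_left₀ (one_div_pos.mpr hl0').le h1 4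
      _ = 16 / (n : ℝ) ^ 4 := by rw [div_pow]; norm_num
  have hμ : (1 / lam) ^ 4 ≤ 16 / (n : ℝ) ^ 4 :=
    (pow_le_pow_left₀ (one_div_pos.mpr hl0).le (one_div_le_one_div_of_le hl0' hle) 4).trans hμ'
  have k1 := (abs_le.mp m1).1
  have k2 := (abs_le.mp m2).2
  have r1 : K * (1 / lam) ^ 4 ≤ K * (16 / (n : ℝ) ^ 4) := mul_le_mul_of_nonneg_left hμ hK0.le
  have r2 : K * (1 / lam') ^ 4 ≤ K * (16 / (n : ℝ) ^ 4) := mul_le_mul_of_nonneg_left hμ' hK0.le
  have hnr0 : 0 ≤ (n : ℝ) / r := by positivity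
  have r3 : 2 * ((r : ℝ) - 1) ^ 2 * (1 / lam) * (1 / (lam + n / r)) ^ 2
      ≤ 2 * ((r : ℝ) - 1) ^ 2 * (1 / lam') * (1 / (lam' + n / r)) ^ 2 := by
    have h1 : 1 / lam ≤ 1 / lam' := one_div_le_one_div_of_le hl0' hle
    have h2 : (1 / (lam + (n : ℝ) / r)) ^ 2 ≤ (1 / (lam' + n / r)) ^ 2 :=
      pow_le_pow_left₀ (by positivity) (one_div_le_one_div_of_le (by linarith) (by linarith)) 2
    have h3 : 0 ≤ 1 / lam' := (one_div_pos.mpr hl0').le
    exact mul_le_mul (mul_le_mul_of_nonneg_left h1 (by positivity)) h2 (by positivity)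
      (mul_nonneg (by positivity) h3)
  have r4 : Ph (re y) lam ≤ Ph (re y) lam' := by
    refine BIG.Ph_anti (fun i => ?_) hl0'.le hle
    unfold re
    have : 0 < y i := lt_of_lt_of_le (by norm_num) (hy2 i)
    exact_mod_cast this
  have key : Ph (re y) lam - Ph (sz H c) lam ≤ 32 * K / (n : ℝ) ^ 4 := by
    have e : 32 * K / (n : ℝ) ^ 4 = K * (16 / (n : ℝ) ^ 4) + K * (16 / (n : ℝ) ^ 4) := by ring
    rw [e]
    linarith
  have hsz0 : ∀ i, 0 ≤ sz H c i := fun i => Nat.cast_nonneg _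
  have hre0 : ∀ i, 0 ≤ re y i := fun i => Nat.cast_nonneg _
  rw [X_W3P.Ph_sub (fun i => by linarith [hre0 i]) (fun i => by linarith [hsz0 i])] at key
  obtain ⟨s, hs⟩ : ∃ s, s = lam + (n : ℝ) / r := ⟨_, rfl⟩
  have hs1 : (n : ℝ) / 2 ≤ s := by linarith
  have hs0 : 0 < s := by linarith
  have hs2 : s ≤ 2 * n := by
    have : (n : ℝ) / r ≤ n := div_le_self hn0.le (by linarith)
    linarith
  have ex := X_W3P.expand (y := re y) (z := sz H c) (B := (r : ℝ) + 2) hs hs0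
    (by
      have h1 : ∑ i, re y i = n := by unfold re; exact_mod_cast hy
      have h2 : ∑ i, sz H c i = n := by unfold sz; exact_mod_cast hszn
      rw [h1, h2]) hsq dy dz (by
      have h1 : 4 * ((r : ℝ) + 2) ≤ n := by linarith
      linarith)
  by_contra hcon
  push Not at hcon
  have hint : ∑ i, sz H c i ^ 3 + 1 ≤ ∑ i, re y i ^ 3 := by
    unfold sz re
    exact_mod_cast hcon
  -- contradiction
  have p4 : 0 < s ^ 4 := by positivity
  have f1 : 1 / s ^ 4 ≤ (∑ i, re y i ^ 3 - ∑ i, sz H c i ^ 3) / s ^ 4 :=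
    div_le_div_of_nonneg_right (by linarith) p4.le
  have f2 : r * (2 * ((r : ℝ) + 2) ^ 4 / s ^ 5) ≤ 1 / 2 * (1 / s ^ 4) := by
    have h1 : r * (2 * ((r : ℝ) + 2) ^ 4 / s ^ 5) = (2 * r * ((r : ℝ) + 2) ^ 4 / s) * (1 / s ^ 4) := by
      field_simp
    rw [h1]
    refine mul_le_mul_of_nonneg_right ?_ (by positivity)
    rw [div_le_iff₀ hs0]
    linarith
  have f3 : 1 / 2 * (1 / s ^ 4) ≤ ∑ i, (1 / (lam + sz H c i) - 1 / (lam + re y i)) := by
    linarith
  have f4 : lam * (1 / 2 * (1 / s ^ 4)) ≤ 32 * K / (n : ℝ) ^ 4 :=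
    (mul_le_mul_of_nonneg_left f3 hl0.le).trans key
  have f5 : s ^ 4 ≤ 16 * (n : ℝ) ^ 4 := by
    calc s ^ 4 ≤ (2 * (n : ℝ)) ^ 4 := pow_le_pow_left₀ hs0.le hs2 4
      _ = 16 * (n : ℝ) ^ 4 := by ring
  have hn4 : 0 < (n : ℝ) ^ 4 := by positivity
  have f6 : lam / (2 * s ^ 4) ≤ 32 * K / (n : ℝ) ^ 4 := by
    have : lam * (1 / 2 * (1 / s ^ 4)) = lam / (2 * s ^ 4) := by field_simp
    rw [← this]; exact f4
  rw [div_le_div_iff₀ (by positivity) hn4] at f6
  have f7 : 32 * K * (2 * s ^ 4) ≤ (1024 * K) * (n : ℝ) ^ 4 := by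
    have := mul_le_mul_of_nonneg_left f5 (by linarith : 0 ≤ 64 * K)
    linarith
  have f8 : lam * (n : ℝ) ^ 4 ≤ (1024 * K) * (n : ℝ) ^ 4 := f6.trans f7
  have f9 := le_of_mul_le_mul_right f8 hn4
  linarith

end Pool.Agent.Work.MP_5532fa_up
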