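import Pool.Agent.Work.MP_5532fa_x.Interface6

/-!
# MP_5532fa_co, sixth round: block WIN (the second threshold, pure)
-/

open Finset

namespace Pool.Agent.Work.MP_5532fa_up

namespace X_WIN

private theorem le_one' {t : ℝ} (h0 : 0 ≤ t) (h : t * t ≤ 1) : t ≤ 1 := by nlinarith

private theorem one_le' {t : ℝ} (h0 : 0 ≤ t) (h : 1 ≤ t * t) : 1 ≤ t := by nlinarith

private theorem lt_one' {t : ℝ} (h0 : 0 ≤ t) (h : t < 1) : t * t < 1 := by nlinarith

private theorem aux14 {C κ : ℝ} (hC : 1 ≤ C) (hκ : 0 ≤ κ) :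
    C * (1 + κ) + 13 * C ≤ 14 * C * (1 + κ) := by nlinarith

private theorem aux9 {r κ : ℝ} (hr : 0 ≤ r) (hκ : 0 ≤ κ) : 9 * r ≤ 9 * r * (1 + κ) := by nlinarith

private theorem auxsq {q t : ℝ} (ht : 0 ≤ t) (h : 0 < q - t) : (q - t) * q ≤ q * q - t * t := by
  nlinarith

private theorem auxr {r : ℝ} (h3 : 3 ≤ r) : 1 * r ≤ 1 * (4 * r ^ 2) := by nlinarith

private theorem mul9 {r c : ℝ} (hr : 0 ≤ r) (hc : c ≤ 3) : 3 * r * c ≤ 9 * r := by nlinarith

private theorem mul1 {c t : ℝ} (hc : 0 ≤ c) (ht : t ≤ 1) : c * t ≤ c := by nlinarith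

private theorem mul3 {k x : ℝ} (h0 : 0 ≤ k) (h1 : k ≤ 1) (hx0 : 0 ≤ x) (hx : x ≤ 2 * (3 / 2)) :
    k * x ≤ 3 := by nlinarith

private theorem cube_diff (a t N C s b : ℝ) (hN : 1 ≤ N) (hs : 0 ≤ s) (hs2 : s * s = N)
    (ha : 0 ≤ a) (hb : 0 ≤ b) (hb2 : b * b ≤ 2) (hC : 1 ≤ C) (hCN : C ≤ N)
    (hd : |a * a - N * (b * b)| ≤ C) (ht : t = a * (a * a)) :
    |t - s * b * (s * b * (s * b))| ≤ 4 * C * s := by
  have hs1 : 1 ≤ s := by nlinarith
  have h1 : t - s * b * (s * b * (s * b)) = (a - s * b) * (a * a + a * (s * b) + (s * b) * (s * b)) := by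
    rw [ht]; ring
  have hsb : 0 ≤ s * b := mul_nonneg hs hb
  have hq : 0 ≤ a * a + a * (s * b) + (s * b) * (s * b) := by positivity
  have h2 : (s * b) * (s * b) = N * (b * b) := by rw [← hs2]; ring
  have h3 : |a - s * b| * (a + s * b) ≤ C := by
    have : |a - s * b| * (a + s * b) = |a * a - N * (b * b)| := by
      rw [← h2, ← abs_of_nonneg (add_nonneg ha hsb), ← abs_mul]
      congr 1
      ring
    rw [this]
    exact hd
  have h4 : a * a ≤ 3 * N := by
    have := (abs_le.1 hd).2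
    nlinarith
  have h5 : a ≤ 2 * s := by
    by_contra h
    push Not at h
    nlinarith
  have h6 : s * b ≤ 2 * s := by
    have : b ≤ 2 := by
      by_contra h
      push Not at h
      nlinarith
    nlinarith
  rw [h1, abs_mul, abs_of_nonneg hq]
  have h7 : a * a + a * (s * b) + (s * b) * (s * b) ≤ (a + s * b) * (a + s * b) := by
    nlinarith [mul_nonneg ha hsb]
  have h8 : 0 ≤ |a - s * b| := abs_nonneg _
  calc |a - s * b| * (a * a + a * (s * b) + (s * b) * (s * b))
      ≤ |a - s * b| * ((a + s * b) * (a + s * b)) := mul_le_mul_of_nonneg_left h7 h8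
    _ = (|a - s * b| * (a + s * b)) * (a + s * b) := by ring
    _ ≤ C * (a + s * b) := mul_le_mul_of_nonneg_right h3 (add_nonneg ha hsb)
    _ ≤ C * (4 * s) := mul_le_mul_of_nonneg_left (by linarith) (by linarith)
    _ = 4 * C * s := by ring

/-- expansion of the difference `D` -/
private theorem expand (N C s α kp X R D : ℝ) (hN : 1 ≤ N) (hC : 1 ≤ C) (hCN : C ≤ N)
    (hs : 0 ≤ s) (hs2 : s * s = N) (hα0 : 0 ≤ α) (hα1 : α ≤ 1) (hk0 : 0 ≤ kp) (hk1 : kp ≤ 1)
    (hX0 : 0 ≤ X) (hX1 : X ≤ 1) (hR : 0 ≤ R) (hRd : |R - 2 * α * N * (1 - X)| ≤ C)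
    (hD : D = α * (N + 1) - α * R / (N + 1) + α * (kp * (R * √R)) / (N + 1) ^ 2
      - (α * N + α * X ^ 2)) :
    |D - α * ((1 - X) * (2 - 2 * α - (1 - X))
      + kp * (2 * α * (1 - X) * √(2 * α * (1 - X))) / s)| ≤ 13 * C / N := by
  have hN0 : 0 < N := by linarith
  have hs1 : 1 ≤ s := by nlinarith
  have hs0 : 0 < s := by linarith
  have hu0 : 0 ≤ 1 - X := by linarith
  obtain ⟨u, hu⟩ : ∃ u, u = 1 - X := ⟨_, rfl⟩
  obtain ⟨b, hb⟩ : ∃ b, b = √(2 * α * (1 - X)) := ⟨_, rfl⟩
  obtain ⟨a, ha⟩ : ∃ a, a = √R := ⟨_, rfl⟩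
  have hb0 : 0 ≤ b := by rw [hb]; exact Real.sqrt_nonneg _
  have ha0 : 0 ≤ a := by rw [ha]; exact Real.sqrt_nonneg _
  have hbb : b * b = 2 * α * (1 - X) := by
    rw [hb]; exact Real.mul_self_sqrt (by positivity)
  have haa : a * a = R := by rw [ha]; exact Real.mul_self_sqrt hR
  rw [← ha] at hD
  rw [← hb]
  have hbb2 : b * b ≤ 2 := by rw [hbb]; nlinarith
  have hb32 : b ≤ 3 / 2 := by
    by_contra h
    push Not at h
    nlinarith
  have hb3 : b * (b * b) ≤ 3 := by
    calc b * (b * b) ≤ (3 / 2) * 2 := mul_le_mul hb32 hbb2 (by positivity) (by norm_num)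
      _ = 3 := by norm_num
  -- first difference
  obtain ⟨T1, hT1⟩ : ∃ T1, T1 = R / (N + 1) - 2 * α * (1 - X) := ⟨_, rfl⟩
  obtain ⟨T2, hT2⟩ : ∃ T2, T2 = R * a / (N + 1) ^ 2 - b * (b * b) / s := ⟨_, rfl⟩
  have hkey : D - α * ((1 - X) * (2 - 2 * α - (1 - X)) + kp * (2 * α * (1 - X) * b) / s)
      = -(α * T1) + α * kp * T2 := by
    rw [hD, hT1, hT2, hbb]
    ring
  have hT1b : |T1| ≤ 3 * C / N := by
    have h1 : T1 = (R - 2 * α * N * (1 - X) - 2 * α * (1 - X)) / (N + 1) := by
      rw [hT1]; field_simp; ring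
    rw [h1, abs_div, abs_of_pos (by linarith : (0 : ℝ) < N + 1)]
    have h2 : |R - 2 * α * N * (1 - X) - 2 * α * (1 - X)| ≤ 3 * C := by
      have h3 : 0 ≤ 2 * α * (1 - X) := by positivity
      have h4 : 2 * α * (1 - X) ≤ 2 := by nlinarith
      rw [abs_le] at hRd ⊢
      constructor <;> linarith [hRd.1, hRd.2]
    calc |R - 2 * α * N * (1 - X) - 2 * α * (1 - X)| / (N + 1) ≤ 3 * C / (N + 1) := by
          gcongr
      _ ≤ 3 * C / N := by
          apply div_le_div_of_nonneg_left (by linarith) hN0 (by linarith)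
  have hcd := cube_diff a (R * a) N C s b hN hs hs2 ha0 hb0 hbb2 hC hCN
    (by rw [haa, hbb]; rw [show N * (2 * α * (1 - X)) = 2 * α * N * (1 - X) by ring]; exact hRd)
    (by rw [← haa]; ring)
  have hT2b : |T2| ≤ 10 * C / N := by
    have h1 : T2 = (R * a - s * b * (s * b * (s * b))) / (N + 1) ^ 2
        - b * (b * b) * (2 * N + 1) / (s * (N + 1) ^ 2) := by
      rw [hT2]
      have h2 : s * b * (s * b * (s * b)) = s * N * (b * (b * b)) := by rw [← hs2]; ring
      rw [h2]
      have h3 : s * N * (b * (b * b)) / (N + 1) ^ 2 = N ^ 2 * (b * (b * b)) / (s * (N + 1) ^ 2) := by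
        rw [div_eq_div_iff (by positivity) (by positivity)]
        have : s * N * (b * (b * b)) * (s * (N + 1) ^ 2) = (s * s) * N * (b * (b * b)) * (N + 1) ^ 2 := by
          ring
        rw [this, hs2]; ring
      have h4 : b * (b * b) / s = (N + 1) ^ 2 * (b * (b * b)) / (s * (N + 1) ^ 2) := by
        field_simp
      rw [sub_div, h3, h4]
      ring
    have h5 : |(R * a - s * b * (s * b * (s * b))) / (N + 1) ^ 2| ≤ 4 * C / N := by
      rw [abs_div, abs_of_pos (by positivity : (0 : ℝ) < (N + 1) ^ 2), div_le_div_iff₀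
        (by positivity) hN0]
      have h6 : s * N ≤ (N + 1) ^ 2 := by nlinarith
      calc |R * a - s * b * (s * b * (s * b))| * N ≤ 4 * C * s * N :=
            mul_le_mul_of_nonneg_right hcd hN0.le
        _ = 4 * C * (s * N) := by ring
        _ ≤ 4 * C * (N + 1) ^ 2 := mul_le_mul_of_nonneg_left h6 (by linarith)
    have h7 : |b * (b * b) * (2 * N + 1) / (s * (N + 1) ^ 2)| ≤ 6 / N := by
      rw [abs_of_nonneg (by positivity), div_le_div_iff₀ (by positivity) hN0]
      have h8 : 0 ≤ b * (b * b) := by positivity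
      calc b * (b * b) * (2 * N + 1) * N = b * (b * b) * ((2 * N + 1) * N) := by ring
        _ ≤ 3 * ((2 * N + 1) * N) := mul_le_mul_of_nonneg_right hb3 (by positivity)
        _ ≤ 6 * (N + 1) ^ 2 := by nlinarith
        _ ≤ 6 * (s * (N + 1) ^ 2) := by
            have : (N + 1) ^ 2 ≤ s * (N + 1) ^ 2 := le_mul_of_one_le_left (by positivity) hs1
            linarith
    rw [h1]
    calc |(R * a - s * b * (s * b * (s * b))) / (N + 1) ^ 2
          - b * (b * b) * (2 * N + 1) / (s * (N + 1) ^ 2)|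
        ≤ |(R * a - s * b * (s * b * (s * b))) / (N + 1) ^ 2|
          + |b * (b * b) * (2 * N + 1) / (s * (N + 1) ^ 2)| := abs_sub _ _
      _ ≤ 4 * C / N + 6 / N := add_le_add h5 h7
      _ = (4 * C + 6) / N := by ring
      _ ≤ 10 * C / N := by
          apply div_le_div_of_nonneg_right _ hN0.le
          linarith
  rw [hkey]
  have hαkp : α * kp ≤ 1 := by nlinarith
  have hαkp0 : 0 ≤ α * kp := mul_nonneg hα0 hk0
  calc |-(α * T1) + α * kp * T2| ≤ |-(α * T1)| + |α * kp * T2| := abs_add_le _ _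
    _ = α * |T1| + α * kp * |T2| := by
        rw [abs_neg, abs_mul, abs_mul, abs_of_nonneg hα0, abs_of_nonneg hαkp0]
    _ ≤ 1 * |T1| + 1 * |T2| := by
        gcongr
    _ ≤ 3 * C / N + 10 * C / N := by linarith
    _ = 13 * C / N := by ring

private theorem al_bounds {r : ℕ} (hr : 3 ≤ r) : 2 / 3 ≤ al r ∧ al r ≤ 1 ∧
    2 - 2 * al r = 2 / (r : ℝ) := by
  have h3 : (3 : ℝ) ≤ r := by exact_mod_cast hr
  have hr0 : (0 : ℝ) < r := by linarith
  unfold al
  refine ⟨?_, ?_, by ring⟩
  · have : 1 / (r : ℝ) ≤ 1 / 3 := by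
      apply div_le_div_of_nonneg_left (by norm_num) (by norm_num) h3
    linarith
  · have : 0 ≤ 1 / (r : ℝ) := by positivity
    linarith

private theorem kap_bounds {r : ℕ} (hr : 3 ≤ r) : 0 ≤ kap r ∧ kap r ≤ 1 := by
  have h3 : (3 : ℝ) ≤ r := by exact_mod_cast hr
  unfold kap
  constructor
  · apply div_nonneg (by linarith) (Real.sqrt_nonneg _)
  · have h0 : 0 < √((r : ℝ) * ((r : ℝ) - 1)) := Real.sqrt_pos.2 (by nlinarith)
    rw [div_le_one h0]
    apply Real.le_sqrt_of_sq_le
    nlinarith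

private theorem gam_eq {r : ℕ} (hr : 3 ≤ r) :
    kap r * (2 * al r * √(2 * al r)) * √(2 / (r : ℝ)) = gam r := by
  have h3 : (3 : ℝ) ≤ r := by exact_mod_cast hr
  have hr0 : (0 : ℝ) < r := by linarith
  have hr1 : (0 : ℝ) < (r : ℝ) - 1 := by linarith
  have hal := (al_bounds hr).1
  have e1 : √(2 * al r) * √(2 / (r : ℝ)) = 2 * √((r : ℝ) - 1) / r := by
    rw [← Real.sqrt_mul (by linarith)]
    have h1 : 2 * al r * (2 / (r : ℝ)) = (2 * √((r : ℝ) - 1) / r) ^ 2 := by
      have : √((r : ℝ) - 1) ^ 2 = (r : ℝ) - 1 := Real.sq_sqrt hr1.le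
      rw [div_pow, mul_pow, this]
      unfold al
      field_simp
    rw [h1, Real.sqrt_sq (by positivity)]
  have e2 : √((r : ℝ) * ((r : ℝ) - 1)) = √(r : ℝ) * √((r : ℝ) - 1) := Real.sqrt_mul hr0.le _
  have hs1 : 0 < √((r : ℝ) - 1) := Real.sqrt_pos.2 hr1
  have hsr : 0 < √(r : ℝ) := Real.sqrt_pos.2 hr0
  calc kap r * (2 * al r * √(2 * al r)) * √(2 / (r : ℝ))
      = kap r * (2 * al r) * (√(2 * al r) * √(2 / (r : ℝ))) := by ring
    _ = gam r := by
        rw [e1]
        unfold kap gam al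
        rw [e2]
        field_simp
        ring

end X_WIN

theorem x_WIN : Stmt_WIN := by
  intro r C hr hC
  have h3 : (3 : ℝ) ≤ r := by exact_mod_cast hr
  have hr0 : (0 : ℝ) < r := by linarith
  obtain ⟨hα, hα1, hα2⟩ := X_WIN.al_bounds hr
  obtain ⟨hk0, hk1⟩ := X_WIN.kap_bounds hr
  have hg := X_WIN.gam_eq hr
  obtain ⟨c, hc⟩ : ∃ c, c = kap r * (2 * al r * √(2 * al r)) := ⟨_, rfl⟩
  obtain ⟨q, hq⟩ : ∃ q, q = √(2 / (r : ℝ)) := ⟨_, rfl⟩
  have hq0 : 0 < q := by rw [hq]; exact Real.sqrt_pos.2 (by positivity)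
  have hqq : q * q = 2 / (r : ℝ) := by rw [hq]; exact Real.mul_self_sqrt (by positivity)
  have hc0 : 0 ≤ c := by
    rw [hc]
    have : 0 ≤ 2 * al r := by linarith
    positivity
  have hc3 : c ≤ 3 := by
    rw [hc]
    have h1 : √(2 * al r) ≤ 3 / 2 := by
      rw [Real.sqrt_le_left (by norm_num)]
      nlinarith
    have h2 : 2 * al r * √(2 * al r) ≤ 2 * (3 / 2) :=
      mul_le_mul (by linarith) h1 (Real.sqrt_nonneg _) (by norm_num)
    have h4 : 0 ≤ 2 * al r * √(2 * al r) := by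
      have : 0 ≤ 2 * al r := by linarith
      positivity
    exact X_WIN.mul3 hk0 hk1 h4 h2
  have hgq : c * q = gam r := by rw [hc, hq]; exact hg
  have hqr : 1 ≤ r * q := by
    have h1 : 1 ≤ (r * q) * (r * q) := by
      have : (r * q) * (r * q) = r * r * (q * q) := by ring
      rw [this, hqq]
      field_simp
      linarith
    exact X_WIN.one_le' (by positivity) h1
  refine ⟨(3 * r + 1) * (21 * r * C) + 9 * r, ⌈C⌉₊ + 1, ?_, ?_⟩
  · have : 0 ≤ (3 * (r : ℝ) + 1) * (21 * r * C) := by positivity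
    linarith
  intro N hN X R κ D hX0 hX1 hR hRd hκ _ hD
  have hN1 : (1 : ℝ) ≤ N := by
    have : 1 ≤ N := by omega
    exact_mod_cast this
  have hCN : C ≤ N := by
    have h1 : ⌈C⌉₊ ≤ N := by omega
    have h2 : (⌈C⌉₊ : ℝ) ≤ N := by exact_mod_cast h1
    exact (Nat.le_ceil C).trans h2
  have hN0 : (0 : ℝ) < N := by linarith
  obtain ⟨s, hs⟩ : ∃ s, s = √(N : ℝ) := ⟨_, rfl⟩
  have hs0' : 0 ≤ s := by rw [hs]; exact Real.sqrt_nonneg _
  have hss : s * s = N := by rw [hs]; exact Real.mul_self_sqrt hN0.le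
  have hs1 : 1 ≤ s := X_WIN.one_le' hs0' (by rw [hss]; exact hN1)
  have hs0 : 0 < s := by linarith
  rw [← hs]
  have hexp := X_WIN.expand N C s (al r) (kap r) X R D hN1 hC hCN hs0' hss (by linarith) hα1 hk0
    hk1 hX0 hX1 hR hRd hD
  obtain ⟨t, ht⟩ : ∃ t, t = √(1 - X) := ⟨_, rfl⟩
  have ht0 : 0 ≤ t := by rw [ht]; exact Real.sqrt_nonneg _
  have htt : t * t = 1 - X := by rw [ht]; exact Real.mul_self_sqrt (by linarith)
  have ht1 : t ≤ 1 := X_WIN.le_one' ht0 (by rw [htt]; linarith)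
  have hform : al r * ((1 - X) * (2 - 2 * al r - (1 - X))
      + kap r * (2 * al r * (1 - X) * √(2 * al r * (1 - X))) / s)
      = al r * (1 - X) * (-(1 - X - 2 / r) + c * t / s) := by
    rw [hα2, Real.sqrt_mul (by linarith : 0 ≤ 2 * al r), ← ht, hc]
    ring
  rw [hform] at hexp
  obtain ⟨e, he⟩ : ∃ e, e = 21 * r * C * (1 + κ) / N := ⟨_, rfl⟩
  have he0 : 0 ≤ e := by rw [he]; positivity
  have hKe : ((3 * (r : ℝ) + 1) * (21 * r * C) + 9 * r) * (1 + κ) / N
      = (3 * r + 1) * e + 9 * r * (1 + κ) / N := by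
    rw [he]; ring
  have h14 : C * (1 + κ) / N + 13 * C / N ≤ 14 * C * (1 + κ) / N := by
    rw [← add_div]
    exact div_le_div_of_nonneg_right (X_WIN.aux14 hC hκ) hN0.le
  have he14 : 14 * C * (1 + κ) / N = (2 / 3) / r * e := by
    rw [he]
    field_simp
    ring
  have h9 : 0 ≤ 9 * (r : ℝ) * (1 + κ) / N := by positivity
  have h9' : 9 * (r : ℝ) / N ≤ 9 * (r : ℝ) * (1 + κ) / N :=
    div_le_div_of_nonneg_right (X_WIN.aux9 hr0.le hκ) hN0.le
  have hcs : 0 ≤ c * t / s := by positivity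
  have hYr : 0 ≤ gam r / s := by rw [← hgq]; positivity
  rw [hKe]
  constructor
  · intro hX2 hDle
    have hur : 1 / (r : ℝ) ≤ 1 - X := by
      have h1 : 1 / (4 * (r : ℝ) ^ 2) ≤ 1 / r := by
        rw [div_le_div_iff₀ (by positivity) hr0]
        exact X_WIN.auxr h3
      have h2 : (2 : ℝ) / r = 1 / r + 1 / r := by ring
      linarith
    have hup := (abs_le.1 hexp).1
    -- the bracket is at most `e`
    have hZ : -(1 - X - 2 / r) + c * t / s ≤ e := by
      by_contra h
      push Not at h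
      have h1 : (2 / 3) / r ≤ al r * (1 - X) := by
        calc (2 / 3) / (r : ℝ) = (2 / 3) * (1 / r) := by ring
          _ ≤ al r * (1 - X) := mul_le_mul hα hur (by positivity) (by linarith)
      have h2 : (2 / 3) / r * (-(1 - X - 2 / r) + c * t / s)
          ≤ al r * (1 - X) * (-(1 - X - 2 / r) + c * t / s) :=
        mul_le_mul_of_nonneg_right h1 (by linarith)
      have h4 : (2 / 3) / r * e < (2 / 3) / r * (-(1 - X - 2 / r) + c * t / s) :=
        mul_lt_mul_of_pos_left h (by positivity)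
      linarith
    -- lower bound for `t`
    have htq : q - t ≤ r * e := by
      by_contra h
      push Not at h
      have h1 : q * q - t * t ≤ e := by
        rw [hqq, htt]
        linarith
      have h2 : 0 < q - t := by
        have : 0 ≤ r * e := by positivity
        linarith
      have h4 : (q - t) * q ≤ q * q - t * t := X_WIN.auxsq ht0 h2
      have h5 : r * e * q < (q - t) * q := mul_lt_mul_of_pos_right h hq0
      have h6 : e ≤ r * e * q := by
        calc e = 1 * e := by ring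
          _ ≤ (r * q) * e := mul_le_mul_of_nonneg_right hqr he0
          _ = r * e * q := by ring
      linarith
    have hct : gam r / s - 3 * r * e ≤ c * t / s := by
      have h1 : c * q - 3 * r * e ≤ c * t := by
        have : c * (q - t) ≤ 3 * (r * e) := by
          calc c * (q - t) ≤ c * (r * e) := mul_le_mul_of_nonneg_left htq hc0
            _ ≤ 3 * (r * e) := mul_le_mul_of_nonneg_right hc3 (by positivity)
        linarith
      have h2 : (c * q - 3 * r * e) / s ≤ c * t / s := div_le_div_of_nonneg_right h1 hs0.le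
      have h4 : 3 * r * e / s ≤ 3 * r * e := div_le_self (by positivity) hs1
      rw [sub_div, hgq] at h2
      linarith
    linarith
  · intro hDge
    rcases le_or_gt (1 - X - 2 / r) 0 with hY | hY
    · have : 0 ≤ (3 * (r : ℝ) + 1) * e := by positivity
      linarith
    have hur : 1 / (r : ℝ) ≤ 1 - X := by
      have h2 : (2 : ℝ) / r = 1 / r + 1 / r := by ring
      have : 0 ≤ 1 / (r : ℝ) := by positivity
      linarith
    have hlo := (abs_le.1 hexp).2
    have hZ : -e ≤ -(1 - X - 2 / r) + c * t / s := by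
      by_contra h
      push Not at h
      have h1 : (2 / 3) / r ≤ al r * (1 - X) := by
        calc (2 / 3) / (r : ℝ) = (2 / 3) * (1 / r) := by ring
          _ ≤ al r * (1 - X) := mul_le_mul hα hur (by positivity) (by linarith)
      have h2 : (2 / 3) / r * (-(-(1 - X - 2 / r) + c * t / s))
          ≤ al r * (1 - X) * (-(-(1 - X - 2 / r) + c * t / s)) :=
        mul_le_mul_of_nonneg_right h1 (by linarith)
      have h4 : (2 / 3) / r * e < (2 / 3) / r * (-(-(1 - X - 2 / r) + c * t / s)) :=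
        mul_lt_mul_of_pos_left (by linarith) (by positivity)
      have h5 : -(C * (1 + κ) / N) ≤ D := hDge
      linarith
    have hYc : 1 - X - 2 / r ≤ c / s + e := by
      have : c * t / s ≤ c / s := div_le_div_of_nonneg_right (X_WIN.mul1 hc0 ht1) hs0.le
      linarith
    have htq : t - q ≤ r * (1 - X - 2 / r) := by
      by_contra h
      push Not at h
      have h2 : 0 < t - q := by
        have : 0 ≤ r * (1 - X - 2 / r) := by positivity
        linarith
      have h4 : (t - q) * q ≤ t * t - q * q := by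
        have h7 : t * t - q * q - (t - q) * q = t * (t - q) := by ring
        have h8 : 0 ≤ t * (t - q) := mul_nonneg ht0 h2.le
        linarith
      have h5 : r * (1 - X - 2 / r) * q < (t - q) * q := mul_lt_mul_of_pos_right h hq0
      have h6 : 1 - X - 2 / r ≤ r * (1 - X - 2 / r) * q := by
        calc 1 - X - 2 / r = 1 * (1 - X - 2 / r) := by ring
          _ ≤ (r * q) * (1 - X - 2 / r) := mul_le_mul_of_nonneg_right hqr hY.le
          _ = r * (1 - X - 2 / r) * q := by ring
      rw [hqq, htt] at h4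
      linarith
    have hct : c * t / s ≤ gam r / s + 9 * r / N + 3 * r * e := by
      have h1 : c * t ≤ c * q + 3 * (r * (c / s + e)) := by
        have h7 : r * (1 - X - 2 / r) ≤ r * (c / s + e) := mul_le_mul_of_nonneg_left hYc hr0.le
        have h8 : 0 ≤ r * (c / s + e) := by positivity
        have : c * (t - q) ≤ 3 * (r * (c / s + e)) := by
          calc c * (t - q) ≤ c * (r * (c / s + e)) := mul_le_mul_of_nonneg_left (htq.trans h7) hc0
            _ ≤ 3 * (r * (c / s + e)) := mul_le_mul_of_nonneg_right hc3 h8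
        linarith
      have h2 : c * t / s ≤ (c * q + 3 * (r * (c / s + e))) / s :=
        div_le_div_of_nonneg_right h1 hs0.le
      have h4 : (c * q + 3 * (r * (c / s + e))) / s = gam r / s + 3 * r * c / N + 3 * r * e / s := by
        rw [← hgq, ← hss]
        field_simp
        ring
      have h5 : 3 * r * e / s ≤ 3 * r * e := div_le_self (by positivity) hs1
      have h6 : 3 * r * c / N ≤ 9 * r / N :=
        div_le_div_of_nonneg_right (X_WIN.mul9 hr0.le hc3) hN0.le
      linarith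
    linarith

end Pool.Agent.Work.MP_5532fa_up
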