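import Pool.Agent.Work.MP_5532fa_x.Interface6

/-!
# Block WINA (helper53): extremal graphs of type D near the second threshold
-/

set_option autoImplicit false

open Finset

namespace Pool.Agent.Work.MP_5532fa_up

open MP5532fa (specRad qf pE)

namespace X_WINA

theorem even_aux {r n : ℕ} {z : Fin r → ℕ} (h : ∑ i, z i = n) :
    ∃ q : ℤ, (n : ℤ) ^ 2 - ∑ i, (z i : ℤ) ^ 2 = 2 * q := by
  have h1 : (n : ℤ) ^ 2 - ∑ i, (z i : ℤ) ^ 2 =
      (n : ℤ) * (n - 1) - ∑ i, (z i : ℤ) * ((z i : ℤ) - 1) := by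
    have e1 : ∑ i, (z i : ℤ) * ((z i : ℤ) - 1) = ∑ i, (z i : ℤ) ^ 2 - ∑ i, (z i : ℤ) := by
      rw [← sum_sub_distrib]
      exact sum_congr rfl fun i _ => by ring
    have e2 : ∑ i, (z i : ℤ) = n := by exact_mod_cast h
    rw [e1, e2]
    ring
  have h2 : Even ((n : ℤ) * (n - 1)) := Int.even_mul_pred_self _
  have h3 : Even (∑ i, (z i : ℤ) * ((z i : ℤ) - 1)) :=
    Finset.even_sum _ fun i _ => Int.even_mul_pred_self _
  obtain ⟨q, hq⟩ := h2.sub h3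
  exact ⟨q, by rw [h1, hq]; ring⟩

theorem kk_int {r n m : ℕ} {z : Fin r → ℕ} (h : ∑ i, z i = n) :
    ∃ k : ℤ, kk m n z = k := by
  obtain ⟨q, hq⟩ := even_aux h
  refine ⟨(m : ℤ) - ((r : ℤ) - 1) - q, ?_⟩
  have h1 : (n : ℝ) ^ 2 - ∑ i, (z i : ℝ) ^ 2 = 2 * (q : ℝ) := by exact_mod_cast hq
  unfold kk
  rw [h1]
  push_cast
  ring

/-- every integer has a cost -/
theorem cost {r n m : ℕ} (hr : 3 ≤ r) {z : Fin r → ℕ} (h : ∑ i, z i = n) :
    ∃ c' : ℝ, Cst r (kk m n z) c' ∧ c' ≤ 2 * |kk m n z| := by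
  obtain ⟨k, hk⟩ := kk_int (m := m) h
  have hrr : (3 : ℝ) ≤ r := by exact_mod_cast hr
  rcases le_or_gt 0 k with h0 | h0
  · have h1 : (0 : ℝ) ≤ kk m n z := by rw [hk]; exact_mod_cast h0
    exact ⟨2 * kk m n z, Or.inl ⟨h1, rfl⟩, by rw [abs_of_nonneg h1]⟩
  · have h1 : kk m n z ≤ -1 := by
      rw [hk]
      have h2 : k ≤ -1 := by omega
      exact_mod_cast h2
    refine ⟨-(2 * kk m n z / ((r : ℝ) - 1)), Or.inr (Or.inr ⟨h1, rfl⟩), ?_⟩
    rw [abs_of_nonpos (by linarith), ← neg_div, div_le_iff₀ (by linarith)]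
    nlinarith

/-- the second moment in terms of `kk` -/
theorem mo2 {r : ℕ} (hr : 3 ≤ r) {m n : ℕ} {y : Fin r → ℕ} (h : ∑ i, y i = n) :
    mo 2 n (re y) = RR r m n + 2 * kk m n y := by
  have hsum : ∑ i, re y i = (n : ℝ) := by
    unfold re
    exact_mod_cast h
  rw [mo_two hr hsum]
  unfold RR re kk al
  ring

/-- the second moment of an admissible vector -/
theorem mo2_le {r n : ℕ} {y : Fin r → ℕ} (h : ∀ i, |(y i : ℝ) - n / r| ≤ 2 * √(n : ℝ)) :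
    mo 2 n (re y) ≤ 4 * r * n := by
  unfold mo re
  have h1 : ∀ i ∈ (Finset.univ : Finset (Fin r)), ((y i : ℝ) - n / r) ^ 2 ≤ 4 * n := by
    intro i _
    have h2 : |(y i : ℝ) - n / r| ^ 2 ≤ (2 * √(n : ℝ)) ^ 2 :=
      pow_le_pow_left₀ (abs_nonneg _) (h i) 2
    rw [sq_abs, mul_pow, Real.sq_sqrt (Nat.cast_nonneg n)] at h2
    linarith
  calc ∑ i, ((y i : ℝ) - n / r) ^ 2 ≤ ∑ _i : Fin r, (4 * (n : ℝ)) := Finset.sum_le_sum h1
    _ = 4 * r * n := by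
      rw [Finset.sum_const, Finset.card_univ, Fintype.card_fin, nsmul_eq_mul]
      ring

/-- the fourth moment -/
theorem mo4_le {r n : ℕ} {y : Fin r → ℕ} (h : ∀ i, |(y i : ℝ) - n / r| ≤ 2 * √(n : ℝ)) :
    mo 4 n (re y) ≤ 16 * r * (n : ℝ) ^ 2 := by
  unfold mo re
  have h1 : ∀ i ∈ (Finset.univ : Finset (Fin r)), ((y i : ℝ) - n / r) ^ 4 ≤ 16 * (n : ℝ) ^ 2 := by
    intro i _
    have h2 : |(y i : ℝ) - n / r| ^ 4 ≤ (2 * √(n : ℝ)) ^ 4 :=
      pow_le_pow_left₀ (abs_nonneg _) (h i) 4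
    have e1 : (2 * √(n : ℝ)) ^ 4 = 16 * (√(n : ℝ) ^ 2) ^ 2 := by ring
    have e2 : |(y i : ℝ) - n / r| ^ 4 = ((y i : ℝ) - n / r) ^ 4 := by
      have e3 : |(y i : ℝ) - n / r| ^ 4 = (|(y i : ℝ) - n / r| ^ 2) ^ 2 := by ring
      rw [e3, sq_abs]
      ring
    rw [e1, e2, Real.sq_sqrt (Nat.cast_nonneg n)] at h2
    exact h2
  calc ∑ i, ((y i : ℝ) - n / r) ^ 4 ≤ ∑ _i : Fin r, (16 * (n : ℝ) ^ 2) := Finset.sum_le_sum h1
    _ = 16 * r * (n : ℝ) ^ 2 := by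
      rw [Finset.sum_const, Finset.card_univ, Fintype.card_fin, nsmul_eq_mul]
      ring

/-- moments of the constant vector -/
theorem mo_const {r : ℕ} (n k : ℕ) (hk : k ≠ 0) :
    mo k n (fun _ : Fin r => (n : ℝ) / r) = 0 := by
  unfold mo
  simp [hk]

/-- the secular function of the constant vector -/
theorem Ph_const {r : ℕ} (hr : 3 ≤ r) {n lam : ℝ} (hp : 0 < lam + n / r) :
    Ph (fun _ : Fin r => n / r) lam = (al r * n - lam) / (lam + n / r) := by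
  have hrr : (3 : ℝ) ≤ r := by exact_mod_cast hr
  unfold Ph al
  rw [sum_const, card_univ, Fintype.card_fin, nsmul_eq_mul, eq_div_iff hp.ne']
  have hr0 : (r : ℝ) ≠ 0 := by linarith
  rw [sub_mul, ← mul_div_assoc, div_mul_cancel₀ _ hp.ne']
  field_simp
  ring

/-- the last step -/
theorem core {a n lam P E B C5 : ℝ} (hn : 0 < n) (ha : 0 < a) (ha1 : a ≤ 1) (hP : 0 < P)
    (hPn : P = n + (lam - a * n)) (hB : |lam - a * n| ≤ B) (hE : |E| ≤ C5 * n)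
    (h : n ^ 2 / a * ((a * n - lam) / P) ≤ E) :
    a * n - lam ≤ a * E / n + C5 * B / n := by
  have hB0 : 0 ≤ B := (abs_nonneg _).trans hB
  have h1 : a * n - lam ≤ a * E * P / n ^ 2 := by
    rw [le_div_iff₀ (by positivity)]
    have h2 : n ^ 2 / a * ((a * n - lam) / P) = ((a * n - lam) * n ^ 2) / (a * P) := by
      field_simp
    rw [h2, div_le_iff₀ (by positivity)] at h
    linarith
  have h3 : a * E * P / n ^ 2 = a * E / n + a * E * (lam - a * n) / n ^ 2 := by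
    rw [hPn]
    field_simp
  have h4 : a * E * (lam - a * n) / n ^ 2 ≤ C5 * B / n := by
    rw [div_le_div_iff₀ (by positivity) hn]
    have h5 : a * E * (lam - a * n) ≤ C5 * n * B := by
      refine (le_abs_self _).trans ?_
      rw [abs_mul, abs_mul, abs_of_pos ha]
      have h6 : a * |E| ≤ C5 * n := by
        calc a * |E| ≤ 1 * |E| := mul_le_mul_of_nonneg_right ha1 (abs_nonneg _)
          _ = |E| := one_mul _
          _ ≤ C5 * n := hE
      exact mul_le_mul h6 hB (abs_nonneg _) ((abs_nonneg _).trans hE)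
    calc a * E * (lam - a * n) * n ≤ C5 * n * B * n := mul_le_mul_of_nonneg_right h5 hn.le
      _ = C5 * B * n ^ 2 := by ring
  linarith

/-- `N` is large if `m` is -/
theorem N_large {r : ℕ} (hr : 3 ≤ r) {N0 m N : ℕ} (hm : (N0 + 1) ^ 2 + r ≤ m)
    (h : m < tn r (N + 1)) : N0 ≤ N := by
  by_contra hcon
  push Not at hcon
  have h1 := (pTN r hr (N + 1)).2.1
  have h2 := (abs_le.1 h1).2
  have hal := al_lt hr
  have hal0 := al_ge hr
  push_cast at h2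
  have h3 : ((N : ℝ) + 1) ≤ N0 := by exact_mod_cast hcon
  have h4 : ((N : ℝ) + 1) ^ 2 ≤ (N0 : ℝ) ^ 2 := pow_le_pow_left₀ (by positivity) h3 2
  have h5 : (((N0 + 1) ^ 2 + r : ℕ) : ℝ) ≤ (m : ℝ) := by exact_mod_cast hm
  have h6 : (m : ℝ) < (tn r (N + 1) : ℝ) := by exact_mod_cast h
  push_cast at h5
  have h7 : al r * ((N : ℝ) + 1) ^ 2 ≤ 1 * ((N : ℝ) + 1) ^ 2 :=
    mul_le_mul_of_nonneg_right hal.le (sq_nonneg _)
  have h8 : (0 : ℝ) ≤ N0 := Nat.cast_nonneg _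
  have h9 : (0 : ℝ) ≤ r := Nat.cast_nonneg _
  have h10 : ((N0 : ℝ) + 1) ^ 2 = (N0 : ℝ) ^ 2 + 2 * N0 + 1 := by ring
  have h11 : (0 : ℝ) ≤ (N0 : ℝ) ^ 2 := sq_nonneg _
  linarith

/-- bounds for `kap` -/
theorem kap_bd {r : ℕ} (hr : 3 ≤ r) : 0 ≤ kap r ∧ kap r ≤ 1 := by
  have hrr : (3 : ℝ) ≤ r := by exact_mod_cast hr
  have h1 : (r : ℝ) - 1 ≤ √((r : ℝ) * ((r : ℝ) - 1)) := by
    refine Real.le_sqrt_of_sq_le ?_
    nlinarith
  have h2 : 0 < √((r : ℝ) * ((r : ℝ) - 1)) := by linarith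
  unfold kap
  refine ⟨div_nonneg (by linarith) h2.le, ?_⟩
  rw [div_le_one h2]
  linarith

/-- the candidate -/
theorem cand (hCND2 : Stmt_CND2) (hCND6 : Stmt_CND6) (r : ℕ) (hr : 3 ≤ r) :
    ∃ (K : ℝ) (n0 : ℕ), 1 ≤ K ∧ ∀ N n : ℕ, n0 ≤ N → n = N + 1 → ∀ m : ℕ,
      (r : ℝ) ≤ RR r m n → RR r m n ≤ 2 * n →
      ∃ z : Fin r → ℕ, ∑ i, z i = n ∧ (∀ i, |(z i : ℝ) - n / r| ≤ 2 * √(n : ℝ)) ∧
        |kk m n z| ≤ √(n : ℝ) ∧ 1 + |kk m n z| ≤ K * er r N ∧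
        kap r * (RR r m n * √(RR r m n)) - K * n ≤ mo 3 n (re z) := by
  by_cases h6 : 6 ≤ r
  · obtain ⟨K, n0, hK, H⟩ := hCND6 r h6
    refine ⟨K, n0, hK, fun N n hN hn m h1 h2 => ?_⟩
    obtain ⟨z, hz1, hz2, hz3, hz4⟩ := H n (by omega) m h1 h2
    refine ⟨z, hz1, hz2, ?_, ?_, hz4⟩
    · rw [hz3, abs_zero]
      exact Real.sqrt_nonneg _
    · unfold er
      rw [if_pos h6, hz3, abs_zero]
      linarith
  · obtain ⟨K, n0, hK, H⟩ := hCND2 r hr
    obtain ⟨n1, hn1⟩ := exists_nat_ge (K ^ 4)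
    refine ⟨1 + 2 * K, n0 + n1 + 1, by linarith, fun N n hN hn m h1 h2 => ?_⟩
    obtain ⟨z, hz1, hz2, hz3, hz4⟩ := H n (by omega) m h1 h2
    have hN1 : (1 : ℝ) ≤ N := by
      have : 1 ≤ N := by omega
      exact_mod_cast this
    have hnN : (n : ℝ) = N + 1 := by rw [hn]; push_cast; ring
    have hK4 : K ^ 4 ≤ n := by
      refine hn1.trans ?_
      have : n1 ≤ n := by omega
      exact_mod_cast this
    have h0 : (0 : ℝ) ≤ √(√(n : ℝ)) := Real.sqrt_nonneg _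
    have h3 : K ≤ √(√(n : ℝ)) := by
      refine Real.le_sqrt_of_sq_le (Real.le_sqrt_of_sq_le ?_)
      calc (K ^ 2) ^ 2 = K ^ 4 := by ring
        _ ≤ (n : ℝ) := hK4
    have h4 : √(√(n : ℝ)) * √(√(n : ℝ)) = √(n : ℝ) := Real.mul_self_sqrt (Real.sqrt_nonneg _)
    have h5 : √(√(n : ℝ)) ≤ 2 * √(√(N : ℝ)) := by
      have e1 : (2 : ℝ) * √(√(N : ℝ)) = √(√(16 * (N : ℝ))) := by
        rw [Real.sqrt_mul (by norm_num) (N : ℝ), Real.sqrt_mul (Real.sqrt_nonneg _)]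
        have e2 : √(16 : ℝ) = 4 := by
          rw [show (16 : ℝ) = 4 ^ 2 by norm_num]
          exact Real.sqrt_sq (by norm_num)
        have e3 : √(4 : ℝ) = 2 := by
          rw [show (4 : ℝ) = 2 ^ 2 by norm_num]
          exact Real.sqrt_sq (by norm_num)
        rw [e2, e3]
      rw [e1]
      refine Real.sqrt_le_sqrt (Real.sqrt_le_sqrt ?_)
      linarith
    have h7 : 1 ≤ √(√(N : ℝ)) := Real.one_le_sqrt.2 (Real.one_le_sqrt.2 hN1)
    refine ⟨z, hz1, hz2, ?_, ?_, ?_⟩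
    · exact hz3.trans (le_of_le_of_eq (mul_le_mul_of_nonneg_right h3 h0) h4)
    · unfold er
      rw [if_neg h6]
      have h8 : K * √(√(n : ℝ)) ≤ K * (2 * √(√(N : ℝ))) :=
        mul_le_mul_of_nonneg_left h5 (by linarith)
      have h9 : (1 + 2 * K) * √(√(N : ℝ)) = √(√(N : ℝ)) + K * (2 * √(√(N : ℝ))) := by ring
      rw [h9]
      linarith
    · have h8 : K * (n : ℝ) ≤ (1 + 2 * K) * n :=
        mul_le_mul_of_nonneg_right (by linarith) (Nat.cast_nonneg _)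
      linarith

/-- expansion of the secular function around the constant vector -/
theorem upper {r : ℕ} (hr : 3 ≤ r) {B KU C : ℝ} {n m : ℕ} {z : Fin r → ℕ} {lam R M : ℝ}
    (hB : 4 * r ≤ B) (hKU : 1 ≤ KU) (hC : 1 ≤ C)
    (HT : ∀ (y z : Fin r → ℝ), ∑ i, y i = n → ∑ i, z i = n → mo 2 n y ≤ B * n →
      mo 2 n z ≤ B * n → |(n : ℝ) ^ 2 / al r * (Ph y lam - Ph z lam)
        - ((mo 2 n z - mo 2 n y) + (mo 3 n y - mo 3 n z) / n + (mo 4 n z - mo 4 n y) / n ^ 2)|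
        ≤ C / √(n : ℝ) + C * |mo 2 n y - mo 2 n z| / n)
    (hn1 : (1 : ℝ) ≤ n) (hzsum : ∑ i, z i = n) (hdev : ∀ i, |(z i : ℝ) - n / r| ≤ 2 * √(n : ℝ))
    (hR : R = RR r m n) (hM : M - KU * n ≤ mo 3 n (re z)) (hP : 0 < lam + n / r)
    (hup : (n : ℝ) ^ 2 * Ph (re z) lam / al r ≤ (KU + 4) * (1 + |kk m n z|)) :
    (n : ℝ) ^ 2 / al r * ((al r * n - lam) / (lam + n / r)) ≤
      R - M / n + (2 * KU + 6 + 16 * r + C + 4 * r * C) * (1 + |kk m n z|) := by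
  have hrr : (3 : ℝ) ≤ r := by exact_mod_cast hr
  have hr0 : (0 : ℝ) < r := by linarith
  have hn0 : (0 : ℝ) < n := by linarith
  have hs1 : 1 ≤ √(n : ℝ) := Real.one_le_sqrt.2 hn1
  have hzsum' : ∑ i, re z i = (n : ℝ) := by
    unfold re
    exact_mod_cast hzsum
  have hcsum : ∑ _i : Fin r, (n : ℝ) / r = n := by
    rw [sum_const, card_univ, Fintype.card_fin, nsmul_eq_mul]
    field_simp
  have hz2 := mo2_le hdev
  have hz4 := mo4_le hdev
  have hz20 : 0 ≤ mo 2 n (re z) := by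
    unfold mo
    exact sum_nonneg fun i _ => sq_nonneg _
  have hT := HT (re z) (fun _ => (n : ℝ) / r) hzsum' hcsum
    (hz2.trans (mul_le_mul_of_nonneg_right hB hn0.le))
    (by rw [mo_const n 2 (by norm_num)]; exact mul_nonneg (by linarith) hn0.le)
  rw [mo_const n 2 (by norm_num), mo_const n 3 (by norm_num), mo_const n 4 (by norm_num),
    Ph_const hr hP] at hT
  have hT1 := (abs_le.1 hT).1
  have e1 : (n : ℝ) ^ 2 / al r * (Ph (re z) lam - (al r * n - lam) / (lam + n / r)) =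
      (n : ℝ) ^ 2 * Ph (re z) lam / al r
        - (n : ℝ) ^ 2 / al r * ((al r * n - lam) / (lam + n / r)) := by
    ring
  rw [e1] at hT1
  have h1 : C / √(n : ℝ) ≤ C := div_le_self (by linarith) hs1
  have h2 : C * |mo 2 n (re z) - 0| / n ≤ 4 * r * C := by
    rw [sub_zero, abs_of_nonneg hz20, div_le_iff₀ hn0]
    calc C * mo 2 n (re z) ≤ C * (4 * r * n) := mul_le_mul_of_nonneg_left hz2 (by linarith)
      _ = 4 * r * C * n := by ring
  have h3 : (0 - mo 4 n (re z)) / (n : ℝ) ^ 2 ≥ -(16 * r) := by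
    rw [ge_iff_le, le_div_iff₀ (by positivity)]
    linarith
  have h4 : (mo 3 n (re z) - 0) / n ≥ M / n - KU := by
    rw [ge_iff_le, sub_zero, le_div_iff₀ hn0, sub_mul, div_mul_cancel₀ _ hn0.ne']
    exact hM
  have h5 : mo 2 n (re z) = R + 2 * kk m n z := by
    rw [hR]
    exact mo2 hr hzsum
  have h6 : kk m n z ≤ |kk m n z| := le_abs_self _
  have h7 : 0 ≤ |kk m n z| := abs_nonneg _
  obtain ⟨κ, hκ⟩ : ∃ κ, κ = |kk m n z| := ⟨_, rfl⟩
  rw [← hκ] at hup h6 h7 ⊢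
  have h8 : (2 * KU + 6 + 16 * r + C + 4 * r * C) * (1 + κ) =
      (KU + 4) * (1 + κ) + (KU + 2 + 16 * r + C + 4 * r * C)
        + (KU + 2 + 16 * r + C + 4 * r * C) * κ := by
    ring
  have h9 : 2 * κ ≤ (KU + 2 + 16 * r + C + 4 * r * C) * κ := by
    refine mul_le_mul_of_nonneg_right ?_ h7
    have : 0 ≤ 4 * (r : ℝ) * C := by positivity
    linarith
  rw [h8]
  linarith

end X_WINA

theorem x_WINA (hCUPR : Stmt_CUPR) (hLDX : Stmt_LDX) (hCND2 : Stmt_CND2) (hCND6 : Stmt_CND6)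
    (hWIN : Stmt_WIN) : Stmt_WINA := by
  intro r hr
  have hrr : (3 : ℝ) ≤ r := by exact_mod_cast hr
  have hr0 : (0 : ℝ) < r := by linarith
  have hal := al_ge hr
  have hal1 := al_lt hr
  have hal0 : 0 < al r := by linarith
  have halr : al r = 1 - 1 / r := rfl
  obtain ⟨hk0, hk1⟩ := X_WINA.kap_bd hr
  obtain ⟨K1, N1, hK1, H1⟩ := hLDX r hr
  obtain ⟨KU, N2, hKU, H2⟩ := hCUPR r hr
  obtain ⟨KC, N3, hKC, H3⟩ := X_WINA.cand hCND2 hCND6 r hr
  obtain ⟨B, hB⟩ : ∃ B : ℝ, B = K1 + 2 + 4 * r := ⟨_, rfl⟩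
  obtain ⟨C, hC1, HT⟩ := pTAY r B hr (by rw [hB]; linarith)
  obtain ⟨C4, hC4⟩ : ∃ C4 : ℝ, C4 = 2 * (KU + KC) + 6 + 16 * r + C + 4 * r * C := ⟨_, rfl⟩
  have hrC : 0 ≤ 4 * (r : ℝ) * C := by positivity
  have hC40 : 0 ≤ C4 := by rw [hC4]; linarith
  obtain ⟨C5, hC5⟩ : ∃ C5 : ℝ, C5 = 6 + 2 * C4 := ⟨_, rfl⟩
  have hB0 : 0 ≤ B := by rw [hB]; linarith
  have hC5B : 0 ≤ C5 * B := mul_nonneg (by rw [hC5]; linarith) hB0
  obtain ⟨CW, hCW⟩ : ∃ CW : ℝ, CW = K1 + C4 + C5 * B + 4 * r := ⟨_, rfl⟩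
  obtain ⟨KW, N4, hKW, H4⟩ := hWIN r CW hr (by rw [hCW]; linarith)
  obtain ⟨nC, hnC⟩ := exists_nat_ge C
  refine ⟨KW * KC, (N1 + N2 + N3 + N4 + nC + 16 * r ^ 2 + 1) ^ 2 + r, ?_, ?_⟩
  · calc (1 : ℝ) = 1 * 1 := by ring
      _ ≤ KW * KC := mul_le_mul hKW hKC (by norm_num) (by linarith)
  intro m hm N j hmj hlt hX V _ G hG hTD
  have hNbig : N1 + N2 + N3 + N4 + nC + 16 * r ^ 2 ≤ N := X_WINA.N_large hr hm hlt
  obtain ⟨n, hn⟩ : ∃ n, n = N + 1 := ⟨_, rfl⟩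
  have hN16 : 16 * (r : ℝ) ^ 2 ≤ N := by
    have h1 : 16 * r ^ 2 ≤ N := by omega
    exact_mod_cast h1
  have hr2 : (r : ℝ) ≤ (r : ℝ) ^ 2 := by
    rw [sq]
    exact le_mul_of_one_le_right hr0.le (by linarith)
  have hNr : 16 * (r : ℝ) ≤ N := by linarith
  have hN0 : (0 : ℝ) < N := by linarith
  have hnN : (n : ℝ) = N + 1 := by rw [hn]; push_cast; ring
  have hn1 : (1 : ℝ) ≤ n := by linarith
  have hn0 : (0 : ℝ) < n := by linarith
  have hCn : C ≤ n := hnC.trans (by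
    have h1 : nC ≤ n := by omega
    exact_mod_cast h1)
  -- the number X
  obtain ⟨X, hXdef⟩ : ∃ X : ℝ, X = (j : ℝ) / (al r * N) := ⟨_, rfl⟩
  rw [← hXdef] at hX ⊢
  have hX0 : 0 ≤ X := by rw [hXdef]; positivity
  have hX1 : X ≤ 1 := by
    have h1 : 1 / (4 * (r : ℝ) ^ 2) ≤ 2 / r := by
      rw [div_le_div_iff₀ (by positivity) hr0]
      linarith
    linarith
  have hjX : (j : ℝ) = al r * N * X := by
    rw [hXdef, mul_div_cancel₀]
    exact (mul_pos hal0 hN0).ne'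
  have hjle : (j : ℝ) ≤ al r * N := by
    rw [hjX]
    exact mul_le_of_le_one_right (mul_pos hal0 hN0).le hX1
  -- the graph G
  obtain ⟨H, c, w, A, v1, v2, hWD, hAc, hbal, -, -⟩ := hTD
  have hlam := H1 N (by omega) j hjle V G c H w A v1 v2 hWD hbal hAc
  rw [← hXdef] at hlam
  obtain ⟨lam, hlamdef⟩ : ∃ lam, lam = specRad G := ⟨_, rfl⟩
  rw [← hlamdef] at hlam
  have hK1N : K1 / N ≤ K1 := div_le_self (by linarith) (by linarith)
  have hX2 : 0 ≤ al r * X ^ 2 ∧ al r * X ^ 2 ≤ 1 := by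
    refine ⟨by positivity, ?_⟩
    calc al r * X ^ 2 ≤ 1 * 1 :=
          mul_le_mul hal1.le (pow_le_one₀ hX0 hX1) (sq_nonneg _) (by norm_num)
      _ = 1 := by ring
  have hlamB : |lam - al r * n| ≤ B := by
    have h1 := abs_le.1 hlam
    have h2 : al r * (n : ℝ) = al r * N + al r := by rw [hnN]; ring
    rw [abs_le, h2, hB]
    constructor
    · linarith [h1.1, hX2.1]
    · linarith [h1.2, hX2.2]
  -- the number R
  obtain ⟨R, hR⟩ : ∃ R, R = RR r m n := ⟨_, rfl⟩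
  have hTN := (abs_le.1 (pTN r hr N).2.1)
  have hTN1 := (abs_le.1 (pTN r hr n).2.1)
  have hmt : (m : ℝ) + 1 ≤ tn r n := by
    rw [hn]
    exact_mod_cast hlt
  have hmj' : (m : ℝ) = tn r N + j := by rw [hmj]; push_cast; ring
  have hRr : (r : ℝ) ≤ R := by
    rw [hR]
    unfold RR
    linarith [hTN1.2]
  have hRdiff : |R - 2 * al r * N * (1 - X)| ≤ 4 * r := by
    have e1 : R - 2 * al r * N * (1 - X) =
        -(2 * (tn r N : ℝ) - al r * (N : ℝ) ^ 2) + al r + 2 * ((r : ℝ) - 1) := by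
      rw [hR]
      unfold RR
      rw [hnN, hmj', hjX]
      ring
    rw [e1, abs_le]
    constructor
    · linarith [hTN.2]
    · linarith [hTN.1]
  have hR2n : R ≤ 2 * n := by
    have h1 := (abs_le.1 hRdiff).2
    have h2 : 2 * al r * N * (1 - X) ≤ 2 * al r * N :=
      mul_le_of_le_one_right (by positivity) (by linarith)
    have h3 : 2 * al r * (N : ℝ) = 2 * N - 2 * (N / r) := by
      rw [halr]
      ring
    have h4 : 4 * (r : ℝ) ≤ 2 * (N / r) := by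
      have h5 : 2 * (r : ℝ) ≤ N / r := by
        rw [le_div_iff₀ hr0]
        have h6 : 2 * (r : ℝ) * r = 2 * (r : ℝ) ^ 2 := by ring
        rw [h6]
        linarith
      linarith
    rw [hnN]
    linarith
  have hR0 : 0 ≤ R := by linarith
  -- the candidate
  obtain ⟨z, hzsum, hzdev, hzk, hzer, hzmo⟩ := H3 N n (by omega) hn m (by rw [← hR]; exact hRr)
    (by rw [← hR]; exact hR2n)
  rw [← hR] at hzmo
  obtain ⟨c', hc', hc'le⟩ := X_WINA.cost (m := m) hr hzsum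
  obtain ⟨G', hfree, hcol, hpE, hup⟩ := H2 n (by omega) m z c' hzsum hzdev hzk hc'
  have hle : specRad G' ≤ lam := by
    rw [hlamdef]
    exact hG.2.2.2 _ G' hfree hcol hpE
  obtain ⟨x', hPx'⟩ := exists_PV G'
  have hl0 : 0 ≤ specRad G' := BIG.lam_nonneg hPx'
  have hlam0 : 0 ≤ lam := hl0.trans hle
  have hs0 : 0 < √(n : ℝ) := Real.sqrt_pos.2 hn0
  have hs1 : 1 ≤ √(n : ℝ) := Real.one_le_sqrt.2 hn1
  have hs2 : √(n : ℝ) ^ 2 = n := Real.sq_sqrt hn0.le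
  have hzpos : ∀ i, 0 < re z i := by
    intro i
    have h1 := (abs_le.1 (hzdev i)).1
    have h2 : 2 * √(n : ℝ) < n / r := by
      rw [lt_div_iff₀ hr0]
      have h3 : 2 * (r : ℝ) < √(n : ℝ) := by
        refine Real.lt_sqrt_of_sq_lt ?_
        have h6 : (2 * (r : ℝ)) ^ 2 = 4 * (r : ℝ) ^ 2 := by ring
        rw [hnN, h6]
        linarith
      calc 2 * √(n : ℝ) * r = (2 * r) * √(n : ℝ) := by ring
        _ < √(n : ℝ) * √(n : ℝ) := mul_lt_mul_of_pos_right h3 hs0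
        _ = n := Real.mul_self_sqrt hn0.le
    unfold re
    linarith
  have hanti : Ph (re z) lam ≤ Ph (re z) (specRad G') := BIG.Ph_anti hzpos hl0 hle
  obtain ⟨κ, hκ⟩ : ∃ κ, κ = |kk m n z| := ⟨_, rfl⟩
  have hκ0 : 0 ≤ κ := by rw [hκ]; exact abs_nonneg _
  have hup' : (n : ℝ) ^ 2 * Ph (re z) lam / al r ≤ (KU + KC + 4) * (1 + |kk m n z|) := by
    have h1 : (n : ℝ) ^ 2 * Ph (re z) lam / al r ≤
        (n : ℝ) ^ 2 * Ph (re z) (specRad G') / al r :=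
      div_le_div_of_nonneg_right (mul_le_mul_of_nonneg_left hanti (sq_nonneg _)) hal0.le
    have h2 : 2 / ((r : ℝ) - 1) ≤ 1 := by
      rw [div_le_one (by linarith)]
      linarith
    have h3 : -kk m n z ≤ κ := by rw [hκ]; exact neg_le_abs _
    rw [← hκ] at hup hc'le ⊢
    have h4 : KU * (1 + κ) / √(n : ℝ) ≤ KU * (1 + κ) :=
      div_le_self (mul_nonneg (by linarith) (by linarith)) hs1
    have h5 : 0 ≤ KC * (1 + κ) := mul_nonneg (by linarith) (by linarith)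
    have h6 : (KU + KC + 4) * (1 + κ) = KU * (1 + κ) + KC * (1 + κ) + 4 + 4 * κ := by ring
    rw [h6]
    linarith
  have hP : 0 < lam + n / r := by positivity
  have hE := X_WINA.upper (m := m) (M := kap r * (R * √R)) hr
    (by rw [hB]; linarith : 4 * (r : ℝ) ≤ B) (by linarith : 1 ≤ KU + KC) hC1
    (fun y z => HT n y z lam hCn hlamB) hn1 hzsum hzdev hR
    (by
      have h1 : KC * (n : ℝ) ≤ (KU + KC) * n := mul_le_mul_of_nonneg_right (by linarith) hn0.le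
      linarith) hP hup'
  rw [← hC4, ← hκ] at hE
  obtain ⟨E, hEdef⟩ : ∃ E, E = R - kap r * (R * √R) / n + C4 * (1 + κ) := ⟨_, rfl⟩
  rw [← hEdef] at hE
  -- bound for E
  have hsR : √R ≤ 2 * n := by
    refine Real.sqrt_le_iff.2 ⟨by positivity, ?_⟩
    have h1 : (n : ℝ) ≤ (n : ℝ) ^ 2 := by
      rw [sq]
      exact le_mul_of_one_le_right hn0.le hn1
    have h2 : (2 * (n : ℝ)) ^ 2 = 4 * (n : ℝ) ^ 2 := by ring
    rw [h2]
    linarith
  have hM0 : 0 ≤ kap r * (R * √R) / n := by positivity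
  have hM1 : kap r * (R * √R) / n ≤ 4 * n := by
    rw [div_le_iff₀ hn0]
    have h1 : R * √R ≤ 2 * n * (2 * n) := mul_le_mul hR2n hsR (Real.sqrt_nonneg _) (by linarith)
    have h2 : 0 ≤ R * √R := mul_nonneg hR0 (Real.sqrt_nonneg _)
    calc kap r * (R * √R) ≤ 1 * (R * √R) := mul_le_mul_of_nonneg_right hk1 h2
      _ ≤ 4 * n * n := by linarith
  have hκn : 1 + κ ≤ 2 * n := by
    have h1 : √(n : ℝ) ≤ n := by
      have h2 : √(n : ℝ) * 1 ≤ √(n : ℝ) * √(n : ℝ) := mul_le_mul_of_nonneg_left hs1 hs0.le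
      rw [Real.mul_self_sqrt hn0.le, mul_one] at h2
      exact h2
    rw [hκ]
    linarith
  have hC4κ : 0 ≤ C4 * (1 + κ) := mul_nonneg hC40 (by linarith)
  have hC4κ' : C4 * (1 + κ) ≤ 2 * C4 * n := by
    calc C4 * (1 + κ) ≤ C4 * (2 * n) := mul_le_mul_of_nonneg_left hκn hC40
      _ = 2 * C4 * n := by ring
  have hEb : |E| ≤ C5 * n := by
    have h1 : C5 * (n : ℝ) = 6 * n + 2 * C4 * n := by rw [hC5]; ring
    have h2 : 0 ≤ 2 * C4 * (n : ℝ) := by positivity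
    rw [abs_le, hEdef, h1]
    constructor
    · linarith
    · linarith
  have hPn : lam + n / r = n + (lam - al r * n) := by
    rw [halr]
    ring
  have hcore := X_WINA.core hn0 hal0 hal1.le hP hPn hlamB hEb hE
  -- the number D
  obtain ⟨D, hD⟩ : ∃ D : ℝ, D = al r * ((N : ℝ) + 1) - al r * R / ((N : ℝ) + 1)
    + al r * (kap r * (R * √R)) / ((N : ℝ) + 1) ^ 2 - (al r * N + al r * X ^ 2) := ⟨_, rfl⟩
  have hDle : D ≤ CW * (1 + κ) / N := by
    have h1 : al r * E / n = al r * R / n - al r * (kap r * (R * √R)) / n ^ 2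
        + al r * (C4 * (1 + κ)) / n := by
      rw [hEdef]
      field_simp
    have h2 : al r * (C4 * (1 + κ)) / n ≤ C4 * (1 + κ) / N := by
      have h3 : al r * (C4 * (1 + κ)) ≤ C4 * (1 + κ) := mul_le_of_le_one_left hC4κ hal1.le
      exact div_le_div₀ hC4κ h3 hN0 (by linarith)
    have h3 : C5 * B / n ≤ C5 * B * (1 + κ) / N := by
      have h4 : C5 * B ≤ C5 * B * (1 + κ) := le_mul_of_one_le_right hC5B (by linarith)
      exact div_le_div₀ (by linarith) h4 hN0 (by linarith)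
    have h4 : K1 / N ≤ K1 * (1 + κ) / N := by
      have h5 : K1 ≤ K1 * (1 + κ) := le_mul_of_one_le_right (by linarith) (by linarith)
      exact div_le_div_of_nonneg_right h5 hN0.le
    have h5 := (abs_le.1 hlam).2
    have h6 : CW * (1 + κ) / N = K1 * (1 + κ) / N + C4 * (1 + κ) / N + C5 * B * (1 + κ) / N
        + 4 * r * (1 + κ) / N := by
      rw [hCW]
      ring
    have h7 : 0 ≤ 4 * (r : ℝ) * (1 + κ) / N := by positivity
    rw [hD, ← hnN, h6]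
    rw [h1] at hcore
    linarith
  have hκW : κ ≤ CW * √(N : ℝ) := by
    have h1 : √(n : ℝ) ≤ 2 * √(N : ℝ) := by
      have e1 : (2 : ℝ) * √(N : ℝ) = √(4 * (N : ℝ)) := by
        rw [Real.sqrt_mul (by norm_num) (N : ℝ)]
        have e3 : √(4 : ℝ) = 2 := by
          rw [show (4 : ℝ) = 2 ^ 2 by norm_num]
          exact Real.sqrt_sq (by norm_num)
        rw [e3]
      rw [e1]
      refine Real.sqrt_le_sqrt ?_
      linarith
    have h2 : 2 * √(N : ℝ) ≤ CW * √(N : ℝ) := by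
      refine mul_le_mul_of_nonneg_right ?_ (Real.sqrt_nonneg _)
      rw [hCW]
      linarith
    rw [hκ]
    linarith
  have hCWr : 4 * (r : ℝ) ≤ CW := by
    rw [hCW]
    linarith
  have hfin := (H4 N (by omega) X R κ D hX0 hX1 hR0 (hRdiff.trans hCWr) hκ0 hκW hD).1 hX hDle
  refine hfin.trans ?_
  have h1 : KW * (1 + κ) / N ≤ KW * KC * er r N / N := by
    refine div_le_div_of_nonneg_right ?_ hN0.le
    rw [mul_assoc, hκ]
    exact mul_le_mul_of_nonneg_left hzer (by linarith)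
  linarith

end Pool.Agent.Work.MP_5532fa_up
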