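import Pool.Agent.Work.MP_5532fa_x.Interface4

/-!
# MP_5532fa_co, sixth round: the two thresholds up to `O(1)` values of `j`

First threshold (D against E over `N` vertices): `(r + 1) X = 1 + thet`. Second threshold (D over `N`
vertices against `N + 1` vertices): `X = 1 - 2/r - gam/√N`. Everywhere `X = j/(al r N)`.
-/

open Finset

namespace Pool.Agent.Work.MP_5532fa_up

open MP5532fa (specRad qf pE)

/-- contribution of the vertex `w` to the secular function -/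
noncomputable def FF {r : ℕ} (lam : ℝ) (n a : Fin r → ℝ) : ℝ :=
  lam * (∑ i, a i / (lam + n i)) ^ 2 / (lam ^ 2 - ∑ i, a i + ∑ i, a i ^ 2 / (lam + n i))

/-- correction of the first threshold -/
noncomputable def thet (r N : ℕ) (X : ℝ) : ℝ :=
  if N % r ≤ 1 then X ^ 4 / (2 * r * ((r : ℝ) - 2)) else 0

/-- largest possible third moment divided by the power `3/2` of the second moment -/
noncomputable def kap (r : ℕ) : ℝ := ((r : ℝ) - 2) / √((r : ℝ) * ((r : ℝ) - 1))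

/-- constant in the second threshold -/
noncomputable def gam (r : ℕ) : ℝ :=
  4 * ((r : ℝ) - 1) * ((r : ℝ) - 2) / ((r : ℝ) ^ 2 * √(r : ℝ))

/-- second moment of the class sizes with `kk = 0` -/
noncomputable def RR (r m n : ℕ) : ℝ := al r * (n : ℝ) ^ 2 - 2 * m + 2 * ((r : ℝ) - 1)

/-- error in the second threshold -/
noncomputable def er (r N : ℕ) : ℝ := if 6 ≤ r then 1 else √(√(N : ℝ))

/-! ## the first threshold -/

/-- **FFE** : expansion of `FF` (pure). `P = lam + N/r`, `δ_i = n_i - N/r`, `|δ_i| ≤ C`;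
`∑ a_i/(P + δ_i) = s/P - σ/P^2 + O(1/N^2)`; the denominator is
`lam^2 (1 - s/lam^2 + Q/(P lam^2) + O(1/N^2))`, its inverse
`lam^-2 (1 + s/lam^2 - Q/(P lam^2) + O(1/N^2))`, where `s/lam^2`, `Q/(P lam^2)` are `O(1/N)`; multiply
out, all omitted terms are `O(1/N^3)`. (`P`, `lam` are between `N/2` and `2 N`, `s ≤ 2 r N`,
`Q ≤ 4 r N^2`, `|σ| ≤ C s`.) -/
def Stmt_FFE : Prop := ∀ (r : ℕ) (C : ℝ), 3 ≤ r → 1 ≤ C → ∃ (K : ℝ) (N0 : ℕ), 1 ≤ K ∧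
  ∀ N ≥ N0, ∀ (lam : ℝ) (n a : Fin r → ℝ) (s σ Q P : ℝ), |lam - al r * N| ≤ C →
  (∀ i, |n i - N / r| ≤ C) → (∀ i, 0 ≤ a i) → (∀ i, a i ≤ 2 * N) → s = ∑ i, a i →
  σ = ∑ i, a i * (n i - N / r) → Q = ∑ i, a i ^ 2 → P = lam + N / r →
  |FF lam n a - (s ^ 2 / (lam * P ^ 2) - 2 * s * σ / (lam * P ^ 3) + s ^ 3 / (lam ^ 3 * P ^ 2)
    - s ^ 2 * Q / (lam ^ 3 * P ^ 3))| ≤ K / (N : ℝ) ^ 3

/-- **SECX** : secular function of the graphs `WD`, `WE` over balanced classes, error `O(N^-3)`.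
`lam`: lower bound by `rayleigh` with the indicator of `H`, upper bound by `PV.form`: the part inside
`H` is at most `al r N`, the rest `≤ 2 x_w ∑_A x + 2 x_u ∑_B x + 2 x_u x_w ≤ C`, as
`lam x_w ≤ √|A| + 1`, `lam x_u ≤ √r + 1`. `S = ∑_H x > 0` (compare SECG). All entries are
`≤ 4 S/N`: `lam x_v ≤ S + x_w + x_u` for `v ∈ H`, `lam x_w ≤ S + x_u`, `lam x_u ≤ S + x_w`.
`P_i = lam + n_i`, `a_i = sz A c i`. `WD` (`pCSE`, `pFAM`, `JD`):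
`P_i cs_i = n_i S + a_i x_w + J_i`, `J_(c v1) = -x_(v2)`, `J_(c v2) = -x_(v1)`, the other `J_i = 0`.
Sum of `cs_i`: `S Ph = - x_w ∑ a_i/P_i + x_(v2)/P_(c v1) + x_(v1)/P_(c v2)`, and
`x_(v1), x_(v2) = (S/N) (1 + O(1/N))` (`lam x_(v1) = S - cs + x_w - x_(v2)`, `cs_i = S (1/r + O(1/N))`),
so the last two terms are `2 S/N^2 + O(S/N^3)`. The equation at `w`, multiplied by `lam`:
`lam^2 x_w = ∑_A lam x = ∑ a_i (lam S - a_i x_w - J_i)/P_i + |A| x_w - x_(v1) - x_(v2)`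
(`S - cs_i = (lam S - a_i x_w - J_i)/P_i`), `a_(c v1) = a_(c v2) = 1`, so
`x_w (lam^2 - |A| + ∑ a_i^2/P_i) = lam S ∑ a_i/P_i + O(S/N)`, and `x_w ∑ a_i/P_i = S FF + O(S/N^3)`.
`WE` (`JE`): `lam x_u = ∑_B x + x_w = O(S/N)`, so `x_u = O(S/N^2)`;
`S Ph = - x_w ∑ a_i/P_i - x_u ∑ b_i/P_i` (the last term is `O(S/N^3)`), and
`lam^2 x_w = ∑ a_i (lam S - a_i x_w - b_i x_u)/P_i + |A| x_w + |A ∩ B| x_u + lam x_u`. -/
def Stmt_SECX : Prop := ∀ (r : ℕ), 3 ≤ r → ∃ (K : ℝ) (N0 : ℕ), 1 ≤ K ∧ ∀ N ≥ N0,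
  ∀ (V : Type) [Fintype V] (G : SimpleGraph V) (x : V → ℝ) (lam : ℝ) (c : V → Fin r)
    (H : Finset V) (w : V) (A : Finset V), PV G x lam → Bal H c →
  (∀ v1 v2 : V, WD G N H c w A v1 v2 → |lam - al r * N| ≤ K ∧
    |Ph (sz H c) lam + FF lam (sz H c) (sz A c) - 2 / (N : ℝ) ^ 2| ≤ K / (N : ℝ) ^ 3) ∧
  (∀ (u : V) (B : Finset V) (i0 : Fin r), WE G N H c w u A B i0 → |lam - al r * N| ≤ K ∧
    |Ph (sz H c) lam + FF lam (sz H c) (sz A c)| ≤ K / (N : ℝ) ^ 3)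

/-- **PLC** : the placement of the vertices of `A` near the first threshold (combinatorial). `q = N / r`
(natural number), `s = N % r`: there are `s` large classes (size `q + 1`) and `r - s` small ones
(size `q`). Type D, `P = {c v1, c v2}`: `Top`: if `s ≥ 2` both classes of `P` are large, so all
small classes are outside `P`; if `s = 1` one is large, one small, and the others (`r - 2`) are
small; if `s = 0` all are small. A large class `k ∉ P` has exactly one vertex of `A`: otherwise by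
`Place` a small class outside `P` (there is one) is contained in `A`, and `j + 1 ≥ q`,
contradiction to `j ≤ (1 + 1/(2 r)) al r N/(r + 1)`. The small classes outside `P` (their number is
`τ = r - 2` if `s ≤ 1`, `τ = r - s` if `s ≥ 2`) contain equal numbers up to one, and in total
`j + O(1)`. So `∑ a_i^2 = j^2/τ + O(j)`, and `∑ a_i (n_i - N/r) = -(s/r) j + O(1)`, as
`n_i - N/r = -s/r` for the small classes. Type E, `P = {i0}`: `i0` is large if `s ≥ 1`;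
`τ = r - 1` if `s ≤ 1`, `τ = r - s` if `s ≥ 2`. -/
def Stmt_PLC : Prop := ∀ (r : ℕ), 3 ≤ r → ∃ (K : ℝ) (N0 : ℕ), 1 ≤ K ∧ ∀ N ≥ N0, ∀ j : ℕ,
  |((r : ℝ) + 1) * (j / (al r * N)) - 1| ≤ 1 / (2 * r) →
  ∀ (V : Type) [Fintype V] (G : SimpleGraph V) (c : V → Fin r) (H : Finset V) (w : V)
    (A : Finset V), Bal H c →
  (∀ v1 v2 : V, WD G N H c w A v1 v2 → A.card = j + 1 → Place H A c {c v1, c v2} →
    Top H c {c v1, c v2} →
    |∑ i, sz A c i ^ 2 - (j : ℝ) ^ 2 / (if N % r ≤ 1 then (r : ℝ) - 2 else r - (N % r : ℕ))|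
      ≤ K * N ∧ |∑ i, sz A c i * (sz H c i - N / r) + ((N % r : ℕ) : ℝ) / r * j| ≤ K) ∧
  (∀ (u : V) (B : Finset V) (i0 : Fin r), WE G N H c w u A B i0 → A.card + r = j →
    Place H A c {i0} → Top H c {i0} →
    |∑ i, sz A c i ^ 2 - (j : ℝ) ^ 2 / (if N % r ≤ 1 then (r : ℝ) - 1 else r - (N % r : ℕ))|
      ≤ K * N ∧ |∑ i, sz A c i * (sz H c i - N / r) + ((N % r : ℕ) : ℝ) / r * j| ≤ K)

/-- **THX** : comparison of D and E near the first threshold (uses FFE, SECX, PLC). `lam`, `lam'` the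
spectral radii. `Ph (sz H c)` is the same function `φ` for both graphs (balanced sizes with the same
sum are equal up to a permutation; for the sizes of the two graphs choose a permutation, or show
that `∑ 1/(lam + n_i)` depends only on `N`: it is `s/(lam + q + 1) + (r - s)/(lam + q)`).
`φ(lam) + FF_D(lam) = 2/N^2 + O(N^-3)`, `φ(lam') + FF_E(lam') = O(N^-3)`. `Δ = lam - lam' = O(1)`,
`φ(lam) - φ(lam') = - Δ ∑ n_i/((lam + n_i) (lam' + n_i)) = - (Δ/N) (1 + O(1/N))`,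
`|FF_E(lam) - FF_E(lam')| ≤ K |Δ|/N^2` (FF is a smooth function of `lam`, homogeneous of degree about
`-1`; or use FFE for both and the expansion), so first `Δ = O(1/N)` (`FF_D(lam) - FF_E(lam) =
O(N^-2)`), and then `Δ/N = FF_D(lam) - FF_E(lam) - 2/N^2 + O(N^-3)`. FFE: with `s_D = j + 1`,
`s_E = j - r`: `s_D^2 - s_E^2 = 2 (r + 1) j + O(1)`, `s_D σ_D - s_E σ_E = O(N)` (PLC), the cubic terms
differ by `O(N^2)/N^5`, and `s_D^2 Q_D - s_E^2 Q_E = j^2 (Q_D - Q_E) + O(N^3)`: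
`FF_D - FF_E = 2 (r + 1) j/(lam P^2) - j^2 (Q_D - Q_E)/(lam^3 P^3) + O(N^-3)
= N^-2 (2 (r + 1) X - (X^2/al r) (Q_D - Q_E)/N^2) + O(N^-3)`, and by PLC
`(Q_D - Q_E)/N^2 = (al r X)^2 (1/(r - 2) - 1/(r - 1)) + O(1/N)` if `N % r ≤ 1`, `O(1/N)` otherwise;
`(X^2/al r) (al r X)^2/((r - 1) (r - 2)) = X^4/(r (r - 2)) = 2 thet`. -/
def Stmt_THX : Prop := ∀ (r : ℕ), 3 ≤ r → ∃ (K : ℝ) (N0 : ℕ), 1 ≤ K ∧ ∀ N ≥ N0, ∀ j : ℕ,
  |((r : ℝ) + 1) * (j / (al r * N)) - 1| ≤ 1 / (2 * r) →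
  ∀ (V V' : Type) [Fintype V] [Fintype V'] (G : SimpleGraph V) (G' : SimpleGraph V'),
  TypeD r N j G → TypeE r N j G' →
  |(N : ℝ) * (specRad G - specRad G')
    - 2 * (((r : ℝ) + 1) * (j / (al r * N)) - 1 - thet r N (j / (al r * N)))| ≤ K / N

/-- **THF** : the first threshold (uses THX, and `pLIN2`, `pEXU`, `pTHRDB`, `pGD`, `pGE`). Window
`|(r + 1) X - 1| ≤ 1/(2 r)`: there `X ≤ (1 + 1/(2 r))/(r + 1) < 1 - 2/r` (`r = 3`: `7/24 < 1/3`), so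
`RgU r ε N j` holds for some `ε` depending on `r`, and by `pEXU` graphs `TypeD`, `TypeE` exist on
`Fin (N + 2)`; by `typeD_class`, `typeE_class` (or `pGD`, `pGE`) they are in the class with the same
number of edges, so they have spectral radius `≤ specRad G`; THX. Below the window
(`(r + 1) X < 1 - 1/(2 r)`): `pLIN2` (`Concl`, `ε = 1/(2 r)`, or a smaller `ε` for `RgU`) gives
`lD < lE`, so an extremal graph is not `TypeD`; and `(r + 1) X ≤ 1 ≤ 1 + thet`. Above the window: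
`pTHRDB` with a small `ε` (`1 + X^4/(r (r - 1)) + ε ≤ (r + 1) X` for
`(1 + 1/(2 r))/(r + 1) ≤ X ≤ 1`): not `TypeE`; and `1 + thet ≤ (r + 1) X`, since
`thet ≤ X^4/(2 r (r - 2))` and `X ≤ 1 - 2/r + 1/(4 r^2)` (`r = 3`: `X^4/6 ≤ 1/6`). -/
def Stmt_THF : Prop := ∀ (r : ℕ), 3 ≤ r → ∃ (K : ℝ) (m0 : ℕ), 1 ≤ K ∧ ∀ m ≥ m0, ∀ N j : ℕ,
  m = tn r N + j → m < tn r (N + 1) → 2 * r ≤ j + 1 →
  (j : ℝ) / (al r * N) ≤ 1 - 2 / r + 1 / (4 * r ^ 2) →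
  ∀ (V : Type) [Fintype V] (G : SimpleGraph V), Ext r m G →
  (TypeD r N j G →
    1 + thet r N (j / (al r * N)) - K / N ≤ ((r : ℝ) + 1) * (j / (al r * N))) ∧
  (TypeE r N j G →
    ((r : ℝ) + 1) * (j / (al r * N)) ≤ 1 + thet r N (j / (al r * N)) + K / N)

/-! ## the second threshold -/

/-- **LDX** : spectral radius of the graphs `WD` over balanced classes (uses FFE, SECX).
`Ph (sz H c) lam = (al r N - lam)/P + O(N^-2)` (`P = lam + N/r`, `n_i = N/r + δ_i`, `∑ δ_i = 0`,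
`∑ n_i/(lam + n_i) = r - lam ∑ 1/(P + δ_i)`), and `FF = s^2/(lam P^2) + O(N^-2)`, `s = j + 1`. So
`lam - al r N = s^2/(lam P) + O(1/N) = al r X^2 + O(1/N)`. -/
def Stmt_LDX : Prop := ∀ (r : ℕ), 3 ≤ r → ∃ (K : ℝ) (N0 : ℕ), 1 ≤ K ∧ ∀ N ≥ N0, ∀ j : ℕ,
  (j : ℝ) ≤ al r * N → ∀ (V : Type) [Fintype V] (G : SimpleGraph V) (c : V → Fin r)
    (H : Finset V) (w : V) (A : Finset V) (v1 v2 : V), WD G N H c w A v1 v2 → Bal H c →
    A.card = j + 1 →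
    |specRad G - (al r * N + al r * (j / (al r * N)) ^ 2)| ≤ K / N

/-- **LGX** : spectral radius of the graphs of the three forms over `n` vertices (uses GS, EOW, SECR,
and `pTAY`, `pGD`, `pGE`). `exists_PV`. `pGD`, `pGE`, GS: `|A| = r + kk`, `|A| = kk - 1`,
`|L| = 1 - kk`, so by EOW `mis, eo ≤ 2 (1 + |kk|) + r`, and SECR: `|n^2 Ph (re y) lam| ≤
K (1 + |kk|)`. `pTAY` for `re y` and the constant vector `n/r` (its moments are `0`, and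
`Ph = (al r n - lam)/(lam + n/r)`): `(n^2/al r) (al r n - lam)/(lam + n/r) = mo 2 - mo 3/n +
O(1 + |kk|)` (fourth moment `≤ C n^2`). As `(lam + n/r)/n^2 = 1/n + O(n^-2)`, `mo 2 = O(n)`,
`mo 3 = O(n √n)`: `al r n - lam = al r (mo 2 - mo 3/n)/n + O((1 + |kk|)/n)`, and
`mo 2 = RR r m n + 2 kk` (`mo_two`). -/
def Stmt_LGX : Prop := ∀ (r : ℕ), 3 ≤ r → ∃ (K : ℝ) (n0 : ℕ), 1 ≤ K ∧ ∀ n ≥ n0,
  ∀ (m : ℕ) (y : Fin r → ℕ) (V : Type) [Fintype V] (G : SimpleGraph V) (c0 : ℝ),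
  pE G = 2 * (m : ℝ) → ∑ i, y i = n → (∀ i, |(y i : ℝ) - n / r| ≤ 2 * √(n : ℝ)) →
  |kk m n y| ≤ √(n : ℝ) → FormC m n y G c0 →
  |specRad G - (al r * n - al r * RR r m n / n + al r * mo 3 n (re y) / (n : ℝ) ^ 2)|
    ≤ K * (1 + |kk m n y|) / n

/-- **EXB** : existence of `WD` over balanced classes. `pEMB` with a balanced vector (`bal_vec`),
`a 0 = a 1 = 1`, and `a i ≥ 1`, `∑_(i ≥ 2) a i = j - 1`, `a i ≤ n i`: possible since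
`r - 2 ≤ j - 1 ≤ ∑_(i ≥ 2) n i` (`j ≤ (1 - 2/r) al r N ≤ (1 - 2/r) N - r`). `gD_WD` as in MKW. -/
def Stmt_EXB : Prop := ∀ (r : ℕ), 3 ≤ r → ∃ N0 : ℕ, ∀ N ≥ N0, ∀ j : ℕ, r ≤ j + 1 →
  (j : ℝ) ≤ (1 - 2 / r) * (al r * N) →
  ∃ (G : SimpleGraph (Fin (N + 2))) (H : Finset (Fin (N + 2))) (c : Fin (N + 2) → Fin r)
    (w : Fin (N + 2)) (A : Finset (Fin (N + 2))) (v1 v2 : Fin (N + 2)),
    WD G N H c w A v1 v2 ∧ A.card = j + 1 ∧ Bal H c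

/-- **KUB** : largest third moment (uses `blk_CU1`, items 1 and 4, with `D = √(R (r-1)/r)`; `R = 0` is
trivial). -/
def Stmt_KUB : Prop := ∀ (r : ℕ), 3 ≤ r → ∀ (n : ℕ) (y : Fin r → ℝ), ∑ i, y i = n →
  mo 3 n y ≤ kap r * (mo 2 n y * √(mo 2 n y))

/-- **CND2** : a good candidate, see CND (file B_CND): the same `z`; there
`κ3(d, R_z) ≥ M(R0) - C n`, `M(R) = kap r R √R`, and `σ^3 ≤ C n`. -/
def Stmt_CND2 : Prop := ∀ (r : ℕ), 3 ≤ r → ∃ (K : ℝ) (n0 : ℕ), 1 ≤ K ∧ ∀ n ≥ n0, ∀ m : ℕ,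
  (r : ℝ) ≤ RR r m n → RR r m n ≤ 2 * n →
  ∃ z : Fin r → ℕ, ∑ i, z i = n ∧ (∀ i, |(z i : ℝ) - n / r| ≤ 2 * √(n : ℝ)) ∧
    |kk m n z| ≤ K * √(√(n : ℝ)) ∧
    kap r * (RR r m n * √(RR r m n)) - K * n ≤ mo 3 n (re z)

/-- **CND6** : for `r ≥ 6` with `kk = 0` (uses `pREP`, `pTNR`, `blk_CU1`; compare `vecN` in
`Asm5.lean`). `pREP` with `M = n`, `S = n^2 - 2 m + 2 (r - 1)` (the balanced vector is admissible
because `RR ≥ r`; `S - n` is even): `z`, `i1` with `mo 2 n (re z) = RR`, `Top1`. `pTNR`: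
`RR ≤ (d + 1)^2 r/(r-1) + r`, `0 ≤ d = z i1 - n/r`. So `a - C ≤ d ≤ a`, `a = √(RR (r-1)/r)`
(`CU1`, item 1), `σ^2 = RR - d^2 r/(r-1) ≤ C (√n + 1)`, and `CU1`, item 2, as in CND2. -/
def Stmt_CND6 : Prop := ∀ (r : ℕ), 6 ≤ r → ∃ (K : ℝ) (n0 : ℕ), 1 ≤ K ∧ ∀ n ≥ n0, ∀ m : ℕ,
  (r : ℝ) ≤ RR r m n → RR r m n ≤ 2 * n →
  ∃ z : Fin r → ℕ, ∑ i, z i = n ∧ (∀ i, |(z i : ℝ) - n / r| ≤ 2 * √(n : ℝ)) ∧
    kk m n z = 0 ∧ kap r * (RR r m n * √(RR r m n)) - K * n ≤ mo 3 n (re z)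

/-- **WIN** : the second threshold (pure). Let `D` be the difference in the statement. As
`al r - 2 (al r)^2 (1 - X) - al r X^2 = al r (1 - X) (X - (1 - 2/r))` and
`|R - 2 al r N (1 - X)| ≤ C`: `D = al r ((1 - X) (X - (1 - 2/r)) + c (1 - X) √(1 - X)/√N) + O(1/N)`,
`c = kap r (2 al r) √(2 al r)`; `c √(2/r) = gam r`. Put `Y = 1 - 2/r - X`, `1 - X = 2/r + Y`.
(a) `1 - X ≥ 1/r`; divide by `1 - X`: `Y ≥ c √(1 - X)/√N - C' (1 + κ)/N`. If `Y ≥ gam r/√N` we are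
done; otherwise `|Y| ≤ C''/√N`, so `√(1 - X) ≥ √(2/r) - C''/√N` and the claim follows.
(b) If `Y ≤ 0` trivial; otherwise `1 - X ≥ 2/r`, `Y ≤ c √(1 - X)/√N + C' (1 + κ)/N ≤ C''/√N`, so
`√(1 - X) ≤ √(2/r) + C''/√N`, and the claim follows. -/
def Stmt_WIN : Prop := ∀ (r : ℕ) (C : ℝ), 3 ≤ r → 1 ≤ C → ∃ (K : ℝ) (N0 : ℕ), 1 ≤ K ∧
  ∀ N ≥ N0, ∀ X R κ D : ℝ, 0 ≤ X → X ≤ 1 → 0 ≤ R → |R - 2 * al r * N * (1 - X)| ≤ C → 0 ≤ κ →
  κ ≤ C * √(N : ℝ) →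
  D = al r * ((N : ℝ) + 1) - al r * R / ((N : ℝ) + 1)
    + al r * (kap r * (R * √R)) / ((N : ℝ) + 1) ^ 2 - (al r * N + al r * X ^ 2) →
  (X ≤ 1 - 2 / r + 1 / (4 * r ^ 2) → D ≤ C * (1 + κ) / N →
    X ≤ 1 - 2 / r - gam r / √(N : ℝ) + K * (1 + κ) / N) ∧
  (-(C * (1 + κ) / N) ≤ D → 1 - 2 / r - gam r / √(N : ℝ) - K * (1 + κ) / N ≤ X)

/-- **WINA** : extremal graphs of type D over `N` vertices (uses CUPR, LDX, CND2, CND6, WIN, and `pTAY`,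
`pTN`). `n = N + 1`, `R = RR r m n`; `pTN` and `m < tn r n`: `R ≥ r`; `|R - 2 al r N (1 - X)| ≤ 4 r`;
so `R ≤ 2 n`. `z` of CND6 if `6 ≤ r`, otherwise of CND2; cost `c'` (form D if `kk ≥ 0`, otherwise
S; `kk` is an integer). CUPR: `G'` with `specRad G' ≤ lam = specRad G` (`Ext`), so (`BIG.Ph_anti`)
`n^2 Ph (re z) lam ≤ C (1 + |kk|)`. LDX: `lam = al r N + al r X^2 + O(1/N)`. `pTAY` for `re z` and the
constant vector `n/r` as in LGX: `al r n - lam ≤ al r (mo 2 - mo 3/n)/n + C (1 + |kk|)/n`, with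
`mo 2 = R + 2 kk`, `mo 3 ≥ kap r R √R - K n`: so `D ≤ C (1 + |kk|)/N`, and WIN (a). -/
def Stmt_WINA : Prop := ∀ (r : ℕ), 3 ≤ r → ∃ (K : ℝ) (m0 : ℕ), 1 ≤ K ∧ ∀ m ≥ m0, ∀ N j : ℕ,
  m = tn r N + j → m < tn r (N + 1) →
  (j : ℝ) / (al r * N) ≤ 1 - 2 / r + 1 / (4 * r ^ 2) →
  ∀ (V : Type) [Fintype V] (G : SimpleGraph V), Ext r m G → TypeD r N j G →
    (j : ℝ) / (al r * N) ≤ 1 - 2 / r - gam r / √(N : ℝ) + K * er r N / N

/-- **WINB** : extremal graphs over `N + 1` vertices (uses LDX, LGX, EXB, KUB, WIN, and `pTN`, `pGD`).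
If `X > 1 - 2/r` trivial. Otherwise EXB: `G'` in the class (`pGD`: same number of edges, `pTN`) with
`specRad G' ≤ specRad G`; LDX for `G'`, LGX for `G`, KUB: `mo 3 n (re y) ≤ kap r R_y √R_y`,
`R_y = R + 2 kk`, `R_y √R_y ≤ R √R + C √n |kk|`. So `D ≥ - C (1 + |kk|)/N`, and WIN (b) with
`κ = |kk|`. `R` as in WINA. -/
def Stmt_WINB : Prop := ∀ (r : ℕ), 3 ≤ r → ∃ (K : ℝ) (m0 : ℕ), 1 ≤ K ∧ ∀ m ≥ m0, ∀ N j n : ℕ,
  m = tn r N + j → m < tn r (N + 1) → n = N + 1 → 1 / 4 ≤ (j : ℝ) / (al r * N) →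
  ∀ (y : Fin r → ℕ) (c0 : ℝ) (V : Type) [Fintype V] (G : SimpleGraph V), Ext r m G →
    ∑ i, y i = n → (∀ i, |(y i : ℝ) - n / r| ≤ 2 * √(n : ℝ)) → |kk m n y| ≤ √(n : ℝ) →
    FormC m n y G c0 →
    1 - 2 / r - gam r / √(N : ℝ) - K * (1 + |kk m n y|) / N ≤ (j : ℝ) / (al r * N)

end Pool.Agent.Work.MP_5532fa_up
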