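import Pool.Agent.Work.MP_5532fa_x.Interface5
import Pool.Agent.Work.MP_5532fa_x.Interface6

/-!
# MP_5532fa_co, sixth round: `r = 6` is exact in the whole range

For `r = 6` and `R ≤ (5/9) n + K √n` (this is `X ≥ 2/3 - K/√n`, the whole range over `N + 1`
vertices) the best class sizes have `kk = 0`. The gain `3.6 R/n` of one unit in the largest class
is at most `2 + O(1/√n)`, the cost of `kk = 1` is `2`, and the third moment of the other classes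
decides: it is larger for `kk = 0` by `n^(-1/4)`.
-/

open Finset

namespace Pool.Agent.Work.MP_5532fa_up

open MP5532fa (specRad qf pE)

/-- bound for the third moment of six class sizes, one of them with deviation `E`; `R` the second
moment, `τ ^ 2 = R - (6/5) E ^ 2` the second moment of the other five around their mean -/
noncomputable def h6 (E R τ : ℝ) : ℝ := 42 / 25 * E ^ 3 - 3 / 5 * E * R + 3 / √20 * τ ^ 3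

/-- **K6A** : the candidate with `kk = 0` (uses `pREP`, `pTNR`, `blk_CU1`, and the blocks REPS, TNZ1).
`pREP 6` with `M = n`, `S = n^2 - 2 m + 10` (`S - n` is even; the balanced vector is admissible since
`RR ≥ 6`): `z0`, `i1`, `T = z0 i1` the largest possible entry (`Top1`); `D = T - n/6 ≥ 0`; `pTNR`:
`RR ≤ 6/5 (D + 1)^2 + 6`; `mo 2 n (re z0) = RR`. A vector `y` with `mo 2 ≤ RR` has `∑ y^2 ≤ S`, so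
`y i ≤ T`. The other five entries of `z0` have sum `M' = n - T` and sum of squares `S' = S - T^2`,
`S' - M'` is even. REPS: five integers `w` with the same sum and sum of squares, the largest one is
`w i*`, and every vector with `∑ = M'`, `∑^2 ≤ S'` has entries `≤ w i* + 1`. `z` = `T` and `w`
(`Fin.cons`; the deviations of the entries are `≤ √RR ≤ 2 √n`, so they are natural numbers). So
`kk m n z = 0`. `ν = M'/5 = n/6 - D/5`, `e_j = w_j - ν`, `∑ e = 0`, `∑ e^2 = τ^2 = RR - 6/5 D^2`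
(`≤ 6/5 (2 D + 1) + 6 ≤ C √n`), `e1` = the largest one. TNZ1 (`l = 5`): `τ^2 ≤ 5/4 (e1 + 2)^2 + 5`,
`e1 ≥ 0`. `blk_CU1` (`r = 5`), item 2: `∑ e^3 ≥ (15/8) e1^3 - (3/4) e1 τ^2 - σ^3`,
`σ^2 = τ^2 - 5/4 e1^2 ≤ 5 e1 + 10 ≤ C (τ + 1)`. With `a' = τ √(4/5)`: `a' - C ≤ e1 ≤ a'`, and the
value of `(15/8) e^3 - (3/4) e τ^2` at `e = a'` is `(3/√20) τ^3`; its derivative is at most
`C τ^2` in absolute value on `[0, a']`. So `∑ e^3 ≥ (3/√20) τ^3 - C (τ^2 + 1)`. Third moment: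
`mo 3 = D^3 + ∑ (e_j - D/5)^3 = 42/25 D^3 - 3/5 D RR + ∑ e^3`. Fourth moment: `D^4 + ∑ (e_j - D/5)^4
= 126/125 D^4 + 6/25 D^2 τ^2 - 4/5 D ∑ e^3 + ∑ e^4 ≤ 126/125 D^4 + C n √n` (`D ≤ C √n`, `τ^2 ≤ C √n`,
`|∑ e^3| ≤ τ^3`, `∑ e^4 ≤ τ^4`). -/
def Stmt_K6A : Prop := ∃ (K : ℝ) (n0 : ℕ), 1 ≤ K ∧ ∀ n ≥ n0, ∀ m : ℕ,
  6 ≤ RR 6 m n → RR 6 m n ≤ 2 * n →
  ∃ (z : Fin 6 → ℕ) (T : ℕ) (D τ : ℝ), ∑ i, z i = n ∧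
    (∀ i, |(z i : ℝ) - n / (6 : ℕ)| ≤ 2 * √(n : ℝ)) ∧ kk m n z = 0 ∧ (T : ℝ) = n / 6 + D ∧
    0 ≤ D ∧ 0 ≤ τ ∧ τ ^ 2 = RR 6 m n - 6 / 5 * D ^ 2 ∧
    RR 6 m n ≤ 6 / 5 * (D + 1) ^ 2 + 6 ∧
    (∀ y : Fin 6 → ℕ, ∑ i, y i = n → mo 2 n (re y) ≤ RR 6 m n → ∀ i, y i ≤ T) ∧
    h6 D (RR 6 m n) τ - K * √(n : ℝ) ≤ mo 3 n (re z) ∧
    mo 4 n (re z) ≤ 126 / 125 * D ^ 4 + K * (n * √(n : ℝ))

/-- **K6B** : moments of six numbers, one of them with deviation `E` (uses KUB for `r = 5`, `n = 0`, or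
`blk_CU1`). The other deviations are `e_j - E/5`, `∑ e = 0`, `∑ e^2 = mo 2 - 6/5 E^2`,
`mo 3 = 42/25 E^3 - 3/5 E mo 2 + ∑ e^3` (see K6A), `∑ e^3 ≤ kap 5 τ^3 = (3/√20) τ^3`. Fourth moment:
`E^4 + ∑ x_j^4`, `∑ x = - E`, and `∑ x^4 ≥ (∑ x^2)^2/5 ≥ (∑ x)^4/125`. -/
def Stmt_K6B : Prop := ∀ (n : ℕ) (y : Fin 6 → ℝ) (i1 : Fin 6) (E : ℝ), ∑ i, y i = n →
  E = y i1 - n / 6 → 0 ≤ mo 2 n y - 6 / 5 * E ^ 2 ∧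
  ∀ τ : ℝ, 0 ≤ τ → τ ^ 2 = mo 2 n y - 6 / 5 * E ^ 2 →
    mo 3 n y ≤ h6 E (mo 2 n y) τ ∧ 126 / 125 * E ^ 4 ≤ mo 4 n y

/-- **K6C** : `h6` is increasing in `E` (pure). `a = √(5 R/6)`, so `R = 6/5 a^2`, `D ≤ a`, `c = 1/50`. If
`a ≤ 2500` everything is bounded. Otherwise `(D + 1)^2 ≥ a^2 - 5` gives `D ≥ a - 2`.
`h6 E R τ' = 42/25 E^3 - 18/25 a^2 E + (3/√20) τ'^3`. Case `E ≥ 9/10 a`:
`D^3 - E^3 ≥ 3 E^2 (D - E)`, `τ'^3 - τ^3 ≤ (3/2) τ' (τ'^2 - τ^2)`, `τ'^2 - τ^2 = 6/5 (D - E)(D + E)`,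
`τ' ≤ 48/100 a`, `3/√20 ≤ 68/100`: the difference is `≥ (4.08 - 0.72 - 1.2) a^2 (D - E)`. Case
`E < 9/10 a`: with `E = x a`, `τ' = √(6/5) a s`, `s^2 = 1 - x^2`, `s^3 ≤ s^2`,
`(3/√20) (6/5) √(6/5) ≤ 0.88182`: `h6 E R τ' ≤ a^3 (1.68 x^3 - 0.72 x + 0.88182 (1 - x^2))
≤ a^3 (0.9601 - 0.07 (1 - x))` (as `0.00828 + 0.79 x + 0.88182 x^2 - 1.68 x^3 ≥ 0` on `[0, 1]`),
and `h6 D R τ ≥ 42/25 D^3 - 18/25 a^2 D ≥ 0.96 a^3 - 8.64 a^2` (`a - 2 ≤ D ≤ a`); as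
`a - E ≥ a/10`, `0.07 a^2 (a - E) - 0.0001 a^3 - 8.64 a^2 ≥ 0.03 a^2 (a - E)` for `a ≥ 2500`
(`0.04 * 0.1 a^3 = 0.004 a^3`, `8.64 a^2 ≤ 0.0035 a^3`), and `c R (D - E) ≤ 0.024 a^2 (a - E)`. -/
def Stmt_K6C : Prop := ∃ C c : ℝ, 0 < c ∧ 1 ≤ C ∧ ∀ R D E τ τ' : ℝ, 0 ≤ E → E ≤ D →
  0 ≤ τ → 0 ≤ τ' → τ ^ 2 = R - 6 / 5 * D ^ 2 → τ' ^ 2 = R - 6 / 5 * E ^ 2 →
  R ≤ 6 / 5 * (D + 1) ^ 2 + 6 → h6 E R τ' + c * R * (D - E) ≤ h6 D R τ + C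

/-- **K60** : `kk = 0` (pure; uses K6A, K6B, K6C, KUB). `R0 = RR 6 m n ≤ n`, `k = kk m n y`, an integer
(see X_CUP), `R_y = mo 2 n (re y) = R0 + 2 k` (`mo_two`), `|k| ≤ K √√n`. Suppose `k ≠ 0`. `z`, `T`,
`D`, `τ` of K6A, `OptR` for `z`, `c' = 0`: `c0 ≤ M34 n y - M34 n z + K (1 + |k|)/√n`. Let `E ≥ 0` be the
largest deviation `y i1 - n/6`, `τ_y^2 = R_y - 6/5 E^2`, K6B. `C` = constants depending on `K`.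
(1) `E ≤ D` (this is so if `k ≤ -1`, by K6A, as `R_y ≤ R0`). `τ'^2 = R0 - 6/5 E^2`. If `k ≤ -1`:
`τ_y ≤ τ'`, so `h6 E R_y τ_y ≤ h6 E R0 τ' + (6/5) E |k|`; if `k ≥ 1`: `τ_y^3 - τ'^3 ≤ 3 k τ_y`, so
`h6 E R_y τ_y ≤ h6 E R0 τ' + C k √n`. K6C: `mo 3 y - mo 3 z ≤ C (1 + |k|) √n - c R0 (D - E)`, and
`mo 4 z - mo 4 y ≤ 126/125 (D^4 - E^4) + K n √n ≤ 4 (126/125) D^3 (D - E) + K n √n`,
`D^3 ≤ (5/6) R0 √n`: `M34 n y - M34 n z ≤ C (1 + |k|)/√n + (- c + 4/√n) R0 (D - E)/n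
≤ C (1 + |k|)/√n` for large `n`. In all forms `c0 ≥ 2 |k|/5` (form E: `k ≥ 6`, `2 k - 12/5 ≥ 8/5 k`):
contradiction for large `n`, as `|k| ≥ 1`.
(2) `E > D`: `k ≥ 1`, `E ≥ D + 1` (integers `y i1 > T`). Here `c0 ≥ 8/5 k`, and `c0 ≥ 2`. If
`D ≤ k + 3`: `R0 ≤ 6/5 (k + 4)^2 + 6 ≤ C √n`, `R_y ≤ C √n`, `M34 n y ≤ |mo 3|/n ≤ C (√n)^(3/2)/n`
(KUB; `mo 4 ≥ 0`), `|M34 n z|` also: contradiction. If `D > k + 3`: `E ≥ D + 2` is impossible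
(`6/5 (D + 2)^2 ≤ R_y ≤ 6/5 (D + 1)^2 + 6 + 2 k`), so `E = D + 1`, `τ_y^2 ≤ 2 k + 6`,
`τ^2 ≥ 6/5 (2 D + 1) - 2 k` (from `6/5 (D + 1)^2 ≤ R_y`). `h6 (D + 1) R_y τ_y - h6 D R0 τ
≤ 42/25 (3 D^2 + 3 D + 1) - 3/5 R0 + (3/√20) (τ_y^3 - τ^3) ≤ 3.6 R0 + C √n - (3/√20) τ^3`
(`D^2 ≤ 5/6 R0`; `τ_y^3 ≤ (2 k + 6)^(3/2) ≤ C √n`), and `mo 4 z - mo 4 y ≤ K n √n`. So
`c0 ≤ (3.6 R0 - (3/√20) τ^3)/n + C (1 + k)/√n`. If `R0 ≤ n/2` this is `≤ 1.8 + C (1 + k)/√n`, so `k = 1`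
and `2 ≤ 1.9`. If `R0 > n/2`: `D ≥ (6/10) √n`, `τ^2 ≥ √n`, `(3/√20) τ^3/n ≥ (1/2) n^(-1/4)`, and
`3.6 R0/n ≤ 2 + 3.6 K/√n`: `c0 ≤ 2 + C (1 + k)/√n - (1/2) n^(-1/4)`, so `k = 1`, contradiction. -/
def Stmt_K60 : Prop := ∀ K : ℝ, 1 ≤ K → ∃ n0 : ℕ, ∀ n ≥ n0, ∀ (m : ℕ) (y : Fin 6 → ℕ)
  (c0 : ℝ), 6 ≤ RR 6 m n → RR 6 m n ≤ 5 / 9 * n + K * √(n : ℝ) → ∑ i, y i = n →
  |kk m n y| ≤ K * √(√(n : ℝ)) → Cst 6 (kk m n y) c0 → OptR m n K y c0 → kk m n y = 0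

/-- **GP6** : gadgets for `r = 6` (uses CMPG, PHI6). `kk = 0`, so `FormC` is the form D
(`WD`, `Top`), by `pGD` `|A| = 6`; then as in B_MAIN6 (or B_GPHI): CMPG and PHI6 with
`C = max`, `|sz - n/6| ≤ 2 √n` is a hypothesis here. -/
def Stmt_GP6 : Prop := ∃ n0 : ℕ, ∀ n ≥ n0, ∀ (m : ℕ) (y : Fin 6 → ℕ) (c0 : ℝ) (V : Type)
  [Fintype V] (G : SimpleGraph V), Ext 6 m G → ∑ i, y i = n →
  (∀ i, |(y i : ℝ) - n / (6 : ℕ)| ≤ 2 * √(n : ℝ)) → kk m n y = 0 → FormC m n y G c0 →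
  GadP (r := 6) n G

end Pool.Agent.Work.MP_5532fa_up
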