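import Pool.Agent.Work.MP_5532fa_x.Interface5
import Pool.Agent.Work.MP_5532fa_x.Interface6
import Pool.Agent.Work.MP_5532fa_x.Interface7
import Pool.Agent.Work.MP_5532fa_x.B_MAINB
import Pool.Agent.Work.MP_5532fa_x.B_MAINR

/-!
# MP_5532fa_co, sixth round: the complete description of the extremal graphs
-/

open Finset

namespace Pool.Agent.Work.MP_5532fa_up

open MP5532fa (specRad qf pE)

/-- the complete description of the extremal graphs -/
def Form8 {V : Type} [Fintype V] (r : ℕ) (K κ : ℝ) (m N j : ℕ) (G : SimpleGraph V) : Prop :=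
  (j + 1 < r ∧ ¬ Exc r N j ∧ GadP (r := r) N G) ∨
  (Exc r N j ∧ TypeX r N G) ∨
  (r ≤ j + 1 ∧ j + 2 ≠ 2 * r ∧ TypeD r N j G ∧
    (2 * r ≤ j + 1 →
      1 + thet r N (j / (al r * N)) - K / N ≤ ((r : ℝ) + 1) * (j / (al r * N))) ∧
    (j : ℝ) / (al r * N) ≤ 1 - 2 / r - gam r / √(N : ℝ) + K * er r N / N) ∨
  (j + 2 = 2 * r ∧ TypeSP r N G) ∨
  (2 * r ≤ j + 1 ∧ TypeE r N j G ∧
    ((r : ℝ) + 1) * (j / (al r * N)) ≤ 1 + thet r N (j / (al r * N)) + K / N) ∨
  (6 ≤ r ∧ 1 - 2 / r - gam r / √(N : ℝ) - K / N ≤ (j : ℝ) / (al r * N) ∧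
    GadP (r := r) (N + 1) G) ∨
  (r < 6 ∧ ∃ (n : ℕ) (y : Fin r → ℕ) (c0 : ℝ), n = N + 1 ∧ ∑ i, y i = n ∧
    (∀ i, |(y i : ℝ) - n / r| ≤ 2 * √(n : ℝ)) ∧ |kk m n y| ≤ K * √(√(n : ℝ)) ∧
    FormC m n y G c0 ∧ OptR m n K y c0 ∧
    1 - 2 / r - gam r / √(N : ℝ) - K * (1 + |kk m n y|) / N ≤ (j : ℝ) / (al r * N) ∧
    ∀ z : Fin r → ℕ, ∑ i, z i = n → kk m n z = 0 →
      (∑ i, ((z i : ℝ) - n / r) ^ 2) ^ 3 ≤ κ * n ^ 2 → kk m n y = 0 ∧
      ((∑ i, ((z i : ℝ) - n / r) ^ 2) ^ 2 ≤ κ * n →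
        ∃ i' k' : Fin r, i' ≠ k' ∧ ∀ (x : Fin r → ℕ) (i k : Fin r), i ≠ k → ∑ l, x l = n →
          ∑ l, x l ^ 2 = ∑ l, y l ^ 2 → PhF x i k ≤ PhF y i' k'))

/-- **MAINF** : the complete description for all `r ≥ 3` and all large `m` -/
def Stmt_MAINF : Prop := ∀ (r : ℕ), 3 ≤ r → ∃ (K κ : ℝ) (m0 : ℕ), 1 ≤ K ∧ 0 < κ ∧
  ∀ m ≥ m0, ∀ N j : ℕ, m = tn r N + j → m < tn r (N + 1) → ∀ (V : Type) [Fintype V]
    (G : SimpleGraph V), Ext r m G → Form8 r K κ m N j G

namespace X_MAINF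

/-- a gadget has the form D with `kk = 0` -/
theorem gad_formC {V : Type} [Fintype V] {r n m : ℕ} (hr : 3 ≤ r) {G : SimpleGraph V}
    {H : Finset V} {c : V → Fin r} {w : V} {A : Finset V} {v1 v2 : V}
    (hE : pE G = 2 * (m : ℝ)) (hW : WD G n H c w A v1 v2) (hA : A.card = r)
    (hT : Top H c {c v1, c v2}) :
    kk m n (fun i => (cl H c i).card) = 0 ∧ FormC m n (fun i => (cl H c i).card) G 0 := by
  have hcard : ∀ i, (cl A c i).card = 1 := by
    have hge : ∀ i ∈ (Finset.univ : Finset (Fin r)), 1 ≤ (cl A c i).card :=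
      fun i _ => Finset.card_pos.mpr (hW.hne i)
    have hsum : ∑ i : Fin r, 1 = ∑ i, (cl A c i).card := by
      rw [sum_card_cl, hA]
      simp
    intro i
    exact ((Finset.sum_eq_sum_iff_of_le hge).mp hsum i (Finset.mem_univ i)).symm
  have hk : kk m n (fun i => (cl H c i).card) = 0 := by
    have h1 := (pGD r hr V G n H c w A v1 v2 hW).2.2
    rw [hE, hA] at h1
    have h3 : ∑ i, sz H c i ^ 2 = ∑ i, (((cl H c i).card : ℕ) : ℝ) ^ 2 := rfl
    unfold kk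
    rw [← h3]
    linarith
  refine ⟨hk, Or.inl ⟨⟨H, c, w, A, v1, v2, hW, fun i => rfl, ?_, hT⟩, hk.ge, by rw [hk]; ring⟩⟩
  intro i k _ _
  rw [hcard i, hcard k]
  exact ⟨fun _ => by omega, fun _ => Or.inr rfl⟩

theorem opt_mono {r : ℕ} {m n : ℕ} {K K' : ℝ} {y : Fin r → ℕ} {c : ℝ} (h : OptR m n K y c)
    (hle : K ≤ K') : OptR m n K' y c := X_MAINR.opt_mono h hle

/-- the sum of squares of the deviations for gadgets over `N + 1` vertices is not too large -/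
theorem small {V : Type} [Fintype V] {r m N j : ℕ} (hr : 3 ≤ r) (hN2 : 2 * r ≤ N)
    (hmj : m = tn r N + j) {G : SimpleGraph V} (hE : pE G = 2 * (m : ℝ)) :
    al r * ((N + 1 : ℕ) : ℝ) ^ 2 - pE G + 2 * ((r : ℝ) - 1) ≤ 4 * ((N + 1 : ℕ) : ℝ) := by
  have hrr : (3 : ℝ) ≤ r := by exact_mod_cast hr
  have hN2 : 2 * (r : ℝ) ≤ N := by exact_mod_cast hN2
  have hal := al_ge hr
  have hal1 := al_lt hr
  have htn := (pTN r hr N).2.1
  rw [abs_le] at htn
  have hpE : pE G = 2 * ((tn r N : ℝ) + j) := by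
    rw [hE, hmj]
    push_cast
    ring
  have hj0 : (0 : ℝ) ≤ j := Nat.cast_nonneg j
  have hN0 : (0 : ℝ) ≤ N := Nat.cast_nonneg N
  have h3 : al r * (2 * (N : ℝ) + 1) ≤ 1 * (2 * (N : ℝ) + 1) :=
    mul_le_mul_of_nonneg_right hal1.le (by linarith only [hN0])
  have h4 : al r * ((N + 1 : ℕ) : ℝ) ^ 2 = al r * N ^ 2 + al r * (2 * (N : ℝ) + 1) := by
    push_cast; ring
  rw [hpE, h4]
  push_cast
  linarith only [h3, htn.1, hj0, hN2, hrr]

theorem cst_of {V : Type} [Fintype V] {r m n : ℕ} {y : Fin r → ℕ} {G : SimpleGraph V} {c : ℝ}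
    (h : FormC m n y G c) : Cst r (kk m n y) c := by
  rcases h with ⟨_, h1, h2⟩ | ⟨_, h1, h2⟩ | ⟨_, h1, h2⟩
  · exact Or.inl ⟨h1, h2⟩
  · exact Or.inr (Or.inl ⟨h1, h2⟩)
  · exact Or.inr (Or.inr ⟨h1, h2⟩)

/-- the second moment near the second threshold, `r = 6` -/
theorem RR_six {m N j : ℕ} {g K e X : ℝ} (hN : 96 ≤ N) (hmj : m = tn 6 N + j)
    (hX : X = (j : ℝ) / (al 6 * N)) (hg : 0 ≤ g) (hK : 1 ≤ K) (he : 0 ≤ e)
    (he2 : e ≤ √((N + 1 : ℕ) : ℝ))
    (h : 1 - 2 / (6 : ℕ) - g / √(N : ℝ) - K * (1 + e) / N ≤ X) :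
    RR 6 m (N + 1) ≤ 5 / 9 * ((N + 1 : ℕ) : ℝ) + (2 * g + 10 * K + 20) * √((N + 1 : ℕ) : ℝ) := by
  have hNN : (96 : ℝ) ≤ N := by exact_mod_cast hN
  have hN0 : (0 : ℝ) < N := by linarith only [hNN]
  have hal : al 6 = 5 / 6 := by unfold al; norm_num
  rw [hal] at hX
  have hj : (j : ℝ) = 5 / 6 * N * X := by
    rw [hX]
    field_simp
  have htn := (pTN 6 (by norm_num) N).2.1
  rw [hal, abs_le] at htn
  have hm : (m : ℝ) = (tn 6 N : ℝ) + j := by rw [hmj]; push_cast; ring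
  have hs : √(N : ℝ) ≤ √((N + 1 : ℕ) : ℝ) := Real.sqrt_le_sqrt (by push_cast; linarith only [])
  have hs0 : 0 < √(N : ℝ) := Real.sqrt_pos.mpr hN0
  have hs1 : (1 : ℝ) ≤ √((N + 1 : ℕ) : ℝ) := by
    rw [show (1 : ℝ) = √1 by simp]
    exact Real.sqrt_le_sqrt (by push_cast; linarith only [hN0])
  have h1 : g / √(N : ℝ) * N = g * √(N : ℝ) := by
    have h2 : (N : ℝ) = √(N : ℝ) * √(N : ℝ) := (Real.mul_self_sqrt hN0.le).symm
    calc g / √(N : ℝ) * N = g / √(N : ℝ) * (√(N : ℝ) * √(N : ℝ)) := by rw [← h2]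
      _ = g * √(N : ℝ) := by field_simp
  have h3 : K * (1 + e) / N * N = K * (1 + e) := by field_simp
  have h4 : (2 / 3) * (N : ℝ) - g * √(N : ℝ) - K * (1 + e) ≤ N * X := by
    have h5 := mul_le_mul_of_nonneg_right h hN0.le
    rw [sub_mul, sub_mul, h1, h3] at h5
    have h6 : (1 - 2 / ((6 : ℕ) : ℝ)) = 2 / 3 := by norm_num
    rw [h6] at h5
    linarith only [h5]
  have h7 : g * √(N : ℝ) ≤ g * √((N + 1 : ℕ) : ℝ) := mul_le_mul_of_nonneg_left hs hg
  have h8 : K * (1 + e) ≤ K * (2 * √((N + 1 : ℕ) : ℝ)) :=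
    mul_le_mul_of_nonneg_left (by linarith only [he2, hs1]) (by linarith only [hK])
  unfold RR
  rw [hal, hm, hj]
  have h9 : ((N + 1 : ℕ) : ℝ) ^ 2 = (N : ℝ) ^ 2 + 2 * N + 1 := by push_cast; ring
  have h10 : ((N + 1 : ℕ) : ℝ) = (N : ℝ) + 1 := by push_cast; ring
  have h11 : 0 ≤ g * √((N + 1 : ℕ) : ℝ) := mul_nonneg hg (Real.sqrt_nonneg _)
  have h12 : 0 ≤ K * √((N + 1 : ℕ) : ℝ) := mul_nonneg (by linarith only [hK]) (Real.sqrt_nonneg _)
  rw [h9]
  have e1 : (2 * g + 10 * K + 20) * √((N + 1 : ℕ) : ℝ)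
      = 2 * (g * √((N + 1 : ℕ) : ℝ)) + 10 * (K * √((N + 1 : ℕ) : ℝ))
        + 20 * √((N + 1 : ℕ) : ℝ) := by ring
  rw [e1]
  have e2 : K * (2 * √((N + 1 : ℕ) : ℝ)) = 2 * (K * √((N + 1 : ℕ) : ℝ)) := by ring
  rw [e2] at h8
  have h13 : ((6 : ℕ) : ℝ) = 6 := by norm_num
  rw [h13] at htn
  rw [h13, h10]
  rw [h10] at h7 h8 h11 h12 hs1
  linarith only [h4, h7, h8, h11, h12, htn.1, hs1, hNN]

end X_MAINF

theorem x_MAINF (h7 : Stmt_MAIN7) (h8 : Stmt_MAIN8) (hR : Stmt_MAINR) (hRU : Stmt_RULR)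
    (hTH : Stmt_THF) (hWA : Stmt_WINA) (hWB : Stmt_WINB) (hK60 : Stmt_K60) (hGP6 : Stmt_GP6) :
    Stmt_MAINF := by
  intro r hr
  have hrr : (3 : ℝ) ≤ r := by exact_mod_cast hr
  have hr0 : (0 : ℝ) < r := by linarith only [hrr]
  obtain ⟨b1, b2⟩ := X_MAINR.two_div hr
  have ha := al_ge hr
  have ha' := al_lt hr
  -- the window
  obtain ⟨ε, hεd⟩ : ∃ ε : ℝ, ε = 1 / (8 * (r : ℝ) ^ 2) := ⟨_, rfl⟩
  have hr2 : (9 : ℝ) ≤ (r : ℝ) ^ 2 := by nlinarith only [hrr]
  have hε : 0 < ε := by rw [hεd]; positivity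
  have hε42 : ε ≤ 1 / 42 := by
    rw [hεd]
    exact one_div_le_one_div_of_le (by norm_num) (by linarith only [hr2])
  have hε4 : ε ≤ 1 / (4 * (r : ℝ) ^ 2) := by
    rw [hεd]
    exact one_div_le_one_div_of_le (by positivity) (by linarith only [hr2])
  obtain ⟨m7, H7⟩ := h7 r hr ε hε
  obtain ⟨KR, hKR, HR⟩ := hR r hr
  obtain ⟨mR, HR'⟩ := HR ε hε hε42
  obtain ⟨κ, m8, hκ, H8⟩ := h8 r hr
  obtain ⟨KU, nU, hKU, HU⟩ := hRU r hr
  obtain ⟨KT, mT, hKT, HT⟩ := hTH r hr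
  obtain ⟨KA, mA, hKA, HA⟩ := hWA r hr
  obtain ⟨KB, mB, hKB, HB⟩ := hWB r hr
  obtain ⟨K, hKd⟩ : ∃ K : ℝ, K = KR + KT + KA + KB + KU := ⟨_, rfl⟩
  have hK1 : 1 ≤ K := by linarith only [hKd, hKR, hKT, hKA, hKB, hKU]
  have lR : KR ≤ K := by linarith only [hKd, hKT, hKA, hKB, hKU]
  have lT : KT ≤ K := by linarith only [hKd, hKR, hKA, hKB, hKU]
  have lA : KA ≤ K := by linarith only [hKd, hKR, hKT, hKB, hKU]
  have lB : KB ≤ K := by linarith only [hKd, hKR, hKT, hKA, hKU]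
  have lU : KU ≤ K := by linarith only [hKd, hKR, hKT, hKA, hKB]
  obtain ⟨K6, hK6d⟩ : ∃ K6 : ℝ, K6 = 2 * gam 6 + 10 * KB + 20 + KR := ⟨_, rfl⟩
  have hg6 : 0 ≤ gam 6 := by unfold gam; positivity
  have hK6 : 1 ≤ K6 := by linarith only [hK6d, hg6, hKB, hKR]
  obtain ⟨n6, H6⟩ := hK60 K6 hK6
  obtain ⟨nG, HG⟩ := hGP6
  obtain ⟨M, hM⟩ : ∃ M : ℕ, M = 16 * r + ⌈KR ^ 4⌉₊ + n6 + nG + nU + 1 := ⟨_, rfl⟩
  refine ⟨K, κ, m7 + m8 + mR + mT + mA + mB + M ^ 2 + 1, hK1, hκ, ?_⟩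
  intro m hm N j hmj hlt V _ G hG
  have hNM := large_N pTN hr M (by omega) hlt
  have hNr : 16 * r ≤ N := by omega
  have hNr' : 16 * (r : ℝ) ≤ N := by exact_mod_cast hNr
  have hN0 : (0 : ℝ) < N := by linarith only [hNr', hrr]
  have haN : (0 : ℝ) < al r * N := mul_pos (by linarith only [ha]) hN0
  obtain ⟨X, hXd⟩ : ∃ X : ℝ, X = (j : ℝ) / (al r * N) := ⟨_, rfl⟩
  have hX0 : 0 ≤ X := by rw [hXd]; positivity
  have hX1 : X ≤ 1 := by
    rw [hXd, div_le_one haN]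
    exact j_le pTN hr hmj hlt
  have her : 0 ≤ er r N := by
    unfold er
    split_ifs
    · norm_num
    · positivity
  -- type D
  have caseD : TypeD r N j G → r ≤ j + 1 → j + 2 ≠ 2 * r → X ≤ 1 - 2 / r + ε →
      Form8 r K κ m N j G := by
    intro hD h1 h2 h3
    have h4 : X ≤ 1 - 2 / r + 1 / (4 * (r : ℝ) ^ 2) := by linarith only [h3, hε4]
    refine Or.inr (Or.inr (Or.inl ⟨h1, h2, hD, ?_, ?_⟩))
    · intro h5
      have h6 := (HT m (by omega) N j hmj hlt h5 (by rw [← hXd]; exact h4) V G hG).1 hD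
      have h7 : KT / (N : ℝ) ≤ K / N := div_le_div_of_nonneg_right lT hN0.le
      linarith only [h6, h7]
    · have h6 := HA m (by omega) N j hmj hlt (by rw [← hXd]; exact h4) V G hG hD
      have h7 : KA * er r N / (N : ℝ) ≤ K * er r N / N :=
        div_le_div_of_nonneg_right (mul_le_mul_of_nonneg_right lA her) hN0.le
      linarith only [h6, h7]
  -- type E
  have caseE : TypeE r N j G → 2 * r ≤ j + 1 →
      ((r : ℝ) + 1) * X ≤ 1 + X ^ 4 / (r * ((r : ℝ) - 1)) + ε → Form8 r K κ m N j G := by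
    intro hE h1 h3
    have h4 : X ≤ 1 - 2 / r + 1 / (4 * (r : ℝ) ^ 2) := by
      have hX4 : X ^ 4 ≤ 1 := pow_le_one₀ hX0 hX1
      have h6 : (6 : ℝ) ≤ r * ((r : ℝ) - 1) := by nlinarith only [hrr]
      have h7 : X ^ 4 / (r * ((r : ℝ) - 1)) ≤ 1 / 6 := by
        rw [div_le_div_iff₀ (by linarith only [h6]) (by norm_num)]
        linarith only [hX4, h6]
      have h8 : ((r : ℝ) + 1) * X ≤ 6 / 5 := by
        linarith only [h3, h7, hε42]
      have h9 : 4 * X ≤ 6 / 5 := by nlinarith only [h8, hX0, hrr]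
      have h10 : 0 < 1 / (4 * (r : ℝ) ^ 2) := by positivity
      linarith only [h9, b1, h10]
    have h6 := (HT m (by omega) N j hmj hlt h1 (by rw [← hXd]; exact h4) V G hG).2 hE
    have h7 : KT / (N : ℝ) ≤ K / N := div_le_div_of_nonneg_right lT hN0.le
    exact Or.inr (Or.inr (Or.inr (Or.inr (Or.inl ⟨h1, hE, by linarith only [h6, h7]⟩))))
  by_cases hcase : 7 ≤ r ∨ X ≤ 1 - 2 / r - ε
  · have hF := H7 m (by omega) N j hmj hlt (by rw [← hXd]; exact hcase) V G hG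
    rcases hF with h | h | ⟨h1, h2, h3, _, h5⟩ | h | ⟨h1, h2, h3⟩ | ⟨h1, h2, h3⟩
    · exact Or.inl h
    · exact Or.inr (Or.inl h)
    · exact caseD h3 h1 h2 (by rw [hXd]; exact h5)
    · exact Or.inr (Or.inr (Or.inr (Or.inl h)))
    · exact caseE h2 h1 (by rw [hXd]; exact h3)
    · refine Or.inr (Or.inr (Or.inr (Or.inr (Or.inr (Or.inl ⟨by omega, ?_, h3⟩)))))
      obtain ⟨H, c, w, A, v1, v2, hW, hA, hT, _⟩ := h3
      obtain ⟨hk, hFC⟩ := X_MAINF.gad_formC hr hG.2.2.1 hW hA hT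
      have hd := X_MAINB.dev hr hW hA (X_MAINF.small hr (by omega) hmj hG.2.2.1)
      have hsum : ∑ i, (cl H c i).card = N + 1 := (sum_card_cl H c).trans hW.card
      have h6 := HB m (by omega) N j (N + 1) hmj hlt rfl ?_ (fun i => (cl H c i).card) 0 V G hG
        hsum hd (by rw [hk, abs_zero]; exact Real.sqrt_nonneg _) hFC
      · rw [hk, abs_zero] at h6
        have h7 : KB * (1 + 0) / (N : ℝ) ≤ K / N := by
          rw [add_zero, mul_one]
          exact div_le_div_of_nonneg_right lB hN0.le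
        linarith only [h6, h7]
      · linarith only [h2, b1, hε42]
  · push Not at hcase
    obtain ⟨hr7, hXlow⟩ := hcase
    rcases HR' m (by omega) N j hmj hlt (by rw [← hXd]; exact hXlow.le) V G hG with
      ⟨h1, h2⟩ | ⟨n, y, c0, hn, hs, hd, hk, hFC, hO⟩
    · have hj : (2 * r : ℝ) ≤ j := by
        have h3 : (1 / 5 : ℝ) * (2 / 3 * N) ≤ X * (al r * N) := by
          have h4 : (1 / 5 : ℝ) ≤ X := by linarith only [hXlow, b1, hε42]
          have h5 : 2 / 3 * (N : ℝ) ≤ al r * N := mul_le_mul_of_nonneg_right ha hN0.le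
          exact mul_le_mul h4 h5 (by positivity) hX0
        have h4 : X * (al r * N) = j := by rw [hXd]; exact div_mul_cancel₀ _ haN.ne'
        rw [h4] at h3
        linarith only [h3, hNr']
      have hj' : 2 * r ≤ j := by exact_mod_cast hj
      exact caseD h1 (by omega) (by omega) (by rw [hXd]; exact h2)
    · have hkk : |kk m n y| ≤ √(n : ℝ) := by
        have hq : KR ≤ √(√(n : ℝ)) := by
          refine X_MAINR.sqrt4_large hKR ?_
          have h5 : KR ^ 4 ≤ (⌈KR ^ 4⌉₊ : ℝ) := Nat.le_ceil _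
          have h6 : ((⌈KR ^ 4⌉₊ : ℕ) : ℝ) ≤ (n : ℝ) := by
            exact_mod_cast (by omega : ⌈KR ^ 4⌉₊ ≤ n)
          exact h5.trans h6
        refine hk.trans ?_
        calc KR * √(√(n : ℝ)) ≤ √(√(n : ℝ)) * √(√(n : ℝ)) :=
              mul_le_mul_of_nonneg_right hq (Real.sqrt_nonneg _)
          _ = √(n : ℝ) := Real.mul_self_sqrt (Real.sqrt_nonneg _)
      have h6 := HB m (by omega) N j n hmj hlt hn
        (by rw [← hXd]; linarith only [hXlow, b1, hε42]) y c0 V G hG hs hd hkk hFC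
      by_cases hr6 : r = 6
      · subst hr6
        subst hn
        have hR1 : 6 ≤ RR 6 m (N + 1) := by
          have h8 := abs_le.mp (pTN 6 hr (N + 1)).2.1
          have h9 : (m : ℝ) + 1 ≤ (tn 6 (N + 1) : ℝ) := by exact_mod_cast hlt
          unfold RR
          push_cast at h8 h9 ⊢
          linarith only [h8.2, h9]
        have hR2 := X_MAINF.RR_six (by omega) hmj hXd hg6 hKB (abs_nonneg _) hkk
          (by rw [hXd]; exact h6)
        have hR2' : RR 6 m (N + 1) ≤ 5 / 9 * ((N + 1 : ℕ) : ℝ) + K6 * √((N + 1 : ℕ) : ℝ) := by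
          refine hR2.trans ?_
          have h9 : (2 * gam 6 + 10 * KB + 20) * √((N + 1 : ℕ) : ℝ)
              ≤ K6 * √((N + 1 : ℕ) : ℝ) :=
            mul_le_mul_of_nonneg_right (by linarith only [hK6d, hKR]) (Real.sqrt_nonneg _)
          linarith only [h9]
        have lK : KR ≤ K6 := by linarith only [hK6d, hg6, hKB]
        have hk0 := H6 (N + 1) (by omega) m y c0 hR1 hR2' hs
          (hk.trans (mul_le_mul_of_nonneg_right lK (Real.sqrt_nonneg _))) (X_MAINF.cst_of hFC)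
          (X_MAINF.opt_mono hO lK)
        have hg := HG (N + 1) (by omega) m y c0 V G hG hs hd hk0 hFC
        refine Or.inr (Or.inr (Or.inr (Or.inr (Or.inr (Or.inl ⟨le_refl _, ?_, hg⟩)))))
        rw [hk0, abs_zero] at h6
        have h7 : KB * (1 + 0) / (N : ℝ) ≤ K / N := by
          rw [add_zero, mul_one]
          exact div_le_div_of_nonneg_right lB hN0.le
        linarith only [h6, h7]
      · by_cases hsp : ∃ z : Fin r → ℕ, ∑ i, z i = n ∧ kk m n z = 0 ∧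
            (∑ i, ((z i : ℝ) - n / r) ^ 2) ^ 3 ≤ κ * n ^ 2
        · obtain ⟨z, hz1, hz2, hz3⟩ := hsp
          have h9 := H8 m (by omega) N n z (by omega) hlt (Or.inr hn) hz1 hz2 hz3 V G hG
          have hsq : ∀ z' : Fin r → ℕ, kk m n z' = 0 → ∑ i, z' i = n →
              ∑ i, ((z' i : ℝ) - n / r) ^ 2 = ∑ i, ((z i : ℝ) - n / r) ^ 2 := by
            intro z' hk' hs'
            have e1 : ∑ i, ((z' i : ℕ) : ℝ) = n := by exact_mod_cast hs'
            have e2 : ∑ i, ((z i : ℕ) : ℝ) = n := by exact_mod_cast hz1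
            have e3 : mo 2 n (re z') = mo 2 n (re z) := by
              rw [mo_two hr (y := re z') e1, mo_two hr (y := re z) e2]
              unfold kk at hk' hz2
              unfold re
              linarith only [hk', hz2]
            unfold mo re at e3
            exact e3
          -- from a gadget to the last alternative
          have fin : ∀ (H : Finset V) (c : V → Fin r) (w : V) (A : Finset V) (v1 v2 : V),
              WD G n H c w A v1 v2 → A.card = r → Top H c {c v1, c v2} →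
              ((∑ i, ((z i : ℝ) - n / r) ^ 2) ^ 2 ≤ κ * n →
                ∃ i' k' : Fin r, i' ≠ k' ∧ ∀ (x : Fin r → ℕ) (i k : Fin r), i ≠ k →
                  ∑ l, x l = n → ∑ l, x l ^ 2 = ∑ l, (cl H c l).card ^ 2 →
                  PhF x i k ≤ PhF (fun l => (cl H c l).card) i' k') →
              Form8 r K κ m N j G := by
            intro H c w A v1 v2 hW hA hT hP
            obtain ⟨hk0, hFC0⟩ := X_MAINF.gad_formC hr hG.2.2.1 hW hA hT
            have hd0 := X_MAINB.dev hr hW hA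
              (by rw [hn]; exact X_MAINF.small hr (by omega) hmj hG.2.2.1)
            have hs0 : ∑ i, (cl H c i).card = n := (sum_card_cl H c).trans hW.card
            have hkk0 : |kk m n (fun i => (cl H c i).card)| ≤ √(n : ℝ) := by
              rw [hk0, abs_zero]; exact Real.sqrt_nonneg _
            have hO0 := HU n (by omega) m (fun i => (cl H c i).card) V G 0 hG hs0 hd0 hkk0 hFC0
            have h60 := HB m (by omega) N j n hmj hlt hn
              (by rw [← hXd]; linarith only [hXlow, b1, hε42]) (fun i => (cl H c i).card) 0 V G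
              hG hs0 hd0 hkk0 hFC0
            refine Or.inr (Or.inr (Or.inr (Or.inr (Or.inr (Or.inr ⟨by omega, n, _, 0, hn, hs0,
              hd0, ?_, hFC0, X_MAINF.opt_mono hO0 lU, ?_, ?_⟩)))))
            · rw [hk0, abs_zero]
              exact mul_nonneg (by linarith only [hK1]) (Real.sqrt_nonneg _)
            · rw [hk0, abs_zero] at h60 ⊢
              have h7 : KB * (1 + 0) / (N : ℝ) ≤ K * (1 + 0) / N :=
                div_le_div_of_nonneg_right (mul_le_mul_of_nonneg_right lB (by norm_num)) hN0.le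
              linarith only [h60, h7]
            · intro z' hz1' hz2' hz3'
              refine ⟨hk0, fun h => hP ?_⟩
              rw [← hsq z' hz2' hz1']
              exact h
          by_cases hsm : (∑ i, ((z i : ℝ) - n / r) ^ 2) ^ 2 ≤ κ * n
          · obtain ⟨H, c, w, A, v1, v2, hW, hA, hT, hP⟩ := h9.2 hsm
            exact fin H c w A v1 v2 hW hA hT fun _ => ⟨c v1, c v2, hW.h12, hP⟩
          · obtain ⟨c, H, w, A, v1, v2, hW, hA, hT⟩ := h9.1
            exact fin H c w A v1 v2 hW hA hT fun h => absurd h hsm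
        · refine Or.inr (Or.inr (Or.inr (Or.inr (Or.inr (Or.inr ⟨by omega, n, y, c0, hn, hs, hd,
            ?_, hFC, X_MAINF.opt_mono hO lR, ?_, ?_⟩)))))
          · exact hk.trans (mul_le_mul_of_nonneg_right lR (Real.sqrt_nonneg _))
          · have h7 : KB * (1 + |kk m n y|) / (N : ℝ) ≤ K * (1 + |kk m n y|) / N :=
              div_le_div_of_nonneg_right (mul_le_mul_of_nonneg_right lB
                (by have := abs_nonneg (kk m n y); linarith only [this])) hN0.le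
            linarith only [h6, h7]
          · intro z hz1 hz2 hz3
            exact absurd ⟨z, hz1, hz2, hz3⟩ hsp

end Pool.Agent.Work.MP_5532fa_up
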