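import Pool.Agent.Work.MP_5532fa_x.B_C0W
import Pool.Agent.Work.MP_5532fa_x.B_CANPG
import Pool.Agent.Work.MP_5532fa_x.B_CLO
import Pool.Agent.Work.MP_5532fa_x.B_CLOR
import Pool.Agent.Work.MP_5532fa_x.B_CMPG
import Pool.Agent.Work.MP_5532fa_x.B_CND
import Pool.Agent.Work.MP_5532fa_x.B_CND2
import Pool.Agent.Work.MP_5532fa_x.B_CND6
import Pool.Agent.Work.MP_5532fa_x.B_CUP
import Pool.Agent.Work.MP_5532fa_x.B_CUPR
import Pool.Agent.Work.MP_5532fa_x.B_D2G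
import Pool.Agent.Work.MP_5532fa_x.B_D3G
import Pool.Agent.Work.MP_5532fa_x.B_E2G
import Pool.Agent.Work.MP_5532fa_x.B_E3G
import Pool.Agent.Work.MP_5532fa_x.B_EBG
import Pool.Agent.Work.MP_5532fa_x.B_EOW
import Pool.Agent.Work.MP_5532fa_x.B_EXB
import Pool.Agent.Work.MP_5532fa_x.B_EXPG
import Pool.Agent.Work.MP_5532fa_x.B_EXPR
import Pool.Agent.Work.MP_5532fa_x.B_FFE
import Pool.Agent.Work.MP_5532fa_x.B_FS1
import Pool.Agent.Work.MP_5532fa_x.B_FS2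
import Pool.Agent.Work.MP_5532fa_x.B_GP6
import Pool.Agent.Work.MP_5532fa_x.B_GPHI
import Pool.Agent.Work.MP_5532fa_x.B_GPS
import Pool.Agent.Work.MP_5532fa_x.B_GS
import Pool.Agent.Work.MP_5532fa_x.B_K60
import Pool.Agent.Work.MP_5532fa_x.B_K6A
import Pool.Agent.Work.MP_5532fa_x.B_K6B
import Pool.Agent.Work.MP_5532fa_x.B_K6C
import Pool.Agent.Work.MP_5532fa_x.B_KBD
import Pool.Agent.Work.MP_5532fa_x.B_KUB
import Pool.Agent.Work.MP_5532fa_x.B_LAMG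
import Pool.Agent.Work.MP_5532fa_x.B_LDX
import Pool.Agent.Work.MP_5532fa_x.B_LGX
import Pool.Agent.Work.MP_5532fa_x.B_MAIN7
import Pool.Agent.Work.MP_5532fa_x.B_MAIN8
import Pool.Agent.Work.MP_5532fa_x.B_MAINB
import Pool.Agent.Work.MP_5532fa_x.B_MAINC
import Pool.Agent.Work.MP_5532fa_x.B_MAINR
import Pool.Agent.Work.MP_5532fa_x.B_MAINS
import Pool.Agent.Work.MP_5532fa_x.B_MKD2
import Pool.Agent.Work.MP_5532fa_x.B_MKW
import Pool.Agent.Work.MP_5532fa_x.B_MOMT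
import Pool.Agent.Work.MP_5532fa_x.B_MOMT1
import Pool.Agent.Work.MP_5532fa_x.B_PH1
import Pool.Agent.Work.MP_5532fa_x.B_PH2
import Pool.Agent.Work.MP_5532fa_x.B_PH2S
import Pool.Agent.Work.MP_5532fa_x.B_PHI
import Pool.Agent.Work.MP_5532fa_x.B_PHI6
import Pool.Agent.Work.MP_5532fa_x.B_PLC
import Pool.Agent.Work.MP_5532fa_x.B_PRM
import Pool.Agent.Work.MP_5532fa_x.B_REPS
import Pool.Agent.Work.MP_5532fa_x.B_RJS
import Pool.Agent.Work.MP_5532fa_x.B_RULEC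
import Pool.Agent.Work.MP_5532fa_x.B_RULR
import Pool.Agent.Work.MP_5532fa_x.B_SECG
import Pool.Agent.Work.MP_5532fa_x.B_SECR
import Pool.Agent.Work.MP_5532fa_x.B_SECU
import Pool.Agent.Work.MP_5532fa_x.B_SECX
import Pool.Agent.Work.MP_5532fa_x.B_SEXC
import Pool.Agent.Work.MP_5532fa_x.B_SM6
import Pool.Agent.Work.MP_5532fa_x.B_SMJ
import Pool.Agent.Work.MP_5532fa_x.B_THF
import Pool.Agent.Work.MP_5532fa_x.B_THX
import Pool.Agent.Work.MP_5532fa_x.B_TI3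
import Pool.Agent.Work.MP_5532fa_x.B_TIEG
import Pool.Agent.Work.MP_5532fa_x.B_TNZ
import Pool.Agent.Work.MP_5532fa_x.B_TNZ1
import Pool.Agent.Work.MP_5532fa_x.B_TYP3
import Pool.Agent.Work.MP_5532fa_x.B_UND
import Pool.Agent.Work.MP_5532fa_x.B_UNE
import Pool.Agent.Work.MP_5532fa_x.B_UNS
import Pool.Agent.Work.MP_5532fa_x.B_W3P
import Pool.Agent.Work.MP_5532fa_x.B_WIN
import Pool.Agent.Work.MP_5532fa_x.B_WINA
import Pool.Agent.Work.MP_5532fa_x.B_WINB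
import Pool.Agent.Work.MP_5532fa_x.Fin8

/-!
# MP_5532fa_co, sixth round: all the blocks together
-/

namespace Pool.Agent.Work.MP_5532fa_up

theorem q_E3G : Stmt_E3G := x_E3G
theorem q_W3P : Stmt_W3P := x_W3P
theorem q_MAINS : Stmt_MAINS := x_MAINS q_E3G q_W3P
theorem q_LAMG : Stmt_LAMG := x_LAMG
theorem q_SECG : Stmt_SECG := x_SECG
theorem q_MKD2 : Stmt_MKD2 := x_MKD2
theorem q_CMPG : Stmt_CMPG := x_CMPG q_LAMG q_SECG q_MKD2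
theorem q_TNZ : Stmt_TNZ := x_TNZ
theorem q_MOMT : Stmt_MOMT := x_MOMT q_TNZ
theorem q_EXPG : Stmt_EXPG := x_EXPG
theorem q_PH1 : Stmt_PH1 := x_PH1 q_MOMT q_EXPG
theorem q_EXPR : Stmt_EXPR := x_EXPR
theorem q_PH2 : Stmt_PH2 := x_PH2 q_MOMT q_EXPR q_TNZ
theorem q_PHI : Stmt_PHI := x_PHI q_PH1 q_PH2
theorem q_GPHI : Stmt_GPHI := x_GPHI q_CMPG q_PHI
theorem q_MAINB : Stmt_MAINB := x_MAINB q_MAINS q_GPHI
theorem q_RJS : Stmt_RJS := x_RJS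
theorem q_GPS : Stmt_GPS := x_GPS q_CMPG q_EXPG
theorem q_SMJ : Stmt_SMJ := x_SMJ q_RJS q_GPS
theorem q_GS : Stmt_GS := x_GS
theorem q_D2G : Stmt_D2G := x_D2G
theorem q_D3G : Stmt_D3G := x_D3G
theorem q_EBG : Stmt_EBG := x_EBG
theorem q_E2G : Stmt_E2G := x_E2G
theorem q_FS1 : Stmt_FS1 := x_FS1
theorem q_FS2 : Stmt_FS2 := x_FS2 q_GS
theorem q_SM6 : Stmt_SM6 := x_SM6 q_D2G q_D3G q_EBG q_E2G q_E3G q_GS q_FS1 q_FS2
theorem q_C0W : Stmt_C0W := x_C0W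
theorem q_SECU : Stmt_SECU := x_SECU
theorem q_MKW : Stmt_MKW := x_MKW
theorem q_CUP : Stmt_CUP := x_CUP q_GS q_C0W q_SECU q_MKW
theorem q_CLO : Stmt_CLO := x_CLO q_GS q_C0W
theorem q_RULEC : Stmt_RULEC := x_RULEC q_SM6 q_CUP q_CLO
theorem q_MAINC : Stmt_MAINC := x_MAINC q_RULEC
theorem q_SEXC : Stmt_SEXC := x_SEXC q_GS q_MAINC
theorem q_MAIN7 : Stmt_MAIN7 := x_MAIN7 q_MAINS q_MAINB q_SMJ q_SEXC
theorem q_MAIN8 : Stmt_MAIN8 := x_MAIN8 q_GPS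
theorem q_CND : Stmt_CND := x_CND
theorem q_KBD : Stmt_KBD := x_KBD q_RULEC q_CND
theorem q_EOW : Stmt_EOW := x_EOW
theorem q_SECR : Stmt_SECR := x_SECR
theorem q_CUPR : Stmt_CUPR := x_CUPR q_GS q_MKW q_EOW q_SECR
theorem q_CLOR : Stmt_CLOR := x_CLOR q_GS q_EOW q_SECR
theorem q_RULR : Stmt_RULR := x_RULR q_CUPR q_CLOR
theorem q_MAINR : Stmt_MAINR := x_MAINR q_KBD q_RULR
theorem q_FFE : Stmt_FFE := x_FFE
theorem q_SECX : Stmt_SECX := x_SECX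
theorem q_PLC : Stmt_PLC := blk_PLC
theorem q_THX : Stmt_THX := x_THX q_FFE q_SECX q_PLC
theorem q_THF : Stmt_THF := x_THF q_THX
theorem q_LDX : Stmt_LDX := x_LDX q_FFE q_SECX
theorem q_CND2 : Stmt_CND2 := x_CND2
theorem q_CND6 : Stmt_CND6 := x_CND6
theorem q_WIN : Stmt_WIN := x_WIN
theorem q_WINA : Stmt_WINA := x_WINA q_CUPR q_LDX q_CND2 q_CND6 q_WIN
theorem q_LGX : Stmt_LGX := x_LGX q_GS q_EOW q_SECR
theorem q_EXB : Stmt_EXB := x_EXB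
theorem q_KUB : Stmt_KUB := x_KUB
theorem q_WINB : Stmt_WINB := x_WINB q_LDX q_LGX q_EXB q_KUB q_WIN
theorem q_REPS : Stmt_REPS := x_REPS
theorem q_TNZ1 : Stmt_TNZ1 := x_TNZ1
theorem q_K6A : Stmt_K6A := x_K6A q_REPS q_TNZ1
theorem q_K6B : Stmt_K6B := x_K6B q_KUB
theorem q_K6C : Stmt_K6C := x_K6C
theorem q_K60 : Stmt_K60 := x_K60 q_K6A q_K6B q_K6C
theorem q_MOMT1 : Stmt_MOMT1 := x_MOMT1 q_TNZ1
theorem q_PH2S : Stmt_PH2S := x_PH2S q_MOMT1 q_EXPR q_REPS q_TNZ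
theorem q_PHI6 : Stmt_PHI6 := x_PHI6 q_PH1 q_PH2S
theorem q_GP6 : Stmt_GP6 := x_GP6 q_CMPG q_PHI6
theorem q_MAINF : Stmt_MAINF := x_MAINF q_MAIN7 q_MAIN8 q_MAINR q_RULR q_THF q_WINA q_WINB q_K60 q_GP6
theorem q_TI3 : Stmt_TI3 := x_TI3
theorem q_PRM : Stmt_PRM := x_PRM
theorem q_TYP3 : Stmt_TYP3 := x_TYP3 q_MAINC q_TI3 q_PRM
theorem q_CANPG : Stmt_CANPG := x_CANPG
theorem q_UND : Stmt_UND := x_UND q_CANPG
theorem q_TIEG : Stmt_TIEG := x_TIEG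
theorem q_UNE : Stmt_UNE := x_UNE q_CANPG q_TIEG
theorem q_UNS : Stmt_UNS := x_UNS q_GS

end Pool.Agent.Work.MP_5532fa_up
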