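import Pool.Agent.Work.MP_5532fa_x.Interface8
import Pool.Agent.Work.MP_5532fa_x.B_LDX

/-!
# MP_5532fa_co, sixth round: block LDE, spectral radius of the graphs `WE` over balanced classes
-/

open Finset

namespace Pool.Agent.Work.MP_5532fa_up

open MP5532fa (specRad qf pE)

namespace X_LDE

/-- the pure inequality -/
private theorem core {r : ℕ} {K1 K2 N lam P ph F s σ Q j a : ℝ} (ha : 2 / 3 ≤ a) (ha1 : a < 1)
    (hK1 : 1 ≤ K1) (hK2 : 1 ≤ K2) (hN : 6 * K1 ≤ N) (hlam : |lam - a * N| ≤ K1)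
    (hP : P = N + (lam - a * N)) (hj0 : 0 ≤ j) (hj : j ≤ a * N) (hs : s = j - r) (hs0 : 0 ≤ s)
    (hσ : |σ| ≤ s) (hQ0 : 0 ≤ Q) (hQ : Q ≤ s ^ 2)
    (hF : |F - (s ^ 2 / (lam * P ^ 2) - 2 * s * σ / (lam * P ^ 3) + s ^ 3 / (lam ^ 3 * P ^ 2)
      - s ^ 2 * Q / (lam ^ 3 * P ^ 3))| ≤ K2 / N ^ 3)
    (hph : |ph + F| ≤ K1 / N ^ 3)
    (hph2 : |ph - (a * N - lam) / P| ≤ 32 * r / N ^ 2) :
    |lam - (a * N + a * (j / (a * N)) ^ 2)| ≤
      (2 * (K1 + K2 + 1410 + 32 * r) + 3 * r + 72 * K1) / N := by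
  have hl := abs_le.1 hlam
  have hr0 : (0 : ℝ) ≤ r := Nat.cast_nonneg r
  have hN6 : 6 ≤ N := by linarith
  have hN0 : 0 < N := by linarith
  have hl1 : N / 2 ≤ lam := by nlinarith
  have hl2 : lam ≤ 2 * N := by nlinarith
  have hl0 : 0 < lam := by linarith
  have hP1 : N / 2 ≤ P := by rw [hP]; linarith
  have hP2 : P ≤ 2 * N := by rw [hP]; linarith
  have hP0 : 0 < P := by linarith
  have hjN : j ≤ N := by nlinarith
  have hs2 : s ≤ 2 * N := by linarith
  have hss : s ^ 2 ≤ 4 * N ^ 2 := by nlinarith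
  have hlp : ∀ k l : ℕ, (N / 2) ^ k * (N / 2) ^ l ≤ lam ^ k * P ^ l := fun k l =>
    mul_le_mul (pow_le_pow_left₀ (by positivity) hl1 k) (pow_le_pow_left₀ (by positivity) hP1 l)
      (by positivity) (by positivity)
  have hσs : |s * σ| ≤ 4 * N ^ 2 := by
    rw [abs_mul, abs_of_nonneg hs0]
    nlinarith [abs_nonneg σ]
  -- the small terms
  have hT2 : |2 * s * σ / (lam * P ^ 3)| ≤ 128 / N ^ 2 := by
    rw [abs_div, abs_of_pos (by positivity : 0 < lam * P ^ 3)]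
    have h1 : |2 * s * σ| ≤ 8 * N ^ 2 := by
      have : 2 * s * σ = 2 * (s * σ) := by ring
      rw [this, abs_mul, abs_of_pos (by norm_num : (0 : ℝ) < 2)]
      linarith
    have h2 := hlp 1 3
    rw [pow_one, pow_one] at h2
    calc |2 * s * σ| / (lam * P ^ 3) ≤ (8 * N ^ 2) / (N / 2 * (N / 2) ^ 3) :=
          div_le_div₀ (by positivity) h1 (by positivity) h2
      _ = 128 / N ^ 2 := by field_simp; ring
  have hT3 : |s ^ 3 / (lam ^ 3 * P ^ 2)| ≤ 256 / N ^ 2 := by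
    rw [abs_of_nonneg (by positivity)]
    have h1 : s ^ 3 ≤ 8 * N ^ 3 := by
      have := pow_le_pow_left₀ hs0 hs2 3
      nlinarith
    calc s ^ 3 / (lam ^ 3 * P ^ 2) ≤ (8 * N ^ 3) / ((N / 2) ^ 3 * (N / 2) ^ 2) :=
          div_le_div₀ (by positivity) h1 (by positivity) (hlp 3 2)
      _ = 256 / N ^ 2 := by field_simp; ring
  have hT4 : |s ^ 2 * Q / (lam ^ 3 * P ^ 3)| ≤ 1024 / N ^ 2 := by
    rw [abs_of_nonneg (by positivity)]
    have h1 : s ^ 2 * Q ≤ (4 * N ^ 2) * (4 * N ^ 2) :=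
      mul_le_mul hss (hQ.trans hss) hQ0 (by positivity)
    calc s ^ 2 * Q / (lam ^ 3 * P ^ 3) ≤ ((4 * N ^ 2) * (4 * N ^ 2)) / ((N / 2) ^ 3 * (N / 2) ^ 3) :=
          div_le_div₀ (by positivity) h1 (by positivity) (hlp 3 3)
      _ = 1024 / N ^ 2 := by field_simp; ring
  have hN3 : ∀ K : ℝ, 0 ≤ K → K / N ^ 3 ≤ K / N ^ 2 := by
    intro K hK
    apply div_le_div_of_nonneg_left hK (by positivity)
    nlinarith [sq_nonneg N]
  have hK1' := hN3 K1 (by linarith)
  have hK2' := hN3 K2 (by linarith)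
  have hmain : |(a * N - lam) / P + s ^ 2 / (lam * P ^ 2)| ≤ (K1 + K2 + 1410 + 32 * r) / N ^ 2 := by
    have e1 : (K1 + K2 + 1410 + 32 * r) / N ^ 2 = K1 / N ^ 2 + K2 / N ^ 2 + 2 / N ^ 2 + 128 / N ^ 2
        + 256 / N ^ 2 + 1024 / N ^ 2 + 32 * r / N ^ 2 := by ring
    rw [e1]
    have a1 := abs_le.1 hF
    have a2 := abs_le.1 hph
    have a3 := abs_le.1 hph2
    have a4 := abs_le.1 hT2
    have a5 := abs_le.1 hT3
    have a6 := abs_le.1 hT4
    have a7 : 0 ≤ 2 / N ^ 2 := by positivity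
    rw [abs_le]
    constructor
    · linarith [a1.1, a1.2, a2.1, a2.2, a3.1, a3.2, a4.1, a4.2, a5.1, a5.2, a6.1, a6.2]
    · linarith [a1.1, a1.2, a2.1, a2.2, a3.1, a3.2, a4.1, a4.2, a5.1, a5.2, a6.1, a6.2]
  set C := K1 + K2 + 1410 + 32 * (r : ℝ) with hC
  have hC0 : 0 ≤ C := by positivity
  have hmain2 : |a * N - lam + s ^ 2 / (lam * P)| ≤ 2 * C / N := by
    have e1 : a * N - lam + s ^ 2 / (lam * P) =
        P * ((a * N - lam) / P + s ^ 2 / (lam * P ^ 2)) := by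
      field_simp
    rw [e1, abs_mul, abs_of_pos hP0]
    calc P * |(a * N - lam) / P + s ^ 2 / (lam * P ^ 2)| ≤ (2 * N) * (C / N ^ 2) :=
          mul_le_mul hP2 hmain (abs_nonneg _) (by positivity)
      _ = 2 * C / N := by field_simp
  have hlast : |s ^ 2 / (lam * P) - a * (j / (a * N)) ^ 2| ≤ (3 * r + 72 * K1) / N := by
    have ha0 : 0 < a := by linarith
    have e1 : s ^ 2 / (lam * P) - a * (j / (a * N)) ^ 2 =
        -(r * (2 * j - r)) / (a * N ^ 2)
          + s ^ 2 * (a * N ^ 2 - lam * P) / (lam * P * (a * N ^ 2)) := by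
      rw [hs]
      field_simp
      ring
    have h1 : |-(r * (2 * j - r)) / (a * N ^ 2)| ≤ 3 * r / N := by
      rw [abs_div, abs_of_pos (by positivity : 0 < a * N ^ 2), abs_neg, abs_mul,
        abs_of_nonneg hr0]
      have h2 : (r : ℝ) * |2 * j - r| ≤ r * (2 * N) := by
        refine mul_le_mul_of_nonneg_left ?_ hr0
        rw [abs_le]
        constructor <;> linarith
      have h3 : 2 / 3 * N ^ 2 ≤ a * N ^ 2 := by nlinarith [sq_nonneg N]
      calc r * |2 * j - r| / (a * N ^ 2) ≤ (r * (2 * N)) / (2 / 3 * N ^ 2) :=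
            div_le_div₀ (by positivity) h2 (by positivity) h3
        _ = 3 * r / N := by field_simp
    have h4 : |s ^ 2 * (a * N ^ 2 - lam * P) / (lam * P * (a * N ^ 2))| ≤ 72 * K1 / N := by
      rw [abs_div, abs_of_pos (by positivity : 0 < lam * P * (a * N ^ 2)), abs_mul,
        abs_of_nonneg (by positivity : 0 ≤ s ^ 2)]
      have h5 : |a * N ^ 2 - lam * P| ≤ 3 * K1 * N := by
        have e2 : a * N ^ 2 - lam * P = -(lam - a * N) * N + lam * (-(lam - a * N)) := by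
          rw [hP]; ring
        rw [e2]
        refine (abs_add_le _ _).trans ?_
        rw [abs_mul, abs_mul, abs_neg, abs_of_pos hN0, abs_of_pos hl0]
        nlinarith [abs_nonneg (lam - a * N)]
      have h6 : s ^ 2 * |a * N ^ 2 - lam * P| ≤ (4 * N ^ 2) * (3 * K1 * N) :=
        mul_le_mul hss h5 (abs_nonneg _) (by positivity)
      have h7 : N / 2 * (N / 2) * (2 / 3 * N ^ 2) ≤ lam * P * (a * N ^ 2) := by
        have h8 : N / 2 * (N / 2) ≤ lam * P := mul_le_mul hl1 hP1 (by positivity) (by positivity)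
        have h9 : 2 / 3 * N ^ 2 ≤ a * N ^ 2 := by nlinarith [sq_nonneg N]
        exact mul_le_mul h8 h9 (by positivity) (by positivity)
      calc s ^ 2 * |a * N ^ 2 - lam * P| / (lam * P * (a * N ^ 2))
          ≤ ((4 * N ^ 2) * (3 * K1 * N)) / (N / 2 * (N / 2) * (2 / 3 * N ^ 2)) :=
            div_le_div₀ (by positivity) h6 (by positivity) h7
        _ = 72 * K1 / N := by field_simp; ring
    rw [e1]
    refine (abs_add_le _ _).trans ?_
    have e3 : (3 * r + 72 * K1) / N = 3 * r / N + 72 * K1 / N := by ring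
    rw [e3]
    exact add_le_add h1 h4
  have e4 : (2 * C + 3 * r + 72 * K1) / N = 2 * C / N + (3 * r + 72 * K1) / N := by ring
  have e5 : lam - (a * N + a * (j / (a * N)) ^ 2) =
      -(a * N - lam + s ^ 2 / (lam * P)) + (s ^ 2 / (lam * P) - a * (j / (a * N)) ^ 2) := by ring
  rw [e4, e5]
  refine (abs_add_le _ _).trans ?_
  rw [abs_neg]
  exact add_le_add hmain2 hlast

end X_LDE

theorem x_LDE (hFFE : Stmt_FFE) (hSECX : Stmt_SECX) : Stmt_LDE := by
  intro r hr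
  obtain ⟨K1, N1, hK1, h1⟩ := hSECX r hr
  obtain ⟨K2, N2, hK2, h2⟩ := hFFE r K1 hr hK1
  have hr0 : (0 : ℝ) < r := by
    have : 0 < r := by omega
    exact_mod_cast this
  refine ⟨2 * (K1 + K2 + 1410 + 32 * r) + 3 * r + 72 * K1, max (max N1 N2) ⌈6 * K1⌉₊,
    by nlinarith, ?_⟩
  intro N hN j hj V _ G c H w u A B i0 hW hB hA
  have hN1 : N1 ≤ N := (le_max_left _ _).trans ((le_max_left _ _).trans hN)
  have hN2 : N2 ≤ N := (le_max_right _ _).trans ((le_max_left _ _).trans hN)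
  have hN3 : 6 * K1 ≤ N := (Nat.le_ceil _).trans (by exact_mod_cast (le_max_right _ _).trans hN)
  have : Nonempty V := ⟨w⟩
  obtain ⟨x, hx⟩ := exists_PV G
  obtain ⟨hlam, hsec⟩ := (h1 N hN1 V G x (specRad G) c H w A hx hB).2 u B i0 hW
  have hbal := X_LDX.bal_le hr hW.card hB
  have hbal' : ∀ i, |sz H c i - N / r| ≤ K1 := fun i => (hbal i).trans hK1
  have hAr : (A.card : ℝ) = j - r := by
    have : (A.card : ℝ) + r = j := by exact_mod_cast hA
    linarith
  have hsA : ∑ i, sz A c i = (j : ℝ) - r := by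
    rw [X_LDX.sum_sz1, hAr]
  have ha := al_ge hr
  have ha1 := al_lt hr
  have hj0 : (0 : ℝ) ≤ j := Nat.cast_nonneg j
  have hN0 : (0 : ℝ) < N := by linarith
  have hA0 : ∀ i, 0 ≤ sz A c i := fun i => Nat.cast_nonneg _
  have hA1 : ∀ i, sz A c i ≤ (j : ℝ) - r := fun i => by
    rw [← hsA]
    exact Finset.single_le_sum (f := fun i => sz A c i) (fun k _ => hA0 k) (Finset.mem_univ i)
  have hjN : (j : ℝ) ≤ N := by nlinarith
  have hA2 : ∀ i, sz A c i ≤ 2 * N := fun i => by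
    have := hA1 i
    linarith
  have hF := h2 N hN2 (specRad G) (sz H c) (sz A c) (∑ i, sz A c i)
    (∑ i, sz A c i * (sz H c i - N / r)) (∑ i, sz A c i ^ 2) (specRad G + N / r) hlam hbal'
    hA0 hA2 rfl rfl rfl rfl
  have hσ : |∑ i, sz A c i * (sz H c i - N / r)| ≤ ∑ i, sz A c i := by
    refine (Finset.abs_sum_le_sum_abs _ _).trans (Finset.sum_le_sum fun i _ => ?_)
    rw [abs_mul, abs_of_nonneg (hA0 i)]
    have := hbal i
    nlinarith [hA0 i]
  have hQ0 : 0 ≤ ∑ i, sz A c i ^ 2 := Finset.sum_nonneg fun i _ => sq_nonneg _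
  have hQ : ∑ i, sz A c i ^ 2 ≤ (∑ i, sz A c i) ^ 2 := by
    rw [sq (∑ i, sz A c i), Finset.sum_mul]
    refine Finset.sum_le_sum fun i _ => ?_
    rw [sq]
    exact mul_le_mul_of_nonneg_left
      (Finset.single_le_sum (f := fun i => sz A c i) (fun k _ => hA0 k) (Finset.mem_univ i)) (hA0 i)
  have hl := abs_le.1 hlam
  have hPe : specRad G + (N : ℝ) / r = N + (specRad G - al r * N) := by
    unfold al
    ring
  have hsH : ∑ i, sz H c i = (N : ℝ) := by rw [X_LDX.sum_sz1, hW.card]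
  have hph := X_LDX.Ph_exp (N := (N : ℝ)) (lam := specRad G) hr hbal hsH rfl (by linarith)
    (by nlinarith) (by nlinarith) (by rw [hPe]; nlinarith)
  exact X_LDE.core ha ha1 hK1 hK2 hN3 hlam hPe hj0 hj hsA (by
    rw [hsA, ← hAr]
    exact Nat.cast_nonneg _) hσ hQ0 hQ hF hsec hph

end Pool.Agent.Work.MP_5532fa_up
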