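import Pool.Agent.Work.MP_5532fa_x.Interface6

/-!
# Block WINB (helper52): extremal graphs over `N + 1` vertices, the second threshold
-/

open Finset

namespace Pool.Agent.Work.MP_5532fa_up

open MP5532fa (specRad qf pE)

namespace X_WINB

/-- class membership of the graphs `WD` over balanced classes -/
theorem wd_class {V : Type} [Fintype V] {r N j : ℕ} (hr : 3 ≤ r) (hN : 3 * r ≤ N)
    {G : SimpleGraph V} {H : Finset V} {c : V → Fin r} {w : V} {A : Finset V} {v1 v2 : V}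
    (hWD : WD G N H c w A v1 v2) (hA : A.card = j + 1) (hB : Bal H c) :
    G.CliqueFree (r + 1) ∧ ¬ G.Colorable r ∧ pE G = 2 * ((tn r N : ℝ) + j) := by
  obtain ⟨h1, h2, h3⟩ := pGD r hr V G N H c w A v1 v2 hWD
  refine ⟨h1, h2 ?_, ?_⟩
  · intro i
    by_contra hi
    push Not at hi
    have hk : ∀ k, (cl H c k).card ≤ 2 := fun k => by have := hB k i; omega
    have := sum_card_cl H c
    rw [hWD.card] at this
    have h4 : ∑ k, (cl H c k).card ≤ ∑ _k : Fin r, 2 := Finset.sum_le_sum fun k _ => hk k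
    simp only [Finset.sum_const, Finset.card_univ, Fintype.card_fin, smul_eq_mul] at h4
    omega
  · have h5 := sum_sq_bal pTN hr hWD.card hB
    rw [h3, hA]
    push_cast
    linarith

/-- the second moment -/
theorem mo2_eq {r : ℕ} (hr : 3 ≤ r) {m n : ℕ} {y : Fin r → ℕ} (hy : ∑ i, y i = n) :
    mo 2 n (re y) = RR r m n + 2 * kk m n y := by
  have hs : ∑ i, re y i = (n : ℝ) := by
    unfold re
    exact_mod_cast hy
  have h := mo_two hr hs
  rw [h]
  unfold RR kk al re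
  ring

/-- the power `3/2` -/
theorem pow32 {R T n κ S : ℝ} (hR : 0 ≤ R) (hS : 0 ≤ S) (hκ : 0 ≤ κ) (hST : S ≤ T)
    (hT : T = R + 2 * κ) (hn : 0 ≤ n) (hT5 : T ≤ 9 * n) :
    S * √S ≤ R * √R + 18 * κ * √n := by
  have hT0 : 0 ≤ T := by linarith
  have h1 : S * √S ≤ T * √T :=
    mul_le_mul hST (Real.sqrt_le_sqrt hST) (Real.sqrt_nonneg _) hT0
  have hs0 := Real.sqrt_nonneg T
  have ht0 := Real.sqrt_nonneg R
  have hn0 := Real.sqrt_nonneg n
  have hss := Real.mul_self_sqrt hT0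
  have htt := Real.mul_self_sqrt hR
  have hst : √R ≤ √T := Real.sqrt_le_sqrt (by linarith)
  have hs3 : √T ≤ 3 * √n := by
    have h2 : √T ≤ √(9 * n) := Real.sqrt_le_sqrt hT5
    have h3 : √(9 * n) = 3 * √n := by
      rw [show (9 : ℝ) * n = 3 ^ 2 * n by ring, Real.sqrt_mul (by norm_num),
        Real.sqrt_sq (by norm_num)]
    linarith
  obtain ⟨s, hs⟩ : ∃ s, s = √T := ⟨_, rfl⟩
  obtain ⟨t, ht⟩ : ∃ t, t = √R := ⟨_, rfl⟩
  rw [← hs] at h1 hs0 hss hst hs3
  rw [← ht] at ht0 htt hst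
  have h4 : T * s ≤ R * t + 6 * κ * s := by
    have e1 : T = s * s := hss.symm
    have e2 : R = t * t := htt.symm
    have e3 : 2 * κ = s * s - t * t := by rw [← e1, ← e2, hT]; ring
    have e4 : R * t + 6 * κ * s - T * s = (s - t) * (2 * s ^ 2 + 2 * s * t - t ^ 2) := by
      rw [e1, e2, show 6 * κ = 3 * (2 * κ) by ring, e3]; ring
    have h5 : 0 ≤ (s - t) * (2 * s ^ 2 + 2 * s * t - t ^ 2) := by
      apply mul_nonneg (by linarith)
      nlinarith
    linarith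
  have h6 : 6 * κ * s ≤ 6 * κ * (3 * √n) := mul_le_mul_of_nonneg_left hs3 (by linarith)
  rw [← ht]
  linarith

theorem kap_nonneg {r : ℕ} (hr : 3 ≤ r) : 0 ≤ kap r := by
  have hrr : (3 : ℝ) ≤ r := by exact_mod_cast hr
  unfold kap
  exact div_nonneg (by linarith) (Real.sqrt_nonneg _)

theorem gam_nonneg {r : ℕ} (hr : 3 ≤ r) : 0 ≤ gam r := by
  have hrr : (3 : ℝ) ≤ r := by exact_mod_cast hr
  unfold gam
  refine div_nonneg (mul_nonneg (by linarith) (by linarith)) (by positivity)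

/-- the size of `RR` -/
theorem RR_bd {r N j m n : ℕ} (hr : 3 ≤ r) (hN : 0 < N) (hmj : m = tn r N + j)
    (hlt : m < tn r (N + 1)) (hn : n = N + 1) :
    (r : ℝ) ≤ RR r m n ∧
      |RR r m n - 2 * al r * N * (1 - j / (al r * N))| ≤ 4 * r := by
  have hrr : (3 : ℝ) ≤ r := by exact_mod_cast hr
  have hNN : (0 : ℝ) < N := by exact_mod_cast hN
  have hal := al_ge hr
  have hal1 := al_lt hr
  have hal0 : 0 < al r := by linarith
  have t1 := (pTN r hr N).2.1
  have t2 := (pTN r hr (N + 1)).2.1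
  rw [abs_le] at t1 t2
  have hX : 2 * al r * N * (1 - j / (al r * N)) = 2 * al r * N - 2 * j := by
    field_simp
  have hm1 : (m : ℝ) + 1 ≤ (tn r (N + 1) : ℕ) := by exact_mod_cast hlt
  have hm2 : (m : ℝ) = (tn r N : ℝ) + j := by rw [hmj]; push_cast; ring
  rw [hX]
  unfold RR
  rw [hn]
  push_cast at t2 ⊢
  constructor
  · linarith only [t2.2, hm1]
  · rw [abs_le]
    have e : al r * ((N : ℝ) + 1) ^ 2 = al r * N ^ 2 + 2 * al r * N + al r := by ring
    rw [e, hm2]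
    constructor
    · linarith only [t1.1, t1.2, hal0, hrr]
    · linarith only [t1.1, t1.2, hal1, hrr]

end X_WINB

theorem x_WINB (hLDX : Stmt_LDX) (hLGX : Stmt_LGX) (hEXB : Stmt_EXB) (hKUB : Stmt_KUB)
    (hWIN : Stmt_WIN) : Stmt_WINB := by
  intro r hr
  have hrr : (3 : ℝ) ≤ r := by exact_mod_cast hr
  obtain ⟨KL, NL, hKL, HL⟩ := hLDX r hr
  obtain ⟨KG, nG, hKG, HG⟩ := hLGX r hr
  obtain ⟨NE, HE⟩ := hEXB r hr
  have hkap := X_WINB.kap_nonneg hr
  have hgam := X_WINB.gam_nonneg hr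
  obtain ⟨C, hC⟩ : ∃ C : ℝ, C = KL + KG + 18 * kap r + 4 * r := ⟨_, rfl⟩
  have hC1 : 1 ≤ C := by rw [hC]; linarith
  obtain ⟨K, NW, hK, HW⟩ := hWIN r C hr hC1
  obtain ⟨M, hM⟩ : ∃ M : ℕ, M = NL + nG + NE + NW + 6 * r := ⟨_, rfl⟩
  refine ⟨K, M ^ 2 + 1, hK, ?_⟩
  intro m hm N j n hmj hlt hn hX4 y c0 V _ G hG hy hdev hkk hF
  have hNM := large_N pTN hr M hm hlt
  have hN6 : 6 * r ≤ N := by omega
  have hN6' : 6 * (r : ℝ) ≤ N := by exact_mod_cast hN6
  have hN0 : (0 : ℝ) < N := by linarith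
  have hal := al_ge hr
  have hal1 := al_lt hr
  have hal0 : 0 < al r := by linarith
  have hsN : 0 ≤ √(N : ℝ) := Real.sqrt_nonneg _
  obtain ⟨κ, hκ⟩ : ∃ κ, κ = |kk m n y| := ⟨_, rfl⟩
  have hκ0 : 0 ≤ κ := by rw [hκ]; exact abs_nonneg _
  rw [← hκ] at hkk ⊢
  have hKN : 0 ≤ K * (1 + κ) / N := by positivity
  have hgN : 0 ≤ gam r / √(N : ℝ) := div_nonneg hgam hsN
  by_cases hXr : (j : ℝ) / (al r * N) ≤ 1 - 2 / r
  swap
  · push Not at hXr
    linarith
  have hjl := j_le pTN hr hmj hlt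
  obtain ⟨X, hX⟩ : ∃ X, X = (j : ℝ) / (al r * N) := ⟨_, rfl⟩
  rw [← hX] at hXr hX4 ⊢
  have halN : 0 < al r * N := by positivity
  have hjX : (j : ℝ) = X * (al r * N) := by rw [hX]; field_simp
  have hX1 : X ≤ 1 := by rw [hX, div_le_one halN]; exact hjl
  have hX0 : 0 ≤ X := by linarith
  -- the gadget over `N` vertices
  have hrj : r ≤ j + 1 := by
    have h1 : (1 / 4 : ℝ) * (al r * N) ≤ j := by
      rw [hjX]
      exact mul_le_mul_of_nonneg_right hX4 halN.le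
    have h2 : (r : ℝ) ≤ j := by
      have h3 : (2 / 3 : ℝ) * (6 * r) ≤ al r * N := mul_le_mul hal hN6' (by linarith) hal0.le
      linarith
    have h3 : r ≤ j := by exact_mod_cast h2
    omega
  have hj2 : (j : ℝ) ≤ (1 - 2 / r) * (al r * N) := by
    rw [hjX]
    exact mul_le_mul_of_nonneg_right hXr halN.le
  obtain ⟨G', H, c, w, A, v1, v2, hWD, hA, hB⟩ := HE N (by omega) j hrj hj2
  obtain ⟨g1, g2, g3⟩ := X_WINB.wd_class hr (by omega) hWD hA hB
  have hpE : 2 * (m : ℝ) = 2 * ((tn r N : ℝ) + j) := by rw [hmj]; push_cast; ring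
  have hle := hG.2.2.2 _ G' g1 g2 (g3.trans hpE.symm)
  have hld := HL N (by omega) j hjl _ G' c H w A v1 v2 hWD hB hA
  rw [← hX, abs_le] at hld
  have hlg := HG n (by omega) m y V G c0 hG.2.2.1 hy hdev (by rw [← hκ]; exact hkk) hF
  rw [← hκ, abs_le] at hlg
  -- the moments
  obtain ⟨hR3, hRb⟩ := X_WINB.RR_bd hr (by omega : 0 < N) hmj hlt hn
  rw [← hX] at hRb
  have hmo2 := X_WINB.mo2_eq (m := m) hr hy
  have hmo0 : 0 ≤ mo 2 n (re y) := by
    unfold mo
    exact Finset.sum_nonneg fun _ _ => sq_nonneg _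
  have hkub := hKUB r hr n (re y) (by unfold re; exact_mod_cast hy)
  obtain ⟨R, hR⟩ : ∃ R, R = RR r m n := ⟨_, rfl⟩
  rw [← hR] at hR3 hRb hmo2 hlg
  have hnr : (n : ℝ) = N + 1 := by rw [hn]; push_cast; ring
  have hn0 : (0 : ℝ) < n := by rw [hnr]; linarith
  have hn1 : (1 : ℝ) ≤ n := by rw [hnr]; linarith
  have hRn : R ≤ 3 * n := by
    have h1 := (abs_le.mp hRb).2
    have h2 : 2 * al r * N * (1 - X) ≤ 2 * N := by
      have h3 : al r * (1 - X) ≤ 1 * 1 := mul_le_mul hal1.le (by linarith) (by linarith) zero_le_one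
      have h4 : al r * (1 - X) * N ≤ 1 * 1 * N := mul_le_mul_of_nonneg_right h3 hN0.le
      linarith
    linarith
  have hsn1 : √(n : ℝ) ≤ n := by
    rw [Real.sqrt_le_left (by linarith)]
    nlinarith
  have h32 := X_WINB.pow32 (R := R) (T := R + 2 * κ) (n := n) (κ := κ) (S := mo 2 n (re y))
    (by linarith) hmo0 hκ0 (by rw [hmo2, hκ]; linarith [le_abs_self (kk m n y)]) rfl hn0.le
    (by linarith)
  have hmo3 : mo 3 n (re y) ≤ kap r * (R * √R) + 18 * kap r * κ * √(n : ℝ) := by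
    have h1 := mul_le_mul_of_nonneg_left h32 hkap
    linarith
  -- the difference
  obtain ⟨D, hD⟩ : ∃ D, D = al r * ((N : ℝ) + 1) - al r * R / ((N : ℝ) + 1)
    + al r * (kap r * (R * √R)) / ((N : ℝ) + 1) ^ 2 - (al r * N + al r * X ^ 2) := ⟨_, rfl⟩
  have hsn0 : 0 ≤ √(n : ℝ) := Real.sqrt_nonneg _
  have h3n : al r * mo 3 n (re y) / (n : ℝ) ^ 2
      ≤ al r * (kap r * (R * √R)) / (n : ℝ) ^ 2 + 18 * kap r * κ / N := by
    have h1 : al r * mo 3 n (re y) ≤ al r * (kap r * (R * √R)) + 18 * kap r * κ * √(n : ℝ) := by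
      have h2 := mul_le_mul_of_nonneg_left hmo3 hal0.le
      have h3 : al r * (18 * kap r * κ * √(n : ℝ)) ≤ 1 * (18 * kap r * κ * √(n : ℝ)) :=
        mul_le_mul_of_nonneg_right hal1.le (by positivity)
      linarith
    have h2 : al r * mo 3 n (re y) / (n : ℝ) ^ 2
        ≤ (al r * (kap r * (R * √R)) + 18 * kap r * κ * √(n : ℝ)) / (n : ℝ) ^ 2 :=
      div_le_div_of_nonneg_right h1 (by positivity)
    refine h2.trans ?_
    rw [add_div]
    have h4 : 18 * kap r * κ * √(n : ℝ) / (n : ℝ) ^ 2 ≤ 18 * kap r * κ / N := by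
      rw [div_le_div_iff₀ (by positivity) hN0]
      have h5 : √(n : ℝ) * N ≤ (n : ℝ) ^ 2 := by
        have h6 : (N : ℝ) ≤ n := by rw [hnr]; linarith
        have h7 := mul_le_mul hsn1 h6 hN0.le hn0.le
        linarith
      have h8 := mul_le_mul_of_nonneg_left h5 (by positivity : 0 ≤ 18 * kap r * κ)
      linarith
    linarith
  have hDge : -(C * (1 + κ) / N) ≤ D := by
    have h1 : KG * (1 + κ) / n ≤ KG * (1 + κ) / N :=
      div_le_div_of_nonneg_left (by positivity) hN0 (by rw [hnr]; linarith)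
    have h2 : KL / N ≤ KL * (1 + κ) / N := by
      apply div_le_div_of_nonneg_right _ hN0.le
      nlinarith
    have h3 : 18 * kap r * κ / N ≤ 18 * kap r * (1 + κ) / N := by
      apply div_le_div_of_nonneg_right _ hN0.le
      nlinarith
    have h4 : 0 ≤ 4 * r * (1 + κ) / (N : ℝ) := by positivity
    have h5 : C * (1 + κ) / N = KL * (1 + κ) / N + KG * (1 + κ) / N + 18 * kap r * (1 + κ) / N
        + 4 * r * (1 + κ) / N := by
      rw [hC]; ring
    rw [h5, hD, ← hnr]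
    rw [← hnr] at *
    linarith [hld.1, hlg.2, hle]
  have hfin := (HW N (by omega) X R κ D hX0 hX1 (by linarith) (by
      refine hRb.trans ?_
      rw [hC]; linarith) hκ0 (by
      refine hkk.trans ?_
      have h1 : √(n : ℝ) ≤ √((2 : ℝ) ^ 2 * N) := Real.sqrt_le_sqrt (by rw [hnr]; linarith)
      rw [Real.sqrt_mul (by norm_num), Real.sqrt_sq (by norm_num)] at h1
      have h2 : 2 * √(N : ℝ) ≤ C * √(N : ℝ) := by
        apply mul_le_mul_of_nonneg_right _ hsN
        rw [hC]; linarith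
      linarith) hD).2 hDge
  exact hfin

end Pool.Agent.Work.MP_5532fa_up
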