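import Pool.Agent.Work.MP_5532fa_x.Interface8
import Pool.Agent.Work.MP_5532fa_x.B_WINB

/-!
# Block MAINV (helper83): the value of the maximum
-/

open Finset

namespace Pool.Agent.Work.MP_5532fa_up

open MP5532fa (specRad qf pE)

namespace X_MAINV

theorem er_ge {r N : ℕ} (hN : 1 ≤ N) : 1 ≤ er r N := by
  unfold er
  split_ifs
  · exact le_refl _
  · have h1 : (1 : ℝ) ≤ N := by exact_mod_cast hN
    rw [Real.one_le_sqrt, Real.one_le_sqrt]
    exact h1

theorem Va_bd {r N j : ℕ} (hr : 3 ≤ r) (hN : 1 ≤ N) (hj : (j : ℝ) ≤ al r * N) :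
    al r * N ≤ Va r N j ∧ Va r N j ≤ al r * N + 1 := by
  have hal := al_ge hr
  have hal1 := al_lt hr
  have hal0 : 0 < al r := by linarith
  have hN0 : (0 : ℝ) < N := by exact_mod_cast hN
  have h0 : 0 < al r * N := mul_pos hal0 hN0
  have hX1 : (j : ℝ) / (al r * N) ≤ 1 := by
    rw [div_le_one h0]
    exact hj
  have hX0 : 0 ≤ (j : ℝ) / (al r * N) := by positivity
  have hX2 : ((j : ℝ) / (al r * N)) ^ 2 ≤ 1 := pow_le_one₀ hX0 hX1
  have hX3 : 0 ≤ ((j : ℝ) / (al r * N)) ^ 2 := sq_nonneg _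
  unfold Va
  constructor
  · have := mul_nonneg hal0.le hX3
    linarith
  · have := mul_le_mul hal1.le hX2 hX3 zero_le_one
    linarith

theorem Va_small {r N j : ℕ} (hr : 3 ≤ r) (hN : 1 ≤ N) (hj : j ≤ 2 * r) :
    |al r * N - Va r N j| ≤ 6 * (r : ℝ) ^ 2 / N := by
  have hal := al_ge hr
  have hal0 : 0 < al r := by linarith
  have hN1 : (1 : ℝ) ≤ N := by exact_mod_cast hN
  have hN0 : (0 : ℝ) < N := by linarith
  have hjr : (j : ℝ) ≤ 2 * r := by exact_mod_cast hj
  have hj0 : (0 : ℝ) ≤ j := Nat.cast_nonneg j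
  have h1 : al r * N - Va r N j = -(al r * ((j : ℝ) / (al r * N)) ^ 2) := by
    unfold Va
    ring
  rw [h1, abs_neg, abs_of_nonneg (by positivity)]
  have h2 : al r * ((j : ℝ) / (al r * N)) ^ 2 = (j : ℝ) ^ 2 / (al r * N ^ 2) := by
    field_simp
  rw [h2, div_le_div_iff₀ (by positivity) hN0]
  have h3 : (j : ℝ) ^ 2 ≤ (2 * r) ^ 2 := pow_le_pow_left₀ hj0 hjr 2
  have h4 : (N : ℝ) ≤ N ^ 2 := by nlinarith
  have h5 : 6 * (r : ℝ) ^ 2 * (2 / 3 * N ^ 2) ≤ 6 * (r : ℝ) ^ 2 * (al r * N ^ 2) :=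
    mul_le_mul_of_nonneg_left (mul_le_mul_of_nonneg_right hal (by positivity)) (by positivity)
  have h6 : (j : ℝ) ^ 2 * N ≤ (2 * r) ^ 2 * N ^ 2 :=
    mul_le_mul h3 h4 hN0.le (by positivity)
  nlinarith

/-- forms over `N` vertices with few more edges than the Turan graph -/
theorem form_small (hVSM : Stmt_VSM) (r : ℕ) (hr : 3 ≤ r) : ∃ (K : ℝ) (n0 : ℕ), 1 ≤ K ∧
    ∀ N ≥ n0, 1 ≤ N → ∀ (m j : ℕ) (y : Fin r → ℕ) (V : Type) [Fintype V] (G : SimpleGraph V)
      (c0 : ℝ), m = tn r N + j → j ≤ 2 * r → pE G = 2 * (m : ℝ) → ∑ i, y i = N →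
      |kk m N y| ≤ 4 * r → FormC m N y G c0 → |specRad G - Va r N j| ≤ K / N := by
  have hrr : (3 : ℝ) ≤ r := by exact_mod_cast hr
  obtain ⟨K, n0, hK, H⟩ := hVSM r hr
  refine ⟨K + 6 * (r : ℝ) ^ 2, n0, by nlinarith [sq_nonneg (r : ℝ)], ?_⟩
  intro N hN hN1 m j y V _ G c0 hm hj hE hy hk hF
  have hN0 : (0 : ℝ) < N := by exact_mod_cast hN1
  have hmo := X_WINB.mo2_eq (m := m) hr hy
  have ht := abs_le.mp (pTN r hr N).2.1
  have hka := abs_le.mp hk
  have hmo2 : mo 2 N (re y) ≤ (4 * (r : ℝ)) ^ 2 := by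
    rw [hmo]
    have h1 : RR r m N ≤ 3 * r := by
      unfold RR
      have hj0 : (0 : ℝ) ≤ j := Nat.cast_nonneg j
      have hm' : (m : ℝ) = (tn r N : ℝ) + j := by rw [hm]; push_cast; ring
      rw [hm']
      linarith [ht.1]
    nlinarith [hka.2]
  have hdev : ∀ i, |(y i : ℝ) - N / r| ≤ 4 * r := by
    intro i
    apply abs_le_of_sq_le_sq _ (by positivity)
    refine le_trans ?_ hmo2
    unfold mo
    exact Finset.single_le_sum (f := fun i => (re y i - (N : ℝ) / r) ^ 2)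
      (fun _ _ => sq_nonneg _) (Finset.mem_univ i)
  have h1 := H N hN m y V G c0 hE hy hdev hk hF
  have h2 := Va_small hr hN1 hj
  have h3 := abs_add_le (specRad G - al r * N) (al r * N - Va r N j)
  have h4 : specRad G - al r * N + (al r * N - Va r N j) = specRad G - Va r N j := by ring
  rw [h4] at h3
  rw [add_div]
  linarith

/-- the number `kk` of a graph `WE` -/
theorem kk_WE {V : Type} [Fintype V] {r n m : ℕ} (hr : 3 ≤ r) {G : SimpleGraph V}
    {H : Finset V} {c : V → Fin r} {w u : V} {A B : Finset V} {i0 : Fin r}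
    (hE : pE G = 2 * (m : ℝ)) (hW : WE G n H c w u A B i0) :
    kk m n (fun i => (cl H c i).card) = A.card + 1 := by
  have h1 := (pGE r hr V G n H c w u A B i0 hW).2.2
  rw [hE] at h1
  have h3 : ∑ i, sz H c i ^ 2 = ∑ i, (((cl H c i).card : ℕ) : ℝ) ^ 2 := rfl
  unfold kk
  rw [← h3]
  linarith

/-- forms over `N + 1` vertices -/
theorem upper_case (hLGX : Stmt_LGX) (hVLA : Stmt_VLA) (hVUB : Stmt_VUB) (hVAB : Stmt_VAB)
    (r : ℕ) (hr : 3 ≤ r) (K8 : ℝ) (hK8 : 1 ≤ K8) : ∃ (C : ℝ) (m0 : ℕ), 1 ≤ C ∧ ∀ m ≥ m0,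
    ∀ N j n : ℕ, m = tn r N + j → m < tn r (N + 1) → n = N + 1 →
    ∀ (y : Fin r → ℕ) (c0 : ℝ) (V : Type) [Fintype V] (G : SimpleGraph V), Ext r m G →
    ∑ i, y i = n → (∀ i, |(y i : ℝ) - n / r| ≤ 2 * √(n : ℝ)) → |kk m n y| ≤ √(n : ℝ) →
    FormC m n y G c0 →
    1 - 2 / r - gam r / √(N : ℝ) - K8 * (1 + |kk m n y|) / N ≤ (j : ℝ) / (al r * N) →
    |specRad G - al r * n| ≤ C ∧ specRad G ≤ Vb r m n + C * (1 + |kk m n y|) / N ∧
      (Va r N j ≤ specRad G + C / N ∨ Va r N j ≤ Vb r m n + C / N) := by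
  have hrr : (3 : ℝ) ≤ r := by exact_mod_cast hr
  obtain ⟨KG, nG, hKG, HG⟩ := hLGX r hr
  obtain ⟨KA, mA, hKA, HA⟩ := hVLA r hr
  obtain ⟨KU, mU, hKU, HU⟩ := hVUB r hr
  obtain ⟨KB, nB, hKB, HB⟩ := hVAB r hr
  have hgam := X_WINB.gam_nonneg hr
  obtain ⟨b1, b2⟩ := X_MAINR.two_div hr
  have hal := al_ge hr
  have hal1 := al_lt hr
  have hal0 : 0 < al r := by linarith
  obtain ⟨T, hT⟩ : ∃ T : ℝ, T = 72 * K8 + 24 * gam r := ⟨_, rfl⟩
  have hT0 : 0 < T := by rw [hT]; linarith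
  obtain ⟨M, hM⟩ : ∃ M : ℕ, M = nG + nB + 6 * r + ⌈T ^ 2⌉₊ + 1 := ⟨_, rfl⟩
  refine ⟨2 * KG + 3 + 8 * r + KA + KU + KB, mA + mU + M ^ 2 + 1, by linarith, ?_⟩
  intro m hm N j n hmj hlt hn y c0 V _ G hG hy hdev hkk hF hX
  have hNM := large_N pTN hr M (by omega) hlt
  have hN6 : 6 * r ≤ N := by omega
  have hN6' : 6 * (r : ℝ) ≤ N := by exact_mod_cast hN6
  have hN0 : (0 : ℝ) < N := by linarith
  have hnr : (n : ℝ) = N + 1 := by rw [hn]; push_cast; ring
  have hn0 : (0 : ℝ) < n := by rw [hnr]; linarith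
  have hn1 : (1 : ℝ) ≤ n := by rw [hnr]; linarith
  have hsn1 : √(n : ℝ) ≤ n := by
    rw [Real.sqrt_le_left (by linarith)]
    nlinarith
  have hsn0 : 0 ≤ √(n : ℝ) := Real.sqrt_nonneg _
  have hjl := j_le pTN hr hmj hlt
  have halN : 0 < al r * N := by positivity
  obtain ⟨X, hXd⟩ : ∃ X, X = (j : ℝ) / (al r * N) := ⟨_, rfl⟩
  rw [← hXd] at hX
  have hjX : (j : ℝ) = X * (al r * N) := by rw [hXd]; field_simp
  have hX1 : X ≤ 1 := by rw [hXd, div_le_one halN]; exact hjl
  have hX0 : 0 ≤ X := by rw [hXd]; positivity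
  obtain ⟨κ, hκ⟩ : ∃ κ, κ = |kk m n y| := ⟨_, rfl⟩
  have hκ0 : 0 ≤ κ := by rw [hκ]; exact abs_nonneg _
  have hkk' := hkk
  rw [← hκ] at hkk' hX ⊢
  have hle : ∀ x : ℝ, 0 ≤ x → x ≤ 2 * KG + 3 + 8 * r + KA + KU + KB →
      x / N ≤ (2 * KG + 3 + 8 * r + KA + KU + KB) / N :=
    fun x _ h => div_le_div_of_nonneg_right h hN0.le
  refine ⟨?_, ?_, ?_⟩
  · -- a priori bound
    have hlg := HG n (by omega) m y V G c0 hG.2.2.1 hy hdev hkk hF
    rw [← hκ] at hlg
    obtain ⟨hR3, hRb⟩ := X_WINB.RR_bd hr (by omega : 0 < N) hmj hlt hn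
    rw [← hXd] at hRb
    have h1 : KG * (1 + κ) / n ≤ 2 * KG := by
      rw [div_le_iff₀ hn0]
      have h2 : 1 + κ ≤ 2 * n := by linarith
      nlinarith
    have hRn : RR r m n ≤ 3 * n := by
      have h1 := (abs_le.mp hRb).2
      have h2 : 2 * al r * N * (1 - X) ≤ 2 * N := by
        have h3 : al r * (1 - X) ≤ 1 * 1 :=
          mul_le_mul hal1.le (by linarith) (by linarith) zero_le_one
        have h4 : al r * (1 - X) * N ≤ 1 * 1 * N := mul_le_mul_of_nonneg_right h3 hN0.le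
        linarith
      linarith
    have h2 : |al r * RR r m n / n| ≤ 3 := by
      rw [abs_of_nonneg (div_nonneg (mul_nonneg hal0.le (by linarith)) hn0.le),
        div_le_iff₀ hn0]
      have h3 : al r * RR r m n ≤ 1 * (3 * n) :=
        mul_le_mul hal1.le hRn (by linarith) zero_le_one
      linarith
    have h3 : |mo 3 n (re y)| ≤ 8 * r * (n : ℝ) ^ 2 := by
      unfold mo
      refine (Finset.abs_sum_le_sum_abs _ _).trans ?_
      have h4 : ∀ i ∈ (Finset.univ : Finset (Fin r)),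
          |(re y i - (n : ℝ) / r) ^ 3| ≤ 8 * (n : ℝ) ^ 2 := by
        intro i _
        rw [abs_pow]
        have h5 : |re y i - (n : ℝ) / r| ^ 3 ≤ (2 * √(n : ℝ)) ^ 3 :=
          pow_le_pow_left₀ (abs_nonneg _) (hdev i) 3
        have h6 : (2 * √(n : ℝ)) ^ 3 = 8 * (√(n : ℝ) * √(n : ℝ)) * √(n : ℝ) := by ring
        rw [h6, Real.mul_self_sqrt hn0.le] at h5
        refine h5.trans ?_
        have h7 : 8 * (n : ℝ) * √(n : ℝ) ≤ 8 * (n : ℝ) * n :=
          mul_le_mul_of_nonneg_left hsn1 (by positivity)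
        linarith
      refine (Finset.sum_le_sum h4).trans ?_
      rw [Finset.sum_const, Finset.card_univ, Fintype.card_fin, nsmul_eq_mul]
      apply le_of_eq
      ring
    have h4 : |al r * mo 3 n (re y) / (n : ℝ) ^ 2| ≤ 8 * r := by
      rw [abs_div, abs_of_pos (by positivity : (0 : ℝ) < (n : ℝ) ^ 2),
        div_le_iff₀ (by positivity), abs_mul, abs_of_pos hal0]
      have h5 := mul_le_mul hal1.le h3 (abs_nonneg _) zero_le_one
      linarith
    have e1 := abs_le.mp hlg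
    have e2 := abs_le.mp h2
    have e3 := abs_le.mp h4
    rw [abs_le]
    constructor
    · linarith [e1.1, e1.2, e2.1, e2.2, e3.1, e3.2]
    · linarith [e1.1, e1.2, e2.1, e2.2, e3.1, e3.2]
  · have h1 := HU m (by omega) N j n hmj hlt hn y c0 V G hG hy hdev hkk hF
    rw [← hκ] at h1
    have h2 : KU * (1 + κ) / N ≤ (2 * KG + 3 + 8 * r + KA + KU + KB) * (1 + κ) / N := by
      apply div_le_div_of_nonneg_right _ hN0.le
      apply mul_le_mul_of_nonneg_right _ (by linarith)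
      linarith
    linarith
  · by_cases hj : (j : ℝ) ≤ (1 - 2 / r) * (al r * N)
    · left
      -- `X` is not small
      have hsN : T ≤ √(N : ℝ) := by
        apply Real.le_sqrt_of_sq_le
        have h1 : T ^ 2 ≤ (⌈T ^ 2⌉₊ : ℝ) := Nat.le_ceil _
        have h2 : ((⌈T ^ 2⌉₊ : ℕ) : ℝ) ≤ (N : ℝ) := by
          exact_mod_cast (by omega : ⌈T ^ 2⌉₊ ≤ N)
        exact h1.trans h2
      have hsN0 : 0 < √(N : ℝ) := by linarith
      have hss : √(N : ℝ) * √(N : ℝ) = N := Real.mul_self_sqrt hN0.le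
      have hs72 : 1 ≤ √(N : ℝ) := by linarith
      have h1 : gam r / √(N : ℝ) ≤ 1 / 24 := by
        rw [div_le_div_iff₀ hsN0 (by norm_num)]
        linarith
      have h2 : K8 * (1 + κ) / N ≤ 1 / 24 := by
        have h3 : √(n : ℝ) ≤ 2 * √(N : ℝ) := by
          have h4 : √(n : ℝ) ≤ √((2 : ℝ) ^ 2 * N) := Real.sqrt_le_sqrt (by rw [hnr]; linarith)
          rw [Real.sqrt_mul (by norm_num), Real.sqrt_sq (by norm_num)] at h4
          exact h4
        have h4 : 1 + κ ≤ 3 * √(N : ℝ) := by linarith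
        rw [div_le_div_iff₀ hN0 (by norm_num)]
        have h5 : K8 * (1 + κ) ≤ K8 * (3 * √(N : ℝ)) :=
          mul_le_mul_of_nonneg_left h4 (by linarith)
        have h6 : 72 * K8 * √(N : ℝ) ≤ √(N : ℝ) * √(N : ℝ) :=
          mul_le_mul_of_nonneg_right (by linarith) hsN0.le
        linarith
      have hX4 : 1 / 4 ≤ X := by linarith
      have hrj : r ≤ j + 1 := by
        have h3 : (1 / 4 : ℝ) * (al r * N) ≤ j := by
          rw [hjX]
          exact mul_le_mul_of_nonneg_right hX4 halN.le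
        have h4 : (r : ℝ) ≤ j := by
          have h5 : (2 / 3 : ℝ) * (6 * r) ≤ al r * N := mul_le_mul hal hN6' (by linarith) hal0.le
          linarith
        have h5 : r ≤ j := by exact_mod_cast h4
        omega
      have h3 := HA m (by omega) N j hmj hlt hrj hj V G hG
      have h4 := hle KA (by linarith) (by linarith)
      linarith
    · right
      push Not at hj
      have h3 := HB N (by omega) m j hmj hlt hj.le
      have h4 := hle KB (by linarith) (by linarith)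
      rw [hn]
      linarith

end X_MAINV

theorem x_MAINV (hMF : Stmt_MAINF) (hLDX : Stmt_LDX) (hLDE : Stmt_LDE) (hLGX : Stmt_LGX)
    (hVLB : Stmt_VLB) (hVLA : Stmt_VLA) (hVUB : Stmt_VUB) (hVSM : Stmt_VSM) (hVAB : Stmt_VAB)
    (hGS : Stmt_GS) : Stmt_MAINV := by
  intro r hr
  have hrr : (3 : ℝ) ≤ r := by exact_mod_cast hr
  have hal := al_ge hr
  have hal1 := al_lt hr
  have hal0 : 0 < al r := by linarith
  obtain ⟨K8, κ8, m8, hK8, -, H8⟩ := hMF r hr
  obtain ⟨KD, nD, hKD, HD⟩ := hLDX r hr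
  obtain ⟨KE, nE, hKE, HE⟩ := hLDE r hr
  obtain ⟨KS, nS, hKS, HS⟩ := X_MAINV.form_small hVSM r hr
  obtain ⟨KC, mC, hKC, HC⟩ := X_MAINV.upper_case hLGX hVLA hVUB hVAB r hr K8 hK8
  obtain ⟨CA, hCA⟩ : ∃ CA : ℝ, CA = KD + KE + KS := ⟨_, rfl⟩
  have hCA1 : 1 ≤ CA := by linarith
  obtain ⟨B, hB⟩ : ∃ B : ℝ, B = CA + 1 + KC := ⟨_, rfl⟩
  obtain ⟨KL, mL, hKL, HL⟩ := hVLB r B hr (by linarith)
  obtain ⟨M, hM⟩ : ∃ M : ℕ, M = nD + nE + nS + 2 * r + ⌈K8 ^ 4⌉₊ + 1 := ⟨_, rfl⟩
  refine ⟨CA + KL + KC * (1 + 2 * K8), m8 + mC + mL + M ^ 2 + 1, ?_, ?_⟩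
  · have : 0 ≤ KC * (1 + 2 * K8) := by positivity
    linarith
  intro m hm N j hmj hlt V _ G hG
  have hNM := large_N pTN hr M (by omega) hlt
  have hN1 : 1 ≤ N := by omega
  have hN1' : (1 : ℝ) ≤ N := by exact_mod_cast hN1
  have hN0 : (0 : ℝ) < N := by linarith
  have her := X_MAINV.er_ge (r := r) hN1
  have hjl := j_le pTN hr hmj hlt
  obtain ⟨hV1, hV2⟩ := X_MAINV.Va_bd hr hN1 hjl
  have hFm := H8 m (by omega) N j hmj hlt V G hG
  have hKC0 : 0 ≤ KC * (1 + 2 * K8) := by positivity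
  -- the two kinds of cases
  have key : |specRad G - Va r N j| ≤ CA / N ∨
      (|specRad G - al r * ((N + 1 : ℕ) : ℝ)| ≤ KC ∧
        specRad G ≤ Vb r m (N + 1) + KC * ((1 + 2 * K8) * er r N) / N ∧
        (Va r N j ≤ specRad G + KC / N ∨ Va r N j ≤ Vb r m (N + 1) + KC / N)) := by
    have hup : ∀ (y : Fin r → ℕ) (c0 : ℝ), ∑ i, y i = N + 1 →
        (∀ i, |(y i : ℝ) - ((N + 1 : ℕ) : ℝ) / r| ≤ 2 * √((N + 1 : ℕ) : ℝ)) →
        |kk m (N + 1) y| ≤ √((N + 1 : ℕ) : ℝ) → FormC m (N + 1) y G c0 →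
        1 - 2 / r - gam r / √(N : ℝ) - K8 * (1 + |kk m (N + 1) y|) / N ≤ (j : ℝ) / (al r * N) →
        1 + |kk m (N + 1) y| ≤ (1 + 2 * K8) * er r N →
        (|specRad G - al r * ((N + 1 : ℕ) : ℝ)| ≤ KC ∧
          specRad G ≤ Vb r m (N + 1) + KC * ((1 + 2 * K8) * er r N) / N ∧
          (Va r N j ≤ specRad G + KC / N ∨ Va r N j ≤ Vb r m (N + 1) + KC / N)) := by
      intro y c0 hy hdev hk hF hX he
      obtain ⟨h1, h2, h3⟩ := HC m (by omega) N j (N + 1) hmj hlt rfl y c0 V G hG hy hdev hk hF hX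
      refine ⟨h1, ?_, h3⟩
      have h4 : KC * (1 + |kk m (N + 1) y|) / N ≤ KC * ((1 + 2 * K8) * er r N) / N :=
        div_le_div_of_nonneg_right (mul_le_mul_of_nonneg_left he (by linarith)) hN0.le
      linarith
    have hsm : ∀ x : ℝ, x ≤ CA → x / N ≤ CA / N :=
      fun x h => div_le_div_of_nonneg_right h hN0.le
    rcases hFm with ⟨h1, -, h2⟩ | ⟨h1, h2⟩ | ⟨-, -, h1, -, -⟩ | ⟨h1, h2⟩ | ⟨-, h1, -⟩ |
      ⟨h6, h1, h2⟩ | ⟨h6, n, y, c0, hn, hy, hdev, hk, hF, -, hX, -⟩
    · -- gadgets over `N` vertices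
      left
      obtain ⟨H, c, w, A, v1, v2, hW, hA, hT, -⟩ := h2
      obtain ⟨hk, hF⟩ := X_MAINF.gad_formC hr hG.2.2.1 hW hA hT
      have h3 := HS N (by omega) hN1 m j (fun i => (cl H c i).card) V G 0 hmj (by omega) hG.2.2.1
        ((sum_card_cl H c).trans hW.card) (by rw [hk, abs_zero]; positivity) hF
      exact h3.trans (hsm KS (by linarith))
    · left
      obtain ⟨H, c, w, T, L, p, q, hW, hL, -, hqp, hlast⟩ := h2
      have hk : kk m N (fun i => (cl H c i).card) = -1 := by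
        have h3 := (hGS r hr V G N H c w T L p q hW).2.2.2.2
        rw [hG.2.2.1, hL] at h3
        have h4 : ∑ i, sz H c i ^ 2 = ∑ i, (((cl H c i).card : ℕ) : ℝ) ^ 2 := rfl
        push_cast at h3
        unfold kk
        rw [← h4]
        linarith
      have hF : FormC m N (fun i => (cl H c i).card) G
          (-(2 * kk m N (fun i => (cl H c i).card) / ((r : ℝ) - 1))) :=
        Or.inr (Or.inr ⟨⟨H, c, w, T, L, p, q, hW, fun _ => rfl, by omega, hqp, hlast⟩,
          by rw [hk], rfl⟩)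
      have hj0 : j ≤ 2 * r := by
        have := h1.1
        omega
      have h3 := HS N (by omega) hN1 m j (fun i => (cl H c i).card) V G _ hmj hj0 hG.2.2.1
        ((sum_card_cl H c).trans hW.card)
        (by rw [hk, abs_neg, abs_one]; linarith) hF
      exact h3.trans (hsm KS (by linarith))
    · left
      obtain ⟨H, c, w, A, v1, v2, hW, hA, hBl, -, -⟩ := h1
      have h3 := HD N (by omega) j hjl V G c H w A v1 v2 hW hBl hA
      exact h3.trans (hsm KD (by linarith))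
    · left
      obtain ⟨H, c, w, u, A, Bs, i0, hW, hO, hA, hT, -, -⟩ := h2
      have hcard : ∀ i, i ≠ i0 → (cl A c i).card = 1 := by
        have hge : ∀ i ∈ (Finset.univ : Finset (Fin r)),
            (if i = i0 then 0 else 1) ≤ (cl A c i).card := by
          intro i _
          split_ifs with h
          · exact Nat.zero_le _
          · exact Finset.card_pos.mpr (hW.hAne i h)
        have hsum : ∑ i : Fin r, (if i = i0 then 0 else 1) = ∑ i, (cl A c i).card := by
          rw [sum_card_cl]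
          have h3 : ∑ i : Fin r, (if i = i0 then 0 else 1) = r - 1 := by
            have h4 : ∑ i : Fin r, (if i = i0 then 0 else 1)
                = ∑ i ∈ Finset.univ.erase i0, 1 := by
              rw [← Finset.sum_erase_add _ _ (Finset.mem_univ i0), if_pos rfl, add_zero]
              refine Finset.sum_congr rfl fun i hi => ?_
              rw [if_neg (Finset.ne_of_mem_erase hi)]
            rw [h4, Finset.sum_const, Finset.card_erase_of_mem (Finset.mem_univ _),
              Finset.card_univ, Fintype.card_fin]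
            simp
          omega
        intro i hi
        have h5 := ((Finset.sum_eq_sum_iff_of_le hge).mp hsum i (Finset.mem_univ i)).symm
        rw [if_neg hi] at h5
        exact h5
      have hP : Place H A c {i0} := by
        intro i k hi hk
        rw [Finset.mem_singleton] at hi hk
        rw [hcard i hi, hcard k hk]
        exact ⟨fun _ => by omega, fun _ => Or.inr rfl⟩
      have hk0 := X_MAINV.kk_WE hr hG.2.2.1 hW
      have hk : kk m N (fun i => (cl H c i).card) = r := by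
        rw [hk0]
        exact_mod_cast hA
      have hF : FormC m N (fun i => (cl H c i).card) G
          (2 * kk m N (fun i => (cl H c i).card) - 2 - 2 / ((r : ℝ) - 1)) :=
        Or.inr (Or.inl ⟨⟨H, c, w, u, A, Bs, i0, hW, fun _ => rfl, hO, hP, hT⟩,
          by rw [hk], rfl⟩)
      have h3 := HS N (by omega) hN1 m j (fun i => (cl H c i).card) V G _ hmj (by omega)
        hG.2.2.1 ((sum_card_cl H c).trans hW.card)
        (by rw [hk, abs_of_nonneg (by linarith)]; linarith) hF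
      exact h3.trans (hsm KS (by linarith))
    · left
      obtain ⟨H, c, w, u, A, Bs, i0, hW, -, hA, hBl, -, -⟩ := h1
      have h3 := HE N (by omega) j hjl V G c H w u A Bs i0 hW hBl hA
      exact h3.trans (hsm KE (by linarith))
    · right
      obtain ⟨H, c, w, A, v1, v2, hW, hA, hT, -⟩ := h2
      obtain ⟨hk, hF⟩ := X_MAINF.gad_formC hr hG.2.2.1 hW hA hT
      have hd := X_MAINB.dev hr hW hA (X_MAINF.small hr (by omega) hmj hG.2.2.1)
      refine hup (fun i => (cl H c i).card) 0 ((sum_card_cl H c).trans hW.card) hd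
        (by rw [hk, abs_zero]; exact Real.sqrt_nonneg _) hF ?_ ?_
      · rw [hk, abs_zero, add_zero, mul_one]
        exact h1
      · rw [hk, abs_zero, add_zero]
        nlinarith
    · right
      subst hn
      have hsq : √((N + 1 : ℕ) : ℝ) ≤ 4 * √(N : ℝ) := by
        have h4 : √((N + 1 : ℕ) : ℝ) ≤ √((4 : ℝ) ^ 2 * N) :=
          Real.sqrt_le_sqrt (by push_cast; linarith)
        rw [Real.sqrt_mul (by norm_num), Real.sqrt_sq (by norm_num)] at h4
        exact h4
      have hsq2 : √(√((N + 1 : ℕ) : ℝ)) ≤ 2 * √(√(N : ℝ)) := by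
        have h4 : √(√((N + 1 : ℕ) : ℝ)) ≤ √((2 : ℝ) ^ 2 * √(N : ℝ)) :=
          Real.sqrt_le_sqrt (by linarith)
        rw [Real.sqrt_mul (by norm_num), Real.sqrt_sq (by norm_num)] at h4
        exact h4
      have here : er r N = √(√(N : ℝ)) := by
        unfold er
        rw [if_neg (by omega)]
      refine hup y c0 hy hdev ?_ hF hX ?_
      · have hq : K8 ≤ √(√((N + 1 : ℕ) : ℝ)) := by
          refine X_MAINR.sqrt4_large hK8 ?_
          have h5 : K8 ^ 4 ≤ (⌈K8 ^ 4⌉₊ : ℝ) := Nat.le_ceil _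
          have h6 : ((⌈K8 ^ 4⌉₊ : ℕ) : ℝ) ≤ ((N + 1 : ℕ) : ℝ) := by
            exact_mod_cast (by omega : ⌈K8 ^ 4⌉₊ ≤ N + 1)
          exact h5.trans h6
        refine hk.trans ?_
        calc K8 * √(√((N + 1 : ℕ) : ℝ)) ≤ √(√((N + 1 : ℕ) : ℝ)) * √(√((N + 1 : ℕ) : ℝ)) :=
              mul_le_mul_of_nonneg_right hq (Real.sqrt_nonneg _)
          _ = √((N + 1 : ℕ) : ℝ) := Real.mul_self_sqrt (Real.sqrt_nonneg _)
      · rw [here] at her ⊢
        have h5 : K8 * √(√((N + 1 : ℕ) : ℝ)) ≤ K8 * (2 * √(√(N : ℝ))) :=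
          mul_le_mul_of_nonneg_left hsq2 (by linarith)
        linarith
  -- the a priori bound
  have hapr : |specRad G - al r * ((N + 1 : ℕ) : ℝ)| ≤ B := by
    rcases key with h | h
    · have h1 : CA / N ≤ CA := div_le_self (by linarith) hN1'
      have h2 := abs_le.mp (h.trans h1)
      push_cast
      rw [hB, abs_le]
      constructor
      · linarith [h2.1]
      · linarith [h2.2]
    · exact h.1.trans (by linarith)
  have hlow := HL m (by omega) N j (N + 1) hmj hlt rfl V G hG hapr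
  -- conclusion
  obtain ⟨e, he⟩ : ∃ e, e = er r N / N := ⟨_, rfl⟩
  have h1N : 1 / (N : ℝ) ≤ e := by
    rw [he]
    exact div_le_div_of_nonneg_right her hN0.le
  have h1N0 : 0 < 1 / (N : ℝ) := by positivity
  have e0 : 0 ≤ e := by linarith
  have eL : KL * er r N / N = KL * e := by rw [he]; ring
  have eK : (CA + KL + KC * (1 + 2 * K8)) * er r N / N = CA * e + KL * e
      + KC * (1 + 2 * K8) * e := by rw [he]; ring
  rw [eL] at hlow
  rw [eK]
  have hce : 0 ≤ KC * (1 + 2 * K8) * e := mul_nonneg hKC0 e0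
  have hLe : 0 ≤ KL * e := mul_nonneg (by linarith) e0
  have hAe : 0 ≤ CA * e := mul_nonneg (by linarith) e0
  rcases key with h | ⟨-, h2, h3⟩
  · have h4 : CA / N ≤ CA * e := by
      have h5 := mul_le_mul_of_nonneg_left h1N (by linarith : 0 ≤ CA)
      have h6 : CA * (1 / N) = CA / N := by ring
      rw [h6] at h5
      exact h5
    have h5 := abs_le.mp (h.trans h4)
    rw [abs_le]
    constructor
    · have h6 : max (Va r N j) (Vb r m (N + 1)) ≤ specRad G + CA * e + KL * e :=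
        max_le (by linarith [h5.1]) (by linarith)
      linarith
    · have h6 := le_max_left (Va r N j) (Vb r m (N + 1))
      linarith [h5.2]
  · have h4 : KC * ((1 + 2 * K8) * er r N) / N = KC * (1 + 2 * K8) * e := by rw [he]; ring
    rw [h4] at h2
    have h5 : KC / N ≤ KC * (1 + 2 * K8) * e := by
      have h6 := mul_le_mul_of_nonneg_left h1N (by linarith : 0 ≤ KC)
      have h7 : KC * (1 / N) = KC / N := by ring
      rw [h7] at h6
      have h8 : 0 ≤ KC * (2 * K8) * e := by positivity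
      linarith
    rw [abs_le]
    constructor
    · have h6 : max (Va r N j) (Vb r m (N + 1)) ≤
          specRad G + KL * e + KC * (1 + 2 * K8) * e := by
        apply max_le
        · rcases h3 with h3 | h3
          · linarith
          · linarith
        · linarith
      linarith
    · have h6 := le_max_right (Va r N j) (Vb r m (N + 1))
      linarith

end Pool.Agent.Work.MP_5532fa_up
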