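import Pool.Agent.Work.MP_5532fa_x.Interface8
import Pool.Agent.Work.MP_5532fa_x.B_WINB

/-!
# Block VAB: `Va ≤ Vb` above the second threshold
-/

open Finset

namespace Pool.Agent.Work.MP_5532fa_up

open MP5532fa (specRad qf pE)

theorem x_VAB : Stmt_VAB := by
  intro r hr
  have hrr : (3 : ℝ) ≤ r := by exact_mod_cast hr
  refine ⟨4 * r, 1, by linarith, ?_⟩
  intro N hN m j hmj hlt hj
  have hN0 : 0 < N := hN
  have hNr : (0 : ℝ) < N := by exact_mod_cast hN0
  have hal := al_ge hr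
  have hal1 := al_lt hr
  have hal0 : 0 < al r := by linarith
  obtain ⟨hR3, hRb⟩ := X_WINB.RR_bd hr hN0 hmj hlt rfl
  have hjl := j_le pTN hr hmj hlt
  obtain ⟨X, hX⟩ : ∃ X, X = (j : ℝ) / (al r * N) := ⟨_, rfl⟩
  have halN : 0 < al r * N := by positivity
  have hX1 : X ≤ 1 := by rw [hX, div_le_one halN]; exact hjl
  have hX2 : 1 - 2 / r ≤ X := by rw [hX, le_div_iff₀ halN]; exact hj
  have hkap := X_WINB.kap_nonneg hr
  unfold Va Vb
  rw [← hX] at hRb ⊢
  obtain ⟨R, hR⟩ : ∃ R, R = RR r m (N + 1) := ⟨_, rfl⟩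
  rw [← hR] at hR3 hRb ⊢
  have hR0 : 0 ≤ R := by linarith
  push_cast
  have hn0 : (0 : ℝ) < (N : ℝ) + 1 := by linarith
  have h1 : 0 ≤ al r * (kap r * (R * √R)) / ((N : ℝ) + 1) ^ 2 := by
    have := Real.sqrt_nonneg R
    positivity
  have h2 : R ≤ 2 * al r * N * (1 - X) + 4 * r := by
    have := (abs_le.mp hRb).2
    linarith
  have h3 : al r * R / ((N : ℝ) + 1) ≤ 2 * al r ^ 2 * (1 - X) + 4 * r / N := by
    have h4 : al r * R ≤ (2 * al r ^ 2 * (1 - X)) * N + 4 * r := by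
      have h5 := mul_le_mul_of_nonneg_left h2 hal0.le
      have h6 : al r * (4 * r) ≤ 1 * (4 * r) := mul_le_mul_of_nonneg_right hal1.le (by linarith)
      nlinarith
    have h7 : 0 ≤ 2 * al r ^ 2 * (1 - X) := mul_nonneg (by positivity) (by linarith)
    rw [div_le_iff₀ hn0]
    have h8 : (2 * al r ^ 2 * (1 - X) + 4 * r / N) * ((N : ℝ) + 1) =
        (2 * al r ^ 2 * (1 - X)) * N + 2 * al r ^ 2 * (1 - X) + 4 * r + 4 * r / N := by
      field_simp
      ring
    have h9 : 0 ≤ 4 * (r : ℝ) / N := by positivity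
    rw [h8]
    linarith
  have e1 : al r = 1 - 1 / r := rfl
  have h4 : 0 ≤ al r * (1 - X) * (X - (1 - 2 / r)) :=
    mul_nonneg (mul_nonneg hal0.le (by linarith)) (by linarith)
  have h5 : al r * (1 - X) * (X - (1 - 2 / r)) = al r - 2 * al r ^ 2 * (1 - X) - al r * X ^ 2 := by
    have e2 : (2 : ℝ) / r = 2 * (1 - al r) := by rw [e1]; ring
    rw [e2]
    ring
  have h6 : al r * ((N : ℝ) + 1) = al r * N + al r := by ring
  rw [h6]
  linarith

end Pool.Agent.Work.MP_5532fa_up
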