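import Pool.Agent.Work.MP_5532fa_x.Interface8
import Pool.Agent.Work.MP_5532fa_x.B_WINB

/-!
# Block VLA (helper30): lower bound by `Va`
-/

set_option autoImplicit false

open Finset

namespace Pool.Agent.Work.MP_5532fa_up

open MP5532fa (specRad qf pE)

theorem x_VLA (hLDX : Stmt_LDX) (hEXB : Stmt_EXB) : Stmt_VLA := by
  intro r hr
  obtain ⟨KL, NL, hKL, HL⟩ := hLDX r hr
  obtain ⟨NE, HE⟩ := hEXB r hr
  obtain ⟨M, hM⟩ : ∃ M : ℕ, M = NL + NE + 6 * r := ⟨_, rfl⟩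
  refine ⟨KL, M ^ 2 + 1, hKL, ?_⟩
  intro m hm N j hmj hlt hrj hj2 V _ G hG
  have hNM := large_N pTN hr M hm hlt
  have hjl := j_le pTN hr hmj hlt
  obtain ⟨G', H, c, w, A, v1, v2, hWD, hA, hB⟩ := HE N (by omega) j hrj hj2
  obtain ⟨g1, g2, g3⟩ := X_WINB.wd_class hr (by omega) hWD hA hB
  have hpE : 2 * (m : ℝ) = 2 * ((tn r N : ℝ) + j) := by rw [hmj]; push_cast; ring
  have hle := hG.2.2.2 _ G' g1 g2 (g3.trans hpE.symm)
  have hld := HL N (by omega) j hjl _ G' c H w A v1 v2 hWD hB hA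
  rw [abs_le] at hld
  unfold Va
  linarith [hld.1, hle]

end Pool.Agent.Work.MP_5532fa_up
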