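import Pool.Agent.Work.MP_5532fa_x.Interface8
import Pool.Agent.Work.MP_5532fa_x.B_WINA

/-!
# MP_5532fa_co, sixth round: block VLB, lower bound by `Vb`
-/

open Finset

namespace Pool.Agent.Work.MP_5532fa_up

open MP5532fa (specRad qf pE)

theorem x_VLB (hCUPR : Stmt_CUPR) (hCND2 : Stmt_CND2) (hCND6 : Stmt_CND6) : Stmt_VLB := by
  intro r B₀ hr hB₀
  have hrr : (3 : ℝ) ≤ r := by exact_mod_cast hr
  have hr0 : (0 : ℝ) < r := by linarith
  have hal := al_ge hr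
  have hal1 := al_lt hr
  have hal0 : 0 < al r := by linarith
  have halr : al r = 1 - 1 / r := rfl
  obtain ⟨hk0, hk1⟩ := X_WINA.kap_bd hr
  obtain ⟨KU, N2, hKU, H2⟩ := hCUPR r hr
  obtain ⟨KC, N3, hKC, H3⟩ := X_WINA.cand hCND2 hCND6 r hr
  obtain ⟨B, hB⟩ : ∃ B : ℝ, B = B₀ + 2 + 4 * r := ⟨_, rfl⟩
  obtain ⟨C, hC1, HT⟩ := pTAY r B hr (by rw [hB]; linarith)
  obtain ⟨C4, hC4⟩ : ∃ C4 : ℝ, C4 = 2 * (KU + KC) + 6 + 16 * r + C + 4 * r * C := ⟨_, rfl⟩
  have hrC : 0 ≤ 4 * (r : ℝ) * C := by positivity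
  have hC40 : 1 ≤ C4 := by rw [hC4]; linarith
  obtain ⟨C5, hC5⟩ : ∃ C5 : ℝ, C5 = 6 + 2 * C4 := ⟨_, rfl⟩
  have hB0 : 0 ≤ B := by rw [hB]; linarith
  have hC5B : 0 ≤ C5 * B := mul_nonneg (by rw [hC5]; linarith) hB0
  obtain ⟨nC, hnC⟩ := exists_nat_ge C
  refine ⟨(C4 + C5 * B) * KC, (N2 + N3 + nC + 16 * r ^ 2 + 1) ^ 2 + r, ?_, ?_⟩
  · calc (1 : ℝ) = 1 * 1 := by ring
      _ ≤ (C4 + C5 * B) * KC := mul_le_mul (by linarith) hKC (by norm_num) (by linarith)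
  intro m hm N j n hmj hlt hn V _ G hG hlamB₀
  have hNbig : N2 + N3 + nC + 16 * r ^ 2 ≤ N := X_WINA.N_large hr hm hlt
  have hN16 : 16 * (r : ℝ) ^ 2 ≤ N := by
    have h1 : 16 * r ^ 2 ≤ N := by omega
    exact_mod_cast h1
  have hr2 : (r : ℝ) ≤ (r : ℝ) ^ 2 := by
    rw [sq]
    exact le_mul_of_one_le_right hr0.le (by linarith)
  have hNr : 16 * (r : ℝ) ≤ N := by linarith
  have hN0 : (0 : ℝ) < N := by linarith
  have hnN : (n : ℝ) = N + 1 := by rw [hn]; push_cast; ring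
  have hn1 : (1 : ℝ) ≤ n := by linarith
  have hn0 : (0 : ℝ) < n := by linarith
  have hCn : C ≤ n := hnC.trans (by
    have h1 : nC ≤ n := by omega
    exact_mod_cast h1)
  obtain ⟨lam, hlamdef⟩ : ∃ lam, lam = specRad G := ⟨_, rfl⟩
  rw [← hlamdef] at hlamB₀ ⊢
  have hlamB : |lam - al r * n| ≤ B := hlamB₀.trans (by rw [hB]; linarith)
  -- the number R
  obtain ⟨R, hR⟩ : ∃ R, R = RR r m n := ⟨_, rfl⟩
  have hTN := (abs_le.1 (pTN r hr N).2.1)
  have hTN1 := (abs_le.1 (pTN r hr n).2.1)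
  have hmt : (m : ℝ) + 1 ≤ tn r n := by
    rw [hn]
    exact_mod_cast hlt
  have hmj' : (m : ℝ) = tn r N + j := by rw [hmj]; push_cast; ring
  have hRr : (r : ℝ) ≤ R := by
    rw [hR]
    unfold RR
    linarith [hTN1.2]
  have hR2n : R ≤ 2 * n := by
    have hj0 : (0 : ℝ) ≤ j := Nat.cast_nonneg j
    have h1 : R ≤ al r * (2 * N + 1) + 4 * r := by
      have e1 : R = al r * (2 * N + 1) + (al r * (N : ℝ) ^ 2 - 2 * (tn r N : ℝ)) - 2 * j
          + 2 * ((r : ℝ) - 1) := by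
        rw [hR]
        unfold RR
        rw [hnN, hmj']
        ring
      rw [e1]
      linarith [hTN.1]
    have h3 : al r * (2 * (N : ℝ) + 1) ≤ 2 * N - 2 * (N / r) + 1 := by
      rw [halr]
      have h4 : (1 - 1 / (r : ℝ)) * (2 * N + 1) = 2 * N - 2 * (N / r) + 1 - 1 / r := by ring
      have h5 : 0 ≤ 1 / (r : ℝ) := by positivity
      rw [h4]
      linarith
    have h4 : 4 * (r : ℝ) ≤ 2 * (N / r) := by
      have h5 : 2 * (r : ℝ) ≤ N / r := by
        rw [le_div_iff₀ hr0]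
        have h6 : 2 * (r : ℝ) * r = 2 * (r : ℝ) ^ 2 := by ring
        rw [h6]
        linarith
      linarith
    rw [hnN]
    linarith
  have hR0 : 0 ≤ R := by linarith
  -- the candidate
  obtain ⟨z, hzsum, hzdev, hzk, hzer, hzmo⟩ := H3 N n (by omega) hn m (by rw [← hR]; exact hRr)
    (by rw [← hR]; exact hR2n)
  rw [← hR] at hzmo
  obtain ⟨c', hc', hc'le⟩ := X_WINA.cost (m := m) hr hzsum
  obtain ⟨G', hfree, hcol, hpE, hup⟩ := H2 n (by omega) m z c' hzsum hzdev hzk hc'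
  have hle : specRad G' ≤ lam := by
    rw [hlamdef]
    exact hG.2.2.2 _ G' hfree hcol hpE
  obtain ⟨x', hPx'⟩ := exists_PV G'
  have hl0 : 0 ≤ specRad G' := BIG.lam_nonneg hPx'
  have hlam0 : 0 ≤ lam := hl0.trans hle
  have hs0 : 0 < √(n : ℝ) := Real.sqrt_pos.2 hn0
  have hs1 : 1 ≤ √(n : ℝ) := Real.one_le_sqrt.2 hn1
  have hs2 : √(n : ℝ) ^ 2 = n := Real.sq_sqrt hn0.le
  have hzpos : ∀ i, 0 < re z i := by
    intro i
    have h1 := (abs_le.1 (hzdev i)).1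
    have h2 : 2 * √(n : ℝ) < n / r := by
      rw [lt_div_iff₀ hr0]
      have h3 : 2 * (r : ℝ) < √(n : ℝ) := by
        refine Real.lt_sqrt_of_sq_lt ?_
        have h6 : (2 * (r : ℝ)) ^ 2 = 4 * (r : ℝ) ^ 2 := by ring
        rw [hnN, h6]
        linarith
      calc 2 * √(n : ℝ) * r = (2 * r) * √(n : ℝ) := by ring
        _ < √(n : ℝ) * √(n : ℝ) := mul_lt_mul_of_pos_right h3 hs0
        _ = n := Real.mul_self_sqrt hn0.le
    unfold re
    linarith
  have hanti : Ph (re z) lam ≤ Ph (re z) (specRad G') := BIG.Ph_anti hzpos hl0 hle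
  obtain ⟨κ, hκ⟩ : ∃ κ, κ = |kk m n z| := ⟨_, rfl⟩
  have hκ0 : 0 ≤ κ := by rw [hκ]; exact abs_nonneg _
  have hup' : (n : ℝ) ^ 2 * Ph (re z) lam / al r ≤ (KU + KC + 4) * (1 + |kk m n z|) := by
    have h1 : (n : ℝ) ^ 2 * Ph (re z) lam / al r ≤
        (n : ℝ) ^ 2 * Ph (re z) (specRad G') / al r :=
      div_le_div_of_nonneg_right (mul_le_mul_of_nonneg_left hanti (sq_nonneg _)) hal0.le
    have h2 : 2 / ((r : ℝ) - 1) ≤ 1 := by
      rw [div_le_one (by linarith)]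
      linarith
    have h3 : -kk m n z ≤ κ := by rw [hκ]; exact neg_le_abs _
    rw [← hκ] at hup hc'le ⊢
    have h4 : KU * (1 + κ) / √(n : ℝ) ≤ KU * (1 + κ) :=
      div_le_self (mul_nonneg (by linarith) (by linarith)) hs1
    have h5 : 0 ≤ KC * (1 + κ) := mul_nonneg (by linarith) (by linarith)
    have h6 : (KU + KC + 4) * (1 + κ) = KU * (1 + κ) + KC * (1 + κ) + 4 + 4 * κ := by ring
    rw [h6]
    linarith
  have hP : 0 < lam + n / r := by positivity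
  have hE := X_WINA.upper (m := m) (M := kap r * (R * √R)) hr
    (by rw [hB]; linarith : 4 * (r : ℝ) ≤ B) (by linarith : 1 ≤ KU + KC) hC1
    (fun y z => HT n y z lam hCn hlamB) hn1 hzsum hzdev hR
    (by
      have h1 : KC * (n : ℝ) ≤ (KU + KC) * n := mul_le_mul_of_nonneg_right (by linarith) hn0.le
      linarith) hP hup'
  rw [← hC4, ← hκ] at hE
  obtain ⟨E, hEdef⟩ : ∃ E, E = R - kap r * (R * √R) / n + C4 * (1 + κ) := ⟨_, rfl⟩
  rw [← hEdef] at hE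
  -- bound for E
  have hsR : √R ≤ 2 * n := by
    refine Real.sqrt_le_iff.2 ⟨by positivity, ?_⟩
    have h1 : (n : ℝ) ≤ (n : ℝ) ^ 2 := by
      rw [sq]
      exact le_mul_of_one_le_right hn0.le hn1
    have h2 : (2 * (n : ℝ)) ^ 2 = 4 * (n : ℝ) ^ 2 := by ring
    rw [h2]
    linarith
  have hM0 : 0 ≤ kap r * (R * √R) / n := by positivity
  have hM1 : kap r * (R * √R) / n ≤ 4 * n := by
    rw [div_le_iff₀ hn0]
    have h1 : R * √R ≤ 2 * n * (2 * n) := mul_le_mul hR2n hsR (Real.sqrt_nonneg _) (by linarith)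
    have h2 : 0 ≤ R * √R := mul_nonneg hR0 (Real.sqrt_nonneg _)
    calc kap r * (R * √R) ≤ 1 * (R * √R) := mul_le_mul_of_nonneg_right hk1 h2
      _ ≤ 4 * n * n := by linarith
  have hκn : 1 + κ ≤ 2 * n := by
    have h1 : √(n : ℝ) ≤ n := by
      have h2 : √(n : ℝ) * 1 ≤ √(n : ℝ) * √(n : ℝ) := mul_le_mul_of_nonneg_left hs1 hs0.le
      rw [Real.mul_self_sqrt hn0.le, mul_one] at h2
      exact h2
    rw [hκ]
    linarith
  have hC4κ : 0 ≤ C4 * (1 + κ) := mul_nonneg (by linarith) (by linarith)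
  have hC4κ' : C4 * (1 + κ) ≤ 2 * C4 * n := by
    calc C4 * (1 + κ) ≤ C4 * (2 * n) := mul_le_mul_of_nonneg_left hκn (by linarith)
      _ = 2 * C4 * n := by ring
  have hEb : |E| ≤ C5 * n := by
    have h1 : C5 * (n : ℝ) = 6 * n + 2 * C4 * n := by rw [hC5]; ring
    have h2 : 0 ≤ 2 * C4 * (n : ℝ) := by positivity
    rw [abs_le, hEdef, h1]
    constructor
    · linarith
    · linarith
  have hPn : lam + n / r = n + (lam - al r * n) := by
    rw [halr]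
    ring
  have hcore := X_WINA.core hn0 hal0 hal1.le hP hPn hlamB hEb hE
  have h1 : al r * E / n = al r * R / n - al r * (kap r * (R * √R)) / n ^ 2
      + al r * (C4 * (1 + κ)) / n := by
    rw [hEdef]
    field_simp
  have h2 : al r * (C4 * (1 + κ)) / n ≤ C4 * (1 + κ) / N := by
    have h3 : al r * (C4 * (1 + κ)) ≤ C4 * (1 + κ) := mul_le_of_le_one_left hC4κ hal1.le
    exact div_le_div₀ hC4κ h3 hN0 (by linarith)
  have h3 : C5 * B / n ≤ C5 * B * (1 + κ) / N := by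
    have h4 : C5 * B ≤ C5 * B * (1 + κ) := le_mul_of_one_le_right hC5B (by linarith)
    exact div_le_div₀ (by linarith) h4 hN0 (by linarith)
  have h4 : C4 * (1 + κ) / N + C5 * B * (1 + κ) / N ≤ (C4 + C5 * B) * KC * er r N / N := by
    rw [← add_div]
    refine div_le_div_of_nonneg_right ?_ hN0.le
    have h5 : C4 * (1 + κ) + C5 * B * (1 + κ) = (C4 + C5 * B) * (1 + κ) := by ring
    rw [h5, mul_assoc, hκ]
    exact mul_le_mul_of_nonneg_left hzer (by linarith)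
  rw [h1] at hcore
  unfold Vb
  rw [← hR]
  linarith

end Pool.Agent.Work.MP_5532fa_up
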