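import Pool.Agent.Work.MP_5532fa_x.Interface8
import Pool.Agent.Work.MP_5532fa_x.B_WINB

/-!
# Block VSM: forms over almost balanced classes
-/

open Finset

namespace Pool.Agent.Work.MP_5532fa_up

open MP5532fa (specRad qf pE)

theorem x_VSM (hLGX : Stmt_LGX) : Stmt_VSM := by
  intro r hr
  have hrr : (3 : ℝ) ≤ r := by exact_mod_cast hr
  obtain ⟨KG, nG, hKG, HG⟩ := hLGX r hr
  have hK1 : 1 ≤ KG * (1 + 4 * r) + 16 * (r : ℝ) ^ 3 + 8 * r + 64 * (r : ℝ) ^ 4 := by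
    have h1 : 1 * 1 ≤ KG * (1 + 4 * (r : ℝ)) :=
      mul_le_mul hKG (by linarith) zero_le_one (by linarith)
    have h2 : 0 ≤ 16 * (r : ℝ) ^ 3 + 8 * r + 64 * (r : ℝ) ^ 4 := by positivity
    linarith
  refine ⟨KG * (1 + 4 * r) + 16 * (r : ℝ) ^ 3 + 8 * r + 64 * (r : ℝ) ^ 4, nG + 16 * r ^ 2 + 1,
    hK1, ?_⟩
  intro n hn m y V _ G c0 hpE hy hdev hkk hF
  have hnr : 16 * (r : ℝ) ^ 2 + 1 ≤ n := by
    have : 16 * r ^ 2 + 1 ≤ n := by omega
    exact_mod_cast this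
  have hr2 : 0 ≤ 16 * (r : ℝ) ^ 2 := by positivity
  have hn1 : (1 : ℝ) ≤ n := by linarith
  have hn0 : (0 : ℝ) < n := by linarith
  have hsq : 4 * (r : ℝ) ≤ √(n : ℝ) := by
    apply Real.le_sqrt_of_sq_le
    nlinarith
  have hlg := HG n (by omega) m y V G c0 hpE hy (fun i => (hdev i).trans (by linarith))
    (hkk.trans hsq) hF
  have hmo2 := X_WINB.mo2_eq (m := m) hr hy
  have hal1 := al_lt hr
  have hal := al_ge hr
  have hal0 : 0 < al r := by linarith
  have hd : ∀ i, |re y i - n / r| ≤ 4 * r := hdev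
  have h2 : |mo 2 n (re y)| ≤ 16 * (r : ℝ) ^ 3 := by
    unfold mo
    refine (Finset.abs_sum_le_sum_abs _ _).trans ?_
    have h3 : ∀ i ∈ (Finset.univ : Finset (Fin r)), |(re y i - n / r) ^ 2| ≤ (4 * (r : ℝ)) ^ 2 := by
      intro i _
      rw [abs_pow]
      exact pow_le_pow_left₀ (abs_nonneg _) (hd i) 2
    refine (Finset.sum_le_sum h3).trans ?_
    rw [Finset.sum_const, Finset.card_univ, Fintype.card_fin, nsmul_eq_mul]
    nlinarith
  have h3 : |mo 3 n (re y)| ≤ 64 * (r : ℝ) ^ 4 := by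
    unfold mo
    refine (Finset.abs_sum_le_sum_abs _ _).trans ?_
    have h3 : ∀ i ∈ (Finset.univ : Finset (Fin r)), |(re y i - n / r) ^ 3| ≤ (4 * (r : ℝ)) ^ 3 := by
      intro i _
      rw [abs_pow]
      exact pow_le_pow_left₀ (abs_nonneg _) (hd i) 3
    refine (Finset.sum_le_sum h3).trans ?_
    rw [Finset.sum_const, Finset.card_univ, Fintype.card_fin, nsmul_eq_mul]
    nlinarith
  have hRR : |RR r m n| ≤ 16 * (r : ℝ) ^ 3 + 8 * r := by
    have e : RR r m n = mo 2 n (re y) - 2 * kk m n y := by rw [hmo2]; ring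
    rw [e]
    refine (abs_sub _ _).trans ?_
    rw [abs_mul, abs_two]
    linarith
  have h4 : |al r * RR r m n / n| ≤ (16 * (r : ℝ) ^ 3 + 8 * r) / n := by
    rw [abs_div, abs_mul, abs_of_pos hal0, abs_of_pos hn0]
    apply div_le_div_of_nonneg_right _ hn0.le
    have := mul_le_mul hal1.le hRR (abs_nonneg _) zero_le_one
    linarith
  have h5 : |al r * mo 3 n (re y) / (n : ℝ) ^ 2| ≤ 64 * (r : ℝ) ^ 4 / n := by
    rw [abs_div, abs_mul, abs_of_pos hal0, abs_of_pos (by positivity : (0 : ℝ) < (n : ℝ) ^ 2)]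
    have h6 : al r * |mo 3 n (re y)| ≤ 64 * (r : ℝ) ^ 4 := by
      have := mul_le_mul hal1.le h3 (abs_nonneg _) zero_le_one
      linarith
    have h7 : (n : ℝ) ≤ (n : ℝ) ^ 2 := by nlinarith
    exact div_le_div₀ (by positivity) h6 hn0 h7
  have h8 : KG * (1 + |kk m n y|) / n ≤ KG * (1 + 4 * r) / n := by
    apply div_le_div_of_nonneg_right _ hn0.le
    exact mul_le_mul_of_nonneg_left (by linarith) (by linarith)
  have e : specRad G - al r * n = (specRad G - (al r * n - al r * RR r m n / n +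
      al r * mo 3 n (re y) / (n : ℝ) ^ 2)) - al r * RR r m n / n +
      al r * mo 3 n (re y) / (n : ℝ) ^ 2 := by ring
  rw [e]
  refine (abs_add_le _ _).trans ?_
  have h9 := abs_sub (specRad G - (al r * n - al r * RR r m n / n +
      al r * mo 3 n (re y) / (n : ℝ) ^ 2)) (al r * RR r m n / n)
  have e2 : (KG * (1 + 4 * r) + 16 * (r : ℝ) ^ 3 + 8 * r + 64 * (r : ℝ) ^ 4) / n =
      KG * (1 + 4 * r) / n + (16 * (r : ℝ) ^ 3 + 8 * r) / n + 64 * (r : ℝ) ^ 4 / n := by ring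
  rw [e2]
  linarith

end Pool.Agent.Work.MP_5532fa_up
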