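import Pool.Agent.Work.MP_5532fa_x.Interface8
import Pool.Agent.Work.MP_5532fa_x.B_WINB

/-!
# Block VUB (helper18): upper bound of the spectral radius by `Vb`
-/

open Finset

namespace Pool.Agent.Work.MP_5532fa_up

open MP5532fa (specRad qf pE)

theorem x_VUB (hLGX : Stmt_LGX) (hKUB : Stmt_KUB) : Stmt_VUB := by
  intro r hr
  have hrr : (3 : ℝ) ≤ r := by exact_mod_cast hr
  obtain ⟨KG, nG, hKG, HG⟩ := hLGX r hr
  have hkap := X_WINB.kap_nonneg hr
  refine ⟨KG + 18 * kap r, (nG + 6 * r) ^ 2 + 1, by linarith, ?_⟩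
  intro m hm N j n hmj hlt hn y c0 V _ G hG hy hdev hkk hF
  have hNM := large_N pTN hr (nG + 6 * r) hm hlt
  have hN6 : 6 * r ≤ N := by omega
  have hN6' : 6 * (r : ℝ) ≤ N := by exact_mod_cast hN6
  have hN0 : (0 : ℝ) < N := by linarith
  have hal := al_ge hr
  have hal1 := al_lt hr
  have hal0 : 0 < al r := by linarith
  obtain ⟨κ, hκ⟩ : ∃ κ, κ = |kk m n y| := ⟨_, rfl⟩
  have hκ0 : 0 ≤ κ := by rw [hκ]; exact abs_nonneg _
  rw [← hκ] at hkk ⊢
  have hjl := j_le pTN hr hmj hlt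
  obtain ⟨X, hX⟩ : ∃ X, X = (j : ℝ) / (al r * N) := ⟨_, rfl⟩
  have halN : 0 < al r * N := by positivity
  have hjX : (j : ℝ) = X * (al r * N) := by rw [hX]; field_simp
  have hX1 : X ≤ 1 := by rw [hX, div_le_one halN]; exact hjl
  have hX0 : 0 ≤ X := by rw [hX]; positivity
  have hlg := HG n (by omega) m y V G c0 hG.2.2.1 hy hdev (by rw [← hκ]; exact hkk) hF
  rw [← hκ, abs_le] at hlg
  -- the moments
  obtain ⟨hR3, hRb⟩ := X_WINB.RR_bd hr (by omega : 0 < N) hmj hlt hn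
  rw [← hX] at hRb
  have hmo2 := X_WINB.mo2_eq (m := m) hr hy
  have hmo0 : 0 ≤ mo 2 n (re y) := by
    unfold mo
    exact Finset.sum_nonneg fun _ _ => sq_nonneg _
  have hkub := hKUB r hr n (re y) (by unfold re; exact_mod_cast hy)
  unfold Vb
  obtain ⟨R, hR⟩ : ∃ R, R = RR r m n := ⟨_, rfl⟩
  rw [← hR] at hR3 hRb hmo2 hlg ⊢
  have hnr : (n : ℝ) = N + 1 := by rw [hn]; push_cast; ring
  have hn0 : (0 : ℝ) < n := by rw [hnr]; linarith
  have hn1 : (1 : ℝ) ≤ n := by rw [hnr]; linarith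
  have hRn : R ≤ 3 * n := by
    have h1 := (abs_le.mp hRb).2
    have h2 : 2 * al r * N * (1 - X) ≤ 2 * N := by
      have h3 : al r * (1 - X) ≤ 1 * 1 := mul_le_mul hal1.le (by linarith) (by linarith) zero_le_one
      have h4 : al r * (1 - X) * N ≤ 1 * 1 * N := mul_le_mul_of_nonneg_right h3 hN0.le
      linarith
    linarith
  have hsn1 : √(n : ℝ) ≤ n := by
    rw [Real.sqrt_le_left (by linarith)]
    nlinarith
  have h32 := X_WINB.pow32 (R := R) (T := R + 2 * κ) (n := n) (κ := κ) (S := mo 2 n (re y))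
    (by linarith) hmo0 hκ0 (by rw [hmo2, hκ]; linarith [le_abs_self (kk m n y)]) rfl hn0.le
    (by linarith)
  have hmo3 : mo 3 n (re y) ≤ kap r * (R * √R) + 18 * kap r * κ * √(n : ℝ) := by
    have h1 := mul_le_mul_of_nonneg_left h32 hkap
    linarith
  have hsn0 : 0 ≤ √(n : ℝ) := Real.sqrt_nonneg _
  have h3n : al r * mo 3 n (re y) / (n : ℝ) ^ 2
      ≤ al r * (kap r * (R * √R)) / (n : ℝ) ^ 2 + 18 * kap r * κ / N := by
    have h1 : al r * mo 3 n (re y) ≤ al r * (kap r * (R * √R)) + 18 * kap r * κ * √(n : ℝ) := by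
      have h2 := mul_le_mul_of_nonneg_left hmo3 hal0.le
      have h3 : al r * (18 * kap r * κ * √(n : ℝ)) ≤ 1 * (18 * kap r * κ * √(n : ℝ)) :=
        mul_le_mul_of_nonneg_right hal1.le (by positivity)
      linarith
    have h2 : al r * mo 3 n (re y) / (n : ℝ) ^ 2
        ≤ (al r * (kap r * (R * √R)) + 18 * kap r * κ * √(n : ℝ)) / (n : ℝ) ^ 2 :=
      div_le_div_of_nonneg_right h1 (by positivity)
    refine h2.trans ?_
    rw [add_div]
    have h4 : 18 * kap r * κ * √(n : ℝ) / (n : ℝ) ^ 2 ≤ 18 * kap r * κ / N := by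
      rw [div_le_div_iff₀ (by positivity) hN0]
      have h5 : √(n : ℝ) * N ≤ (n : ℝ) ^ 2 := by
        have h6 : (N : ℝ) ≤ n := by rw [hnr]; linarith
        have h7 := mul_le_mul hsn1 h6 hN0.le hn0.le
        linarith
      have h8 := mul_le_mul_of_nonneg_left h5 (by positivity : 0 ≤ 18 * kap r * κ)
      linarith
    linarith
  have h1 : KG * (1 + κ) / n ≤ KG * (1 + κ) / N :=
    div_le_div_of_nonneg_left (by positivity) hN0 (by rw [hnr]; linarith)
  have h3 : 18 * kap r * κ / N ≤ 18 * kap r * (1 + κ) / N := by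
    apply div_le_div_of_nonneg_right _ hN0.le
    nlinarith
  have h5 : (KG + 18 * kap r) * (1 + κ) / N = KG * (1 + κ) / N + 18 * kap r * (1 + κ) / N := by
    ring
  rw [h5]
  linarith [hlg.2]

end Pool.Agent.Work.MP_5532fa_up
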