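import Pool.Agent.Work.MP_5532fa_x.Asm8
import Pool.Agent.Work.MP_5532fa_x.B_LDE
import Pool.Agent.Work.MP_5532fa_x.B_VLB
import Pool.Agent.Work.MP_5532fa_x.B_VLA
import Pool.Agent.Work.MP_5532fa_x.B_VUB
import Pool.Agent.Work.MP_5532fa_x.B_VSM
import Pool.Agent.Work.MP_5532fa_x.B_VAB
import Pool.Agent.Work.MP_5532fa_x.B_MAINV

/-!
# MP_5532fa_co, sixth round: the value
-/

namespace Pool.Agent.Work.MP_5532fa_up

theorem q_LDE : Stmt_LDE := x_LDE q_FFE q_SECX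
theorem q_VLB : Stmt_VLB := x_VLB q_CUPR q_CND2 q_CND6
theorem q_VLA : Stmt_VLA := x_VLA q_LDX q_EXB
theorem q_VUB : Stmt_VUB := x_VUB q_LGX q_KUB
theorem q_VSM : Stmt_VSM := x_VSM q_LGX
theorem q_VAB : Stmt_VAB := x_VAB
theorem q_MAINV : Stmt_MAINV :=
  x_MAINV q_MAINF q_LDX q_LDE q_LGX q_VLB q_VLA q_VUB q_VSM q_VAB q_GS

end Pool.Agent.Work.MP_5532fa_up
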