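import Pool.Agent.Work.MP_5532fa_x.Interface

/-! # Block FS2 -/

open Finset

namespace Pool.Agent.Work.MP_5532fa_up

open MP5532fa (specRad qf pE)

namespace X_FS2

/-- the inequality -/
theorem ineq {s s' a a' b b' xp xq xw yp yq yw D D' xb yb M : ℝ} (hs0 : 0 < s) (hss : s ≤ s')
    (hs2 : s' ≤ 2 * s) (hsh : s ≤ 1 / 2) (hM : 1 ≤ M) (hxb : 0 < xb) (hyb : 0 < yb)
    (e1 : a - b = (D + xp) * s) (e2 : a' - b' = (D' - yq) * s')
    (e3 : xq = b + xw * s) (e4 : yp = a' + yw * s')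
    (e5 : xp = a - (xq + (M - 1) * b) * s + xw * s)
    (e6 : yq = b' - (yp + (M - 1) * a') * s' + yw * s')
    (ha : 99 / 100 * xb ≤ a) (ha2 : a ≤ 101 / 100 * xb)
    (ha' : 99 / 100 * yb ≤ a') (hb' : 99 / 100 * yb ≤ b') (hb2' : b' ≤ 101 / 100 * yb)
    (hxp : 99 / 100 * xb ≤ xp) (hxp2 : xp ≤ 101 / 100 * xb)
    (hyq : 99 / 100 * yb ≤ yq) (hyq2 : yq ≤ 101 / 100 * yb)
    (hxw : 0 ≤ xw) (hxw2 : xw ≤ 1 / 100 * xb) (hyw : 0 ≤ yw) (hyw2 : yw ≤ 1 / 100 * yb)
    (hD : 16 / 25 * xb ≤ D) (hD' : 16 / 25 * yb ≤ D') :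
    0 < xp * b' + yp * b - xq * a' - yq * a := by
  have key : xp * b' + yp * b - xq * a' - yq * a =
      M * ((s' - s) * (a * a' - s * (a * yq)) + s * s' * (a * D') + s * s * (b' * D)
        + s * s * (b' * xp - a * yq)) - s * s * (xw * b') + s' * s' * (yw * a)
        - s * s' * (xw * D') + s * s' * (xw * yq) - s * s' * (yw * D) - s * s' * (yw * xp) := by
    linear_combination b' * e5 + (b + a * s') * e4 + (-a' - s * b') * e3 - a * e6
      + (M * s * b' - yw * s') * e1 + (M * s * a - xw * s) * e2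
  have a0 : 0 < a := by linarith
  have P0 : 0 < xb * yb := mul_pos hxb hyb
  have hs'0 : 0 < s' := lt_of_lt_of_le hs0 hss
  have D0 : 0 < D := by linarith
  have D0' : 0 < D' := by linarith
  have q0 : 0 < s * s := mul_pos hs0 hs0
  have qq : s * s ≤ s * s' := mul_le_mul_of_nonneg_left hss hs0.le
  have qq2 : s * s' ≤ 2 * (s * s) := by
    have := mul_le_mul_of_nonneg_left hs2 hs0.le
    linarith
  have yq0 : 0 < yq := by linarith
  have b0' : 0 < b' := by linarith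
  have xp0 : 0 < xp := by linarith
  -- products
  have t1 : 99 / 100 * (xb * D') ≤ a * D' := by
    have := mul_le_mul_of_nonneg_right ha D0'.le
    linarith
  have t2 : 99 / 100 * (yb * D) ≤ b' * D := by
    have := mul_le_mul_of_nonneg_right hb' D0.le
    linarith
  have t3 : 9801 / 10000 * (xb * yb) ≤ b' * xp := by
    have := mul_le_mul hb' hxp (by positivity) b0'.le
    linarith
  have t4 : a * yq ≤ 10201 / 10000 * (xb * yb) := by
    have := mul_le_mul ha2 hyq2 yq0.le (by positivity)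
    linarith
  have t5 : xw * b' ≤ 101 / 10000 * (xb * yb) := by
    have := mul_le_mul hxw2 hb2' b0'.le (by positivity)
    linarith
  have t6 : xw * D' ≤ 1 / 100 * (xb * D') := by
    have := mul_le_mul_of_nonneg_right hxw2 D0'.le
    linarith
  have t7 : yw * D ≤ 1 / 100 * (yb * D) := by
    have := mul_le_mul_of_nonneg_right hyw2 D0.le
    linarith
  have t8 : yw * xp ≤ 101 / 10000 * (xb * yb) := by
    have := mul_le_mul hyw2 hxp2 xp0.le (by positivity)
    linarith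
  have t9 : 0 ≤ a * a' - s * (a * yq) := by
    have h1 : s * (a * yq) ≤ 1 / 2 * (a * yq) :=
      mul_le_mul_of_nonneg_right hsh (mul_nonneg a0.le yq0.le)
    have h2 : 1 / 2 * yq ≤ a' := by linarith
    have h3 : a * (1 / 2 * yq) ≤ a * a' := mul_le_mul_of_nonneg_left h2 a0.le
    linarith
  have Q1 : 16 / 25 * (xb * yb) ≤ xb * D' := by
    have := mul_le_mul_of_nonneg_left hD' hxb.le
    linarith
  have Q2 : 16 / 25 * (xb * yb) ≤ yb * D := by
    have := mul_le_mul_of_nonneg_left hD hyb.le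
    linarith
  clear e1 e2 e3 e4 e5 e6 ha ha2 ha' hb' hb2' hxp hxp2 hyq hyq2 hxw2 hyw2 hD hD'
  -- the bracket
  have hK1 : s * s * (99 / 100 * (xb * D')) ≤ s * s' * (a * D') :=
    mul_le_mul qq t1 (by positivity) (by positivity)
  have hK2 : s * s * (99 / 100 * (yb * D)) ≤ s * s * (b' * D) :=
    mul_le_mul_of_nonneg_left t2 q0.le
  have hK3 : s * s * (-(1 / 25) * (xb * yb)) ≤ s * s * (b' * xp - a * yq) :=
    mul_le_mul_of_nonneg_left (by linarith) q0.le
  have hK4 : 0 ≤ (s' - s) * (a * a' - s * (a * yq)) := mul_nonneg (by linarith) t9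
  have hL : s * s * (99 / 100 * (xb * D') + 99 / 100 * (yb * D) - 1 / 25 * (xb * yb)) ≤
      (s' - s) * (a * a' - s * (a * yq)) + s * s' * (a * D') + s * s * (b' * D)
        + s * s * (b' * xp - a * yq) := by
    have : s * s * (99 / 100 * (xb * D') + 99 / 100 * (yb * D) - 1 / 25 * (xb * yb)) =
      s * s * (99 / 100 * (xb * D')) + s * s * (99 / 100 * (yb * D)) +
        s * s * (-(1 / 25) * (xb * yb)) := by ring
    rw [this]
    linarith
  have hL0 : 0 ≤ s * s * (99 / 100 * (xb * D') + 99 / 100 * (yb * D) - 1 / 25 * (xb * yb)) :=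
    mul_nonneg q0.le (by linarith)
  generalize (s' - s) * (a * a' - s * (a * yq)) + s * s' * (a * D') + s * s * (b' * D)
        + s * s * (b' * xp - a * yq) = Kk at key hL
  have hMK : Kk ≤ M * Kk := by
    have := mul_le_mul_of_nonneg_right hM (hL0.trans hL)
    linarith
  -- the other terms
  have r1 : s * s * (xw * b') ≤ s * s * (101 / 10000 * (xb * yb)) :=
    mul_le_mul_of_nonneg_left t5 q0.le
  have r2 : 0 ≤ s' * s' * (yw * a) := by positivity
  have r3 : s * s' * (xw * D') ≤ 2 * (s * s) * (1 / 100 * (xb * D')) :=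
    mul_le_mul qq2 t6 (by positivity) (by positivity)
  have r4 : 0 ≤ s * s' * (xw * yq) := by positivity
  have r5 : s * s' * (yw * D) ≤ 2 * (s * s) * (1 / 100 * (yb * D)) :=
    mul_le_mul qq2 t7 (by positivity) (by positivity)
  have r6 : s * s' * (yw * xp) ≤ 2 * (s * s) * (101 / 10000 * (xb * yb)) :=
    mul_le_mul qq2 t8 (by positivity) (by positivity)
  have fin : 0 < s * s * (97 / 100 * (xb * D') + 97 / 100 * (yb * D) - 703 / 10000 * (xb * yb)) :=
    mul_pos q0 (by linarith)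
  have exp1 : s * s * (97 / 100 * (xb * D') + 97 / 100 * (yb * D) - 703 / 10000 * (xb * yb)) =
      s * s * (99 / 100 * (xb * D') + 99 / 100 * (yb * D) - 1 / 25 * (xb * yb))
      - s * s * (101 / 10000 * (xb * yb)) - 2 * (s * s) * (1 / 100 * (xb * D'))
      - 2 * (s * s) * (1 / 100 * (yb * D)) - 2 * (s * s) * (101 / 10000 * (xb * yb)) := by ring
  rw [key]
  linarith

section

variable {V : Type} [Fintype V] {r : ℕ} {G : SimpleGraph V} {N : ℕ} {H : Finset V}
    {c : V → Fin r} {w : V} {T L : Finset V} {p q : V}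

theorem cL (h : WS G N H c w T L p q) {b : V} (hb : b ∈ L) : b ∈ H ∧ c b = c q :=
  mem_cl.1 (h.hL hb)

theorem pL (h : WS G N H c w T L p q) : p ∉ L := fun hp => h.hpq (cL h hp).2

theorem ne_w (h : WS G N H c w T L p q) {b : V} (hb : b ∈ H) : b ≠ w := fun e => h.hw (e ▸ hb)

theorem pH (h : WS G N H c w T L p q) : p ∈ H := h.hT h.hp

theorem ws_ad (h : WS G N H c w T L p q) (a b : V) :
    ad G a b = chi (a ∈ H ∧ b ∈ H ∧ c a ≠ c b) + chi (a = w ∧ b ∈ T) + chi (b = w ∧ a ∈ T)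
      - chi (a = p ∧ b ∈ L) - chi (b = p ∧ a ∈ L) := by
  unfold ad
  by_cases h1 : a = p ∧ b ∈ L
  · obtain ⟨rfl, hb⟩ := h1
    have hb' := cL h hb
    rw [chi_neg (p := G.Adj a b), chi_pos (p := a ∈ H ∧ b ∈ H ∧ c a ≠ c b),
      chi_neg (p := a = w ∧ b ∈ T), chi_neg (p := b = w ∧ a ∈ T), chi_pos (p := a = a ∧ b ∈ L),
      chi_neg (p := b = a ∧ a ∈ L)]
    · norm_num
    · exact fun e => pL h e.2
    · exact ⟨rfl, hb⟩
    · exact fun e => ne_w h hb'.1 e.1
    · exact fun e => ne_w h (pH h) e.1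
    · exact ⟨pH h, hb'.1, by rw [hb'.2]; exact h.hpq⟩
    · rw [h.adj]
      rintro (e | e | e)
      · exact e.2.2.2.1 ⟨rfl, hb⟩
      · exact ne_w h (pH h) e.1
      · exact ne_w h hb'.1 e.1
  by_cases h2 : b = p ∧ a ∈ L
  · obtain ⟨rfl, ha⟩ := h2
    have ha' := cL h ha
    rw [chi_neg (p := G.Adj a b), chi_pos (p := a ∈ H ∧ b ∈ H ∧ c a ≠ c b),
      chi_neg (p := a = w ∧ b ∈ T), chi_neg (p := b = w ∧ a ∈ T), chi_neg (p := a = b ∧ b ∈ L),
      chi_pos (p := b = b ∧ a ∈ L)]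
    · norm_num
    · exact ⟨rfl, ha⟩
    · exact fun e => pL h e.2
    · exact fun e => ne_w h (pH h) e.1
    · exact fun e => ne_w h ha'.1 e.1
    · exact ⟨ha'.1, pH h, by rw [ha'.2]; exact h.hpq.symm⟩
    · rw [h.adj]
      rintro (e | e | e)
      · exact e.2.2.2.2 ⟨rfl, ha⟩
      · exact ne_w h ha'.1 e.1
      · exact ne_w h (pH h) e.1
  rw [chi_neg h1, chi_neg h2]
  by_cases h3 : a = w ∧ b ∈ T
  · have hb : b ∈ H := h.hT h3.2
    rw [chi_pos (p := G.Adj a b), chi_neg (p := a ∈ H ∧ b ∈ H ∧ c a ≠ c b), chi_pos h3,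
      chi_neg (p := b = w ∧ a ∈ T)]
    · norm_num
    · exact fun e => ne_w h hb e.1
    · exact fun e => h.hw (h3.1 ▸ e.1)
    · exact (h.adj a b).2 (Or.inr (Or.inl h3))
  by_cases h4 : b = w ∧ a ∈ T
  · have ha : a ∈ H := h.hT h4.2
    rw [chi_pos (p := G.Adj a b), chi_neg (p := a ∈ H ∧ b ∈ H ∧ c a ≠ c b), chi_pos h4,
      chi_neg h3]
    · norm_num
    · exact fun e => h.hw (h4.1 ▸ e.2.1)
    · exact (h.adj a b).2 (Or.inr (Or.inr h4))
  rw [chi_neg h3, chi_neg h4]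
  rw [chi_congr (p := G.Adj a b) (q := a ∈ H ∧ b ∈ H ∧ c a ≠ c b)]
  · ring
  · rw [h.adj]
    tauto

theorem sum_mem (S : Finset V) (x : V → ℝ) : ∑ v, chi (v ∈ S) * x v = ∑ v ∈ S, x v := by
  classical
  have h1 : ∀ v, chi (v ∈ S) * x v = if v ∈ S then x v else 0 := by
    intro v
    by_cases h : v ∈ S
    · rw [chi_pos h, one_mul, if_pos h]
    · rw [chi_neg h, zero_mul, if_neg h]
  simp only [h1, Finset.sum_ite_mem, Finset.univ_inter]

theorem sum_and (P : Prop) (S : Finset V) (x : V → ℝ) :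
    ∑ v, chi (P ∧ v ∈ S) * x v = chi P * ∑ v ∈ S, x v := by
  by_cases hP : P
  · rw [chi_pos hP, one_mul, ← sum_mem S x]
    refine Finset.sum_congr rfl fun v _ => ?_
    rw [chi_congr (p := P ∧ v ∈ S) (q := v ∈ S) (by tauto)]
  · rw [chi_neg hP, zero_mul]
    refine Finset.sum_eq_zero fun v _ => ?_
    rw [chi_neg (fun e => hP e.1), zero_mul]

theorem sum_pt' (P : Prop) (p : V) (x : V → ℝ) :
    ∑ v, chi (v = p ∧ P) * x v = chi P * x p := by
  have h := sum_and P {p} x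
  rw [Finset.sum_singleton] at h
  rw [← h]
  refine Finset.sum_congr rfl fun v _ => ?_
  rw [chi_congr (p := v = p ∧ P) (q := P ∧ v ∈ ({p} : Finset V)) (by simp [and_comm])]

theorem eig (h : WS G N H c w T L p q) {x : V → ℝ} {lam : ℝ} (hx : PV G x lam) {u : V}
    (hu : u ∈ H) :
    lam * x u = (∑ v ∈ H, x v - cs x H c (c u)) + chi (u ∈ T) * x w - chi (u = p) * ∑ v ∈ L, x v
      - chi (u ∈ L) * x p := by
  rw [← hx.eig u]
  have h1 : ∀ v, ad G u v * x v = chi (v ∈ H) * x v - chi (v ∈ cl H c (c u)) * x v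
      + chi (v = w ∧ u ∈ T) * x v - chi (u = p ∧ v ∈ L) * x v - chi (v = p ∧ u ∈ L) * x v := by
    intro v
    rw [ws_ad h]
    have h2 : chi (u ∈ H ∧ v ∈ H ∧ c u ≠ c v) = chi (v ∈ H) - chi (v ∈ cl H c (c u)) := by
      by_cases hv : v ∈ H
      · by_cases hc : c v = c u
        · rw [chi_neg (p := u ∈ H ∧ v ∈ H ∧ c u ≠ c v) (fun e => e.2.2 hc.symm), chi_pos hv,
            chi_pos (mem_cl.2 ⟨hv, hc⟩)]; ring
        · rw [chi_pos (p := u ∈ H ∧ v ∈ H ∧ c u ≠ c v) ⟨hu, hv, fun e => hc e.symm⟩, chi_pos hv,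
            chi_neg (fun e => hc (mem_cl.1 e).2)]; ring
      · rw [chi_neg (p := u ∈ H ∧ v ∈ H ∧ c u ≠ c v) (fun e => hv e.2.1), chi_neg hv,
            chi_neg (fun e => hv (mem_cl.1 e).1)]; ring
    rw [h2, chi_neg (p := u = w ∧ v ∈ T) (fun e => ne_w h hu e.1)]
    ring
  rw [Finset.sum_congr rfl fun v _ => h1 v]
  simp only [Finset.sum_add_distrib, Finset.sum_sub_distrib, sum_mem, sum_and, sum_pt']
  rfl

theorem pair_ws {G' : SimpleGraph V} {L' : Finset V} {p' q' : V} (h : WS G N H c w T L p q)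
    (h' : WS G' N H c w T L' p' q') (x y : V → ℝ) :
    ∑ a, ∑ b, (ad G' a b - ad G a b) * (x a * y b) =
      x p * ∑ b ∈ L, y b + y p * ∑ b ∈ L, x b - x p' * ∑ b ∈ L', y b - y p' * ∑ b ∈ L', x b := by
  have h1 : ∀ a b, (ad G' a b - ad G a b) * (x a * y b) =
      chi (a = p ∧ b ∈ L) * (x a * y b) + chi (b = p ∧ a ∈ L) * (x a * y b)
      - chi (a = p' ∧ b ∈ L') * (x a * y b) - chi (b = p' ∧ a ∈ L') * (x a * y b) := by
    intro a b
    rw [ws_ad h, ws_ad h']
    ring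
  simp only [h1, Finset.sum_add_distrib, Finset.sum_sub_distrib, D3.sum_left, D3.sum_right]

theorem sum_L (L : Finset V) {q b0 : V} (hq : q ∈ L) (x : V → ℝ)
    (h : ∀ b ∈ L, b ≠ q → x b = x b0) :
    ∑ b ∈ L, x b = x q + ((L.card : ℝ) - 1) * x b0 := by
  classical
  rw [← Finset.add_sum_erase L x hq]
  have h1 : ∑ b ∈ L.erase q, x b = ∑ _b ∈ L.erase q, x b0 :=
    Finset.sum_congr rfl fun b hb => h b (Finset.mem_of_mem_erase hb) (Finset.ne_of_mem_erase hb)
  rw [h1, Finset.sum_const, nsmul_eq_mul, Finset.card_erase_of_mem hq,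
    Nat.cast_sub (Finset.card_pos.2 ⟨q, hq⟩), Nat.cast_one]

theorem T_uniq (h : WS G N H c w T L p q) {t t' : V} (ht : t ∈ T) (ht' : t' ∈ T)
    (hc : c t = c t') : t = t' :=
  Finset.card_le_one.1 (h.hT1 (c t)).le t (mem_cl.2 ⟨ht, rfl⟩) t' (mem_cl.2 ⟨ht', hc.symm⟩)

/-- the equations of the eigenvector: centre `p`, leaves `L`, `a` in the class of `p`, `b ∈ L` -/
theorem eqs (h : WS G N H c w T L p q) {x : V → ℝ} {lam : ℝ} (hx : PV G x lam) :
    lam * x p = ∑ v ∈ H, x v - cs x H c (c p) + x w - ∑ v ∈ L, x v ∧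
    lam * x q = ∑ v ∈ H, x v - cs x H c (c q) + x w - x p ∧
    (∀ b ∈ L, b ≠ q → lam * x b = ∑ v ∈ H, x v - cs x H c (c q) - x p) ∧
    (∀ a ∈ H, c a = c p → a ≠ p → lam * x a = ∑ v ∈ H, x v - cs x H c (c p)) := by
  have hqp : q ≠ p := fun e => h.hpq (by rw [e])
  refine ⟨?_, ?_, ?_, ?_⟩
  · rw [eig h hx (pH h), chi_pos h.hp, chi_pos rfl, chi_neg (pL h)]; ring
  · rw [eig h hx (h.hT h.hq), chi_pos h.hq, chi_neg hqp, chi_pos h.hqL]; ring
  · intro b hb hbq
    have hb' := cL h hb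
    rw [eig h hx hb'.1, chi_neg (fun e => hbq (T_uniq h e h.hq hb'.2)),
      chi_neg (p := b = p) (fun e => pL h (e ▸ hb)), chi_pos hb, hb'.2]; ring
  · intro a ha hca hap
    rw [eig h hx ha, chi_neg (fun e => hap (T_uniq h e h.hp hca)), chi_neg hap,
      chi_neg (fun e => h.hpq (by rw [← hca, (cL h e).2])), hca]; ring

theorem gF_WS {L' : Finset V} (h : WS G N H c w T L p q) (hL' : L' ⊆ cl H c (c p))
    (hpL' : p ∈ L') : WS (gF H c w T (fun x z => x = q ∧ z ∈ L')) N H c w T L' q p where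
  card := h.card
  hw := h.hw
  hT := h.hT
  hT1 := h.hT1
  hp := h.hq
  hq := h.hp
  hpq := h.hpq.symm
  hL := hL'
  hqL := hpL'
  adj := by
    intro a b
    change (a ≠ b ∧ _) ↔ _
    constructor
    · rintro ⟨-, h1⟩
      exact h1
    · intro h1
      refine ⟨?_, h1⟩
      rintro rfl
      rcases h1 with h1 | h1 | h1
      · exact h1.2.2.1 rfl
      · exact ne_w h (h.hT h1.2) h1.1
      · exact ne_w h (h.hT h1.2) h1.1

theorem dif {r : ℕ} (hr : 3 ≤ r) {d s t xb : ℝ} (hxb : 0 < xb)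
    (h : |d - al r * (s - t) * xb| ≤ 1 / 100 * xb * (|s - t| + 1)) (hst : 1 ≤ s - t) :
    16 / 25 * xb ≤ d := by
  have h1 := (abs_le.mp h).1
  rw [abs_of_pos (by linarith : 0 < s - t)] at h1
  have h2 : 2 / 3 * ((s - t) * xb) ≤ al r * ((s - t) * xb) :=
    mul_le_mul_of_nonneg_right (al_ge hr) (mul_nonneg (by linarith) hxb.le)
  have h3 : xb ≤ (s - t) * xb := by
    have := mul_le_mul_of_nonneg_right hst hxb.le
    linarith
  have e1 : al r * (s - t) * xb = al r * ((s - t) * xb) := by ring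
  have e2 : 1 / 100 * xb * (s - t + 1) = 1 / 100 * ((s - t) * xb) + 1 / 100 * xb := by ring
  rw [e1, e2] at h1
  linarith

end

end X_FS2

open X_FS2 in
theorem x_FS2 (hGS : Stmt_GS) : Stmt_FS2 := by
  classical
  intro r hr
  obtain ⟨K, -, hK⟩ := pFLAT r hr
  obtain ⟨δ1, N1, hδ1, -, hE⟩ := hK (1 / 100) (by norm_num)
  have hr3 : (3 : ℝ) ≤ r := by exact_mod_cast hr
  have hr0 : (0 : ℝ) < r := by linarith
  have hb : (0 : ℝ) < 1 / (4 * r) := by positivity
  have hd0 : 0 < min (δ1 / 2) (1 / (4 * r)) := lt_min (by linarith) hb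
  refine ⟨min (δ1 / 2) (1 / (4 * r)), max N1 4, hd0, ?_⟩
  intro N hN V _ G c H w T L p q hC hW hM hL2 hlt
  have hNN1 : N1 ≤ N := (le_max_left _ _).trans hN
  have hN4 : 4 ≤ N := (le_max_right _ _).trans hN
  have hNR : (4 : ℝ) ≤ N := by exact_mod_cast hN4
  obtain ⟨-, hmis, hfree, hcol, hpE⟩ := hGS r hr V G N H c w T L p q hW
  have hX : 0 < 1 / (4 * (r : ℝ)) * N := by positivity
  have hδN : min (δ1 / 2) (1 / (4 * (r : ℝ))) * N ≤ 1 / (4 * r) * N :=
    mul_le_mul_of_nonneg_right (min_le_right _ _) (by linarith)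
  have hLN : 2 * (L.card : ℝ) ≤ 1 / (4 * r) * N := by
    have := hC.mis
    rw [hmis] at this
    push_cast at this
    linarith
  have h3 : (N : ℝ) / r = 4 * (1 / (4 * r) * N) := by field_simp
  have hsz : ∀ i, 2 * L.card < (cl H c i).card := by
    intro i
    have h1 := (abs_le.1 (hC.bal i)).1
    unfold sz at h1
    have : 2 * (L.card : ℝ) < (cl H c i).card := by linarith
    exact_mod_cast this
  have hpH := pH hW
  obtain ⟨L', hpL', hL', hcard⟩ := Finset.exists_subsuperset_card_eq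
    (s := {p}) (t := cl H c (c p)) (n := L.card)
    (by rw [Finset.singleton_subset_iff]; exact mem_cl.2 ⟨hpH, rfl⟩)
    (by rw [Finset.card_singleton]; omega) (by have := hsz (c p); omega)
  rw [Finset.singleton_subset_iff] at hpL'
  obtain ⟨G', hG'⟩ : ∃ G' : SimpleGraph V, G' = gF H c w T (fun x z => x = q ∧ z ∈ L') := ⟨_, rfl⟩
  have hW' : WS G' N H c w T L' q p := by rw [hG']; exact gF_WS hW hL' hpL'
  obtain ⟨-, hmis', hfree', hcol', hpE'⟩ := hGS r hr V G' N H c w T L' q p hW'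
  have hpEeq : pE G' = pE G := by rw [hpE', hpE, hcard]
  have hle : specRad G' ≤ specRad G :=
    hM G' hfree' (hcol' (fun i => by rw [hcard]; exact hsz i)) hpEeq
  have hind' : ∀ u ∈ H, ∀ v ∈ H, c u = c v → ¬ G'.Adj u v := by
    intro u hu v hv huv hadj
    rcases (hW'.adj u v).mp hadj with h | h | h
    · exact h.2.2.1 huv
    · exact hW.hw (h.1 ▸ hu)
    · exact hW.hw (h.1 ▸ hv)
  have hC' := pTRF r _ N V G G' c H hC hind' hpEeq (by rw [hmis, hmis', hcard])
  have hV : Nonempty V := ⟨p⟩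
  obtain ⟨x, hx⟩ := exists_PV G
  obtain ⟨y, hy⟩ := exists_PV G'
  have hm1 : min (δ1 / 2) (1 / (4 * (r : ℝ))) ≤ δ1 / 2 := min_le_left _ _
  obtain ⟨xb, hxb, hdx, -⟩ := hE N hNN1 V G x _ c H (hC.mono (by linarith)) hx
  obtain ⟨yb, hyb, hdy, -⟩ := hE N hNN1 V G' y _ c H (hC'.mono (by linarith)) hy
  have hxb0 := hxb.xb0
  have hyb0 := hyb.xb0
  have hpair := pairing hx hy
  rw [pair_ws hW hW'] at hpair
  obtain ⟨xP, xQ, xL, xA⟩ := eqs hW hx
  obtain ⟨yQ, yP, yL, yA⟩ := eqs hW' hy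
  have hlN := abs_le.1 hxb.lamN
  have hlN' := abs_le.1 hyb.lamN
  generalize hlamdef : specRad G = lam at *
  generalize hlamdef' : specRad G' = lam' at *
  have h23 : 2 / 3 * (N : ℝ) ≤ al r * N := mul_le_mul_of_nonneg_right (al_ge hr) (by linarith)
  have h1N : al r * N ≤ (N : ℝ) := by
    have := mul_le_mul_of_nonneg_right (al_lt hr).le (by linarith : (0 : ℝ) ≤ N)
    linarith
  have hl'pos : 0 < lam' := by linarith [hlN'.1]
  have hlpos : 0 < lam := lt_of_lt_of_le hl'pos hle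
  have hl2 : 2 ≤ lam := by linarith [hlN.1]
  have hlr : lam ≤ 2 * lam' := by linarith [hlN.2, hlN'.1]
  obtain ⟨b0, hb0, hb0q⟩ := Finset.exists_mem_ne (by omega : 1 < L.card) q
  obtain ⟨a0, ha0, ha0p⟩ := Finset.exists_mem_ne (by omega : 1 < L'.card) p
  have cb0 := cL hW hb0
  have ca0 : a0 ∈ H ∧ c a0 = c p := cL hW' ha0
  have xa0 := xA a0 ca0.1 ca0.2 ha0p
  have xb0 := xL b0 hb0 hb0q
  have ya0 := yL a0 ha0 ha0p
  have yb0 := yA b0 cb0.1 cb0.2 hb0q
  -- the sums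
  have sLx : ∑ b ∈ L, x b = x q + ((L.card : ℝ) - 1) * x b0 :=
    sum_L L hW.hqL x fun b hb hbq => mul_left_cancel₀ hlpos.ne' (by rw [xL b hb hbq, xb0])
  have sLy : ∑ b ∈ L, y b = y q + ((L.card : ℝ) - 1) * y b0 :=
    sum_L L hW.hqL y fun b hb hbq => mul_left_cancel₀ hl'pos.ne'
      (by rw [yA b (cL hW hb).1 (cL hW hb).2 hbq, yb0])
  have sLy' : ∑ b ∈ L', y b = y p + ((L.card : ℝ) - 1) * y a0 := by
    rw [← hcard]
    exact sum_L L' hpL' y fun b hb hbq => mul_left_cancel₀ hl'pos.ne' (by rw [yL b hb hbq, ya0])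
  have sLx' : ∑ b ∈ L', x b = x p + ((L.card : ℝ) - 1) * x a0 := by
    rw [← hcard]
    exact sum_L L' hpL' x fun b hb hbq => mul_left_cancel₀ hlpos.ne'
      (by rw [xA b (cL hW' hb).1 (cL hW' hb).2 hbq, xa0])
  rw [sLx, sLy, sLy', sLx'] at hpair
  rw [sLx] at xP
  rw [sLy'] at yQ
  have hMR : (2 : ℝ) ≤ L.card := by exact_mod_cast hL2
  have hg : 1 ≤ sz H c (c q) - sz H c (c p) := by
    unfold sz
    have : ((cl H c (c p)).card : ℝ) + 1 ≤ (cl H c (c q)).card := by exact_mod_cast hlt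
    linarith
  have hDx := dif hr hxb0 (hdx (c q) (c p)) hg
  have hDy := dif hr hyb0 (hdy (c q) (c p)) hg
  have hs : 1 / lam * lam = 1 := by rw [one_div, inv_mul_cancel₀ hlpos.ne']
  have hs' : 1 / lam' * lam' = 1 := by rw [one_div, inv_mul_cancel₀ hl'pos.ne']
  have bx := fun v (hv : v ∈ H) => abs_le.1 (hxb.xH v hv)
  have bY := fun v (hv : v ∈ H) => abs_le.1 (hyb.xH v hv)
  have hqH := hW.hT hW.hq
  have key := ineq (s := 1 / lam) (s' := 1 / lam') (a := x a0) (a' := y a0) (b := x b0)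
    (b' := y b0) (xp := x p) (xq := x q) (xw := x w) (yp := y p) (yq := y q) (yw := y w)
    (D := cs x H c (c q) - cs x H c (c p)) (D' := cs y H c (c q) - cs y H c (c p))
    (xb := xb) (yb := yb) (M := L.card)
    (one_div_pos.2 hlpos) (one_div_le_one_div_of_le hl'pos hle)
    (by rw [div_le_iff₀ hl'pos]; have := hs; field_simp; linarith)
    (one_div_le_one_div_of_le (by norm_num) hl2) (by linarith) hxb0 hyb0
    (by linear_combination (-(x a0 - x b0)) * hs + (1 / lam) * xa0 - (1 / lam) * xb0)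
    (by linear_combination (-(y a0 - y b0)) * hs' + (1 / lam') * ya0 - (1 / lam') * yb0)
    (by linear_combination (-(x q - x b0)) * hs + (1 / lam) * xQ - (1 / lam) * xb0)
    (by linear_combination (-(y p - y a0)) * hs' + (1 / lam') * yP - (1 / lam') * ya0)
    (by linear_combination (-(x p - x a0)) * hs + (1 / lam) * xP - (1 / lam) * xa0)
    (by linear_combination (-(y q - y b0)) * hs' + (1 / lam') * yQ - (1 / lam') * yb0)
    (by linarith [(bx a0 ca0.1).1]) (by linarith [(bx a0 ca0.1).2])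
    (by linarith [(bY a0 ca0.1).1]) (by linarith [(bY b0 cb0.1).1])
    (by linarith [(bY b0 cb0.1).2]) (by linarith [(bx p hpH).1]) (by linarith [(bx p hpH).2])
    (by linarith [(bY q hqH).1]) (by linarith [(bY q hqH).2])
    (hx.nn w) (hxb.xo w hW.hw) (hy.nn w) (hyb.xo w hW.hw) hDx hDy
  have hPn : 0 ≤ ∑ v, x v * y v := Finset.sum_nonneg fun v _ => mul_nonneg (hx.nn v) (hy.nn v)
  have h7 : (lam' - lam) * ∑ v, x v * y v ≤ 0 :=
    mul_nonpos_of_nonpos_of_nonneg (by linarith) hPn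
  have h8 : 0 < ((L.card : ℝ) - 1) *
      (x p * y b0 + y p * x b0 - x q * y a0 - y q * x a0) := mul_pos (by linarith) key
  linarith

end Pool.Agent.Work.MP_5532fa_up
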