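import Pool.Agent.Work.MP_5532fa_x.Interface2

/-!
# MP_5532fa_co, sixth round, theorem B: the block LAMG (spectral radius of a gadget)
-/

open Finset

namespace Pool.Agent.Work.MP_5532fa_up

open MP5532fa (specRad qf pE)

namespace X_LAMG

variable {V : Type} [Fintype V] {r : ℕ}

private lemma jd_sum (v1 v2 : V) (x : V → ℝ) (v : V) :
    ∑ z, JD v1 v2 v z * x z = -(chi (v = v1) * x v2) - chi (v = v2) * x v1 := by
  classical
  have h1 : ∀ p q : V, ∑ z, chi (v = p ∧ z = q) * x z = chi (v = p) * x q := by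
    intro p q
    rw [Finset.sum_eq_single q]
    · rw [chi_congr (p := v = p ∧ q = q) (q := v = p) (by simp)]
    · intro b _ hb
      rw [chi_neg (fun h => hb h.2), zero_mul]
    · intro h; exact absurd (Finset.mem_univ _) h
  have h2 : ∀ z, JD v1 v2 v z * x z = -(chi (v = v1 ∧ z = v2) * x z) - chi (v = v2 ∧ z = v1) * x z := by
    intro z; unfold JD; ring
  rw [Finset.sum_congr rfl fun z _ => h2 z, Finset.sum_sub_distrib, Finset.sum_neg_distrib,
    h1, h1]

private lemma row {G : SimpleGraph V} {H : Finset V} {c : V → Fin r} {w : V} {A : Finset V}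
    {v1 v2 : V} (hF : Fam G H c w A (JD v1 v2)) (x : V → ℝ) (u : V) :
    ∑ v, ad G u v * x v = chi (u ∈ H) * (∑ v ∈ H, x v - cs x H c (c u))
      + chi (u = w) * ∑ v ∈ A, x v
      + chi (u ∈ A) * x w - chi (u = v1) * x v2 - chi (u = v2) * x v1 := by
  have h : ∑ v, ad G u v * x v = ∑ v, chi (u ∈ H ∧ v ∈ H ∧ c u ≠ c v) * x v
      + ∑ v, chi (u = w ∧ v ∈ A) * x v + ∑ v, chi (v = w ∧ u ∈ A) * x v
      + ∑ z, JD v1 v2 u z * x z := by
    rw [← Finset.sum_add_distrib, ← Finset.sum_add_distrib, ← Finset.sum_add_distrib]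
    refine Finset.sum_congr rfl fun v _ => ?_
    rw [hF.adj u v]
    ring
  rw [h, CSE.row1, CSE.row2, CSE.row3, jd_sum]
  ring

private lemma chi_sum (S : Finset V) (f : V → ℝ) : ∑ u, chi (u ∈ S) * f u = ∑ u ∈ S, f u := by
  classical
  rw [← Finset.sum_subset (Finset.subset_univ S)]
  · refine Finset.sum_congr rfl fun v hv => ?_
    rw [chi_pos hv, one_mul]
  · intro v _ hv
    rw [chi_neg hv, zero_mul]

private lemma chi_one (p : V) (f : V → ℝ) : ∑ u, chi (u = p) * f u = f p := by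
  classical
  rw [Finset.sum_eq_single p]
  · rw [chi_pos rfl, one_mul]
  · intro b _ hb
    rw [chi_neg hb, zero_mul]
  · intro h; exact absurd (Finset.mem_univ _) h

private lemma form {G : SimpleGraph V} {H : Finset V} {c : V → Fin r} {w : V} {A : Finset V}
    {v1 v2 : V} (hF : Fam G H c w A (JD v1 v2)) (x : V → ℝ) :
    ∑ u, ∑ v, ad G u v * (x u * x v) = ((∑ v ∈ H, x v) ^ 2 - ∑ i, cs x H c i ^ 2)
      + 2 * x w * ∑ v ∈ A, x v - 2 * (x v1 * x v2) := by
  have h1 : ∀ u, ∑ v, ad G u v * (x u * x v) =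
      chi (u ∈ H) * (x u * (∑ v ∈ H, x v - cs x H c (c u)))
      + chi (u = w) * (x u * ∑ v ∈ A, x v)
      + chi (u ∈ A) * (x u * x w) - chi (u = v1) * (x u * x v2) - chi (u = v2) * (x u * x v1) := by
    intro u
    have : ∑ v, ad G u v * (x u * x v) = x u * ∑ v, ad G u v * x v := by
      rw [Finset.mul_sum]; exact Finset.sum_congr rfl fun v _ => by ring
    rw [this, row hF x u]
    ring
  rw [Finset.sum_congr rfl fun u _ => h1 u, Finset.sum_sub_distrib, Finset.sum_sub_distrib,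
    Finset.sum_add_distrib, Finset.sum_add_distrib, chi_sum, chi_sum, chi_one, chi_one, chi_one]
  have h2 : ∑ u ∈ H, x u * (∑ v ∈ H, x v - cs x H c (c u)) =
      (∑ v ∈ H, x v) ^ 2 - ∑ i, cs x H c i ^ 2 := by
    have h3 : ∑ u ∈ H, x u * (∑ v ∈ H, x v - cs x H c (c u)) =
        (∑ u ∈ H, x u) * ∑ v ∈ H, x v - ∑ u ∈ H, x u * cs x H c (c u) := by
      rw [Finset.sum_mul, ← Finset.sum_sub_distrib]
      exact Finset.sum_congr rfl fun u _ => by ring
    have h4 : ∑ u ∈ H, x u * cs x H c (c u) = ∑ i, cs x H c i ^ 2 := by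
      rw [← sum_cl H c]
      refine Finset.sum_congr rfl fun i _ => ?_
      have : ∀ v ∈ cl H c i, x v * cs x H c (c v) = x v * cs x H c i := by
        intro v hv
        rw [(mem_cl.1 hv).2]
      rw [Finset.sum_congr rfl this, ← Finset.sum_mul]
      unfold cs
      ring
    rw [h3, h4]
    ring
  have h5 : ∑ u ∈ A, x u * x w = (∑ u ∈ A, x u) * x w := by rw [Finset.sum_mul]
  rw [h2, h5]
  ring

private lemma le_one {G : SimpleGraph V} {x : V → ℝ} {lam : ℝ} (h : PV G x lam) (v : V) :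
    x v ≤ 1 := by
  have h1 : x v ^ 2 ≤ 1 := by
    rw [← h.unit]
    exact Finset.single_le_sum (f := fun v => x v ^ 2) (fun i _ => sq_nonneg _)
      (Finset.mem_univ v)
  exact (sq_le_one_iff₀ (h.nn v)).1 h1

private lemma upper (hr : 3 ≤ r) {G : SimpleGraph V} {n : ℕ} {H : Finset V} {c : V → Fin r}
    {w : V} {A : Finset V} {v1 v2 : V} {x : V → ℝ} {lam : ℝ} (hH : H.card = n)
    (hF : Fam G H c w A (JD v1 v2)) (hA : A.card = r) (hP : PV G x lam) :
    lam ≤ al r * n + 2 * r := by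
  have hr0 : (0 : ℝ) < r := by
    have : 0 < r := by omega
    exact_mod_cast this
  have h1 := form hF x
  rw [hP.form] at h1
  have h2 : (∑ v ∈ H, x v) ^ 2 ≤ n := by
    have h3 : (∑ v ∈ H, x v) ^ 2 ≤ (H.card : ℝ) * ∑ v ∈ H, x v ^ 2 := sq_sum_le_card_mul_sum_sq
    have h4 : ∑ v ∈ H, x v ^ 2 ≤ 1 := by
      rw [← hP.unit]
      exact Finset.sum_le_sum_of_subset_of_nonneg (Finset.subset_univ H)
        (fun i _ _ => sq_nonneg _)
    have h5 : (0 : ℝ) ≤ (H.card : ℝ) := Nat.cast_nonneg _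
    rw [hH] at h3 h5
    nlinarith
  have h6 : (∑ v ∈ H, x v) ^ 2 ≤ r * ∑ i, cs x H c i ^ 2 := by
    have h7 : ∑ i, cs x H c i = ∑ v ∈ H, x v := sum_cl H c x
    have h8 := sq_sum_le_card_mul_sum_sq (s := (Finset.univ : Finset (Fin r)))
      (f := fun i => cs x H c i)
    rw [h7, Finset.card_univ, Fintype.card_fin] at h8
    exact h8
  have h9 : x w * ∑ v ∈ A, x v ≤ r := by
    have h10 : ∑ v ∈ A, x v ≤ r := by
      have : ∑ v ∈ A, x v ≤ ∑ v ∈ A, (1 : ℝ) := Finset.sum_le_sum fun v _ => le_one hP v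
      rw [Finset.sum_const, nsmul_eq_mul, mul_one, hA] at this
      exact this
    have h11 : 0 ≤ ∑ v ∈ A, x v := Finset.sum_nonneg fun v _ => hP.nn v
    calc x w * ∑ v ∈ A, x v ≤ 1 * ∑ v ∈ A, x v :=
          mul_le_mul_of_nonneg_right (le_one hP w) h11
      _ ≤ r := by linarith
  have h12 : 0 ≤ x v1 * x v2 := mul_nonneg (hP.nn _) (hP.nn _)
  have h13 : (∑ v ∈ H, x v) ^ 2 / r ≤ ∑ i, cs x H c i ^ 2 := by
    rw [div_le_iff₀ hr0]; linarith
  have h14 : (∑ v ∈ H, x v) ^ 2 - ∑ i, cs x H c i ^ 2 ≤ al r * n := by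
    have h15 : (∑ v ∈ H, x v) ^ 2 - (∑ v ∈ H, x v) ^ 2 / r = al r * (∑ v ∈ H, x v) ^ 2 := by
      unfold al; ring
    have h16 : al r * (∑ v ∈ H, x v) ^ 2 ≤ al r * n :=
      mul_le_mul_of_nonneg_left h2 (by linarith [al_ge hr])
    linarith
  nlinarith

private lemma lower (hr : 3 ≤ r) {G : SimpleGraph V} {n : ℕ} {H : Finset V} {c : V → Fin r}
    {w : V} {A : Finset V} {v1 v2 : V} {x : V → ℝ} {lam B : ℝ} (hB : 1 ≤ B) (hn : 1 ≤ n)
    (hH : H.card = n)
    (hF : Fam G H c w A (JD v1 v2)) (hz : ∀ i, |sz H c i - n / r| ≤ B * √(n : ℝ))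
    (hP : PV G x lam) : al r * n - (r * B ^ 2 + 2) ≤ lam := by
  classical
  have hr0 : (0 : ℝ) < r := by
    have : 0 < r := by omega
    exact_mod_cast this
  have hn1 : (1 : ℝ) ≤ n := by exact_mod_cast hn
  have := hP.nonempty
  set z : V → ℝ := fun v => chi (v ∈ H) with hzdef
  have h1 := rayleigh G z
  rw [← hP.rad, form hF z] at h1
  have h2 : ∑ v ∈ H, z v = n := by
    have : ∑ v ∈ H, z v = ∑ v ∈ H, (1 : ℝ) :=
      Finset.sum_congr rfl fun v hv => chi_pos hv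
    rw [this, Finset.sum_const, nsmul_eq_mul, mul_one, hH]
  have h3 : ∀ i, cs z H c i = sz H c i := by
    intro i
    unfold cs sz
    have : ∑ v ∈ cl H c i, z v = ∑ v ∈ cl H c i, (1 : ℝ) :=
      Finset.sum_congr rfl fun v hv => chi_pos (mem_cl.1 hv).1
    rw [this, Finset.sum_const, nsmul_eq_mul, mul_one]
  have h4 : z w = 0 := chi_neg hF.hw
  have h5 : z v1 * z v2 ≤ 1 := by
    have h6 := chi_le_one (v1 ∈ H)
    have h7 := chi_le_one (v2 ∈ H)
    have h8 := chi_nonneg (v1 ∈ H)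
    have h9 := chi_nonneg (v2 ∈ H)
    exact mul_le_one₀ h6 h9 h7
  have h6 : ∑ v, z v ^ 2 = n := by
    have : ∀ v, z v ^ 2 = chi (v ∈ H) * z v := by
      intro v; rw [hzdef]; ring
    rw [Finset.sum_congr rfl fun v _ => this v, chi_sum, h2]
  rw [h2, h6, h4] at h1
  simp only [h3] at h1
  have h7 : ∑ i, sz H c i = n := by
    unfold sz
    have := sum_card_cl H c
    rw [hH] at this
    exact_mod_cast this
  have h8 : ∑ i, sz H c i ^ 2 ≤ (n : ℝ) ^ 2 / r + r * B ^ 2 * n := by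
    have h9 : ∀ i, sz H c i ^ 2 ≤ B ^ 2 * n + 2 * (n / r) * sz H c i - (n / r) ^ 2 := by
      intro i
      have h10 : (sz H c i - n / r) ^ 2 ≤ (B * √(n : ℝ)) ^ 2 := sq_le_sq' (by
        have := (abs_le.1 (hz i)).1; linarith) (abs_le.1 (hz i)).2
      rw [mul_pow, Real.sq_sqrt (Nat.cast_nonneg n)] at h10
      nlinarith
    have h11 : ∑ i, sz H c i ^ 2 ≤
        ∑ i : Fin r, (B ^ 2 * n + 2 * (n / r) * sz H c i - (n / r) ^ 2) :=
      Finset.sum_le_sum fun i _ => h9 i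
    have h16 : ∑ i : Fin r, 2 * ((n : ℝ) / r) * sz H c i = 2 * ((n : ℝ) / r) * n := by
      rw [← Finset.mul_sum, h7]
    rw [Finset.sum_sub_distrib, Finset.sum_add_distrib, h16, Finset.sum_const,
      Finset.sum_const, Finset.card_univ, Fintype.card_fin, nsmul_eq_mul, nsmul_eq_mul] at h11
    have h12 : (r : ℝ) * (n / r : ℝ) ^ 2 = (n : ℝ) ^ 2 / r := by
      field_simp
    have h13 : 2 * ((n : ℝ) / r) * n = 2 * ((n : ℝ) ^ 2 / r) := by ring
    rw [h12, h13] at h11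
    linarith
  have h14 : (al r * n - (r * B ^ 2 + 2)) * n ≤ lam * n := by
    have h15 : al r * (n : ℝ) * n = (n : ℝ) ^ 2 - (n : ℝ) ^ 2 / r := by unfold al; ring
    nlinarith
  exact le_of_mul_le_mul_right h14 (by linarith)

end X_LAMG

open X_LAMG in
/-- **LAMG** : spectral radius of a gadget -/
theorem x_LAMG : Stmt_LAMG := by
  intro r B hr hB
  have hr0 : (3 : ℝ) ≤ r := by exact_mod_cast hr
  refine ⟨r * B ^ 2 + 2 * r + 2, 1, ?_, ?_⟩
  · nlinarith [sq_nonneg B]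
  · intro n hn V _ G x lam c H w A v1 v2 hW hA hz hP
    have hF := (pFAM r hr V G n H c w A).1 v1 v2 hW
    have h1 := upper hr hW.card hF hA hP
    have h2 := lower hr hB hn hW.card hF hz hP
    have h3 : 0 ≤ (r : ℝ) * B ^ 2 := by positivity
    rw [abs_le]
    constructor <;> linarith

end Pool.Agent.Work.MP_5532fa_up
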