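import Pool.Agent.Work.MP_5532fa_x.Interface5

/-!
# MP_5532fa_co, sixth round, block MAIN6 (`r = 6`, `X ≥ 2/3 + ε`)
-/

open Finset

namespace Pool.Agent.Work.MP_5532fa_up

open MP5532fa (specRad qf pE)

namespace X_MAIN6

/-- the class sizes of a gadget with the right number of edges are near the mean -/
private lemma dev {V : Type} [Fintype V] {r n : ℕ} (hr : 3 ≤ r) {G : SimpleGraph V}
    {H : Finset V} {c : V → Fin r} {w : V} {A : Finset V} {v1 v2 : V}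
    (hW : WD G n H c w A v1 v2) (hA : A.card = r)
    (hE : al r * (n : ℝ) ^ 2 - pE G + 2 * ((r : ℝ) - 1) ≤ 4 * n) (i : Fin r) :
    |sz H c i - n / r| ≤ 2 * √(n : ℝ) := by
  have hsum : ∑ i, sz H c i = (n : ℝ) := by
    have h1 : ∑ i, (cl H c i).card = H.card := sum_card_cl H c
    rw [hW.card] at h1
    unfold sz
    exact_mod_cast h1
  have h2 := mo_two hr hsum
  have h3 := (pGD r hr V G n H c w A v1 v2 hW).2.2
  rw [hA] at h3
  have h4 : mo 2 n (sz H c) ≤ 4 * n := by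
    rw [h2]
    have h5 : al r * (n : ℝ) ^ 2 = (n : ℝ) ^ 2 - (n : ℝ) ^ 2 / r := by unfold al; ring
    rw [h5, h3] at hE
    linarith only [hE]
  have h5 : (sz H c i - n / r) ^ 2 ≤ 4 * n := by
    refine le_trans ?_ h4
    unfold mo
    exact Finset.single_le_sum (f := fun i => (sz H c i - (n : ℝ) / r) ^ 2)
      (fun _ _ => sq_nonneg _) (Finset.mem_univ i)
  have h6 : (sz H c i - n / r) ^ 2 ≤ (2 * √(n : ℝ)) ^ 2 := by
    rw [mul_pow, Real.sq_sqrt (Nat.cast_nonneg n)]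
    linarith only [h5]
  exact abs_le_of_sq_le_sq h6 (by positivity)

/-- gadgets with the right number of edges have the best class sizes -/
private lemma gphi (hCMPG : Stmt_CMPG) (hPHI6 : Stmt_PHI6) : ∃ n0 : ℕ, ∀ n ≥ n0,
    ∀ (V : Type) [Fintype V] (G : SimpleGraph V) (c : V → Fin 6) (H : Finset V) (w : V)
    (A : Finset V) (v1 v2 : V), WD G n H c w A v1 v2 → A.card = 6 → Top H c {c v1, c v2} →
    MX 6 G → (∀ i, |sz H c i - n / (6 : ℕ)| ≤ 2 * √(n : ℝ)) →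
    ∀ (y : Fin 6 → ℕ) (i k : Fin 6), i ≠ k → ∑ l, y l = n →
      ∑ l, y l ^ 2 = ∑ l, (cl H c l).card ^ 2 →
      PhF y i k ≤ PhF (fun l => (cl H c l).card) (c v1) (c v2) := by
  classical
  obtain ⟨C, n1, hC, h1⟩ := hCMPG 6 (by norm_num)
  obtain ⟨n2, h2⟩ := hPHI6 C hC
  refine ⟨max n1 n2, ?_⟩
  intro n hn V _ G c H w A v1 v2 hW hA hTop hMX hdev y i k hik hy1 hy2
  have hn1 : n1 ≤ n := (le_max_left _ _).trans hn
  have hn2 : n2 ≤ n := (le_max_right _ _).trans hn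
  have : Nonempty V := ⟨v1⟩
  obtain ⟨x, hx⟩ := exists_PV G
  obtain ⟨hlam, hcmp⟩ := h1 n hn1 V G x (specRad G) c H w A v1 v2 hW hA hMX hdev hx
  have hsum : ∑ l, (cl H c l).card = n := by
    rw [← hW.card]
    exact sum_card_cl H c
  have hGH : GH 6 C n (specRad G) (fun l => (cl H c l).card) (c v1) (c v2) := by
    refine ⟨hW.h12, hlam, hsum, fun l => hdev l, ?_, hcmp⟩
    intro l hl1 hl2
    have hl : l ∉ ({c v1, c v2} : Finset (Fin 6)) := by
      rw [mem_insert, mem_singleton]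
      rintro (h | h)
      · exact hl1 h
      · exact hl2 h
    exact ⟨hTop (c v1) l (mem_insert_self _ _) hl,
      hTop (c v2) l (mem_insert_of_mem (mem_singleton_self _)) hl⟩
  exact h2 n hn2 (fun l => (cl H c l).card) (c v1) (c v2) (specRad G) hGH y i k hik hy1 hy2

end X_MAIN6

/-- **MAIN6** : `r = 6`, `X ≥ 2/3 + ε` -/
theorem x_MAIN6 (hCMPG : Stmt_CMPG) (hPHI6 : Stmt_PHI6) : Stmt_MAIN6 := by
  intro ε hε
  have hr : 3 ≤ 6 := by norm_num
  obtain ⟨κ, hκ, H5⟩ := pMAIN5 6 hr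
  set e : ℝ := min (ε / 2) (1 / 100) with he
  have he0 : 0 < e := lt_min (by positivity) (by norm_num)
  have he1 : e ≤ ε / 2 := min_le_left _ _
  have he2 : e ≤ 1 / 100 := min_le_right _ _
  obtain ⟨m5, H5'⟩ := H5 e he0
  obtain ⟨nG, HG⟩ := X_MAIN6.gphi hCMPG hPHI6
  obtain ⟨M, hM⟩ : ∃ M, M = nG + 100 := ⟨_, rfl⟩
  refine ⟨m5 + M ^ 2 + 1, ?_⟩
  intro m hm N j hmj hlt hX V _ G hG
  have hNM := large_N pTN hr M (by omega) hlt
  have hal : al 6 = 5 / 6 := by unfold al; norm_num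
  have hN100 : (100 : ℝ) ≤ N := by exact_mod_cast (by omega : 100 ≤ N)
  have haN : (0 : ℝ) < al 6 * N := by rw [hal]; linarith
  have hCov : Cov 6 e N j := by
    refine Or.inr (Or.inl ⟨le_rfl, ?_⟩)
    have h1 : (1 : ℝ) - 2 / ((6 : ℕ) : ℝ) = 2 / 3 := by norm_num
    rw [h1]
    refine le_trans ?_ (le_abs_self _)
    linarith
  have h5 := H5' m (by omega) N j hmj hlt (Or.inl hCov) V G hG
  -- upper bound of `j`
  have hjN : j ≤ N := by
    have h1 := (pTN 6 hr N).2.2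
    omega
  have hXu : (j : ℝ) / (al 6 * N) ≤ 2 := by
    rw [div_le_iff₀ haN, hal]
    have : (j : ℝ) ≤ N := by exact_mod_cast hjN
    linarith
  have hjl : 10 < j := by
    have h1 : 2 / 3 ≤ (j : ℝ) / (al 6 * N) := by linarith
    rw [le_div_iff₀ haN, hal] at h1
    have h2 : (10 : ℝ) < j := by linarith
    exact_mod_cast h2
  rcases h5 with ⟨h1, _⟩ | ⟨_, _, _, _, h1⟩ | ⟨h1, _⟩ | ⟨_, _, h1⟩ | ⟨_, c, H, h2, _⟩
  · omega
  · exfalso
    have h2 : (1 : ℝ) - 2 / ((6 : ℕ) : ℝ) = 2 / 3 := by norm_num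
    rw [h2] at h1
    linarith
  · omega
  · exfalso
    set X : ℝ := (j : ℝ) / (al 6 * N) with hXd
    have hX0 : 0 ≤ X := by linarith
    have h2 : X ^ 4 ≤ 16 := by
      calc X ^ 4 ≤ 2 ^ 4 := pow_le_pow_left₀ hX0 hXu 4
        _ = 16 := by norm_num
    have h3 : X ^ 4 / (((6 : ℕ) : ℝ) * (((6 : ℕ) : ℝ) - 1)) ≤ 16 / 30 := by
      have h4 : (((6 : ℕ) : ℝ) * (((6 : ℕ) : ℝ) - 1)) = 30 := by norm_num
      rw [h4]
      linarith
    have h5 : (((6 : ℕ) : ℝ) + 1) = 7 := by norm_num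
    rw [h5] at h1
    linarith
  · obtain ⟨w, A, v1, v2, hW, hA, hT⟩ := h2
    have hE : al 6 * ((N + 1 : ℕ) : ℝ) ^ 2 - pE G + 2 * (((6 : ℕ) : ℝ) - 1)
        ≤ 4 * ((N + 1 : ℕ) : ℝ) := by
      have htn := (pTN 6 hr N).2.1
      rw [abs_le] at htn
      have hpE : pE G = 2 * ((tn 6 N : ℝ) + j) := by
        rw [hG.2.2.1, hmj]
        push_cast
        ring
      have hj0 : (0 : ℝ) ≤ j := Nat.cast_nonneg j
      rw [hpE, hal]
      rw [hal] at htn
      push_cast at htn ⊢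
      nlinarith [htn.1, hj0, hN100]
    refine ⟨H, c, w, A, v1, v2, hW, hA, hT, ?_⟩
    exact HG (N + 1) (by omega) V G c H w A v1 v2 hW hA hT hG.mx (X_MAIN6.dev hr hW hA hE)

end Pool.Agent.Work.MP_5532fa_up
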