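import Pool.Agent.Work.MP_5532fa_x.Interface

/-!
# MP_5532fa_co, sixth round, block MAINA
-/

open Finset

namespace Pool.Agent.Work.MP_5532fa_up

open MP5532fa (specRad qf pE)

namespace X_MAINA

/-- almost equal classes: all sizes are within `2 √N` of `N / r` -/
theorem bal_near {V : Type} [Fintype V] {r N : ℕ} (hr : 3 ≤ r) (hN : 1 ≤ N) {H : Finset V}
    {c : V → Fin r} (hc : H.card = N) (hB : Bal H c) (i : Fin r) :
    |(((cl H c i).card : ℕ) : ℝ) - N / r| ≤ 2 * √(N : ℝ) := by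
  have hrr : (3 : ℝ) ≤ r := by exact_mod_cast hr
  have hr0 : (0 : ℝ) < r := by linarith only [hrr]
  have hs : ∑ k, ((cl H c k).card : ℝ) = (N : ℝ) := by
    have := sum_card_cl H c
    rw [hc] at this
    exact_mod_cast this
  have h1 : (N : ℝ) ≤ r * (((cl H c i).card : ℝ) + 1) := by
    rw [← hs]
    calc ∑ k, ((cl H c k).card : ℝ) ≤ ∑ _k : Fin r, (((cl H c i).card : ℝ) + 1) := by
          refine Finset.sum_le_sum fun k _ => ?_
          exact_mod_cast hB k i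
      _ = r * (((cl H c i).card : ℝ) + 1) := by
          rw [Finset.sum_const, Finset.card_univ, Fintype.card_fin, nsmul_eq_mul]
  have h2 : (r : ℝ) * (((cl H c i).card : ℝ) - 1) ≤ N := by
    rw [← hs]
    calc (r : ℝ) * (((cl H c i).card : ℝ) - 1)
        = ∑ _k : Fin r, (((cl H c i).card : ℝ) - 1) := by
          rw [Finset.sum_const, Finset.card_univ, Fintype.card_fin, nsmul_eq_mul]
      _ ≤ ∑ k, ((cl H c k).card : ℝ) := by
          refine Finset.sum_le_sum fun k _ => ?_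
          have : ((cl H c i).card : ℝ) ≤ (cl H c k).card + 1 := by exact_mod_cast hB i k
          linarith only [this]
  have h3 : (N : ℝ) / r ≤ ((cl H c i).card : ℝ) + 1 := by
    rw [div_le_iff₀ hr0]; linarith only [h1]
  have h4 : ((cl H c i).card : ℝ) - 1 ≤ (N : ℝ) / r := by
    rw [le_div_iff₀ hr0]; linarith only [h2]
  have h5 : (1 : ℝ) ≤ √(N : ℝ) := by
    rw [Real.one_le_sqrt]; exact_mod_cast hN
  rw [abs_le]
  constructor <;> linarith only [h3, h4, h5]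

end X_MAINA

theorem x_MAINA (hSM6 : Stmt_SM6) : Stmt_MAINA := by
  classical
  intro r hr
  have hrr : (3 : ℝ) ≤ r := by exact_mod_cast hr
  obtain ⟨d, n0, hd, HS⟩ := hSM6 r hr
  set δ : ℝ := min d (1 / (4 * (r : ℝ) ^ 2)) with hδd
  have hδ : 0 < δ := lt_min hd (by positivity)
  have l1 : δ ≤ d := min_le_left _ _
  have l2 : δ ≤ 1 / (4 * (r : ℝ) ^ 2) := min_le_right _ _
  obtain ⟨εF, hεF, HF⟩ := tri pFIN4 pLOWX pTN r δ hr hδ
  obtain ⟨dC, nC, hdC, HC⟩ := fdcase pB1U2 pB1C2 pD1B pD2V pD3V pEBV pE1B pE2V pE3V pTN pGD pGE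
    r εF hr hεF
  obtain ⟨nF, HF'⟩ := HF dC hdC
  set M := n0 + nC + nF + 1 with hM
  refine ⟨M ^ 2 + 1, ?_⟩
  intro m hm N j hmj hlt V _ G hG
  have hNM := large_N pTN hr M hm hlt
  have hN1 : (1 : ℝ) ≤ N := by
    have : 1 ≤ N := by omega
    exact_mod_cast this
  have haN : (0 : ℝ) ≤ al r * N := by
    have := al_ge hr
    exact mul_nonneg (by linarith only [this]) (by linarith only [hN1])
  have em : 2 * (m : ℝ) = 2 * ((tn r N : ℝ) + j) := by rw [hmj]; push_cast; ring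
  rcases HF' N (by omega) j m hmj hlt V G hG with ⟨c, H, hC0, hs, -⟩ | ⟨c, H, hC0, hs, -⟩ |
    ⟨hRgA, hup, x, lam, c, H, w, hFD⟩
  · exact ⟨N, _, Or.inl rfl, hs,
      HS N (by omega) V G c H (hC0.mono l1) hG.1 hG.2.1 hG.mx⟩
  · exact ⟨N + 1, _, Or.inr rfl, hs,
      HS (N + 1) (by omega) V G c H (hC0.mono l1) hG.1 hG.2.1 hG.mx⟩
  · have hRgV : RgV r N j := by
      show (j : ℝ) ≤ (1 - 2 / r + 1 / (4 * r ^ 2)) * (al r * N)
      refine hup.trans (mul_le_mul_of_nonneg_right ?_ haN)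
      linarith only [l2]
    rcases HC N (by omega) j hRgA hRgV V G x lam c H w hFD hG.1 hG.2.1 hG.mx
      (by rw [hG.2.2.1, em]) with
      ⟨H, c, w, A, v1, v2, hWD, -, hBal, hPl, hTop⟩ |
      ⟨H, c, w, u, A, B, i0, hWE, hOne, -, hBal, hPl, hTop⟩
    · exact ⟨N, fun i => (cl H c i).card, Or.inl rfl,
        fun i => X_MAINA.bal_near hr (by omega) hWD.card hBal i,
        Or.inl ⟨H, c, w, A, v1, v2, hWD, fun _ => rfl, hPl, hTop⟩⟩
    · exact ⟨N, fun i => (cl H c i).card, Or.inl rfl,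
        fun i => X_MAINA.bal_near hr (by omega) hWE.card hBal i,
        Or.inr (Or.inl ⟨H, c, w, u, A, B, i0, hWE, fun _ => rfl, hOne, hPl, hTop⟩)⟩

end Pool.Agent.Work.MP_5532fa_up
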