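import Pool.Agent.Work.MP_5532fa_x.Interface2

/-!
# MP_5532fa_co, sixth round, theorem B: the block MOMT (third and fourth moments)
-/

open Finset

namespace Pool.Agent.Work.MP_5532fa_up

namespace X_MOMT

private lemma a_bd {L : ℝ} (hL : 3 ≤ L) : 1 ≤ L / (L - 1) ∧ L / (L - 1) ≤ 3 / 2 := by
  have h : 0 < L - 1 := by linarith
  refine ⟨?_, ?_⟩
  · rw [le_div_iff₀ h]; linarith
  · rw [div_le_iff₀ h]; linarith

private lemma le_sig {L D σ : ℝ} (hL : 3 ≤ L) (hD : 0 ≤ D) (hσ : 0 ≤ σ)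
    (h : D ^ 2 * (L / (L - 1)) ≤ σ ^ 2) : D ≤ σ := by
  obtain ⟨h1, -⟩ := a_bd hL
  have : D ^ 2 ≤ σ ^ 2 := by nlinarith [sq_nonneg D]
  exact (pow_le_pow_iff_left₀ hD hσ two_ne_zero).1 this

private lemma tau_le {L D σ τ : ℝ} (hL : 3 ≤ L) (hσ : 0 ≤ σ) (hτ : 0 ≤ τ)
    (h : τ ^ 2 = σ ^ 2 - D ^ 2 * (L / (L - 1))) : τ ≤ σ := by
  obtain ⟨h1, -⟩ := a_bd hL
  have : τ ^ 2 ≤ σ ^ 2 := by
    rw [h]
    have : 0 ≤ D ^ 2 * (L / (L - 1)) := by positivity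
    linarith
  exact (pow_le_pow_iff_left₀ hτ hσ two_ne_zero).1 this

private lemma tau_sq {L D D' σ : ℝ} (hL : 3 ≤ L) (hD' : 0 ≤ D') (hDD : D' ≤ D) (hσ : 0 ≤ σ)
    (h1 : D ^ 2 * (L / (L - 1)) ≤ σ ^ 2) (hT : σ ^ 2 ≤ (D + 1) ^ 2 * (L / (L - 1)) + L) :
    σ ^ 2 - D' ^ 2 * (L / (L - 1)) ≤ (L + 3) * (σ + 1) * (D - D' + 1) := by
  obtain ⟨ha1, ha2⟩ := a_bd hL
  have hDs : D ≤ σ := le_sig hL (hD'.trans hDD) hσ h1
  set a := L / (L - 1) with ha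
  set q := D - D' with hq
  have hq0 : 0 ≤ q := by rw [hq]; linarith
  have h2 : (D + 1) ^ 2 - D' ^ 2 ≤ 2 * σ * q + 2 * σ + 1 := by
    have : (D + 1) ^ 2 - D' ^ 2 = q * (D + D') + 2 * D + 1 := by rw [hq]; ring
    rw [this]
    have : q * (D + D') ≤ q * (2 * σ) := mul_le_mul_of_nonneg_left (by linarith) hq0
    linarith
  have h3 : 0 ≤ 2 * σ * q + 2 * σ + 1 := by positivity
  have h4 : a * ((D + 1) ^ 2 - D' ^ 2) ≤ 3 / 2 * (2 * σ * q + 2 * σ + 1) := by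
    calc a * ((D + 1) ^ 2 - D' ^ 2) ≤ a * (2 * σ * q + 2 * σ + 1) :=
          mul_le_mul_of_nonneg_left h2 (by linarith)
      _ ≤ _ := mul_le_mul_of_nonneg_right ha2 h3
  have h5 : 0 ≤ σ * q := by positivity
  have h6 : 0 ≤ L * (σ * q) := by positivity
  have h7 : 0 ≤ L * σ := by positivity
  have h8 : 0 ≤ L * q := by positivity
  nlinarith [h4, hT]

private lemma four_up {L D σ τ S : ℝ} (hL : 3 ≤ L) (hD : 0 ≤ D) (hDs : D ≤ σ) (hτ : 0 ≤ τ)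
    (hτs : τ ≤ σ)
    (hS : S ≤ D ^ 4 * (1 + 1 / (L - 1) ^ 3) + 6 * D ^ 2 * τ ^ 2 / (L - 1) ^ 2
      + 4 * |D| * τ ^ 3 / (L - 1) + τ ^ 4) :
    S ≤ D ^ 4 * (1 + 1 / (L - 1) ^ 3) + 5 * σ ^ 2 * τ ^ 2 := by
  have hσ : 0 ≤ σ := hD.trans hDs
  have h2 : (2 : ℝ) ≤ L - 1 := by linarith
  have e1 : 6 * D ^ 2 * τ ^ 2 / (L - 1) ^ 2 ≤ 3 / 2 * (σ ^ 2 * τ ^ 2) := by
    rw [div_le_iff₀ (by positivity)]
    have hh : D ^ 2 ≤ σ ^ 2 := by gcongr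
    have h4 : (4 : ℝ) ≤ (L - 1) ^ 2 := by nlinarith
    have : D ^ 2 * τ ^ 2 ≤ σ ^ 2 * τ ^ 2 := by gcongr
    have h5 : 0 ≤ σ ^ 2 * τ ^ 2 := by positivity
    nlinarith
  have e2 : 4 * |D| * τ ^ 3 / (L - 1) ≤ 2 * (σ ^ 2 * τ ^ 2) := by
    rw [abs_of_nonneg hD, div_le_iff₀ (by linarith)]
    have : D * τ ^ 3 ≤ σ ^ 2 * τ ^ 2 := by
      calc D * τ ^ 3 = D * τ * τ ^ 2 := by ring
        _ ≤ σ * σ * τ ^ 2 := by gcongr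
        _ = _ := by ring
    have h5 : 0 ≤ σ ^ 2 * τ ^ 2 := by positivity
    nlinarith
  have e3 : τ ^ 4 ≤ σ ^ 2 * τ ^ 2 := by
    calc τ ^ 4 = τ ^ 2 * τ ^ 2 := by ring
      _ ≤ _ := by gcongr
  have h5 : 0 ≤ σ ^ 2 * τ ^ 2 := by positivity
  linarith

private lemma core4 {L D D' σ τ τ' S S' : ℝ} (hL : 3 ≤ L) (hD' : 0 ≤ D') (hDD : D' ≤ D)
    (hσ : 0 ≤ σ) (hτ : 0 ≤ τ) (hτ' : 0 ≤ τ')
    (h1 : τ ^ 2 = σ ^ 2 - D ^ 2 * (L / (L - 1)))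
    (h2 : τ' ^ 2 = σ ^ 2 - D' ^ 2 * (L / (L - 1)))
    (hT : σ ^ 2 ≤ (D + 1) ^ 2 * (L / (L - 1)) + L)
    (hS1 : D ^ 4 * (1 + 1 / (L - 1) ^ 3) ≤ S)
    (hS2 : S ≤ D ^ 4 * (1 + 1 / (L - 1) ^ 3) + 6 * D ^ 2 * τ ^ 2 / (L - 1) ^ 2
      + 4 * |D| * τ ^ 3 / (L - 1) + τ ^ 4)
    (hS1' : D' ^ 4 * (1 + 1 / (L - 1) ^ 3) ≤ S')
    (hS2' : S' ≤ D' ^ 4 * (1 + 1 / (L - 1) ^ 3) + 6 * D' ^ 2 * τ' ^ 2 / (L - 1) ^ 2
      + 4 * |D'| * τ' ^ 3 / (L - 1) + τ' ^ 4) :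
    |S - S'| ≤ (5 * L + 20) * (σ + 1) ^ 3 * (D - D' + 1) := by
  have hD : 0 ≤ D := hD'.trans hDD
  have hDσ2 : D ^ 2 * (L / (L - 1)) ≤ σ ^ 2 := by nlinarith [sq_nonneg τ]
  have hDs : D ≤ σ := le_sig hL hD hσ hDσ2
  have hDs' : D' ≤ σ := hDD.trans hDs
  have hτs := tau_le hL hσ hτ h1
  have hτs' := tau_le hL hσ hτ' h2
  have u1 := four_up hL hD hDs hτ hτs hS2
  have u2 := four_up hL hD' hDs' hτ' hτs' hS2'
  have t1 : τ ^ 2 ≤ (L + 3) * (σ + 1) := by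
    have := tau_sq hL hD le_rfl hσ hDσ2 hT
    rw [h1]
    simpa using this
  have t2 : τ' ^ 2 ≤ (L + 3) * (σ + 1) * (D - D' + 1) := by
    rw [h2]; exact tau_sq hL hD' hDD hσ hDσ2 hT
  set q := D - D' with hq
  have hq0 : 0 ≤ q := by rw [hq]; linarith
  set κ := 1 + 1 / (L - 1) ^ 3 with hκ
  have hκ1 : 1 ≤ κ := by
    rw [hκ]
    have : 0 ≤ 1 / (L - 1) ^ 3 := by
      have : 0 ≤ L - 1 := by linarith
      positivity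
    linarith
  have hκ2 : κ ≤ 9 / 8 := by
    rw [hκ]
    have h8 : (8 : ℝ) ≤ (L - 1) ^ 3 := by
      calc (8 : ℝ) = 2 ^ 3 := by norm_num
        _ ≤ (L - 1) ^ 3 := by
          apply pow_le_pow_left₀ (by norm_num); linarith
    have : 1 / (L - 1) ^ 3 ≤ 1 / 8 := one_div_le_one_div_of_le (by norm_num) h8
    linarith
  have d4 : D ^ 4 - D' ^ 4 ≤ 4 * σ ^ 3 * q := by
    have e : D ^ 4 - D' ^ 4 = q * ((D + D') * (D ^ 2 + D' ^ 2)) := by rw [hq]; ring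
    rw [e]
    have : (D + D') * (D ^ 2 + D' ^ 2) ≤ (σ + σ) * (σ ^ 2 + σ ^ 2) := by gcongr
    calc q * ((D + D') * (D ^ 2 + D' ^ 2)) ≤ q * ((σ + σ) * (σ ^ 2 + σ ^ 2)) :=
          mul_le_mul_of_nonneg_left this hq0
      _ = _ := by ring
  have d4' : 0 ≤ D ^ 4 - D' ^ 4 := by
    have : D' ^ 4 ≤ D ^ 4 := by gcongr
    linarith
  have hs3 : σ ^ 2 * (σ + 1) ≤ (σ + 1) ^ 3 := by nlinarith [sq_nonneg σ, pow_nonneg hσ 3]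
  have hs3' : σ ^ 3 ≤ (σ + 1) ^ 3 := by gcongr; linarith
  have hP : 0 ≤ (σ + 1) ^ 3 := by positivity
  have b1 : 5 * σ ^ 2 * τ ^ 2 ≤ 5 * (L + 3) * (σ + 1) ^ 3 := by
    calc 5 * σ ^ 2 * τ ^ 2 ≤ 5 * σ ^ 2 * ((L + 3) * (σ + 1)) := by gcongr
      _ = 5 * (L + 3) * (σ ^ 2 * (σ + 1)) := by ring
      _ ≤ _ := by gcongr
  have b2 : 5 * σ ^ 2 * τ' ^ 2 ≤ 5 * (L + 3) * (σ + 1) ^ 3 * (q + 1) := by
    calc 5 * σ ^ 2 * τ' ^ 2 ≤ 5 * σ ^ 2 * ((L + 3) * (σ + 1) * (q + 1)) := by gcongr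
      _ = 5 * (L + 3) * (σ ^ 2 * (σ + 1)) * (q + 1) := by ring
      _ ≤ _ := by gcongr
  have b3 : κ * (D ^ 4 - D' ^ 4) ≤ 5 * (σ + 1) ^ 3 * q := by
    calc κ * (D ^ 4 - D' ^ 4) ≤ 9 / 8 * (4 * σ ^ 3 * q) := by gcongr
      _ ≤ 9 / 8 * (4 * (σ + 1) ^ 3 * q) := by gcongr
      _ ≤ _ := by nlinarith [mul_nonneg hP hq0]
  have hPq : 0 ≤ (σ + 1) ^ 3 * q := by positivity
  have hLP : 0 ≤ L * (σ + 1) ^ 3 := by positivity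
  have hLPq : 0 ≤ L * ((σ + 1) ^ 3 * q) := by positivity
  have e1 : (5 * L + 20) * (σ + 1) ^ 3 * (q + 1)
      = 5 * (L + 3) * (σ + 1) ^ 3 * (q + 1) + 5 * ((σ + 1) ^ 3 * q) + 5 * (σ + 1) ^ 3 := by ring
  have e2 : 5 * (L + 3) * (σ + 1) ^ 3 * (q + 1)
      = 5 * (L + 3) * (σ + 1) ^ 3 + 5 * (L * ((σ + 1) ^ 3 * q)) + 15 * ((σ + 1) ^ 3 * q) := by ring
  have e3 : κ * (D ^ 4 - D' ^ 4) = D ^ 4 * κ - D' ^ 4 * κ := by ring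
  have e4 : 5 * (σ + 1) ^ 3 * q = 5 * ((σ + 1) ^ 3 * q) := by ring
  have hκd : 0 ≤ κ * (D ^ 4 - D' ^ 4) := mul_nonneg (by linarith) d4'
  rw [abs_le]
  constructor
  · linarith
  · linarith

private lemma k3_diff {L D D' σ : ℝ} (hL : 3 ≤ L) :
    (D ^ 3 * (L * (L + 1) / (L - 1) ^ 2) - 3 * D * σ ^ 2 / (L - 1))
      - (D' ^ 3 * (L * (L + 1) / (L - 1) ^ 2) - 3 * D' * σ ^ 2 / (L - 1))
      = (D - D') * ((D ^ 2 + D * D' + D' ^ 2) * (L / (L - 1)) * (L + 1) - 3 * σ ^ 2) / (L - 1) := by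
  have h : L - 1 ≠ 0 := by intro h; linarith
  field_simp
  ring

/-- near case -/
private lemma near {L D D' σ τ τ' S S' : ℝ} (hL : 3 ≤ L) (hD' : 0 ≤ D') (hq : 1 ≤ D - D')
    (hσ : 1 ≤ σ) (hτ : 0 ≤ τ) (hτ' : 0 ≤ τ')
    (h1 : τ ^ 2 = σ ^ 2 - D ^ 2 * (L / (L - 1)))
    (h2 : τ' ^ 2 = σ ^ 2 - D' ^ 2 * (L / (L - 1)))
    (hT : σ ^ 2 ≤ (D + 1) ^ 2 * (L / (L - 1)) + L)
    (hn : τ' * (8 * (L + 3)) ≤ σ)
    (hS : |S - (D ^ 3 * (L * (L + 1) / (L - 1) ^ 2) - 3 * D * σ ^ 2 / (L - 1))| ≤ τ ^ 3)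
    (hS' : |S' - (D' ^ 3 * (L * (L + 1) / (L - 1) ^ 2) - 3 * D' * σ ^ 2 / (L - 1))| ≤ τ' ^ 3) :
    S' + σ ^ 2 * (D - D') ≤ S := by
  have hσ0 : 0 ≤ σ := by linarith
  have hDD : D' ≤ D := by linarith
  have hD : 0 ≤ D := by linarith
  have hL1 : (0 : ℝ) < L - 1 := by linarith
  obtain ⟨ha1, ha2⟩ := a_bd hL
  have hDσ2 : D ^ 2 * (L / (L - 1)) ≤ σ ^ 2 := by nlinarith [sq_nonneg τ]
  have t2 : τ' ^ 2 ≤ (L + 3) * (σ + 1) * (D - D' + 1) := by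
    rw [h2]; exact tau_sq hL hD' hDD hσ0 hDσ2 hT
  have htt : τ ≤ τ' := by
    have : τ ^ 2 ≤ τ' ^ 2 := by
      rw [h1, h2]
      have : D' ^ 2 ≤ D ^ 2 := by gcongr
      have : D' ^ 2 * (L / (L - 1)) ≤ D ^ 2 * (L / (L - 1)) := by gcongr
      linarith
    exact (pow_le_pow_iff_left₀ hτ hτ' two_ne_zero).1 this
  have kd := k3_diff (L := L) (D := D) (D' := D') (σ := σ) hL
  rw [abs_le] at hS hS'
  set a := L / (L - 1) with ha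
  set q := D - D' with hqd
  have hq0 : 0 ≤ q := by linarith
  -- the cubes of the remainders
  have hcube : τ' ^ 3 * 2 ≤ σ ^ 2 * q := by
    have e1 : τ' * τ' ^ 2 ≤ τ' * ((L + 3) * (σ + 1) * (q + 1)) :=
      mul_le_mul_of_nonneg_left t2 hτ'
    have e2 : τ' * ((L + 3) * (σ + 1) * (q + 1)) ≤ τ' * ((L + 3) * (2 * σ) * (2 * q)) := by
      gcongr
      · linarith
      · linarith
    have e3 : τ' * (8 * (L + 3)) * (σ * q) ≤ σ * (σ * q) :=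
      mul_le_mul_of_nonneg_right hn (by positivity)
    have e4 : τ' ^ 3 = τ' * τ' ^ 2 := by ring
    have e5 : τ' * ((L + 3) * (2 * σ) * (2 * q)) * 2 = τ' * (8 * (L + 3)) * (σ * q) := by ring
    have e6 : σ * (σ * q) = σ ^ 2 * q := by ring
    linarith
  have hcube' : τ ^ 3 ≤ τ' ^ 3 := by gcongr
  -- the main term
  have hr : τ' ^ 2 * 3 ≤ σ ^ 2 := by
    have : τ' * 3 ≤ σ := by nlinarith
    have h9 : (τ' * 3) ^ 2 ≤ σ ^ 2 := by gcongr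
    nlinarith [sq_nonneg τ']
  have hD'a : 2 / 3 * σ ^ 2 ≤ D' ^ 2 * a := by linarith
  have hm : 2 * σ ^ 2 * (L - 1) ≤ (D ^ 2 + D * D' + D' ^ 2) * a * (L + 1) - 3 * σ ^ 2 := by
    have e1 : 3 * D' ^ 2 ≤ D ^ 2 + D * D' + D' ^ 2 := by nlinarith
    have e2 : 3 * D' ^ 2 * a ≤ (D ^ 2 + D * D' + D' ^ 2) * a := by gcongr
    have e3 : 2 * σ ^ 2 ≤ (D ^ 2 + D * D' + D' ^ 2) * a := by linarith
    have e4 : 2 * σ ^ 2 * (L + 1) ≤ (D ^ 2 + D * D' + D' ^ 2) * a * (L + 1) := by gcongr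
    nlinarith [sq_nonneg σ]
  have hmain : 2 * σ ^ 2 * q ≤ q * ((D ^ 2 + D * D' + D' ^ 2) * a * (L + 1) - 3 * σ ^ 2) / (L - 1) := by
    rw [le_div_iff₀ hL1]
    calc 2 * σ ^ 2 * q * (L - 1) = q * (2 * σ ^ 2 * (L - 1)) := by ring
      _ ≤ _ := mul_le_mul_of_nonneg_left hm hq0
  linarith [hS.1, hS.2, hS'.1, hS'.2]

/-- far case -/
private lemma far {L D D' σ τ δ S S' : ℝ} (hL : 3 ≤ L) (hD' : 0 ≤ D') (hDD : D' ≤ D)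
    (hσ : 1 ≤ σ) (hτ : 0 ≤ τ) (hδ : 0 < δ) (hδ1 : δ ≤ 1 / 2)
    (h1 : τ ^ 2 = σ ^ 2 - D ^ 2 * (L / (L - 1)))
    (hT : σ ^ 2 ≤ (D + 1) ^ 2 * (L / (L - 1)) + L)
    (hf : D' ^ 2 * (L / (L - 1)) ≤ (1 - δ ^ 2) * σ ^ 2)
    (hbig : 8 * (10 * L + 12) ≤ δ ^ 2 * σ)
    (hS : |S - (D ^ 3 * (L * (L + 1) / (L - 1) ^ 2) - 3 * D * σ ^ 2 / (L - 1))| ≤ τ ^ 3)
    (hS' : ∀ E : ℝ, 0 < E → D' ≤ E → S' ≤ E * σ ^ 2 - (σ ^ 2) ^ 2 / (L * E)) :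
    S' + δ ^ 2 / 8 * σ ^ 2 * (D - D') ≤ S := by
  have hσ0 : 0 < σ := by linarith
  have hD : 0 ≤ D := hD'.trans hDD
  have hL1 : (0 : ℝ) < L - 1 := by linarith
  have hL0 : (0 : ℝ) < L := by linarith
  obtain ⟨ha1, ha2⟩ := a_bd hL
  have hDσ2 : D ^ 2 * (L / (L - 1)) ≤ σ ^ 2 := by nlinarith [sq_nonneg τ]
  have hDs : D ≤ σ := le_sig hL hD hσ0.le hDσ2
  have hτs := tau_le hL hσ0.le hτ h1
  have t1 : τ ^ 2 ≤ (L + 3) * (σ + 1) := by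
    have := tau_sq hL hD le_rfl hσ0.le hDσ2 hT
    rw [h1]
    simpa using this
  -- the extreme value `F`
  set a := L / (L - 1) with ha
  have ha0 : 0 < a := by linarith
  obtain ⟨F, hF0, hF⟩ : ∃ F : ℝ, 0 < F ∧ F ^ 2 * a = σ ^ 2 := by
    refine ⟨σ * Real.sqrt (1 / a), by positivity, ?_⟩
    rw [mul_pow, Real.sq_sqrt (by positivity)]
    field_simp
  obtain ⟨θ, hθ0, hθ⟩ : ∃ θ : ℝ, 0 < θ ∧ θ ^ 2 = 1 - δ ^ 2 := by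
    have : 0 < 1 - δ ^ 2 := by nlinarith
    exact ⟨Real.sqrt (1 - δ ^ 2), Real.sqrt_pos.2 this, Real.sq_sqrt this.le⟩
  have hθ1 : θ ≤ 1 - δ ^ 2 / 2 := by
    have : θ ^ 2 ≤ (1 - δ ^ 2 / 2) ^ 2 := by rw [hθ]; nlinarith [sq_nonneg (δ ^ 2)]
    exact (pow_le_pow_iff_left₀ hθ0.le (by nlinarith) two_ne_zero).1 this
  have hθ1' : θ ≤ 1 := by nlinarith [sq_nonneg δ]
  have hDF : D ≤ F := by
    have : D ^ 2 ≤ F ^ 2 := by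
      have : D ^ 2 * a ≤ F ^ 2 * a := by rw [hF]; exact hDσ2
      exact le_of_mul_le_mul_right this ha0
    exact (pow_le_pow_iff_left₀ hD hF0.le two_ne_zero).1 this
  have hD'E : D' ≤ θ * F := by
    have : D' ^ 2 ≤ (θ * F) ^ 2 := by
      have : D' ^ 2 * a ≤ (θ * F) ^ 2 * a := by
        calc D' ^ 2 * a ≤ (1 - δ ^ 2) * σ ^ 2 := hf
          _ = (θ * F) ^ 2 * a := by rw [← hθ, ← hF]; ring
      exact le_of_mul_le_mul_right this ha0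
    exact (pow_le_pow_iff_left₀ hD' (by positivity) two_ne_zero).1 this
  -- upper bound of S'
  have hS1 : S' ≤ F * σ ^ 2 * ((L - 2) / (L - 1)) - F * σ ^ 2 * (δ ^ 2 / 2) := by
    have h := hS' (θ * F) (by positivity) hD'E
    have e0 : (σ ^ 2) ^ 2 / (L * (θ * F)) = F * σ ^ 2 / ((L - 1) * θ) := by
      have : (σ ^ 2) = F ^ 2 * (L / (L - 1)) := hF.symm
      rw [this]
      field_simp
    have e1 : F * σ ^ 2 / (L - 1) ≤ F * σ ^ 2 / ((L - 1) * θ) := by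
      apply div_le_div_of_nonneg_left (by positivity) (by positivity)
      calc (L - 1) * θ ≤ (L - 1) * 1 := by gcongr
        _ = L - 1 := mul_one _
    have e2 : F * σ ^ 2 * ((L - 2) / (L - 1)) = F * σ ^ 2 - F * σ ^ 2 / (L - 1) := by
      field_simp; ring
    have e3 : θ * F * σ ^ 2 ≤ (1 - δ ^ 2 / 2) * F * σ ^ 2 := by gcongr
    rw [e0] at h
    rw [e2]
    have e4 : (1 - δ ^ 2 / 2) * F * σ ^ 2 = F * σ ^ 2 - F * σ ^ 2 * (δ ^ 2 / 2) := by ring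
    linarith
  -- lower bound of S
  have hFD : F - D ≤ L := by
    have h3 : F ^ 2 ≤ (D + 1) ^ 2 + (L - 1) := by
      have : F ^ 2 * a ≤ ((D + 1) ^ 2 + (L - 1)) * a := by
        rw [hF]
        have : (L - 1) * a = L := by rw [ha]; field_simp
        nlinarith
      exact le_of_mul_le_mul_right this ha0
    have : F ^ 2 ≤ (D + L) ^ 2 := by nlinarith
    have := (pow_le_pow_iff_left₀ hF0.le (by linarith) two_ne_zero).1 this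
    linarith
  have kd := k3_diff (L := L) (D := F) (D' := D) (σ := σ) hL
  have k3F : F ^ 3 * (L * (L + 1) / (L - 1) ^ 2) - 3 * F * σ ^ 2 / (L - 1)
      = F * σ ^ 2 * ((L - 2) / (L - 1)) := by
    have e : F ^ 3 * (L * (L + 1) / (L - 1) ^ 2) = F * (F ^ 2 * a) * ((L + 1) / (L - 1)) := by
      rw [ha]; field_simp
    rw [e, hF]; field_simp; ring
  rw [k3F, ← ha] at kd
  have kd2 : (F - D) * ((F ^ 2 + F * D + D ^ 2) * a * (L + 1) - 3 * σ ^ 2) / (L - 1)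
      ≤ 6 * L * σ ^ 2 := by
    have e1 : F ^ 2 + F * D + D ^ 2 ≤ 3 * F ^ 2 := by nlinarith
    have e2 : (F ^ 2 + F * D + D ^ 2) * a ≤ 3 * σ ^ 2 := by
      calc (F ^ 2 + F * D + D ^ 2) * a ≤ 3 * F ^ 2 * a := by gcongr
        _ = _ := by rw [mul_assoc, hF]
    have e3 : (F ^ 2 + F * D + D ^ 2) * a * (L + 1) - 3 * σ ^ 2 ≤ 6 * σ ^ 2 * (L - 1) := by
      have : (F ^ 2 + F * D + D ^ 2) * a * (L + 1) ≤ 3 * σ ^ 2 * (L + 1) := by gcongr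
      nlinarith [sq_nonneg σ]
    rw [div_le_iff₀ hL1]
    have hFD0 : 0 ≤ F - D := by linarith
    calc (F - D) * ((F ^ 2 + F * D + D ^ 2) * a * (L + 1) - 3 * σ ^ 2)
        ≤ (F - D) * (6 * σ ^ 2 * (L - 1)) := mul_le_mul_of_nonneg_left e3 hFD0
      _ ≤ L * (6 * σ ^ 2 * (L - 1)) := by
          apply mul_le_mul_of_nonneg_right hFD; positivity
      _ = _ := by ring
  have tc : τ ^ 3 ≤ (2 * L + 6) * σ ^ 2 := by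
    calc τ ^ 3 = τ * τ ^ 2 := by ring
      _ ≤ σ * ((L + 3) * (σ + 1)) := by gcongr
      _ ≤ σ * ((L + 3) * (2 * σ)) := by gcongr; linarith
      _ = _ := by ring
  rw [abs_le] at hS
  have hFs : σ ≤ 2 * F := by
    have : σ ^ 2 ≤ (2 * F) ^ 2 := by rw [← hF]; nlinarith [sq_nonneg F]
    exact (pow_le_pow_iff_left₀ hσ0.le (by positivity) two_ne_zero).1 this
  have f1 : σ ^ 2 * (δ ^ 2 * σ) / 4 ≤ F * σ ^ 2 * (δ ^ 2 / 2) := by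
    have : σ * (σ ^ 2 * δ ^ 2) ≤ 2 * F * (σ ^ 2 * δ ^ 2) := by gcongr
    nlinarith
  have f2 : σ ^ 2 * (8 * (10 * L + 12)) ≤ σ ^ 2 * (δ ^ 2 * σ) := by gcongr
  have f3 : δ ^ 2 / 8 * σ ^ 2 * (D - D') ≤ δ ^ 2 / 8 * σ ^ 2 * σ := by
    gcongr; linarith
  have f4 : δ ^ 2 / 8 * σ ^ 2 * σ = σ ^ 2 * (δ ^ 2 * σ) / 8 := by ring
  have f5 : 0 ≤ L * σ ^ 2 := by positivity
  nlinarith [hS.1, sq_nonneg σ]

end X_MOMT

open X_MOMT in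
theorem x_MOMT (hTNZ : Stmt_TNZ) : Stmt_MOMT := by
  intro l hl
  have hL : (3 : ℝ) ≤ (l : ℝ) := by exact_mod_cast hl
  have hL1 : (0 : ℝ) < (l : ℝ) - 1 := by linarith
  have hL0 : (0 : ℝ) < (l : ℝ) := by linarith
  set δ : ℝ := 1 / (8 * ((l : ℝ) + 3)) with hδ
  have hδ0 : 0 < δ := by positivity
  have hδ1 : δ ≤ 1 / 2 := by
    rw [hδ]; apply one_div_le_one_div_of_le (by norm_num); linarith
  have hK0 : 0 ≤ 8 * (10 * (l : ℝ) + 12) / δ ^ 2 := by positivity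
  refine ⟨(5 * (l : ℝ) + 20) + 8 * (10 * (l : ℝ) + 12) / δ ^ 2, δ ^ 2 / 8, by positivity,
    by linarith, ?_⟩
  intro u v i1 k1 μ σ hmax hsum hsq hk1 hμ hσ hσ2
  have hqz : v k1 ≤ u i1 := hmax v hsum hsq.le k1
  have hq : (v k1 : ℝ) ≤ u i1 := by exact_mod_cast hqz
  obtain ⟨hD0, hT⟩ := hTNZ l hl u i1 μ hmax hμ
  have hsumR : ∑ i, (v i : ℝ) = ∑ i, (u i : ℝ) := by exact_mod_cast hsum
  have hsqR : ∑ i, (v i : ℝ) ^ 2 = ∑ i, (u i : ℝ) ^ 2 := by exact_mod_cast hsq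
  have hμ' : ∑ i, (u i : ℝ) = l * μ := by rw [hμ]; field_simp
  have hs1 : ∑ i, ((u i : ℝ) - μ) = 0 := by
    rw [sum_sub_distrib, hμ']; simp
  have hs1' : ∑ i, ((v i : ℝ) - μ) = 0 := by
    rw [sum_sub_distrib, hsumR, hμ']; simp
  have hs2 : ∑ i, ((u i : ℝ) - μ) ^ 2 = σ ^ 2 := hσ2.symm
  have expand2 : ∀ w : Fin l → ℤ, ∑ i, ((w i : ℝ) - μ) ^ 2
      = ∑ i, (w i : ℝ) ^ 2 - 2 * μ * ∑ i, (w i : ℝ) + l * μ ^ 2 := by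
    intro w
    have : ∀ i : Fin l, ((w i : ℝ) - μ) ^ 2 = (w i : ℝ) ^ 2 - 2 * μ * (w i : ℝ) + μ ^ 2 := by
      intro i; ring
    simp only [this, sum_add_distrib, sum_sub_distrib, ← mul_sum]
    simp
  have expand3 : ∀ w : Fin l → ℤ, ∑ i, ((w i : ℝ) - μ) ^ 3
      = ∑ i, (w i : ℝ) ^ 3 - 3 * μ * ∑ i, (w i : ℝ) ^ 2 + 3 * μ ^ 2 * ∑ i, (w i : ℝ)
        - l * μ ^ 3 := by
    intro w
    have : ∀ i : Fin l, ((w i : ℝ) - μ) ^ 3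
        = (w i : ℝ) ^ 3 - 3 * μ * (w i : ℝ) ^ 2 + 3 * μ ^ 2 * (w i : ℝ) - μ ^ 3 := by
      intro i; ring
    simp only [this, sum_add_distrib, sum_sub_distrib, ← mul_sum]
    simp
  have hs2' : ∑ i, ((v i : ℝ) - μ) ^ 2 = σ ^ 2 := by
    rw [← hs2, expand2, expand2, hsumR, hsqR]
  have h3 : ∑ i, (u i : ℝ) ^ 3 - ∑ i, (v i : ℝ) ^ 3
      = ∑ i, ((u i : ℝ) - μ) ^ 3 - ∑ i, ((v i : ℝ) - μ) ^ 3 := by
    rw [expand3, expand3, hsumR, hsqR]; ring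
  obtain ⟨cu1, cu2, cu3, -, -⟩ := blk_CU1 l hl (fun i => (u i : ℝ) - μ) (σ ^ 2) hs1 hs2
  obtain ⟨cv1, cv2, cv3, cv4, -⟩ := blk_CU1 l hl (fun i => (v i : ℝ) - μ) (σ ^ 2) hs1' hs2'
  -- `D' ≥ 0`
  have hD'0 : 0 ≤ (v k1 : ℝ) - μ := by
    have h : ∑ i : Fin l, ((v i : ℝ) - μ) ≤ ∑ i : Fin l, ((v k1 : ℝ) - μ) := by
      apply sum_le_sum
      intro i _
      have : (v i : ℝ) ≤ v k1 := by exact_mod_cast hk1 i
      linarith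
    rw [hs1'] at h
    simp only [sum_const, card_univ, Fintype.card_fin, nsmul_eq_mul] at h
    exact nonneg_of_mul_nonneg_right h hL0
  have hle : ∀ i, (v i : ℝ) - μ ≤ (v k1 : ℝ) - μ := by
    intro i
    have : (v i : ℝ) ≤ v k1 := by exact_mod_cast hk1 i
    linarith
  have hT' : σ ^ 2 ≤ ((u i1 : ℝ) - μ + 1) ^ 2 * (l / (l - 1)) + l := by rw [hσ2]; exact hT
  have hu1 : 0 ≤ σ ^ 2 - ((u i1 : ℝ) - μ) ^ 2 * (l / (l - 1)) := by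
    have := cu1 i1; linarith
  have hv1 : 0 ≤ σ ^ 2 - ((v k1 : ℝ) - μ) ^ 2 * (l / (l - 1)) := by
    have := cv1 k1; linarith
  obtain ⟨cA, cB⟩ := cu2 i1 _ (Real.sqrt_nonneg _) (Real.sq_sqrt hu1)
  obtain ⟨cA', cB'⟩ := cv2 k1 _ (Real.sqrt_nonneg _) (Real.sq_sqrt hv1)
  have hDD : (v k1 : ℝ) - μ ≤ (u i1 : ℝ) - μ := by linarith
  have hqe : (u i1 : ℝ) - v k1 = ((u i1 : ℝ) - μ) - ((v k1 : ℝ) - μ) := by ring
  refine ⟨?_, ?_⟩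
  · intro hlt hKσ
    have hq1 : (1 : ℝ) ≤ ((u i1 : ℝ) - μ) - ((v k1 : ℝ) - μ) := by
      have : v k1 + 1 ≤ u i1 := hlt
      have : (v k1 : ℝ) + 1 ≤ u i1 := by exact_mod_cast this
      linarith
    have hσ1 : 1 ≤ σ := by linarith
    by_cases hc : Real.sqrt (σ ^ 2 - ((v k1 : ℝ) - μ) ^ 2 * (l / (l - 1)))
        * (8 * ((l : ℝ) + 3)) ≤ σ
    · have := near hL hD'0 hq1 hσ1 (Real.sqrt_nonneg _) (Real.sqrt_nonneg _)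
        (Real.sq_sqrt hu1) (Real.sq_sqrt hv1) hT' hc cA cA'
      have h8 : δ ^ 2 / 8 * σ ^ 2 * ((u i1 : ℝ) - v k1) ≤ σ ^ 2 * ((u i1 : ℝ) - v k1) := by
        have : δ ^ 2 / 8 * σ ^ 2 ≤ 1 * σ ^ 2 := by
          gcongr; nlinarith
        rw [one_mul] at this
        exact mul_le_mul_of_nonneg_right this (by linarith)
      rw [← hqe] at this
      linarith
    · push Not at hc
      have hf : ((v k1 : ℝ) - μ) ^ 2 * (l / (l - 1)) ≤ (1 - δ ^ 2) * σ ^ 2 := by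
        have h9 : δ * σ ≤ Real.sqrt (σ ^ 2 - ((v k1 : ℝ) - μ) ^ 2 * (l / (l - 1))) := by
          rw [hδ, div_mul_eq_mul_div, one_mul, div_le_iff₀ (by positivity)]
          exact hc.le
        have h10 : (δ * σ) ^ 2 ≤ σ ^ 2 - ((v k1 : ℝ) - μ) ^ 2 * (l / (l - 1)) := by
          rw [← Real.sq_sqrt hv1]; gcongr
        nlinarith
      have hbig : 8 * (10 * (l : ℝ) + 12) ≤ δ ^ 2 * σ := by
        have : 8 * (10 * (l : ℝ) + 12) / δ ^ 2 ≤ σ := by linarith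
        rw [div_le_iff₀ (by positivity)] at this
        linarith
      have := far hL hD'0 hDD hσ1 (Real.sqrt_nonneg _) hδ0 hδ1 (Real.sq_sqrt hu1) hT' hf hbig cA
        (fun E hE hE' => cv4 E hE (fun i => (hle i).trans hE'))
      rw [← hqe] at this
      linarith
  · have := core4 hL hD'0 hDD hσ (Real.sqrt_nonneg _) (Real.sqrt_nonneg _) (Real.sq_sqrt hu1)
      (Real.sq_sqrt hv1) hT' (cu3 i1) cB (cv3 k1) cB'
    rw [← hqe] at this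
    refine this.trans ?_
    have h11 : 0 ≤ (σ + 1) ^ 3 * ((u i1 : ℝ) - v k1 + 1) :=
      mul_nonneg (by positivity) (by linarith)
    rw [mul_assoc, mul_assoc]
    exact mul_le_mul_of_nonneg_right (by linarith) h11

end Pool.Agent.Work.MP_5532fa_up
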