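import Pool.Agent.Work.MP_5532fa_x.Interface3

/-!
# MP_5532fa_co, sixth round, block RULEC (the rule)
-/

open Finset

namespace Pool.Agent.Work.MP_5532fa_up

open MP5532fa (specRad qf pE)

namespace X_RULEC

private lemma mo_sub {r m n : ℕ} (hr : 3 ≤ r) {y z : Fin r → ℕ} (hy : ∑ i, y i = n)
    (hz : ∑ i, z i = n) :
    mo 2 n (re z) - mo 2 n (re y) = 2 * (kk m n z - kk m n y) := by
  have hy' : ∑ i, re y i = (n : ℝ) := by unfold re; exact_mod_cast hy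
  have hz' : ∑ i, re z i = (n : ℝ) := by unfold re; exact_mod_cast hz
  rw [mo_two hr hy', mo_two hr hz']
  unfold kk re
  ring

private lemma kk_bd {V : Type} [Fintype V] {r m n : ℕ} {δ : ℝ} {G : SimpleGraph V}
    {c : V → Fin r} {H : Finset V} (hr : 3 ≤ r) (hC : C0 r δ n G c H)
    (hE : pE G = 2 * (m : ℝ)) (hn : (r : ℝ) ≤ δ * n) :
    |kk m n (fun i => (cl H c i).card)| ≤ 2 * (δ * n) := by
  have hrr : (3 : ℝ) ≤ r := by exact_mod_cast hr
  have h1 := pEID r V G c H hC.ind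
  rw [hC.card, hE] at h1
  have h2 : ∑ v ∈ out H, (dg G H v : ℝ) ≤ eo G H := by
    exact_mod_cast ACC.dg_le_eo G H
  have h3 : (eu G H : ℝ) ≤ eo G H := by exact_mod_cast ACC.eu_le_eo G H
  have h4 : (0 : ℝ) ≤ ∑ v ∈ out H, (dg G H v : ℝ) := Finset.sum_nonneg fun v _ => Nat.cast_nonneg _
  have h5 : (0 : ℝ) ≤ eu G H := Nat.cast_nonneg _
  have h6 : (0 : ℝ) ≤ mis G H c := Nat.cast_nonneg _
  have h7 := hC.mis
  have h8 := hC.eo
  have h9 : 2 * kk m n (fun i => (cl H c i).card) =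
      2 * (m : ℝ) - 2 * ((r : ℝ) - 1) - (n : ℝ) ^ 2 + ∑ i, sz H c i ^ 2 := by
    unfold kk sz
    ring
  rw [abs_le]
  constructor <;> linarith

private lemma mo2_le {r n : ℕ} {y : Fin r → ℝ} (h : ∀ i, |y i - n / r| ≤ 2 * √(n : ℝ)) :
    mo 2 n y ≤ (4 * (r : ℝ) + 1) * n := by
  have hn0 : (0 : ℝ) ≤ n := Nat.cast_nonneg n
  have h1 : ∀ i, (y i - n / r) ^ 2 ≤ 4 * n := by
    intro i
    have h2 : (y i - n / r) ^ 2 ≤ (2 * √(n : ℝ)) ^ 2 := sq_le_sq' (by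
      have := (abs_le.1 (h i)).1; linarith) (abs_le.1 (h i)).2
    rw [mul_pow, Real.sq_sqrt hn0] at h2
    linarith
  have h3 : mo 2 n y ≤ ∑ _i : Fin r, 4 * (n : ℝ) := Finset.sum_le_sum fun i _ => h1 i
  rw [Finset.sum_const, Finset.card_univ, Fintype.card_fin, nsmul_eq_mul] at h3
  linarith

/-- the numerical form of the costs -/
private lemma cost {r : ℕ} (hr : 3 ≤ r) {k c L : ℝ}
    (h : (c = 2 * k ∧ L = 2) ∨ (c = 2 * k - 2 - 2 / ((r : ℝ) - 1) ∧ L = 0) ∨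
      (c = -(2 * k / ((r : ℝ) - 1)) ∧ L = 2 * (1 - k))) :
    L / al r + 2 * k = c + 2 / al r := by
  have hrr : (3 : ℝ) ≤ r := by exact_mod_cast hr
  have h1 : (r : ℝ) - 1 ≠ 0 := by linarith
  have h2 : (r : ℝ) ≠ 0 := by linarith
  have ha : al r = ((r : ℝ) - 1) / r := by
    unfold al
    field_simp
  rw [ha]
  rcases h with ⟨rfl, rfl⟩ | ⟨rfl, rfl⟩ | ⟨rfl, rfl⟩
  · ring
  · field_simp
    ring
  · field_simp
    ring

private lemma core {a L U ky kz My Mz Py Pz T1 T2 C n ε : ℝ} (ha : 2 / 3 ≤ a) (hε : 0 < ε)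
    (hn : 0 < n)
    (hL : L - ε / 6 * (1 + |ky|) ≤ Py) (hU : Pz ≤ U + ε / 6 * (1 + |kz|))
    (hT : |1 / a * (Py - Pz) - (2 * (kz - ky) + (My - Mz))| ≤ T1 + T2)
    (hT1 : T1 ≤ ε / 4) (hT2 : T2 = C * (2 * |kz - ky|) / n) (hC : 0 ≤ C)
    (hCn : 8 * C ≤ ε * n) :
    L / a + 2 * ky - My ≤ U / a + 2 * kz - Mz + ε * (1 + |ky| + |kz|) := by
  have ha0 : 0 < a := by linarith
  have hky := abs_nonneg ky
  have hkz := abs_nonneg kz
  have h1 := (abs_le.1 hT).2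
  have h2 : T2 ≤ ε / 4 * (|ky| + |kz|) := by
    have h3 : |kz - ky| ≤ |kz| + |ky| := abs_sub _ _
    rw [hT2, div_le_iff₀ hn]
    have h4 : C * (2 * |kz - ky|) ≤ C * (2 * (|kz| + |ky|)) :=
      mul_le_mul_of_nonneg_left (by linarith) hC
    have h5 : 8 * C * (|kz| + |ky|) ≤ ε * n * (|kz| + |ky|) :=
      mul_le_mul_of_nonneg_right hCn (by linarith)
    nlinarith
  have h6 : (L - U - ε / 6 * (2 + |ky| + |kz|)) / a ≤ 1 / a * (Py - Pz) := by
    have h7 : 1 / a * (Py - Pz) = (Py - Pz) / a := by ring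
    rw [h7]
    apply div_le_div_of_nonneg_right _ ha0.le
    linarith
  have h8 : ε / 6 * (2 + |ky| + |kz|) / a ≤ 3 / 2 * (ε / 6 * (2 + |ky| + |kz|)) := by
    rw [div_le_iff₀ ha0]
    have h9 : 0 ≤ ε / 6 * (2 + |ky| + |kz|) := by positivity
    nlinarith
  have h10 : (L - U - ε / 6 * (2 + |ky| + |kz|)) / a
      = L / a - U / a - ε / 6 * (2 + |ky| + |kz|) / a := by ring
  rw [h10] at h6
  have h11 : 0 ≤ ε * |ky| := by positivity
  have h12 : 0 ≤ ε * |kz| := by positivity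
  linarith

end X_RULEC

open X_RULEC in
/-- **RULEC** : the rule -/
theorem x_RULEC (hSM6 : Stmt_SM6) (hCUP : Stmt_CUP) (hCLO : Stmt_CLO) : Stmt_RULEC := by
  classical
  intro r ε hr hε
  have hrr : (3 : ℝ) ≤ r := by exact_mod_cast hr
  have hal := al_ge hr
  obtain ⟨d1, n1, hd1, H1⟩ := hSM6 r hr
  obtain ⟨d2, n2, hd2, H2⟩ := hCUP r (ε / 6) hr (by positivity)
  obtain ⟨d3, n3, hd3, H3⟩ := hCLO r (ε / 6) hr (by positivity)
  obtain ⟨d4, n4, hd4, H4⟩ := pLAM r hr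
  obtain ⟨C, hC, H5⟩ := pTAY r (4 * r + 1) hr (by linarith)
  set δ : ℝ := min (min (min d1 d2) (min (d3 / 2) d4)) (ε / 2) with hδdef
  have hδ : 0 < δ := lt_min (lt_min (lt_min hd1 hd2) (lt_min (by positivity) hd4))
    (by positivity)
  have l1 : δ ≤ d1 := (min_le_left _ _).trans ((min_le_left _ _).trans (min_le_left _ _))
  have l2 : δ ≤ d2 := (min_le_left _ _).trans ((min_le_left _ _).trans (min_le_right _ _))
  have l3 : δ ≤ d3 / 2 := (min_le_left _ _).trans ((min_le_right _ _).trans (min_le_left _ _))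
  have l4 : δ ≤ d4 := (min_le_left _ _).trans ((min_le_right _ _).trans (min_le_right _ _))
  have l5 : δ ≤ ε / 2 := min_le_right _ _
  set T : ℝ := 2 / δ + 2 * r + 8 * C / ε + C + r / δ with hT
  have hTa : 0 < 2 / δ := by positivity
  have hTb : 0 < 8 * C / ε := by positivity
  have hTc : 0 < (r : ℝ) / δ := by positivity
  have hT1 : 1 ≤ T := by linarith
  refine ⟨δ, n1 + n2 + n3 + n4 + ⌈T ^ 2⌉₊, hδ, ?_⟩
  intro n hn m V _ G c H hC0 hbal hG
  have hnT : T ^ 2 ≤ (n : ℝ) := by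
    have h1 : ⌈T ^ 2⌉₊ ≤ n := by omega
    exact (Nat.le_ceil _).trans (by exact_mod_cast h1)
  have hn0 : (0 : ℝ) ≤ n := Nat.cast_nonneg n
  set q : ℝ := √(n : ℝ) with hq
  have hqT : T ≤ q := Real.le_sqrt_of_sq_le hnT
  have hq1 : 1 ≤ q := hT1.trans hqT
  have hqq : q * q = n := Real.mul_self_sqrt hn0
  have hqn : q ≤ n := by
    have h1 : 1 * q ≤ q * q := mul_le_mul_of_nonneg_right hq1 (by linarith)
    linarith
  have hn1 : (1 : ℝ) ≤ n := hq1.trans hqn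
  have hnpos : (0 : ℝ) < n := by linarith
  -- consequences of the size of `n`
  have c1 : 2 * q ≤ δ * n := by
    have h1 : 2 / δ ≤ q := by linarith
    rw [div_le_iff₀ hδ] at h1
    have h2 : 2 * q ≤ q * δ * q := mul_le_mul_of_nonneg_right h1 (by linarith)
    have h3 : q * δ * q = δ * n := by rw [← hqq]; ring
    linarith
  have c2 : (r : ℝ) ≤ δ * n := by
    have h1 : (r : ℝ) / δ ≤ n := by linarith
    rw [div_le_iff₀ hδ] at h1
    linarith
  have c3 : C / q ≤ ε / 4 := by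
    have h1 : 8 * C / ε ≤ q := by linarith
    rw [div_le_iff₀ hε] at h1
    rw [div_le_iff₀ (by linarith)]
    linarith
  have c4 : 8 * C ≤ ε * n := by
    have h1 : 8 * C / ε ≤ n := by linarith
    rw [div_le_iff₀ hε] at h1
    linarith
  have c5 : C ≤ n := by linarith
  have c6 : 2 * q < (n : ℝ) / r := by
    rw [lt_div_iff₀ (by linarith)]
    have h1 : 2 * (r : ℝ) < q := by linarith
    have h2 : 2 * (r : ℝ) * q < q * q := mul_lt_mul_of_pos_right h1 (by linarith)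
    linarith
  -- the graph
  have hV : Nonempty V := by
    by_contra hV
    rw [not_nonempty_iff] at hV
    have h1 : H.card = n := hC0.card
    have h2 : H.card = 0 := by
      rw [Finset.card_eq_zero, Finset.eq_empty_iff_forall_notMem]
      exact fun v => (hV.false v).elim
    have h3 : (n : ℝ) = 0 := by rw [← h1, h2]; norm_num
    linarith
  obtain ⟨x, hx⟩ := exists_PV G
  set y : Fin r → ℕ := fun i => (cl H c i).card with hy
  have hysum : ∑ i, y i = n := (sum_card_cl H c).trans hC0.card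
  have hszy : sz H c = re y := rfl
  have hky : |kk m n y| ≤ 2 * (δ * n) := kk_bd hr hC0 hG.2.2.1 c2
  have hlam : |specRad G - al r * n| ≤ 4 * r + 1 :=
    H4 n (by omega) V G x (specRad G) c H (hC0.mono l4) hbal hx
  have hylo : ∀ i, |(y i : ℝ) - n / r| ≤ d3 * n := fun i => by
    have h1 : |(y i : ℝ) - n / r| ≤ 2 * q := hbal i
    have h2 : δ * n ≤ d3 * n := mul_le_mul_of_nonneg_right (by linarith) hn0
    linarith
  have hky3 : |kk m n y| ≤ d3 * n := by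
    have h2 : 2 * (δ * n) ≤ d3 * n := by
      have := mul_le_mul_of_nonneg_right l3 hn0
      linarith
    linarith
  obtain ⟨hD, hE, hS⟩ := H3 n (by omega) m y V G hG.2.2.1 hylo hky3
  -- the comparison
  have key : ∀ (c0 L : ℝ), L - ε / 6 * (1 + |kk m n y|) ≤ (n : ℝ) ^ 2 * Ph (re y) (specRad G) →
      ((c0 = 2 * kk m n y ∧ L = 2) ∨
        (c0 = 2 * kk m n y - 2 - 2 / ((r : ℝ) - 1) ∧ L = 0) ∨
        (c0 = -(2 * kk m n y / ((r : ℝ) - 1)) ∧ L = 2 * (1 - kk m n y))) →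
      Opt m n ε δ y c0 := by
    intro c0 L hL hcL z c' hz hzb hzk hcst
    have hzd : ∀ i, |(z i : ℝ) - n / r| ≤ d2 * n := fun i => by
      have h1 := hzb i
      have h2 : δ * n ≤ d2 * n := mul_le_mul_of_nonneg_right l2 hn0
      linarith
    have hzk2 : |kk m n z| ≤ d2 * n := hzk.trans (mul_le_mul_of_nonneg_right l2 hn0)
    obtain ⟨U, hU1, hU2⟩ : ∃ U : ℝ, ((0 ≤ kk m n z ∧ U = 2) ∨ ((r : ℝ) ≤ kk m n z ∧ U = 0) ∨
        (kk m n z ≤ -1 ∧ U = 2 * (1 - kk m n z))) ∧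
        ((c' = 2 * kk m n z ∧ U = 2) ∨
        (c' = 2 * kk m n z - 2 - 2 / ((r : ℝ) - 1) ∧ U = 0) ∨
        (c' = -(2 * kk m n z / ((r : ℝ) - 1)) ∧ U = 2 * (1 - kk m n z))) := by
      rcases hcst with ⟨h1, h2⟩ | ⟨h1, h2⟩ | ⟨h1, h2⟩
      · exact ⟨2, Or.inl ⟨h1, rfl⟩, Or.inl ⟨h2, rfl⟩⟩
      · exact ⟨0, Or.inr (Or.inl ⟨h1, rfl⟩), Or.inr (Or.inl ⟨h2, rfl⟩)⟩
      · exact ⟨_, Or.inr (Or.inr ⟨h1, rfl⟩), Or.inr (Or.inr ⟨h2, rfl⟩)⟩
    obtain ⟨G', hG1, hG2, hG3, hG4⟩ := H2 n (by omega) m z hz hzd hzk2 U hU1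
    have hle : specRad G' ≤ specRad G := hG.2.2.2 _ G' hG1 hG2 hG3
    obtain ⟨x', hx'⟩ := exists_PV G'
    have hzpos : ∀ i, 0 < re z i := fun i => by
      have h1 := (abs_le.1 (hzb i)).1
      show (0 : ℝ) < (z i : ℝ)
      linarith
    have hPh : Ph (re z) (specRad G) ≤ Ph (re z) (specRad G') :=
      BIG.Ph_anti hzpos (BIG.lam_nonneg hx') hle
    have hPz : (n : ℝ) ^ 2 * Ph (re z) (specRad G) ≤ U + ε / 6 * (1 + |kk m n z|) :=
      (mul_le_mul_of_nonneg_left hPh (by positivity)).trans hG4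
    have hys' : ∑ i, re y i = (n : ℝ) := by unfold re; exact_mod_cast hysum
    have hzs' : ∑ i, re z i = (n : ℝ) := by unfold re; exact_mod_cast hz
    have hTAY := H5 n (re y) (re z) (specRad G) c5 hlam hys' hzs' (mo2_le hbal) (mo2_le hzb)
    have hmo := mo_sub (m := m) hr hysum hz
    have e1 : (n : ℝ) ^ 2 / al r * (Ph (re y) (specRad G) - Ph (re z) (specRad G))
        - ((mo 2 n (re z) - mo 2 n (re y)) + (mo 3 n (re y) - mo 3 n (re z)) / n
          + (mo 4 n (re z) - mo 4 n (re y)) / (n : ℝ) ^ 2)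
        = 1 / al r * ((n : ℝ) ^ 2 * Ph (re y) (specRad G) - (n : ℝ) ^ 2 * Ph (re z) (specRad G))
          - (2 * (kk m n z - kk m n y) + (M34 n y - M34 n z)) := by
      rw [hmo]
      unfold M34
      ring
    have e2 : |mo 2 n (re y) - mo 2 n (re z)| = 2 * |kk m n z - kk m n y| := by
      rw [abs_sub_comm, hmo, abs_mul]
      norm_num
    rw [e1, e2] at hTAY
    have h1 := core (T1 := C / q) (T2 := C * (2 * |kk m n z - kk m n y|) / n) (C := C)
      hal hε hnpos hL hPz hTAY c3 rfl (by linarith) c4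
    have h2 := cost hr hcL
    have h3 := cost hr hU2
    linarith
  have hkε : |kk m n y| ≤ ε * n := by
    have := mul_le_mul_of_nonneg_right l5 hn0
    linarith
  rcases H1 n (by omega) V G c H (hC0.mono l1) hG.1 hG.2.1 hG.mx with h | h | h
  · obtain ⟨h1, h2⟩ := hD h
    exact ⟨_, hkε, Or.inl ⟨h, h1, rfl⟩, key _ 2 h2 (Or.inl ⟨rfl, rfl⟩)⟩
  · obtain ⟨h1, h2⟩ := hE h
    exact ⟨_, hkε, Or.inr (Or.inl ⟨h, h1, rfl⟩), key _ 0 (by linarith)
      (Or.inr (Or.inl ⟨rfl, rfl⟩))⟩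
  · obtain ⟨h1, h2⟩ := hS h
    exact ⟨_, hkε, Or.inr (Or.inr ⟨h, h1, rfl⟩), key _ _ h2 (Or.inr (Or.inr ⟨rfl, rfl⟩))⟩

end Pool.Agent.Work.MP_5532fa_up
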