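import Pool.Agent.Work.MP_5532fa_x.Interface3

set_option autoImplicit false

/-! # Block TI3 -/

open Finset

namespace Pool.Agent.Work.MP_5532fa_up

namespace X_TI3

/-- the fourth moment part -/
theorem four {n R κ e : ℝ} (hn : 0 < n) (hR0 : 0 ≤ R) (hR : R ≤ n) (hen : 4 ≤ e * n) :
    -((4 * κ * R + 4 * κ ^ 2) / (2 * n ^ 2)) ≤ e / 2 * |κ| := by
  have h1 : -(4 * κ * R + 4 * κ ^ 2) ≤ 4 * |κ| * n := by
    have h2 : -κ * R ≤ |κ| * n := by
      calc -κ * R ≤ |κ| * R := mul_le_mul_of_nonneg_right (neg_le_abs κ) hR0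
        _ ≤ |κ| * n := mul_le_mul_of_nonneg_left hR (abs_nonneg κ)
    nlinarith [sq_nonneg κ]
  rw [← neg_div, div_le_iff₀ (by positivity)]
  have h3 : |κ| * 4 ≤ |κ| * (e * n) := mul_le_mul_of_nonneg_left hen (abs_nonneg κ)
  have h4 : |κ| * 4 * n ≤ |κ| * (e * n) * n := mul_le_mul_of_nonneg_right h3 hn.le
  nlinarith

theorem ident {n D d D' d' κ : ℝ} (hn : 0 < n)
    (h : 3 * D' ^ 2 + d' ^ 2 = 3 * D ^ 2 + d ^ 2 + 4 * κ) :
    mm n D' d' = mm n D d +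
      (3 / 4 * D' * (D' ^ 2 - d' ^ 2) - 3 / 4 * D * (D ^ 2 - d ^ 2)) / n -
      (4 * κ * ((3 * D ^ 2 + d ^ 2) / 2) + 4 * κ ^ 2) / (2 * n ^ 2) := by
  have hR' : (3 * D' ^ 2 + d' ^ 2) / 2 = (3 * D ^ 2 + d ^ 2) / 2 + 2 * κ := by linarith
  unfold mm
  rw [hR']
  field_simp
  ring

end X_TI3

open X_TI3

theorem x_TI3 : Stmt_TI3 := by
  intro e he
  obtain ⟨s1, hs1⟩ := exists_nat_ge (21 / e)
  refine ⟨1 / 1000, max 200 s1, by norm_num, ?_⟩
  intro s hs D d D' d' κ hD hd0 hd9 hrel hd' hκ hcase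
  have hs200 : (200 : ℝ) ≤ s := by exact_mod_cast (le_max_left _ _).trans hs
  have hs1' : 21 / e ≤ (s : ℝ) := hs1.trans (by exact_mod_cast (le_max_right _ _).trans hs)
  have heS : 21 ≤ e * (s : ℝ) := by
    rw [div_le_iff₀ he] at hs1'
    linarith
  generalize (s : ℝ) = S at *
  have hS0 : 0 < S := by linarith
  have hn : 0 < 30 * S ^ 2 := by positivity
  have hen : 630 * S ≤ e * (30 * S ^ 2) := by nlinarith
  have hD1 : 4 * S ≤ D := by rcases hD with h | h <;> linarith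
  have hD2 : D ≤ 5 * S := by rcases hD with h | h <;> linarith
  have hD3 : D ≤ 4 * S + 1 := by rcases hD with h | h <;> linarith
  have hD0 : 0 < D := by linarith
  have hdd : d ^ 2 ≤ 81 := by nlinarith
  have hd2 : 0 ≤ d ^ 2 := sq_nonneg d
  have hak : 0 ≤ |κ| := abs_nonneg κ
  have hak1 : κ ≤ |κ| := le_abs_self κ
  have hak2 : -κ ≤ |κ| := neg_le_abs κ
  have hDsq : 16 * S ^ 2 ≤ D ^ 2 := by nlinarith
  have hDsq2 : D ^ 2 ≤ (4 * S + 1) ^ 2 := pow_le_pow_left₀ hD0.le hD3 2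
  have hR0 : 0 ≤ (3 * D ^ 2 + d ^ 2) / 2 := by positivity
  have hR : (3 * D ^ 2 + d ^ 2) / 2 ≤ 30 * S ^ 2 := by nlinarith
  have hfour := four (κ := κ) hn hR0 hR (by nlinarith : 4 ≤ e * (30 * S ^ 2))
  have hid := ident (κ := κ) hn hrel
  -- the part with `κ D`
  have hkD : 3 * |κ| * D ≤ e / 2 * |κ| * (30 * S ^ 2) := by
    have h1 : |κ| * (3 * D) ≤ |κ| * (e / 2 * (30 * S ^ 2)) :=
      mul_le_mul_of_nonneg_left (by linarith) hak
    nlinarith
  have hD'0 : 0 ≤ D' := by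
    have := abs_nonneg d'
    linarith
  have hd'2 : 0 ≤ d' ^ 2 := sq_nonneg d'
  have hd'9 : d' ^ 2 ≤ 9 * D' ^ 2 := by
    have h1 := pow_le_pow_left₀ (abs_nonneg d') hd' 2
    rw [sq_abs] at h1
    linarith
  rcases hcase with hc | hc | hc
  · -- case 1
    subst hc
    have hA : (3 / 4 * D' * (D' ^ 2 - d' ^ 2) - 3 / 4 * D' * (D' ^ 2 - d ^ 2)) / (30 * S ^ 2) ≤
        e / 2 * |κ| := by
      rw [div_le_iff₀ hn]
      have h1 : d' ^ 2 = d ^ 2 + 4 * κ := by linarith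
      rw [h1]
      have h2 : -κ * D' ≤ |κ| * D' := mul_le_mul_of_nonneg_right hak2 hD0.le
      nlinarith
    refine ⟨?_, fun h => ?_, fun h => ?_⟩
    · rw [hid]
      linarith
    · linarith
    · linarith
  · -- case 2
    have hD'D : D' ≤ D := by linarith
    have h49 : 49 / 100 * D ≤ D' := by
      by_contra hlt
      push Not at hlt
      have h1 : D' ^ 2 ≤ (49 / 100 * D) ^ 2 := pow_le_pow_left₀ hD'0 hlt.le 2
      nlinarith
    have hf : 29 / 10 * D ^ 2 ≤ 27 / 4 * D ^ 2 - 9 * D * (D - D') + 3 * (D - D') ^ 2 := by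
      nlinarith [mul_nonneg (sub_nonneg.2 h49) hD0.le, mul_nonneg (sub_nonneg.2 h49) hD'0]
    have htf : 17 / 5 * (30 * S ^ 2) ≤
        (D - D') * (27 / 4 * D ^ 2 - 9 * D * (D - D') + 3 * (D - D') ^ 2) := by
      rcases le_total 3 (D - D') with h3 | h3
      · have h1 : 3 * (29 / 10 * D ^ 2) ≤
            (D - D') * (27 / 4 * D ^ 2 - 9 * D * (D - D') + 3 * (D - D') ^ 2) :=
          mul_le_mul h3 hf (by positivity) (by linarith)
        nlinarith
      · have h1 : 27 / 4 * D ^ 2 - 27 * D ≤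
            27 / 4 * D ^ 2 - 9 * D * (D - D') + 3 * (D - D') ^ 2 := by
          nlinarith [mul_nonneg hD0.le (sub_nonneg.2 h3), sq_nonneg (D - D')]
        have h2 : 0 ≤ 27 / 4 * D ^ 2 - 27 * D := by nlinarith
        have h4 : 1 * (27 / 4 * D ^ 2 - 27 * D) ≤
            (D - D') * (27 / 4 * D ^ 2 - 9 * D * (D - D') + 3 * (D - D') ^ 2) :=
          mul_le_mul (by linarith) h1 h2 (by linarith)
        nlinarith
    have hA : (3 / 4 * D' * (D' ^ 2 - d' ^ 2) - 3 / 4 * D * (D ^ 2 - d ^ 2)) / (30 * S ^ 2) ≤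
        -(17 / 5) + e / 2 + e / 2 * |κ| := by
      rw [div_le_iff₀ hn]
      have h1 : d' ^ 2 = 3 * D ^ 2 + d ^ 2 + 4 * κ - 3 * D' ^ 2 := by linarith
      rw [h1]
      have h2 : 3 / 4 * D' * (D' ^ 2 - (3 * D ^ 2 + d ^ 2 + 4 * κ - 3 * D' ^ 2)) -
          3 / 4 * D * (D ^ 2 - d ^ 2) =
          -((D - D') * (27 / 4 * D ^ 2 - 9 * D * (D - D') + 3 * (D - D') ^ 2)) +
          3 / 4 * d ^ 2 * (D - D') + 3 * (-κ * D') := by ring
      rw [h2]
      have h3 : -κ * D' ≤ |κ| * D := by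
        calc -κ * D' ≤ |κ| * D' := mul_le_mul_of_nonneg_right hak2 hD'0
          _ ≤ |κ| * D := mul_le_mul_of_nonneg_left hD'D hak
      have h4 : 3 / 4 * d ^ 2 * (D - D') ≤ 61 * D := by
        have h5 : 3 / 4 * d ^ 2 ≤ 61 := by linarith
        calc 3 / 4 * d ^ 2 * (D - D') ≤ 61 * (D - D') :=
              mul_le_mul_of_nonneg_right h5 (by linarith)
          _ ≤ 61 * D := by linarith
      have h6 : 61 * D ≤ e / 2 * (30 * S ^ 2) := by linarith
      linarith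
    have h2 : mm (30 * S ^ 2) D' d' ≤ mm (30 * S ^ 2) D d - 17 / 5 + e * (1 + |κ|) := by
      rw [hid]
      linarith
    refine ⟨by linarith, fun _ => h2, fun h => by linarith⟩
  · -- case 3
    have ht1 : 1 ≤ D' - D := by linarith
    have ht0 : 0 ≤ D' - D := by linarith
    have h4k : 3 * (2 * D * (D' - D) + (D' - D) ^ 2) + d' ^ 2 - d ^ 2 = 4 * κ := by
      linarith [hrel]
    have ha1 : D * 1 ≤ D * (D' - D) := mul_le_mul_of_nonneg_left ht1 hD0.le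
    have ha2 : 1 ≤ (D' - D) ^ 2 := one_le_pow₀ ht1
    have hk3 : 3 / 2 * D - 20 ≤ κ := by linarith
    have hD'2 : D' ≤ 2 * D := by
      by_contra hlt
      push Not at hlt
      have h1 : (2 * D) ^ 2 ≤ D' ^ 2 := pow_le_pow_left₀ (by linarith) hlt.le 2
      have h2 : (2 * D) ^ 2 = 4 * D ^ 2 := by ring
      have h3 : (200 : ℝ) ^ 2 ≤ S ^ 2 := pow_le_pow_left₀ (by norm_num) hs200 2
      linarith
    have hcube : D' ^ 3 - D ^ 3 ≤ 1 / 2 * (4 * κ + 81) * D' := by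
      have h1 : D' ^ 3 - D ^ 3 ≤ (D' - D) * (3 * D + (D' - D)) * D' := by
        have : (D' - D) * (3 * D + (D' - D)) * D' - (D' ^ 3 - D ^ 3) =
            D * (D' - D) ^ 2 := by ring
        have h0 : 0 ≤ D * (D' - D) ^ 2 := by positivity
        linarith
      have h2 : (D' - D) * (3 * D + (D' - D)) ≤ 1 / 2 * (4 * κ + 81) := by
        have h3 : 1 / 2 * (4 * κ + 81) - (D' - D) * (3 * D + (D' - D)) =
            1 / 2 * (D' - D) ^ 2 + 1 / 2 * d' ^ 2 + 1 / 2 * (81 - d ^ 2) := by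
          rw [← h4k]
          ring
        linarith
      exact h1.trans (mul_le_mul_of_nonneg_right h2 hD'0)
    have hpos : 0 ≤ 4 * κ + 81 := by linarith
    have hA : (3 / 4 * D' * (D' ^ 2 - d' ^ 2) - 3 / 4 * D * (D ^ 2 - d ^ 2)) / (30 * S ^ 2) ≤
        e + e / 2 * |κ| := by
      rw [div_le_iff₀ hn]
      have h1 : 3 / 4 * D' * (D' ^ 2 - d' ^ 2) - 3 / 4 * D * (D ^ 2 - d ^ 2) ≤
          3 / 4 * (D' ^ 3 - D ^ 3) + 3 / 4 * d ^ 2 * D := by
        have h0 : 0 ≤ 3 / 4 * D' * d' ^ 2 := by positivity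
        have h9 : 3 / 4 * D' * (D' ^ 2 - d' ^ 2) - 3 / 4 * D * (D ^ 2 - d ^ 2) =
            3 / 4 * (D' ^ 3 - D ^ 3) + 3 / 4 * d ^ 2 * D - 3 / 4 * D' * d' ^ 2 := by ring
        linarith
      have h2 : 3 / 4 * d ^ 2 * D ≤ 61 * D := mul_le_mul_of_nonneg_right (by linarith) hD0.le
      have h3 : 1 / 2 * (4 * κ + 81) * D' ≤ 1 / 2 * (4 * κ + 81) * (2 * D) :=
        mul_le_mul_of_nonneg_left hD'2 (by linarith)
      have h4 : κ * D ≤ |κ| * D := mul_le_mul_of_nonneg_right hak1 hD0.le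
      have h5 : 1 / 2 * (4 * κ + 81) * (2 * D) = 4 * (κ * D) + 81 * D := by ring
      have h6 : 122 * D ≤ e * (30 * S ^ 2) := by linarith
      have h7 : 3 * |κ| * D = 3 * (|κ| * D) := by ring
      have h8 : (e + e / 2 * |κ|) * (30 * S ^ 2) = e * (30 * S ^ 2) + e / 2 * |κ| * (30 * S ^ 2) := by
        ring
      linarith
    refine ⟨?_, fun h => by linarith, fun _ => hk3⟩
    rw [hid]
    linarith

end Pool.Agent.Work.MP_5532fa_up
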