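import Pool.Agent.Work.MP_5532fa_full.P39

/-!
# MP_5532fa_co, sixth round: all `r ≥ 3`, all large `m` (theorems A and B)

All old results are available without hypotheses: `pGD`, `pGE`, `pGF`, `pEID`, `pEVN`, `pFAM`,
`pCSE`, `pESTU`, `pMV1`, `pFLAT`, `pEST1`, `pTRF`, `pSM`, `pSTAR`, `pEQS`, `pREP`, `pCU1`, `pTNR`,
`pMKD`, `pTOPG`, `pFIN4`, `pLOWX`, `pTN`, `tri`, `fdcase`, `pMAIN5` (see the file
`Work/MP_5532fa_full/P39.lean`; the merged files `P01` to `P39` contain all proofs of the old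
blocks, for instance `namespace D3V`, `blk_D2V`, `blk_E3V`; readable copies, one file per block, are
in `Work/MP_5532fa_up/`). `FIX N`: everywhere `al r = 1 - 1/r`.
-/

open Finset

namespace Pool.Agent.Work.MP_5532fa_up

open MP5532fa (specRad qf pE)

/-! ## definitions -/

/-- `G` is the complete multipartite graph on `H` (classes given by `c`) without the star with
centre `p` and set of leaves `L` (contained in the class of `q ∈ L`), together with the vertex `w`
joined exactly to the transversal `T`, which contains `p` and `q`; all other vertices are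
isolated -/
structure WS {V : Type} [Fintype V] {r : ℕ} (G : SimpleGraph V) (N : ℕ) (H : Finset V)
    (c : V → Fin r) (w : V) (T L : Finset V) (p q : V) : Prop where
  card : H.card = N
  hw : w ∉ H
  hT : T ⊆ H
  hT1 : ∀ i, (cl T c i).card = 1
  hp : p ∈ T
  hq : q ∈ T
  hpq : c p ≠ c q
  hL : L ⊆ cl H c (c q)
  hqL : q ∈ L
  adj : ∀ a b, G.Adj a b ↔
    (a ∈ H ∧ b ∈ H ∧ c a ≠ c b ∧ ¬ (a = p ∧ b ∈ L) ∧ ¬ (b = p ∧ a ∈ L)) ∨
      (a = w ∧ b ∈ T) ∨ (b = w ∧ a ∈ T)

/-- the form D over class sizes `y` -/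
def FamD {V : Type} [Fintype V] {r : ℕ} (n : ℕ) (y : Fin r → ℕ) (G : SimpleGraph V) : Prop :=
  ∃ (H : Finset V) (c : V → Fin r) (w : V) (A : Finset V) (v1 v2 : V),
    WD G n H c w A v1 v2 ∧ (∀ i, (cl H c i).card = y i) ∧ Place H A c {c v1, c v2} ∧
      Top H c {c v1, c v2}

/-- the form E over class sizes `y` -/
def FamE {V : Type} [Fintype V] {r : ℕ} (n : ℕ) (y : Fin r → ℕ) (G : SimpleGraph V) : Prop :=
  ∃ (H : Finset V) (c : V → Fin r) (w u : V) (A B : Finset V) (i0 : Fin r),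
    WE G n H c w u A B i0 ∧ (∀ i, (cl H c i).card = y i) ∧ OneOut A B ∧ Place H A c {i0} ∧
      Top H c {i0}

/-- the form S over class sizes `y` -/
def FamS {V : Type} [Fintype V] {r : ℕ} (n : ℕ) (y : Fin r → ℕ) (G : SimpleGraph V) : Prop :=
  ∃ (H : Finset V) (c : V → Fin r) (w : V) (T L : Finset V) (p q : V),
    WS G n H c w T L p q ∧ (∀ i, (cl H c i).card = y i) ∧ 2 ≤ L.card ∧
      (cl H c (c q)).card < (cl H c (c p)).card ∧
      ∀ i, i ≠ c p → i ≠ c q → (cl H c i).card < (cl H c (c q)).card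

/-! ## placement of the vertices, classes of arbitrary (almost equal) sizes -/

/-- **D2G** (copy of `blk_D2V`, file `Work/MP_5532fa_up/D2V.lean`). Take `j = A.card`:
`A.card ≤ eo G H ≤ δ N` (each edge `w a`, `a ∈ A`, is counted in `eo`), so `RgV r N j` and
`Near r δ N j H A c` (`C0.bal` and difference `0`), `A'.card = A.card` for the comparison graphs.
The only use of `Bal` in `D2V` is `hdiff` (sizes differ by exactly one) before `hunequal`; now
`n_k - n_i = g ≥ 1` is arbitrary: `Est.dif` gives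
`cs_k - cs_i ≥ zb (al r * g + X (a_k - a_i)/N - e (g + 1)) ≥ zb (2/3 g - 1/2 - (g + 1)/20) > 0`,
since `0 ≤ X ≤ 1` and `a_i ≤ n_i ≤ N/2`. -/
def Stmt_D2G : Prop := ∀ (r : ℕ), 3 ≤ r → ∃ (δ : ℝ) (N0 : ℕ), 0 < δ ∧
  ∀ N ≥ N0, ∀ (V : Type) [Fintype V] (G : SimpleGraph V) (H : Finset V) (c : V → Fin r) (w : V)
    (A : Finset V) (v1 v2 : V), C0 r δ N G c H → WD G N H c w A v1 v2 → MX r G →
    Place H A c {c v1, c v2}

/-- **D3G** (copy of `blk_D3V` / `blk_TOPG`, files `D3V.lean`, `TOPG.lean`). `j = A.card` as in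
D2G. Suppose a class `l ≠ c v1, c v2` is larger than the class `k = c v1` (`v2` by symmetry,
`D3.wd_symm`). `a_l = (cl A c l).card ≤ A.card ≤ δ N ≤ n_k`, so `D3V.core` works without `Bal` and
`Place`: its hypothesis `hnl : card l = card k + 1` is only used to get
`0 < cs x H c l - cs x H c k` and the same for `y` from `Est.dif`; for a difference `g ≥ 1`:
`al r * g + X (a_l - a_k)/N - e (g + 1) > 0`, as `a_k = 1`, `X ≥ 0`, `e ≤ 1/12` (or use `FLAT` and
`TOPG.cs_pos`). -/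
def Stmt_D3G : Prop := ∀ (r : ℕ), 3 ≤ r → ∃ (δ : ℝ) (N0 : ℕ), 0 < δ ∧
  ∀ N ≥ N0, ∀ (V : Type) [Fintype V] (G : SimpleGraph V) (H : Finset V) (c : V → Fin r) (w : V)
    (A : Finset V) (v1 v2 : V), C0 r δ N G c H → WD G N H c w A v1 v2 → MX r G →
    Top H c {c v1, c v2}

/-- **EBG** : `pEBV` with `j = A.card` (`A.card ≤ eo G H ≤ δ N`). -/
def Stmt_EBG : Prop := ∀ (r : ℕ), 3 ≤ r → ∃ (δ : ℝ) (N0 : ℕ), 0 < δ ∧
  ∀ N ≥ N0, ∀ (V : Type) [Fintype V] (G : SimpleGraph V) (H : Finset V) (c : V → Fin r)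
    (w u : V) (A B : Finset V) (i0 : Fin r), C0 r δ N G c H → WE G N H c w u A B i0 → MX r G →
    OneOut A B

/-- **E2G** (copy of `blk_E2V`, file `E2V.lean`, without `Bal`; see D2G for the changes). -/
def Stmt_E2G : Prop := ∀ (r : ℕ), 3 ≤ r → ∃ (δ : ℝ) (N0 : ℕ), 0 < δ ∧
  ∀ N ≥ N0, ∀ (V : Type) [Fintype V] (G : SimpleGraph V) (H : Finset V) (c : V → Fin r)
    (w u : V) (A B : Finset V) (i0 : Fin r), C0 r δ N G c H → WE G N H c w u A B i0 →
    OneOut A B → MX r G → Place H A c {i0}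

/-- **E3G** (copy of `blk_E3V`, file `E3V.lean`, without `Bal` and `Place`). Suppose
`n_l > n_k`, `k = i0`. `small_classV` is only needed for `a_l ≤ n_k` (or `<`); here
`a_l ≤ A.card ≤ δ N < n_k`. The other use of `Bal` is the sign of the differences of the class
sums, see D3G. -/
def Stmt_E3G : Prop := ∀ (r : ℕ), 3 ≤ r → ∃ (δ : ℝ) (N0 : ℕ), 0 < δ ∧
  ∀ N ≥ N0, ∀ (V : Type) [Fintype V] (G : SimpleGraph V) (H : Finset V) (c : V → Fin r)
    (w u : V) (A B : Finset V) (i0 : Fin r), C0 r δ N G c H → WE G N H c w u A B i0 →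
    OneOut A B → MX r G → Top H c {i0}

/-! ## the star -/

/-- **GS** : facts on the graphs `WS`. `WF`: `sub`, `hwT` from `adj`, `hF` by the pair `p, q`. The
missing ordered pairs are `(p, b)`, `(b, p)`, `b ∈ L` (`p ∉ L` since `c p ≠ c q`). The rest is
`pGF`. -/
def Stmt_GS : Prop := ∀ (r : ℕ), 3 ≤ r → ∀ (V : Type) [Fintype V] (G : SimpleGraph V) (N : ℕ)
  (H : Finset V) (c : V → Fin r) (w : V) (T L : Finset V) (p q : V), WS G N H c w T L p q →
  WF G N H c w T ∧ mis G H c = 2 * L.card ∧ G.CliqueFree (r + 1) ∧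
  ((∀ i, 2 * L.card < (cl H c i).card) → ¬ G.Colorable r) ∧
  pE G = (N : ℝ) ^ 2 - ∑ i, sz H c i ^ 2 - 2 * L.card + 2 * r

/-- **FS1** : the leaves of the star are in one class. `pSTAR`: there is `p ∈ T` such that all
missing pairs contain `p`. `F` = set of the `b ∈ H`, `c b ≠ c p`, not adjacent to `p`;
`2 |F| = mis ≥ 4`; `WF.hF`: some `b0 ∈ T` is in `F`. By `pEQS` all classes have different sizes;
`Q` = largest class among the classes `≠ c p`. Claim: `F ⊆ cl H c Q` (then `Q = c b0`, `L = F`,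
`q = b0`). Suppose `a ∈ F`, `l = c a ≠ Q`. Let `tQ` be the vertex of `T` in `Q`; `b = tQ` if
`tQ ∉ F`, otherwise any `b ∈ cl H c Q`, `b ∉ F` (`|F| ≤ δ N < n_Q`).
`F' = F - a + b`, `G' = gF H c w T (fun x z => x = p ∧ z ∈ F')`: `WF` for `G'` (the missing pair in
`T` is `p, tQ`), `mis` is the same, `pGF`: same number of edges, in the class, so
`lam' = specRad G' ≤ lam = specRad G`; `C0` for `G'` by `pTRF`; `pFLAT` (e = 1/12) for `G` (vector
`x`) and `G'` (vector `y`). `pairing`: `(lam' - lam) <x,y> = x_p (y_a - y_b) + y_p (x_a - x_b)`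
(the pair `p a` is added, the pair `p b` removed). The eigenvalue equations (`PV.eig`, or the
identities in `SM2.lean`, `STAR.lean`): with `S = ∑_H x`
`lam x_a = S - cs_l - x_p + [a ∈ T] x_w`, `lam x_b = S - cs_Q + [b ∈ T] x_w`,
`lam' y_a = S' - cs'_l + [a ∈ T] y_w`, `lam' y_b = S' - cs'_Q - y_p + [b ∈ T] y_w`. Since
`lam' ≤ lam` and the bracket for `y` below is `≥ 0`, the sum is at least
`(1/lam) (x_p ((cs'_Q - cs'_l) + y_p + t y_w) + y_p ((cs_Q - cs_l) - x_p + t x_w))`, `t` in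
`{-1, 0, 1}`, and this is `> 0` because `cs_Q - cs_l ≥ (2/3 - 1/12) xb - 1/12 xb`, the same for `y`,
the terms `x_p y_p` cancel, and `x_w ≤ e xb`, `y_w ≤ e yb`. Contradiction. -/
def Stmt_FS1 : Prop := ∀ (r : ℕ), 3 ≤ r → ∃ (δ : ℝ) (N0 : ℕ), 0 < δ ∧ ∀ N ≥ N0,
  ∀ (V : Type) [Fintype V] (G : SimpleGraph V) (c : V → Fin r) (H : Finset V) (w : V)
    (T : Finset V), C0 r δ N G c H → WF G N H c w T → MX r G → 4 ≤ mis G H c →
    ∃ (L : Finset V) (p q : V), WS G N H c w T L p q ∧ 2 * L.card = mis G H c ∧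
      ∀ i, i ≠ c p → i ≠ c q → (cl H c i).card < (cl H c (c q)).card

/-- **FS2** : the centre of the star is in a larger class than the leaves. `P = c p`, `Q = c q`,
`M = |L| ≥ 2`, suppose `n_P < n_Q`. `L' ⊆ cl H c P` with `p ∈ L'`, `|L'| = M` (`M ≤ δ N`). `G'` =
star with centre `q` and leaves `L'`, the same `T`:
`G' = gF H c w T (fun x z => x = q ∧ z ∈ L')`, which is `WS G' N H c w T L' q p`; `GS`: same number
of edges, in the class, so `lam' ≤ lam`. `C0` for `G'` by `pTRF`, `pFLAT` with a small `e` (for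
instance `e = 1/100`) for both. `pairing`: `(lam' - lam) <x,y>` is the sum over `b ∈ L - q` of
`x_p y_b + x_b y_p` minus the sum over `a ∈ L' - p` of `x_q y_a + x_a y_q`. With
`X_P = ∑_H x - cs x H c P` etc. (`Y_P`, `Y_Q` for `y`, `G'`): `lam x_p = X_P - ∑_L x + x_w`,
`lam x_q = X_Q - x_p + x_w`, `lam x_b = X_Q - x_p` (`b ∈ L - q`), `lam x_a = X_P` (`a ∈ L' - p`),
`lam' y_q = Y_Q - ∑_L' y + y_w`, `lam' y_p = Y_P - y_q + y_w`, `lam' y_a = Y_P - y_q`,
`lam' y_b = Y_Q`. So each of the `M - 1` differences is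
`D = (1/(lam lam')) (X_P ∑_L' y - Y_Q ∑_L x + x_w (Y_Q - Y_P + y_q) - y_w (X_P - X_Q + x_p))`,
`∑_L x = M x_b + x_w/lam`, `∑_L' y = M y_a + y_w/lam'`. Put `X_P = lam βP`, `X_Q = lam βQ`,
`Y_P = lam' β'P`, `Y_Q = lam' β'Q`; `βP - βQ = (cs_Q - cs_P)/lam ≥ (1/2) xb g / lam`,
`g = n_Q - n_P ≥ 1`, and the same for `y`; all `β` are `(1 + O(e)) xb` (resp. `yb`). Then
`X_P y_a - Y_Q x_b = lam βP (β'P - y_q/lam') - lam' β'Q (βQ - x_p/lam)
  ≥ lam' (βP β'P - βQ β'Q) + (lam - lam') βP β'P - (lam/lam') βP y_q + (lam'/lam) β'Q x_p`, with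
`lam' (βP β'P - βQ β'Q) ≥ (lam'/lam) (1/2) g xb β'P + (1/2) g βQ yb`, and
`(lam/lam') βP y_q - (lam'/lam) β'Q x_p ≤ (lam/lam' - lam'/lam) βP β'Q + O(M/N + e) xb yb`, which is
at most `(lam - lam') βP β'P / 2 + O(M/N + e) xb yb` (`lam' ≥ N/2`). So
`X_P ∑_L' y - Y_Q ∑_L x ≥ M (3/4) xb yb - O(e) xb yb`, the terms with `x_w`, `y_w` are
`≤ e (3 g + 3) xb yb` (absorb `e g` in the main term, which contains `M g / 2`), `D > 0`:
contradiction. -/
def Stmt_FS2 : Prop := ∀ (r : ℕ), 3 ≤ r → ∃ (δ : ℝ) (N0 : ℕ), 0 < δ ∧ ∀ N ≥ N0,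
  ∀ (V : Type) [Fintype V] (G : SimpleGraph V) (c : V → Fin r) (H : Finset V) (w : V)
    (T L : Finset V) (p q : V), C0 r δ N G c H → WS G N H c w T L p q → MX r G →
    2 ≤ L.card → (cl H c (c p)).card < (cl H c (c q)).card → False

/-- **SM6** : the three types for graphs in the neighbourhood of a complete multipartite graph.
`pSM` (or `sm` ...; see `Str2.lean`): `WD`: D2G, D3G. `WE`: EBG, E2G, E3G. `WF`: `mis` is even
(`pEVN`) and positive (`WF.hF`). If `mis ≥ 4`: FS1, FS2, and `pEQS` gives different sizes, so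
`n_(c q) < n_(c p)`. If `mis = 2`: the missing pair is the pair `a, b ∈ T` of `WF.hF`, and
`WD G N H c w T a b` (compare `W1.lean`, where this is done: `WF` with `mis = 2` is `WD`), so again
D2G, D3G. -/
def Stmt_SM6 : Prop := ∀ (r : ℕ), 3 ≤ r → ∃ (δ : ℝ) (N0 : ℕ), 0 < δ ∧ ∀ N ≥ N0,
  ∀ (V : Type) [Fintype V] (G : SimpleGraph V) (c : V → Fin r) (H : Finset V),
    C0 r δ N G c H → G.CliqueFree (r + 1) → ¬ G.Colorable r → MX r G →
    FamD N (fun i => (cl H c i).card) G ∨ FamE N (fun i => (cl H c i).card) G ∨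
      FamS N (fun i => (cl H c i).card) G

/-! ## uniqueness -/

/-- **CANPG** (general form of `blk_CANP`, file `CANP.lean`): the canonical parameters are unique
up to a permutation of the classes, arbitrary class sizes. Proof. (1) `P` consists of `|P|` largest
entries, so for every `s` the number of `i ∈ P` with `n i = s` is
`min (max (|P| - #{n > s}) 0) #{n = s}`, the same for `P'`, `n'` (because of `τ`). (2) Hence the
multisets of the sizes outside `P`, `P'` are equal, and the sums of `a`, `a'` outside `P`, `P'` are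
equal. For a size `s` let `A(s)`, `A'(s)` be the sums of `a`, `a'` over the classes outside `P`,
`P'` of size `s`. Claim `A(s) = A'(s)` for all `s`. Otherwise there are `s1`, `s2` with
`A(s1) > A'(s1)`, `A(s2) < A'(s2)`. If `s1 < s2`: in the primed system some class `i` of size `s1`
has `a' i < n' i` (as `A'(s1) < A(s1) ≤ s1 * number`), and some class `k` of size `s2` has
`a' k > 1` (as `A'(s2) > A(s2) ≥ number`): this contradicts the condition for `i, k`. If `s2 < s1`: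
the same in the unprimed system with `s1`, `s2` exchanged. (3) For each `s` the values of `a`
outside `P` on size `s` lie in `{b, b + 1}` for some `b`, the same for `a'`, with equal number and
equal sum, so each value is taken equally often (lemma in `CANP.lean`). (4) So the labels
`(i ∈ P, n i, a i)` and `(i ∈ P', n' i, a' i)` have fibres of equal cardinality: `σ`. -/
def Stmt_CANPG : Prop := ∀ (r : ℕ) (n a n' a' : Fin r → ℕ) (P P' : Finset (Fin r)) (p0 : ℕ)
  (τ : Equiv.Perm (Fin r)), P.card = P'.card → (∀ i, n' (τ i) = n i) → ∑ i, a i = ∑ i, a' i →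
  (∀ i k, i ∈ P → k ∉ P → n k ≤ n i) → (∀ i k, i ∈ P' → k ∉ P' → n' k ≤ n' i) →
  (∀ i, i ∈ P → a i = p0) → (∀ i, i ∈ P' → a' i = p0) →
  (∀ i, i ∉ P → 1 ≤ a i ∧ a i ≤ n i) → (∀ i, i ∉ P' → 1 ≤ a' i ∧ a' i ≤ n' i) →
  (∀ i k, i ∉ P → k ∉ P → (n i = n k → a i ≤ a k + 1) ∧ (n i < n k → a i = n i ∨ a k = 1)) →
  (∀ i k, i ∉ P' → k ∉ P' →
    (n' i = n' k → a' i ≤ a' k + 1) ∧ (n' i < n' k → a' i = n' i ∨ a' k = 1)) →
  ∃ σ : Equiv.Perm (Fin r), ∀ i, (i ∈ P ↔ σ i ∈ P') ∧ n' (σ i) = n i ∧ a' (σ i) = a i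

/-- **TIEG** (general form of `blk_TIEU`, file `TIEU.lean`): the position of the vertex of `B`
outside `A` does not matter. `x`, `y` eigenvectors of `G`, `G'`, `d = |B \ B'|`;
`lam (∑_B' x - ∑_B x) = - d x_u` and `lam' (∑_B' y - ∑_B y) = d y_u`, so
`(lam' - lam) <x,y> = d x_u y_u (1/lam' - 1/lam)` (see TIE in `Work/MP_5532fa_up/TIE.lean`);
`lam, lam' > 0`; both signs of `lam' - lam` are contradictory if `<x,y> > 0`. Positivity:
`x_u > 0`: otherwise the equation at `u` gives `x_w = 0`, `x_b = 0` for `b ∈ B`, the equation at `w`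
gives `x = 0` on `A`, the equations at two vertices of `B` in different classes give `x = 0` on `H`,
and the other vertices are isolated, contradiction to `∑ x^2 = 1`; `y_u > 0` in the same way. -/
def Stmt_TIEG : Prop := ∀ (r : ℕ), 3 ≤ r → ∀ (V : Type) [Fintype V] (G G' : SimpleGraph V)
    (N : ℕ) (H : Finset V) (c : V → Fin r) (w u : V) (A B B' : Finset V) (i0 : Fin r),
    WE G N H c w u A B i0 → WE G' N H c w u A B' i0 → OneOut A B → OneOut A B' →
    specRad G = specRad G'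

/-- **UND** (general form of `pISOD2`, see `ISOD.lean` and the proof of `pISOD2`): the form D is
unique. `CANPG` with `n = y`, `a i = (cl A c i).card`, `P = {c v1, c v2}`, `p0 = 1`, and the same
for `G'` (`τ = σ`), then labels as in `ISOD.lean`. -/
def Stmt_UND : Prop := ∀ (r n : ℕ) (y y' : Fin r → ℕ) (σ : Equiv.Perm (Fin r)), 3 ≤ r →
  (∀ i, y' (σ i) = y i) → ∀ (V V' : Type) [Fintype V] [Fintype V'] (G : SimpleGraph V)
    (G' : SimpleGraph V'), pE G = pE G' → FamD n y G → FamD n y' G' →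
    specRad G = specRad G' ∧ ∃ (W : Type) (K : SimpleGraph W),
      MP5532fa.UpToIsolated G K ∧ MP5532fa.UpToIsolated G' K

/-- **UNE** (general form of `pISOEU`, see `ISOE.lean`, `ISOEU.lean`): all graphs of the form E with
the same class sizes and the same number of edges have the same spectral radius. `CANPG` with
`P = {i0}`, `p0 = 0`, then `TIEG` and labels as in `ISOE.lean`. -/
def Stmt_UNE : Prop := ∀ (r n : ℕ) (y y' : Fin r → ℕ) (σ : Equiv.Perm (Fin r)), 3 ≤ r →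
  (∀ i, y' (σ i) = y i) → ∀ (V V' : Type) [Fintype V] [Fintype V'] (G : SimpleGraph V)
    (G' : SimpleGraph V'), pE G = pE G' → FamE n y G → FamE n y' G' → specRad G = specRad G'

/-- **UNS** : the form S is unique. `GS` gives `|L| = |L'|`; `c p`, `c q` are the classes with the
largest and the second largest size, so `σ (c p) = c' p'`, `σ (c q) = c' q'`. Replace `c` by
`σ ∘ c` (same graph). Labels: class, in `T`, in `L`, `= w`, `= p`; see `ISOD.lean` for the use of
labels. -/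
def Stmt_UNS : Prop := ∀ (r n : ℕ) (y y' : Fin r → ℕ) (σ : Equiv.Perm (Fin r)), 3 ≤ r →
  (∀ i, y' (σ i) = y i) → ∀ (V V' : Type) [Fintype V] [Fintype V'] (G : SimpleGraph V)
    (G' : SimpleGraph V'), pE G = pE G' → FamS n y G → FamS n y' G' →
    specRad G = specRad G' ∧ ∃ (W : Type) (K : SimpleGraph W),
      MP5532fa.UpToIsolated G K ∧ MP5532fa.UpToIsolated G' K

/-! ## theorem A -/

/-- **MAINA** : all extremal graphs. `tri` with the `δ` of SM6 (and `≤ 1/(4 r^2)`): in the first two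
cases SM6; in the third case `fdcase` (with `RgV` from the upper bound of `j`) gives `TypeD` or
`TypeE` over `N` vertices, which are `FamD`, `FamE` (`Bal`: all sizes are within `1` of `N / r`).
Compare `mainC` in `Asm5.lean`. -/
def Stmt_MAINA : Prop := ∀ (r : ℕ), 3 ≤ r → ∃ m0 : ℕ, ∀ m ≥ m0, ∀ N j : ℕ, m = tn r N + j →
  m < tn r (N + 1) → ∀ (V : Type) [Fintype V] (G : SimpleGraph V), Ext r m G →
    ∃ (n : ℕ) (y : Fin r → ℕ), (n = N ∨ n = N + 1) ∧ (∀ i, |(y i : ℝ) - n / r| ≤ 2 * √(n : ℝ)) ∧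
      (FamD n y G ∨ FamE n y G ∨ FamS n y G)

end Pool.Agent.Work.MP_5532fa_up
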