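import Pool.Agent.Work.MP_5532fa_x.Interface

/-!
# MP_5532fa_co, sixth round: theorem B (`r ≥ 7`, the class sizes of the gadgets)

Old results: `pCU1` (`Stmt_CU1`), `pREP`, `pTNR`, `pMKD`, `pGD`, `pCSE`, `pFAM`, `pTOPG`, `pMAIN5`.
-/

open Finset

namespace Pool.Agent.Work.MP_5532fa_up

open MP5532fa (specRad qf pE)

/-- the value of the secular function `Ph` for a gadget, up to `O(n^-4)` -/
noncomputable def gg (r : ℕ) (lam a b : ℝ) : ℝ :=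
  2 / ((lam + a) * (lam + b)) - (1 / (lam + a) ^ 2 + 1 / (lam + b) ^ 2) / lam
    - ((r : ℝ) - 1) ^ 2 / lam ^ 3

/-- the function which is maximised by the class sizes of the extremal gadgets -/
noncomputable def PhF {r : ℕ} (y : Fin r → ℕ) (i k : Fin r) : ℝ :=
  ∑ l, (y l : ℝ) ^ 3 + 2 * (r : ℝ) / ((r : ℝ) - 1) * ((y i : ℝ) + y k)

/-- the data of an extremal gadget used in the optimisation -/
structure GH (r : ℕ) (C : ℝ) (n : ℕ) (lam : ℝ) (z : Fin r → ℕ) (i1 i2 : Fin r) : Prop where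
  ne : i1 ≠ i2
  lamb : |lam - al r * n| ≤ C
  sum : ∑ l, z l = n
  dev : ∀ l, |(z l : ℝ) - n / r| ≤ 2 * √(n : ℝ)
  top : ∀ l, l ≠ i1 → l ≠ i2 → z l ≤ z i1 ∧ z l ≤ z i2
  cmp : ∀ (y : Fin r → ℕ) (i k : Fin r), i ≠ k → ∑ l, y l = n → ∑ l, y l ^ 2 = ∑ l, z l ^ 2 →
    lam * ∑ l, (1 / (lam + (z l : ℝ)) - 1 / (lam + (y l : ℝ)))
      ≤ gg r lam (y i) (y k) - gg r lam (z i1) (z i2) + C / (n : ℝ) ^ 4

/-! ## spectral part -/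

/-- **LAMG** : spectral radius of a gadget. Lower bound: `rayleigh` with the indicator of `H`:
`lam * n ≥ n^2 - ∑ sz^2 - 2 ≥ al r * n^2 - r B^2 n - 2` (`EID`, or directly:
`∑ sz^2 = n^2/r + ∑ (sz - n/r)^2`). Upper bound (`PV.form`): the part inside `H` is at most
`∑ chi(c a ≠ c b) x x = S^2 - ∑ cs_i^2 ≤ al r * S^2 ≤ al r * n * ∑_H x^2 ≤ al r * n`
(Cauchy twice), the part at `w` is `2 x_w ∑_A x ≤ 2 r` (`PV.le_one`). -/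
def Stmt_LAMG : Prop := ∀ (r : ℕ) (B : ℝ), 3 ≤ r → 1 ≤ B → ∃ (C : ℝ) (n0 : ℕ), 1 ≤ C ∧
  ∀ n ≥ n0, ∀ (V : Type) [Fintype V] (G : SimpleGraph V) (x : V → ℝ) (lam : ℝ) (c : V → Fin r)
    (H : Finset V) (w : V) (A : Finset V) (v1 v2 : V), WD G n H c w A v1 v2 → A.card = r →
    (∀ i, |sz H c i - n / r| ≤ B * √(n : ℝ)) → PV G x lam → |lam - al r * n| ≤ C

/-- **SECG** : secular function of a gadget. `S = ∑_H x > 0` (otherwise `x = 0` on `H`, the equation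
at `w` gives `x_w = 0`, the others are isolated). Divide by `S`: `X = x_w/S`, `X1 = x_(v1)/S`,
`X2 = x_(v2)/S`, `t_i = cs_i/S`, `b_i = 1/(lam + n_i)`, `b1 = b_(c v1)`, `b2 = b_(c v2)`.
`CSE` with `JD`: `lam t_i = n_i (1 - t_i) + P_i`, `P_i = X` (one vertex of `A` in each class, see
`TOPG.card_one`), except `P_(c v1) = X - X2`, `P_(c v2) = X - X1`. So `t_i = b_i (n_i + P_i)`,
`1 - t_i = b_i (lam - P_i)`, and `∑ t_i = 1` gives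
(1) `Ph = b1 X2 + b2 X1 - X ∑ b_i`.
Also `lam ∑ b_i = r - 1 - Ph`. The equations at `v1`, `v2`:
(2) `X1 = b1 + (X - X2) (1 - b1)/lam`, `X2 = b2 + (X - X1) (1 - b2)/lam`,
at `a ∈ A` in another class `X_a = b_i + X (1 - b_i)/lam`, and at `w`
(3) `lam X = ∑ b_i + (X/lam) ∑ (1 - b_i) - X2 (1 - b1)/lam - X1 (1 - b2)/lam`.
Bounds: `b_i ≤ 1/lam`, `lam X = ∑_A x/S ≤ 1`, `X1, X2 ≤ 2/lam`. So `|X1 - b1| ≤ 3/lam^2`,
`|lam X - ∑ b_i| ≤ (r + 4)/lam^2`, `|Ph| ≤ (r + 4)/lam^2` by (1), hence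
`|X - (r-1)/lam^2| ≤ 2 (r+4)/lam^3`, `|X ∑ b_i - (r-1)^2/lam^3| ≤ C/lam^4`,
`|X2 - (b2 - b1/lam)| ≤ C/lam^3`, `|X1 - (b1 - b2/lam)| ≤ C/lam^3`; insert in (1):
`|Ph - gg| ≤ C/lam^4 ≤ 16 C/n^4`. -/
def Stmt_SECG : Prop := ∀ (r : ℕ), 3 ≤ r → ∃ C : ℝ, 1 ≤ C ∧ ∀ (n : ℕ) (V : Type) [Fintype V]
    (G : SimpleGraph V) (x : V → ℝ) (lam : ℝ) (c : V → Fin r) (H : Finset V) (w : V)
    (A : Finset V) (v1 v2 : V), 2 ≤ n → WD G n H c w A v1 v2 → A.card = r → PV G x lam →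
    (n : ℝ) / 2 ≤ lam →
    |Ph (sz H c) lam - gg r lam (sz H c (c v1)) (sz H c (c v2))| ≤ C / (n : ℝ) ^ 4

/-- **MKD2** : as `MKD` (file `MKD.lean`), with prescribed classes of the missing edge. -/
def Stmt_MKD2 : Prop := ∀ (r : ℕ), 3 ≤ r → ∀ (V : Type) [Fintype V] (H : Finset V) (w : V)
  (y : Fin r → ℕ) (i k : Fin r), i ≠ k → w ∉ H → ∑ i, y i = H.card → (∀ i, 1 ≤ y i) →
  ∃ (c : V → Fin r) (A : Finset V) (v1 v2 : V),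
    WD (gD H c w A v1 v2) H.card H c w A v1 v2 ∧ A.card = r ∧ (∀ i, (cl H c i).card = y i) ∧
      c v1 = i ∧ c v2 = k

/-- **CMPG** : comparison of an extremal gadget with another gadget. (First part: LAMG with
`B = 2`.) `∑ (y - n/r)^2 = ∑ (sz - n/r)^2 ≤ 4 r n`, so `|y_l - n/r| ≤ B √n`, `B = 2 r`; in
particular `2 ≤ y_l ≤ n`. MKD2: `G* = gD ...` over `y` with the missing edge between the classes
`i`, `k`; `pGD`: in the class, same number of edges (`n^2 - ∑ sz^2 - 2 + 2 r`), so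
`lam* = specRad G* ≤ lam`. LAMG for both: `lam, lam* ≥ n/2` and `≤ n`. SECG for both:
`Ph y lam* - gg r lam* (y i) (y k) ≤ C/n^4`, `Ph sz lam - gg r lam .. ≥ - C/n^4`. The function
`F(t) = Ph y t - gg r t (y i) (y k)` is decreasing between `lam*` and `lam`:
`Ph y lam* - Ph y lam = (lam - lam*) ∑ y_l/((lam + y_l)(lam* + y_l)) ≥ (lam - lam*)/(4 n)` and
`|gg r lam* .. - gg r lam ..| ≤ C' (lam - lam*)/n^3`. So `F(lam) ≤ C/n^4`; finally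
`Ph y lam - Ph z lam = lam ∑ (1/(lam + z_l) - 1/(lam + y_l))`. -/
def Stmt_CMPG : Prop := ∀ (r : ℕ), 3 ≤ r → ∃ (C : ℝ) (n0 : ℕ), 1 ≤ C ∧ ∀ n ≥ n0,
  ∀ (V : Type) [Fintype V] (G : SimpleGraph V) (x : V → ℝ) (lam : ℝ) (c : V → Fin r)
    (H : Finset V) (w : V) (A : Finset V) (v1 v2 : V), WD G n H c w A v1 v2 → A.card = r →
    MX r G → (∀ i, |sz H c i - n / r| ≤ 2 * √(n : ℝ)) → PV G x lam →
    |lam - al r * n| ≤ C ∧ ∀ (y : Fin r → ℕ) (i k : Fin r), i ≠ k → ∑ l, y l = n →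
      ∑ l, y l ^ 2 = ∑ l, (cl H c l).card ^ 2 →
      lam * ∑ l, (1 / (lam + ((cl H c l).card : ℝ)) - 1 / (lam + (y l : ℝ)))
        ≤ gg r lam (y i) (y k)
          - gg r lam ((cl H c (c v1)).card : ℝ) ((cl H c (c v2)).card : ℝ) + C / (n : ℝ) ^ 4

/-! ## inequalities -/

/-- **TNZ** (as `TNR`, file `TNR.lean`, for integers): a largest possible entry is almost the
largest possible real number. `D = u i1 - μ ≥ 0` since `u i1` is at least every entry of `u`. Test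
vector `z`: `z i1 = u i1 + 1`, the other `l - 1` entries are the integers nearest to their mean `ν`
with the right sum (all within `1` of `ν`). `u i1 + 1 > u i1`, so the hypothesis fails for `z`:
`∑ u^2 < ∑ z^2`, i.e. `∑ (u - μ)^2 < (D + 1)^2 + (l - 1) (ν - μ)^2 + (l - 1)`,
`ν - μ = -(D + 1)/(l - 1)`. -/
def Stmt_TNZ : Prop := ∀ (l : ℕ), 3 ≤ l → ∀ (u : Fin l → ℤ) (i1 : Fin l) (μ : ℝ),
  (∀ z : Fin l → ℤ, ∑ i, z i = ∑ i, u i → ∑ i, z i ^ 2 ≤ ∑ i, u i ^ 2 → ∀ i, z i ≤ u i1) →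
  μ = (∑ i, (u i : ℝ)) / l →
  0 ≤ (u i1 : ℝ) - μ ∧ ∑ i, ((u i : ℝ) - μ) ^ 2 ≤ ((u i1 : ℝ) - μ + 1) ^ 2 * (l / (l - 1)) + l

/-- **MOMT** : third and fourth moments (uses TNZ and `pCU1`, `Stmt_CU1` with `r := l`). Let
`d = u - μ`, `d' = v - μ`, `D = d i1`, `D' = d' k1 = D - q`, `q = u i1 - v k1 ≥ 0` (`v` is
admissible in the hypothesis), `0 ≤ D' ≤ D ≤ σ` (`CU1` first item), `κ3(E) = E^3 l (l+1)/(l-1)^2 -
3 E σ^2/(l-1)`, `τ^2 = σ^2 - D^2 l/(l-1)`, `τ'^2 = σ^2 - D'^2 l/(l-1)`. TNZ: `τ^2 ≤ C (σ + 1)`,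
`τ'^2 = τ^2 + (D^2 - D'^2) l/(l-1) ≤ C (σ + 1)(q + 1)`.
Fourth moments: `CU1` (second and third item): `∑ d^4` is `D^4 (1 + 1/(l-1)^3)` up to
`6 D^2 τ^2 + 4 D τ^3 + τ^4 ≤ C (σ+1)^3`, `∑ d'^4` is `D'^4 (1 + 1/(l-1)^3)` up to
`C σ^2 τ'^2 ≤ C (σ+1)^3 (q+1)` (use `τ' ≤ σ`), and `D^4 - D'^4 ≤ 4 σ^3 q`.
Third moments, `q ≥ 1`, `σ ≥ K`: the difference `∑ u^3 - ∑ v^3 = ∑ d^3 - ∑ d'^3` (same sums and
sums of squares). `∑ d^3 ≥ κ3(D) - τ^3 ≥ κ3(D) - C (σ+1)^(3/2)`. Let `D0 = σ √((l-1)/l)`, so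
`D ≤ D0` and `D ≥ D0 - C`. Small constant `e1 > 0` depending on `l`.
Near case `D' > (1 - e1) D0`: `κ3(D) - κ3(D') ≥ κ3'(D') q ≥ 2 σ^2 q` (convexity;
`κ3'(D') = 3 D'^2 l (l+1)/(l-1)^2 - 3 σ^2/(l-1)`, `D'^2 ≥ (1-e1)^2 σ^2 (l-1)/l`), and
`q ≤ e1 σ`, `τ'^3 ≤ (C σ q)^(3/2) ≤ C √e1 σ^2 q ≤ σ^2 q / 2`. So `∑ d^3 - ∑ d'^3 ≥ σ^2 q`.
Far case: `CU1` fourth item with `D := (1 - e1) D0` as upper bound of all `d'`:
`∑ d'^3 ≤ σ^3 ((1-e1) a - 1/(l (1-e1) a))`, `a = √((l-1)/l)`, and `κ3(D0) = σ^3 (a - 1/(l a))`,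
`∑ d^3 ≥ κ3(D0) - C (σ+1)^2`; the difference is at least `c e1 σ^3 - C (σ+1)^2 ≥ c' σ^2 q`, as
`q ≤ 2 σ`. -/
def Stmt_MOMT : Prop := ∀ (l : ℕ), 3 ≤ l → ∃ K c : ℝ, 0 < c ∧ 1 ≤ K ∧
  ∀ (u v : Fin l → ℤ) (i1 k1 : Fin l) (μ σ : ℝ),
  (∀ z : Fin l → ℤ, ∑ i, z i = ∑ i, u i → ∑ i, z i ^ 2 ≤ ∑ i, u i ^ 2 → ∀ i, z i ≤ u i1) →
  ∑ i, v i = ∑ i, u i → ∑ i, v i ^ 2 = ∑ i, u i ^ 2 → (∀ i, v i ≤ v k1) →
  μ = (∑ i, (u i : ℝ)) / l → 0 ≤ σ → σ ^ 2 = ∑ i, ((u i : ℝ) - μ) ^ 2 →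
  (v k1 < u i1 → K ≤ σ →
    ∑ i, (v i : ℝ) ^ 3 + c * σ ^ 2 * ((u i1 : ℝ) - v k1) ≤ ∑ i, (u i : ℝ) ^ 3) ∧
  |∑ i, ((u i : ℝ) - μ) ^ 4 - ∑ i, ((v i : ℝ) - μ) ^ 4| ≤ K * (σ + 1) ^ 3 * ((u i1 : ℝ) - v k1 + 1)

/-- **EXPG** : expansion around the mean. `s = lam + n/r`, `|s - n| ≤ C`, `y' = y - n/r` etc.,
`|y'_l|, |z'_l| ≤ σ ≤ s/2` for large `n`. Exact: `1/(s+d) = 1/s - d/s^2 + d^2/s^3 - d^3/s^4 + d^4/s^5
- d^5/(s^5 (s+d))`. With `Δ3 = ∑ y'^3 - ∑ z'^3 = ∑ y^3 - ∑ z^3`, `Δ4 = ∑ y'^4 - ∑ z'^4`: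
`s^4 ∑ (1/(s+z') - 1/(s+y')) = Δ3 - Δ4/s + E`, `|E| ≤ 4 σ^5/s^2` (`∑ |y'|^5 ≤ σ^5`). Multiply the
hypothesis by `s^4/lam`. With `a = y i - n/r`, `b = y k - n/r`, `a' = z i' - n/r`,
`b' = z k' - n/r`, `T = a + b - a' - b'`, `Π = (s+a)(s+b)(s+a')(s+b')`:
`2/((s+a)(s+b)) - 2/((s+a')(s+b')) = 2 (- s T - (a b - a' b'))/Π`, `s^4/Π = 1 + O((σ+1)/n)`,
`s/lam = 1/al r + O(1/n)`, so `(s^4/lam)` times this is `- (2/al r) T + O((σ+1)^2/n)`; the other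
part of `gg` gives `O(σ/n)`, and `C s^4/(lam n^4) = O(1/n)`. `2/al r = 2 r/(r-1)`. -/
def Stmt_EXPG : Prop := ∀ (r : ℕ) (C : ℝ), 3 ≤ r → 1 ≤ C → ∃ (K : ℝ) (n0 : ℕ), 1 ≤ K ∧
  ∀ n ≥ n0, ∀ (y z : Fin r → ℝ) (i k i' k' : Fin r) (lam σ : ℝ), |lam - al r * n| ≤ C →
  ∑ l, y l = n → ∑ l, z l = n → 0 ≤ σ → ∑ l, (y l - n / r) ^ 2 = σ ^ 2 →
  ∑ l, (z l - n / r) ^ 2 = σ ^ 2 → σ ^ 2 ≤ C * n →
  lam * ∑ l, (1 / (lam + z l) - 1 / (lam + y l))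
    ≤ gg r lam (y i) (y k) - gg r lam (z i') (z k') + C / (n : ℝ) ^ 4 →
  (∑ l, y l ^ 3 - ∑ l, z l ^ 3) + 2 * (r : ℝ) / ((r : ℝ) - 1) * ((y i + y k) - (z i' + z k'))
    ≤ K / n * |∑ l, (y l - n / r) ^ 4 - ∑ l, (z l - n / r) ^ 4|
      + K * ((σ + 1) ^ 2 / n + σ ^ 5 / (n : ℝ) ^ 2)

/-- **EXPR** : expansion around the mean of the other entries, for two vectors with the same entry
at `i0` (`r = l + 1`). `M = z i0 = y i0`, `s = lam + ν`, `ν - n/r = -(M - n/r)/l = O(√n)`, so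
`s = n + O(√n)`. The terms at `i0` cancel. `s^4 ∑_j (1/(s+z') - 1/(s+y')) = Δ3 - Δ4/s + E`,
`|E| ≤ 4 τ^5/s^2`, where now `y'_j = y (i0.succAbove j) - ν`, `Δ3 = ∑ y^3 - ∑ z^3`. Multiply the
hypothesis by `s^4/lam`. `k, k' ≠ i0`, `Δb = y k - z k'`, `|Δb| ≤ 2 τ`:
`2/((lam+M)(lam+y k)) - 2/((lam+M)(lam+z k')) = - 2 Δb/((lam+M)(lam+y k)(lam+z k'))`, times `s^4/lam`
it is `- 2 (s/lam) Δb (1 + O(1/√n)) = - (2/al) Δb + O(τ/√n)`. The other part of `gg` gives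
`O(τ/n)`, and `C s^4/(lam n^4) = O(1/n)`. -/
def Stmt_EXPR : Prop := ∀ (l : ℕ) (C : ℝ), 2 ≤ l → 1 ≤ C → ∃ (K : ℝ) (n0 : ℕ), 1 ≤ K ∧
  ∀ n ≥ n0, ∀ (y z : Fin (l + 1) → ℝ) (i0 k k' : Fin (l + 1)) (lam ν τ : ℝ),
  |lam - al (l + 1) * n| ≤ C → y i0 = z i0 → k ≠ i0 → k' ≠ i0 →
  |z i0 - n / ((l : ℝ) + 1)| ≤ C * √(n : ℝ) → (l : ℝ) * ν = n - z i0 →
  ∑ i, y i = n → ∑ i, z i = n → 0 ≤ τ → τ ≤ C * √(n : ℝ) →
  ∑ j : Fin l, (y (i0.succAbove j) - ν) ^ 2 = τ ^ 2 →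
  ∑ j : Fin l, (z (i0.succAbove j) - ν) ^ 2 = τ ^ 2 →
  lam * ∑ i, (1 / (lam + z i) - 1 / (lam + y i))
    ≤ gg (l + 1) lam (z i0) (y k) - gg (l + 1) lam (z i0) (z k') + C / (n : ℝ) ^ 4 →
  (∑ i, y i ^ 3 - ∑ i, z i ^ 3) + 2 * ((l : ℝ) + 1) / l * (y k - z k')
    ≤ K / n * |∑ j : Fin l, (y (i0.succAbove j) - ν) ^ 4
        - ∑ j : Fin l, (z (i0.succAbove j) - ν) ^ 4|
      + K * (τ / √(n : ℝ) + τ ^ 5 / (n : ℝ) ^ 2 + 1 / n)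

/-- **PH1** : the largest entry (uses MOMT, EXPG, `pREP`, which needs `6 ≤ r`). Let
`σ^2 = ∑ (z - n/r)^2 ≤ 4 r n`. `pREP r` with `M = n`, `S = ∑ z^2` (existence: `z`): `u : Fin r → ℤ`,
`i*`, same sum and sum of squares, `u i*` is the largest possible entry; all entries of `u` are
within `σ ≤ 2 √(r n) < n/r` of `n/r`, so they are natural numbers. `M1 = u i*`. For every admissible
`y` (same sum, same sum of squares) all entries are `≤ M1`.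
(a) Let `max z = M1 - q` and suppose `q ≥ 1` and `σ ≥ K1`. `cmp` with `y = u`, `i = i*`, any
`k ≠ i*`, and EXPG: the left side is `≥ c σ^2 q - 12 σ` (MOMT with `v = z`; `2 r/(r-1) ≤ 3`, all
entries are within `σ` of `n/r`), the right side is `≤ (K/n) K (σ+1)^3 (q+1) + K ((σ+1)^2/n +
σ^5/n^2) ≤ (c/4) σ^2 q + K` for large `n` (`σ ≤ 2 √(r n)`): contradiction if `K1` is large. So
`q = 0`, and one of `z i1`, `z i2` is `M1` by `GH.top`. (b) If `q = 0` the same inequality gives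
`∑ u^3 - ∑ z^3 ≤ 12 σ + (c/4) σ^2 + K`. If `y` is admissible with `max y = M1 - q'`, `q' ≥ 1`:
`∑ y^3 + c σ^2 q' ≤ ∑ u^3`, so `PhF y i k - PhF z i1 i2 ≤ - c σ^2 + 12 σ + (c/4) σ^2 + K + 12 σ
≤ 0` for `K1` large. (c) `σ ≤ K1`: `cmp` and EXPG for any `y`, `i`, `k`: `PhF y i k - PhF z i1 i2
≤ C'/n < 1/(r-1)` for large `n`, and `(r-1) (PhF y i k - PhF z i1 i2)` is an integer, so it is
`≤ 0`. -/
def Stmt_PH1 : Prop := ∀ (r : ℕ) (C : ℝ), 6 ≤ r → 1 ≤ C → ∃ n0 : ℕ, ∀ n ≥ n0,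
  ∀ (z : Fin r → ℕ) (i1 i2 : Fin r) (lam : ℝ), GH r C n lam z i1 i2 →
  (∀ (y : Fin r → ℕ) (i k : Fin r), i ≠ k → ∑ l, y l = n → ∑ l, y l ^ 2 = ∑ l, z l ^ 2 →
    PhF y i k ≤ PhF z i1 i2) ∨
  ∃ M1 : ℕ, (M1 = z i1 ∨ M1 = z i2) ∧
    (∀ u : Fin r → ℤ, ∑ l, u l = n → ∑ l, u l ^ 2 ≤ ∑ l, (z l : ℤ) ^ 2 → ∀ i, u i ≤ M1) ∧
    ∀ (y : Fin r → ℕ) (i k : Fin r), i ≠ k → ∑ l, y l = n → ∑ l, y l ^ 2 = ∑ l, z l ^ 2 →
      (∀ l, y l < M1) → PhF y i k ≤ PhF z i1 i2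

/-- **PH2** : the second largest entry (uses MOMT, EXPR, TNZ, `pREP`), `r = l + 1`, `6 ≤ l`.
`D = z i1 - n/r`; TNZ (for `z` as an integer vector): `∑ (z - n/r)^2 ≤ (D+1)^2 r/(r-1) + r`. With
`ν = (n - z i1)/l` and `τ^2 = ∑_j (z (i1.succAbove j) - ν)^2 = ∑ (z - n/r)^2 - D^2 r/(r-1)`
`≤ C (√n + 1)`. `pREP l` for the other `l` entries: `u° : Fin l → ℤ`, `j*`, same sum and sum of
squares as the rest of `z`, `u° j*` largest possible; the entries of `u°` are within `τ` of `ν`,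
hence natural numbers; `y*` = the vector with `y* i1 = z i1` and rest `u°`. `max` of the rest of `z`
is `z i2` (`GH.top`). Let `q = u° j* - z i2 ≥ 0`.
Case `τ ≤ K2` (constant): `cmp` with `y, i1, k` and EXPR: `PhF y i1 k - PhF z i1 i2 ≤ C'/√n <
1/(r-1)`, integrality of `(r-1) PhF` gives `≤ 0`.
Case `τ > K2`: (a) if `q ≥ 1`: `cmp` and EXPR with `y*`, `k* = i1.succAbove j*`: left side
`≥ c τ^2 q` (MOMT with `u = u°`, `v` = rest of `z`), right side `≤ (K/n) K (τ+1)^3 (q+1)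
+ K (τ/√n + τ^5/n^2 + 1/n) ≤ (c/2) τ^2 q + 1`: contradiction. So `q = 0`, and the same inequality
gives `∑ (y*)^3 - ∑ z^3 ≤ 1` for large `n`. (b) `y` with all entries of the rest `< z i2`:
`max = z i2 - q'`, MOMT: `∑ y^3 + c τ^2 q' ≤ ∑ (y*)^3`, so `PhF y i1 k - PhF z i1 i2 ≤ - c τ^2 + 1
≤ 0` (as `y k ≤ z i2`). (c) otherwise some entry `k°` of the rest of `y` is `z i2` (it cannot be
larger), `PhF y i1 k ≤ PhF y i1 k°`; fourth moments: MOMT (second part, `q = 0`) for `u°` and the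
rests of `y` and of `z`: difference `≤ 2 K (τ+1)^3`; `cmp` and EXPR for `y, i1, k°`:
`PhF y i1 k° - PhF z i1 i2 ≤ C' n^(-1/4) < 1/(r-1)`, so `≤ 0` by integrality. -/
def Stmt_PH2 : Prop := ∀ (l : ℕ) (C : ℝ), 6 ≤ l → 1 ≤ C → ∃ n0 : ℕ, ∀ n ≥ n0,
  ∀ (z : Fin (l + 1) → ℕ) (i1 i2 : Fin (l + 1)) (lam : ℝ), GH (l + 1) C n lam z i1 i2 →
  (∀ u : Fin (l + 1) → ℤ, ∑ i, u i = n → ∑ i, u i ^ 2 ≤ ∑ i, (z i : ℤ) ^ 2 →
    ∀ i, u i ≤ z i1) →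
  ∀ (y : Fin (l + 1) → ℕ) (k : Fin (l + 1)), k ≠ i1 → y i1 = z i1 → ∑ i, y i = n →
    ∑ i, y i ^ 2 = ∑ i, z i ^ 2 → PhF y i1 k ≤ PhF z i1 i2

/-- **PHI** : assembly of PH1 and PH2. `GH` is symmetric in `i1, i2` (`gg` and `PhF` are symmetric),
so in the second case of PH1 we may assume `M1 = z i1`. Given `y, i, k`: if all entries of `y` are
`< M1` use PH1. Otherwise some entry `y i' = M1` (all entries are `≤ M1`, apply the condition to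
`y`). If `i' ∈ {i, k}` say `i' = i`; if not, `PhF y i k ≤ PhF y i' k` (`i' ≠ k`). Compose `y` with
the transposition of `i'` and `i1`: same sums, `PhF (y ∘ swap) i1 (swap k) = PhF y i' k`, and PH2
applies (`r = l + 1`). -/
def Stmt_PHI : Prop := ∀ (r : ℕ) (C : ℝ), 7 ≤ r → 1 ≤ C → ∃ n0 : ℕ, ∀ n ≥ n0,
  ∀ (z : Fin r → ℕ) (i1 i2 : Fin r) (lam : ℝ), GH r C n lam z i1 i2 →
  ∀ (y : Fin r → ℕ) (i k : Fin r), i ≠ k → ∑ l, y l = n → ∑ l, y l ^ 2 = ∑ l, z l ^ 2 →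
    PhF y i k ≤ PhF z i1 i2

/-! ## the theorem on gadgets and theorem B -/

/-- **GPHI** : CMPG and PHI (`z l = (cl H c l).card`, `i1 = c v1`, `i2 = c v2`, `GH.top` from
`Top`). -/
def Stmt_GPHI : Prop := ∀ (r : ℕ), 7 ≤ r → ∃ n0 : ℕ, ∀ n ≥ n0, ∀ (V : Type) [Fintype V]
    (G : SimpleGraph V) (c : V → Fin r) (H : Finset V) (w : V) (A : Finset V) (v1 v2 : V),
    WD G n H c w A v1 v2 → A.card = r → Top H c {c v1, c v2} → MX r G →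
    (∀ i, |sz H c i - n / r| ≤ 2 * √(n : ℝ)) →
    ∀ (y : Fin r → ℕ) (i k : Fin r), i ≠ k → ∑ l, y l = n →
      ∑ l, y l ^ 2 = ∑ l, (cl H c l).card ^ 2 →
      PhF y i k ≤ PhF (fun l => (cl H c l).card) (c v1) (c v2)

/-- gadget with the best class sizes -/
def GadP {V : Type} {r : ℕ} (n : ℕ) (G : SimpleGraph V) : Prop :=
  ∃ (H : Finset V) (c : V → Fin r) (w : V) (A : Finset V) (v1 v2 : V),
    WD G n H c w A v1 v2 ∧ A.card = r ∧ Top H c {c v1, c v2} ∧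
    ∀ (y : Fin r → ℕ) (i k : Fin r), i ≠ k → ∑ l, y l = n →
      ∑ l, y l ^ 2 = ∑ l, (cl H c l).card ^ 2 →
      PhF y i k ≤ PhF (fun l => (cl H c l).card) (c v1) (c v2)

/-- **W3P** : `j = 2 r - 2` for all `r ≥ 3`: the class sizes maximise the sum of cubes. The extremal
graph is `TypeS r n` (WE, `A.card = r - 1`, sum of squares of the class sizes = minimum + 2, see
`smallS`, `W3.lean`); so all deviations from `n/r` are bounded by `r + 2`. Let `y` be a vector with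
the same sum and sum of squares. Competitor `G*`: WE over `y` with `|A*| = |B*| = r - 1` (see
`W3.lean`: SETS), same number of edges (`pGE`), in the class, `lam* ≤ lam`. Secular function of a WE
graph with `|A| = |B| = r - 1` and bounded deviations: with `S = ∑_H x`, `X = x_w/S`, `U = x_u/S`,
`b_i = 1/(lam + n_i)`: `lam X = ∑_A x/S + U`, `lam U = ∑_B x/S + X`,
`Ph = - ∑_(i ≠ i0) (X + U) b_i`; every vertex of `A`, `B` has `x/S = 1/n + O(1/n^2)`, so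
`X, U = (r-1)/(lam n) + O(1/n^3)` and `Ph = - 2 (r-1)^2/(lam n^2) + O(1/n^4)`, the same for both
graphs up to `O(1/n^4)`. `Ph y` is decreasing, so (as in CMPG, with `1/(lam n^2)` also decreasing in
`lam`; or: `- 2 (r-1)^2/(lam n^2)` is increasing in `lam`, with derivative `O(1/n^4)`, while the
derivative of `Ph` is `≤ - 1/(4 n)`)
`lam ∑ (1/(lam + z) - 1/(lam + y)) ≤ C/n^4`; expansion as in EXPG (without the `gg` terms) gives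
`∑ y^3 - ∑ z^3 ≤ C/n < 1`, and both are integers. -/
def Stmt_W3P : Prop := ∀ (r : ℕ), 3 ≤ r → ∃ (δ : ℝ) (n0 : ℕ), 0 < δ ∧ ∀ n ≥ n0, ∀ j : ℕ,
  j + 2 = 2 * r → ∀ (V : Type) [Fintype V] (G : SimpleGraph V) (H : Finset V) (c : V → Fin r)
    (w u : V) (A B : Finset V) (i0 : Fin r), C0 r δ n G c H → MX r G →
    WE G n H c w u A B i0 → A.card + 1 = r →
    ∑ i, (cl H c i).card ^ 2 + 2 * tn r n = n ^ 2 + 2 →
    ∀ y : Fin r → ℕ, ∑ l, y l = n → ∑ l, y l ^ 2 = ∑ l, (cl H c l).card ^ 2 →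
      ∑ l, y l ^ 3 ≤ ∑ l, (cl H c l).card ^ 3

/-- type E on an almost balanced graph, `j = 2 r - 2`, with the best class sizes -/
def TypeSP {V : Type} (r N : ℕ) (G : SimpleGraph V) : Prop :=
  ∃ (H : Finset V) (c : V → Fin r) (w u : V) (A B : Finset V) (i0 : Fin r),
    WE G N H c w u A B i0 ∧ OneOut A B ∧ A.card + 1 = r ∧ Top H c {i0} ∧
      ∑ i, (cl H c i).card ^ 2 + 2 * tn r N = N ^ 2 + 2 ∧
      ∀ y : Fin r → ℕ, ∑ l, y l = N → ∑ l, y l ^ 2 = ∑ l, (cl H c l).card ^ 2 →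
        ∑ l, y l ^ 3 ≤ ∑ l, (cl H c l).card ^ 3

/-- **MAINS** : `j = 2 r - 2`, all `r ≥ 3`. `pMAIN5` (third clause of `Cov`: `r ≤ j + 1` and
`j/(al r N) ≤ 1 - 2/r - ε` for `ε` small, `N` large) gives `Form5`, and `j + 2 = 2 r` leaves only
`TypeS r N G` (the other forms exclude this `j`; the last one needs `1 - 2/r - ε ≤ j/(al r N)`).
`Ext.mx`. The graph of `TypeS` satisfies `C0 r δ N G c H` for large `N`: `mis = 0`, `eo` is at most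
`4 r`, all deviations are at most `r + 2` (from the sum of squares, see `mainC` in `Asm5.lean`, end
of the case `j = 2 r - 2`). So `E3G` (`Top H c {i0}`) and `W3P` apply. -/
def Stmt_MAINS : Prop := ∀ (r : ℕ), 3 ≤ r → ∃ m0 : ℕ, ∀ m ≥ m0, ∀ N j : ℕ, m = tn r N + j →
  m < tn r (N + 1) → j + 2 = 2 * r → ∀ (V : Type) [Fintype V] (G : SimpleGraph V),
    Ext r m G → TypeSP r N G

/-- the forms of the extremal graphs for `r ≥ 7` -/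
def Form6 {V : Type} (r : ℕ) (ε : ℝ) (N j : ℕ) (G : SimpleGraph V) : Prop :=
  (j + 1 < r ∧ GadP (r := r) N G) ∨
  (r ≤ j + 1 ∧ j + 2 ≠ 2 * r ∧ TypeD r N j G ∧
    (2 * r ≤ j + 1 → 1 - ε ≤ ((r : ℝ) + 1) * (j / (al r * N))) ∧
    (j : ℝ) / (al r * N) ≤ 1 - 2 / r + ε) ∨
  (j + 2 = 2 * r ∧ TypeSP r N G) ∨
  (2 * r ≤ j + 1 ∧ TypeE r N j G ∧
    ((r : ℝ) + 1) * (j / (al r * N)) ≤ 1 + (j / (al r * N)) ^ 4 / (r * ((r : ℝ) - 1)) + ε) ∨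
  (1 - 2 / r - ε ≤ (j : ℝ) / (al r * N) ∧ GadP (r := r) (N + 1) G)

/-- **MAINB** : theorem B. `pMAIN5` (`Cov` by `7 ≤ r`) and MAINS, GPHI. For a gadget
`Gad n G H c`, `n = N` or `N + 1`, `pGD`: `pE G = 2 m = n^2 - ∑ sz^2 - 2 + 2 r`, so
`∑ (sz - n/r)^2 = al r n^2 - 2 m + 2 (r - 1) ≤ 4 n` for large `n` (`2 m ≥ 2 tn r N ≥
al r N^2 - r`, `n ≤ N + 1`), so all `|sz - n/r| ≤ 2 √n`, and GPHI applies (`Ext.mx`). -/
def Stmt_MAINB : Prop := ∀ (r : ℕ), 7 ≤ r → ∀ ε : ℝ, 0 < ε → ∃ m0 : ℕ, ∀ m ≥ m0, ∀ N j : ℕ,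
  m = tn r N + j → m < tn r (N + 1) → ∀ (V : Type) [Fintype V] (G : SimpleGraph V),
    Ext r m G → Form6 r ε N j G

end Pool.Agent.Work.MP_5532fa_up
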