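import Pool.Agent.Work.MP_5532fa_x.Interface2

/-!
# MP_5532fa_co, sixth round: theorem C (a rule for all `r ≥ 3`) and the case `j + 1 < r`

Old results: `pGD`, `pGE`, `pEMB`, `pSETS`, `pSECD`, `pSECE`, `pSECF`, `pLAM`, `pTAY`, `pEST1`,
`pTN`, `pMAIN5`, `pREPL`, `tri`, `fdcase`, namespaces `SEC0`, `SECD`, `SECF`, `BIG`, `W1`, `W2`
(readable copies in `Work/MP_5532fa_up/`).
-/

open Finset

namespace Pool.Agent.Work.MP_5532fa_up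

open MP5532fa (specRad qf pE)

/-! ## definitions -/

/-- the number `k` with `m = e(K(y)) + r - 1 + k` (always an integer if `∑ y = n`) -/
noncomputable def kk {r : ℕ} (m n : ℕ) (y : Fin r → ℕ) : ℝ :=
  m - ((r : ℝ) - 1) - ((n : ℝ) ^ 2 - ∑ i, (y i : ℝ) ^ 2) / 2

/-- third and fourth moments of the class sizes -/
noncomputable def M34 {r : ℕ} (n : ℕ) (y : Fin r → ℕ) : ℝ :=
  mo 3 n (re y) / n - mo 4 n (re y) / (n : ℝ) ^ 2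

/-- the cost of a form (D, E, S) -/
def Cst (r : ℕ) (k c : ℝ) : Prop :=
  (0 ≤ k ∧ c = 2 * k) ∨ ((r : ℝ) ≤ k ∧ c = 2 * k - 2 - 2 / ((r : ℝ) - 1)) ∨
    (k ≤ -1 ∧ c = -(2 * k / ((r : ℝ) - 1)))

/-- the form of a graph together with its cost -/
def FormC {V : Type} [Fintype V] {r : ℕ} (m n : ℕ) (y : Fin r → ℕ) (G : SimpleGraph V) (c : ℝ) :
    Prop :=
  (FamD n y G ∧ 0 ≤ kk m n y ∧ c = 2 * kk m n y) ∨
  (FamE n y G ∧ (r : ℝ) ≤ kk m n y ∧ c = 2 * kk m n y - 2 - 2 / ((r : ℝ) - 1)) ∨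
  (FamS n y G ∧ kk m n y ≤ -1 ∧ c = -(2 * kk m n y / ((r : ℝ) - 1)))

/-- up to `ε`, no class sizes are better than `y` with cost `c` -/
def Opt {r : ℕ} (m n : ℕ) (ε δ : ℝ) (y : Fin r → ℕ) (c : ℝ) : Prop :=
  ∀ (z : Fin r → ℕ) (c' : ℝ), ∑ i, z i = n → (∀ i, |(z i : ℝ) - n / r| ≤ 2 * √(n : ℝ)) →
    |kk m n z| ≤ δ * n → Cst r (kk m n z) c' →
    c - M34 n y ≤ c' - M34 n z + ε * (1 + |kk m n y| + |kk m n z|)

/-! ## spectral part -/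

/-- **C0W** : the graphs of the three forms are close to complete multipartite graphs. Only
counting: `WD`: the pairs in `H` from different classes which are not adjacent are `(v1, v2)`,
`(v2, v1)` (`mis = 2`), the ordered adjacent pairs with first vertex outside `H` are `(w, a)`,
`a ∈ A` (`eo = |A|`). `WE`: `mis = 0`, `eo = |A| + |B| + 2 = |A| + r + 1` (`|B| = r - 1`).
`WS`: `mis = 2 |L|` (see GS), `eo = |T| = r`. -/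
def Stmt_C0W : Prop := ∀ (r : ℕ), 3 ≤ r → ∀ (δ : ℝ) (n : ℕ) (V : Type) [Fintype V]
  (G : SimpleGraph V) (H : Finset V) (c : V → Fin r) (w : V),
  (∀ i, |sz H c i - n / r| ≤ δ * n) →
  (∀ (A : Finset V) (v1 v2 : V), WD G n H c w A v1 v2 →
    mis G H c = 2 ∧ ((A.card : ℝ) + 2 ≤ δ * n → C0 r δ n G c H)) ∧
  (∀ (u : V) (A B : Finset V) (i0 : Fin r), WE G n H c w u A B i0 →
    mis G H c = 0 ∧ ((A.card : ℝ) + r + 1 ≤ δ * n → C0 r δ n G c H)) ∧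
  (∀ (T L : Finset V) (p q : V), WS G n H c w T L p q →
    2 * (L.card : ℝ) + r ≤ δ * n → C0 r δ n G c H)

/-- **SECU** : upper bound for the secular function. `pEST1` with `th` (`7 th ≤ e`, `th ≤ 1/20`) and
the second part of `SEC0.key`: `n^2 Ph ≤ (1 + 5 th) (∑_(v ∈ H) ms v)/xb`, and
`∑_(v ∈ H) ms v = ∑_(v,u ∈ H) chi(..) x_u ≤ mis (1 + th) xb` (`EDG.mis_eq`, compare
`SECF.ms_ge`). -/
def Stmt_SECU : Prop := ∀ (r : ℕ) (e : ℝ), 3 ≤ r → 0 < e → ∃ (δ : ℝ) (n0 : ℕ), 0 < δ ∧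
  ∀ n ≥ n0, ∀ (V : Type) [Fintype V] (G : SimpleGraph V) (x : V → ℝ) (lam : ℝ)
    (c : V → Fin r) (H : Finset V), C0 r δ n G c H → PV G x lam →
    (n : ℝ) ^ 2 * Ph (sz H c) lam ≤ (1 + e) * (mis G H c : ℝ)

/-- **MKW** : graphs of the three forms with given class sizes. `pEMB` with `N = n`, `n i = z i`
and D: `a 2 = t + 1`, `a i = 1` for `i ≠ 2`; `v1`, `v2` = the vertices of `A` in the classes
`0`, `1`; `gD_WD`. E: `a 0 = 0`, `a 2 = t + 1`, `a i = 1` for the other `i` (so `|A| = r - 1 + t`);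
`B` = one vertex in each class `i ≠ 0`, in the class `1` a vertex outside `A` (`2 ≤ z 1`); `i0 = 0`,
`gE_WE`. S: `a i = 1`, `T = A`, `p` in the class `0`, `q` in the class `1`, `L` a set of `t + 2`
vertices of the class `1` of `H` which contains `q` (`Finset.exists_subsuperset_card_eq`),
`G = gF H c w T (fun x y => x = p ∧ y ∈ L)`. -/
def Stmt_MKW : Prop := ∀ (r : ℕ), 3 ≤ r → ∀ (n t : ℕ) (z : Fin r → ℕ), ∑ i, z i = n →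
  (∀ i, t + 4 ≤ z i) →
  (∃ (G : SimpleGraph (Fin (n + 2))) (H : Finset (Fin (n + 2))) (c : Fin (n + 2) → Fin r)
    (w : Fin (n + 2)) (A : Finset (Fin (n + 2))) (v1 v2 : Fin (n + 2)),
    WD G n H c w A v1 v2 ∧ A.card = r + t ∧ ∀ i, (cl H c i).card = z i) ∧
  (∃ (G : SimpleGraph (Fin (n + 2))) (H : Finset (Fin (n + 2))) (c : Fin (n + 2) → Fin r)
    (w u : Fin (n + 2)) (A B : Finset (Fin (n + 2))) (i0 : Fin r),
    WE G n H c w u A B i0 ∧ A.card + 1 = r + t ∧ ∀ i, (cl H c i).card = z i) ∧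
  (∃ (G : SimpleGraph (Fin (n + 2))) (H : Finset (Fin (n + 2))) (c : Fin (n + 2) → Fin r)
    (w : Fin (n + 2)) (T L : Finset (Fin (n + 2))) (p q : Fin (n + 2)),
    WS G n H c w T L p q ∧ L.card = t + 2 ∧ ∀ i, (cl H c i).card = z i)

/-- **CUP** : the competitor (uses C0W, SECU, MKW, GS, and `pGD`, `pGE`). `kk m n z` is an integer
`k`, because `n^2 - ∑ z^2` is even (`∑ z = n`, `z^2 ≡ z`). `δ` small compared with `1/(8 r)` and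
with the `δ0` of SECU for `e/2`, `n` large. Case D (`0 ≤ k`, `U = 2`): MKW with `t = k`, `pGD`:
`pE = n^2 - ∑ z^2 - 2 + 2 (r + k) = 2 m`; C0W (`|A| + 2 ≤ δ0 n`); SECU: `(1 + e/2) 2 = 2 + e`.
Case E (`r ≤ k`, `U = 0`): `t = k - r`, `|A| = k - 1`, `pGE`, `mis = 0`. Case S (`k ≤ -1`,
`U = 2 (1 - k)`): `t = -1 - k`, `|L| = 1 - k`, GS (`2 |L| < z i`), `mis = 2 (1 - k)`, SECU:
`(1 + e/2) 2 (1 - k) = U + e (1 + |k|)`. `SECU` is applied to `exists_PV G`. -/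
def Stmt_CUP : Prop := ∀ (r : ℕ) (e : ℝ), 3 ≤ r → 0 < e → ∃ (δ : ℝ) (n0 : ℕ), 0 < δ ∧
  ∀ n ≥ n0, ∀ (m : ℕ) (z : Fin r → ℕ), ∑ i, z i = n → (∀ i, |(z i : ℝ) - n / r| ≤ δ * n) →
  |kk m n z| ≤ δ * n → ∀ U : ℝ, ((0 ≤ kk m n z ∧ U = 2) ∨ ((r : ℝ) ≤ kk m n z ∧ U = 0) ∨
    (kk m n z ≤ -1 ∧ U = 2 * (1 - kk m n z))) →
  ∃ G : SimpleGraph (Fin (n + 2)), G.CliqueFree (r + 1) ∧ ¬ G.Colorable r ∧
    pE G = 2 * (m : ℝ) ∧ (n : ℝ) ^ 2 * Ph (re z) (specRad G) ≤ U + e * (1 + |kk m n z|)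

/-- **CLO** : lower bounds (uses C0W, GS, and `pGD`, `pGE`, `pSECD`, `pSECE`, `pSECF`). D: `pGD`:
`kk = |A| - r ≥ 0` (every class meets `A`), C0W, `pSECD` with `e0 = e/(r + 3)`:
`2 - e0 (1 + r + kk) ≥ 2 - e (1 + |kk|)`. E: `pGE`: `kk = |A| + 1 ≥ r` (`W2.card_WE`), `pSECE`.
S: GS: `kk = 1 - |L| ≤ -1`, `mis = 2 |L| = 2 (1 - kk)`, `WF`, `pSECF` with `e0 = e/(r + 3)`:
`mis - e0 (1 + mis) ≥ 2 (1 - kk) - e (1 + |kk|)`. (`sz H c = re y` by `funext`.) -/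
def Stmt_CLO : Prop := ∀ (r : ℕ) (e : ℝ), 3 ≤ r → 0 < e → ∃ (δ : ℝ) (n0 : ℕ), 0 < δ ∧
  ∀ n ≥ n0, ∀ (m : ℕ) (y : Fin r → ℕ) (V : Type) [Fintype V] (G : SimpleGraph V),
  pE G = 2 * (m : ℝ) → (∀ i, |(y i : ℝ) - n / r| ≤ δ * n) → |kk m n y| ≤ δ * n →
  (FamD n y G → 0 ≤ kk m n y ∧
    2 - e * (1 + |kk m n y|) ≤ (n : ℝ) ^ 2 * Ph (re y) (specRad G)) ∧
  (FamE n y G → (r : ℝ) ≤ kk m n y ∧
    -(e * (1 + |kk m n y|)) ≤ (n : ℝ) ^ 2 * Ph (re y) (specRad G)) ∧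
  (FamS n y G → kk m n y ≤ -1 ∧
    2 * (1 - kk m n y) - e * (1 + |kk m n y|) ≤ (n : ℝ) ^ 2 * Ph (re y) (specRad G))

/-- **RULEC** : the rule (uses SM6, CUP, CLO, and `pEID`, `pLAM`, `pTAY`, `Ext.mx`). Let
`y i = (cl H c i).card`. `pEID` and `C0`: `-δ n ≤ pE G - n^2 + ∑ y^2 ≤ 3 δ n`, so
`|kk m n y| ≤ 2 δ n + r ≤ 3 δ n`. SM6: `FamD`, `FamE` or `FamS`; CLO with `e = ε/6` gives the sign of
`kk` (so `FormC`) and `L - e (1 + |kk m n y|) ≤ n^2 Ph (re y) lam`, `lam = specRad G`, `L = 2`, `0`,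
`2 (1 - kk m n y)`. Let `z` be as in `Opt`, `k = kk m n z`; CUP gives `G'` with `specRad G' ≤ lam`
(the last part of `Ext`), and `Ph (re z)` is decreasing (`BIG.Ph_anti`, `BIG.lam_nonneg`), so
`n^2 Ph (re z) lam ≤ U + e (1 + |k|)`, `U = 2`, `0`, `2 (1 - k)`. `pTAY` with `B = 4 r + 1`
(`pLAM`; `mo 2 ≤ 4 r n` for both), and `mo 2 n (re z) - mo 2 n (re y) = 2 (k - kk m n y)`
(`mo_two`): `(L - U)/al r ≤ 2 (k - kk m n y) + M34 n y - M34 n z + E`,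
`E ≤ (3/2) e (2 + |kk m n y| + |k|) + C/√n + 2 C |k - kk m n y|/n ≤ ε (1 + |kk m n y| + |k|)` for
large `n`. As `1/al r = 1 + 1/(r - 1)`, the number `2 k + U/al r - 2 - 2/(r - 1)` is `2 k`,
`2 k - 2 - 2/(r - 1)`, `- 2 k/(r - 1)` in the three cases, the same for `y`: this is `Opt`.
(`2 √n ≤ δ n` for large `n`.) -/
def Stmt_RULEC : Prop := ∀ (r : ℕ) (ε : ℝ), 3 ≤ r → 0 < ε → ∃ (δ : ℝ) (n0 : ℕ), 0 < δ ∧
  ∀ n ≥ n0, ∀ (m : ℕ) (V : Type) [Fintype V] (G : SimpleGraph V) (c : V → Fin r)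
    (H : Finset V), C0 r δ n G c H → (∀ i, |sz H c i - n / r| ≤ 2 * √(n : ℝ)) → Ext r m G →
    ∃ c0 : ℝ, |kk m n (fun i => (cl H c i).card)| ≤ ε * n ∧
      FormC m n (fun i => (cl H c i).card) G c0 ∧
      Opt m n ε δ (fun i => (cl H c i).card) c0

/-- **MAINC** : theorem C (uses RULEC, and `tri`, `fdcase`). `tri` with `δ' = min` of the `δ` of
RULEC (for `ε`), `ε`, `1/(4 r^2)`; its first two cases give the second alternative (RULEC with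
`n = N`, `n = N + 1`; `∑ y = n` by `sum_card_cl`), its third case the first alternative (`fdcase`
with `ε := εF`; `RgV` from the upper bound of `j`; `RgA r εF N j` contains `εF N ≤ j`). The final
`δ` is the minimum of all; `Opt` for `δ'` implies `Opt` for a smaller `δ`. Compare MAINA. -/
def Stmt_MAINC : Prop := ∀ (r : ℕ) (ε : ℝ), 3 ≤ r → 0 < ε → ∃ (δ : ℝ) (m0 : ℕ), 0 < δ ∧
  ∀ m ≥ m0, ∀ N j : ℕ, m = tn r N + j → m < tn r (N + 1) → ∀ (V : Type) [Fintype V]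
    (G : SimpleGraph V), Ext r m G →
    (δ * N ≤ j ∧ (j : ℝ) ≤ (1 - 2 / r + ε) * (al r * N) ∧ (TypeD r N j G ∨ TypeE r N j G)) ∨
    ∃ (n : ℕ) (y : Fin r → ℕ) (c0 : ℝ), ((n = N ∧ (j : ℝ) ≤ ε * N) ∨
        (n = N + 1 ∧ (1 - 2 / r - ε) * (al r * N) ≤ j)) ∧
      (∀ i, |(y i : ℝ) - n / r| ≤ 2 * √(n : ℝ)) ∧ ∑ i, y i = n ∧ |kk m n y| ≤ ε * n ∧
      FormC m n y G c0 ∧ Opt m n ε δ y c0

/-! ## the numbers `j ≤ r - 2` -/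

/-- the exceptional values of `m` -/
def Exc (r N j : ℕ) : Prop := j = 0 ∧ ((r = 3 ∧ N % 3 = 0) ∨ (r = 4 ∧ N % 4 = 2))

/-- the form S with two leaves over `r` consecutive class sizes -/
def TypeX {V : Type} [Fintype V] (r N : ℕ) (G : SimpleGraph V) : Prop :=
  ∃ (H : Finset V) (c : V → Fin r) (w : V) (T L : Finset V) (p q : V),
    WS G N H c w T L p q ∧ L.card = 2 ∧
    (∃ (σ : Equiv.Perm (Fin r)) (a : ℕ), ∀ i, (cl H c (σ i)).card = a + i) ∧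
    (cl H c (c q)).card < (cl H c (c p)).card ∧
    ∀ i, i ≠ c p → i ≠ c q → (cl H c i).card < (cl H c (c q)).card

/-- **RJS** : class sizes of gadgets for `j ≤ r - 2`. Let `N = r q + t`, `t < r`; with `y = q + v`,
`∑ v = t`, the condition is `∑ v^2 = t + 2 (r - 1 - j)` (`pTN`: the vector with `t` entries `q + 1`
and `r - t` entries `q` gives `2 tn r N + ∑ = N^2`). `r = 3`: `t = 0`: `j = 1`: `(1,0,-1)`;
`t = 1`: `j = 0, 1`: `(2,0,-1)`, `(1,1,-1)`; `t = 2`: `(2,1,-1)`, `(2,0,0)`. `r = 4`: `t = 0`: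
`j = 0, 1, 2`: `(2,0,-1,-1)`, `(1,1,-1,-1)`, `(1,0,0,-1)`; `t = 1`: `(2,1,-1,-1)`, `(2,0,0,-1)`,
`(1,1,0,-1)`; `t = 2`: `j = 1, 2`: `(2,1,0,-1)`, `(2,0,0,0)`; `t = 3`: `(3,0,0,0)`, `(2,1,1,-1)`,
`(2,1,0,0)`. `r ≥ 5`: `pREPL` with `M = N`, `S = N^2 + 2 (r - 1) - 2 (tn r N + j)`; the balanced
vector is admissible as `j ≤ r - 2`, and `S - N` is even. -/
def Stmt_RJS : Prop := ∀ (r N j : ℕ), 3 ≤ r → j + 1 < r → ¬ Exc r N j →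
  ∃ y : Fin r → ℤ, ∑ i, y i = N ∧
    ∑ i, y i ^ 2 + 2 * ((tn r N : ℤ) + j) = (N : ℤ) ^ 2 + 2 * ((r : ℤ) - 1)

/-- **GPS** : gadgets over almost balanced complete multipartite graphs, all `r ≥ 3` (uses CMPG,
EXPG). `σ = √(∑ (sz - n/r)^2)`, `σ^4 ≤ κ n`. CMPG (its constant `C`) and EXPG (with the same or a
larger `C`; the fourth moments are at most `σ^4 ≤ κ n`): `PhF y i k - PhF z i1 i2 ≤ K/n * 2 κ n
+ K ((σ + 1)^2/n + σ^5/n^2) ≤ 2 K κ + o(1) < 1/(r - 1)` if `κ = 1/(4 K r)` and `n` is large;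
`(r - 1) (PhF y i k - PhF z i1 i2)` is an integer, so it is `≤ 0`. Compare PH1 (c) and GPHI. -/
def Stmt_GPS : Prop := ∀ (r : ℕ), 3 ≤ r → ∃ (κ : ℝ) (n0 : ℕ), 0 < κ ∧ ∀ n ≥ n0,
  ∀ (V : Type) [Fintype V] (G : SimpleGraph V) (c : V → Fin r) (H : Finset V) (w : V)
    (A : Finset V) (v1 v2 : V), WD G n H c w A v1 v2 → A.card = r → MX r G →
    (∀ i, |sz H c i - n / r| ≤ 2 * √(n : ℝ)) →
    (∑ i, (sz H c i - n / r) ^ 2) ^ 2 ≤ κ * n →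
    ∀ (y : Fin r → ℕ) (i k : Fin r), i ≠ k → ∑ l, y l = n →
      ∑ l, y l ^ 2 = ∑ l, (cl H c l).card ^ 2 →
      PhF y i k ≤ PhF (fun l => (cl H c l).card) (c v1) (c v2)

/-- **SMJ** : all `j ≤ r - 2`, first part (uses RJS, GPS, and `pMAIN5`, `pTN`, `pGD`). RJS gives `y`;
the deviations from `N/r` are at most `3 r` (`∑ (y - N/r)^2 = al r N^2 - 2 (tn r N + j) + 2 (r - 1)
≤ 3 r`), so the entries are natural numbers for large `N` and `CovS r κ N m` holds. `pMAIN5` with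
`ε = 1/10`: `Form5`; as `j + 1 < r`, only the first alternative is possible (the last one gives
`(1 - 2/r - 1/10) al r N ≤ j < r`): `Gad N G H c`, i.e. `WD`, `A.card = r`, `Top`. By `pGD`
`∑ (sz - N/r)^2 = al r N^2 - 2 m + 2 (r - 1) ≤ 3 r`, so GPS applies (`Ext.mx`). -/
def Stmt_SMJ : Prop := ∀ (r : ℕ), 3 ≤ r → ∃ m0 : ℕ, ∀ m ≥ m0, ∀ N j : ℕ, m = tn r N + j →
  m < tn r (N + 1) → j + 1 < r → ¬ Exc r N j → ∀ (V : Type) [Fintype V] (G : SimpleGraph V),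
    Ext r m G → GadP (r := r) N G

/-- **SEXC** : the exceptional values (uses MAINC, GS, and `pTN`, `pCU1` or `blk_CU1`). `r = 3`,
`N = 3 q` or `r = 4`, `N = 4 q + 2`, `j = 0`, so `m = tn r N` (`3 q^2`, resp. `6 q^2 + 6 q + 1`).
MAINC with `ε = 1/1000`: `δ N ≤ 0` and `(1 - 2/r - ε) al r N ≤ 0` are impossible, so `n = N`, and we
have `y`, `c0`, `FormC`, `Opt`. `k = kk m N y` (an integer); `y = q + v`: `∑ v = 0`,
`∑ v^2 = 4 + 2 k`, resp. `∑ v = 2`, `∑ v^2 = 8 + 2 k`. `Opt` for `z = q + (1, 0, -1)`, resp.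
`q + (2, 1, 0, -1)`: `kk = -1`, cost `2/(r - 1)`, third moment `0`, fourth moment `≤ 11`.
`M34 N y ≤ |mo 3|/N ≤ R √R/N` (`CU1`, last item), `R = mo 2 N (re y) ≤ 7 + 2 |k|` and
`|k| ≤ N/1000`: `M34 N y ≤ 7 (1 + |k|) √(7 + N/500)/N ≤ (1/1000) (1 + |k|)` for large `N`. Hence
`c0 ≤ 2/(r - 1) + (1/100) (1 + |k|)`. In all forms `c0 ≥ 2 |k|/(r - 1)` (form E: `k ≥ r`), so
`|k| < 2`, `|k| ≤ 1`; `k = 1` is form D with cost `2 > 2/(r - 1) + 1/50`. `k = 0` is impossible: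
`∑ v^2 = 4`, `∑ v = 0` has no solution with three integers, `∑ v^2 = 8`, `∑ v = 2` none with four
integers. So `k = -1`, the form is `FamS`, `∑ v^2 = 2`, `∑ v = 0`, so `v` is a permutation of
`(1, 0, -1)`, resp. `∑ v^2 = 6`, `∑ v = 2`, `v` is a permutation of `(2, 1, 0, -1)`: the sizes are
`r` consecutive numbers. GS: `L.card = 1 - k = 2`. -/
def Stmt_SEXC : Prop := ∀ (r : ℕ), 3 ≤ r → ∃ m0 : ℕ, ∀ m ≥ m0, ∀ N j : ℕ, m = tn r N + j →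
  m < tn r (N + 1) → Exc r N j → ∀ (V : Type) [Fintype V] (G : SimpleGraph V),
    Ext r m G → TypeX r N G

/-- the forms of the extremal graphs -/
def Form7 {V : Type} [Fintype V] (r : ℕ) (ε : ℝ) (N j : ℕ) (G : SimpleGraph V) : Prop :=
  (j + 1 < r ∧ ¬ Exc r N j ∧ GadP (r := r) N G) ∨
  (Exc r N j ∧ TypeX r N G) ∨
  (r ≤ j + 1 ∧ j + 2 ≠ 2 * r ∧ TypeD r N j G ∧
    (2 * r ≤ j + 1 → 1 - ε ≤ ((r : ℝ) + 1) * (j / (al r * N))) ∧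
    (j : ℝ) / (al r * N) ≤ 1 - 2 / r + ε) ∨
  (j + 2 = 2 * r ∧ TypeSP r N G) ∨
  (2 * r ≤ j + 1 ∧ TypeE r N j G ∧
    ((r : ℝ) + 1) * (j / (al r * N)) ≤ 1 + (j / (al r * N)) ^ 4 / (r * ((r : ℝ) - 1)) + ε) ∨
  (7 ≤ r ∧ 1 - 2 / r - ε ≤ (j : ℝ) / (al r * N) ∧ GadP (r := r) (N + 1) G)

/-- **MAIN7** : all extremal graphs for `7 ≤ r` or `X ≤ 1 - 2/r - ε` (uses MAINB, MAINS, SMJ, SEXC, and
`pMAIN5`). `7 ≤ r`: MAINB (`Form6`; `Exc` is impossible). `r < 7`: `X ≤ 1 - 2/r - ε`. If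
`j + 1 < r`: SMJ, SEXC. If `r ≤ j + 1`: `pMAIN5` for `ε/2` (third clause of `Cov`), `Form5`: its
second and fourth alternative are the third and fifth one here; if `j + 2 = 2 r` use MAINS; the
first one contradicts `r ≤ j + 1`; the last one contradicts `X ≤ 1 - 2/r - ε`. (`Form5` for `ε/2`
implies the inequalities for `ε`.) -/
def Stmt_MAIN7 : Prop := ∀ (r : ℕ), 3 ≤ r → ∀ ε : ℝ, 0 < ε → ∃ m0 : ℕ, ∀ m ≥ m0, ∀ N j : ℕ,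
  m = tn r N + j → m < tn r (N + 1) → (7 ≤ r ∨ (j : ℝ) / (al r * N) ≤ 1 - 2 / r - ε) →
  ∀ (V : Type) [Fintype V] (G : SimpleGraph V), Ext r m G → Form7 r ε N j G

/-- **MAIN8** : gadgets over almost balanced graphs (uses GPS, and `pMAIN5`, `pTN`, `pTNB`, `pGD`).
`κ` = minimum of `1`, the `κ'` of `pMAIN5` and the `κ` of GPS; the hypothesis is `CovS r κ' N m`, so
`Form5` holds for `ε = 1/(2 r)`. `n = N`: `m = tn r N + j` and `2 m = n^2 - ∑ y^2 + 2 (r - 1)`,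
`n^2 - ∑ y^2 ≤ 2 tn r N` (`pTNB`), so `j ≤ r - 1`. If `j + 1 < r`, `Form5` gives the first
alternative; if `j = r - 1` it gives `TypeD` with `A.card = j + 1 = r`, so `WD` and `Top`; the others
are impossible (the last one needs `X ≥ 1 - 2/r - 1/(2 r) > 0`). `n = N + 1`:
`2 m ≥ al r n^2 - n^(2/3)` (`(∑ dev^2)^3 ≤ n^2`), so `X = j/(al r N) ≥ 1 - 1/(4 r)` for large `n`,
and only the last alternative of `Form5` is possible (the others need `j < r`,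
`X ≤ 1 - 2/r + 1/(2 r)`, `j + 2 = 2 r`, resp. `(r + 1) X ≤ 1 + X^4/(r (r - 1)) + 1/(2 r)`, and
`X ≤ 2`). So there are `H`, `c` with `Gad n G H c` in all cases. `pGD`: `∑ sz^2 = ∑ y^2`, so
`∑ (sz - n/r)^2 = ∑ (y - n/r)^2`, and GPS applies if its square is at most `κ n`
(`|sz - n/r| ≤ 2 √n` since `∑ dev^2 ≤ n`). -/
def Stmt_MAIN8 : Prop := ∀ (r : ℕ), 3 ≤ r → ∃ (κ : ℝ) (m0 : ℕ), 0 < κ ∧ ∀ m ≥ m0,
  ∀ (N n : ℕ) (y : Fin r → ℕ), tn r N ≤ m → m < tn r (N + 1) → (n = N ∨ n = N + 1) →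
  ∑ i, y i = n → kk m n y = 0 → (∑ i, ((y i : ℝ) - n / r) ^ 2) ^ 3 ≤ κ * n ^ 2 →
  ∀ (V : Type) [Fintype V] (G : SimpleGraph V), Ext r m G →
    (∃ (c : V → Fin r) (H : Finset V), Gad n G H c) ∧
    ((∑ i, ((y i : ℝ) - n / r) ^ 2) ^ 2 ≤ κ * n → GadP (r := r) n G)

/-! ## three sequences for `r = 3` -/

/-- `M34` for three classes: `D` = largest deviation, `d` = difference of the other two -/
noncomputable def mm (n D d : ℝ) : ℝ :=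
  3 / 4 * D * (D ^ 2 - d ^ 2) / n - ((3 * D ^ 2 + d ^ 2) / 2) ^ 2 / (2 * n ^ 2)

/-- **TI3** : `n = 30 s^2`, `D^2 = 16 s^2 + O(s)`. With `t = D - D'` and
`d'^2 = 3 D^2 + d^2 + 4 κ - 3 D'^2`: `(4/3) (3/4) (D' (D'^2 - d'^2) - D (D^2 - d^2))` etc.; exact:
`3/4 D' (D'^2 - d'^2) - 3/4 D (D^2 - d^2) = -(27/4) D^2 t + 9 D t^2 - 3 t^3 + (3/4) d^2 t
- 3 D' κ`. The fourth moment part: `R' = R + 2 κ`, `-(R'^2 - R^2)/(2 n^2) = -(4 κ R + 4 κ^2)/(2 n^2)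
≤ 2 |κ| R/n^2`, `R ≤ n`. (1) `D' = D`: the difference is `≤ 3 D |κ|/n + 2 |κ|/n ≤ e |κ|`.
(2) `D' + 1 ≤ D`: `|d'| ≤ 3 D'` gives `12 D'^2 ≥ 3 D^2 + 4 κ`, so `D' ≥ (49/100) D` if
`δ = 1/1000`, `t ≤ (51/100) D`, hence `(27/4) D^2 - 9 D t + 3 t^2 ≥ (29/10) D^2`; so
`t ((27/4) D^2 - 9 D t + 3 t^2) ≥ 3 * (29/10) * 16 s^2 ≥ (9/2) n` if `t ≥ 3`, and
`≥ t ((27/4) D^2 - 27 D) ≥ (355/100) n` if `1 ≤ t ≤ 3`, `s` large (`(27/4) * 16 s^2 = 108 s^2 =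
(18/5) n`). `(3/4) d^2 t/n ≤ 61 D/n` is small, `3 D' |κ|/n ≤ (e/2) |κ|`. (3) `D + 1 ≤ D'`,
`t := D' - D ≥ 1`: `4 κ = 6 D t + 3 t^2 + d'^2 - d^2 ≥ 6 D + 3 - 81`: third claim; in particular
`κ > 0`, the fourth moment part is `≤ 0`. `3 D'^2 ≤ 3 D^2 + 81 + 4 κ` gives `D' ≤ 2 D`.
`3/4 D' (D'^2 - d'^2) - 3/4 D (D^2 - d^2) ≤ (3/4) (D'^3 - D^3) + 61 D`,
`D'^3 - D^3 ≤ t (3 D + t) D'`, `2 t (3 D + t) ≤ 3 t (2 D + t) ≤ 4 κ + 81`: in total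
`≤ ((3/8) (2 D) (4 κ + 81) + 61 D)/n ≤ e (1 + κ)`. -/
def Stmt_TI3 : Prop := ∀ e : ℝ, 0 < e → ∃ (δ : ℝ) (s0 : ℕ), 0 < δ ∧ ∀ s : ℕ, s0 ≤ s →
  ∀ D d D' d' κ : ℝ, (D = 4 * s ∨ D = 4 * s + 1) → 0 ≤ d → d ≤ 9 →
  3 * D' ^ 2 + d' ^ 2 = 3 * D ^ 2 + d ^ 2 + 4 * κ → |d'| ≤ 3 * D' →
  |κ| ≤ δ * (30 * (s : ℝ) ^ 2) → (D' = D ∨ D' + 1 ≤ D ∨ D + 1 ≤ D') →
  mm (30 * (s : ℝ) ^ 2) D' d' ≤ mm (30 * (s : ℝ) ^ 2) D d + e * (1 + |κ|) ∧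
  (D' + 1 ≤ D →
    mm (30 * (s : ℝ) ^ 2) D' d' ≤ mm (30 * (s : ℝ) ^ 2) D d - 17 / 5 + e * (1 + |κ|)) ∧
  (D + 1 ≤ D' → 3 / 2 * D - 20 ≤ κ)

/-- **PRM** : the forms do not depend on the order of the classes. Replace `c` by `σ ∘ c`:
`cl S (σ ∘ c) (σ i) = cl S c i`; `P` is replaced by its image under `σ` (`Place`, `Top` for `{c v1, c v2}`,
`{i0}`), `i0` by `σ i0`. -/
def Stmt_PRM : Prop := ∀ (r n : ℕ) (y y' : Fin r → ℕ) (σ : Equiv.Perm (Fin r)),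
  (∀ i, y' (σ i) = y i) → ∀ (V : Type) [Fintype V] (G : SimpleGraph V),
  (FamD n y G → FamD n y' G) ∧ (FamE n y G → FamE n y' G) ∧ (FamS n y G → FamS n y' G)

/-- **TYP3** : each form occurs (uses MAINC, TI3, PRM, and `pTN`). `n = 30 s^2`, `q = 10 s^2`,
`y0 = (q + D, q + (d - D)/2, q - (d + D)/2)` with `(D, d, k0) = (4 s, 0, 0)`, `(4 s + 1, 1, -1)`,
`(4 s + 1, 9, 3)`, and `m = (n^2 - ∑ y0^2)/2 + 2 + k0`, i.e. `kk m n y0 = k0`. `pTN`: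
`tn 3 n = 3 q^2`, `tn 3 (n - 1) = 3 q^2 - 2 q`; so `N = n - 1`, `j = m - tn 3 N = 8 s^2 + O(s)`, about
`(2/5) al 3 N`. MAINC with `ε = 1/1000` (its `δ`): the first alternative and `j ≤ ε N` are
impossible, so the second alternative holds with `n = N + 1 = 30 s^2`, sizes `y`, cost `c0`. `Opt`
for `z = y0` (deviations `≤ 5 s ≤ 2 √n`, `|k0| ≤ 3 ≤ δ n`; cost `c' = 0`, `1`, `6 - 2 - 1 = 3`):
`c0 ≤ c' + M34 n y - M34 n y0 + ε (4 + |k|)`, `k = kk m n y` (an integer). Let `D'` = the largest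
deviation `y i - q`, `d'` = the difference of the other two; `|d'| ≤ 3 D'`,
`3 D'^2 + d'^2 = 2 ∑ (y - q)^2 = 3 D^2 + d^2 + 4 κ`, `κ = k - k0`; `M34 n y = mm n D' d'`,
`M34 n y0 = mm n D d`. `|κ| ≤ (1/500) n`: in `TI3` take `e = 1/1000`; to satisfy its condition
`|κ| ≤ δ n` apply `MAINC` with `ε` = minimum of `1/1000` and half of the `δ` of TI3. In all forms
`|k| ≤ c0` (`r = 3`: `2 k`, `2 k - 3` with `k ≥ 3`, `-k`). `D' ≤ D - 1`: `|k| ≤ c0 ≤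
3 - 17/5 + (1/100) (2 + |k|)`, impossible. `D' ≥ D + 1`: `|k| ≤ 3 + (1/100) (5 + |k|)`, so `|k| ≤ 4`,
but `k ≥ (3/2) D - 23`: impossible. So `D' = D` and `|k| ≤ c0 ≤ c' + 1/10 + |k|/100`, so `|k| ≤ 3`
and `c0 ≤ c' + 1/5`. `d'^2 = d^2 + 4 (k - k0)` is a square of an integer with the parity of `D`.
Case 1: `c0 ≤ 1/5`: `k = 0`, `d' = 0`, the form is D. Case 2: `c0 ≤ 6/5`: `k = 0` or `-1`;
`d'^2 = 5 + 4 k`, so `k = -1`, `d' = ± 1`, form S. Case 3: `c0 ≤ 16/5`, `|k| ≤ 3`,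
`d'^2 = 69 + 4 k` is one of `57, 61, .., 81`, the only squares of odd numbers: `81`, so `k = 3`, and
the form D has cost `6`: form E. In each case `y` is a permutation of `y0`: PRM. -/
def Stmt_TYP3 : Prop := ∃ s0 : ℕ, ∀ s ≥ s0, ∀ (m : ℕ) (V : Type) [Fintype V]
  (G : SimpleGraph V), Ext 3 m G →
  (m + 12 * s ^ 2 = 300 * s ^ 4 + 2 →
    FamD (30 * s ^ 2) ![10 * s ^ 2 + 4 * s, 10 * s ^ 2 - 2 * s, 10 * s ^ 2 - 2 * s] G) ∧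
  (m + 12 * s ^ 2 + 6 * s = 300 * s ^ 4 →
    FamS (30 * s ^ 2) ![10 * s ^ 2 + 4 * s + 1, 10 * s ^ 2 - 2 * s, 10 * s ^ 2 - 2 * s - 1]
      G) ∧
  (m + 12 * s ^ 2 + 6 * s + 16 = 300 * s ^ 4 →
    FamE (30 * s ^ 2) ![10 * s ^ 2 + 4 * s + 1, 10 * s ^ 2 - 2 * s + 4, 10 * s ^ 2 - 2 * s - 5]
      G)

end Pool.Agent.Work.MP_5532fa_up
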