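import Pool.Agent.Work.MP_5532fa_x.Interface3

/-!
# MP_5532fa_co, sixth round: theorem C with an error term which tends to zero

`OptR` sharpens `Opt`: the error is `K (1 + |k| + |k'|)/√n`, and for the extremal graphs
`|k| ≤ K n^(1/4)`.
-/

open Finset

namespace Pool.Agent.Work.MP_5532fa_up

open MP5532fa (specRad qf pE)

/-- up to `K (1 + |k| + |k'|)/√n`, no class sizes are better than `y` with cost `c` -/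
def OptR {r : ℕ} (m n : ℕ) (K : ℝ) (y : Fin r → ℕ) (c : ℝ) : Prop :=
  ∀ (z : Fin r → ℕ) (c' : ℝ), ∑ i, z i = n → (∀ i, |(z i : ℝ) - n / r| ≤ 2 * √(n : ℝ)) →
    |kk m n z| ≤ √(n : ℝ) → Cst r (kk m n z) c' →
    c - M34 n y ≤ c' - M34 n z + K * (1 + |kk m n y| + |kk m n z|) / √(n : ℝ)

/-- **EOW** : exact counts (see B_C0W for the proofs). `WD`: the missing ordered pairs are `(v1, v2)`,
`(v2, v1)`, the ordered adjacent pairs with first vertex outside `H` are `(w, a)`, `a ∈ A`. `WE`: no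
missing pairs; `(w, a)`, `(u, b)`, `(w, u)`, `(u, w)`, `|B| = r - 1`. `WS`: `(p, b)`, `(b, p)`,
`b ∈ L`; `(w, t)`, `t ∈ T`, `|T| = r`. -/
def Stmt_EOW : Prop := ∀ (r : ℕ), 3 ≤ r → ∀ (n : ℕ) (V : Type) [Fintype V]
  (G : SimpleGraph V) (H : Finset V) (c : V → Fin r) (w : V),
  (∀ (A : Finset V) (v1 v2 : V), WD G n H c w A v1 v2 → mis G H c = 2 ∧ eo G H ≤ A.card) ∧
  (∀ (u : V) (A B : Finset V) (i0 : Fin r), WE G n H c w u A B i0 →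
    mis G H c = 0 ∧ eo G H ≤ A.card + r + 1) ∧
  (∀ (T L : Finset V) (p q : V), WS G n H c w T L p q →
    mis G H c = 2 * L.card ∧ eo G H ≤ r)

/-- **SECR** : the secular function with error `O(1/√n)`. For large `n` the hypotheses give
`C0 r δ n G c H` for the `δ` of `pEST1` (`e = 1/20`) and of `pLAM`. So `|lam - al r n| ≤ 4 r + 1`,
`lam ≥ n/2`, and `Fl`: `xb`, `|x_v - xb| ≤ xb/20` on `H`, `x_v ≤ xb/20` outside. `S = ∑_H x`,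
`X = S/n`, `19/20 xb ≤ X ≤ 21/20 xb`, `p_i = lam + n_i`, `|p_i - n| ≤ 3 √n`; `ms`, `ot` as in
`SEC0.lean`, `EST1.lean`.
(1) `u ∉ H`: `lam x_u = ∑_v ad u v x_v ≤ eo (21/20) xb` (all neighbours of `u` are counted in `eo`),
`x_u ≤ 3 eo X/n`. (2) `∑_(v ∈ H) ot_v = ∑_(u ∉ H) ∑_(v ∈ H) ad u v x_u ≤ eo * 3 eo X/n
≤ 12 eo X/√n`; each `ot_v` is at most this, so `≤ 48 X`. (3) `ms_v ≤ mis (21/20) xb ≤ 6 √n X`, the
same for the sum over a class. (4) `EST1.row`, `SEC0.cs_eq` and `p_i - n_i = lam`: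
`x_v = S/p_i + (1/lam) (-(ot_i - ms_i)/p_i - ms_v + ot_v)` (`i = c v`, `ot_i`, `ms_i` = sums over the
class); `|S/p_i - X| = X |n - p_i|/p_i ≤ 4 X/√n`, the rest is `≤ (2/n) (7 √n X + ..) ≤ 15 X/√n`: so
`|x_v - X| ≤ 20 X/√n` on `H`. (5) `∑_(v ∈ H) ms_v` is the sum of `x_u` over the missing ordered
pairs `(v, u)` (`EDG.mis_eq`), so it differs from `mis X` by at most `20 mis X/√n`. (6)
`SEC0.sec_eq`: `n^2 Ph X = n S Ph = ∑_i ms_i (n/p_i) - ∑_i ot_i (n/p_i)`, `|n/p_i - 1| ≤ 4/√n`. In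
total `|n^2 Ph - mis| ≤ (20 + 8) mis/√n + 24 eo/√n`. -/
def Stmt_SECR : Prop := ∀ (r : ℕ), 3 ≤ r → ∃ (K : ℝ) (n0 : ℕ), 1 ≤ K ∧ ∀ n ≥ n0,
  ∀ (V : Type) [Fintype V] (G : SimpleGraph V) (x : V → ℝ) (lam : ℝ) (c : V → Fin r)
    (H : Finset V), H.card = n → (∀ u ∈ H, ∀ v ∈ H, c u = c v → ¬ G.Adj u v) →
    (∀ i, |sz H c i - n / r| ≤ 2 * √(n : ℝ)) → (mis G H c : ℝ) ≤ 4 * √(n : ℝ) →
    (eo G H : ℝ) ≤ 4 * √(n : ℝ) → PV G x lam →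
    |lam - al r * n| ≤ K ∧
    |(n : ℝ) ^ 2 * Ph (sz H c) lam - mis G H c| ≤ K * (mis G H c + eo G H) / √(n : ℝ)

/-- **CUPR** : the competitor (uses GS, MKW, EOW, SECR, and `pGD`, `pGE`; compare CUP). `k = kk m n z`
is an integer. Case D (`0 ≤ k`, `c' = 2 k`): MKW with `t = k`, `mis = 2`, `eo ≤ r + k`; case E
(`r ≤ k`): `t = k - r`, `mis = 0`, `eo ≤ k + r`; case S (`k ≤ -1`): `t = -1 - k`,
`mis = 2 (1 - k)`, `eo ≤ r`. In all cases `mis/al r = c' + 2 + 2/(r - 1) - 2 k` (as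
`1/al r = 1 + 1/(r - 1)`), and the error is `≤ (3/2) K (mis + eo)/√n ≤ K' (1 + |k|)/√n`. (The class
sizes are `≥ n/r - 2 √n`, which is larger than `2 |k| + 4 r`.) -/
def Stmt_CUPR : Prop := ∀ (r : ℕ), 3 ≤ r → ∃ (K : ℝ) (n0 : ℕ), 1 ≤ K ∧
  ∀ n ≥ n0, ∀ (m : ℕ) (z : Fin r → ℕ) (c' : ℝ), ∑ i, z i = n →
  (∀ i, |(z i : ℝ) - n / r| ≤ 2 * √(n : ℝ)) → |kk m n z| ≤ √(n : ℝ) → Cst r (kk m n z) c' →
  ∃ G : SimpleGraph (Fin (n + 2)), G.CliqueFree (r + 1) ∧ ¬ G.Colorable r ∧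
    pE G = 2 * (m : ℝ) ∧ (n : ℝ) ^ 2 * Ph (re z) (specRad G) / al r
      ≤ c' + 2 + 2 / ((r : ℝ) - 1) - 2 * kk m n z + K * (1 + |kk m n z|) / √(n : ℝ)

/-- **CLOR** : the lower bound (uses GS, EOW, SECR, and `pGD`, `pGE`; compare CLO). D: `|A| = r + k`,
`mis = 2`; E: `|A| = k - 1`, `mis = 0`; S: `|L| = 1 - k`, `mis = 2 (1 - k)`; again
`mis/al r = c0 + 2 + 2/(r - 1) - 2 k`. `exists_PV G`; `sz H c = re y`. -/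
def Stmt_CLOR : Prop := ∀ (r : ℕ), 3 ≤ r → ∃ (K : ℝ) (n0 : ℕ), 1 ≤ K ∧
  ∀ n ≥ n0, ∀ (m : ℕ) (y : Fin r → ℕ) (V : Type) [Fintype V] (G : SimpleGraph V) (c0 : ℝ),
  pE G = 2 * (m : ℝ) → (∀ i, |(y i : ℝ) - n / r| ≤ 2 * √(n : ℝ)) → |kk m n y| ≤ √(n : ℝ) →
  FormC m n y G c0 → |specRad G - al r * n| ≤ K ∧
    c0 + 2 + 2 / ((r : ℝ) - 1) - 2 * kk m n y - K * (1 + |kk m n y|) / √(n : ℝ)
      ≤ (n : ℝ) ^ 2 * Ph (re y) (specRad G) / al r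

/-- **RULR** : the rule with error `O(1/√n)` (uses CUPR, CLOR, and `pTAY`; compare RULEC). `z`, `c'` as
in `OptR`; CUPR: `G'` with `specRad G' ≤ specRad G` (`Ext`), `Ph (re z)` is decreasing
(`BIG.Ph_anti`); `pTAY` for `re y`, `re z` with `mo 2 n (re z) - mo 2 n (re y) =
2 (kk m n z - kk m n y)`. -/
def Stmt_RULR : Prop := ∀ (r : ℕ), 3 ≤ r → ∃ (K : ℝ) (n0 : ℕ), 1 ≤ K ∧
  ∀ n ≥ n0, ∀ (m : ℕ) (y : Fin r → ℕ) (V : Type) [Fintype V] (G : SimpleGraph V) (c0 : ℝ),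
    Ext r m G → ∑ i, y i = n → (∀ i, |(y i : ℝ) - n / r| ≤ 2 * √(n : ℝ)) →
    |kk m n y| ≤ √(n : ℝ) → FormC m n y G c0 → OptR m n K y c0

/-- **CND** : a good candidate (pure, uses `blk_CU1`). `R0 = al r n^2 - 2 m + 2 (r - 1)`; for every
`y` with `∑ y = n`: `mo 2 n (re y) = R0 + 2 kk m n y`. Let `a = √(R0 (r-1)/r)`,
`z 0 = ⌊n/r + a⌋`, `d = z 0 - n/r`, so `a - 1 < d ≤ a`; the other `r - 1 ≥ 2` entries are a balanced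
vector `b` with the right sum, except that `s` is added to one and subtracted from another entry.
`mo 2 = d^2 r/(r-1) + ∑ (b - ν)^2 + 2 s^2 + 2 s (b1 - b2)`, the second term is `≤ r`, `|b1 - b2| ≤ 1`.
`g = R0 - d^2 r/(r-1) - ∑ (b - ν)^2` satisfies `- r - 2 ≤ g ≤ 4 a + 4`; `s = ⌊√(max g 0/2)⌋`:
`|mo 2 n (re z) - R0| ≤ 10 s + 10 r`, so `|kk m n z| ≤ K √√n`. The deviations of `z` are `≤ √(mo 2)
≤ 2 √n`. Third moments, `CU1` (items 1 and 4, with `D = √(R (r-1)/r)`): for every `y`,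
`mo 3 n (re y) ≤ R √R (r-2)/√(r (r-1)) =: M(R)`, `R = mo 2 n (re y) ≤ 4 n`; and
`M(R) ≤ M(R0) + C √n |R - R0|`. Item 2 for `z`, entry `0`: `mo 3 n (re z) ≥ κ3(d, R_z) - σ^3`,
`κ3(d, R) = d^3 r (r+1)/(r-1)^2 - 3 d R/(r-1)`, `σ^2 = R_z - d^2 r/(r-1) ≤ C √n`, and
`M(R0) = κ3(a, R0)`, `|κ3(d, R_z) - κ3(a, R0)| ≤ C n` (`|d - a| ≤ 1`, `|R_z - R0| ≤ C √√n`). Fourth
moments are between `0` and `R^2 ≤ 16 n^2`. So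
`M34 n y ≤ M(R0)/n + C |kk m n y|/√n ≤ M34 n z + C' + C |kk m n y|/√n`. -/
def Stmt_CND : Prop := ∀ (r : ℕ), 3 ≤ r → ∃ (K : ℝ) (n0 : ℕ), 1 ≤ K ∧ ∀ n ≥ n0, ∀ m : ℕ,
  0 ≤ al r * (n : ℝ) ^ 2 - 2 * m + 2 * ((r : ℝ) - 1) →
  al r * (n : ℝ) ^ 2 - 2 * m + 2 * ((r : ℝ) - 1) ≤ 2 * n →
  ∃ z : Fin r → ℕ, ∑ i, z i = n ∧ (∀ i, |(z i : ℝ) - n / r| ≤ 2 * √(n : ℝ)) ∧
    |kk m n z| ≤ K * √(√(n : ℝ)) ∧
    ∀ y : Fin r → ℕ, ∑ i, y i = n → |kk m n y| ≤ n →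
      M34 n y ≤ M34 n z + K * (1 + |kk m n y| / √(n : ℝ))

/-- **KBD** : `k` is small (uses RULEC, CND). RULEC with `ε = 1/(2 r)`: `c0`, `FormC`, `Opt` (with its
`δ`). `z` of CND, `|kk m n z| ≤ K √√n ≤ δ n`, an integer; its cost `c'` (form D if `kk ≥ 0`, form S
if `kk ≤ -1`) is `≤ 2 |kk m n z|`. In all forms `c0 ≥ 2 |k|/(r - 1)`, `k = kk m n y` (form E:
`k ≥ r`). `Opt`: `2 |k|/(r - 1) ≤ 2 K √√n + K (1 + |k|/√n) + (1/(2 r)) (1 + |k| + K √√n)`, and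
`2/(r - 1) - 1/(2 r) - K/√n ≥ 1/r`. -/
def Stmt_KBD : Prop := ∀ (r : ℕ), 3 ≤ r → ∃ (δ K : ℝ) (n0 : ℕ), 0 < δ ∧ 1 ≤ K ∧
  ∀ n ≥ n0, ∀ (m : ℕ) (V : Type) [Fintype V] (G : SimpleGraph V) (c : V → Fin r)
    (H : Finset V), C0 r δ n G c H → (∀ i, |sz H c i - n / r| ≤ 2 * √(n : ℝ)) → Ext r m G →
    0 ≤ al r * (n : ℝ) ^ 2 - 2 * m + 2 * ((r : ℝ) - 1) →
    al r * (n : ℝ) ^ 2 - 2 * m + 2 * ((r : ℝ) - 1) ≤ 2 * n →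
    ∃ c0 : ℝ, |kk m n (fun i => (cl H c i).card)| ≤ K * √(√(n : ℝ)) ∧
      FormC m n (fun i => (cl H c i).card) G c0

/-- **MAINR** : theorem C, final form (uses KBD, RULR, and `tri`, `fdcase`, `pTHRDB`, `pTN`). `K` =
maximum of the two constants. `tri` with `δ' = min` of the `δ` of KBD, `ε`, `1/(4 r^2)`. Its first
case is impossible (`j ≤ δ' N`, but `X ≥ 1/3 - 1/42 - ..`; take `δ' ≤ 1/42` too). Second case: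
`n = N + 1`, `R0 = al r n^2 - 2 m + 2 (r - 1) ≥ r` (`m < tn r n`, `pTN`) and
`R0 ≤ 2 al r N (2/r + ε) + 4 r ≤ 2 n`; KBD, and RULR (`K √√n ≤ √n`). Third case: `fdcase`:
`TypeD`, or `TypeE`, which is excluded by `pTHRDB` (for a small `ε'`): with `X ≥ 1 - 2/r - 1/42`,
`X ≤ 1 - 2/r + 1/(4 r^2)`: `(r + 1) X ≥ 1 + X^4/(r (r - 1)) + ε'`. -/
def Stmt_MAINR : Prop := ∀ (r : ℕ), 3 ≤ r → ∃ K : ℝ, 1 ≤ K ∧ ∀ ε : ℝ, 0 < ε → ε ≤ 1 / 42 →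
  ∃ m0 : ℕ, ∀ m ≥ m0, ∀ N j : ℕ, m = tn r N + j → m < tn r (N + 1) →
    1 - 2 / r - ε ≤ (j : ℝ) / (al r * N) → ∀ (V : Type) [Fintype V] (G : SimpleGraph V),
    Ext r m G →
    (TypeD r N j G ∧ (j : ℝ) / (al r * N) ≤ 1 - 2 / r + ε) ∨
    ∃ (n : ℕ) (y : Fin r → ℕ) (c0 : ℝ), n = N + 1 ∧ ∑ i, y i = n ∧
      (∀ i, |(y i : ℝ) - n / r| ≤ 2 * √(n : ℝ)) ∧ |kk m n y| ≤ K * √(√(n : ℝ)) ∧
      FormC m n y G c0 ∧ OptR m n K y c0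

end Pool.Agent.Work.MP_5532fa_up
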