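import Pool.Agent.Work.MP_5532fa_x.Interface3

/-!
# MP_5532fa_co, sixth round: the gadgets for `r = 6`, `X ≥ 2/3 + ε`

The same theorem as for `r ≥ 7`. Only PH2 has to be changed, because for `l = 5` the largest entry
of a vector with given sum and sum of squares is not always the largest possible one, but it is
larger than the largest possible one minus `2`.
-/

open Finset

namespace Pool.Agent.Work.MP_5532fa_up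

open MP5532fa (specRad qf pE)

/-- **TNZ1** : as TNZ (file B_TNZ), with `z i1 = u i1 + 2` in the test vector. -/
def Stmt_TNZ1 : Prop := ∀ (l : ℕ), 3 ≤ l → ∀ (u : Fin l → ℤ) (i1 : Fin l) (μ : ℝ),
  (∀ z : Fin l → ℤ, ∑ i, z i = ∑ i, u i → ∑ i, z i ^ 2 ≤ ∑ i, u i ^ 2 →
    ∀ i, z i ≤ u i1 + 1) → (∀ i, u i ≤ u i1) →
  μ = (∑ i, (u i : ℝ)) / l →
  0 ≤ (u i1 : ℝ) - μ ∧ ∑ i, ((u i : ℝ) - μ) ^ 2 ≤ ((u i1 : ℝ) - μ + 2) ^ 2 * (l / (l - 1)) + l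

/-- **MOMT1** : as MOMT (file B_MOMT), with TNZ1 in place of TNZ; the hypothesis `v k1 ≤ u i1` replaces
the argument which gave it. -/
def Stmt_MOMT1 : Prop := ∀ (l : ℕ), 3 ≤ l → ∃ K c : ℝ, 0 < c ∧ 1 ≤ K ∧
  ∀ (u v : Fin l → ℤ) (i1 k1 : Fin l) (μ σ : ℝ),
  (∀ z : Fin l → ℤ, ∑ i, z i = ∑ i, u i → ∑ i, z i ^ 2 ≤ ∑ i, u i ^ 2 →
    ∀ i, z i ≤ u i1 + 1) → (∀ i, u i ≤ u i1) →
  ∑ i, v i = ∑ i, u i → ∑ i, v i ^ 2 = ∑ i, u i ^ 2 → (∀ i, v i ≤ v k1) → v k1 ≤ u i1 →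
  μ = (∑ i, (u i : ℝ)) / l → 0 ≤ σ → σ ^ 2 = ∑ i, ((u i : ℝ) - μ) ^ 2 →
  (v k1 < u i1 → K ≤ σ →
    ∑ i, (v i : ℝ) ^ 3 + c * σ ^ 2 * ((u i1 : ℝ) - v k1) ≤ ∑ i, (u i : ℝ) ^ 3) ∧
  |∑ i, ((u i : ℝ) - μ) ^ 4 - ∑ i, ((v i : ℝ) - μ) ^ 4| ≤ K * (σ + 1) ^ 3 * ((u i1 : ℝ) - v k1 + 1)

/-- **REPS** : five integers (uses `pTSQ`). Let `T` be the largest possible entry of a vector `z` with
`∑ z = M`, `∑ z^2 ≤ S`. If `M - T` is odd take `t = T`, otherwise `t = T - 1`; then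
`M' = M - t` is odd, `S' = S - t^2` is odd (`S - M` is even), and there are four integers with sum
`M'` and sum of squares `≤ S'` (for `t = T` the rest of `z`; for `t = T - 1` add `1` to the smallest
entry `v` of the rest: `-(2 T - 1) + 2 v + 1 ≤ 0`, as `v ≤ T - 1` or all entries are equal to `T`; in the
latter case `S ≥ 5 T^2`, `M = 5 T`, `M - T` is even and `T` is not the largest possible entry unless
`S < 5 T^2 + 2`, so `S = 5 T^2`, and `z` itself is the required vector).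
`4 S' - M'^2 ≥ 0` is `3 mod 8`, so by `pTSQ` it is `a^2 + b^2 + c^2`, `a`, `b`, `c` odd; with a sign of
`a` such that `M' + a + b + c` is divisible by `4` the four integers `(M' + a + b + c)/4`,
`(M' + a - b - c)/4`, `(M' - a + b - c)/4`, `(M' - a - b + c)/4` have sum `M'` and sum of squares `S'`.
So there is a solution with an entry `≥ T - 1`. Take the solution (`∑ = M`, `∑ ^2 = S`; there are
finitely many) with the largest possible largest entry. -/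
def Stmt_REPS : Prop := ∀ (M S : ℤ), (∃ y : Fin 5 → ℤ, ∑ i, y i = M ∧ ∑ i, y i ^ 2 ≤ S) →
  Even (S - M) → ∃ (y : Fin 5 → ℤ) (i1 : Fin 5), ∑ i, y i = M ∧ ∑ i, y i ^ 2 = S ∧
    (∀ i, y i ≤ y i1) ∧
    (∀ z : Fin 5 → ℤ, ∑ i, z i = M → ∑ i, z i ^ 2 = S → ∀ i, z i ≤ y i1) ∧
    (∀ z : Fin 5 → ℤ, ∑ i, z i = M → ∑ i, z i ^ 2 ≤ S → ∀ i, z i ≤ y i1 + 1)

/-- **PH2S** : PH2 for `l = 5` (uses MOMT1, EXPR, REPS and TNZ). The same proof (file B_PH2) with `u°` from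
REPS; the vectors `v` to which MOMT1 is applied are solutions, so `v k1 ≤ u° i*`. -/
def Stmt_PH2S : Prop := ∀ (C : ℝ), 1 ≤ C → ∃ n0 : ℕ, ∀ n ≥ n0,
  ∀ (z : Fin (5 + 1) → ℕ) (i1 i2 : Fin (5 + 1)) (lam : ℝ), GH (5 + 1) C n lam z i1 i2 →
  (∀ u : Fin (5 + 1) → ℤ, ∑ i, u i = n → ∑ i, u i ^ 2 ≤ ∑ i, (z i : ℤ) ^ 2 →
    ∀ i, u i ≤ z i1) →
  ∀ (y : Fin (5 + 1) → ℕ) (k : Fin (5 + 1)), k ≠ i1 → y i1 = z i1 → ∑ i, y i = n →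
    ∑ i, y i ^ 2 = ∑ i, z i ^ 2 → PhF y i1 k ≤ PhF z i1 i2

/-- **PHI6** : PHI for `r = 6` (uses PH1, PH2S; see B_PHI) -/
def Stmt_PHI6 : Prop := ∀ (C : ℝ), 1 ≤ C → ∃ n0 : ℕ, ∀ n ≥ n0,
  ∀ (z : Fin 6 → ℕ) (i1 i2 : Fin 6) (lam : ℝ), GH 6 C n lam z i1 i2 →
  ∀ (y : Fin 6 → ℕ) (i k : Fin 6), i ≠ k → ∑ l, y l = n → ∑ l, y l ^ 2 = ∑ l, z l ^ 2 →
    PhF y i k ≤ PhF z i1 i2

/-- **MAIN6** : `r = 6`, `X ≥ 2/3 + ε` (uses CMPG, PHI6, and `pMAIN5`, `pGD`). `pMAIN5` for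
`ε' = min ε (1/100)` (second clause of `Cov`, `1 - 2/6 = 2/3`): `Form5`, and only the last alternative is
possible (`j < r` no; type D needs `X ≤ 2/3 + ε'`, so take `ε'/2` there; `j + 2 = 12` no; type E needs
`7 X ≤ 1 + X^4/30 + ε'`, no, as `2/3 ≤ X ≤ 2`): `Gad (N + 1) G H c`. As in MAINB and GPHI: `pGD`,
`∑ (sz - n/6)^2 ≤ 4 n`, so `|sz - n/6| ≤ 2 √n`, CMPG and PHI6. -/
def Stmt_MAIN6 : Prop := ∀ ε : ℝ, 0 < ε → ∃ m0 : ℕ, ∀ m ≥ m0, ∀ N j : ℕ,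
  m = tn 6 N + j → m < tn 6 (N + 1) → 2 / 3 + ε ≤ (j : ℝ) / (al 6 * N) →
  ∀ (V : Type) [Fintype V] (G : SimpleGraph V), Ext 6 m G → GadP (r := 6) (N + 1) G

end Pool.Agent.Work.MP_5532fa_up
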