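import Pool.Agent.Work.MP_5532fa_x.Fin8

/-!
# MP_5532fa_co, sixth round: the value of the maximum up to `O(1/√m)`

`Va` is the value of the graphs over `N` vertices, `Vb` the value over `n = N + 1` vertices.
-/

open Finset

namespace Pool.Agent.Work.MP_5532fa_up

open MP5532fa (specRad qf pE)

/-- value of the forms over `N` vertices, `m = tn r N + j` -/
noncomputable def Va (r N j : ℕ) : ℝ := al r * N + al r * ((j : ℝ) / (al r * N)) ^ 2

/-- value of the forms over `n` vertices, `n = N + 1` -/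
noncomputable def Vb (r m n : ℕ) : ℝ :=
  al r * n - al r * RR r m n / n + al r * (kap r * (RR r m n * √(RR r m n))) / (n : ℝ) ^ 2

/-- **LDE** : spectral radius of the graphs `WE` over balanced classes (uses FFE, SECX). As LDX (file
B_LDX), with `|A| = j - r` and the second part of SECX. -/
def Stmt_LDE : Prop := ∀ (r : ℕ), 3 ≤ r → ∃ (K : ℝ) (N0 : ℕ), 1 ≤ K ∧ ∀ N ≥ N0, ∀ j : ℕ,
  (j : ℝ) ≤ al r * N → ∀ (V : Type) [Fintype V] (G : SimpleGraph V) (c : V → Fin r)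
    (H : Finset V) (w u : V) (A B : Finset V) (i0 : Fin r), WE G N H c w u A B i0 → Bal H c →
    A.card + r = j → |specRad G - Va r N j| ≤ K / N

/-- **VLB** : lower bound by `Vb` (uses CUPR, CND2, CND6). This is the first half of the proof of WINA
(file B_WINA; its lemmas `cand`, `upper`, `core` can be imported), without LDX and WIN: there `B` came
from LDX, here it is given. `n = N + 1`, `R = RR r m n`, `r ≤ R ≤ 2 n`; the candidate `z`, its graph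
`G'` (CUPR), `specRad G' ≤ specRad G`; `al r n - lam ≤ al r (R - kap r R √R/n)/n + C (1 + |kk|)/n`, and
`1 + |kk| ≤ C er r N`. -/
def Stmt_VLB : Prop := ∀ (r : ℕ) (B : ℝ), 3 ≤ r → 1 ≤ B → ∃ (K : ℝ) (m0 : ℕ), 1 ≤ K ∧
  ∀ m ≥ m0, ∀ N j n : ℕ, m = tn r N + j → m < tn r (N + 1) → n = N + 1 →
  ∀ (V : Type) [Fintype V] (G : SimpleGraph V), Ext r m G → |specRad G - al r * n| ≤ B →
    Vb r m n - K * er r N / N ≤ specRad G

/-- **VLA** : lower bound by `Va` (uses LDX, EXB). First half of the proof of WINB (file B_WINB, lemma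
`wd_class`): the graph `G'` of EXB is in the class, LDX for `G'`. -/
def Stmt_VLA : Prop := ∀ (r : ℕ), 3 ≤ r → ∃ (K : ℝ) (m0 : ℕ), 1 ≤ K ∧ ∀ m ≥ m0, ∀ N j : ℕ,
  m = tn r N + j → m < tn r (N + 1) → r ≤ j + 1 → (j : ℝ) ≤ (1 - 2 / r) * (al r * N) →
  ∀ (V : Type) [Fintype V] (G : SimpleGraph V), Ext r m G → Va r N j - K / N ≤ specRad G

/-- **VUB** : upper bound by `Vb` (uses LGX, KUB). Second half of the proof of WINB (file B_WINB, lemmas
`mo2_eq`, `pow32`, `RR_bd`): `mo 3 n (re y) ≤ kap r (R √R) + 18 kap r |kk| √n`. -/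
def Stmt_VUB : Prop := ∀ (r : ℕ), 3 ≤ r → ∃ (K : ℝ) (m0 : ℕ), 1 ≤ K ∧ ∀ m ≥ m0, ∀ N j n : ℕ,
  m = tn r N + j → m < tn r (N + 1) → n = N + 1 →
  ∀ (y : Fin r → ℕ) (c0 : ℝ) (V : Type) [Fintype V] (G : SimpleGraph V), Ext r m G →
    ∑ i, y i = n → (∀ i, |(y i : ℝ) - n / r| ≤ 2 * √(n : ℝ)) → |kk m n y| ≤ √(n : ℝ) →
    FormC m n y G c0 → specRad G ≤ Vb r m n + K * (1 + |kk m n y|) / N

/-- **VSM** : forms over almost balanced classes (uses LGX). `mo 2 n (re y) ≤ 16 r^3`,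
`|mo 3 n (re y)| ≤ 64 r^4`, `RR r m n = mo 2 n (re y) - 2 kk m n y` (see `mo2_eq` in B_WINB), so all the
terms of LGX except `al r n` are `O(1/n)`. -/
def Stmt_VSM : Prop := ∀ (r : ℕ), 3 ≤ r → ∃ (K : ℝ) (n0 : ℕ), 1 ≤ K ∧ ∀ n ≥ n0,
  ∀ (m : ℕ) (y : Fin r → ℕ) (V : Type) [Fintype V] (G : SimpleGraph V) (c0 : ℝ),
  pE G = 2 * (m : ℝ) → ∑ i, y i = n → (∀ i, |(y i : ℝ) - n / r| ≤ 4 * r) →
  |kk m n y| ≤ 4 * r → FormC m n y G c0 → |specRad G - al r * n| ≤ K / n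

/-- **VAB** : `Va ≤ Vb` above the second threshold (pure, uses `pTN`). `R = RR r m (N + 1)`,
`|R - 2 al r N (1 - X)| ≤ 4 r` (`RR_bd` in B_WINB), `kap r R √R ≥ 0`, so `Vb - Va ≥ al r - 2 (al r)^2 (1 - X)
- al r X^2 - C/N = al r (1 - X) (X - (1 - 2/r)) - C/N`, `X ≤ 1` (`j_le`). -/
def Stmt_VAB : Prop := ∀ (r : ℕ), 3 ≤ r → ∃ (K : ℝ) (N0 : ℕ), 1 ≤ K ∧ ∀ N ≥ N0, ∀ m j : ℕ,
  m = tn r N + j → m < tn r (N + 1) → (1 - 2 / r) * (al r * N) ≤ j →
  Va r N j ≤ Vb r m (N + 1) + K / N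

/-- **MAINV** : the value of the maximum (uses MAINF, LDX, LDE, LGX, VLB, VLA, VUB, VSM, VAB, GS).
`V = max (Va r N j) (Vb r m (N + 1))`. `1 ≤ er r N` for `N ≥ 1`. The alternatives of `Form8`:
(1) `GadP N`: `X_MAINF.gad_formC` with `n = N`: `kk = 0`, and `∑ (sz - N/r)^2 = RR r m N ≤ 3 r`
(`pTN`, `mo_two`; `j ≥ 0`), so all deviations are `≤ 3 r`: VSM; (2) `TypeX`: GS gives `kk = 1 - 2 = -1`
(form S), deviations `≤ r` (consecutive sizes): VSM; (4) `TypeSP`: `kk = r` (form E; `Place` since `A`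
has one vertex in each class `≠ i0`), `∑ (sz - N/r)^2 ≤ r + 2`: VSM. In these cases `j ≤ 2 r`, so
`0 ≤ Va - al r N ≤ C/N`: `|specRad G - Va| ≤ C/N`. (3) LDX, (5) LDE: `|specRad G - Va| ≤ C/N`.
(6), (7): forms over `n = N + 1` (`gad_formC`, `X_MAINB.dev`, `X_MAINF.small` as in the proof of
`x_MAINF`), `|kk| ≤ C √√n ≤ C' er r N` (in (6) `kk = 0`; in (7) `r < 6`): VUB gives
`specRad G ≤ Vb + C er/N ≤ V + C er/N`. So the upper bound holds in all cases. Lower bounds: VLB for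
`Vb`: the a priori bound `|specRad G - al r (N + 1)| ≤ B` follows from the formulas above in the cases
(1)-(5) (`0 ≤ Va - al r N ≤ 1`, `j_le`), and in (6), (7) from LGX: `|mo 3| ≤ 8 r n √n` (deviations
`≤ 2 √n`), `|RR| ≤ 3 n` (`RR_bd` in B_WINB), `|kk| ≤ √n`. For `Va`: in the cases (1)-(5) done. In (6), (7): if `j ≤ (1 - 2/r) al r N`: VLA (`r ≤ j + 1` because
`X ≥ 1 - 2/r - gam/√N - C (1 + C √√n)/N ≥ 1/4`); otherwise VAB and the bound by `Vb`. -/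
def Stmt_MAINV : Prop := ∀ (r : ℕ), 3 ≤ r → ∃ (K : ℝ) (m0 : ℕ), 1 ≤ K ∧ ∀ m ≥ m0,
  ∀ N j : ℕ, m = tn r N + j → m < tn r (N + 1) → ∀ (V : Type) [Fintype V]
    (G : SimpleGraph V), Ext r m G →
    |specRad G - max (Va r N j) (Vb r m (N + 1))| ≤ K * er r N / N

end Pool.Agent.Work.MP_5532fa_up
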