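import Pool.Agent.Work.MP_5532fa_x.Asm8

/-!
# MP_5532fa_co, sixth round: `OptR` for all class sizes
-/

open Finset

namespace Pool.Agent.Work.MP_5532fa_up

open MP5532fa (specRad qf pE)

/-- up to `K (1 + |k| + |k'|)/√n`, no class sizes at all (with the same sum) are better than `y` with
cost `c` -/
def OptA {r : ℕ} (m n : ℕ) (K : ℝ) (y : Fin r → ℕ) (c : ℝ) : Prop :=
  ∀ (z : Fin r → ℕ) (c' : ℝ), ∑ i, z i = n → Cst r (kk m n z) c' →
    c - M34 n y ≤ c' - M34 n z + K * (1 + |kk m n y| + |kk m n z|) / √(n : ℝ)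

namespace X_OPTA

theorem cost_ge {r : ℕ} (hr : 3 ≤ r) {k c : ℝ} (h : Cst r k c) : 2 * |k| / ((r : ℝ) - 1) ≤ c := by
  have hrr : (3 : ℝ) ≤ r := by exact_mod_cast hr
  have h1 : (0 : ℝ) < r - 1 := by linarith only [hrr]
  rcases h with ⟨h2, rfl⟩ | ⟨h2, rfl⟩ | ⟨h2, rfl⟩
  · rw [abs_of_nonneg h2, div_le_iff₀ h1]
    nlinarith only [h2, hrr]
  · rw [abs_of_nonneg (by linarith only [h2, hrr]), div_le_iff₀ h1, sub_mul, div_mul_cancel₀ _ h1.ne']
    nlinarith only [h2, hrr]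
  · rw [abs_of_neg (by linarith only [h2])]
    apply le_of_eq
    ring

theorem cost_ge' {r : ℕ} (hr : 3 ≤ r) {k c : ℝ} (hk : 0 ≤ k) (h : Cst r k c) :
    2 * k - 3 ≤ c := by
  have hrr : (3 : ℝ) ≤ r := by exact_mod_cast hr
  have h1 : 2 / ((r : ℝ) - 1) ≤ 1 := by
    rw [div_le_one (by linarith only [hrr])]
    linarith only [hrr]
  rcases h with ⟨h2, rfl⟩ | ⟨h2, rfl⟩ | ⟨h2, rfl⟩
  · linarith only []
  · linarith only [h1]
  · linarith only [hk, h2]

/-- the third and fourth moments together are at most a quarter of the second one -/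
theorem M34_le {r : ℕ} {n : ℕ} (hn : 1 ≤ n) (z : Fin r → ℕ) :
    M34 n z ≤ mo 2 n (re z) / 4 := by
  have hn0 : (0 : ℝ) < n := by exact_mod_cast hn
  unfold M34 mo
  rw [Finset.sum_div, Finset.sum_div, Finset.sum_div, ← Finset.sum_sub_distrib]
  refine Finset.sum_le_sum fun i _ => ?_
  set d : ℝ := re z i - n / r with hd
  have h1 : d ^ 3 / n - d ^ 4 / (n : ℝ) ^ 2 = d ^ 2 * (d / n - (d / n) ^ 2) := by
    field_simp
  rw [h1]
  have h2 : d / n - (d / n) ^ 2 ≤ 1 / 4 := by nlinarith only [sq_nonneg (d / n - 1 / 2)]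
  nlinarith only [mul_le_mul_of_nonneg_left h2 (sq_nonneg d)]

/-- a crude lower bound -/
theorem M34_ge {r : ℕ} {n : ℕ} (hn : 1 ≤ n) {z : Fin r → ℕ}
    (h : ∀ i, |(z i : ℝ) - n / r| ≤ 2 * √(n : ℝ)) :
    -(r * (8 * √(n : ℝ) + 16)) ≤ M34 n z := by
  have hn0 : (0 : ℝ) < n := by exact_mod_cast hn
  unfold M34 mo
  rw [Finset.sum_div, Finset.sum_div, ← Finset.sum_sub_distrib]
  have h1 : ∀ i ∈ (Finset.univ : Finset (Fin r)), -(8 * √(n : ℝ) + 16) ≤
      (re z i - n / r) ^ 3 / n - (re z i - n / r) ^ 4 / (n : ℝ) ^ 2 := by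
    intro i _
    set d : ℝ := re z i - n / r with hd
    have h2 : |d| ≤ 2 * √(n : ℝ) := h i
    have hs : √(n : ℝ) ^ 2 = n := Real.sq_sqrt hn0.le
    have hs0 : 0 ≤ √(n : ℝ) := Real.sqrt_nonneg _
    have h3 : |d| ^ 3 ≤ (2 * √(n : ℝ)) ^ 3 := pow_le_pow_left₀ (abs_nonneg _) h2 3
    have h4 : |d| ^ 4 ≤ (2 * √(n : ℝ)) ^ 4 := pow_le_pow_left₀ (abs_nonneg _) h2 4
    have e3 : (2 * √(n : ℝ)) ^ 3 = 8 * √(n : ℝ) * n := by
      calc (2 * √(n : ℝ)) ^ 3 = 8 * √(n : ℝ) * √(n : ℝ) ^ 2 := by ring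
        _ = 8 * √(n : ℝ) * n := by rw [hs]
    have e4 : (2 * √(n : ℝ)) ^ 4 = 16 * (n : ℝ) ^ 2 := by
      calc (2 * √(n : ℝ)) ^ 4 = 16 * (√(n : ℝ) ^ 2) ^ 2 := by ring
        _ = 16 * (n : ℝ) ^ 2 := by rw [hs]
    rw [e3] at h3
    rw [e4] at h4
    have h5 : -(8 * √(n : ℝ)) ≤ d ^ 3 / n := by
      rw [le_div_iff₀ hn0]
      have := neg_abs_le (d ^ 3)
      rw [abs_pow] at this
      linarith only [this, h3]
    have h6 : d ^ 4 / (n : ℝ) ^ 2 ≤ 16 := by
      rw [div_le_iff₀ (by positivity)]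
      have := le_abs_self (d ^ 4)
      rw [abs_pow] at this
      linarith only [this, h4]
    linarith only [h5, h6]
  have h2 := Finset.sum_le_sum h1
  rw [Finset.sum_const, Finset.card_univ, Fintype.card_fin, nsmul_eq_mul] at h2
  linarith only [h2]

/-- the second moment -/
theorem mo2_eq {r : ℕ} (hr : 3 ≤ r) {m n : ℕ} {y : Fin r → ℕ} (hy : ∑ i, y i = n) :
    mo 2 n (re y) = RR r m n + 2 * kk m n y := X_WINB.mo2_eq hr hy

end X_OPTA

/-- **OPTA** : `OptR` implies `OptA` for large `n` -/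
theorem optA_of (hCND : Stmt_CND) (r : ℕ) (hr : 3 ≤ r) (K : ℝ) (hK : 1 ≤ K) : ∃ n0 : ℕ,
    ∀ n ≥ n0, ∀ (m : ℕ) (y : Fin r → ℕ) (c : ℝ), (r : ℝ) ≤ RR r m n → RR r m n ≤ 2 * n →
      |kk m n y| ≤ K * √(√(n : ℝ)) → OptR m n K y c → OptA m n K y c := by
  have hrr : (3 : ℝ) ≤ r := by exact_mod_cast hr
  have hr1 : (0 : ℝ) < r - 1 := by linarith only [hrr]
  obtain ⟨K1, n1, hK1, H1⟩ := hCND r hr
  obtain ⟨B, hB⟩ : ∃ B : ℝ, B = 4 * (r * (K + K1)) + 100 * r ^ 2 := ⟨_, rfl⟩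
  have hB1 : 1 ≤ B := by rw [hB]; nlinarith only [hrr, hK, hK1]
  refine ⟨n1 + ⌈B ^ 4⌉₊ + 1, ?_⟩
  intro n hn m y c hR1 hR2 hky hO z c' hz hc'
  have hn1 : 1 ≤ n := by omega
  have hn0 : (0 : ℝ) < n := by exact_mod_cast hn1
  have hBn : B ≤ √(√(n : ℝ)) := by
    refine Real.le_sqrt_of_sq_le (Real.le_sqrt_of_sq_le ?_)
    calc (B ^ 2) ^ 2 = B ^ 4 := by ring
      _ ≤ (⌈B ^ 4⌉₊ : ℝ) := Nat.le_ceil _
      _ ≤ (n : ℝ) := by exact_mod_cast (by omega : ⌈B ^ 4⌉₊ ≤ n)
  obtain ⟨q, hq⟩ : ∃ q : ℝ, q = √(√(n : ℝ)) := ⟨_, rfl⟩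
  obtain ⟨s, hs⟩ : ∃ s : ℝ, s = √(n : ℝ) := ⟨_, rfl⟩
  have hqs : q * q = s := by rw [hq, hs]; exact Real.mul_self_sqrt (Real.sqrt_nonneg _)
  have hss : s * s = n := by rw [hs]; exact Real.mul_self_sqrt hn0.le
  rw [← hq] at hBn hky
  have hq0 : 0 ≤ q := by linarith only [hBn, hB1]
  have hq1 : 1 ≤ q := by linarith only [hBn, hB1]
  have hBq : B * q ≤ s := by
    rw [← hqs]
    exact mul_le_mul_of_nonneg_right hBn hq0
  have hs1 : 1 ≤ s := by nlinarith only [hqs, hq1]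
  have hmo : mo 2 n (re z) = RR r m n + 2 * kk m n z := X_OPTA.mo2_eq hr hz
  have hmo0 : 0 ≤ mo 2 n (re z) := by
    unfold mo
    exact Finset.sum_nonneg fun _ _ => sq_nonneg _
  have herr : 0 ≤ K * (1 + |kk m n y| + |kk m n z|) / √(n : ℝ) := by
    have := abs_nonneg (kk m n y)
    have := abs_nonneg (kk m n z)
    positivity
  have hsn : s ≤ n := by nlinarith only [hss, hs1]
  by_cases hk : |kk m n z| ≤ √(n : ℝ)
  · -- inside the domain of `OptR`
    refine hO z c' hz ?_ hk hc'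
    intro i
    have h1 : (re z i - n / r) ^ 2 ≤ mo 2 n (re z) := by
      unfold mo
      exact Finset.single_le_sum (f := fun i => (re z i - (n : ℝ) / r) ^ 2)
        (fun _ _ => sq_nonneg _) (Finset.mem_univ i)
    have h2 : kk m n z ≤ √(n : ℝ) := (le_abs_self _).trans hk
    rw [← hs] at h2
    have h3 : (re z i - n / r) ^ 2 ≤ (2 * √(n : ℝ)) ^ 2 := by
      rw [mul_pow, Real.sq_sqrt hn0.le]
      linarith only [h1, hmo, h2, hR2, hsn]
    exact abs_le_of_sq_le_sq h3 (by positivity)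
  · push Not at hk
    rw [← hs] at hk
    -- the candidate
    obtain ⟨zc, hc1, hc2, hc3, hc4⟩ := H1 n (by omega) m
      (by unfold RR at hR1; linarith only [hR1, hrr]) (by unfold RR at hR2; exact hR2)
    rw [← hq] at hc3
    have hkc : |kk m n zc| ≤ √(n : ℝ) := by
      rw [← hs]
      have h1 : K1 * q ≤ B * q := mul_le_mul_of_nonneg_right
        (by rw [hB]; nlinarith only [hrr, hK, hK1]) hq0
      linarith only [h1, hc3, hBq]
    obtain ⟨cc, hcc, hccle⟩ := X_WINA.cost (m := m) hr hc1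
    have h1 := hO zc cc hc1 hc2 hkc hcc
    have h2 : K * (1 + |kk m n y| + |kk m n zc|) / √(n : ℝ) ≤ K * 3 := by
      rw [← hs, div_le_iff₀ (by linarith only [hs1])]
      have h3 : |kk m n y| ≤ s := by
        have h4 : K * q ≤ B * q := mul_le_mul_of_nonneg_right
          (by rw [hB]; nlinarith only [hrr, hK, hK1]) hq0
        linarith only [hky, h4, hBq]
      rw [← hs] at hkc
      have h5 : 1 + |kk m n y| + |kk m n zc| ≤ 3 * s := by linarith only [h3, hkc, hs1]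
      calc K * (1 + |kk m n y| + |kk m n zc|) ≤ K * (3 * s) :=
            mul_le_mul_of_nonneg_left h5 (by linarith only [hK])
        _ = K * 3 * s := by ring
    have hup : c - M34 n y ≤ -M34 n zc + 2 * (K1 * q) + 3 * K := by
      linarith only [h1, h2, hccle, hc3]
    by_cases hkn : |kk m n z| ≤ n
    · have h3 := hc4 z hz hkn
      rw [← hs] at h3
      have h4 := X_OPTA.cost_ge hr hc'
      obtain ⟨κ, hκ⟩ : ∃ κ, κ = |kk m n z| := ⟨_, rfl⟩
      rw [← hκ] at h3 h4 hk hkn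
      -- `2 κ/(r-1) - K1 (1 + κ/s) ≥ 2 K1 q + 3 K`
      have h5 : K1 * (1 + κ / s) ≤ κ / (r - 1) / 2 := by
        have hsp : 0 < s := by linarith only [hs1]
        have h6 : 4 * (r : ℝ) * K1 ≤ s := by
          have : 4 * (r : ℝ) * K1 ≤ B := by
            rw [hB]
            nlinarith only [hrr, hK, hK1]
          have h7 : B ≤ B * q := le_mul_of_one_le_right (by linarith only [hB1]) hq1
          linarith only [this, h7, hBq]
        have h7 : K1 * (1 + κ / s) ≤ K1 * (2 * (κ / s)) := by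
          refine mul_le_mul_of_nonneg_left ?_ (by linarith only [hK1])
          have : 1 ≤ κ / s := by rw [le_div_iff₀ hsp]; linarith only [hk]
          linarith only [this]
        refine h7.trans ?_
        rw [div_div, show K1 * (2 * (κ / s)) = 2 * K1 * κ / s by ring,
          div_le_div_iff₀ hsp (by linarith only [hr1])]
        have hκ0 : 0 ≤ κ := by linarith only [hk, hs1]
        have h8 : 2 * K1 * ((r - 1) * 2) ≤ s := by nlinarith only [h6, hK1]
        calc 2 * K1 * κ * ((r - 1) * 2) = κ * (2 * K1 * ((r - 1) * 2)) := by ring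
          _ ≤ κ * s := mul_le_mul_of_nonneg_left h8 hκ0
      have h6 : 2 * (K1 * q) + 3 * K ≤ κ / (r - 1) := by
        rw [le_div_iff₀ hr1]
        have h7 : (2 * (K1 * q) + 3 * K) * (r - 1) ≤ B * q := by
          have h8 : 3 * K ≤ 3 * K * q := le_mul_of_one_le_right (by linarith only [hK]) hq1
          have h9 : 2 * (K1 * q) + 3 * K ≤ 4 * (K + K1) * q := by
            nlinarith only [h8, hK1, hK, hq1]
          have h10 : (2 * (K1 * q) + 3 * K) * (r - 1) ≤ 4 * (K + K1) * q * (r - 1) :=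
            mul_le_mul_of_nonneg_right h9 hr1.le
          have h11 : 4 * (K + K1) * q * (r - 1) ≤ 4 * (K + K1) * q * r :=
            mul_le_mul_of_nonneg_left (by linarith only []) (by nlinarith only [hK, hK1, hq0])
          have h12 : 4 * (K + K1) * q * r ≤ B * q := by
            rw [hB]
            nlinarith only [hrr, hq0]
          linarith only [h10, h11, h12]
        linarith only [h7, hBq, hk]
      have h7 : 2 * κ / (r - 1) = κ / (r - 1) + κ / (r - 1) := by ring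
      have h8 : 0 ≤ κ / ((r : ℝ) - 1) :=
        div_nonneg (by linarith only [hk, hs1]) hr1.le
      rw [h7] at h4
      linarith only [hup, h3, h4, h5, h6, herr, h8]
    · push Not at hkn
      have hpos : 0 ≤ kk m n z := by
        by_contra hneg
        push Not at hneg
        rw [abs_of_neg hneg] at hkn
        linarith only [hkn, hmo, hmo0, hR2]
      rw [abs_of_nonneg hpos] at hkn
      have h3 := X_OPTA.M34_le hn1 z
      rw [hmo] at h3
      have h4 := X_OPTA.cost_ge' hr hpos hc'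
      have h5 := X_OPTA.M34_ge hn1 hc2
      rw [← hs] at h5
      have h6 : r * (8 * s + 16) + 2 * (K1 * q) + 3 * K + 3 ≤ n := by
        rw [← hss]
        have h7 : B ≤ s := by
          have : B ≤ B * q := le_mul_of_one_le_right (by linarith only [hB1]) hq1
          linarith only [this, hBq]
        have h8 : B * s ≤ s * s := mul_le_mul_of_nonneg_right h7 (by linarith only [hs1])
        have h9 : q ≤ s := by nlinarith only [hqs, hq1]
        have h10 : r * (8 * s + 16) + 2 * (K1 * q) + 3 * K + 3 ≤ B * s := by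
          have e1 : r * (8 * s + 16) ≤ 24 * r * s := by nlinarith only [hrr, hs1]
          have e2 : 2 * (K1 * q) ≤ 2 * K1 * s := by nlinarith only [h9, hK1]
          have e3 : 3 * K ≤ 3 * K * s := le_mul_of_one_le_right (by linarith only [hK]) hs1
          have e4 : 24 * (r : ℝ) + 2 * K1 + 3 * K + 3 ≤ B := by
            rw [hB]
            nlinarith only [hrr, hK, hK1]
          have e5 : (24 * (r : ℝ) + 2 * K1 + 3 * K + 3) * s ≤ B * s :=
            mul_le_mul_of_nonneg_right e4 (by linarith only [hs1])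
          linarith only [e1, e2, e3, e5, hs1]
        linarith only [h8, h10]
      linarith only [hup, h3, h4, h5, h6, hkn, herr, hR2]

theorem q_OPTA (r : ℕ) (hr : 3 ≤ r) (K : ℝ) (hK : 1 ≤ K) : ∃ n0 : ℕ,
    ∀ n ≥ n0, ∀ (m : ℕ) (y : Fin r → ℕ) (c : ℝ), (r : ℝ) ≤ RR r m n → RR r m n ≤ 2 * n →
      |kk m n y| ≤ K * √(√(n : ℝ)) → OptR m n K y c → OptA m n K y c :=
  optA_of q_CND r hr K hK

end Pool.Agent.Work.MP_5532fa_up
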